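import Pool.Agent.Y749.Rig.Tst

/-! # Test functions: the hat function, modulation, windows and the pair correlation function -/

set_option autoImplicit false

open MeasureTheory Set Filter Topology
open Complex (I)
open scoped FourierTransform

namespace Pool.Agent.Y749.Rig

/-- the hat function of half width `h` and integral one -/
noncomputable def tr (h α : ℝ) : ℝ := max 0 (1 - |α| / h) / h

lemma tr_even (h x : ℝ) : tr h (-x) = tr h x := by unfold tr; rw [abs_neg]

lemma tr_nonneg {h : ℝ} (hh : 0 < h) (x : ℝ) : 0 ≤ tr h x := by unfold tr; positivity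

lemma tr_cont (h : ℝ) : Continuous (tr h) := by unfold tr; fun_prop

lemma tr_supp {h : ℝ} (hh : 0 < h) (x : ℝ) (hx : h ≤ |x|) : tr h x = 0 := by
  unfold tr
  rw [max_eq_left, zero_div]
  have : 1 ≤ |x| / h := by rwa [one_le_div hh]
  linarith

lemma tr_eq {h x : ℝ} (hh : 0 < h) (h0 : 0 ≤ x) (h1 : x ≤ h) : tr h x = (1 - x / h) / h := by
  unfold tr
  rw [abs_of_nonneg h0, max_eq_right]
  have : x / h ≤ 1 := by rwa [div_le_one hh]
  linarith

lemma tr_lip {h : ℝ} (hh : 0 < h) (x y : ℝ) : |tr h x - tr h y| ≤ 1 / h ^ 2 * |x - y| := by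
  unfold tr
  rw [← sub_div, abs_div, abs_of_pos hh, div_le_iff₀ hh]
  have h1 := abs_max_sub_max_le_abs (1 - |x| / h) (1 - |y| / h) 0
  rw [max_comm, max_comm 0 (1 - |y| / h)]
  refine h1.trans ?_
  have : 1 - |x| / h - (1 - |y| / h) = (|y| - |x|) / h := by ring
  rw [this, abs_div, abs_of_pos hh]
  have h2 : |(|y| - |x|)| ≤ |x - y| := by
    refine (abs_abs_sub_abs_le_abs_sub y x).trans ?_
    rw [abs_sub_comm]
  calc |(|y| - |x|)| / h ≤ |x - y| / h := by gcongr
    _ = 1 / h ^ 2 * |x - y| * h := by field_simp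

lemma tr_int {h : ℝ} (hh : 0 < h) : Integrable (tr h) := by
  refine (tr_cont h).integrable_of_hasCompactSupport ?_
  refine HasCompactSupport.of_support_subset_isCompact (isCompact_Icc (a := -h) (b := h)) ?_
  intro x hx
  by_contra hcon
  apply hx
  apply tr_supp hh
  by_contra h2
  push Not at h2
  exact hcon ⟨(abs_lt.1 h2).1.le, (abs_lt.1 h2).2.le⟩

/-- a function supported in `[-h, h]` -/
lemma int_supp {E : Type*} [NormedAddCommGroup E] [NormedSpace ℝ E] {h : ℝ} (hh : 0 < h) {f : ℝ → E}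
    (hf : ∀ x, h ≤ |x| → f x = 0) : ∫ x, f x = ∫ x in (-h)..h, f x := by
  rw [intervalIntegral.integral_of_le (by linarith), ← integral_indicator measurableSet_Ioc]
  refine integral_congr_ae (ae_of_all _ fun x => ?_)
  show f x = (Ioc (-h) h).indicator f x
  by_cases hx : x ∈ Ioc (-h) h
  · rw [indicator_of_mem hx]
  · rw [indicator_of_notMem hx]
    apply hf
    by_contra h2
    push Not at h2
    exact hx ⟨(abs_lt.1 h2).1, (abs_lt.1 h2).2.le⟩

lemma FL_tr {h : ℝ} (hh : 0 < h) {z : ℂ} (hz : z ≠ 0) :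
    FL (tr h) z = (1 - Complex.cos (2 * Real.pi * h * z)) / (2 * Real.pi ^ 2 * h ^ 2 * z ^ 2) := by
  have hpi : (Real.pi : ℂ) ≠ 0 := by exact_mod_cast Real.pi_ne_zero
  have hh' : (h : ℂ) ≠ 0 := by exact_mod_cast hh.ne'
  unfold FL
  rw [int_supp hh (fun x hx => by rw [tr_supp hh x hx]; simp)]
  have hc : Continuous fun α : ℝ => (tr h α : ℂ) * Complex.exp (2 * Real.pi * I * α * z) := by
    have := tr_cont h
    fun_prop
  rw [← intervalIntegral.integral_add_adjacent_intervals (b := 0) (hc.intervalIntegrable _ _)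
    (hc.intervalIntegrable _ _)]
  have h5 : ∫ α in (-h)..0, (tr h α : ℂ) * Complex.exp (2 * Real.pi * I * α * z) =
      ∫ α in (0 : ℝ)..h, (tr h α : ℂ) * Complex.exp (-(2 * Real.pi * I * α * z)) := by
    have := intervalIntegral.integral_comp_neg (a := (0 : ℝ)) (b := h)
      fun α : ℝ => (tr h α : ℂ) * Complex.exp (2 * Real.pi * I * α * z)
    rw [neg_zero] at this
    rw [← this]
    refine intervalIntegral.integral_congr fun α _ => ?_
    show (tr h (-α) : ℂ) * Complex.exp (2 * Real.pi * I * ((-α : ℝ) : ℂ) * z) = _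
    rw [tr_even]
    congr 2
    push_cast; ring
  have hc2 : Continuous fun α : ℝ => (tr h α : ℂ) * Complex.exp (-(2 * Real.pi * I * α * z)) := by
    have := tr_cont h
    fun_prop
  rw [h5, ← intervalIntegral.integral_add (hc2.intervalIntegrable _ _) (hc.intervalIntegrable _ _)]
  have h6 : ∫ α in (0 : ℝ)..h, ((tr h α : ℂ) * Complex.exp (-(2 * Real.pi * I * α * z)) +
      (tr h α : ℂ) * Complex.exp (2 * Real.pi * I * α * z)) =
      ∫ α in (0 : ℝ)..h, (2 / h : ℂ) * ((1 - α / h) * Complex.cos (2 * Real.pi * α * z)) := by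
    refine intervalIntegral.integral_congr fun α hα => ?_
    rw [uIcc_of_le hh.le] at hα
    rw [tr_eq hh hα.1 hα.2, Complex.cos]
    push_cast
    have e1 : 2 * (Real.pi : ℂ) * α * z * I = 2 * Real.pi * I * α * z := by ring
    have e2 : -(2 * (Real.pi : ℂ) * α * z) * I = -(2 * Real.pi * I * α * z) := by ring
    rw [e1, e2]
    field_simp
    ring
  rw [h6, intervalIntegral.integral_const_mul]
  have h7 : ∫ α in (0 : ℝ)..h, ((1 - α / h : ℂ) * Complex.cos (2 * Real.pi * α * z)) =
      (1 - Complex.cos (2 * Real.pi * h * z)) / (h * (2 * Real.pi * z) ^ 2) := by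
    have hd : ∀ α : ℝ, HasDerivAt (fun α : ℝ => (1 - α / h : ℂ) *
        (Complex.sin (2 * Real.pi * α * z) / (2 * Real.pi * z)) -
        Complex.cos (2 * Real.pi * α * z) / (h * (2 * Real.pi * z) ^ 2))
        ((1 - α / h : ℂ) * Complex.cos (2 * Real.pi * α * z)) α := by
      intro α
      have d0 : HasDerivAt (fun α : ℝ => (α : ℂ)) 1 α := Complex.ofRealCLM.hasDerivAt
      have d1 : HasDerivAt (fun α : ℝ => 2 * Real.pi * (α : ℂ) * z) (2 * Real.pi * 1 * z) α :=
        (d0.const_mul _).mul_const _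
      have d2 : HasDerivAt (fun α : ℝ => (1 - α / h : ℂ)) (-(1 / h)) α :=
        (d0.div_const _).const_sub _
      have d3 := (Complex.hasDerivAt_sin (2 * Real.pi * (α : ℂ) * z)).comp α d1
      have d4 := (Complex.hasDerivAt_cos (2 * Real.pi * (α : ℂ) * z)).comp α d1
      refine ((d2.mul (d3.div_const (2 * Real.pi * z))).sub
        (d4.div_const (h * (2 * Real.pi * z) ^ 2))).congr_deriv ?_
      simp only [Function.comp_apply]
      field_simp
      ring
    rw [intervalIntegral.integral_eq_sub_of_hasDerivAt (fun α _ => hd α)]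
    · simp only [Complex.ofReal_zero, mul_zero, zero_mul, Complex.sin_zero, Complex.cos_zero,
        zero_div, sub_zero]
      rw [div_self hh']
      ring
    · apply Continuous.intervalIntegrable
      fun_prop
  rw [h7]
  field_simp

lemma norm_cos_le (z : ℂ) : ‖Complex.cos z‖ ≤ Real.exp |z.im| := by
  unfold Complex.cos
  have h1 : ‖Complex.exp (z * I)‖ ≤ Real.exp |z.im| := by
    rw [Complex.norm_exp]
    apply Real.exp_le_exp.2
    simp only [Complex.mul_re, Complex.I_re, mul_zero, Complex.I_im, mul_one, zero_sub]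
    exact neg_le_abs _
  have h2 : ‖Complex.exp (-z * I)‖ ≤ Real.exp |z.im| := by
    rw [Complex.norm_exp]
    apply Real.exp_le_exp.2
    simp only [Complex.mul_re, Complex.I_re, mul_zero, Complex.I_im, mul_one, zero_sub,
      Complex.neg_im, neg_neg]
    exact le_abs_self _
  rw [norm_div, Complex.norm_ofNat, div_le_iff₀ (by norm_num)]
  have := norm_add_le (Complex.exp (z * I)) (Complex.exp (-z * I))
  linarith

lemma norm_exp_le {M : ℝ} {α : ℝ} (hα : |α| ≤ M) (z : ℂ) :
    ‖Complex.exp (2 * Real.pi * I * α * z)‖ ≤ Real.exp (2 * Real.pi * M * |z.im|) := by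
  rw [Complex.norm_exp]
  apply Real.exp_le_exp.2
  have : (2 * Real.pi * I * α * z).re = -(2 * Real.pi * (α * z.im)) := by
    have : 2 * Real.pi * I * α * z = ((2 * Real.pi * α : ℝ) : ℂ) * (I * z) := by push_cast; ring
    rw [this, Complex.re_ofReal_mul]
    simp; ring
  rw [this]
  have h1 : |α * z.im| ≤ M * |z.im| := by rw [abs_mul]; gcongr
  have h2 := neg_abs_le (α * z.im)
  have hpi := Real.pi_pos
  nlinarith

lemma adm_tr {h : ℝ} (hh : 0 < h) : Adm h (tr h) := by
  refine ⟨tr_even h, ⟨_, tr_lip hh⟩, tr_supp hh, ?_⟩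
  have hpi := Real.pi_pos
  refine ⟨max (2 * ∫ x, tr h x) (2 / (Real.pi ^ 2 * h ^ 2)), fun x y => ?_⟩
  obtain ⟨C, hC⟩ : ∃ C : ℝ, C = max (2 * ∫ x, tr h x) (2 / (Real.pi ^ 2 * h ^ 2)) := ⟨_, rfl⟩
  rw [← hC]
  have hC1 : 2 * ∫ x, tr h x ≤ C := by rw [hC]; exact le_max_left _ _
  have hC2 : 2 / (Real.pi ^ 2 * h ^ 2) ≤ C := by rw [hC]; exact le_max_right _ _
  have him : (x + y * I : ℂ).im = y := by simp
  rcases le_or_gt (|x|) 1 with hx | hx
  · -- trivial bound
    have h1 : ‖FL (tr h) (x + y * I)‖ ≤ (∫ x, tr h x) * Real.exp (2 * Real.pi * h * |y|) := by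
      unfold FL
      rw [← integral_mul_const]
      refine norm_integral_le_of_norm_le ((tr_int hh).mul_const _) (ae_of_all _ fun α => ?_)
      rw [norm_mul, Complex.norm_real, Real.norm_eq_abs, abs_of_nonneg (tr_nonneg hh α)]
      rcases le_or_gt h |α| with hα | hα
      · rw [tr_supp hh α hα]; simp
      · apply mul_le_mul_of_nonneg_left _ (tr_nonneg hh α)
        have := norm_exp_le hα.le (x + y * I)
        rwa [him] at this
    refine h1.trans ?_
    rw [le_div_iff₀ (by positivity)]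
    have h2 : x ^ 2 ≤ 1 := by rw [← sq_abs]; exact pow_le_one₀ (abs_nonneg _) hx
    have h3 : 0 ≤ ∫ x, tr h x := integral_nonneg fun x => tr_nonneg hh x
    have h4 := Real.exp_pos (2 * Real.pi * h * |y|)
    calc (∫ x, tr h x) * Real.exp (2 * Real.pi * h * |y|) * (1 + x ^ 2) ≤
          (∫ x, tr h x) * Real.exp (2 * Real.pi * h * |y|) * 2 := by gcongr; linarith
      _ = (2 * ∫ x, tr h x) * Real.exp (2 * Real.pi * h * |y|) := by ring
      _ ≤ C * Real.exp (2 * Real.pi * h * |y|) := by gcongr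
  · have hx2 : 1 < x ^ 2 := by rw [← sq_abs]; exact one_lt_pow₀ hx (by norm_num)
    have hz : (x + y * I : ℂ) ≠ 0 := by
      intro h0
      have := congrArg Complex.re h0
      simp at this
      rw [this] at hx
      norm_num at hx
    rw [FL_tr hh hz, norm_div]
    have h1 : ‖1 - Complex.cos (2 * Real.pi * h * (x + y * I))‖ ≤ 2 * Real.exp (2 * Real.pi * h * |y|) := by
      have h2 := norm_cos_le (2 * Real.pi * h * (x + y * I))
      have h3 : (2 * Real.pi * h * (x + y * I) : ℂ).im = 2 * Real.pi * h * y := by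
        have : (2 * Real.pi * h * (x + y * I) : ℂ) = ((2 * Real.pi * h : ℝ) : ℂ) * (x + y * I) := by
          push_cast; ring
        rw [this, Complex.im_ofReal_mul, him]
      rw [h3, abs_mul, abs_of_pos (show 0 < 2 * Real.pi * h by positivity)] at h2
      have h4 := norm_sub_le (1 : ℂ) (Complex.cos (2 * Real.pi * h * (x + y * I)))
      rw [norm_one] at h4
      have h5 : 1 ≤ Real.exp (2 * Real.pi * h * |y|) := Real.one_le_exp (by positivity)
      linarith
    have h6 : x ^ 2 ≤ ‖(x + y * I : ℂ)‖ ^ 2 := by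
      have := Complex.sq_norm (x + y * I)
      rw [this, Complex.normSq_apply]
      simp
      nlinarith [sq_nonneg y]
    have h7 : ‖(2 * Real.pi ^ 2 * h ^ 2 * (x + y * I) ^ 2 : ℂ)‖ =
        2 * Real.pi ^ 2 * h ^ 2 * ‖(x + y * I : ℂ)‖ ^ 2 := by
      rw [norm_mul, norm_mul, norm_mul, norm_pow, norm_pow, norm_pow, Complex.norm_real,
        Complex.norm_real, Complex.norm_ofNat, Real.norm_eq_abs, Real.norm_eq_abs,
        abs_of_pos hpi, abs_of_pos hh]
    rw [h7]
    have hE := Real.exp_pos (2 * Real.pi * h * |y|)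
    calc ‖1 - Complex.cos (2 * Real.pi * h * (x + y * I))‖ /
          (2 * Real.pi ^ 2 * h ^ 2 * ‖(x + y * I : ℂ)‖ ^ 2) ≤
          2 * Real.exp (2 * Real.pi * h * |y|) / (2 * Real.pi ^ 2 * h ^ 2 * x ^ 2) := by
          gcongr
      _ = 2 / (Real.pi ^ 2 * h ^ 2) * Real.exp (2 * Real.pi * h * |y|) / (2 * x ^ 2) := by
          field_simp
      _ ≤ 2 / (Real.pi ^ 2 * h ^ 2) * Real.exp (2 * Real.pi * h * |y|) / (1 + x ^ 2) := by
          gcongr
          linarith
      _ ≤ _ := by gcongr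

/-- the real Fourier transform of the hat function -/
lemma fl_tr {h : ℝ} (hh : 0 < h) {x : ℝ} (hx : x ≠ 0) :
    fl (tr h) x = (Real.sin (Real.pi * h * x) / (Real.pi * h * x)) ^ 2 := by
  have h1 := FL_tr hh (z := (x : ℂ)) (by exact_mod_cast hx)
  rw [FL_real (tr_int hh) (tr_even h)] at h1
  have h2 : (fl (tr h) x : ℂ) = (((1 - Real.cos (2 * Real.pi * h * x)) /
      (2 * Real.pi ^ 2 * h ^ 2 * x ^ 2) : ℝ) : ℂ) := by
    rw [h1]; push_cast; rfl
  have h3 := Complex.ofReal_injective h2
  rw [h3]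
  have h4 : Real.cos (2 * Real.pi * h * x) = 1 - 2 * Real.sin (Real.pi * h * x) ^ 2 := by
    rw [show 2 * Real.pi * h * x = 2 * (Real.pi * h * x) by ring, Real.cos_two_mul,
      Real.cos_sq']
    ring
  rw [h4]
  have hpi := Real.pi_pos
  field_simp
  ring

/-- the pair correlation function -/
noncomputable def FF (x : ℝ) : ℝ := 1 - (Real.sin (Real.pi * x) / (Real.pi * x)) ^ 2

/-- the value of the pair correlation of the Gaussian unitary ensemble at a test function -/
noncomputable def cc (ψ : ℝ → ℝ) : ℝ := ψ 0 + ∫ α, |α| * ψ α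

lemma gue {κ : ℝ} {ψ : ℝ → ℝ} (h : Adm κ ψ) (hκ : κ ≤ 1) :
    fl ψ 0 + ∫ x, fl ψ x * FF x = cc ψ := by
  have h1 : ∫ x, fl ψ x * fl (tr 1) x = ∫ x, ψ x * tr 1 x := by
    rw [parseval h.int (fl_int (adm_tr one_pos)) h.even fun x => fl_even x]
    refine integral_congr_ae (ae_of_all _ fun x => ?_)
    simp only
    rw [inv_four (adm_tr one_pos)]
  have h2 : ∫ x, fl ψ x * FF x = ∫ x, (fl ψ x - fl ψ x * fl (tr 1) x) := by
    refine integral_congr_ae ?_
    have : ∀ᵐ x : ℝ, x ≠ 0 := by
      rw [ae_iff]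
      simp
    filter_upwards [this] with x hx
    rw [fl_tr one_pos hx, FF, mul_one]
    ring
  have i1 := fl_int h
  have i2 : Integrable fun x => fl ψ x * fl (tr 1) x := by
    obtain ⟨B, hB⟩ := fl_bound (adm_tr one_pos)
    have hc := fl_cont (tr_int one_pos)
    have hB0 : 0 ≤ B := by
      have := (abs_nonneg _).trans (hB 0)
      simpa using this
    refine i1.mul_bdd (c := B) hc.aestronglyMeasurable (ae_of_all _ fun x => ?_)
    rw [Real.norm_eq_abs]
    refine (hB x).trans ?_
    apply div_le_self hB0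
    nlinarith [sq_nonneg x]
  rw [h2, integral_sub i1 i2, int_fl h, h1]
  have h3 : ∀ x, ψ x * tr 1 x = ψ x - |x| * ψ x := by
    intro x
    rcases le_or_gt 1 |x| with hx | hx
    · rw [h.supp x (hκ.trans hx)]; ring
    · unfold tr
      rw [div_one, div_one, max_eq_right (by linarith)]
      ring
  have i3 : Integrable fun x => |x| * ψ x := by
    refine Continuous.integrable_of_hasCompactSupport ?_ ?_
    · have := h.cont
      fun_prop
    · exact h.hcs.mul_left
  simp_rw [h3]
  rw [integral_sub h.int i3]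
  have h4 : fl ψ 0 = ∫ x, ψ x := by
    unfold fl; simp
  rw [h4]
  unfold cc
  ring

end Pool.Agent.Y749.Rig
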