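import Pool.Agent.Y749.Rig.Brg

/-! # The one-sided theorem in terms of the counting functions -/

set_option autoImplicit false

open MeasureTheory Set Filter Topology
open scoped NNReal ENNReal

namespace Pool.Agent.Y749.Rig

open H370 (mult)

/-- the set of pairs -/
def PW (T α β : ℝ) : Set (ℂ × ℂ) := {p : ℂ × ℂ | p.1 ∈ zs T ∧ p.2 ∈ zs T ∧
  (p.1.im - p.2.im) * Real.log T / (2 * Real.pi) ∈ Icc α β}

/-- the number of pairs -/
noncomputable def nw (T α β : ℝ) : ℕ := ∑ᶠ p ∈ PW T α β,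
  analyticOrderNatAt riemannZeta p.1 * analyticOrderNatAt riemannZeta p.2

/-- the number of zeros off the critical line -/
noncomputable def noff (T : ℝ) : ℕ := ∑ᶠ s ∈ {s : ℂ | s ∈ zs T ∧ s.re ≠ 1 / 2},
  analyticOrderNatAt riemannZeta s

lemma PW_eq (T α β : ℝ) : PW T α β = ↑((ZZ T ×ˢ ZZ T).filter
      (fun p => (p.1.im - p.2.im) * Real.log T / (2 * Real.pi) ∈ Icc α β)) := by
  classical
  ext p
  unfold PW
  simp only [Finset.coe_filter, Finset.mem_product, Set.mem_ofPred_eq, mem_ZZ]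
  tauto

lemma PW_finite (T α β : ℝ) : (PW T α β).Finite := by
  rw [PW_eq]; exact Finset.finite_toSet _

lemma nw_RR (T α β : ℝ) : (nw T α β : ℝ) =
    RR ((Icc α β).indicator fun _ => 1) (ZZ T) (ZZ T) (Real.log T) := by
  classical
  unfold nw RR
  rw [PW_eq, finsum_mem_coe_finset, Finset.sum_filter, Finset.sum_product]
  push_cast
  refine Finset.sum_congr rfl fun s _ => Finset.sum_congr rfl fun w _ => ?_
  by_cases h : (s.im - w.im) * Real.log T / (2 * Real.pi) ∈ Icc α β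
  · rw [indicator_of_mem h, if_pos h, mul_one]; rfl
  · rw [indicator_of_notMem h, if_neg h, mul_zero]

lemma nw_Mp {T : ℝ} (hT : 10 ≤ T) (α β : ℝ) :
    (nw T α β : ℝ) / nT T = (Mp T).real (Icc α β) := by
  rw [Mp_real hT measurableSet_Icc, nw_RR]

lemma noff_NF (T : ℝ) : (noff T : ℝ) = NF T := by
  classical
  unfold noff NF
  have e : {s : ℂ | s ∈ zs T ∧ s.re ≠ 1 / 2} = ↑((ZZ T).filter (fun s => s.re ≠ 1 / 2)) := by
    ext s
    simp only [Finset.coe_filter, Set.mem_ofPred_eq, mem_ZZ]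
  rw [e, finsum_mem_coe_finset]
  push_cast
  rfl

/-- one-sided far bound, from above -/
def UB (l : ℝ) : Prop := ∃ A C c : ℝ, 0 < c ∧ ∀ α : ℝ, A < α → 0 < α → ∀ ε : ℝ, 0 < ε →
  ∀ᶠ T in atTop, (nw T α (α + l) : ℝ) / nT T ≤ (∫ u in α..(α + l), FF u) +
    C * Real.exp (-(c * α)) + ε

/-- one-sided far bound, from below -/
def LB (l : ℝ) : Prop := ∃ A C c : ℝ, 0 < c ∧ ∀ α : ℝ, A < α → 0 < α → ∀ ε : ℝ, 0 < ε →
  ∀ᶠ T in atTop, (∫ u in α..(α + l), FF u) - C * Real.exp (-(c * α)) - ε ≤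
    (nw T α (α + l) : ℝ) / nT T

/-- the conjecture -/
def QQ : Prop := ∀ α β : ℝ, 0 < α → α < β →
  Tendsto (fun T => (nw T α β : ℝ) / nT T) atTop (𝓝 (∫ u in α..β, FF u))

/-- the zeros off the line are rare -/
def OFF : Prop := Tendsto (fun T => (noff T : ℝ) / nT T) atTop (𝓝 0)

lemma FF_int_nonneg {α β : ℝ} (h : α ≤ β) : 0 ≤ ∫ u in α..β, FF u :=
  intervalIntegral.integral_nonneg h fun u _ => FF_nonneg u

lemma FF_int_le {α β : ℝ} (h : α ≤ β) : ∫ u in α..β, FF u ≤ β - α := by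
  calc ∫ u in α..β, FF u ≤ ∫ u in α..β, (1 : ℝ) :=
        intervalIntegral.integral_mono_on h (FF_ii α β) (by simp) fun x _ => FF_le_one x
    _ = β - α := by simp

/-- the far bound holds everywhere, from above -/
lemma ub_all {l : ℝ} (hl : 0 < l) (h : UB l) : ∃ C c : ℝ, 0 ≤ C ∧ 0 < c ∧ ∀ α : ℝ, 0 < α →
    ∀ ε : ℝ, 0 < ε → ∀ᶠ T in atTop, (Mp T).real (Icc α (α + l)) ≤ (∫ u in α..(α + l), FF u) +
    C * Real.exp (-(c * α)) + ε := by
  obtain ⟨A, C, c, hc, h⟩ := h
  obtain ⟨K, hK, hB⟩ := Mp_bdd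
  obtain ⟨R, hR⟩ : ∃ R : ℝ, R = ((⌈2 * (l / 2)⌉₊ : ℕ) + 1) * K := ⟨_, rfl⟩
  have hR0 : 0 ≤ R := by rw [hR]; positivity
  refine ⟨|C| + R * Real.exp (c * |A|), c, by positivity, hc, fun α hα ε hε => ?_⟩
  rcases lt_or_ge A α with hA | hA
  · filter_upwards [h α hA hα ε hε, eventually_ge_atTop 10] with T hT hT10
    rw [nw_Mp hT10] at hT
    have h1 : C * Real.exp (-(c * α)) ≤ (|C| + R * Real.exp (c * |A|)) * Real.exp (-(c * α)) := by
      apply mul_le_mul_of_nonneg_right _ (Real.exp_pos _).le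
      have := le_abs_self C
      have : 0 ≤ R * Real.exp (c * |A|) := by positivity
      linarith
    linarith
  · filter_upwards [hB] with T hT
    have h1 := hT.real_le (by linarith) (α + l / 2) (b := l / 2) _ (Nat.le_ceil _)
    rw [show α + l / 2 - l / 2 = α by ring, show α + l / 2 + l / 2 = α + l by ring] at h1
    have h2 : R ≤ (|C| + R * Real.exp (c * |A|)) * Real.exp (-(c * α)) := by
      have h3 : 1 ≤ Real.exp (c * |A|) * Real.exp (-(c * α)) := by
        rw [← Real.exp_add]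
        apply Real.one_le_exp
        have := le_abs_self A
        nlinarith
      calc R ≤ R * (Real.exp (c * |A|) * Real.exp (-(c * α))) := le_mul_of_one_le_right hR0 h3
        _ = (R * Real.exp (c * |A|)) * Real.exp (-(c * α)) := by ring
        _ ≤ _ := by
          apply mul_le_mul_of_nonneg_right _ (Real.exp_pos _).le
          have := abs_nonneg C
          linarith
    have := FF_int_nonneg (show α ≤ α + l by linarith)
    rw [← hR] at h1
    linarith

/-- the far bound holds everywhere, from below -/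
lemma lb_all {l : ℝ} (hl : 0 < l) (h : LB l) : ∃ C c : ℝ, 0 ≤ C ∧ 0 < c ∧ ∀ α : ℝ, 0 < α →
    ∀ ε : ℝ, 0 < ε → ∀ᶠ T in atTop, (∫ u in α..(α + l), FF u) -
    C * Real.exp (-(c * α)) - ε ≤ (Mp T).real (Icc α (α + l)) := by
  obtain ⟨A, C, c, hc, h⟩ := h
  refine ⟨|C| + l * Real.exp (c * |A|), c, by positivity, hc, fun α hα ε hε => ?_⟩
  rcases lt_or_ge A α with hA | hA
  · filter_upwards [h α hA hα ε hε, eventually_ge_atTop 10] with T hT hT10
    rw [nw_Mp hT10] at hT
    have h1 : C * Real.exp (-(c * α)) ≤ (|C| + l * Real.exp (c * |A|)) * Real.exp (-(c * α)) := by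
      apply mul_le_mul_of_nonneg_right _ (Real.exp_pos _).le
      have := le_abs_self C
      have : 0 ≤ l * Real.exp (c * |A|) := by positivity
      linarith
    linarith
  · refine Eventually.of_forall fun T => ?_
    have h2 : l ≤ (|C| + l * Real.exp (c * |A|)) * Real.exp (-(c * α)) := by
      have h3 : 1 ≤ Real.exp (c * |A|) * Real.exp (-(c * α)) := by
        rw [← Real.exp_add]
        apply Real.one_le_exp
        have := le_abs_self A
        nlinarith
      calc l ≤ l * (Real.exp (c * |A|) * Real.exp (-(c * α))) := le_mul_of_one_le_right hl.le h3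
        _ = (l * Real.exp (c * |A|)) * Real.exp (-(c * α)) := by ring
        _ ≤ _ := by
          apply mul_le_mul_of_nonneg_right _ (Real.exp_pos _).le
          have := abs_nonneg C
          linarith
    have h4 := FF_int_le (show α ≤ α + l by linarith)
    have h5 : 0 ≤ (Mp T).real (Icc α (α + l)) := measureReal_nonneg
    linarith

lemma off_NF (h : OFF) : ∀ η : ℝ, 0 < η → ∀ᶠ T : ℝ in atTop, NF T ≤ η * (T * Real.log T) := by
  intro η hη
  have hpi := Real.pi_gt_three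
  filter_upwards [h.eventually (eventually_lt_nhds hη), eventually_ge_atTop 10] with T hT hT10
  have hn := nT_pos hT10
  have hL := one_lt_log (show 3 ≤ T by linarith)
  rw [noff_NF, div_lt_iff₀ hn] at hT
  refine hT.le.trans ?_
  apply mul_le_mul_of_nonneg_left _ hη.le
  unfold nT
  apply div_le_self (by positivity)
  linarith

lemma NF_off (h : ∀ η : ℝ, 0 < η → ∀ᶠ T : ℝ in atTop, NF T ≤ η * (T * Real.log T)) : OFF := by
  unfold OFF
  rw [Metric.tendsto_nhds]
  intro ε hε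
  have hpi := Real.pi_pos
  filter_upwards [h (ε / (4 * Real.pi)) (by positivity), eventually_ge_atTop 10] with T hT hT10
  have hn := nT_pos hT10
  have hL := one_lt_log (show 3 ≤ T by linarith)
  have h0 : 0 ≤ NF T := Finset.sum_nonneg fun s _ => mm_nonneg s
  rw [noff_NF, Real.dist_eq, sub_zero, abs_of_nonneg (by positivity), div_lt_iff₀ hn]
  refine lt_of_le_of_lt hT ?_
  have : ε / (4 * Real.pi) * (T * Real.log T) = ε / 2 * nT T := by
    unfold nT; field_simp; ring
  rw [this]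
  nlinarith

lemma qq_Mp : QQ ↔ ∀ α β : ℝ, 0 < α → α < β →
    Tendsto (fun T => (Mp T).real (Icc α β)) atTop (𝓝 (∫ u in α..β, FF u)) := by
  have key : ∀ α β : ℝ, (fun T => (nw T α β : ℝ) / nT T) =ᶠ[atTop] fun T => (Mp T).real (Icc α β) := by
    intro α β
    filter_upwards [eventually_ge_atTop 10] with T hT using nw_Mp hT α β
  exact forall₂_congr fun α β => forall₂_congr fun _ _ => tendsto_congr' (key α β)

lemma FF_int_pos {α β : ℝ} (h0 : 0 < α) (h : α < β) : 0 < ∫ u in α..β, FF u := by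
  refine intervalIntegral.intervalIntegral_pos_of_pos_on (FF_ii α β) (fun x hx => ?_) h
  have hx0 : 0 < x := by linarith [hx.1]
  have hpi := Real.pi_pos
  have h1 : Real.sin (Real.pi * x) < Real.pi * x := Real.sin_lt (by positivity)
  have h2 : -(Real.pi * x) < Real.sin (Real.pi * x) := by
    have := Real.sin_lt (show 0 < Real.pi * x by positivity)
    rcases le_or_gt (Real.pi * x) 1 with h | h
    · have : 0 < Real.sin (Real.pi * x) := Real.sin_pos_of_pos_of_lt_pi (by positivity)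
        (by linarith [Real.pi_gt_three])
      have : 0 < Real.pi * x := by positivity
      linarith
    · linarith [Real.neg_one_le_sin (Real.pi * x)]
  have h3 : |Real.sin (Real.pi * x) / (Real.pi * x)| < 1 := by
    rw [abs_div, abs_of_pos (show 0 < Real.pi * x by positivity), div_lt_one (by positivity)]
    exact abs_lt.2 ⟨h2, h1⟩
  have h4 : (Real.sin (Real.pi * x) / (Real.pi * x)) ^ 2 < 1 := by
    rw [← sq_abs]
    exact pow_lt_one₀ (abs_nonneg _) h3 (by norm_num)
  unfold FF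
  linarith

lemma ratio_iff : (∀ α β : ℝ, 0 < α → α < β →
    Tendsto (fun T : ℝ => (nw T α β : ℝ) / (nT T * ∫ u in α..β, FF u)) atTop (𝓝 1)) ↔ QQ := by
  refine forall₂_congr fun α β => forall₂_congr fun hα hαβ => ?_
  have hI := FF_int_pos hα hαβ
  constructor
  · intro h
    have h1 := h.mul_const (∫ u in α..β, FF u)
    rw [one_mul] at h1
    refine h1.congr fun T => ?_
    rw [div_mul_eq_mul_div, mul_div_mul_right _ _ hI.ne']
  · intro h
    have h1 := h.div_const (∫ u in α..β, FF u)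
    rw [div_self hI.ne'] at h1
    refine h1.congr fun T => ?_
    rw [div_div]

theorem one_sided {l₁ l₂ : ℝ} (hl₁ : 0 < l₁) (hl₂ : 0 < l₂) (hir : Irrational (l₁ / l₂)) :
    QQ ↔ (OFF ∧ (UB l₁ ∨ LB l₁) ∧ (UB l₂ ∨ LB l₂)) := by
  constructor
  · intro h
    have hub : ∀ l : ℝ, 0 < l → UB l := by
      intro l hl
      refine ⟨0, 0, 1, one_pos, fun α _ hα ε hε => ?_⟩
      have h1 := h α (α + l) hα (by linarith)
      filter_upwards [h1.eventually (eventually_le_nhds (show ∫ u in α..(α + l), FF u <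
        (∫ u in α..(α + l), FF u) + 0 * Real.exp (-(1 * α)) + ε by linarith))] with T hT using hT
    exact ⟨NF_off (off_of_win (qq_Mp.1 h)), Or.inl (hub l₁ hl₁), Or.inl (hub l₂ hl₂)⟩
  · rintro ⟨h0, h1, h2⟩
    rw [qq_Mp]
    obtain ⟨C, hC, hB⟩ := Mp_bdd
    obtain ⟨κ, hκ, hκ2, hblk⟩ := blk_main
    have hE : ∀ᶠ T in atTop, Ev (Mp T) := by
      filter_upwards [eventually_ge_atTop 10] with T hT using Mp_ev hT
    have hoff := off_NF h0
    have hside : ∀ l : ℝ, 0 < l → (UB l ∨ LB l) → ∃ C' c' : ℝ, 0 ≤ C' ∧ 0 < c' ∧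
        ((∀ α : ℝ, 0 < α → ∀ ε : ℝ, 0 < ε → ∀ᶠ T in atTop,
        (Mp T).real (Icc α (α + l)) ≤ (∫ x in α..(α + l), FF x) + C' * Real.exp (-(c' * α)) + ε) ∨
        (∀ α : ℝ, 0 < α → ∀ ε : ℝ, 0 < ε → ∀ᶠ T in atTop,
        (∫ x in α..(α + l), FF x) - C' * Real.exp (-(c' * α)) - ε ≤
          (Mp T).real (Icc α (α + l)))) := by
      rintro l hl (h | h)
      · obtain ⟨C', c', a1, a2, a3⟩ := ub_all hl h
        exact ⟨C', c', a1, a2, Or.inl a3⟩
      · obtain ⟨C', c', a1, a2, a3⟩ := lb_all hl h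
        exact ⟨C', c', a1, a2, Or.inr a3⟩
    obtain ⟨C₁, c₁, a1, a2, a3⟩ := hside l₁ hl₁ h1
    obtain ⟨C₂, c₂, b1, b2, b3⟩ := hside l₂ hl₂ h2
    intro α β hα hαβ
    rw [tendsto_iff_ultrafilter]
    intro U hU
    have hC0 : 0 ≤ C := by linarith
    obtain ⟨μ, hsf, hμ⟩ := exists_limit hC0 hB U hU
    have c1 := bdd_limit hU hC0 hB hμ
    have hsfG := mG_sf
    have c2 : Bdd (4 * C) mG := fun a => (mG_bdd a).trans (ENNReal.ofReal_le_ofReal (by linarith))
    have ht : ∀ ψ, Adm κ ψ → Tendsto (fun T => ∫ x, fl ψ x ∂(Mp T)) atTop (𝓝 (cc ψ)) :=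
      fun ψ hψ => test_lim hψ (hblk ψ hψ hoff)
    have w1 := one_len hC hB hE hU hμ hκ (by linarith) ht a1 a2 hl₁ a3
    have w2 := one_len hC hB hE hU hμ hκ (by linarith) ht b1 b2 hl₂ b3
    have hir2 : Irrational (l₁ / 2 / (l₂ / 2)) := by
      rwa [div_div_div_cancel_right₀ two_ne_zero]
    exact fam_end hC hB hU hμ (fun b hb => two_len c1 c2 (by positivity) (by positivity) hir2 w1 w2 hb)
      hα hαβ

end Pool.Agent.Y749.Rig
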