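import Pool.Agent.Y749.Rig.Rig

/-! # Rigidity for families of measures against the pair correlation measure -/

set_option autoImplicit false

open MeasureTheory Set Filter Topology
open scoped NNReal ENNReal

namespace Pool.Agent.Y749.Rig

lemma sinc_sq_le (x : ℝ) : (Real.sin (Real.pi * x) / (Real.pi * x)) ^ 2 ≤ 1 := by
  rcases eq_or_ne (Real.pi * x) 0 with h | h
  · rw [h]; simp
  · rw [div_pow, div_le_one (by positivity)]
    have := Real.abs_sin_le_abs (x := Real.pi * x)
    rw [← sq_abs, ← sq_abs (Real.pi * x)]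
    exact pow_le_pow_left₀ (abs_nonneg _) this 2

lemma FF_nonneg (x : ℝ) : 0 ≤ FF x := by unfold FF; linarith [sinc_sq_le x]

lemma FF_le_one (x : ℝ) : FF x ≤ 1 := by
  unfold FF
  have := sq_nonneg (Real.sin (Real.pi * x) / (Real.pi * x))
  linarith

lemma FF_even (x : ℝ) : FF (-x) = FF x := by
  unfold FF
  rw [mul_neg, Real.sin_neg, neg_div_neg_eq]

lemma FF_meas : Measurable FF := by
  unfold FF
  fun_prop

/-- the pair correlation measure -/
noncomputable def mG : Measure ℝ :=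
  Measure.dirac 0 + volume.withDensity fun x => ENNReal.ofReal (FF x)

lemma mG_sf : SFinite mG := by unfold mG; infer_instance

lemma mG_apply (a b : ℝ) : mG (Icc a b) =
    (Icc a b).indicator 1 0 + ∫⁻ x in Icc a b, ENNReal.ofReal (FF x) := by
  unfold mG
  rw [Measure.add_apply, Measure.dirac_apply' _ measurableSet_Icc,
    withDensity_apply _ measurableSet_Icc]

lemma mG_bdd : Bdd 2 mG := by
  intro a
  rw [mG_apply]
  have h1 : (Icc a (a + 1)).indicator (1 : ℝ → ℝ≥0∞) 0 ≤ 1 := by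
    by_cases h : (0 : ℝ) ∈ Icc a (a + 1)
    · rw [indicator_of_mem h]; simp
    · rw [indicator_of_notMem h]; simp
  have h2 : ∫⁻ x in Icc a (a + 1), ENNReal.ofReal (FF x) ≤ 1 := by
    calc ∫⁻ x in Icc a (a + 1), ENNReal.ofReal (FF x) ≤ ∫⁻ x in Icc a (a + 1), 1 := by
          refine lintegral_mono fun x => ?_
          rw [← ENNReal.ofReal_one]
          exact ENNReal.ofReal_le_ofReal (FF_le_one x)
      _ = 1 := by
          rw [setLIntegral_one, Real.volume_Icc]
          simp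
  refine (add_le_add h1 h2).trans (le_of_eq ?_)
  norm_num

lemma int_FF {f : ℝ → ℝ} (hf : Integrable f) : Integrable fun x => f x * FF x := by
  refine hf.mul_bdd (c := 1) FF_meas.aestronglyMeasurable (ae_of_all _ fun x => ?_)
  rw [Real.norm_eq_abs, abs_of_nonneg (FF_nonneg x)]
  exact FF_le_one x

lemma mG_integral {f : ℝ → ℝ} (hf : Continuous f) (hq : QD f) :
    ∫ x, f x ∂mG = f 0 + ∫ x, f x * FF x := by
  have hi := int_FF (qd_int hf hq)
  unfold mG
  rw [integral_add_measure, integral_dirac, integral_withDensity_eq_integral_toReal_smul₀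
    FF_meas.ennreal_ofReal.aemeasurable (ae_of_all _ fun x => ENNReal.ofReal_lt_top)]
  · congr 1
    refine integral_congr_ae (ae_of_all _ fun x => ?_)
    simp only [smul_eq_mul]
    rw [ENNReal.toReal_ofReal (FF_nonneg x), mul_comm]
  · exact integrable_dirac (by simp)
  · rw [integrable_withDensity_iff_integrable_smul₀' FF_meas.ennreal_ofReal.aemeasurable
      (ae_of_all _ fun x => ENNReal.ofReal_lt_top)]
    refine hi.congr (ae_of_all _ fun x => ?_)
    simp only [smul_eq_mul]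
    rw [ENNReal.toReal_ofReal (FF_nonneg x), mul_comm]

lemma mG_ev : Ev mG := by
  intro f hf hq
  rw [mG_integral hf hq, mG_integral (f := fun x => f (-x)) (by fun_prop) (qd_neg hq)]
  rw [neg_zero]
  congr 1
  rw [← integral_neg_eq_self (fun x => f x * FF x) volume]
  refine integral_congr_ae (ae_of_all _ fun x => ?_)
  simp only
  rw [FF_even]

lemma FF_ii (a b : ℝ) : IntervalIntegrable FF volume a b := by
  rw [intervalIntegrable_iff]
  have : IsFiniteMeasure (volume.restrict (uIoc a b)) := by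
    constructor
    rw [Measure.restrict_apply_univ]
    exact measure_Ioc_lt_top
  refine Integrable.of_bound FF_meas.aestronglyMeasurable 1 (ae_of_all _ fun x => ?_)
  rw [Real.norm_eq_abs, abs_of_nonneg (FF_nonneg x)]
  exact FF_le_one x

lemma mG_real {α β : ℝ} (h0 : 0 < α) (h : α ≤ β) : mG.real (Icc α β) = ∫ x in α..β, FF x := by
  rw [Measure.real, mG_apply, indicator_of_notMem (fun hx => absurd hx.1 (not_le.2 h0)), zero_add,
    intervalIntegral.integral_of_le h, ← integral_Icc_eq_integral_Ioc,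
    integral_eq_lintegral_of_nonneg_ae (ae_of_all _ fun x => FF_nonneg x)
      FF_meas.aestronglyMeasurable]

lemma mG_test {κ : ℝ} {ψ : ℝ → ℝ} (h : Adm κ ψ) (hκ : κ ≤ 1) : ∫ x, fl ψ x ∂mG = cc ψ := by
  rw [mG_integral (fl_cont h.int) (fl_qd h)]
  exact gue h hκ

/-- the integral of `FF` over slightly different intervals -/
lemma FF_diff {α β δ : ℝ} (hδ : 0 ≤ δ) (hab : α ≤ β) :
    ∫ x in (α - δ)..(β + δ), FF x ≤ (∫ x in α..β, FF x) + 2 * δ := by
  rw [← intervalIntegral.integral_add_adjacent_intervals (FF_ii (α - δ) α) (FF_ii α (β + δ)),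
    ← intervalIntegral.integral_add_adjacent_intervals (FF_ii α β) (FF_ii β (β + δ))]
  have h1 : ∀ a b : ℝ, a ≤ b → ∫ x in a..b, FF x ≤ b - a := by
    intro a b hab
    calc ∫ x in a..b, FF x ≤ ∫ x in a..b, (1 : ℝ) :=
          intervalIntegral.integral_mono_on hab (FF_ii a b) (by simp) fun x _ => FF_le_one x
      _ = b - a := by simp
  have h2 := h1 (α - δ) α (by linarith)
  have h3 := h1 β (β + δ) (by linarith)
  linarith

theorem rigid {M : ℝ → Measure ℝ} {C : ℝ} (hC : 2 ≤ C) (hM : ∀ᶠ T in atTop, Bdd C (M T))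
    (hE : ∀ᶠ T in atTop, Ev (M T)) {κ : ℝ} (hκ : 0 < κ) (hκ1 : κ ≤ 1)
    (ht : ∀ ψ, Adm κ ψ → Tendsto (fun T => ∫ x, fl ψ x ∂(M T)) atTop (𝓝 (cc ψ)))
    {C' c : ℝ} (hC' : 0 ≤ C') (hc : 0 < c)
    (ho : (∀ α β : ℝ, 0 < α → α < β → ∀ ε : ℝ, 0 < ε → ∀ᶠ T in atTop,
      (M T).real (Icc α β) ≤ (∫ x in α..β, FF x) + C' * Real.exp (-(c * α)) + ε) ∨
      (∀ α β : ℝ, 0 < α → α < β → ∀ ε : ℝ, 0 < ε → ∀ᶠ T in atTop,
      (∫ x in α..β, FF x) - C' * Real.exp (-(c * α)) - ε ≤ (M T).real (Icc α β))) :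
    ∀ α β : ℝ, 0 < α → α < β →
      Tendsto (fun T => (M T).real (Icc α β)) atTop (𝓝 (∫ x in α..β, FF x)) := by
  intro α β hα hαβ
  rw [tendsto_iff_ultrafilter]
  intro U hU
  have hC0 : 0 ≤ C := by linarith
  obtain ⟨μ, hsf, hμ⟩ := exists_limit hC0 hM U hU
  have b1 := bdd_limit hU hC0 hM hμ
  have e1 := ev_limit hU hE hμ
  have hsfG := mG_sf
  have b2 : Bdd (4 * C) mG := fun a => (mG_bdd a).trans (ENNReal.ofReal_le_ofReal (by linarith))
  have htest : ∀ ψ, Adm κ ψ → ∫ x, fl ψ x ∂μ = ∫ x, fl ψ x ∂mG := by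
    intro ψ hψ
    rw [mG_test hψ hκ1]
    exact tendsto_nhds_unique (hμ _ (fl_cont hψ.int) (fl_qd hψ)).2 ((ht ψ hψ).mono_left hU)
  -- windows of the limit
  have hup : ∀ a b δ L : ℝ, 0 < δ → (∀ ε : ℝ, 0 < ε → ∀ᶠ T in atTop,
      (M T).real (Icc (a - δ) (b + δ)) ≤ L + ε) → μ.real (Icc a b) ≤ L := by
    intro a b δ L hδ hL
    refine (tz_lower (by linarith) b1 hδ a b).trans ?_
    refine le_of_forall_pos_le_add fun ε hε => ?_
    refine le_of_tendsto (hμ _ (tz_cont a b δ) (tz_qd hδ a b)).2 ?_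
    filter_upwards [hU (hL ε hε), hU hM] with T h1 h2
    exact (tz_upper hC0 h2 hδ a b).trans h1
  have hlo : ∀ a b δ L : ℝ, 0 < δ → (∀ ε : ℝ, 0 < ε → ∀ᶠ T in atTop,
      L - ε ≤ (M T).real (Icc (a + δ) (b - δ))) → L ≤ μ.real (Icc a b) := by
    intro a b δ L hδ hL
    have h0 := tz_upper (by linarith) b1 hδ (a + δ) (b - δ)
    rw [add_sub_cancel_right, sub_add_cancel] at h0
    refine le_trans ?_ h0
    refine le_of_forall_sub_le fun ε hε => ?_
    refine ge_of_tendsto (hμ _ (tz_cont (a + δ) (b - δ) δ) (tz_qd hδ (a + δ) (b - δ))).2 ?_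
    filter_upwards [hU (hL ε hε), hU hM] with T h1 h2
    exact h1.trans (tz_lower hC0 h2 hδ _ _)
  have hwin : (∀ b : ℝ, 0 < b → ∀ᵐ x : ℝ, wf μ b x = wf mG b x) := by
    rcases ho with ho | ho
    · intro b hb
      refine rig2 (by linarith) b1 b2 e1 mG_ev hκ htest hC' hc ?_ hb
      intro a b' ha hab
      rw [mG_real ha hab]
      have h1 : ∀ δ : ℝ, δ ∈ Ioo 0 a → μ.real (Icc a b') ≤ (∫ x in a..b', FF x) + 2 * δ +
          C' * Real.exp (-(c * (a - δ))) := by
        intro δ hδ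
        refine hup a b' δ _ hδ.1 fun ε hε => ?_
        filter_upwards [ho (a - δ) (b' + δ) (by linarith [hδ.2]) (by linarith [hδ.1]) ε hε] with T hT
        have := FF_diff hδ.1.le hab
        linarith
      have h2 : Tendsto (fun δ : ℝ => (∫ x in a..b', FF x) + 2 * δ +
          C' * Real.exp (-(c * (a - δ)))) (𝓝[>] 0) (𝓝 ((∫ x in a..b', FF x) + 2 * 0 +
          C' * Real.exp (-(c * (a - 0))))) := by
        refine Tendsto.mono_left ?_ nhdsWithin_le_nhds
        refine Continuous.tendsto (f := fun δ : ℝ => (∫ x in a..b', FF x) + 2 * δ +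
          C' * Real.exp (-(c * (a - δ)))) (by fun_prop) 0
      have h3 := ge_of_tendsto h2 (by
        filter_upwards [Ioo_mem_nhdsGT ha] with δ hδ using h1 δ hδ)
      rw [sub_zero] at h3
      linarith
    · intro b hb
      have := rig2 (by linarith) b2 b1 mG_ev e1 hκ (fun ψ hψ => (htest ψ hψ).symm) hC' hc ?_ hb
      · filter_upwards [this] with x hx using hx.symm
      intro a b' ha hab
      rcases hab.eq_or_lt with hab | hab
      · subst hab
        rw [mG_real ha le_rfl, intervalIntegral.integral_same]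
        have : 0 ≤ μ.real (Icc a a) := measureReal_nonneg
        have : 0 ≤ C' * Real.exp (-(c * a)) := by positivity
        linarith
      rw [mG_real ha hab.le]
      have h1 : ∀ δ : ℝ, δ ∈ Ioo 0 ((b' - a) / 2) → (∫ x in a..b', FF x) - 2 * δ -
          C' * Real.exp (-(c * (a + δ))) ≤ μ.real (Icc a b') := by
        intro δ hδ
        refine hlo a b' δ _ hδ.1 fun ε hε => ?_
        filter_upwards [ho (a + δ) (b' - δ) (by linarith [hδ.1]) (by linarith [hδ.2]) ε hε] with T hT
        have := FF_diff hδ.1.le (show a + δ ≤ b' - δ by linarith [hδ.2])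
        rw [add_sub_cancel_right, sub_add_cancel] at this
        linarith
      have h2 : Tendsto (fun δ : ℝ => (∫ x in a..b', FF x) - 2 * δ -
          C' * Real.exp (-(c * (a + δ)))) (𝓝[>] 0) (𝓝 ((∫ x in a..b', FF x) - 2 * 0 -
          C' * Real.exp (-(c * (a + 0))))) := by
        refine Tendsto.mono_left ?_ nhdsWithin_le_nhds
        refine Continuous.tendsto (f := fun δ : ℝ => (∫ x in a..b', FF x) - 2 * δ -
          C' * Real.exp (-(c * (a + δ)))) (by fun_prop) 0
      have h3 := le_of_tendsto h2 (by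
        filter_upwards [Ioo_mem_nhdsGT (show 0 < (b' - a) / 2 by linarith)] with δ hδ using h1 δ hδ)
      rw [add_zero] at h3
      linarith
  -- conclusion
  rw [Metric.tendsto_nhds]
  intro ε hε
  obtain ⟨δ, hδ⟩ : ∃ δ : ℝ, δ = min (α / 4) (min ((β - α) / 8) (ε / 16)) := ⟨_, rfl⟩
  have hδ0 : 0 < δ := by
    rw [hδ]; exact lt_min (by positivity) (lt_min (by linarith) (by positivity))
  have hδ1 : δ ≤ α / 4 := by rw [hδ]; exact min_le_left _ _
  have hδ2 : δ ≤ (β - α) / 8 := by rw [hδ]; exact (min_le_right _ _).trans (min_le_left _ _)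
  have hδ3 : δ ≤ ε / 16 := by rw [hδ]; exact (min_le_right _ _).trans (min_le_right _ _)
  have u1 : ∫ x, tz α β δ x ∂μ ≤ (∫ x in α..β, FF x) + 4 * δ := by
    have s1 := tz_upper (by linarith) b1 hδ0 α β
    have s2 := win_le b1 b2 hwin (α := α - δ) (β := β + δ) hδ0 (by linarith)
    rw [mG_real (by linarith) (by linarith)] at s2
    have s3 := FF_diff (δ := 2 * δ) (by linarith) hαβ.le
    have e3 : α - δ - δ = α - 2 * δ := by ring
    have e4 : β + δ + δ = β + 2 * δ := by ring
    rw [e3, e4] at s2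
    linarith
  have l1 : (∫ x in α..β, FF x) - 4 * δ ≤ ∫ x, tz (α + δ) (β - δ) δ x ∂μ := by
    have s1 := tz_lower (by linarith) b1 hδ0 (α + δ) (β - δ)
    have s2 := win_le b2 b1 (fun b hb => by
      filter_upwards [hwin b hb] with x hx using hx.symm) (α := α + 2 * δ) (β := β - 2 * δ) hδ0
      (by linarith)
    rw [mG_real (by linarith) (by linarith)] at s2
    have s3 := FF_diff (α := α + 2 * δ) (β := β - 2 * δ) (δ := 2 * δ) (by linarith) (by linarith)
    have e3 : α + 2 * δ - δ = α + δ := by ring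
    have e4 : β - 2 * δ + δ = β - δ := by ring
    rw [e3, e4] at s2
    rw [add_sub_cancel_right, sub_add_cancel] at s3
    linarith
  have t1 := (hμ _ (tz_cont α β δ) (tz_qd hδ0 α β)).2
  have t2 := (hμ _ (tz_cont (α + δ) (β - δ) δ) (tz_qd hδ0 (α + δ) (β - δ))).2
  filter_upwards [hU hM, t1.eventually (eventually_lt_nhds (show ∫ x, tz α β δ x ∂μ <
    (∫ x in α..β, FF x) + ε by linarith)), t2.eventually (eventually_gt_nhds
    (show (∫ x in α..β, FF x) - ε < ∫ x, tz (α + δ) (β - δ) δ x ∂μ by linarith))] with T h1 h2 h3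
  rw [Real.dist_eq, abs_lt]
  have s1 := tz_lower hC0 h1 hδ0 α β
  have s2 := tz_upper hC0 h1 hδ0 (α + δ) (β - δ)
  rw [add_sub_cancel_right, sub_add_cancel] at s2
  constructor <;> linarith

end Pool.Agent.Y749.Rig
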