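import Pool.Agent.Y749.Rig.LemR

/-! # One-sided exponential decay and a spectral gap force a function to vanish: conclusion -/

set_option autoImplicit false

open MeasureTheory Set Filter Topology ProbabilityTheory
open Complex (I)

namespace Pool.Agent.Y749.Rig

variable {v : ℝ → ℝ}

/-- the measure with density the positive part of `v` -/
noncomputable def mp (v : ℝ → ℝ) : Measure ℝ := volume.withDensity fun x => ENNReal.ofReal (v x)

lemma mp_fin (hv : Integrable v) : IsFiniteMeasure (mp v) :=
  isFiniteMeasure_withDensity_ofReal hv.2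

lemma mp_integral (hv : Integrable v) (f : ℝ → ℂ) :
    ∫ x, f x ∂(mp v) = ∫ x, ((max (v x) 0 : ℝ) : ℂ) * f x := by
  unfold mp
  rw [integral_withDensity_eq_integral_toReal_smul₀ hv.aestronglyMeasurable.aemeasurable.ennreal_ofReal
    (ae_of_all _ fun x => ENNReal.ofReal_lt_top)]
  refine integral_congr_ae (ae_of_all _ fun x => ?_)
  show (ENNReal.ofReal (v x)).toReal • f x = _
  rw [ENNReal.toReal_ofReal']
  simp

lemma mp_integrable (hv : Integrable v) {f : ℝ → ℝ}
    (h : Integrable fun x => max (v x) 0 * f x) : Integrable f (mp v) := by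
  unfold mp
  rw [integrable_withDensity_iff_integrable_smul₀' hv.aestronglyMeasurable.aemeasurable.ennreal_ofReal
    (ae_of_all _ fun x => ENNReal.ofReal_lt_top)]
  refine h.congr (ae_of_all _ fun x => ?_)
  show _ = (ENNReal.ofReal (v x)).toReal • f x
  rw [ENNReal.toReal_ofReal']
  simp

lemma mp_exp (hv : Integrable v) {a : ℝ} (h : Integrable fun x => |v x| * Real.exp (a * |x|)) :
    Ioo (-a) a ⊆ integrableExpSet id (mp v) := by
  intro t ht
  refine mp_integrable hv ?_
  refine h.mono' ((hv.pos_part.aestronglyMeasurable).mul (by fun_prop)) ?_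
  refine ae_of_all _ fun x => ?_
  rw [Real.norm_eq_abs, abs_mul, abs_of_nonneg (le_max_right _ _), Real.abs_exp]
  refine mul_le_mul (max_le (le_abs_self _) (abs_nonneg _)) ?_ (Real.exp_pos _).le (abs_nonneg _)
  apply Real.exp_le_exp.2
  have h1 : |t| ≤ a := abs_le.2 ⟨ht.1.le, ht.2.le⟩
  show t * x ≤ a * |x|
  calc t * x ≤ |t * x| := le_abs_self _
    _ = |t| * |x| := abs_mul _ _
    _ ≤ a * |x| := by gcongr

theorem lemR (hv : Integrable v) {C c : ℝ} (hC : 0 ≤ C) (hc : 0 < c)
    (hv1 : ∀ x, v x ≤ C * Real.exp (-(c * |x|))) {η : ℝ} (hη : 0 < η)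
    (h0 : ∀ ω : ℝ, |ω| < η → ∫ x, v x * Real.cos (2 * Real.pi * ω * x) = 0)
    (h1 : ∀ ω : ℝ, |ω| < η → ∫ x, v x * Real.sin (2 * Real.pi * ω * x) = 0) :
    v =ᵐ[volume] 0 := by
  obtain ⟨a, ha, hint⟩ := exp_mom hv hC hc hv1 hη h0
  have hint' : Integrable fun x => |(-v) x| * Real.exp (a * |x|) := by
    simpa using hint
  have hvn : Integrable (-v) := hv.neg
  have := mp_fin hv
  have := mp_fin hvn
  have e1 := mp_exp hv hint
  have e2 := mp_exp hvn hint'
  have hpi := Real.pi_pos
  -- equality on a small segment of the imaginary axis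
  have hseg : ∀ y : ℝ, |y| < 2 * Real.pi * η →
      complexMGF id (mp v) (y * I) = complexMGF id (mp (-v)) (y * I) := by
    intro y hy
    unfold complexMGF
    have hb : ∀ {w : ℝ → ℝ}, Integrable w →
        Integrable fun x => ((w x : ℝ) : ℂ) * Complex.exp (y * I * x) := by
      intro w hw
      refine hw.ofReal.mul_bdd (c := 1) (by fun_prop) ?_
      refine ae_of_all _ fun x => ?_
      rw [Complex.norm_exp]
      simp
    rw [mp_integral hv, mp_integral hvn]
    simp only [id_eq]
    rw [← sub_eq_zero, ← integral_sub (hb hv.pos_part)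
      (hb hvn.pos_part)]
    have e3 : ∀ x : ℝ, ((max (v x) 0 : ℝ) : ℂ) * Complex.exp (y * I * x) -
        ((max ((-v) x) 0 : ℝ) : ℂ) * Complex.exp (y * I * x) =
        ((v x * Real.cos (2 * Real.pi * (y / (2 * Real.pi)) * x) : ℝ) : ℂ) +
        ((v x * Real.sin (2 * Real.pi * (y / (2 * Real.pi)) * x) : ℝ) : ℂ) * I := by
      intro x
      have e4 : 2 * Real.pi * (y / (2 * Real.pi)) * x = y * x := by field_simp
      have e5 : ((max (v x) 0 : ℝ) : ℂ) - ((max ((-v) x) 0 : ℝ) : ℂ) = (v x : ℂ) := by
        rw [← Complex.ofReal_sub]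
        congr 1
        show max (v x) 0 - max (-v x) 0 = v x
        rcases le_total 0 (v x) with h | h
        · rw [max_eq_left h, max_eq_right (by linarith)]; ring
        · rw [max_eq_right h, max_eq_left (by linarith)]; ring
      have e6 : (y : ℂ) * I * x = ((y * x : ℝ) : ℂ) * I := by push_cast; ring
      rw [← sub_mul, e5, e4, e6, Complex.exp_mul_I]
      push_cast
      ring
    have hy2 : |y / (2 * Real.pi)| < η := by
      rw [abs_div, abs_of_pos (by positivity : (0:ℝ) < 2 * Real.pi), div_lt_iff₀ (by positivity)]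
      linarith
    have i1 := int_cos_mul hv (y / (2 * Real.pi))
    have i2 : Integrable fun x => v x * Real.sin (2 * Real.pi * (y / (2 * Real.pi)) * x) := by
      refine hv.mul_bdd (c := 1) (by fun_prop) ?_
      refine ae_of_all _ fun x => ?_
      rw [Real.norm_eq_abs]
      exact Real.abs_sin_le_one _
    calc ∫ x : ℝ, (((max (v x) 0 : ℝ) : ℂ) * Complex.exp (y * I * x) -
        ((max ((-v) x) 0 : ℝ) : ℂ) * Complex.exp (y * I * x)) =
        ∫ x : ℝ, (((v x * Real.cos (2 * Real.pi * (y / (2 * Real.pi)) * x) : ℝ) : ℂ) +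
        ((v x * Real.sin (2 * Real.pi * (y / (2 * Real.pi)) * x) : ℝ) : ℂ) * I) :=
          integral_congr_ae (ae_of_all _ e3)
      _ = 0 := by
        have j1 : Integrable fun x : ℝ =>
            ((v x * Real.cos (2 * Real.pi * (y / (2 * Real.pi)) * x) : ℝ) : ℂ) := i1.ofReal
        have j2 : Integrable fun x : ℝ =>
            ((v x * Real.sin (2 * Real.pi * (y / (2 * Real.pi)) * x) : ℝ) : ℂ) * I :=
          i2.ofReal.mul_const I
        rw [integral_add j1 j2, integral_mul_const,
          integral_complex_ofReal, integral_complex_ofReal, h0 _ hy2, h1 _ hy2]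
        simp
  -- the identity theorem
  obtain ⟨U, hU⟩ : ∃ U : Set ℂ, U = {z : ℂ | -a < z.re ∧ z.re < a} := ⟨_, rfl⟩
  have hUc : IsPreconnected U := by
    rw [hU]
    have : Convex ℝ {z : ℂ | -a < z.re ∧ z.re < a} :=
      (convex_halfSpace_re_gt _).inter (convex_halfSpace_re_lt _)
    exact this.isPreconnected
  have hsub : ∀ {w : ℝ → ℝ}, Ioo (-a) a ⊆ integrableExpSet id (mp w) →
      AnalyticOnNhd ℂ (complexMGF id (mp w)) U := by
    intro w hw z hz
    refine analyticOnNhd_complexMGF z ?_
    rw [hU] at hz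
    exact interior_maximal hw isOpen_Ioo hz
  have h0U : (0 : ℂ) ∈ U := by
    rw [hU]; exact ⟨by simpa using ha, by simpa using ha⟩
  have hfr : ∃ᶠ z in 𝓝[≠] (0 : ℂ), complexMGF id (mp v) z = complexMGF id (mp (-v)) z := by
    rw [frequently_iff]
    intro V hV
    rw [Metric.mem_nhdsWithin_iff] at hV
    obtain ⟨r, hr, hV⟩ := hV
    obtain ⟨y, hy⟩ : ∃ y : ℝ, y = min (r / 2) (Real.pi * η) := ⟨_, rfl⟩
    have hy0 : 0 < y := by rw [hy]; exact lt_min (by positivity) (by positivity)
    have hy1 : y ≤ r / 2 := by rw [hy]; exact min_le_left _ _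
    have hy2 : y ≤ Real.pi * η := by rw [hy]; exact min_le_right _ _
    refine ⟨y * I, hV ⟨?_, ?_⟩, hseg y ?_⟩
    · rw [Metric.mem_ball, dist_zero_right, norm_mul, Complex.norm_I, Complex.norm_real,
        Real.norm_eq_abs, abs_of_pos hy0]
      linarith
    · simp only [mem_compl_iff, mem_singleton_iff, mul_eq_zero, Complex.ofReal_eq_zero,
        Complex.I_ne_zero, or_false]
      exact hy0.ne'
    · rw [abs_of_pos hy0]
      have : 0 < Real.pi * η := by positivity
      linarith
  have heq := (hsub e1).eqOn_of_preconnected_of_frequently_eq (hsub e2) hUc h0U hfr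
  have hmeas : mp v = mp (-v) := by
    apply Measure.ext_of_charFun
    ext t
    rw [← complexMGF_id_mul_I, ← complexMGF_id_mul_I]
    apply heq
    rw [hU]
    constructor <;> simp [ha]
  have hae := (withDensity_eq_iff hv.aestronglyMeasurable.aemeasurable.ennreal_ofReal
    hvn.aestronglyMeasurable.aemeasurable.ennreal_ofReal (by
      have := hv.lintegral_lt_top
      exact this.ne)).1 hmeas
  filter_upwards [hae] with x hx
  have hx' : ENNReal.ofReal (v x) = ENNReal.ofReal (-v x) := hx
  show v x = 0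
  rcases lt_trichotomy (v x) 0 with h | h | h
  · rw [ENNReal.ofReal_of_nonpos h.le] at hx'
    have := ENNReal.ofReal_eq_zero.1 hx'.symm
    linarith
  · exact h
  · rw [ENNReal.ofReal_of_nonpos (show -v x ≤ 0 by linarith)] at hx'
    have := ENNReal.ofReal_eq_zero.1 hx'
    linarith

end Pool.Agent.Y749.Rig
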