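import Pool.Agent.Y749.Rig.Krn
import Pool.Agent.Y749.Rig.LemR2

/-! # Functions with a spectral gap: smoothing and the half plane transform -/

set_option autoImplicit false

open MeasureTheory Set Filter Topology
open Complex (I)
open scoped FourierTransform Convolution

namespace Pool.Agent.Y749.Rig

/-- the gaussian -/
noncomputable def gs (x : ℝ) : ℝ := Real.exp (-(Real.pi * x ^ 2))

lemma gs_pos (x : ℝ) : 0 < gs x := Real.exp_pos _

lemma gs_cont : Continuous gs := by unfold gs; fun_prop

lemma gs_even (x : ℝ) : gs (-x) = gs x := by unfold gs; rw [neg_sq]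

lemma gs_int : Integrable gs := by
  have := integrable_exp_neg_mul_sq Real.pi_pos
  refine this.congr (ae_of_all _ fun x => ?_)
  simp only [gs]
  rw [neg_mul]

lemma gs_int' : Integrable fun x => |x| * gs x := by
  have h := integrable_mul_exp_neg_mul_sq Real.pi_pos
  refine h.norm.congr (ae_of_all _ fun x => ?_)
  simp only [norm_mul, Real.norm_eq_abs, Real.abs_exp, gs]
  rw [neg_mul]

lemma gs_fl (y : ℝ) : fl gs y = gs y := by
  have h1 := congrFun (fourier_gaussian_pi (b := 1) (by simp)) y
  have h2 := four_eq gs_int gs_even y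
  have e1 : (fun α : ℝ => ((gs α : ℝ) : ℂ)) =
      fun x : ℝ => Complex.exp (-Real.pi * 1 * (x : ℂ) ^ 2) := by
    ext x
    unfold gs
    push_cast
    congr 1; ring
  rw [e1, h1] at h2
  have h3 : ((gs y : ℝ) : ℂ) = (fl gs y : ℂ) := by
    rw [← h2]
    unfold gs
    push_cast
    rw [Complex.one_cpow, div_one, one_mul, div_one]
    congr 1; ring
  exact (Complex.ofReal_injective h3).symm

variable {v : ℝ → ℝ}

/-- the smoothed transform -/
noncomputable def UU (v : ℝ → ℝ) (w : ℝ) : ℝ := fl v w * gs w

/-- the smoothed function -/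
noncomputable def uu (v : ℝ → ℝ) (x : ℝ) : ℝ := fl (UU v) x

lemma fl_le_int (hv : Integrable v) (w : ℝ) : |fl v w| ≤ ∫ x, |v x| := by
  unfold fl
  rw [← Real.norm_eq_abs]
  refine norm_integral_le_of_norm_le hv.abs (ae_of_all _ fun α => ?_)
  rw [Real.norm_eq_abs, abs_mul]
  exact mul_le_of_le_one_right (abs_nonneg _) (Real.abs_cos_le_one _)

lemma UU_le (hv : Integrable v) (w : ℝ) : |UU v w| ≤ (∫ x, |v x|) * gs w := by
  unfold UU
  rw [abs_mul, abs_of_pos (gs_pos w)]
  exact mul_le_mul_of_nonneg_right (fl_le_int hv w) (gs_pos w).le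

lemma UU_cont (hv : Integrable v) : Continuous (UU v) := (fl_cont hv).mul gs_cont

lemma UU_even (w : ℝ) : UU v (-w) = UU v w := by unfold UU; rw [fl_even, gs_even]

lemma UU_int (hv : Integrable v) : Integrable (UU v) := by
  refine (gs_int.const_mul (∫ x, |v x|)).mono' (UU_cont hv).aestronglyMeasurable
    (ae_of_all _ fun w => ?_)
  rw [Real.norm_eq_abs]; exact UU_le hv w

lemma UU_int' (hv : Integrable v) : Integrable fun w => |w| * UU v w := by
  refine (gs_int'.const_mul (∫ x, |v x|)).mono' (by
    have := UU_cont hv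
    apply Continuous.aestronglyMeasurable
    fun_prop) (ae_of_all _ fun w => ?_)
  rw [Real.norm_eq_abs, abs_mul, abs_abs]
  calc |w| * |UU v w| ≤ |w| * ((∫ x, |v x|) * gs w) := by gcongr; exact UU_le hv w
    _ = _ := by ring

/-- the smoothed function is a convolution -/
lemma uu_conv (hv : Integrable v) (he : ∀ x, v (-x) = v x) (x : ℝ) :
    uu v x = ∫ y, v y * gs (x - y) := by
  have h2 : Integrable fun w => gs w * Real.cos (2 * Real.pi * w * x) := int_mul_cos gs_int x
  have h1 := parseval (ψ₁ := v) (ψ₂ := fun w => gs w * Real.cos (2 * Real.pi * w * x)) hv h2 he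
    (fun w => by
      rw [gs_even, show 2 * Real.pi * -w * x = -(2 * Real.pi * w * x) by ring, Real.cos_neg])
  have h3 : ∀ y, fl (fun w => gs w * Real.cos (2 * Real.pi * w * x)) y =
      1 / 2 * gs (x - y) + 1 / 2 * gs (x + y) := by
    intro y
    rw [← gs_fl (x - y), ← gs_fl (x + y)]
    unfold fl
    rw [← integral_const_mul, ← integral_const_mul, ← integral_add
      ((int_mul_cos gs_int _).const_mul _) ((int_mul_cos gs_int _).const_mul _)]
    refine integral_congr_ae (ae_of_all _ fun w => ?_)
    simp only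
    rw [show 2 * Real.pi * w * (x - y) = 2 * Real.pi * w * x - 2 * Real.pi * w * y by ring,
      show 2 * Real.pi * w * (x + y) = 2 * Real.pi * w * x + 2 * Real.pi * w * y by ring,
      Real.cos_sub, Real.cos_add]
    ring
  have hb : ∀ s : ℝ, Integrable fun y => v y * gs (x + s * y) := by
    intro s
    refine hv.mul_bdd (c := 1) ?_ (ae_of_all _ fun y => ?_)
    · have := gs_cont
      apply Continuous.aestronglyMeasurable
      fun_prop
    · rw [Real.norm_eq_abs, abs_of_pos (gs_pos _)]
      unfold gs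
      rw [Real.exp_le_one_iff]
      have := Real.pi_pos
      have : 0 ≤ Real.pi * (x + s * y) ^ 2 := by positivity
      linarith
  have hb1 : Integrable fun y => v y * gs (x - y) := by
    refine (hb (-1)).congr (ae_of_all _ fun y => ?_)
    simp only
    rw [show x + -1 * y = x - y by ring]
  have hb2 : Integrable fun y => v y * gs (x + y) := by
    refine (hb 1).congr (ae_of_all _ fun y => ?_)
    simp only
    rw [one_mul]
  have h4 : ∫ y, v y * gs (x + y) = ∫ y, v y * gs (x - y) := by
    rw [← integral_neg_eq_self (fun y => v y * gs (x - y)) volume]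
    refine integral_congr_ae (ae_of_all _ fun y => ?_)
    simp only
    rw [he, sub_neg_eq_add]
  have h5 : uu v x = ∫ w, fl v w * (gs w * Real.cos (2 * Real.pi * w * x)) := by
    unfold uu
    rw [show fl (UU v) x = ∫ w, UU v w * Real.cos (2 * Real.pi * w * x) from rfl]
    refine integral_congr_ae (ae_of_all _ fun w => ?_)
    simp only
    unfold UU
    ring
  rw [h5, h1]
  simp_rw [h3]
  calc ∫ y, v y * (1 / 2 * gs (x - y) + 1 / 2 * gs (x + y)) =
        ∫ y, (1 / 2 * (v y * gs (x - y)) + 1 / 2 * (v y * gs (x + y))) := by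
        refine integral_congr_ae (ae_of_all _ fun y => ?_)
        simp only; ring
    _ = _ := by
        rw [integral_add (hb1.const_mul _) (hb2.const_mul _), integral_const_mul, integral_const_mul,
          h4]
        ring

lemma gs_one : ∫ x, gs x = 1 := by
  have := gs_fl 0
  unfold fl gs at this
  simpa [gs] using this

lemma uu_integrable (hv : Integrable v) (he : ∀ x, v (-x) = v x) : Integrable (uu v) := by
  have h := hv.integrable_convolution (ContinuousLinearMap.mul ℝ ℝ) gs_int
  refine h.congr (ae_of_all _ fun x => ?_)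
  rw [uu_conv hv he]
  rfl

/-- smallness of the smoothed function -/
lemma uu_small (hv : Integrable v) (he : ∀ x, v (-x) = v x) {C c a b s x : ℝ} (hC : 0 ≤ C)
    (hc : 0 < c) (hs : 0 ≤ s)
    (h : ∀ᵐ y : ℝ, y ∈ Icc a b → |v y| ≤ C * Real.exp (-(c * y))) (hx1 : a + s ≤ x)
    (hx2 : x ≤ b - s) : |uu v x| ≤ C * Real.exp (-(c * (x - s))) + (∫ y, |v y|) * gs s := by
  rw [uu_conv hv he, ← Real.norm_eq_abs]
  have hg1 : Integrable fun y => gs (x - y) := gs_int.comp_sub_left x
  have hg2 : ∫ y, gs (x - y) = 1 := by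
    rw [integral_sub_left_eq_self (fun y => gs y) volume x, gs_one]
  have hle := norm_integral_le_of_norm_le (f := fun y => v y * gs (x - y))
    (g := fun y => C * Real.exp (-(c * (x - s))) * gs (x - y) + |v y| * gs s)
    ((hg1.const_mul _).add (hv.abs.mul_const _)) (by
      filter_upwards [h] with y hy
      rw [Real.norm_eq_abs, abs_mul, abs_of_pos (gs_pos _)]
      rcases le_or_gt |x - y| s with h1 | h1
      · have h2 := abs_le.1 h1
        have h3 := hy ⟨by linarith, by linarith⟩
        have h4 : Real.exp (-(c * y)) ≤ Real.exp (-(c * (x - s))) := by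
          apply Real.exp_le_exp.2
          have : c * (x - s) ≤ c * y := by gcongr; linarith
          linarith
        have h5 : 0 ≤ |v y| * gs s := mul_nonneg (abs_nonneg _) (gs_pos _).le
        calc |v y| * gs (x - y) ≤ (C * Real.exp (-(c * y))) * gs (x - y) :=
              mul_le_mul_of_nonneg_right h3 (gs_pos _).le
          _ ≤ (C * Real.exp (-(c * (x - s)))) * gs (x - y) := by
              have := (gs_pos (x - y)).le
              gcongr
          _ ≤ _ := by linarith
      · have h2 : gs (x - y) ≤ gs s := by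
          unfold gs
          apply Real.exp_le_exp.2
          have : s ^ 2 ≤ (x - y) ^ 2 := by
            rw [← sq_abs (x - y)]
            exact pow_le_pow_left₀ hs h1.le 2
          have hpi := Real.pi_pos
          nlinarith
        have h3 : 0 ≤ C * Real.exp (-(c * (x - s))) * gs (x - y) := by
          have := (gs_pos (x - y)).le
          positivity
        have h4 : |v y| * gs (x - y) ≤ |v y| * gs s := by gcongr
        linarith)
  refine hle.trans (le_of_eq ?_)
  rw [integral_add (hg1.const_mul _) (hv.abs.mul_const _), integral_const_mul, integral_mul_const,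
    hg2, mul_one]

/-- the Lipschitz constant -/
noncomputable def KK (v : ℝ → ℝ) : ℝ := 2 * Real.pi * ∫ w, |(|w| * UU v w)|

lemma KK_nonneg (v : ℝ → ℝ) : 0 ≤ KK v := by
  unfold KK
  have := Real.pi_pos
  have : 0 ≤ ∫ w, |(|w| * UU v w)| := integral_nonneg fun w => abs_nonneg _
  positivity

lemma cos_lip (x y : ℝ) : |Real.cos x - Real.cos y| ≤ |x - y| := by
  rw [Real.cos_sub_cos, abs_mul, abs_mul, abs_neg, abs_of_pos (by norm_num : (0:ℝ) < 2)]
  have h1 := Real.abs_sin_le_one ((x + y) / 2)
  have h2 := Real.abs_sin_le_abs (x := (x - y) / 2)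
  rw [abs_div, abs_of_pos (by norm_num : (0:ℝ) < 2)] at h2
  calc 2 * |Real.sin ((x + y) / 2)| * |Real.sin ((x - y) / 2)| ≤ 2 * 1 * (|x - y| / 2) := by gcongr
    _ = |x - y| := by ring

lemma uu_lip (hv : Integrable v) (x y : ℝ) : |uu v x - uu v y| ≤ KK v * |x - y| := by
  unfold uu fl
  rw [← integral_sub (int_mul_cos (UU_int hv) x) (int_mul_cos (UU_int hv) y), ← Real.norm_eq_abs]
  unfold KK
  rw [mul_assoc, mul_comm (∫ w, |(|w| * UU v w)|), ← mul_assoc, ← integral_const_mul]
  refine norm_integral_le_of_norm_le ((UU_int' hv).abs.const_mul _) (ae_of_all _ fun w => ?_)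
  rw [Real.norm_eq_abs, ← mul_sub, abs_mul]
  have h1 := cos_lip (2 * Real.pi * w * x) (2 * Real.pi * w * y)
  rw [show 2 * Real.pi * w * x - 2 * Real.pi * w * y = 2 * Real.pi * (w * (x - y)) by ring,
    abs_mul, abs_of_pos (show 0 < 2 * Real.pi by positivity), abs_mul] at h1
  calc |UU v w| * |Real.cos (2 * Real.pi * w * x) - Real.cos (2 * Real.pi * w * y)| ≤
        |UU v w| * (2 * Real.pi * (|w| * |x - y|)) := by gcongr
    _ = 2 * Real.pi * |x - y| * |(|w| * UU v w)| := by
        rw [abs_mul, abs_abs]; ring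

/-- the sine part -/
noncomputable def hl (v : ℝ → ℝ) (x : ℝ) : ℝ := ∫ w in Ioi (0 : ℝ), UU v w * Real.sin (2 * Real.pi * w * x)

lemma half_cos (v : ℝ → ℝ) (s : ℝ) : ∫ w in Ioi (0 : ℝ), UU v w * Real.cos (2 * Real.pi * w * s) =
    uu v s / 2 := by
  have h := integral_comp_abs (f := fun w => UU v w * Real.cos (2 * Real.pi * w * s))
  have h2 : ∀ w : ℝ, UU v |w| * Real.cos (2 * Real.pi * |w| * s) =
      UU v w * Real.cos (2 * Real.pi * w * s) := by
    intro w
    rcases abs_cases w with h | h
    · rw [h.1]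
    · rw [h.1, UU_even, show 2 * Real.pi * -w * s = -(2 * Real.pi * w * s) by ring, Real.cos_neg]
  simp_rw [h2] at h
  have h3 : uu v s = ∫ w, UU v w * Real.cos (2 * Real.pi * w * s) := rfl
  rw [h3, h]; ring

lemma sin_sin (hv : Integrable v) (x y : ℝ) : ∫ w in Ioi (0 : ℝ), UU v w *
    (Real.sin (2 * Real.pi * w * x) * Real.sin (2 * Real.pi * w * y)) =
    (uu v (x - y) - uu v (x + y)) / 4 := by
  have h1 : ∀ w : ℝ, UU v w * (Real.sin (2 * Real.pi * w * x) * Real.sin (2 * Real.pi * w * y)) =
      1 / 2 * (UU v w * Real.cos (2 * Real.pi * w * (x - y))) -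
      1 / 2 * (UU v w * Real.cos (2 * Real.pi * w * (x + y))) := by
    intro w
    rw [show 2 * Real.pi * w * (x - y) = 2 * Real.pi * w * x - 2 * Real.pi * w * y by ring,
      show 2 * Real.pi * w * (x + y) = 2 * Real.pi * w * x + 2 * Real.pi * w * y by ring,
      Real.cos_sub, Real.cos_add]
    ring
  simp_rw [h1]
  rw [integral_sub ((int_mul_cos (UU_int hv) _).integrableOn.const_mul _)
    ((int_mul_cos (UU_int hv) _).integrableOn.const_mul _), integral_const_mul, integral_const_mul,
    half_cos, half_cos]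
  ring

/-- the kernel formula for the sine part -/
lemma hl_eq (hv : Integrable v) {η : ℝ} (hη : 0 < η) (hgap : ∀ w, |w| < η → fl v w = 0)
    {ψ : ℝ → ℝ} (hψ : Nic η ψ) (x : ℝ) :
    hl v x = ∫ y, fl ψ y * ((uu v (x - y) - uu v (x + y)) / (4 * Real.pi * y)) := by
  have hpi := Real.pi_pos
  obtain ⟨f, hf⟩ : ∃ f : ℝ → ℝ → ℝ, ∀ w y, f w y = UU v w * Real.sin (2 * Real.pi * w * x) *
      (2 * (fl ψ y * (Real.sin (2 * Real.pi * w * y) / (2 * Real.pi * y)))) := ⟨_, fun _ _ => rfl⟩
  have h1 : ∀ w ∈ Ioi (0 : ℝ), UU v w * Real.sin (2 * Real.pi * w * x) = ∫ y, f w y := by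
    intro w hw
    simp_rw [hf]
    rw [integral_const_mul, integral_const_mul]
    rcases lt_or_ge w η with h | h
    · have : UU v w = 0 := by
        unfold UU
        rw [hgap w (by rw [abs_of_pos hw]; exact h), zero_mul]
      rw [this]; simp
    · rw [sgn_int hη hψ h]; ring
  have hsin : ∀ w y : ℝ, |Real.sin (2 * Real.pi * w * y) / (2 * Real.pi * y)| ≤ |w| := by
    intro w y
    rcases eq_or_ne y 0 with h | h
    · rw [h]; simp
    · rw [abs_div, div_le_iff₀ (by positivity)]
      refine (Real.abs_sin_le_abs).trans (le_of_eq ?_)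
      rw [← abs_mul]
      congr 1; ring
  have hint : Integrable (Function.uncurry f) ((volume.restrict (Ioi 0)).prod volume) := by
    have hdom : Integrable (fun z : ℝ × ℝ => (fun w : ℝ => 2 * |(|w| * UU v w)|) z.1 *
        (fun y => |fl ψ y|) z.2) ((volume.restrict (Ioi 0)).prod volume) := by
      refine Integrable.mul_prod (f := fun w : ℝ => 2 * |(|w| * UU v w)|) (g := fun y => |fl ψ y|)
        ?_ hψ.fli.abs
      exact ((UU_int' hv).abs.const_mul 2).integrableOn
    refine hdom.mono' ?_ (ae_of_all _ fun z => ?_)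
    · have m1 : Measurable (UU v) := (UU_cont hv).measurable
      have m2 : Measurable (fl ψ) := (fl_cont hψ.int).measurable
      have : Function.uncurry f = fun z : ℝ × ℝ => UU v z.1 * Real.sin (2 * Real.pi * z.1 * x) *
        (2 * (fl ψ z.2 * (Real.sin (2 * Real.pi * z.1 * z.2) / (2 * Real.pi * z.2)))) := by
        ext z
        exact hf _ _
      rw [this]
      apply Measurable.aestronglyMeasurable
      fun_prop
    · simp only [Function.uncurry]
      rw [hf, Real.norm_eq_abs, abs_mul, abs_mul, abs_mul, abs_mul,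
        abs_of_pos (by norm_num : (0:ℝ) < 2)]
      have hs1 := hsin z.1 z.2
      obtain ⟨q, hq⟩ : ∃ q : ℝ, q = |Real.sin (2 * Real.pi * z.1 * z.2) / (2 * Real.pi * z.2)| :=
        ⟨_, rfl⟩
      rw [← hq] at hs1 ⊢
      have hq0 : 0 ≤ q := by rw [hq]; exact abs_nonneg _
      calc |UU v z.1| * |Real.sin (2 * Real.pi * z.1 * x)| *
            (2 * (|fl ψ z.2| * q)) ≤
            |UU v z.1| * 1 * (2 * (|fl ψ z.2| * |z.1|)) := by
            gcongr
            exact Real.abs_sin_le_one _
        _ = 2 * |(|z.1| * UU v z.1)| * |fl ψ z.2| := by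
            rw [abs_mul, abs_abs]; ring
  have h2 := integral_integral_swap hint
  unfold hl
  rw [setIntegral_congr_fun measurableSet_Ioi h1, h2]
  refine integral_congr_ae (ae_of_all _ fun y => ?_)
  simp only
  have h3 : ∀ w, f w y = (2 * (fl ψ y / (2 * Real.pi * y))) * (UU v w *
      (Real.sin (2 * Real.pi * w * x) * Real.sin (2 * Real.pi * w * y))) := by
    intro w
    rw [hf]; ring
  simp_rw [h3]
  rw [integral_const_mul, sin_sin hv]
  rcases eq_or_ne y 0 with h | h
  · rw [h]; simp
  · field_simp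

end Pool.Agent.Y749.Rig
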