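import Pool.Agent.Y749.Rig.Beu1

/-! # Functions with a spectral gap that are small on an interval -/

set_option autoImplicit false

open MeasureTheory Set Filter Topology
open Complex (I)

namespace Pool.Agent.Y749.Rig

variable {v : ℝ → ℝ}

/-- smallness of the sine part -/
lemma hl_small (hv : Integrable v) (he : ∀ x, v (-x) = v x) {η : ℝ} (hη : 0 < η)
    (hgap : ∀ w, |w| < η → fl v w = 0) {x r τ : ℝ} (hr : 1 ≤ r) (hτ : 0 < τ)
    (hsm : ∀ s, |s - x| ≤ r → |uu v s| ≤ τ ^ 2) :
    |hl v x| ≤ 2 * KK v * τ + 2 * τ * r + 2 * Real.exp (1 - η * r) * ∫ y, |uu v y| := by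
  have hpi := Real.pi_gt_three
  have hr0 : 0 < r := by linarith
  obtain ⟨ψ, hψ, hψ1, hψ2⟩ := kern hη hr0
  obtain ⟨E, hE⟩ : ∃ E : ℝ, E = Real.exp (1 - η * r) := ⟨_, rfl⟩
  have hE0 : 0 < E := by rw [hE]; exact Real.exp_pos _
  rw [← hE] at hψ2 ⊢
  rw [hl_eq hv hη hgap hψ, ← Real.norm_eq_abs]
  have hK := KK_nonneg v
  have hui := uu_integrable hv he
  have i1 : Integrable fun y => |uu v (x - y)| := (hui.comp_sub_left x).abs
  have i2 : Integrable fun y => |uu v (x + y)| := (hui.comp_add_left x).abs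
  have j1 : Integrable ((Icc (-τ) τ).indicator fun _ : ℝ => KK v) := by
    rw [integrable_indicator_iff measurableSet_Icc]
    exact integrableOn_const (by simp)
  have j2 : Integrable ((Icc (-r) r).indicator fun _ : ℝ => τ) := by
    rw [integrable_indicator_iff measurableSet_Icc]
    exact integrableOn_const (by simp)
  have k1 : ∫ y, (Icc (-τ) τ).indicator (fun _ : ℝ => KK v) y = 2 * KK v * τ := by
    rw [integral_indicator measurableSet_Icc, setIntegral_const, Measure.real, Real.volume_Icc,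
      ENNReal.toReal_ofReal (by linarith), smul_eq_mul]
    ring
  have k2 : ∫ y, (Icc (-r) r).indicator (fun _ : ℝ => τ) y = 2 * τ * r := by
    rw [integral_indicator measurableSet_Icc, setIntegral_const, Measure.real, Real.volume_Icc,
      ENNReal.toReal_ofReal (by linarith), smul_eq_mul]
    ring
  have k3 : ∫ y, |uu v (x - y)| = ∫ y, |uu v y| :=
    integral_sub_left_eq_self (fun y => |uu v y|) volume x
  have k4 : ∫ y, |uu v (x + y)| = ∫ y, |uu v y| :=
    integral_add_left_eq_self (fun y => |uu v y|) x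
  have hle := norm_integral_le_of_norm_le
    (f := fun y => fl ψ y * ((uu v (x - y) - uu v (x + y)) / (4 * Real.pi * y)))
    (g := fun y => ((Icc (-τ) τ).indicator (fun _ : ℝ => KK v) y +
      (Icc (-r) r).indicator (fun _ : ℝ => τ) y) + E * (|uu v (x - y)| + |uu v (x + y)|))
    ((j1.add j2).add ((i1.add i2).const_mul E)) (by
      refine ae_of_all _ fun y => ?_
      have n1 : 0 ≤ (Icc (-τ) τ).indicator (fun _ : ℝ => KK v) y :=
        indicator_nonneg (fun _ _ => hK) _
      have n2 : 0 ≤ (Icc (-r) r).indicator (fun _ : ℝ => τ) y :=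
        indicator_nonneg (fun _ _ => hτ.le) _
      have n3 : 0 ≤ E * (|uu v (x - y)| + |uu v (x + y)|) := by positivity
      rw [Real.norm_eq_abs, abs_mul]
      rcases eq_or_ne y 0 with h0 | h0
      · rw [h0] at n1 n2 n3 ⊢
        simp only [mul_zero, div_zero, abs_zero]
        linarith
      have hy : 0 < |y| := abs_pos.2 h0
      have e1 : |(uu v (x - y) - uu v (x + y)) / (4 * Real.pi * y)| =
          |uu v (x - y) - uu v (x + y)| / (4 * Real.pi * |y|) := by
        rw [abs_div, abs_mul, abs_of_pos (show 0 < 4 * Real.pi by positivity)]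
      rw [e1]
      have h4 : 0 ≤ |uu v (x - y) - uu v (x + y)| / (4 * Real.pi * |y|) := by positivity
      rcases le_or_gt |y| τ with h1 | h1
      · rw [indicator_of_mem (show y ∈ Icc (-τ) τ from ⟨(abs_le.1 h1).1, (abs_le.1 h1).2⟩)]
        have h2 := uu_lip hv (x - y) (x + y)
        have h3 : |x - y - (x + y)| = 2 * |y| := by
          rw [show x - y - (x + y) = -(2 * y) by ring, abs_neg, abs_mul,
            abs_of_pos (by norm_num : (0:ℝ) < 2)]
        rw [h3] at h2
        have h5 : |uu v (x - y) - uu v (x + y)| / (4 * Real.pi * |y|) ≤ KK v := by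
          rw [div_le_iff₀ (by positivity)]
          have : KK v * (2 * |y|) ≤ KK v * (4 * Real.pi * |y|) := by
            gcongr
            linarith
          linarith
        have h6 : |fl ψ y| * (|uu v (x - y) - uu v (x + y)| / (4 * Real.pi * |y|)) ≤ 1 * KK v :=
          mul_le_mul (hψ1 y) h5 h4 zero_le_one
        linarith
      · rcases le_or_gt |y| r with h2 | h2
        · rw [indicator_of_mem (show y ∈ Icc (-r) r from ⟨(abs_le.1 h2).1, (abs_le.1 h2).2⟩)]
          have h3 := hsm (x - y) (by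
            rw [show x - y - x = -y by ring, abs_neg]; exact h2)
          have h3' := hsm (x + y) (by
            rw [show x + y - x = y by ring]; exact h2)
          have h5 : |uu v (x - y) - uu v (x + y)| ≤ 2 * τ ^ 2 := by
            refine (abs_sub _ _).trans ?_
            linarith
          have h6 : |uu v (x - y) - uu v (x + y)| / (4 * Real.pi * |y|) ≤ τ := by
            rw [div_le_iff₀ (by positivity)]
            have : τ * (4 * Real.pi * τ) ≤ τ * (4 * Real.pi * |y|) := by gcongr
            nlinarith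
          have h7 : |fl ψ y| * (|uu v (x - y) - uu v (x + y)| / (4 * Real.pi * |y|)) ≤ 1 * τ :=
            mul_le_mul (hψ1 y) h6 h4 zero_le_one
          linarith
        · have h3 := hψ2 y h2.le
          have h5 : |uu v (x - y) - uu v (x + y)| / (4 * Real.pi * |y|) ≤
              |uu v (x - y)| + |uu v (x + y)| := by
            refine (div_le_self (abs_nonneg _) ?_).trans (abs_sub _ _)
            nlinarith
          have h7 : |fl ψ y| * (|uu v (x - y) - uu v (x + y)| / (4 * Real.pi * |y|)) ≤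
              E * (|uu v (x - y)| + |uu v (x + y)|) := mul_le_mul h3 h5 h4 hE0.le
          linarith)
  refine hle.trans (le_of_eq ?_)
  have s1 : ∫ y, (((Icc (-τ) τ).indicator (fun _ : ℝ => KK v) y +
      (Icc (-r) r).indicator (fun _ : ℝ => τ) y) + E * (|uu v (x - y)| + |uu v (x + y)|)) =
      (∫ y, ((Icc (-τ) τ).indicator (fun _ : ℝ => KK v) y +
      (Icc (-r) r).indicator (fun _ : ℝ => τ) y)) + ∫ y, E * (|uu v (x - y)| + |uu v (x + y)|) :=
    integral_add (j1.add j2) ((i1.add i2).const_mul E)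
  have s2 : ∫ y, ((Icc (-τ) τ).indicator (fun _ : ℝ => KK v) y +
      (Icc (-r) r).indicator (fun _ : ℝ => τ) y) =
      (∫ y, (Icc (-τ) τ).indicator (fun _ : ℝ => KK v) y) +
      ∫ y, (Icc (-r) r).indicator (fun _ : ℝ => τ) y := integral_add j1 j2
  rw [s1, s2, integral_const_mul, integral_add i1 i2, k1, k2, k3, k4]
  ring

/-- the analytic function of the upper half plane -/
noncomputable def ff (v : ℝ → ℝ) (z : ℂ) : ℂ :=
  ∫ w in Ioi (0 : ℝ), (UU v w : ℂ) * Complex.exp (2 * Real.pi * I * w * z)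

/-- the bound -/
noncomputable def MM (v : ℝ → ℝ) : ℝ := ∫ w, |UU v w|

lemma MM_nonneg (v : ℝ → ℝ) : 0 ≤ MM v := integral_nonneg fun _ => abs_nonneg _

lemma exp_im {w : ℝ} (z : ℂ) : ‖Complex.exp (2 * Real.pi * I * w * z)‖ =
    Real.exp (-(2 * Real.pi * w * z.im)) := by
  rw [Complex.norm_exp]
  congr 1
  have : 2 * Real.pi * I * w * z = ((2 * Real.pi * w : ℝ) : ℂ) * (I * z) := by push_cast; ring
  rw [this, Complex.re_ofReal_mul]
  simp

lemma ff_bound (hv : Integrable v) {z : ℂ} (hz : 0 ≤ z.im) : ‖ff v z‖ ≤ MM v := by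
  unfold ff MM
  have h1 : ∫ w in Ioi (0 : ℝ), |UU v w| ≤ ∫ w, |UU v w| :=
    setIntegral_le_integral (UU_int hv).abs (ae_of_all _ fun _ => abs_nonneg _)
  refine le_trans ?_ h1
  refine norm_integral_le_of_norm_le (UU_int hv).abs.integrableOn ?_
  refine (ae_restrict_iff' measurableSet_Ioi).2 (ae_of_all _ fun w hw => ?_)
  rw [norm_mul, exp_im, Complex.norm_real, Real.norm_eq_abs]
  apply mul_le_of_le_one_right (abs_nonneg _)
  rw [Real.exp_le_one_iff]
  have hw' : 0 < w := hw
  have := Real.pi_pos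
  have : 0 ≤ 2 * Real.pi * w * z.im := by positivity
  linarith

/-- domination by gaussians -/
lemma UU_exp (hv : Integrable v) (A : ℝ) :
    Integrable fun w : ℝ => |w| * |UU v w| * Real.exp (2 * Real.pi * |w| * A) := by
  have hpi := Real.pi_pos
  have h1 : ∀ w : ℝ, |w| * |UU v w| * Real.exp (2 * Real.pi * |w| * A) ≤
      ((∫ x, |v x|) * Real.exp (2 * Real.pi * A ^ 2)) * (|w| * Real.exp (-(Real.pi / 2) * w ^ 2)) := by
    intro w
    have h2 := UU_le hv w
    have h3 : gs w * Real.exp (2 * Real.pi * |w| * A) ≤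
        Real.exp (2 * Real.pi * A ^ 2) * Real.exp (-(Real.pi / 2) * w ^ 2) := by
      unfold gs
      rw [← Real.exp_add, ← Real.exp_add]
      apply Real.exp_le_exp.2
      have h4 : 2 * |w| * A ≤ 2 * A ^ 2 + w ^ 2 / 2 := by
        rw [← sq_abs w]
        nlinarith [sq_nonneg (|w| - 2 * A)]
      have h5 : Real.pi * (2 * |w| * A) ≤ Real.pi * (2 * A ^ 2 + w ^ 2 / 2) := by gcongr
      linarith
    calc |w| * |UU v w| * Real.exp (2 * Real.pi * |w| * A) ≤
          |w| * ((∫ x, |v x|) * gs w) * Real.exp (2 * Real.pi * |w| * A) := by gcongr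
      _ = |w| * (∫ x, |v x|) * (gs w * Real.exp (2 * Real.pi * |w| * A)) := by ring
      _ ≤ |w| * (∫ x, |v x|) * (Real.exp (2 * Real.pi * A ^ 2) *
            Real.exp (-(Real.pi / 2) * w ^ 2)) := by
          have : 0 ≤ ∫ x, |v x| := integral_nonneg fun _ => abs_nonneg _
          gcongr
      _ = _ := by ring
  have h2 : Integrable fun w : ℝ => |w| * Real.exp (-(Real.pi / 2) * w ^ 2) := by
    have h := integrable_mul_exp_neg_mul_sq (show 0 < Real.pi / 2 by positivity)
    refine h.norm.congr (ae_of_all _ fun x => ?_)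
    simp only [norm_mul, Real.norm_eq_abs, Real.abs_exp]
  refine (h2.const_mul ((∫ x, |v x|) * Real.exp (2 * Real.pi * A ^ 2))).mono' ?_
    (ae_of_all _ fun w => ?_)
  · have := UU_cont hv
    apply Continuous.aestronglyMeasurable
    fun_prop
  · rw [Real.norm_eq_abs, abs_of_nonneg (by positivity)]
    exact h1 w

lemma ff_diff (hv : Integrable v) : Differentiable ℂ (ff v) := by
  intro z
  have hpi := Real.pi_pos
  have hbase : ∀ z : ℂ, Integrable (fun w : ℝ => (UU v w : ℂ) * Complex.exp (2 * Real.pi * I * w * z))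
      (volume.restrict (Ioi 0)) := by
    intro z
    have h1 : Integrable fun w : ℝ => |UU v w| * Real.exp (2 * Real.pi * |w| * |z.im|) := by
      have h3 := (UU_exp hv |z.im|).add (((UU_int hv).abs).const_mul
        (Real.exp (2 * Real.pi * |z.im|)))
      refine h3.mono' ?_ (ae_of_all _ fun w => ?_)
      · have := UU_cont hv
        apply Continuous.aestronglyMeasurable
        fun_prop
      · rw [Real.norm_eq_abs, abs_of_nonneg (by positivity)]
        show _ ≤ |w| * |UU v w| * Real.exp (2 * Real.pi * |w| * |z.im|) +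
          Real.exp (2 * Real.pi * |z.im|) * |UU v w|
        rcases le_or_gt 1 |w| with h | h
        · have : |UU v w| * Real.exp (2 * Real.pi * |w| * |z.im|) ≤
              |w| * |UU v w| * Real.exp (2 * Real.pi * |w| * |z.im|) := by
            gcongr
            exact le_mul_of_one_le_left (abs_nonneg _) h
          have : 0 ≤ Real.exp (2 * Real.pi * |z.im|) * |UU v w| := by positivity
          linarith
        · have : |UU v w| * Real.exp (2 * Real.pi * |w| * |z.im|) ≤
              |UU v w| * Real.exp (2 * Real.pi * |z.im|) := by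
            have h5 : 2 * Real.pi * |w| * |z.im| ≤ 2 * Real.pi * |z.im| := by
              have h6 := mul_le_mul_of_nonneg_right h.le (abs_nonneg z.im)
              rw [one_mul] at h6
              nlinarith
            exact mul_le_mul_of_nonneg_left (Real.exp_le_exp.2 h5) (abs_nonneg _)
          have : 0 ≤ |w| * |UU v w| * Real.exp (2 * Real.pi * |w| * |z.im|) := by positivity
          linarith
    refine (h1.integrableOn (s := Ioi 0)).mono' ?_ (ae_of_all _ fun w => ?_)
    · have := UU_cont hv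
      apply Continuous.aestronglyMeasurable
      fun_prop
    · rw [norm_mul, exp_im, Complex.norm_real, Real.norm_eq_abs]
      gcongr
      have h2 : |w * z.im| = |w| * |z.im| := abs_mul _ _
      have h3 := neg_abs_le (w * z.im)
      rw [h2] at h3
      nlinarith
  have hd := hasDerivAt_integral_of_dominated_loc_of_deriv_le (μ := volume.restrict (Ioi (0:ℝ)))
    (F := fun (z : ℂ) (w : ℝ) => (UU v w : ℂ) * Complex.exp (2 * Real.pi * I * w * z))
    (F' := fun (z : ℂ) (w : ℝ) => (UU v w : ℂ) * (Complex.exp (2 * Real.pi * I * w * z) *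
      (2 * Real.pi * I * w)))
    (x₀ := z) (s := Metric.ball z 1) (Metric.ball_mem_nhds z one_pos)
    (bound := fun w : ℝ => 2 * Real.pi * (|w| * |UU v w| * Real.exp (2 * Real.pi * |w| * (|z.im| + 1))))
    ?_ (hbase z) ?_ ?_ ?_ ?_
  · exact hd.2.differentiableAt
  · refine Eventually.of_forall fun z => ?_
    have := UU_cont hv
    apply Continuous.aestronglyMeasurable
    fun_prop
  · have := UU_cont hv
    apply Continuous.aestronglyMeasurable
    fun_prop
  · refine ae_of_all _ fun w y hy => ?_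
    rw [norm_mul, norm_mul, exp_im, Complex.norm_real, Real.norm_eq_abs]
    have h1 : ‖(2 * Real.pi * I * w : ℂ)‖ = 2 * Real.pi * |w| := by
      rw [norm_mul, norm_mul, norm_mul, Complex.norm_I, Complex.norm_real, Complex.norm_real,
        Complex.norm_ofNat, Real.norm_eq_abs, Real.norm_eq_abs, abs_of_pos hpi, mul_one]
    rw [h1]
    have h2 : |y.im| ≤ |z.im| + 1 := by
      have h3 := Complex.abs_im_le_norm (y - z)
      rw [Complex.sub_im] at h3
      have h4 : ‖y - z‖ < 1 := by rwa [← dist_eq_norm]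
      have h5 := abs_add_le (y.im - z.im) z.im
      rw [sub_add_cancel] at h5
      linarith
    have h6 : Real.exp (-(2 * Real.pi * w * y.im)) ≤
        Real.exp (2 * Real.pi * |w| * (|z.im| + 1)) := by
      apply Real.exp_le_exp.2
      have h7 : -(w * y.im) ≤ |w| * |y.im| := by
        rw [← abs_mul]; exact neg_le_abs _
      have h8 : |w| * |y.im| ≤ |w| * (|z.im| + 1) := by gcongr
      nlinarith
    calc |UU v w| * (Real.exp (-(2 * Real.pi * w * y.im)) * (2 * Real.pi * |w|)) ≤
          |UU v w| * (Real.exp (2 * Real.pi * |w| * (|z.im| + 1)) * (2 * Real.pi * |w|)) := by gcongr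
      _ = _ := by ring
  · exact ((UU_exp hv (|z.im| + 1)).const_mul _).integrableOn
  · refine ae_of_all _ fun w y _ => ?_
    have h1 : HasDerivAt (fun y : ℂ => 2 * Real.pi * I * w * y) (2 * Real.pi * I * w) y := by
      simpa using (hasDerivAt_id y).const_mul (2 * Real.pi * I * w : ℂ)
    exact (h1.cexp).const_mul _

/-- the value on the real line -/
lemma ff_real (hv : Integrable v) (x : ℝ) :
    ff v x = ((uu v x / 2 : ℝ) : ℂ) + ((hl v x : ℝ) : ℂ) * I := by
  unfold ff
  have h1 : ∀ w : ℝ, (UU v w : ℂ) * Complex.exp (2 * Real.pi * I * w * x) =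
      ((UU v w * Real.cos (2 * Real.pi * w * x) : ℝ) : ℂ) +
      ((UU v w * Real.sin (2 * Real.pi * w * x) : ℝ) : ℂ) * I := by
    intro w
    rw [exp_split]
    push_cast; ring
  simp_rw [h1]
  have i1 : Integrable (fun w : ℝ => ((UU v w * Real.cos (2 * Real.pi * w * x) : ℝ) : ℂ))
      (volume.restrict (Ioi 0)) := (int_mul_cos (UU_int hv) x).integrableOn.ofReal
  have i2 : Integrable (fun w : ℝ => ((UU v w * Real.sin (2 * Real.pi * w * x) : ℝ) : ℂ) * I)
      (volume.restrict (Ioi 0)) := (int_mul_sin (UU_int hv) x).integrableOn.ofReal.mul_const I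
  rw [integral_add i1 i2, integral_mul_const, integral_complex_ofReal, integral_complex_ofReal,
    half_cos]
  rfl

/-- smallness of `ff` on the middle part of a good interval -/
theorem ff_small (hv : Integrable v) (he : ∀ x, v (-x) = v x) {η : ℝ} (hη : 0 < η)
    (hgap : ∀ w, |w| < η → fl v w = 0) {C c : ℝ} (hC : 0 ≤ C) (hc : 0 < c) :
    ∃ C3 c3 : ℝ, 0 < C3 ∧ 0 < c3 ∧ ∀ a r : ℝ, 0 ≤ a → 1 ≤ r →
      (∀ᵐ y : ℝ, y ∈ Icc a (a + 8 * r) → |v y| ≤ C * Real.exp (-(c * y))) →
      ∀ x ∈ Icc (a + 3 * r) (a + 5 * r), ‖ff v x‖ ≤ C3 * Real.exp (-(c3 * r)) := by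
  have hpi := Real.pi_gt_three
  obtain ⟨V, hV⟩ : ∃ V : ℝ, V = ∫ y, |v y| := ⟨_, rfl⟩
  have hV0 : 0 ≤ V := by rw [hV]; exact integral_nonneg fun _ => abs_nonneg _
  obtain ⟨V1, hV1⟩ : ∃ V1 : ℝ, V1 = ∫ y, |uu v y| := ⟨_, rfl⟩
  have hV10 : 0 ≤ V1 := by rw [hV1]; exact integral_nonneg fun _ => abs_nonneg _
  have hK := KK_nonneg v
  obtain ⟨D, hD⟩ : ∃ D : ℝ, D = C + V + 1 := ⟨_, rfl⟩
  have hD1 : 1 ≤ D := by rw [hD]; linarith
  obtain ⟨d, hd⟩ : ∃ d : ℝ, d = min (min c 1) (2 * η) := ⟨_, rfl⟩
  have hd0 : 0 < d := by rw [hd]; exact lt_min (lt_min hc one_pos) (by positivity)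
  have hdc : d ≤ c := by rw [hd]; exact (min_le_left _ _).trans (min_le_left _ _)
  have hd1 : d ≤ 1 := by rw [hd]; exact (min_le_left _ _).trans (min_le_right _ _)
  have hdη : d ≤ 2 * η := by rw [hd]; exact min_le_right _ _
  refine ⟨D + 2 * KK v * D + 2 * D * (4 / d) + 2 * Real.exp 1 * V1, d / 4, by positivity,
    by positivity, fun a r ha hr hsm x hx => ?_⟩
  have hr0 : 0 < r := by linarith
  -- smallness of `uu`
  have hu : ∀ s, |s - x| ≤ r → |uu v s| ≤ D * Real.exp (-(d * r)) := by
    intro s hs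
    have h1 := abs_le.1 hs
    have h2 := uu_small hv he hC hc hr0.le hsm (x := s) (by linarith [hx.1]) (by linarith [hx.2])
    rw [← hV] at h2
    have h3 : Real.exp (-(c * (s - r))) ≤ Real.exp (-(d * r)) := by
      apply Real.exp_le_exp.2
      have h4 : r ≤ s - r := by linarith [hx.1]
      have h5 : d * r ≤ c * (s - r) := by gcongr
      linarith
    have h4 : gs r ≤ Real.exp (-(d * r)) := by
      unfold gs
      apply Real.exp_le_exp.2
      have h5 : d * r ≤ 1 * r := by gcongr
      nlinarith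
    calc |uu v s| ≤ C * Real.exp (-(c * (s - r))) + V * gs r := h2
      _ ≤ C * Real.exp (-(d * r)) + V * Real.exp (-(d * r)) := by gcongr
      _ ≤ D * Real.exp (-(d * r)) := by
          rw [hD]
          have := Real.exp_pos (-(d * r))
          nlinarith
  obtain ⟨τ, hτ⟩ : ∃ τ : ℝ, τ = D * Real.exp (-(d / 2 * r)) := ⟨_, rfl⟩
  have hτ0 : 0 < τ := by rw [hτ]; positivity
  have hτ2 : D * Real.exp (-(d * r)) ≤ τ ^ 2 := by
    rw [hτ, mul_pow, ← Real.exp_nat_mul]
    have e : ((2 : ℕ) : ℝ) * -(d / 2 * r) = -(d * r) := by push_cast; ring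
    rw [e]
    have h5 : D ≤ D ^ 2 := by nlinarith
    exact mul_le_mul_of_nonneg_right h5 (Real.exp_pos (-(d * r))).le
  have hh := hl_small hv he hη hgap hr hτ0 fun s hs => (hu s hs).trans hτ2
  rw [← hV1] at hh
  have hux := hu x (by simp; linarith)
  rw [ff_real hv]
  have hn : ‖((uu v x / 2 : ℝ) : ℂ) + ((hl v x : ℝ) : ℂ) * I‖ ≤ |uu v x| + |hl v x| := by
    refine (norm_add_le _ _).trans ?_
    rw [norm_mul, Complex.norm_I, mul_one, Complex.norm_real, Complex.norm_real, Real.norm_eq_abs,
      Real.norm_eq_abs, abs_div, abs_of_pos (by norm_num : (0:ℝ) < 2)]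
    have := abs_nonneg (uu v x)
    linarith
  refine hn.trans ?_
  obtain ⟨X, hX⟩ : ∃ X : ℝ, X = Real.exp (-(d / 4 * r)) := ⟨_, rfl⟩
  have hX0 : 0 < X := by rw [hX]; exact Real.exp_pos _
  rw [← hX]
  have b1 : Real.exp (-(d * r)) ≤ X := by
    rw [hX]
    apply Real.exp_le_exp.2
    nlinarith [mul_pos hd0 hr0]
  have b2 : τ ≤ D * X := by
    rw [hτ, hX]
    gcongr
    nlinarith [mul_pos hd0 hr0]
  have b3 : τ * r ≤ D * (4 / d) * X := by
    have h5 : r * Real.exp (-(d / 2 * r)) ≤ 4 / d * X := by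
      have h6 : Real.exp (-(d / 2 * r)) = Real.exp (-(d / 4 * r)) * X := by
        rw [hX, ← Real.exp_add]; congr 1; ring
      rw [h6]
      have h7 : r * Real.exp (-(d / 4 * r)) ≤ 4 / d := by
        have h8 : d / 4 * r ≤ Real.exp (d / 4 * r) := by
          have := Real.add_one_le_exp (d / 4 * r)
          linarith
        rw [Real.exp_neg, ← div_eq_mul_inv, div_le_iff₀ (Real.exp_pos _)]
        calc r = 4 / d * (d / 4 * r) := by field_simp
          _ ≤ 4 / d * Real.exp (d / 4 * r) := by gcongr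
      calc r * (Real.exp (-(d / 4 * r)) * X) = (r * Real.exp (-(d / 4 * r))) * X := by ring
        _ ≤ 4 / d * X := by gcongr
    calc τ * r = D * (r * Real.exp (-(d / 2 * r))) := by rw [hτ]; ring
      _ ≤ D * (4 / d * X) := by gcongr
      _ = _ := by ring
  have b4 : Real.exp (1 - η * r) ≤ Real.exp 1 * X := by
    rw [hX, ← Real.exp_add]
    apply Real.exp_le_exp.2
    have : d / 4 * r ≤ η * r := by
      gcongr
      linarith
    linarith
  have c1 : |uu v x| ≤ D * X := hux.trans (by gcongr)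
  have c2 : 2 * KK v * τ ≤ 2 * KK v * (D * X) := by gcongr
  have c3 : 2 * Real.exp (1 - η * r) * V1 ≤ 2 * (Real.exp 1 * X) * V1 := by gcongr
  nlinarith

end Pool.Agent.Y749.Rig
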