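import Mathlib

/-! # Bounded analytic functions of the upper half plane that are small on intervals -/

set_option autoImplicit false

open MeasureTheory Set Filter Topology
open Complex (I)

namespace Pool.Agent.Y749.Rig

lemma log_im {w : ℂ} (hw : 0 < w.re) : (Complex.log w).im = Real.arctan (w.im / w.re) := by
  rw [Complex.log_im, ← Complex.tan_arg]
  have h := Complex.abs_arg_lt_pi_div_two_iff.2 (Or.inl hw)
  rw [Real.arctan_tan (abs_lt.1 h).1 (abs_lt.1 h).2]

lemma arctan_diff (a b : ℝ) : Real.arctan b - Real.arctan a = ∫ t in a..b, 1 / (1 + t ^ 2) :=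
  integral_one_div_one_add_sq.symm

lemma ii_inv (a b : ℝ) : IntervalIntegrable (fun t : ℝ => 1 / (1 + t ^ 2)) volume a b := by
  apply Continuous.intervalIntegrable
  exact continuous_const.div (by fun_prop) fun t => by positivity

lemma om_upper {p q x y m : ℝ} (hy : 0 < y) (hpq : p ≤ q) (hm : 0 < m) (h : x ≤ p - m ∨ q + m ≤ x) :
    Real.arctan ((q - x) / y) - Real.arctan ((p - x) / y) ≤ (q - p) * y / m ^ 2 := by
  have hle : (p - x) / y ≤ (q - x) / y := by gcongr
  rw [arctan_diff]
  calc ∫ t in ((p - x) / y)..((q - x) / y), 1 / (1 + t ^ 2) ≤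
        ∫ t in ((p - x) / y)..((q - x) / y), y ^ 2 / m ^ 2 := by
        refine intervalIntegral.integral_mono_on hle (ii_inv _ _) (by simp) fun t ht => ?_
        have h2 : m ^ 2 ≤ t ^ 2 * y ^ 2 := by
          rw [← mul_pow]
          rcases h with h | h
          · have h3 := ht.1
            rw [div_le_iff₀ hy] at h3
            exact pow_le_pow_left₀ hm.le (by linarith) 2
          · have h3 := ht.2
            rw [le_div_iff₀ hy] at h3
            rw [← neg_sq (t * y)]
            exact pow_le_pow_left₀ hm.le (by linarith) 2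
        rw [div_le_div_iff₀ (by positivity) (by positivity)]
        nlinarith [sq_nonneg y]
    _ = (q - p) * y / m ^ 2 := by
        rw [intervalIntegral.integral_const, smul_eq_mul]
        field_simp
        ring

lemma om_lower {p q x y : ℝ} (hy : 0 < y) (hp : 0 ≤ p) (hpq : p ≤ q) :
    (q - p) / y / (1 + ((q + |x|) / y) ^ 2) ≤
      Real.arctan ((q - x) / y) - Real.arctan ((p - x) / y) := by
  have hle : (p - x) / y ≤ (q - x) / y := by gcongr
  rw [arctan_diff]
  calc (q - p) / y / (1 + ((q + |x|) / y) ^ 2) =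
        ∫ t in ((p - x) / y)..((q - x) / y), 1 / (1 + ((q + |x|) / y) ^ 2) := by
        rw [intervalIntegral.integral_const, smul_eq_mul]
        field_simp
        ring
    _ ≤ _ := by
        refine intervalIntegral.integral_mono_on hle (by simp) (ii_inv _ _) fun t ht => ?_
        apply one_div_le_one_div_of_le (by positivity)
        have h1 : |t| ≤ (q + |x|) / y := by
          rw [abs_le]
          have h2 := ht.1
          have h3 := ht.2
          have h4 := le_abs_self x
          have h5 := neg_abs_le x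
          constructor
          · refine le_trans ?_ h2
            rw [← neg_div]
            gcongr
            linarith
          · refine h3.trans ?_
            gcongr
            linarith
        have h6 : t ^ 2 ≤ ((q + |x|) / y) ^ 2 := by
          rw [← sq_abs t]; exact pow_le_pow_left₀ (abs_nonneg _) h1 2
        linarith

/-- harmonic measure -/
noncomputable def om (p q x y : ℝ) : ℝ :=
  1 / Real.pi * (Real.arctan ((q - x) / y) - Real.arctan ((p - x) / y))

lemma om_nonneg {p q : ℝ} (h : p ≤ q) {x y : ℝ} (hy : 0 < y) : 0 ≤ om p q x y := by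
  unfold om
  have : Real.arctan ((p - x) / y) ≤ Real.arctan ((q - x) / y) := by
    apply Real.arctan_strictMono.monotone
    gcongr
  have hpi := Real.pi_pos
  have : 0 ≤ Real.arctan ((q - x) / y) - Real.arctan ((p - x) / y) := by linarith
  positivity

lemma om_le_one (p q x y : ℝ) : om p q x y ≤ 1 := by
  unfold om
  have hpi := Real.pi_pos
  have h1 := Real.arctan_lt_pi_div_two ((q - x) / y)
  have h2 := Real.neg_pi_div_two_lt_arctan ((p - x) / y)
  rw [one_div, inv_mul_le_iff₀ hpi]
  linarith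

/-- the analytic function with real part `om` in the right half plane variable -/
noncomputable def hh (p q ε : ℝ) (ζ : ℂ) : ℂ :=
  1 / (Real.pi * I) * (Complex.log (ζ + ε + q * I) - Complex.log (ζ + ε + p * I))

lemma hh_re {p q ε : ℝ} {ζ : ℂ} (h : 0 < ζ.re + ε) :
    (hh p q ε ζ).re = om p q (-ζ.im) (ζ.re + ε) := by
  have hpi := Real.pi_pos
  have h1 : ∀ s : ℝ, (Complex.log (ζ + ε + s * I)).im = Real.arctan ((s - -ζ.im) / (ζ.re + ε)) := by
    intro s
    rw [log_im (by simpa using h)]
    congr 1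
    simp
    rw [add_comm]
  unfold hh om
  rw [← h1 q, ← h1 p]
  have h2 : (1 / (Real.pi * I) : ℂ) = ((1 / Real.pi : ℝ) : ℂ) * (-I) := by
    push_cast
    rw [one_div, mul_inv, Complex.inv_I, one_div]
  rw [h2, mul_assoc, Complex.re_ofReal_mul]
  congr 1
  simp

lemma hh_diff {p q ε : ℝ} {ζ : ℂ} (h : 0 < ζ.re + ε) : DifferentiableAt ℂ (hh p q ε) ζ := by
  unfold hh
  have h1 : ∀ s : ℝ, DifferentiableAt ℂ (fun ζ : ℂ => Complex.log (ζ + ε + s * I)) ζ := by
    intro s
    refine DifferentiableAt.clog (by fun_prop) ?_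
    left
    simpa using h
  exact ((h1 q).sub (h1 p)).const_mul _

theorem pl_bound {f : ℂ → ℂ} (hf : Differentiable ℂ f) {M K : ℝ} (hM0 : 0 < M) (hK : 0 ≤ K)
    (hM : ∀ z : ℂ, 0 ≤ z.im → ‖f z‖ ≤ M)
    (hlip : ∀ x y : ℝ, 0 ≤ y → ‖f (x + y * I) - f x‖ ≤ K * y) {a r A : ℕ → ℝ}
    (hr : ∀ n, 1 ≤ r n) (hA : ∀ n, 0 ≤ A n)
    (hdis : ∀ j k, j ≠ k → Disjoint (Icc (a j + 3 * r j) (a j + 5 * r j))
      (Icc (a k + 3 * r k) (a k + 5 * r k)))
    (hJ : ∀ n, ∀ x : ℝ, x ∈ Icc (a n + 3 * r n) (a n + 5 * r n) →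
      ‖f x‖ ≤ M / 2 * Real.exp (-(A n))) (N : ℕ) {z : ℂ} (hz : 0 < z.im) :
    ‖f z‖ * Real.exp (∑ k ∈ Finset.range N,
      A k * om (a k + 7 / 2 * r k) (a k + 9 / 2 * r k) z.re z.im) ≤ M := by
  have hpi := Real.pi_gt_three
  obtain ⟨B, hB⟩ : ∃ B : ℝ, B = ∑ k ∈ Finset.range N, A k * (4 * r k) := ⟨_, rfl⟩
  have hB0 : 0 ≤ B := by
    rw [hB]
    refine Finset.sum_nonneg fun k _ => mul_nonneg (hA k) ?_
    have := hr k
    linarith
  obtain ⟨S, hS⟩ : ∃ S : ℝ, S = ∑ k ∈ Finset.range N, A k := ⟨_, rfl⟩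
  have hS0 : 0 ≤ S := by rw [hS]; exact Finset.sum_nonneg fun k _ => hA k
  have hAS : ∀ k ∈ Finset.range N, A k ≤ S := by
    intro k hk
    rw [hS]
    exact Finset.single_le_sum (f := A) (fun j _ => hA j) hk
  have hpq : ∀ k, a k + 7 / 2 * r k ≤ a k + 9 / 2 * r k := by
    intro k
    have := hr k
    linarith
  -- the key estimate
  have key : ∀ ε : ℝ, 0 < ε → ε ≤ z.im → K * ε ≤ M / 2 * Real.exp (-S) →
      ‖f z‖ * Real.exp (∑ k ∈ Finset.range N,
      A k * om (a k + 7 / 2 * r k) (a k + 9 / 2 * r k) z.re z.im) ≤ M * Real.exp (ε * B) := by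
    intro ε hε hεz hεK
    obtain ⟨H, hH⟩ : ∃ H : ℂ → ℂ, ∀ ζ, H ζ = ∑ k ∈ Finset.range N,
      (A k : ℂ) * hh (a k + 7 / 2 * r k) (a k + 9 / 2 * r k) ε ζ := ⟨_, fun ζ => rfl⟩
    have hHre : ∀ ζ : ℂ, 0 < ζ.re + ε → (H ζ).re = ∑ k ∈ Finset.range N,
        A k * om (a k + 7 / 2 * r k) (a k + 9 / 2 * r k) (-ζ.im) (ζ.re + ε) := by
      intro ζ hζ
      rw [hH, Complex.re_sum]
      refine Finset.sum_congr rfl fun k _ => ?_
      rw [Complex.re_ofReal_mul, hh_re hζ]
    obtain ⟨g, hg⟩ : ∃ g : ℂ → ℂ, ∀ ζ, g ζ = f (I * ζ + ε * I) * Complex.exp (H ζ) :=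
      ⟨_, fun ζ => rfl⟩
    have hgn : ∀ ζ : ℂ, ‖g ζ‖ = ‖f (I * ζ + ε * I)‖ * Real.exp (H ζ).re := by
      intro ζ
      rw [hg, norm_mul, Complex.norm_exp]
    have him : ∀ ζ : ℂ, (I * ζ + ε * I).im = ζ.re + ε := by intro ζ; simp
    have hHS : ∀ ζ : ℂ, 0 < ζ.re + ε → (H ζ).re ≤ S := by
      intro ζ hζ
      rw [hHre ζ hζ, hS]
      refine Finset.sum_le_sum fun k _ => ?_
      exact mul_le_of_le_one_right (hA k) (om_le_one _ _ _ _)
    have hgb : ∀ ζ : ℂ, 0 ≤ ζ.re → ‖g ζ‖ ≤ M * Real.exp S := by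
      intro ζ hζ
      rw [hgn]
      have h1 := hM (I * ζ + ε * I) (by rw [him]; linarith)
      have h2 := hHS ζ (by linarith)
      gcongr
    have hgd : DiffContOnCl ℂ g {ζ : ℂ | 0 < ζ.re} := by
      apply DifferentiableOn.diffContOnCl
      intro ζ hζ
      have hζ' : 0 ≤ ζ.re := by
        rw [Complex.closure_setOfPred_lt_re] at hζ
        exact hζ
      have h1 : DifferentiableAt ℂ H ζ := by
        have e : H = fun ζ => ∑ k ∈ Finset.range N,
          (A k : ℂ) * hh (a k + 7 / 2 * r k) (a k + 9 / 2 * r k) ε ζ := funext hH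
        rw [e]
        refine DifferentiableAt.fun_sum fun k _ => ?_
        exact (hh_diff (by linarith)).const_mul _
      have h2 : DifferentiableAt ℂ g ζ := by
        have e : g = fun ζ => f (I * ζ + ε * I) * Complex.exp (H ζ) := funext hg
        rw [e]
        have h3 : DifferentiableAt ℂ (fun ζ : ℂ => f (I * ζ + ε * I)) ζ :=
          (hf _).comp ζ (by fun_prop)
        exact h3.mul h1.cexp
      exact h2.differentiableWithinAt
    have hbd : ∀ x : ℝ, ‖g (x * I)‖ ≤ M * Real.exp (ε * B) := by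
      intro x
      rw [hgn]
      have e1 : I * ((x : ℂ) * I) + ε * I = ((-x : ℝ) : ℂ) + ((ε : ℝ) : ℂ) * I := by
        push_cast
        linear_combination (x : ℂ) * Complex.I_mul_I
      have hre0 : ((x : ℂ) * I).re = 0 := by simp
      have him0 : ((x : ℂ) * I).im = x := by simp
      have h3 := hHre (x * I) (by rw [hre0]; linarith)
      rw [hre0, him0, zero_add] at h3
      rw [h3, e1]
      -- contribution of an interval not containing `-x`
      have hfar : ∀ k, -x ∉ Icc (a k + 3 * r k) (a k + 5 * r k) →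
          A k * om (a k + 7 / 2 * r k) (a k + 9 / 2 * r k) (-x) ε ≤ ε * (A k * (4 * r k)) := by
        intro k hk
        have hrk := hr k
        have h4 : -x ≤ (a k + 7 / 2 * r k) - 1 / 2 ∨ (a k + 9 / 2 * r k) + 1 / 2 ≤ -x := by
          rw [mem_Icc, not_and_or, not_le, not_le] at hk
          rcases hk with hk | hk
          · left; linarith
          · right; linarith
        have h5 := om_upper hε (hpq k) (by norm_num : (0:ℝ) < 1 / 2) h4
        have h6 : om (a k + 7 / 2 * r k) (a k + 9 / 2 * r k) (-x) ε ≤ 4 * r k * ε := by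
          unfold om
          rw [one_div, inv_mul_le_iff₀ (by linarith)]
          refine h5.trans ?_
          have e2 : (a k + 9 / 2 * r k - (a k + 7 / 2 * r k)) * ε / (1 / 2) ^ 2 = 4 * r k * ε := by
            ring
          rw [e2]
          have : 0 ≤ 4 * r k * ε := by positivity
          nlinarith
        calc A k * om (a k + 7 / 2 * r k) (a k + 9 / 2 * r k) (-x) ε ≤ A k * (4 * r k * ε) :=
              mul_le_mul_of_nonneg_left h6 (hA k)
          _ = _ := by ring
      by_cases hx : ∃ k ∈ Finset.range N, -x ∈ Icc (a k + 3 * r k) (a k + 5 * r k)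
      · obtain ⟨k, hk, hxk⟩ := hx
        have hsum : ∑ j ∈ Finset.range N, A j * om (a j + 7 / 2 * r j) (a j + 9 / 2 * r j) (-x) ε ≤
            A k + ε * B := by
          rw [← Finset.add_sum_erase _ _ hk]
          apply add_le_add
          · exact mul_le_of_le_one_right (hA k) (om_le_one _ _ _ _)
          · rw [hB, Finset.mul_sum]
            refine (Finset.sum_le_sum (fun j hj => ?_)).trans
              (Finset.sum_le_sum_of_subset_of_nonneg (Finset.erase_subset k _) fun j _ _ => ?_)
            · apply hfar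
              intro hxj
              have hne : j ≠ k := (Finset.mem_erase.1 hj).1
              exact Set.disjoint_left.1 (hdis j k hne) hxj hxk
            · have := hr j
              have := hA j
              positivity
        have h7 : ‖f (((-x : ℝ) : ℂ) + ((ε : ℝ) : ℂ) * I)‖ ≤ M * Real.exp (-(A k)) := by
          have h8 := hlip (-x) ε hε.le
          have h9 := hJ k (-x) hxk
          have h10 := norm_add_le (f (((-x : ℝ) : ℂ) + ((ε : ℝ) : ℂ) * I) - f ((-x : ℝ) : ℂ))
            (f ((-x : ℝ) : ℂ))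
          rw [sub_add_cancel] at h10
          have h11 : Real.exp (-S) ≤ Real.exp (-(A k)) := by
            apply Real.exp_le_exp.2
            linarith [hAS k hk]
          have h12 : M / 2 * Real.exp (-S) ≤ M / 2 * Real.exp (-(A k)) := by gcongr
          linarith
        calc ‖f (((-x : ℝ) : ℂ) + ((ε : ℝ) : ℂ) * I)‖ * Real.exp (∑ j ∈ Finset.range N,
              A j * om (a j + 7 / 2 * r j) (a j + 9 / 2 * r j) (-x) ε) ≤
              (M * Real.exp (-(A k))) * Real.exp (A k + ε * B) := by gcongr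
          _ = M * Real.exp (ε * B) := by
              rw [mul_assoc, ← Real.exp_add]
              congr 2; ring
      · push Not at hx
        have hsum : ∑ j ∈ Finset.range N, A j * om (a j + 7 / 2 * r j) (a j + 9 / 2 * r j) (-x) ε ≤
            ε * B := by
          rw [hB, Finset.mul_sum]
          exact Finset.sum_le_sum fun j hj => hfar j (hx j hj)
        have h7 : ‖f (((-x : ℝ) : ℂ) + ((ε : ℝ) : ℂ) * I)‖ ≤ M := hM _ (by simp [hε.le])
        gcongr
    have hmain := PhragmenLindelof.right_half_plane_of_bounded_on_real (f := g)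
      (C := M * Real.exp (ε * B)) (z := -(I * z) - ε) hgd ?_ ?_ hbd (by simpa using hεz)
    · have e3 : I * (-(I * z) - ε) + ε * I = z := by
        linear_combination (-z) * Complex.I_mul_I
      have e4 : (-(I * z) - (ε : ℂ)).re = z.im - ε := by simp
      have e5 : (-(I * z) - (ε : ℂ)).im = -z.re := by simp
      rw [hgn, e3, hHre _ (by rw [e4]; linarith), e4, e5, neg_neg, sub_add_cancel] at hmain
      exact hmain
    · refine ⟨1, by norm_num, 0, ?_⟩
      simp only [zero_mul, Real.exp_zero]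
      refine Asymptotics.IsBigO.of_bound (M * Real.exp S) ?_
      have : ∀ᶠ ζ : ℂ in 𝓟 {z : ℂ | 0 < z.re}, ‖g ζ‖ ≤ M * Real.exp S * ‖(1 : ℝ)‖ := by
        rw [eventually_principal]
        intro ζ hζ
        rw [norm_one, mul_one]
        exact hgb ζ (le_of_lt hζ)
      exact this.filter_mono inf_le_right
    · refine ⟨M * Real.exp S, ?_⟩
      rw [eventually_map]
      filter_upwards [eventually_ge_atTop 0] with x hx
      exact hgb x (by simpa using hx)
  -- let `ε` tend to zero
  have hlim : Tendsto (fun ε : ℝ => M * Real.exp (ε * B)) (𝓝[>] 0) (𝓝 M) := by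
    have h1 : Tendsto (fun ε : ℝ => M * Real.exp (ε * B)) (𝓝 0) (𝓝 (M * Real.exp (0 * B))) := by
      apply Continuous.tendsto
      fun_prop
    rw [zero_mul, Real.exp_zero, mul_one] at h1
    exact h1.mono_left nhdsWithin_le_nhds
  refine ge_of_tendsto hlim ?_
  have hlim2 : Tendsto (fun ε : ℝ => K * ε) (𝓝[>] 0) (𝓝 0) := by
    have h1 : Tendsto (fun ε : ℝ => K * ε) (𝓝 0) (𝓝 (K * 0)) := by
      apply Continuous.tendsto
      fun_prop
    rw [mul_zero] at h1
    exact h1.mono_left nhdsWithin_le_nhds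
  filter_upwards [Ioo_mem_nhdsGT hz, hlim2.eventually (ge_mem_nhds (show 0 <
    M / 2 * Real.exp (-S) by positivity))] with ε h1 h2
  exact key ε h1.1 h1.2.le h2

end Pool.Agent.Y749.Rig
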