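import Pool.Agent.Y749.Rig.Beu2
import Pool.Agent.Y749.Rig.Beu3

/-! # Beurling's gap theorem with exponentially small errors -/

set_option autoImplicit false

open MeasureTheory Set Filter Topology ProbabilityTheory
open Complex (I)

namespace Pool.Agent.Y749.Rig

variable {v : ℝ → ℝ}

/-- injectivity of the Fourier transform -/
theorem ae_zero (hv : Integrable v)
    (h0 : ∀ ω : ℝ, ∫ x, v x * Real.cos (2 * Real.pi * ω * x) = 0)
    (h1 : ∀ ω : ℝ, ∫ x, v x * Real.sin (2 * Real.pi * ω * x) = 0) : v =ᵐ[volume] 0 := by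
  have hvn : Integrable (-v) := hv.neg
  have := mp_fin hv
  have := mp_fin hvn
  have hpi := Real.pi_pos
  have hseg : ∀ y : ℝ, complexMGF id (mp v) (y * I) = complexMGF id (mp (-v)) (y * I) := by
    intro y
    unfold complexMGF
    have hb : ∀ {w : ℝ → ℝ}, Integrable w →
        Integrable fun x => ((w x : ℝ) : ℂ) * Complex.exp (y * I * x) := by
      intro w hw
      refine hw.ofReal.mul_bdd (c := 1) (by fun_prop) ?_
      refine ae_of_all _ fun x => ?_
      rw [Complex.norm_exp]
      simp
    rw [mp_integral hv, mp_integral hvn]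
    simp only [id_eq]
    rw [← sub_eq_zero, ← integral_sub (hb hv.pos_part)
      (hb hvn.pos_part)]
    have e3 : ∀ x : ℝ, ((max (v x) 0 : ℝ) : ℂ) * Complex.exp (y * I * x) -
        ((max ((-v) x) 0 : ℝ) : ℂ) * Complex.exp (y * I * x) =
        ((v x * Real.cos (2 * Real.pi * (y / (2 * Real.pi)) * x) : ℝ) : ℂ) +
        ((v x * Real.sin (2 * Real.pi * (y / (2 * Real.pi)) * x) : ℝ) : ℂ) * I := by
      intro x
      have e4 : 2 * Real.pi * (y / (2 * Real.pi)) * x = y * x := by field_simp
      have e5 : ((max (v x) 0 : ℝ) : ℂ) - ((max ((-v) x) 0 : ℝ) : ℂ) = (v x : ℂ) := by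
        rw [← Complex.ofReal_sub]
        congr 1
        show max (v x) 0 - max (-v x) 0 = v x
        rcases le_total 0 (v x) with h | h
        · rw [max_eq_left h, max_eq_right (by linarith)]; ring
        · rw [max_eq_right h, max_eq_left (by linarith)]; ring
      have e6 : (y : ℂ) * I * x = ((y * x : ℝ) : ℂ) * I := by push_cast; ring
      rw [← sub_mul, e5, e4, e6, Complex.exp_mul_I]
      push_cast
      ring
    have i1 := int_cos_mul hv (y / (2 * Real.pi))
    have i2 : Integrable fun x => v x * Real.sin (2 * Real.pi * (y / (2 * Real.pi)) * x) := by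
      refine hv.mul_bdd (c := 1) (by fun_prop) ?_
      refine ae_of_all _ fun x => ?_
      rw [Real.norm_eq_abs]
      exact Real.abs_sin_le_one _
    calc ∫ x : ℝ, (((max (v x) 0 : ℝ) : ℂ) * Complex.exp (y * I * x) -
        ((max ((-v) x) 0 : ℝ) : ℂ) * Complex.exp (y * I * x)) =
        ∫ x : ℝ, (((v x * Real.cos (2 * Real.pi * (y / (2 * Real.pi)) * x) : ℝ) : ℂ) +
        ((v x * Real.sin (2 * Real.pi * (y / (2 * Real.pi)) * x) : ℝ) : ℂ) * I) :=
          integral_congr_ae (ae_of_all _ e3)
      _ = 0 := by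
        have j1 : Integrable fun x : ℝ =>
            ((v x * Real.cos (2 * Real.pi * (y / (2 * Real.pi)) * x) : ℝ) : ℂ) := i1.ofReal
        have j2 : Integrable fun x : ℝ =>
            ((v x * Real.sin (2 * Real.pi * (y / (2 * Real.pi)) * x) : ℝ) : ℂ) * I :=
          i2.ofReal.mul_const I
        rw [integral_add j1 j2, integral_mul_const,
          integral_complex_ofReal, integral_complex_ofReal, h0, h1]
        simp
  have hmeas : mp v = mp (-v) := by
    apply Measure.ext_of_charFun
    ext t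
    rw [← complexMGF_id_mul_I, ← complexMGF_id_mul_I]
    exact hseg t
  have hae := (withDensity_eq_iff hv.aestronglyMeasurable.aemeasurable.ennreal_ofReal
    hvn.aestronglyMeasurable.aemeasurable.ennreal_ofReal (by
      have := hv.lintegral_lt_top
      exact this.ne)).1 hmeas
  filter_upwards [hae] with x hx
  have hx' : ENNReal.ofReal (v x) = ENNReal.ofReal (-v x) := hx
  show v x = 0
  rcases lt_trichotomy (v x) 0 with h | h | h
  · rw [ENNReal.ofReal_of_nonpos h.le] at hx'
    have := ENNReal.ofReal_eq_zero.1 hx'.symm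
    linarith
  · exact h
  · rw [ENNReal.ofReal_of_nonpos (show -v x ≤ 0 by linarith)] at hx'
    have := ENNReal.ofReal_eq_zero.1 hx'
    linarith

lemma ff_lip (hv : Integrable v) (x y : ℝ) (hy : 0 ≤ y) :
    ‖ff v (x + y * I) - ff v x‖ ≤ KK v * y := by
  have hpi := Real.pi_pos
  have hb : ∀ z : ℂ, 0 ≤ z.im → Integrable (fun w : ℝ => (UU v w : ℂ) *
      Complex.exp (2 * Real.pi * I * w * z)) (volume.restrict (Ioi 0)) := by
    intro z hz
    refine (UU_int hv).abs.integrableOn.mono' ?_ ?_
    · have := UU_cont hv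
      apply Continuous.aestronglyMeasurable
      fun_prop
    · refine (ae_restrict_iff' measurableSet_Ioi).2 (ae_of_all _ fun w hw => ?_)
      rw [norm_mul, exp_im, Complex.norm_real, Real.norm_eq_abs]
      apply mul_le_of_le_one_right (abs_nonneg _)
      rw [Real.exp_le_one_iff]
      have hw' : 0 < w := hw
      have : 0 ≤ 2 * Real.pi * w * z.im := by positivity
      linarith
  unfold ff
  rw [← integral_sub (hb _ (by simpa using hy)) (hb _ (by simp))]
  have h1 : ∫ w in Ioi (0 : ℝ), |(|w| * UU v w)| ≤ ∫ w, |(|w| * UU v w)| :=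
    setIntegral_le_integral (UU_int' hv).abs (ae_of_all _ fun _ => abs_nonneg _)
  have h2 : ‖∫ w in Ioi (0 : ℝ), ((UU v w : ℂ) * Complex.exp (2 * Real.pi * I * w * (x + y * I)) -
      (UU v w : ℂ) * Complex.exp (2 * Real.pi * I * w * x))‖ ≤
      ∫ w in Ioi (0 : ℝ), (2 * Real.pi * y) * |(|w| * UU v w)| := by
    refine norm_integral_le_of_norm_le (((UU_int' hv).abs.const_mul _).integrableOn) ?_
    refine (ae_restrict_iff' measurableSet_Ioi).2 (ae_of_all _ fun w hw => ?_)
    have hw' : 0 < w := hw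
    have e1 : Complex.exp (2 * Real.pi * I * w * (x + y * I)) =
        Complex.exp (2 * Real.pi * I * w * x) * ((Real.exp (-(2 * Real.pi * w * y)) : ℝ) : ℂ) := by
      rw [Complex.ofReal_exp, ← Complex.exp_add]
      congr 1
      push_cast
      linear_combination (2 * Real.pi * w * y : ℂ) * Complex.I_mul_I
    have e2 : (UU v w : ℂ) * Complex.exp (2 * Real.pi * I * w * (x + y * I)) -
      (UU v w : ℂ) * Complex.exp (2 * Real.pi * I * w * x) =
      (UU v w : ℂ) * Complex.exp (2 * Real.pi * I * w * x) *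
        ((Real.exp (-(2 * Real.pi * w * y)) - 1 : ℝ) : ℂ) := by
      rw [e1]; push_cast; ring
    rw [e2, norm_mul, norm_mul, Complex.norm_real, Complex.norm_real, exp_im]
    simp only [Complex.ofReal_im, mul_zero, neg_zero, Real.exp_zero, mul_one, Real.norm_eq_abs]
    have h3 : |Real.exp (-(2 * Real.pi * w * y)) - 1| ≤ 2 * Real.pi * w * y := by
      have h4 : 0 ≤ 2 * Real.pi * w * y := by positivity
      have h5 := Real.add_one_le_exp (-(2 * Real.pi * w * y))
      have h6 : Real.exp (-(2 * Real.pi * w * y)) ≤ 1 := by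
        rw [Real.exp_le_one_iff]; linarith
      rw [abs_le]
      constructor <;> linarith
    rw [abs_mul, abs_abs, abs_of_pos hw']
    calc |UU v w| * |Real.exp (-(2 * Real.pi * w * y)) - 1| ≤ |UU v w| * (2 * Real.pi * w * y) := by
          gcongr
      _ = _ := by ring
  refine h2.trans ?_
  rw [integral_const_mul]
  unfold KK
  calc 2 * Real.pi * y * ∫ w in Ioi (0 : ℝ), |(|w| * UU v w)| ≤
        2 * Real.pi * y * ∫ w, |(|w| * UU v w)| := by gcongr
    _ = _ := by ring

/-- **Beurling's gap theorem** with exponentially small errors, for even functions -/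
theorem beurling (hv : Integrable v) (he : ∀ x, v (-x) = v x) {η : ℝ} (hη : 0 < η)
    (hgap : ∀ w, |w| < η → fl v w = 0) {C c : ℝ} (hC : 0 ≤ C) (hc : 0 < c) {a r : ℕ → ℝ}
    (ha : ∀ n, 0 ≤ a n) (hr : ∀ n, 1 ≤ r n)
    (hdis : ∀ j k, j ≠ k → Disjoint (Icc (a j) (a j + 8 * r j)) (Icc (a k) (a k + 8 * r k)))
    (hsum : ¬ Summable fun n => (r n / (a n + 8 * r n)) ^ 2)
    (hsm : ∀ n, ∀ᵐ y : ℝ, y ∈ Icc (a n) (a n + 8 * r n) → |v y| ≤ C * Real.exp (-(c * y))) :
    v =ᵐ[volume] 0 := by
  have hpi := Real.pi_pos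
  obtain ⟨C3, c3, hC3, hc3, hf⟩ := ff_small hv he hη hgap hC hc
  obtain ⟨M, hM⟩ : ∃ M : ℝ, M = MM v + 2 * C3 + 1 := ⟨_, rfl⟩
  have hMM := MM_nonneg v
  have hM0 : 0 < M := by rw [hM]; positivity
  have hzero : ∀ z : ℂ, 0 < z.im → ff v z = 0 := by
    intro z hz
    have hb := pl_bound (ff_diff hv) hM0 (KK_nonneg v)
      (fun z hz => (ff_bound hv hz).trans (by rw [hM]; linarith)) (fun x y hy => ff_lip hv x y hy)
      (a := a) (r := r) (A := fun n => c3 * r n) hr (fun n => by
        have := hr n
        positivity)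
      (fun j k hjk => (hdis j k hjk).mono (Icc_subset_Icc (by have := hr j; linarith)
        (by have := hr j; linarith)) (Icc_subset_Icc (by have := hr k; linarith)
        (by have := hr k; linarith)))
      (fun n x hx => by
        refine (hf (a n) (r n) (ha n) (hr n) (hsm n) x hx).trans ?_
        have : C3 ≤ M / 2 := by rw [hM]; linarith
        gcongr) (z := z)
    -- lower bound for the exponent
    obtain ⟨G, hG⟩ : ∃ G : ℝ, G = 1 + ((1 + |z.re|) / z.im) ^ 2 := ⟨_, rfl⟩
    have hG0 : 0 < G := by rw [hG]; positivity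
    obtain ⟨d, hd⟩ : ∃ d : ℝ, d = c3 / (Real.pi * z.im * G) := ⟨_, rfl⟩
    have hd0 : 0 < d := by rw [hd]; positivity
    have hlow : ∀ k, d * (r k / (a k + 8 * r k)) ^ 2 ≤
        c3 * r k * om (a k + 7 / 2 * r k) (a k + 9 / 2 * r k) z.re z.im := by
      intro k
      have hrk := hr k
      have hak := ha k
      have h1 := om_lower (x := z.re) hz (p := a k + 7 / 2 * r k) (q := a k + 9 / 2 * r k)
        (by positivity) (by linarith)
      have e1 : a k + 9 / 2 * r k - (a k + 7 / 2 * r k) = r k := by ring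
      rw [e1] at h1
      obtain ⟨b, hb⟩ : ∃ b : ℝ, b = a k + 8 * r k := ⟨_, rfl⟩
      have hb1 : 1 ≤ b := by rw [hb]; linarith
      have h2 : 1 + ((a k + 9 / 2 * r k + |z.re|) / z.im) ^ 2 ≤ b ^ 2 * G := by
        have h3 : (a k + 9 / 2 * r k + |z.re|) / z.im ≤ b * ((1 + |z.re|) / z.im) := by
          rw [← mul_div_assoc]
          gcongr
          have h4 : |z.re| ≤ b * |z.re| := le_mul_of_one_le_left (abs_nonneg _) hb1
          rw [mul_add, mul_one]
          have : a k + 9 / 2 * r k ≤ b := by rw [hb]; linarith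
          linarith
        have h5 : 0 ≤ (a k + 9 / 2 * r k + |z.re|) / z.im := by positivity
        have h6 := pow_le_pow_left₀ h5 h3 2
        rw [hG, mul_add, mul_one, ← mul_pow]
        have h7 : 1 ≤ b ^ 2 := one_le_pow₀ hb1
        linarith
      rw [← hb]
      unfold om
      calc d * (r k / b) ^ 2 = c3 * r k * (1 / Real.pi * (r k / z.im / (b ^ 2 * G))) := by
            rw [hd]; field_simp
        _ ≤ c3 * r k * (1 / Real.pi * (r k / z.im /
            (1 + ((a k + 9 / 2 * r k + |z.re|) / z.im) ^ 2))) := by gcongr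
        _ ≤ _ := by gcongr
    by_contra hne
    have hpos : 0 < ‖ff v z‖ := norm_pos_iff.2 hne
    have htend := (not_summable_iff_tendsto_nat_atTop_of_nonneg
      (fun n => sq_nonneg (r n / (a n + 8 * r n)))).1 hsum
    obtain ⟨N, hN⟩ := (htend.eventually (eventually_gt_atTop (M / ‖ff v z‖ / d))).exists
    have h1 := hb N hz
    have h2 : d * ∑ k ∈ Finset.range N, (r k / (a k + 8 * r k)) ^ 2 ≤ ∑ k ∈ Finset.range N,
        c3 * r k * om (a k + 7 / 2 * r k) (a k + 9 / 2 * r k) z.re z.im := by
      rw [Finset.mul_sum]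
      exact Finset.sum_le_sum fun k _ => hlow k
    rw [div_lt_iff₀ hd0, div_lt_iff₀ hpos] at hN
    obtain ⟨S, hS⟩ : ∃ S : ℝ, S = ∑ k ∈ Finset.range N,
        c3 * r k * om (a k + 7 / 2 * r k) (a k + 9 / 2 * r k) z.re z.im := ⟨_, rfl⟩
    rw [← hS] at h1 h2
    have h3 : M < S * ‖ff v z‖ := by
      refine lt_of_lt_of_le hN ?_
      apply mul_le_mul_of_nonneg_right _ hpos.le
      linarith
    have h4 : S ≤ Real.exp S := by
      have := Real.add_one_le_exp S
      linarith
    have h5 : S * ‖ff v z‖ ≤ ‖ff v z‖ * Real.exp S := by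
      rw [mul_comm]; gcongr
    linarith
  have hreal : ∀ x : ℝ, uu v x = 0 := by
    intro x
    have hc : Tendsto (fun y : ℝ => ff v (x + y * I)) (𝓝[>] 0) (𝓝 (ff v x)) := by
      have h1 : Continuous fun y : ℝ => ff v (x + y * I) :=
        (ff_diff hv).continuous.comp (by fun_prop)
      have h2 := h1.tendsto 0
      simp only [Complex.ofReal_zero, zero_mul, add_zero] at h2
      exact h2.mono_left nhdsWithin_le_nhds
    have h0 : ff v x = 0 := by
      refine tendsto_nhds_unique hc (tendsto_const_nhds.congr' ?_)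
      filter_upwards [self_mem_nhdsWithin] with y hy
      exact (hzero _ (by simpa using hy)).symm
    rw [ff_real hv] at h0
    have h1 := congrArg Complex.re h0
    simp at h1
    exact h1
  have hfl : ∀ w, fl v w = 0 := by
    intro w
    have h1 := inv_gen (UU_cont hv) (UU_int hv) (fun x => UU_even x)
      (uu_integrable hv he) w
    have h2 : fl (UU v) = fun _ => 0 := funext hreal
    rw [h2] at h1
    have h3 : fl (fun _ => (0 : ℝ)) w = 0 := by unfold fl; simp
    rw [h3] at h1
    have h4 : fl v w * gs w = 0 := h1.symm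
    rcases mul_eq_zero.1 h4 with h | h
    · exact h
    · exact absurd h (gs_pos w).ne'
  refine ae_zero hv (fun ω => ?_) fun ω => ?_
  · have h1 := hfl ω
    unfold fl at h1
    rw [← h1]
    refine integral_congr_ae (ae_of_all _ fun x => ?_)
    simp only
    congr 2; ring
  · apply int_zero_of_odd
    intro x
    rw [he, mul_neg, Real.sin_neg]; ring

end Pool.Agent.Y749.Rig
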