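import Pool.Agent.Y749.Rig.Rec2
import Pool.Agent.Y749.Rig.Loc4
import Pool.Agent.H345R2.A2.Lin
import Pool.Agent.TH822.AA.Main

/-! # The block estimate: the zero side -/

set_option autoImplicit false

open MeasureTheory Set Filter Topology
open scoped NNReal ENNReal
open Complex (I)

namespace Pool.Agent.Y749.Rig

open H370 (Zf mult good_zeta mem_Zf NN zset zz)
open Pool.Agent.TH850.UR (ew)

/-- the summand of the pair sum with complex differences -/
noncomputable def PS (ψ : ℝ → ℝ) (L : ℝ) (s s' : ℂ) : ℂ :=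
  FL ψ ((zz s - zz s') * (L / (2 * Real.pi))) * Complex.exp (-(zz s - zz s') ^ 2 / 4)

lemma JN_eq {ψ : ℝ → ℝ} {κ : ℝ} (h : Adm κ ψ) (hκ : 0 < κ) {A B L : ℝ} (hA : 1 ≤ A) :
    (((∫ α in (-κ)..κ, ψ α * H370.A2.JN riemannZeta A B (α * L) : ℝ)) : ℂ) =
      ∑ s ∈ Zf riemannZeta A B, ∑ s' ∈ Zf riemannZeta A B, (mm s : ℂ) * (mm s' : ℂ) * PS ψ L s s' := by
  have hpi : (Real.sqrt Real.pi : ℂ) ≠ 0 := by
    rw [Ne, Complex.ofReal_eq_zero]; positivity
  have h1 : ∀ α : ℝ, ((ψ α * H370.A2.JN riemannZeta A B (α * L) : ℝ) : ℂ) =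
      ∑ s ∈ Zf riemannZeta A B, ∑ s' ∈ Zf riemannZeta A B, ((mm s : ℂ) * (mm s' : ℂ) *
        Complex.exp (-(zz s - zz s') ^ 2 / 4)) * ((ψ α : ℂ) *
          Complex.exp (2 * Real.pi * I * α * ((zz s - zz s') * (L / (2 * Real.pi))))) := by
    intro α
    unfold H370.A2.JN
    push_cast
    rw [H370.JJ_eq good_zeta hA, mul_div_cancel_left₀ _ hpi, Finset.mul_sum]
    refine Finset.sum_congr rfl fun s _ => ?_
    rw [Finset.mul_sum]
    refine Finset.sum_congr rfl fun s' _ => ?_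
    have e1 : (2 * Real.pi * I * α * ((zz s - zz s') * (L / (2 * Real.pi))) : ℂ) =
        I * ((α * L : ℝ) : ℂ) * (zz s - zz s') := by
      have : (Real.pi : ℂ) ≠ 0 := by exact_mod_cast Real.pi_ne_zero
      push_cast
      field_simp
    rw [e1]
    unfold mm
    push_cast
    ring
  rw [← intervalIntegral.integral_ofReal]
  simp_rw [h1]
  have hc : ∀ s s' : ℂ, Continuous fun α : ℝ => ((mm s : ℂ) * (mm s' : ℂ) *
        Complex.exp (-(zz s - zz s') ^ 2 / 4)) * ((ψ α : ℂ) *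
          Complex.exp (2 * Real.pi * I * α * ((zz s - zz s') * (L / (2 * Real.pi))))) := by
    intro s s'
    have := h.cont
    fun_prop
  rw [intervalIntegral.integral_finsetSum fun s _ =>
    (continuous_finsetSum _ fun s' _ => hc s s').intervalIntegrable _ _]
  refine Finset.sum_congr rfl fun s _ => ?_
  rw [intervalIntegral.integral_finsetSum fun s' _ => (hc s s').intervalIntegrable _ _]
  refine Finset.sum_congr rfl fun s' _ => ?_
  rw [intervalIntegral.integral_const_mul]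
  unfold PS FL
  rw [int_supp hκ fun x hx => by rw [h.supp x hx]; simp]
  ring

lemma zz_diff (s s' : ℂ) : zz s - zz s' = ((s.im - s'.im : ℝ) : ℂ) + ((s'.re - s.re : ℝ) : ℂ) * I := by
  unfold zz
  apply Complex.ext
  · simp; ring
  · simp

lemma zz_scaled (s s' : ℂ) (L : ℝ) : (zz s - zz s') * (L / (2 * Real.pi)) =
    (((s.im - s'.im) * L / (2 * Real.pi) : ℝ) : ℂ) + (((s'.re - s.re) * L / (2 * Real.pi) : ℝ) : ℂ) * I := by
  rw [zz_diff]
  push_cast
  ring

lemma gauss_norm {s s' : ℂ} (h1 : 0 < s.re) (h2 : s.re < 1) (h3 : 0 < s'.re) (h4 : s'.re < 1) :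
    ‖Complex.exp (-(zz s - zz s') ^ 2 / 4)‖ ≤ 2 := by
  rw [Complex.norm_exp, zz_diff]
  have e : (-(((s.im - s'.im : ℝ) : ℂ) + ((s'.re - s.re : ℝ) : ℂ) * I) ^ 2 / 4).re =
      (-(s.im - s'.im) ^ 2 + (s'.re - s.re) ^ 2) / 4 := by
    have : (-(((s.im - s'.im : ℝ) : ℂ) + ((s'.re - s.re : ℝ) : ℂ) * I) ^ 2 / 4) =
        (((-(s.im - s'.im) ^ 2 + (s'.re - s.re) ^ 2) / 4 : ℝ) : ℂ) +
        ((-(s.im - s'.im) * (s'.re - s.re) / 2 : ℝ) : ℂ) * I := by
      push_cast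
      linear_combination (-((s'.re : ℂ) - s.re) ^ 2 / 4) * Complex.I_sq
    rw [this, Complex.add_re, Complex.ofReal_re, Complex.re_ofReal_mul, Complex.I_re, mul_zero,
      add_zero]
  rw [e]
  have h5 : (s'.re - s.re) ^ 2 ≤ 1 := by nlinarith
  have h6 : (-(s.im - s'.im) ^ 2 + (s'.re - s.re) ^ 2) / 4 ≤ 1 / 4 := by
    nlinarith [sq_nonneg (s.im - s'.im)]
  calc Real.exp ((-(s.im - s'.im) ^ 2 + (s'.re - s.re) ^ 2) / 4) ≤ Real.exp (1 / 4) :=
        Real.exp_le_exp.2 h6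
    _ ≤ 2 := by
        have h7 : Real.exp (1 / 4) ≤ Real.exp (Real.log 2) := by
          apply Real.exp_le_exp.2
          have := Real.log_two_gt_d9
          linarith
        rwa [Real.exp_log (by norm_num)] at h7

lemma ew_prod {κ L : ℝ} (hκ : 0 ≤ κ) (hL : 0 ≤ L) (s s' : ℂ) :
    Real.exp (κ * L * |s'.re - s.re|) ≤ ew κ L s * ew κ L s' := by
  unfold Pool.Agent.TH850.UR.ew
  rw [← Real.exp_add]
  apply Real.exp_le_exp.2
  have h1 : |s'.re - s.re| ≤ |s.re - 1 / 2| + |s'.re - 1 / 2| := by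
    have := abs_add_le (s'.re - 1 / 2) (-(s.re - 1 / 2))
    rw [abs_neg, show s'.re - 1 / 2 + -(s.re - 1 / 2) = s'.re - s.re by ring] at this
    linarith
  have h2 : 0 ≤ κ * L := by positivity
  calc κ * L * |s'.re - s.re| ≤ κ * L * (|s.re - 1 / 2| + |s'.re - 1 / 2|) := by gcongr
    _ = _ := by ring

lemma ew_one {κ L : ℝ} (hκ : 0 ≤ κ) (hL : 0 ≤ L) (s : ℂ) : 1 ≤ ew κ L s := by
  unfold Pool.Agent.TH850.UR.ew
  apply Real.one_le_exp
  positivity

lemma PS_norm {ψ : ℝ → ℝ} {κ : ℝ} {C : ℝ} (hC : ∀ x y : ℝ, ‖FL ψ (x + y * I)‖ ≤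
    C * Real.exp (2 * Real.pi * κ * |y|) / (1 + x ^ 2)) (hC0 : 0 ≤ C) (hκ : 0 ≤ κ) {L : ℝ}
    (hL : 0 ≤ L) {s s' : ℂ} (h1 : 0 < s.re) (h2 : s.re < 1) (h3 : 0 < s'.re) (h4 : s'.re < 1) :
    ‖PS ψ L s s'‖ ≤ 2 * C * (ew κ L s * ew κ L s') *
      (1 / (1 + ((s.im - s'.im) * L / (2 * Real.pi)) ^ 2)) := by
  unfold PS
  rw [norm_mul, zz_scaled]
  have e1 := hC ((s.im - s'.im) * L / (2 * Real.pi)) ((s'.re - s.re) * L / (2 * Real.pi))
  have e2 : 2 * Real.pi * κ * |(s'.re - s.re) * L / (2 * Real.pi)| = κ * L * |s'.re - s.re| := by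
    rw [abs_div, abs_mul, abs_of_nonneg hL, abs_of_pos (show 0 < 2 * Real.pi by positivity)]
    field_simp
  rw [e2] at e1
  have e3 := gauss_norm h1 h2 h3 h4
  have e4 := ew_prod hκ hL s s'
  calc _ ≤ (C * Real.exp (κ * L * |s'.re - s.re|) /
        (1 + ((s.im - s'.im) * L / (2 * Real.pi)) ^ 2)) * 2 :=
        mul_le_mul e1 e3 (norm_nonneg _) ((norm_nonneg _).trans e1)
    _ ≤ (C * (ew κ L s * ew κ L s') /
        (1 + ((s.im - s'.im) * L / (2 * Real.pi)) ^ 2)) * 2 := by gcongr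
    _ = _ := by ring

lemma PS_on {ψ : ℝ → ℝ} {κ : ℝ} (h : Adm κ ψ) {L : ℝ} {s s' : ℂ} (h1 : s.re = 1 / 2)
    (h2 : s'.re = 1 / 2) : PS ψ L s s' = ((fl ψ ((s.im - s'.im) * L / (2 * Real.pi)) *
      Real.exp (-(s.im - s'.im) ^ 2 / 4) : ℝ) : ℂ) := by
  unfold PS
  rw [zz_scaled, zz_diff, h1, h2]
  simp only [sub_self, zero_mul, zero_div, Complex.ofReal_zero, add_zero]
  rw [FL_real h.int h.even]
  push_cast
  rfl

/-- the difference between the real and the complex pair sums -/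
theorem diff_sum {ψ : ℝ → ℝ} {κ : ℝ} (h : Adm κ ψ) (hκ : 0 < κ) {C : ℝ}
    (hC : ∀ x y : ℝ, ‖FL ψ (x + y * I)‖ ≤
    C * Real.exp (2 * Real.pi * κ * |y|) / (1 + x ^ 2)) (hC0 : 0 ≤ C) {L : ℝ} (hL : 0 < L)
    {P : Finset ℂ} (hP : ∀ s ∈ P, 0 < s.re ∧ s.re < 1) :
    |RR (fl ψ) P P L - (∑ s ∈ P, ∑ s' ∈ P, (mm s : ℂ) * (mm s' : ℂ) * PS ψ L s s').re| ≤
      ∑ s ∈ P, ∑ s' ∈ P, mm s * mm s' * (C * (1 - Real.exp (-(s.im - s'.im) ^ 2 / 4)) *
        (1 / (1 + ((s.im - s'.im) * L / (2 * Real.pi)) ^ 2))) +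
      2 * (3 * C * ∑ s ∈ P.filter (fun s => s.re ≠ 1 / 2), ∑ s' ∈ P, (mm s * ew κ L s) *
        (mm s' * ew κ L s') * (1 / (1 + ((s.im - s'.im) * L / (2 * Real.pi)) ^ 2))) := by
  classical
  have hflC : ∀ x, |fl ψ x| ≤ C / (1 + x ^ 2) := by
    intro x
    have := hC x 0
    simp only [Complex.ofReal_zero, zero_mul, add_zero, abs_zero, mul_zero, Real.exp_zero,
      mul_one] at this
    rwa [FL_real h.int h.even, Complex.norm_real] at this
  obtain ⟨K, hK⟩ : ∃ K : ℂ → ℂ → ℝ, ∀ s s', K s s' =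
    1 / (1 + ((s.im - s'.im) * L / (2 * Real.pi)) ^ 2) := ⟨_, fun _ _ => rfl⟩
  have hKsym : ∀ s s', K s s' = K s' s := by
    intro s s'
    rw [hK, hK]
    rw [show (s.im - s'.im) * L / (2 * Real.pi) = -((s'.im - s.im) * L / (2 * Real.pi)) by ring,
      neg_sq]
  have hK0 : ∀ s s', 0 ≤ K s s' := by intro s s'; rw [hK]; positivity
  obtain ⟨a, ha⟩ : ∃ a : ℂ → ℝ, ∀ s, a s = mm s * ew κ L s := ⟨_, fun _ => rfl⟩
  have ha0 : ∀ s, 0 ≤ a s := by
    intro s; rw [ha]; exact mul_nonneg (mm_nonneg s) (by linarith [ew_one hκ.le hL.le s])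
  have hterm : ∀ s ∈ P, ∀ s' ∈ P, |mm s * mm s' * fl ψ ((s.im - s'.im) * L / (2 * Real.pi)) -
      ((mm s : ℂ) * (mm s' : ℂ) * PS ψ L s s').re| ≤
      mm s * mm s' * (C * (1 - Real.exp (-(s.im - s'.im) ^ 2 / 4)) * K s s') +
      ((if s.re ≠ 1 / 2 then 3 * C * (a s * a s' * K s s') else 0) +
       (if s'.re ≠ 1 / 2 then 3 * C * (a s' * a s * K s' s) else 0)) := by
    intro s hs s' hs'
    obtain ⟨p1, p2⟩ := hP s hs
    obtain ⟨p3, p4⟩ := hP s' hs'
    have hm : 0 ≤ mm s * mm s' := mul_nonneg (mm_nonneg s) (mm_nonneg s')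
    have hg : 0 ≤ 1 - Real.exp (-(s.im - s'.im) ^ 2 / 4) := by
      have : Real.exp (-(s.im - s'.im) ^ 2 / 4) ≤ 1 := by
        rw [Real.exp_le_one_iff]; nlinarith [sq_nonneg (s.im - s'.im)]
      linarith
    have hre : ((mm s : ℂ) * (mm s' : ℂ) * PS ψ L s s').re = mm s * mm s' * (PS ψ L s s').re := by
      rw [← Complex.ofReal_mul, Complex.re_ofReal_mul]
    rw [hre, ← mul_sub, abs_mul, abs_of_nonneg hm]
    have hx : (1 / (1 + ((s.im - s'.im) * L / (2 * Real.pi)) ^ 2)) = K s s' := (hK s s').symm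
    have hoffcase : |fl ψ ((s.im - s'.im) * L / (2 * Real.pi)) - (PS ψ L s s').re| ≤
        3 * C * (ew κ L s * ew κ L s') * K s s' := by
      have t1 := hflC ((s.im - s'.im) * L / (2 * Real.pi))
      have t2 := (Complex.abs_re_le_norm _).trans (PS_norm hC hC0 hκ.le hL.le p1 p2 p3 p4)
      rw [hx] at t2
      have t3 : C / (1 + ((s.im - s'.im) * L / (2 * Real.pi)) ^ 2) = C * K s s' := by
        rw [hK]; ring
      rw [t3] at t1
      have t4 : 1 ≤ ew κ L s * ew κ L s' := by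
        have := ew_one hκ.le hL.le s
        have := ew_one hκ.le hL.le s'
        nlinarith
      have t5 : C * K s s' ≤ C * (ew κ L s * ew κ L s') * K s s' := by
        have : 0 ≤ C * K s s' := mul_nonneg hC0 (hK0 _ _)
        nlinarith
      refine (abs_sub _ _).trans ?_
      linarith
    have hn1 : 0 ≤ mm s * mm s' * (C * (1 - Real.exp (-(s.im - s'.im) ^ 2 / 4)) * K s s') := by
      have := hK0 s s'
      positivity
    have hn2 : 0 ≤ 3 * C * (a s * a s' * K s s') := by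
      have := hK0 s s'
      have := ha0 s
      have := ha0 s'
      positivity
    have hn3 : 0 ≤ 3 * C * (a s' * a s * K s' s) := by
      have := hK0 s' s
      have := ha0 s
      have := ha0 s'
      positivity
    by_cases c1 : s.re = 1 / 2
    · by_cases c2 : s'.re = 1 / 2
      · rw [if_neg (by simpa using c1), if_neg (by simpa using c2), add_zero, add_zero, PS_on h c1 c2,
          Complex.ofReal_re]
        apply mul_le_mul_of_nonneg_left _ hm
        have t1 := hflC ((s.im - s'.im) * L / (2 * Real.pi))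
        rw [show fl ψ ((s.im - s'.im) * L / (2 * Real.pi)) -
          fl ψ ((s.im - s'.im) * L / (2 * Real.pi)) * Real.exp (-(s.im - s'.im) ^ 2 / 4) =
          fl ψ ((s.im - s'.im) * L / (2 * Real.pi)) * (1 - Real.exp (-(s.im - s'.im) ^ 2 / 4)) by
            ring, abs_mul, abs_of_nonneg hg]
        calc |fl ψ ((s.im - s'.im) * L / (2 * Real.pi))| * (1 - Real.exp (-(s.im - s'.im) ^ 2 / 4)) ≤
              C / (1 + ((s.im - s'.im) * L / (2 * Real.pi)) ^ 2) *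
                (1 - Real.exp (-(s.im - s'.im) ^ 2 / 4)) := by gcongr
          _ = _ := by rw [hK]; ring
      · rw [if_pos c2]
        have t6 : mm s * mm s' * |fl ψ ((s.im - s'.im) * L / (2 * Real.pi)) - (PS ψ L s s').re| ≤
            3 * C * (a s' * a s * K s' s) := by
          refine (mul_le_mul_of_nonneg_left hoffcase hm).trans (le_of_eq ?_)
          rw [ha, ha, hKsym s' s]; ring
        have t7 : 0 ≤ (if s.re ≠ 1 / 2 then 3 * C * (a s * a s' * K s s') else 0) := by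
          split_ifs <;> first | exact hn2 | exact le_rfl
        linarith
    · rw [if_pos c1]
      have t6 : mm s * mm s' * |fl ψ ((s.im - s'.im) * L / (2 * Real.pi)) - (PS ψ L s s').re| ≤
          3 * C * (a s * a s' * K s s') := by
        refine (mul_le_mul_of_nonneg_left hoffcase hm).trans (le_of_eq ?_)
        rw [ha, ha]; ring
      have t7 : 0 ≤ (if s'.re ≠ 1 / 2 then 3 * C * (a s' * a s * K s' s) else 0) := by
        split_ifs <;> first | exact hn3 | exact le_rfl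
      linarith
  have e1 : RR (fl ψ) P P L - (∑ s ∈ P, ∑ s' ∈ P, (mm s : ℂ) * (mm s' : ℂ) * PS ψ L s s').re =
      ∑ s ∈ P, ∑ s' ∈ P, (mm s * mm s' * fl ψ ((s.im - s'.im) * L / (2 * Real.pi)) -
      ((mm s : ℂ) * (mm s' : ℂ) * PS ψ L s s').re) := by
    unfold RR
    rw [Complex.re_sum, ← Finset.sum_sub_distrib]
    refine Finset.sum_congr rfl fun s _ => ?_
    rw [Complex.re_sum, ← Finset.sum_sub_distrib]
  rw [e1]
  calc _ ≤ ∑ s ∈ P, ∑ s' ∈ P, |mm s * mm s' * fl ψ ((s.im - s'.im) * L / (2 * Real.pi)) -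
      ((mm s : ℂ) * (mm s' : ℂ) * PS ψ L s s').re| :=
        (Finset.abs_sum_le_sum_abs _ _).trans (Finset.sum_le_sum fun s _ =>
          Finset.abs_sum_le_sum_abs _ _)
    _ ≤ ∑ s ∈ P, ∑ s' ∈ P, (mm s * mm s' * (C * (1 - Real.exp (-(s.im - s'.im) ^ 2 / 4)) * K s s') +
      ((if s.re ≠ 1 / 2 then 3 * C * (a s * a s' * K s s') else 0) +
       (if s'.re ≠ 1 / 2 then 3 * C * (a s' * a s * K s' s) else 0))) :=
        Finset.sum_le_sum fun s hs => Finset.sum_le_sum fun s' hs' => hterm s hs s' hs'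
    _ = ∑ s ∈ P, ∑ s' ∈ P, mm s * mm s' * (C * (1 - Real.exp (-(s.im - s'.im) ^ 2 / 4)) * K s s') +
      (∑ s ∈ P, ∑ s' ∈ P, (if s.re ≠ 1 / 2 then 3 * C * (a s * a s' * K s s') else 0) +
       ∑ s ∈ P, ∑ s' ∈ P, (if s'.re ≠ 1 / 2 then 3 * C * (a s' * a s * K s' s) else 0)) := by
        rw [← Finset.sum_add_distrib, ← Finset.sum_add_distrib]
        refine Finset.sum_congr rfl fun s _ => ?_
        rw [← Finset.sum_add_distrib, ← Finset.sum_add_distrib]
    _ = _ := by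
        have e2 : ∑ s ∈ P, ∑ s' ∈ P, (if s.re ≠ 1 / 2 then 3 * C * (a s * a s' * K s s') else 0) =
            3 * C * ∑ s ∈ P.filter (fun s => s.re ≠ 1 / 2), ∑ s' ∈ P, a s * a s' * K s s' := by
          rw [Finset.sum_filter, Finset.mul_sum]
          refine Finset.sum_congr rfl fun s _ => ?_
          split_ifs
          · rw [Finset.mul_sum]
          · simp
        have e3 : ∑ s ∈ P, ∑ s' ∈ P, (if s'.re ≠ 1 / 2 then 3 * C * (a s' * a s * K s' s) else 0) =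
            ∑ s ∈ P, ∑ s' ∈ P, (if s.re ≠ 1 / 2 then 3 * C * (a s * a s' * K s s') else 0) := by
          rw [Finset.sum_comm]
        rw [e3, e2]
        simp_rw [ha, hK]
        ring

end Pool.Agent.Y749.Rig
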