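import Pool.Agent.Y749.Rig.Blk

/-! # The block estimate: choice of a good piece and the gaps -/

set_option autoImplicit false

open MeasureTheory Set Filter Topology
open scoped NNReal ENNReal
open Complex (I)

namespace Pool.Agent.Y749.Rig

open H370 (Zf mult good_zeta mem_Zf NN zset zz)
open Pool.Agent.TH850.UR (ew)

lemma rpow_small {δ c : ℝ} (hδ : 0 < δ) (hc : 0 < c) : ∀ᶠ q : ℝ in atTop, q ^ (1 - δ) ≤ c * q := by
  have h1 : Tendsto (fun q : ℝ => q ^ (-δ)) atTop (𝓝 0) := tendsto_rpow_neg_atTop hδ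
  filter_upwards [h1.eventually (ge_mem_nhds hc), eventually_gt_atTop 0] with q h2 h3
  rw [Real.rpow_sub h3, Real.rpow_one, div_eq_mul_inv, ← Real.rpow_neg h3.le]
  calc q * q ^ (-δ) ≤ q * c := by gcongr
    _ = c * q := mul_comm _ _

theorem good_piece {ψ : ℝ → ℝ} {κ : ℝ} (h : Adm κ ψ) (hκ : 0 < κ) (hκ2 : κ ≤ 1 / 2) {ε : ℝ}
    (hε : 0 < ε) : ∃ δ : ℝ, 0 < δ ∧ ∀ᶠ q : ℝ in atTop, ∃ t H : ℝ, q ≤ t ∧ t ≤ q + 2 * q ^ (1 - δ) ∧
      H = q / 8 - 2 * q ^ (1 - δ) ∧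
      |(∫ α in (-κ)..κ, ψ α * H370.A2.JN riemannZeta t (t + H) (α * Real.log q)) -
        (H * Real.log q / (2 * Real.pi)) * cc ψ| ≤ ε * (H * Real.log q / (2 * Real.pi)) := by
  obtain ⟨K, hK⟩ := h.lip
  obtain ⟨δ, hδ, T0, hT0, hmain⟩ := H370.A2.almost_psi H370.good_zeta H370.A2.lamC_norm
      (fun s hs _ => H370.A2.ld_zeta s hs) (by positivity : (0 : ℝ) ≤ 1 / 8)
      (Pool.Agent.TH822.AA.bz_z (1 / 8) (by positivity) (by linarith)) (1 / 2) κ ε (by norm_num)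
      (by norm_num) hκ (by linarith) (by linarith) hε ψ K hK h.supp
  refine ⟨δ, hδ, ?_⟩
  filter_upwards [eventually_ge_atTop T0, eventually_ge_atTop 400, rpow_small hδ
    (show (0 : ℝ) < 1 / 100 by norm_num)] with q hq hq2 hq3
  have hqp : 0 < q := by linarith
  obtain ⟨w, hw⟩ : ∃ w : ℝ, w = 2 * q ^ (1 - δ) := ⟨_, rfl⟩
  have hwp : 0 < q ^ (1 - δ) := Real.rpow_pos_of_pos hqp _
  rw [← hw]
  have hw1 : w ≤ q / 50 := by rw [hw]; linarith
  obtain ⟨H, hH⟩ : ∃ H : ℝ, H = q / 8 - w := ⟨_, rfl⟩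
  have hH1 : q ^ (1 / 2 : ℝ) ≤ H := by
    rw [← Real.sqrt_eq_rpow, hH]
    have h1 : Real.sqrt q ≤ q / 20 := by
      rw [Real.sqrt_le_left (by positivity)]
      nlinarith
    linarith
  have hH2 : H ≤ q / 8 := by rw [hH]; rw [hw]; linarith
  have hvol := hmain q hq H hH1 hH2
  have hex : ∃ t ∈ Icc q (q + w), ¬ (t ∈ Set.Icc q (2 * q) ∧
        ¬ (|(NN riemannZeta t (t + H) : ℝ) - H * Real.log q / (2 * Real.pi)| ≤
            ε * (H * Real.log q / (2 * Real.pi)) ∧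
          |(∫ α in (-κ)..κ, ψ α * H370.A2.JN riemannZeta t (t + H) (α * Real.log q)) -
            (H * Real.log q / (2 * Real.pi)) * (ψ 0 + ∫ α in (-κ)..κ, |α| * ψ α)| ≤
            ε * (H * Real.log q / (2 * Real.pi)))) := by
    by_contra hcon
    push Not at hcon
    have hsub : Icc q (q + w) ⊆ {t : ℝ | t ∈ Set.Icc q (2 * q) ∧
        ¬ (|(NN riemannZeta t (t + H) : ℝ) - H * Real.log q / (2 * Real.pi)| ≤
            ε * (H * Real.log q / (2 * Real.pi)) ∧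
          |(∫ α in (-κ)..κ, ψ α * H370.A2.JN riemannZeta t (t + H) (α * Real.log q)) -
            (H * Real.log q / (2 * Real.pi)) * (ψ 0 + ∫ α in (-κ)..κ, |α| * ψ α)| ≤
            ε * (H * Real.log q / (2 * Real.pi)))} := by
      intro t ht
      obtain ⟨a1, a2⟩ := hcon t ht
      refine ⟨a1, fun hb => ?_⟩
      exact absurd hb.2 (not_le.2 (a2 hb.1))
    have h2 := (measure_mono hsub).trans hvol
    rw [Real.volume_Icc, ENNReal.ofReal_le_ofReal_iff hwp.le] at h2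
    rw [hw] at h2
    linarith
  obtain ⟨t, ht, ht2⟩ := hex
  refine ⟨t, H, ht.1, ht.2, hH, ?_⟩
  have h3 : t ∈ Set.Icc q (2 * q) := ⟨ht.1, by linarith [ht.2]⟩
  rw [not_and, not_not] at ht2
  have h4 := (ht2 h3).2
  have h5 : ∫ α in (-κ)..κ, |α| * ψ α = ∫ α, |α| * ψ α :=
    (int_supp hκ fun x hx => by rw [h.supp x hx, mul_zero]).symm
  rw [h5] at h4
  exact h4

theorem gap {ψ : ℝ → ℝ} {κ : ℝ} (h : Adm κ ψ) {δ : ℝ} (hδ : 0 < δ) {ε : ℝ} (hε : 0 < ε) :
    ∀ᶠ q : ℝ in atTop, ∀ t H : ℝ, q ≤ t → t ≤ q + 2 * q ^ (1 - δ) → H = q / 8 - 2 * q ^ (1 - δ) →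
      |RR (fl ψ) (Zf riemannZeta q (9 / 8 * q)) (Zf riemannZeta q (9 / 8 * q)) (Real.log q) -
        RR (fl ψ) (Zf riemannZeta t (t + H)) (Zf riemannZeta t (t + H)) (Real.log q)| ≤
        ε * (q * Real.log q) := by
  classical
  obtain ⟨b, hb⟩ := fl_bound h
  have hb0 : 0 ≤ b := by
    have := (abs_nonneg _).trans (hb 0)
    simpa using this
  obtain ⟨C1, T1, hC1, hT1, hblk⟩ := sm_blk
  obtain ⟨C2, hC2, hsmall⟩ := sm_small
  obtain ⟨C3, hC3, hcnt⟩ := cnt2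
  have hW := W0_nonneg
  -- choose the small constant
  obtain ⟨D, hD⟩ : ∃ D : ℝ, D = 3 * (b * W0) + 1 := ⟨_, rfl⟩
  have hD0 : 0 < D := by rw [hD]; positivity
  -- want Y_G ≤ min (C1 q) ((ε / D)^2 / C1 q)
  obtain ⟨y, hy⟩ : ∃ y : ℝ, y = min C1 ((ε / D) ^ 2 / C1) := ⟨_, rfl⟩
  have hy0 : 0 < y := by rw [hy]; exact lt_min hC1 (by positivity)
  have hy1 : y ≤ C1 := by rw [hy]; exact min_le_left _ _
  have hy2 : y ≤ (ε / D) ^ 2 / C1 := by rw [hy]; exact min_le_right _ _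
  have hlog : Tendsto (fun q : ℝ => q ^ (1 - δ) * Real.log q / q) atTop (𝓝 0) := by
    have h1 : (fun q : ℝ => Real.log q) =o[atTop] fun q : ℝ => q ^ δ := isLittleO_log_rpow_atTop hδ
    have h2 := h1.tendsto_div_nhds_zero
    refine h2.congr' ?_
    filter_upwards [eventually_gt_atTop 0] with q hq
    rw [Real.rpow_sub hq, Real.rpow_one]
    have : 0 < q ^ δ := Real.rpow_pos_of_pos hq _
    field_simp
  have hlog1 : Tendsto (fun q : ℝ => (Real.log q) ^ 1 / q) atTop (𝓝 0) := by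
    have := Real.isLittleO_log_id_atTop.tendsto_div_nhds_zero
    simpa using this
  filter_upwards [eventually_ge_atTop T1, rpow_small hδ (show (0 : ℝ) < 1 / 100 by norm_num),
    hlog.eventually (ge_mem_nhds (show (0 : ℝ) < y / (2 * (C2 * 2 * C3 * 4)) by positivity)),
    hlog1.eventually (ge_mem_nhds (show (0 : ℝ) < y / (2 * (C2 * 2 * C3 * 4)) by positivity))]
    with q hq hq3 hl1 hl2
  intro t H ht1 ht2 hH
  have hq10 : 10 ≤ q := hT1.trans hq
  have hqp : 0 < q := by linarith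
  obtain ⟨L, hLd⟩ : ∃ L : ℝ, L = Real.log q := ⟨_, rfl⟩
  have hL1 : 1 < L := by rw [hLd]; exact one_lt_log (by linarith)
  have hL0 : 0 < L := by linarith
  obtain ⟨w, hw⟩ : ∃ w : ℝ, w = q ^ (1 - δ) := ⟨_, rfl⟩
  have hwp : 0 < w := by rw [hw]; exact Real.rpow_pos_of_pos hqp _
  rw [← hw] at hq3 ht2 hH hl1
  rw [← hLd] at hl1 hl2 ⊢
  have hblkT := hblk q hq
  rw [← hLd] at hblkT
  have hfull : ∀ A : Finset ℂ, A ⊆ Zf riemannZeta q (2 * q) →
      ∫⁻ t, ENNReal.ofReal (fw A mm L t ^ 2) ≤ ENNReal.ofReal (C1 * q) := by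
    intro A hA
    refine le_trans (lintegral_mono fun t => ENNReal.ofReal_le_ofReal ?_) hblkT
    refine pow_le_pow_left₀ (fw_nonneg mm_nonneg t) ?_ 2
    exact fw_mono hA (fun s _ => le_rfl) t mm_nonneg
  obtain ⟨B, hB⟩ : ∃ B : Finset ℂ, B = Zf riemannZeta q (9 / 8 * q) := ⟨_, rfl⟩
  obtain ⟨P, hP⟩ : ∃ P : Finset ℂ, P = Zf riemannZeta t (t + H) := ⟨_, rfl⟩
  rw [← hB, ← hP]
  have hHt : t + H ≤ 9 / 8 * q := by rw [hH]; linarith
  have hPB : P ⊆ B := by
    rw [hP, hB]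
    intro s hs
    rw [mem_Zf good_zeta (by linarith)] at hs ⊢
    exact ⟨hs.1, hs.2.1, by linarith [hs.2.2.1], by linarith [hs.2.2.2.1], hs.2.2.2.2⟩
  have hB2 : B ⊆ Zf riemannZeta q (2 * q) := by
    rw [hB]
    intro s hs
    rw [mem_Zf good_zeta (by linarith)] at hs ⊢
    exact ⟨hs.1, hs.2.1, hs.2.2.1, by linarith [hs.2.2.2.1], hs.2.2.2.2⟩
  obtain ⟨G, hG⟩ : ∃ G : Finset ℂ, G = B \ P := ⟨_, rfl⟩
  have hGB : G ⊆ B := by rw [hG]; exact Finset.sdiff_subset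
  have hun : B = P ∪ G := by rw [hG, Finset.union_sdiff_of_subset hPB]
  have hdis : Disjoint P G := by rw [hG]; exact Finset.disjoint_sdiff
  have hGsub : G ⊆ Zf riemannZeta q t ∪ Zf riemannZeta (t + H) (9 / 8 * q) := by
    intro s hs
    rw [hG, Finset.mem_sdiff, hB, hP, mem_Zf good_zeta (by linarith),
      mem_Zf good_zeta (by linarith)] at hs
    rw [Finset.mem_union, mem_Zf good_zeta (by linarith), mem_Zf good_zeta (by
      rw [hH]; linarith)]
    obtain ⟨⟨a1, a2, a3, a4, a5⟩, a6⟩ := hs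
    by_cases c1 : s.im ≤ t
    · left; exact ⟨a1, a2, a3, c1, a5⟩
    · right
      push Not at c1
      refine ⟨a1, a2, ?_, a4, a5⟩
      by_contra c2
      push Not at c2
      exact a6 ⟨a1, a2, c1, c2, a5⟩
  have hGsum : ∑ s ∈ G, mm s ≤ C3 * 4 * (w + 1) * L := by
    have h1 : ∑ s ∈ G, mm s ≤ ∑ s ∈ Zf riemannZeta q t, mm s +
        ∑ s ∈ Zf riemannZeta (t + H) (9 / 8 * q), mm s := by
      refine (Finset.sum_le_sum_of_subset_of_nonneg hGsub fun s _ _ => mm_nonneg s).trans ?_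
      have := Finset.sum_union_inter (s₁ := Zf riemannZeta q t)
        (s₂ := Zf riemannZeta (t + H) (9 / 8 * q)) (f := mm)
      have h0 : 0 ≤ ∑ s ∈ Zf riemannZeta q t ∩ Zf riemannZeta (t + H) (9 / 8 * q), mm s :=
        Finset.sum_nonneg fun s _ => mm_nonneg s
      linarith
    have h2 := hcnt q t (by linarith) ht1 (by linarith)
    have h3 := hcnt (t + H) (9 / 8 * q) (by rw [hH]; linarith) hHt (by rw [hH]; linarith)
    rw [← hLd] at h2
    have h4 : Real.log (t + H) ≤ 2 * L := by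
      have : Real.log (t + H) ≤ Real.log (q ^ 2) := Real.log_le_log (by rw [hH]; linarith)
        (by rw [hH]; nlinarith)
      rw [Real.log_pow, ← hLd] at this
      exact_mod_cast this
    have h5 : 0 ≤ Real.log (t + H) := Real.log_nonneg (by rw [hH]; linarith)
    have h6 : ∑ s ∈ Zf riemannZeta q t, mm s ≤ C3 * (2 * w + 1) * L := by
      refine h2.trans ?_
      gcongr
      linarith
    have h7 : ∑ s ∈ Zf riemannZeta (t + H) (9 / 8 * q), mm s ≤ C3 * (2 * w + 1) * Real.log (t + H) := by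
      refine h3.trans ?_
      have h9 : 9 / 8 * q - (t + H) + 1 ≤ 2 * w + 1 := by rw [hH]; linarith
      gcongr
    have h8 : C3 * (2 * w + 1) * Real.log (t + H) ≤ C3 * (2 * w + 1) * (2 * L) := by
      gcongr
    have hCL : 0 < C3 * L := by positivity
    have hCwL : 0 < C3 * w * L := by positivity
    nlinarith
  have hGY : ∫⁻ t, ENNReal.ofReal (fw G mm L t ^ 2) ≤ ENNReal.ofReal (y * q) := by
    refine (hsmall (2 * q) (by linarith) L hL1 G ?_).trans (ENNReal.ofReal_le_ofReal ?_)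
    · refine (hGB.trans hB2).trans (Zf_sub_ZZ (by linarith) le_rfl)
    · have h0 : 0 ≤ ∑ s ∈ G, mm s := Finset.sum_nonneg fun s _ => mm_nonneg s
      have hlog2q : Real.log (2 * q) / L ≤ 2 := by
        rw [div_le_iff₀ hL0]
        have : Real.log (2 * q) ≤ Real.log (q ^ 2) := Real.log_le_log (by linarith) (by nlinarith)
        rw [Real.log_pow, ← hLd] at this
        push_cast at this
        exact this
      have h1 : w * L ≤ y / (2 * (C2 * 2 * C3 * 4)) * q := by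
        rwa [div_le_iff₀ hqp] at hl1
      have h2 : L ≤ y / (2 * (C2 * 2 * C3 * 4)) * q := by
        rw [pow_one, div_le_iff₀ hqp] at hl2
        exact hl2
      calc C2 * (Real.log (2 * q) / L) * ∑ s ∈ G, mm s ≤ C2 * 2 * (C3 * 4 * (w + 1) * L) := by
            gcongr
        _ = (C2 * 2 * C3 * 4) * (w * L + L) := by ring
        _ ≤ (C2 * 2 * C3 * 4) * (y / (2 * (C2 * 2 * C3 * 4)) * q + y / (2 * (C2 * 2 * C3 * 4)) * q) := by
            gcongr
        _ = y * q := by field_simp; ring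
  have hPY := hfull P (hPB.trans hB2)
  have e1 := RR_le (A := P) (B := G) hL0 (Y₁ := C1 * q) (Y₂ := y * q) (by positivity) (by positivity)
    hPY hGY hb0 hb
  have e2 := RR_le (A := G) (B := G) hL0 (Y₁ := y * q) (Y₂ := y * q) (by positivity) (by positivity)
    hGY hGY hb0 hb
  have hsq : Real.sqrt (C1 * q) * Real.sqrt (y * q) ≤ ε / D * q := by
    rw [← Real.sqrt_mul (by positivity)]
    rw [show ε / D * q = Real.sqrt ((ε / D * q) ^ 2) from (Real.sqrt_sq (by positivity)).symm]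
    apply Real.sqrt_le_sqrt
    rw [le_div_iff₀ hC1] at hy2
    calc C1 * q * (y * q) = (y * C1) * q ^ 2 := by ring
      _ ≤ (ε / D) ^ 2 * q ^ 2 := by gcongr
      _ = _ := by ring
  have hsq2 : Real.sqrt (y * q) * Real.sqrt (y * q) ≤ Real.sqrt (C1 * q) * Real.sqrt (y * q) := by
    gcongr
  rw [hun, RR_union hdis fun x => fl_even x]
  have e3 : RR (fl ψ) P P L + 2 * RR (fl ψ) P G L + RR (fl ψ) G G L - RR (fl ψ) P P L =
    2 * RR (fl ψ) P G L + RR (fl ψ) G G L := by ring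
  rw [e3]
  have t1 := abs_add_le (2 * RR (fl ψ) P G L) (RR (fl ψ) G G L)
  have t2 : |2 * RR (fl ψ) P G L| = 2 * |RR (fl ψ) P G L| := by
    rw [abs_mul, abs_of_pos (by norm_num : (0:ℝ) < 2)]
  have hbW : 0 ≤ b * W0 := by positivity
  have e1' : |RR (fl ψ) P G L| ≤ b * W0 * (L * (ε / D * q)) := by
    refine e1.trans ?_
    rw [mul_assoc L]
    gcongr
  have e2' : |RR (fl ψ) G G L| ≤ b * W0 * (L * (ε / D * q)) := by
    refine e2.trans ?_
    rw [mul_assoc L]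
    have := hsq2.trans hsq
    gcongr
  have e4 : 3 * (b * W0 * (L * (ε / D * q))) ≤ ε * (q * L) := by
    have : 3 * (b * W0) * (ε / D) ≤ ε := by
      rw [mul_div_assoc', div_le_iff₀ hD0, hD]
      nlinarith
    calc 3 * (b * W0 * (L * (ε / D * q))) = 3 * (b * W0) * (ε / D) * (q * L) := by ring
      _ ≤ _ := by gcongr
  linarith

end Pool.Agent.Y749.Rig
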