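import Pool.Agent.Y749.Rig.Blk2

/-! # The block estimate: conclusion -/

set_option autoImplicit false

open MeasureTheory Set Filter Topology
open scoped NNReal ENNReal
open Complex (I)

namespace Pool.Agent.Y749.Rig

open H370 (Zf mult good_zeta mem_Zf NN zset zz)
open Pool.Agent.TH850.UR (ew)

/-- weights -/
noncomputable def aw (κ L : ℝ) (s : ℂ) : ℝ := mm s * ew κ L s

lemma aw_nonneg (κ L : ℝ) (s : ℂ) : 0 ≤ aw κ L s :=
  mul_nonneg (mm_nonneg s) (Real.exp_pos _).le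

/-- fourth and second moments with weights -/
theorem wm : ∃ κ C T0 : ℝ, 0 < κ ∧ κ ≤ 1 / 2 ∧ 0 < C ∧ 10 ≤ T0 ∧ ∀ q : ℝ, T0 ≤ q →
    ∀ A : Finset ℂ, A ⊆ Zf riemannZeta q (2 * q) →
    ∫⁻ t, ENNReal.ofReal (fw A (aw κ (Real.log q)) (Real.log q) t ^ 4) ≤ ENNReal.ofReal (C * q) ∧
    ∫⁻ t, ENNReal.ofReal (fw A (aw κ (Real.log q)) (Real.log q) t ^ 2) ≤ ENNReal.ofReal (C * q) := by
  obtain ⟨κ0, C, T0, hκ0, -, hC, hT0, h⟩ := loc4
  refine ⟨min κ0 (1 / 2), C + 2, T0, lt_min hκ0 (by norm_num), min_le_right _ _, by positivity, hT0,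
    fun q hq A hA => ?_⟩
  obtain ⟨κ, hκ⟩ : ∃ κ : ℝ, κ = min κ0 (1 / 2) := ⟨_, rfl⟩
  rw [← hκ]
  have hκκ : κ ≤ κ0 := by rw [hκ]; exact min_le_left _ _
  have hq10 : 10 ≤ q := hT0.trans hq
  obtain ⟨L, hL⟩ : ∃ L : ℝ, L = Real.log q := ⟨_, rfl⟩
  have hL1 : 1 < L := by rw [hL]; exact one_lt_log (by linarith)
  have h4 := h q hq
  rw [← hL] at h4 ⊢
  have hpt : ∀ t, fw A (aw κ L) L t ≤ ∑ s ∈ (Zf riemannZeta q (2 * q)).filter
      (fun s => |s.im - t| ≤ 1 / L), (mult riemannZeta s : ℝ) * ew κ0 L s := by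
    intro t
    refine (fw_mono hA (fun s _ => le_rfl) t (aw_nonneg κ L)).trans ?_
    unfold fw
    refine Finset.sum_le_sum fun s _ => ?_
    unfold aw mm
    apply mul_le_mul_of_nonneg_left _ (Nat.cast_nonneg _)
    unfold Pool.Agent.TH850.UR.ew
    apply Real.exp_le_exp.2
    have : 0 ≤ |s.re - 1 / 2| * L := by positivity
    gcongr
  have h40 : ∫⁻ t, ENNReal.ofReal (fw A (aw κ L) L t ^ 4) ≤ ENNReal.ofReal (C * q) := by
    refine le_trans (lintegral_mono fun t => ENNReal.ofReal_le_ofReal ?_) h4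
    exact pow_le_pow_left₀ (fw_nonneg (aw_nonneg κ L) t) (hpt t) 4
  refine ⟨h40.trans (ENNReal.ofReal_le_ofReal (by nlinarith)), ?_⟩
  have hb : ∀ t, fw A (aw κ L) L t ^ 2 ≤
      (Icc (q - 1) (2 * q + 1)).indicator (fun _ => (1 : ℝ)) t + fw A (aw κ L) L t ^ 4 := by
    intro t
    by_cases ht : t ∈ Icc (q - 1) (2 * q + 1)
    · rw [indicator_of_mem ht]
      nlinarith [sq_nonneg (fw A (aw κ L) L t ^ 2 - 1), sq_nonneg (fw A (aw κ L) L t)]
    · rw [indicator_of_notMem ht]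
      have : fw A (aw κ L) L t = 0 := by
        unfold fw
        apply Finset.sum_eq_zero
        intro s hs
        exfalso
        rw [Finset.mem_filter] at hs
        obtain ⟨h1, h6⟩ := hs
        have h2 := hA h1
        rw [mem_Zf good_zeta (by linarith)] at h2
        have h7 := abs_le.1 h6
        have h8 : 1 / L ≤ 1 := by rw [div_le_one (by linarith)]; exact hL1.le
        exact ht ⟨by linarith [h2.2.2.1], by linarith [h2.2.2.2.1]⟩
      rw [this]; norm_num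
  calc ∫⁻ t, ENNReal.ofReal (fw A (aw κ L) L t ^ 2) ≤
        ∫⁻ t, ((Icc (q - 1) (2 * q + 1)).indicator (fun _ => (1 : ℝ≥0∞)) t +
          ENNReal.ofReal (fw A (aw κ L) L t ^ 4)) := by
        refine lintegral_mono fun t => (ENNReal.ofReal_le_ofReal (hb t)).trans (le_of_eq ?_)
        rw [ENNReal.ofReal_add (indicator_nonneg (fun _ _ => zero_le_one) _) (by positivity)]
        congr 1
        by_cases ht : t ∈ Icc (q - 1) (2 * q + 1)
        · rw [indicator_of_mem ht, indicator_of_mem ht, ENNReal.ofReal_one]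
        · rw [indicator_of_notMem ht, indicator_of_notMem ht, ENNReal.ofReal_zero]
    _ ≤ ENNReal.ofReal (2 * q) + ENNReal.ofReal (C * q) := by
        rw [lintegral_add_left (measurable_const.indicator measurableSet_Icc),
          lintegral_indicator_const measurableSet_Icc, one_mul, Real.volume_Icc]
        gcongr
        linarith
    _ = ENNReal.ofReal ((C + 2) * q) := by
        rw [← ENNReal.ofReal_add (by positivity) (by positivity)]
        congr 1; ring

/-- second moment over a sparse set of zeros -/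
theorem sparse {κ L Y K : ℝ} (hL : 0 < L) (hK : 0 < K) (hY : 0 ≤ Y) {A : Finset ℂ}
    (h : ∫⁻ t, ENNReal.ofReal (fw A (aw κ L) L t ^ 4) ≤ ENNReal.ofReal Y) :
    ∫⁻ t, ENNReal.ofReal (fw A (aw κ L) L t ^ 2) ≤
      ENNReal.ofReal (K * ((∑ s ∈ A, mm s) * (2 / L)) + Y / K) := by
  have hpt : ∀ t, fw A (aw κ L) L t ^ 2 ≤ K * fw A mm L t + 1 / K * fw A (aw κ L) L t ^ 4 := by
    intro t
    by_cases hz : ∀ s ∈ A.filter (fun s => |s.im - t| ≤ 1 / L), mult riemannZeta s = 0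
    · have h1 : fw A (aw κ L) L t = 0 := by
        unfold fw
        apply Finset.sum_eq_zero
        intro s hs
        unfold aw mm
        rw [hz s hs]; simp
      have h2 := fw_nonneg (A := A) (L := L) mm_nonneg t
      rw [h1]
      have : 0 ≤ K * fw A mm L t := by positivity
      simpa using this
    · push Not at hz
      obtain ⟨s, hs, hs2⟩ := hz
      have h1 : 1 ≤ fw A mm L t := by
        unfold fw
        have h3 : mm s ≤ ∑ s ∈ A.filter (fun s => |s.im - t| ≤ 1 / L), mm s :=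
          Finset.single_le_sum (f := mm) (fun s _ => mm_nonneg s) hs
        have h4 : 1 ≤ mm s := by
          unfold mm
          exact_mod_cast Nat.one_le_iff_ne_zero.2 hs2
        linarith
      have h5 : fw A (aw κ L) L t ^ 2 ≤ K + 1 / K * fw A (aw κ L) L t ^ 4 := by
        obtain ⟨x, hx⟩ : ∃ x : ℝ, x = fw A (aw κ L) L t ^ 2 := ⟨_, rfl⟩
        have hx0 : 0 ≤ x := by rw [hx]; positivity
        have e : fw A (aw κ L) L t ^ 4 = x ^ 2 := by rw [hx]; ring
        rw [e, ← hx]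
        rcases le_total x K with h | h
        · have : 0 ≤ 1 / K * x ^ 2 := by positivity
          linarith
        · have : x ≤ 1 / K * x ^ 2 := by
            rw [one_div, inv_mul_eq_div, le_div_iff₀ hK]
            nlinarith
          linarith
      have h6 : K ≤ K * fw A mm L t := le_mul_of_one_le_right hK.le h1
      linarith
  calc ∫⁻ t, ENNReal.ofReal (fw A (aw κ L) L t ^ 2) ≤
        ∫⁻ t, (ENNReal.ofReal K * ENNReal.ofReal (fw A mm L t) +
          ENNReal.ofReal (1 / K) * ENNReal.ofReal (fw A (aw κ L) L t ^ 4)) := by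
        refine lintegral_mono fun t => (ENNReal.ofReal_le_ofReal (hpt t)).trans (le_of_eq ?_)
        have h2 := fw_nonneg (A := A) (L := L) mm_nonneg t
        rw [ENNReal.ofReal_add (by positivity) (by positivity), ENNReal.ofReal_mul hK.le,
          ENNReal.ofReal_mul (by positivity)]
    _ = ENNReal.ofReal K * ENNReal.ofReal ((∑ s ∈ A, mm s) * (2 / L)) +
          ENNReal.ofReal (1 / K) * ∫⁻ t, ENNReal.ofReal (fw A (aw κ L) L t ^ 4) := by
        rw [lintegral_add_left (fw_meas.ennreal_ofReal.const_mul _),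
          lintegral_const_mul' _ _ ENNReal.ofReal_ne_top,
          lintegral_const_mul' _ _ ENNReal.ofReal_ne_top, int_fw mm_nonneg hL]
    _ ≤ ENNReal.ofReal K * ENNReal.ofReal ((∑ s ∈ A, mm s) * (2 / L)) +
          ENNReal.ofReal (1 / K) * ENNReal.ofReal Y := by gcongr
    _ = _ := by
        have h0 : 0 ≤ ∑ s ∈ A, mm s := Finset.sum_nonneg fun s _ => mm_nonneg s
        rw [← ENNReal.ofReal_mul hK.le, ← ENNReal.ofReal_mul (by positivity),
          ← ENNReal.ofReal_add (by positivity) (by positivity)]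
        congr 1; ring

/-- number of zeros off the critical line up to `T`, with multiplicity -/
noncomputable def NF (T : ℝ) : ℝ := ∑ s ∈ (ZZ T).filter (fun s => s.re ≠ 1 / 2), mm s

theorem blk_main : ∃ κ : ℝ, 0 < κ ∧ κ ≤ 1 / 2 ∧ ∀ ψ : ℝ → ℝ, Adm κ ψ →
    (∀ η : ℝ, 0 < η → ∀ᶠ T : ℝ in atTop, NF T ≤ η * (T * Real.log T)) →
    ∀ ε : ℝ, 0 < ε → ∀ᶠ q : ℝ in atTop,
      |RR (fl ψ) (Zf riemannZeta q (9 / 8 * q)) (Zf riemannZeta q (9 / 8 * q)) (Real.log q) -
        q / 8 * (Real.log q / (2 * Real.pi)) * cc ψ| ≤ ε * (q * Real.log q) := by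
  classical
  obtain ⟨κ, Cw, Tw, hκ, hκ2, hCw, hTw, hwm⟩ := wm
  refine ⟨κ, hκ, hκ2, fun ψ h hoff ε hε => ?_⟩
  obtain ⟨C, hC⟩ := h.dec
  have hC0 : 0 ≤ C := by
    have := (norm_nonneg _).trans (hC 0 0)
    simpa using this
  obtain ⟨C1, T1, hC1, hT1, hblk⟩ := sm_blk
  have hW := W0_nonneg
  have hpi := Real.pi_pos
  -- constants
  obtain ⟨ρ, hρ⟩ : ∃ ρ : ℝ, ρ = ε / (8 * (C * (W0 + 1) * C1 + 1)) := ⟨_, rfl⟩
  have hρ0 : 0 < ρ := by rw [hρ]; positivity
  have hρ1 : C * (ρ * W0 + ρ) * C1 ≤ ε / 8 := by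
    have h1 : (C * (W0 + 1) * C1 + 1) * ρ = ε / 8 := by rw [hρ]; field_simp
    nlinarith
  obtain ⟨R, hR0, hR⟩ : ∃ R : ℝ, 0 < R ∧ WT R ≤ ρ := by
    obtain ⟨R, hR1, hR2⟩ := ((eventually_gt_atTop 0).and
      (WT_tendsto.eventually (ge_mem_nhds hρ0))).exists
    exact ⟨R, hR1, hR2⟩
  obtain ⟨D, hD⟩ : ∃ D : ℝ, D = 6 * C * W0 + 1 := ⟨_, rfl⟩
  have hD0 : 0 < D := by rw [hD]; positivity
  obtain ⟨y, hy⟩ : ∃ y : ℝ, y = (ε / (4 * D)) ^ 2 / Cw := ⟨_, rfl⟩
  have hy0 : 0 < y := by rw [hy]; positivity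
  obtain ⟨K, hK⟩ : ∃ K : ℝ, K = 2 * Cw / y := ⟨_, rfl⟩
  have hK0 : 0 < K := by rw [hK]; positivity
  obtain ⟨η, hη⟩ : ∃ η : ℝ, η = y / (12 * K) := ⟨_, rfl⟩
  have hη0 : 0 < η := by rw [hη]; positivity
  obtain ⟨δ, hδ, hgood⟩ := good_piece h hκ hκ2 (show 0 < ε / (8 * (1 + 1)) by positivity)
  have h98 : Tendsto (fun T : ℝ => 9 / 8 * T) atTop atTop :=
    tendsto_id.const_mul_atTop (by norm_num)
  filter_upwards [hgood, gap h hδ (show 0 < ε / 8 by positivity), h98.eventually (hoff η hη0),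
    eventually_ge_atTop Tw, eventually_ge_atTop T1, rpow_small hδ
      (show (0 : ℝ) < min (1 / 100) (ε / (8 * (|cc ψ| + 1))) by positivity),
    Real.tendsto_log_atTop.eventually_ge_atTop (2 * Real.pi * R / Real.sqrt ρ + 1)]
    with q ⟨t, H, ht1, ht2, hH, hgd⟩ hgap hofq hq1 hq2 hw1 hLR
  have hq10 : 10 ≤ q := hTw.trans hq1
  have hqp : 0 < q := by linarith
  have hg := hgap t H ht1 ht2 hH
  obtain ⟨L, hL⟩ : ∃ L : ℝ, L = Real.log q := ⟨_, rfl⟩
  have hL1 : 1 < L := by rw [hL]; exact one_lt_log (by linarith)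
  have hL0 : 0 < L := by linarith
  obtain ⟨w, hw⟩ : ∃ w : ℝ, w = q ^ (1 - δ) := ⟨_, rfl⟩
  have hwp : 0 < w := by rw [hw]; exact Real.rpow_pos_of_pos hqp _
  rw [← hw] at ht2 hH hw1
  have hwm1 := hwm q hq1
  have hblkT := hblk q hq2
  rw [← hL] at hg hgd hLR hwm1 hblkT ⊢
  have hw2 : w ≤ 1 / 100 * q := hw1.trans (by gcongr; exact min_le_left _ _)
  have hw3 : w ≤ ε / (8 * (|cc ψ| + 1)) * q := hw1.trans (by gcongr; exact min_le_right _ _)
  obtain ⟨B, hB⟩ : ∃ B : Finset ℂ, B = Zf riemannZeta q (9 / 8 * q) := ⟨_, rfl⟩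
  obtain ⟨P, hP⟩ : ∃ P : Finset ℂ, P = Zf riemannZeta t (t + H) := ⟨_, rfl⟩
  rw [← hB] at hg ⊢
  rw [← hP] at hg
  have hHt : t + H ≤ 9 / 8 * q := by rw [hH]; linarith
  have ht0 : 1 ≤ t := by linarith
  have hPB : P ⊆ B := by
    rw [hP, hB]
    intro s hs
    rw [mem_Zf good_zeta (by linarith)] at hs ⊢
    exact ⟨hs.1, hs.2.1, by linarith [hs.2.2.1], by linarith [hs.2.2.2.1], hs.2.2.2.2⟩
  have hB2 : B ⊆ Zf riemannZeta q (2 * q) := by
    rw [hB]
    intro s hs
    rw [mem_Zf good_zeta (by linarith)] at hs ⊢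
    exact ⟨hs.1, hs.2.1, hs.2.2.1, by linarith [hs.2.2.2.1], hs.2.2.2.2⟩
  have hPre : ∀ s ∈ P, 0 < s.re ∧ s.re < 1 := by
    intro s hs
    rw [hP, mem_Zf good_zeta (by linarith)] at hs
    exact ⟨hs.1, hs.2.1⟩
  -- the complex sum
  have hS := JN_eq h hκ (A := t) (B := t + H) (L := L) ht0
  rw [← hP] at hS
  have hSre := congrArg Complex.re hS
  rw [Complex.ofReal_re] at hSre
  rw [hSre] at hgd
  -- the difference
  have hdiff := diff_sum h hκ hC hC0 hL0 hPre
  have hPm : ∫⁻ t, ENNReal.ofReal (fw P mm L t ^ 2) ≤ ENNReal.ofReal (C1 * q) := by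
    refine le_trans (lintegral_mono fun t => ENNReal.ofReal_le_ofReal ?_) hblkT
    refine pow_le_pow_left₀ (fw_nonneg mm_nonneg t) ?_ 2
    exact fw_mono (hPB.trans hB2) (fun s _ => le_rfl) t mm_nonneg
  have hA1 : ∑ s ∈ P, ∑ s' ∈ P, mm s * mm s' * (C * (1 - Real.exp (-(s.im - s'.im) ^ 2 / 4)) *
        (1 / (1 + ((s.im - s'.im) * L / (2 * Real.pi)) ^ 2))) ≤ ε / 8 * (q * L) := by
    have h1 := RR_split (A := P) (B := P) (L := L) hL0 (Y₁ := C1 * q) (Y₂ := C1 * q) (by positivity)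
      (by positivity) mm_nonneg mm_nonneg hPm hPm
      (K := fun s s' => C * (1 - Real.exp (-(s.im - s'.im) ^ 2 / 4)) *
        (1 / (1 + ((s.im - s'.im) * L / (2 * Real.pi)) ^ 2))) (R := R) (η := C * ρ) (β := C)
      (by positivity) hC0 ?_
    · refine h1.trans ?_
      rw [mul_assoc L, Real.mul_self_sqrt (by positivity)]
      calc (C * ρ * W0 + C * WT R) * (L * (C1 * q)) ≤ (C * ρ * W0 + C * ρ) * (L * (C1 * q)) := by
            gcongr
        _ = C * (ρ * W0 + ρ) * C1 * (q * L) := by ring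
        _ ≤ _ := by gcongr
    · intro s _ s' _
      apply mul_le_mul_of_nonneg_right _ (by positivity)
      have hexp1 : 0 < Real.exp (-(s.im - s'.im) ^ 2 / 4) := Real.exp_pos _
      split_ifs with hh
      · nlinarith
      · push Not at hh
        apply mul_le_mul_of_nonneg_left _ hC0
        have h2 := Real.add_one_le_exp (-(s.im - s'.im) ^ 2 / 4)
        rw [abs_div, abs_mul, abs_of_pos hL0, abs_of_pos (show 0 < 2 * Real.pi by positivity),
          div_lt_iff₀ (by positivity)] at hh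
        have h3 : 2 * Real.pi * R / Real.sqrt ρ ≤ L := by linarith
        have hsρ : 0 < Real.sqrt ρ := Real.sqrt_pos.2 hρ0
        rw [div_le_iff₀ hsρ] at h3
        have h4 : |s.im - s'.im| ≤ Real.sqrt ρ := by
          have h5 : |s.im - s'.im| * L ≤ Real.sqrt ρ * L := by linarith
          exact le_of_mul_le_mul_right h5 hL0
        have h6 : (s.im - s'.im) ^ 2 ≤ ρ := by
          rw [← sq_abs, ← Real.sq_sqrt hρ0.le]
          exact pow_le_pow_left₀ (abs_nonneg _) h4 2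
        linarith
  have hA2 : ∑ s ∈ P.filter (fun s => s.re ≠ 1 / 2), ∑ s' ∈ P, (mm s * ew κ L s) *
        (mm s' * ew κ L s') * (1 / (1 + ((s.im - s'.im) * L / (2 * Real.pi)) ^ 2)) ≤
      W0 * (L * (ε / (4 * D) * q)) := by
    have hsubP : P ⊆ Zf riemannZeta q (2 * q) := hPB.trans hB2
    have hsubF : P.filter (fun s => s.re ≠ 1 / 2) ⊆ Zf riemannZeta q (2 * q) :=
      (Finset.filter_subset _ _).trans hsubP
    have h1 := (hwm1 P hsubP).2
    have h2 := sparse (κ := κ) hL0 hK0 (by positivity) (hwm1 _ hsubF).1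
    have h3 : ∑ s ∈ P.filter (fun s => s.re ≠ 1 / 2), mm s ≤ 3 * η * (q * L) := by
      have h4 : ∑ s ∈ P.filter (fun s => s.re ≠ 1 / 2), mm s ≤ NF (9 / 8 * q) := by
        unfold NF
        refine Finset.sum_le_sum_of_subset_of_nonneg ?_ fun s _ _ => mm_nonneg s
        refine Finset.filter_subset_filter _ ?_
        rw [hP]
        exact Zf_sub_ZZ ht0 hHt
      have h5 : Real.log (9 / 8 * q) ≤ 2 * L := by
        have : Real.log (9 / 8 * q) ≤ Real.log (q ^ 2) := Real.log_le_log (by linarith)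
          (by nlinarith)
        rw [Real.log_pow, ← hL] at this
        exact_mod_cast this
      calc ∑ s ∈ P.filter (fun s => s.re ≠ 1 / 2), mm s ≤ η * (9 / 8 * q * Real.log (9 / 8 * q)) :=
            h4.trans hofq
        _ ≤ η * (9 / 8 * q * (2 * L)) := by gcongr
        _ ≤ _ := by
            have : 0 < η * (q * L) := by positivity
            nlinarith
    have h6 : K * ((∑ s ∈ P.filter (fun s => s.re ≠ 1 / 2), mm s) * (2 / L)) + Cw * q / K ≤ y * q := by
      have h7 : (∑ s ∈ P.filter (fun s => s.re ≠ 1 / 2), mm s) * (2 / L) ≤ 6 * η * q := by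
        calc (∑ s ∈ P.filter (fun s => s.re ≠ 1 / 2), mm s) * (2 / L) ≤
              3 * η * (q * L) * (2 / L) := by gcongr
          _ = 6 * η * q := by field_simp; ring
      have h8 : K * (6 * η * q) = y / 2 * q := by rw [hη]; field_simp; ring
      have h9 : Cw * q / K = y / 2 * q := by rw [hK]; field_simp
      have h10 := mul_le_mul_of_nonneg_left h7 hK0.le
      rw [h8] at h10
      rw [h9]
      linarith
    have h7 := h2.trans (ENNReal.ofReal_le_ofReal h6)
    have h8 := est_all (A := P.filter (fun s => s.re ≠ 1 / 2)) (B := P) (L := L) hL0 (Y₁ := y * q)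
      (Y₂ := Cw * q) (by positivity) (by positivity) (aw_nonneg κ L) (aw_nonneg κ L) h7 h1
    refine h8.trans ?_
    rw [mul_assoc L]
    have h9 : Real.sqrt (y * q) * Real.sqrt (Cw * q) = ε / (4 * D) * q := by
      rw [← Real.sqrt_mul (by positivity)]
      have : y * q * (Cw * q) = (ε / (4 * D) * q) ^ 2 := by
        rw [hy]; field_simp
      rw [this, Real.sqrt_sq (by positivity)]
    rw [h9]
  -- assembly
  obtain ⟨S, hSd⟩ : ∃ S : ℝ, S = (∑ s ∈ P, ∑ s' ∈ P, (mm s : ℂ) * (mm s' : ℂ) * PS ψ L s s').re :=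
    ⟨_, rfl⟩
  rw [← hSd] at hdiff hgd
  have hd2 : |RR (fl ψ) P P L - S| ≤ ε / 8 * (q * L) + 6 * C * (W0 * (L * (ε / (4 * D) * q))) := by
    refine hdiff.trans ?_
    have := mul_le_mul_of_nonneg_left hA2 (show 0 ≤ 6 * C by positivity)
    linarith
  have hd3 : 6 * C * (W0 * (L * (ε / (4 * D) * q))) ≤ ε / 4 * (q * L) := by
    have h1 : 6 * C * W0 ≤ D := by rw [hD]; linarith
    calc 6 * C * (W0 * (L * (ε / (4 * D) * q))) = (6 * C * W0) * (ε / (4 * D)) * (q * L) := by ring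
      _ ≤ D * (ε / (4 * D)) * (q * L) := by gcongr
      _ = ε / 4 * (q * L) := by field_simp
  have hHq : H ≤ q := by rw [hH]; linarith
  have hH0 : 0 ≤ H := by rw [hH]; linarith
  have h2pi : 1 ≤ 2 * Real.pi := by linarith [Real.pi_gt_three]
  have hgd2 : |S - H * L / (2 * Real.pi) * cc ψ| ≤ ε / 8 * (q * L) := by
    refine hgd.trans ?_
    have h1 : H * L / (2 * Real.pi) ≤ q * L := by
      rw [div_le_iff₀ (by positivity)]
      have : H * L ≤ q * L := by gcongr
      nlinarith [mul_pos hqp hL0]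
    calc ε / (8 * (1 + 1)) * (H * L / (2 * Real.pi)) ≤ ε / (8 * (1 + 1)) * (q * L) := by gcongr
      _ ≤ _ := by
          have : 0 < ε * (q * L) := by positivity
          nlinarith
  have hHd : |H * L / (2 * Real.pi) * cc ψ - q / 8 * (L / (2 * Real.pi)) * cc ψ| ≤
      ε / 4 * (q * L) := by
    have h1 : H * L / (2 * Real.pi) * cc ψ - q / 8 * (L / (2 * Real.pi)) * cc ψ =
        -(2 * w * (L / (2 * Real.pi)) * cc ψ) := by rw [hH]; ring
    rw [h1, abs_neg, abs_mul, abs_of_pos (show 0 < 2 * w * (L / (2 * Real.pi)) by positivity)]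
    have h2 : L / (2 * Real.pi) ≤ L := div_le_self hL0.le h2pi
    have h3 : ε / (8 * (|cc ψ| + 1)) * (|cc ψ| + 1) = ε / 8 := by
      have : 0 < |cc ψ| + 1 := by positivity
      field_simp
    calc 2 * w * (L / (2 * Real.pi)) * |cc ψ| ≤ 2 * w * L * |cc ψ| := by gcongr
      _ ≤ 2 * (ε / (8 * (|cc ψ| + 1)) * q) * L * (|cc ψ| + 1) := by
          gcongr
          linarith
      _ = 2 * (ε / (8 * (|cc ψ| + 1)) * (|cc ψ| + 1)) * (q * L) := by ring
      _ = ε / 4 * (q * L) := by rw [h3]; ring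
  have e1 : RR (fl ψ) B B L - q / 8 * (L / (2 * Real.pi)) * cc ψ =
      (RR (fl ψ) B B L - RR (fl ψ) P P L) + (RR (fl ψ) P P L - S) +
      (S - H * L / (2 * Real.pi) * cc ψ) +
      (H * L / (2 * Real.pi) * cc ψ - q / 8 * (L / (2 * Real.pi)) * cc ψ) := by ring
  rw [e1]
  have t1 := abs_add_le ((RR (fl ψ) B B L - RR (fl ψ) P P L) + (RR (fl ψ) P P L - S) +
      (S - H * L / (2 * Real.pi) * cc ψ))
      (H * L / (2 * Real.pi) * cc ψ - q / 8 * (L / (2 * Real.pi)) * cc ψ)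
  have t2 := abs_add_le ((RR (fl ψ) B B L - RR (fl ψ) P P L) + (RR (fl ψ) P P L - S))
      (S - H * L / (2 * Real.pi) * cc ψ)
  have t3 := abs_add_le (RR (fl ψ) B B L - RR (fl ψ) P P L) (RR (fl ψ) P P L - S)
  have hX : 0 < ε * (q * L) := by positivity
  linarith

end Pool.Agent.Y749.Rig
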