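import Pool.Agent.Y749.Rig.Two

/-! # Rigidity for families of measures: windows of two lengths -/

set_option autoImplicit false

open MeasureTheory Set Filter Topology
open scoped NNReal ENNReal

namespace Pool.Agent.Y749.Rig

variable {C : ℝ}

lemma icc_lim {μ : Measure ℝ} (h : Bdd C μ) (α β : ℝ) :
    Tendsto (fun n : ℕ => μ.real (Icc (α - 1 / ((n : ℝ) + 1)) (β + 1 / ((n : ℝ) + 1))))
      atTop (𝓝 (μ.real (Icc α β))) := by
  have h3 := tendsto_one_div_add_atTop_nhds_zero_nat (𝕜 := ℝ)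
  have h2 : ⋂ n : ℕ, Icc (α - 1 / ((n : ℝ) + 1)) (β + 1 / ((n : ℝ) + 1)) = Icc α β := by
    ext x
    simp only [mem_iInter, mem_Icc]
    constructor
    · intro hx
      constructor
      · have h4 : Tendsto (fun n : ℕ => α - 1 / ((n : ℝ) + 1)) atTop (𝓝 (α - 0)) :=
          h3.const_sub _
        rw [sub_zero] at h4
        exact le_of_tendsto' h4 fun n => (hx n).1
      · have h4 : Tendsto (fun n : ℕ => β + 1 / ((n : ℝ) + 1)) atTop (𝓝 (β + 0)) :=
          h3.const_add _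
        rw [add_zero] at h4
        exact ge_of_tendsto' h4 fun n => (hx n).2
    · intro hx n
      have : (0 : ℝ) < 1 / (n + 1) := by positivity
      exact ⟨by linarith [hx.1], by linarith [hx.2]⟩
  have h4 := tendsto_measure_iInter_atTop (μ := μ)
    (s := fun n : ℕ => Icc (α - 1 / ((n : ℝ) + 1)) (β + 1 / ((n : ℝ) + 1)))
    (fun n => measurableSet_Icc.nullMeasurableSet) ?_ ⟨0, (h.lt_top _ _).ne⟩
  · rw [h2] at h4
    exact (ENNReal.tendsto_toReal (h.lt_top _ _).ne).comp h4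
  · intro m n hmn
    have h5 : 1 / ((n : ℝ) + 1) ≤ 1 / ((m : ℝ) + 1) := by
      apply one_div_le_one_div_of_le (by positivity)
      have : (m : ℝ) ≤ n := by exact_mod_cast hmn
      linarith
    exact Icc_subset_Icc (by linarith) (by linarith)

lemma ioo_lim {μ : Measure ℝ} (h : Bdd C μ) (α β : ℝ) :
    Tendsto (fun n : ℕ => μ.real (Icc (α + 1 / ((n : ℝ) + 1)) (β - 1 / ((n : ℝ) + 1))))
      atTop (𝓝 (μ.real (Ioo α β))) := by
  have h3 := tendsto_one_div_add_atTop_nhds_zero_nat (𝕜 := ℝ)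
  have h2 : ⋃ n : ℕ, Icc (α + 1 / ((n : ℝ) + 1)) (β - 1 / ((n : ℝ) + 1)) = Ioo α β := by
    ext x
    simp only [mem_iUnion, mem_Icc, mem_Ioo]
    constructor
    · rintro ⟨n, hx⟩
      have : (0 : ℝ) < 1 / (n + 1) := by positivity
      exact ⟨by linarith [hx.1], by linarith [hx.2]⟩
    · intro hx
      have hpos : 0 < min (x - α) (β - x) := lt_min (by linarith [hx.1]) (by linarith [hx.2])
      obtain ⟨n, hn⟩ := (h3.eventually (ge_mem_nhds hpos)).exists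
      exact ⟨n, by linarith [hn.trans (min_le_left _ _)], by linarith [hn.trans (min_le_right _ _)]⟩
  have h4 := tendsto_measure_iUnion_atTop (μ := μ)
    (s := fun n : ℕ => Icc (α + 1 / ((n : ℝ) + 1)) (β - 1 / ((n : ℝ) + 1))) ?_
  · rw [h2] at h4
    exact (ENNReal.tendsto_toReal ((measure_mono Ioo_subset_Icc_self).trans_lt
      (h.lt_top _ _)).ne).comp h4
  · intro m n hmn
    have h5 : 1 / ((n : ℝ) + 1) ≤ 1 / ((m : ℝ) + 1) := by
      apply one_div_le_one_div_of_le (by positivity)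
      have : (m : ℝ) ≤ n := by exact_mod_cast hmn
      linarith
    exact Icc_subset_Icc (by linarith) (by linarith)

lemma icc_ioo {μ : Measure ℝ} [SFinite μ] (h : Bdd C μ) {b : ℝ} :
    ∀ᵐ x : ℝ, wf μ b x ≤ μ.real (Ioo (x - b) (x + b)) := by
  filter_upwards [ae_shift (no_atom μ) (-b), ae_shift (no_atom μ) b] with x h1 h2
  unfold wf
  rw [← sub_eq_add_neg] at h1
  have hsub : Icc (x - b) (x + b) ⊆ ({x - b} ∪ {x + b}) ∪ Ioo (x - b) (x + b) := by
    intro y hy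
    rcases hy.1.eq_or_lt with h3 | h3
    · left; left; exact h3.symm
    · rcases hy.2.eq_or_lt with h4 | h4
      · left; right; exact h4
      · right; exact ⟨h3, h4⟩
  have hfin : μ (Ioo (x - b) (x + b)) ≠ ⊤ :=
    ((measure_mono Ioo_subset_Icc_self).trans_lt (h.lt_top _ _)).ne
  have hle : μ (Icc (x - b) (x + b)) ≤ μ (Ioo (x - b) (x + b)) := by
    refine (measure_mono hsub).trans ((measure_union_le _ _).trans ?_)
    have : μ ({x - b} ∪ {x + b}) ≤ 0 := by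
      refine (measure_union_le _ _).trans ?_
      rw [h1, h2, add_zero]
    calc μ ({x - b} ∪ {x + b}) + μ (Ioo (x - b) (x + b)) ≤ 0 + μ (Ioo (x - b) (x + b)) := by
          gcongr
      _ = _ := zero_add _
  exact ENNReal.toReal_mono hfin hle

section

variable {M : ℝ → Measure ℝ} {U : Ultrafilter ℝ} {μ : Measure ℝ}

lemma lim_upper (hC : 0 ≤ C) (hM : ∀ᶠ T in atTop, Bdd C (M T)) (hU : (U : Filter ℝ) ≤ atTop)
    (hμ : ∀ f : ℝ → ℝ, Continuous f → QD f →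
      Integrable f μ ∧ Tendsto (fun T => ∫ x, f x ∂(M T)) U (𝓝 (∫ x, f x ∂μ))) {α β K : ℝ}
    (ho : ∀ ε : ℝ, 0 < ε → ∀ᶠ T in U, (M T).real (Icc α β) ≤ K + ε) :
    μ.real (Ioo α β) ≤ K := by
  have b1 := bdd_limit hU hC hM hμ
  refine le_of_tendsto' (ioo_lim b1 α β) fun n => ?_
  have hδ : (0 : ℝ) < 1 / ((n : ℝ) + 1) := by positivity
  obtain ⟨δ, hδd⟩ : ∃ δ : ℝ, δ = 1 / ((n : ℝ) + 1) := ⟨_, rfl⟩
  rw [← hδd] at hδ ⊢
  refine (tz_lower (by linarith) b1 hδ _ _).trans ?_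
  refine le_of_forall_pos_le_add fun ε hε => ?_
  refine le_of_tendsto (hμ _ (tz_cont (α + δ) (β - δ) δ) (tz_qd hδ _ _)).2 ?_
  filter_upwards [ho ε hε, hU hM] with T h1 h2
  refine (tz_upper hC h2 hδ _ _).trans ?_
  rwa [add_sub_cancel_right, sub_add_cancel]

lemma lim_lower (hC : 0 ≤ C) (hM : ∀ᶠ T in atTop, Bdd C (M T)) (hU : (U : Filter ℝ) ≤ atTop)
    (hμ : ∀ f : ℝ → ℝ, Continuous f → QD f →
      Integrable f μ ∧ Tendsto (fun T => ∫ x, f x ∂(M T)) U (𝓝 (∫ x, f x ∂μ))) {α β K : ℝ}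
    (ho : ∀ ε : ℝ, 0 < ε → ∀ᶠ T in U, K - ε ≤ (M T).real (Icc α β)) :
    K ≤ μ.real (Icc α β) := by
  have b1 := bdd_limit hU hC hM hμ
  refine ge_of_tendsto' (icc_lim b1 α β) fun n => ?_
  have hδ : (0 : ℝ) < 1 / ((n : ℝ) + 1) := by positivity
  obtain ⟨δ, hδd⟩ : ∃ δ : ℝ, δ = 1 / ((n : ℝ) + 1) := ⟨_, rfl⟩
  rw [← hδd] at hδ ⊢
  refine le_trans ?_ (tz_upper (by linarith) b1 hδ α β)
  refine le_of_forall_sub_le fun ε hε => ?_
  refine ge_of_tendsto (hμ _ (tz_cont α β δ) (tz_qd hδ _ _)).2 ?_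
  filter_upwards [ho ε hε, hU hM] with T h1 h2
  exact h1.trans (tz_lower hC h2 hδ _ _)

/-- one length -/
theorem one_len [SFinite μ] (hC : 2 ≤ C) (hM : ∀ᶠ T in atTop, Bdd C (M T))
    (hE : ∀ᶠ T in atTop, Ev (M T)) (hU : (U : Filter ℝ) ≤ atTop)
    (hμ : ∀ f : ℝ → ℝ, Continuous f → QD f →
      Integrable f μ ∧ Tendsto (fun T => ∫ x, f x ∂(M T)) U (𝓝 (∫ x, f x ∂μ)))
    {κ : ℝ} (hκ : 0 < κ) (hκ1 : κ ≤ 1)
    (ht : ∀ ψ, Adm κ ψ → Tendsto (fun T => ∫ x, fl ψ x ∂(M T)) atTop (𝓝 (cc ψ)))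
    {C' c : ℝ} (hC' : 0 ≤ C') (hc : 0 < c) {l : ℝ} (hl : 0 < l)
    (ho : (∀ α : ℝ, 0 < α → ∀ ε : ℝ, 0 < ε → ∀ᶠ T in atTop,
      (M T).real (Icc α (α + l)) ≤ (∫ x in α..(α + l), FF x) + C' * Real.exp (-(c * α)) + ε) ∨
      (∀ α : ℝ, 0 < α → ∀ ε : ℝ, 0 < ε → ∀ᶠ T in atTop,
      (∫ x in α..(α + l), FF x) - C' * Real.exp (-(c * α)) - ε ≤ (M T).real (Icc α (α + l)))) :
    ∀ᵐ x : ℝ, wf μ (l / 2) x = wf mG (l / 2) x := by
  have hC0 : 0 ≤ C := by linarith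
  have b1 := bdd_limit hU hC0 hM hμ
  have e1 := ev_limit hU hE hμ
  have hsfG := mG_sf
  have b2 : Bdd (4 * C) mG := fun a => (mG_bdd a).trans (ENNReal.ofReal_le_ofReal (by linarith))
  have htest : ∀ ψ, Adm κ ψ → ∫ x, fl ψ x ∂μ = ∫ x, fl ψ x ∂mG := by
    intro ψ hψ
    rw [mG_test hψ hκ1]
    exact tendsto_nhds_unique (hμ _ (fl_cont hψ.int) (fl_qd hψ)).2 ((ht ψ hψ).mono_left hU)
  have hb : 0 < l / 2 := by positivity
  rcases ho with ho | ho
  · refine rig3 (by linarith) b1 b2 e1 mG_ev hκ htest hC' hc hb ?_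
    filter_upwards [icc_ioo b1 (b := l / 2)] with y hy hby
    have h1 := lim_upper hC0 hM hU hμ (α := y - l / 2) (β := y + l / 2)
      (K := (∫ x in (y - l / 2)..(y + l / 2), FF x) + C' * Real.exp (-(c * (y - l / 2)))) ?_
    · have h2 : wf mG (l / 2) y = ∫ x in (y - l / 2)..(y + l / 2), FF x :=
        mG_real (by linarith) (by linarith)
      rw [h2]
      linarith
    · intro ε hε
      have h3 := ho (y - l / 2) (by linarith) ε hε
      rw [show y - l / 2 + l = y + l / 2 by ring] at h3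
      exact hU h3
  · have := rig3 (μ₁ := mG) (μ₂ := μ) (by linarith) b2 b1 mG_ev e1 hκ
      (fun ψ hψ => (htest ψ hψ).symm) hC' hc hb ?_
    · filter_upwards [this] with x hx using hx.symm
    refine ae_of_all _ fun y hby => ?_
    have h1 := lim_lower hC0 hM hU hμ (α := y - l / 2) (β := y + l / 2)
      (K := (∫ x in (y - l / 2)..(y + l / 2), FF x) - C' * Real.exp (-(c * (y - l / 2)))) ?_
    · have h2 : wf mG (l / 2) y = ∫ x in (y - l / 2)..(y + l / 2), FF x :=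
        mG_real (by linarith) (by linarith)
      rw [h2]
      unfold wf
      linarith
    · intro ε hε
      have h3 := ho (y - l / 2) (by linarith) ε hε
      rw [show y - l / 2 + l = y + l / 2 by ring] at h3
      exact hU h3

/-- from the windows of the limit to the family -/
theorem fam_end (hC : 2 ≤ C) (hM : ∀ᶠ T in atTop, Bdd C (M T)) (hU : (U : Filter ℝ) ≤ atTop)
    (hμ : ∀ f : ℝ → ℝ, Continuous f → QD f →
      Integrable f μ ∧ Tendsto (fun T => ∫ x, f x ∂(M T)) U (𝓝 (∫ x, f x ∂μ)))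
    (hwin : ∀ b : ℝ, 0 < b → ∀ᵐ x : ℝ, wf μ b x = wf mG b x) {α β : ℝ} (hα : 0 < α) (hαβ : α < β) :
    Tendsto (fun T => (M T).real (Icc α β)) U (𝓝 (∫ x in α..β, FF x)) := by
  have hC0 : 0 ≤ C := by linarith
  have b1 := bdd_limit hU hC0 hM hμ
  have b2 : Bdd (4 * C) mG := fun a => (mG_bdd a).trans (ENNReal.ofReal_le_ofReal (by linarith))
  rw [Metric.tendsto_nhds]
  intro ε hε
  obtain ⟨δ, hδ⟩ : ∃ δ : ℝ, δ = min (α / 4) (min ((β - α) / 8) (ε / 16)) := ⟨_, rfl⟩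
  have hδ0 : 0 < δ := by
    rw [hδ]; exact lt_min (by positivity) (lt_min (by linarith) (by positivity))
  have hδ1 : δ ≤ α / 4 := by rw [hδ]; exact min_le_left _ _
  have hδ2 : δ ≤ (β - α) / 8 := by rw [hδ]; exact (min_le_right _ _).trans (min_le_left _ _)
  have hδ3 : δ ≤ ε / 16 := by rw [hδ]; exact (min_le_right _ _).trans (min_le_right _ _)
  have u1 : ∫ x, tz α β δ x ∂μ ≤ (∫ x in α..β, FF x) + 4 * δ := by
    have s1 := tz_upper (by linarith) b1 hδ0 α β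
    have s2 := win_le b1 b2 hwin (α := α - δ) (β := β + δ) hδ0 (by linarith)
    rw [mG_real (by linarith) (by linarith)] at s2
    have s3 := FF_diff (δ := 2 * δ) (by linarith) hαβ.le
    have e3 : α - δ - δ = α - 2 * δ := by ring
    have e4 : β + δ + δ = β + 2 * δ := by ring
    rw [e3, e4] at s2
    linarith
  have l1 : (∫ x in α..β, FF x) - 4 * δ ≤ ∫ x, tz (α + δ) (β - δ) δ x ∂μ := by
    have s1 := tz_lower (by linarith) b1 hδ0 (α + δ) (β - δ)
    have s2 := win_le b2 b1 (fun b hb => by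
      filter_upwards [hwin b hb] with x hx using hx.symm) (α := α + 2 * δ) (β := β - 2 * δ) hδ0
      (by linarith)
    rw [mG_real (by linarith) (by linarith)] at s2
    have s3 := FF_diff (α := α + 2 * δ) (β := β - 2 * δ) (δ := 2 * δ) (by linarith) (by linarith)
    have e3 : α + 2 * δ - δ = α + δ := by ring
    have e4 : β - 2 * δ + δ = β - δ := by ring
    rw [e3, e4] at s2
    rw [add_sub_cancel_right, sub_add_cancel] at s3
    linarith
  have t1 := (hμ _ (tz_cont α β δ) (tz_qd hδ0 α β)).2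
  have t2 := (hμ _ (tz_cont (α + δ) (β - δ) δ) (tz_qd hδ0 (α + δ) (β - δ))).2
  filter_upwards [hU hM, t1.eventually (eventually_lt_nhds (show ∫ x, tz α β δ x ∂μ <
    (∫ x in α..β, FF x) + ε by linarith)), t2.eventually (eventually_gt_nhds
    (show (∫ x in α..β, FF x) - ε < ∫ x, tz (α + δ) (β - δ) δ x ∂μ by linarith))] with T h1 h2 h3
  rw [Real.dist_eq, abs_lt]
  have s1 := tz_lower hC0 h1 hδ0 α β
  have s2 := tz_upper hC0 h1 hδ0 (α + δ) (β - δ)
  rw [add_sub_cancel_right, sub_add_cancel] at s2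
  constructor <;> linarith

end

/-- rigidity from windows of two incommensurable lengths -/
theorem rigid2 {M : ℝ → Measure ℝ} (hC : 2 ≤ C) (hM : ∀ᶠ T in atTop, Bdd C (M T))
    (hE : ∀ᶠ T in atTop, Ev (M T)) {κ : ℝ} (hκ : 0 < κ) (hκ1 : κ ≤ 1)
    (ht : ∀ ψ, Adm κ ψ → Tendsto (fun T => ∫ x, fl ψ x ∂(M T)) atTop (𝓝 (cc ψ)))
    {C' c : ℝ} (hC' : 0 ≤ C') (hc : 0 < c) {l₁ l₂ : ℝ} (hl₁ : 0 < l₁) (hl₂ : 0 < l₂)
    (hir : Irrational (l₁ / l₂))
    (ho : ∀ l : ℝ, (l = l₁ ∨ l = l₂) → ((∀ α : ℝ, 0 < α → ∀ ε : ℝ, 0 < ε → ∀ᶠ T in atTop,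
      (M T).real (Icc α (α + l)) ≤ (∫ x in α..(α + l), FF x) + C' * Real.exp (-(c * α)) + ε) ∨
      (∀ α : ℝ, 0 < α → ∀ ε : ℝ, 0 < ε → ∀ᶠ T in atTop,
      (∫ x in α..(α + l), FF x) - C' * Real.exp (-(c * α)) - ε ≤ (M T).real (Icc α (α + l))))) :
    ∀ α β : ℝ, 0 < α → α < β →
      Tendsto (fun T => (M T).real (Icc α β)) atTop (𝓝 (∫ x in α..β, FF x)) := by
  intro α β hα hαβ
  rw [tendsto_iff_ultrafilter]
  intro U hU
  have hC0 : 0 ≤ C := by linarith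
  obtain ⟨μ, hsf, hμ⟩ := exists_limit hC0 hM U hU
  have b1 := bdd_limit hU hC0 hM hμ
  have hsfG := mG_sf
  have b2 : Bdd (4 * C) mG := fun a => (mG_bdd a).trans (ENNReal.ofReal_le_ofReal (by linarith))
  have w1 := one_len hC hM hE hU hμ hκ hκ1 ht hC' hc hl₁ (ho l₁ (Or.inl rfl))
  have w2 := one_len hC hM hE hU hμ hκ hκ1 ht hC' hc hl₂ (ho l₂ (Or.inr rfl))
  have hir2 : Irrational (l₁ / 2 / (l₂ / 2)) := by
    rwa [div_div_div_cancel_right₀ two_ne_zero]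
  exact fam_end hC hM hU hμ (fun b hb => two_len b1 b2 (by positivity) (by positivity) hir2 w1 w2 hb)
    hα hαβ

end Pool.Agent.Y749.Rig
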