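import Pool.Agent.Y749.Rig.Fin
import Pool.Agent.Y749.Rig.Fam
import Pool.Agent.Y750.PC.Fin2

/-! # The pair correlation conjecture implies that almost all zeros are on the line -/

set_option autoImplicit false

open MeasureTheory Set Filter Topology
open scoped NNReal ENNReal

namespace Pool.Agent.Y749.Rig

open Pool.Agent.Y750.PC (nstar nbad SP BP Z0 zmult Pc NT SP_finite)

lemma FF_Pc {α u : ℝ} (h0 : 0 < α) (h : α ≤ u) : ∫ x in α..u, FF x = Pc u - Pc α := by
  have hc : Continuous fun u : ℝ => 1 - Real.sinc (Real.pi * u) ^ 2 := by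
    have := Real.continuous_sinc
    fun_prop
  unfold Pc
  rw [intervalIntegral.integral_interval_sub_left (hc.intervalIntegrable _ _)
    (hc.intervalIntegrable _ _)]
  refine intervalIntegral.integral_congr fun x hx => ?_
  rw [uIcc_of_le h] at hx
  have hx0 : Real.pi * x ≠ 0 := by
    have := Real.pi_pos
    have : 0 < x := by linarith [hx.1]
    positivity
  simp only [FF]
  rw [Real.sinc_of_ne_zero hx0]

lemma nstar_ge {T α u : ℝ} (hT : 10 ≤ T) (hα : 0 < α) :
    nT T * (Mp T).real (Icc α u) ≤ (nstar T u : ℝ) := by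
  classical
  have hL := one_lt_log (show 3 ≤ T by linarith)
  have hn := nT_pos hT
  have hpi := Real.pi_pos
  rw [Mp_real hT measurableSet_Icc, mul_div_cancel₀ _ hn.ne']
  have e1 : (nstar T u : ℝ) = ∑ p ∈ (SP_finite T u).toFinset, (zmult p.1 * zmult p.2 : ℝ) := by
    unfold nstar
    rw [finsum_mem_eq_finite_toFinset_sum _ (SP_finite T u)]
    push_cast
    rfl
  have e2 : RR ((Icc α u).indicator fun _ => 1) (ZZ T) (ZZ T) (Real.log T) =
      ∑ p ∈ (ZZ T ×ˢ ZZ T).filter
      (fun p => (p.1.im - p.2.im) * Real.log T / (2 * Real.pi) ∈ Icc α u),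
      (zmult p.1 * zmult p.2 : ℝ) := by
    unfold RR
    rw [Finset.sum_filter, Finset.sum_product]
    refine Finset.sum_congr rfl fun s _ => Finset.sum_congr rfl fun w _ => ?_
    by_cases h : (s.im - w.im) * Real.log T / (2 * Real.pi) ∈ Icc α u
    · rw [indicator_of_mem h, if_pos h, mul_one]; rfl
    · rw [indicator_of_notMem h, if_neg h, mul_zero]
  rw [e1, e2]
  refine Finset.sum_le_sum_of_subset_of_nonneg ?_ fun p _ _ => by positivity
  intro p hp
  rw [Finset.mem_filter, Finset.mem_product, mem_ZZ, mem_ZZ] at hp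
  rw [Set.Finite.mem_toFinset]
  obtain ⟨⟨⟨h1, h2, h3, h4, h5⟩, ⟨h6, h7, h8, h9, h10⟩⟩, h11, h12⟩ := hp
  rw [le_div_iff₀ (by positivity)] at h11
  rw [div_le_iff₀ (by positivity)] at h12
  have hL0 : 0 < Real.log T := by linarith
  have hd : 0 < p.1.im - p.2.im := by
    have h13 : 0 < (p.1.im - p.2.im) * Real.log T := lt_of_lt_of_le (by positivity) h11
    exact pos_of_mul_pos_left h13 hL0.le
  refine ⟨⟨h1, h2, h3⟩, ⟨h6, h7, h8⟩, by linarith, h5, hd, ?_⟩
  rw [le_div_iff₀ hL0]
  linarith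

lemma NF_le (T : ℝ) (hT : 0 ≤ T) : NF T ≤ (nbad T : ℝ) + ∑ s ∈ ZZ 0, mm s := by
  classical
  have hfin : (BP T).Finite := by
    refine (zs_finite T).subset ?_
    rintro s ⟨⟨h1, h2, h3⟩, h4, h5, -⟩
    exact ⟨h1, h2, h3, h4.le, h5⟩
  have e1 : (nbad T : ℝ) = ∑ s ∈ hfin.toFinset, mm s := by
    unfold nbad
    rw [finsum_mem_eq_finite_toFinset_sum _ hfin]
    push_cast
    rfl
  rw [e1]
  unfold NF
  refine (Finset.sum_le_sum_of_subset_of_nonneg (t := hfin.toFinset ∪ ZZ 0) ?_
    fun s _ _ => mm_nonneg s).trans ?_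
  · intro s hs
    rw [Finset.mem_filter, mem_ZZ] at hs
    obtain ⟨⟨h1, h2, h3, h4, h5⟩, h6⟩ := hs
    rw [Finset.mem_union, Set.Finite.mem_toFinset, mem_ZZ]
    rcases h4.eq_or_lt with h | h
    · right; exact ⟨h1, h2, h3, h4, h.symm.le⟩
    · left; exact ⟨⟨h1, h2, h3⟩, h, h5, Or.inl h6⟩
  · have := Finset.sum_union_inter (s₁ := hfin.toFinset) (s₂ := ZZ 0) (f := mm)
    have h0 : 0 ≤ ∑ s ∈ hfin.toFinset ∩ ZZ 0, mm s := Finset.sum_nonneg fun s _ => mm_nonneg s
    linarith

theorem off_of_win (hw : ∀ α β : ℝ, 0 < α → α < β →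
      Tendsto (fun T => (Mp T).real (Icc α β)) atTop (𝓝 (∫ x in α..β, FF x))) :
    ∀ η : ℝ, 0 < η → ∀ᶠ T : ℝ in atTop, NF T ≤ η * (T * Real.log T) := by
  intro η hη
  obtain ⟨C, T0, hC, hT0, hm⟩ := Pool.Agent.Y750.PC.main 1 le_rfl
  have hpi := Real.pi_pos
  have hpi3 := Real.pi_gt_three
  obtain ⟨a, ha⟩ : ∃ a : ℝ, a = 2 + 16 * (1 + C) / η := ⟨_, rfl⟩
  have ha1 : 1 < a := by
    rw [ha]
    have : 0 < 16 * (1 + C) / η := by positivity
    linarith
  have ha0 : 0 < a := by linarith
  obtain ⟨α, hα⟩ : ∃ α : ℝ, α = 1 / a := ⟨_, rfl⟩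
  have hα0 : 0 < α := by rw [hα]; positivity
  have hα1 : α < a := by
    rw [hα, div_lt_iff₀ ha0]; nlinarith
  obtain ⟨K, hK⟩ : ∃ K : ℝ, K = ∑ s ∈ ZZ 0, mm s := ⟨_, rfl⟩
  have hK0 : 0 ≤ K := by rw [hK]; exact Finset.sum_nonneg fun s _ => mm_nonneg s
  have hev : ∀ᶠ T : ℝ in atTop, T0 ≤ T ∧ a * Real.log a ≤ 1 * Real.log T ∧
      a ^ 2 ≤ Real.log T ∧ 2 * K / η ≤ T := by
    refine (eventually_ge_atTop _).and ?_
    have h1 := Real.tendsto_log_atTop.eventually_ge_atTop (a * Real.log a)
    have h2 := Real.tendsto_log_atTop.eventually_ge_atTop (a ^ 2)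
    filter_upwards [h1, h2, eventually_ge_atTop (2 * K / η)] with T h1 h2 h3
    exact ⟨by linarith, h2, h3⟩
  have hmono : ∀ T : ℝ, Monotone fun u => (Mp T).real (Icc α u) := by
    intro T u v huv
    have := Mp_fin T
    exact measureReal_mono (Icc_subset_Icc le_rfl huv)
  have hdct : Tendsto (fun T : ℝ => ∫ u in (0 : ℝ)..a, (Pc u - (Mp T).real (Icc α u))) atTop
      (𝓝 (∫ u in (0 : ℝ)..a, Pc (min u α))) := by
    refine intervalIntegral.tendsto_integral_filter_of_dominated_convergence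
      (fun _ => 2 * a + 1) ?_ ?_ intervalIntegrable_const ?_
    · refine Eventually.of_forall fun T => ?_
      have h1 := ((Pool.Agent.Y750.PC.Pc_cont.intervalIntegrable (μ := volume) 0 a).sub
        ((hmono T).intervalIntegrable (μ := volume) (a := 0) (b := a)))
      rw [intervalIntegrable_iff] at h1
      exact h1.aestronglyMeasurable
    · have h1 := hw α a hα0 hα1
      filter_upwards [h1.eventually (eventually_lt_nhds (show ∫ x in α..a, FF x < a + 1 by
        rw [FF_Pc hα0 hα1.le]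
        have := Pool.Agent.Y750.PC.Pc_le ha0.le
        have := Pool.Agent.Y750.PC.Pc_nonneg hα0.le
        linarith))] with T hT
      refine Filter.Eventually.of_forall fun u hu => ?_
      rw [uIoc_of_le ha0.le] at hu
      have h3 : 0 ≤ Pc u := Pool.Agent.Y750.PC.Pc_nonneg hu.1.le
      have h4 : Pc u ≤ a := (Pool.Agent.Y750.PC.Pc_le hu.1.le).trans hu.2
      have h5 := hmono T hu.2
      simp only at h5
      have h6 : 0 ≤ (Mp T).real (Icc α u) := measureReal_nonneg
      rw [Real.norm_eq_abs, abs_le]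
      constructor <;> linarith
    · have hne : ∀ᵐ u ∂(volume : Measure ℝ), u ≠ α := by simp [ae_iff]
      filter_upwards [hne] with u hune hu
      rcases lt_or_ge u α with h | h
      · rw [min_eq_left h.le]
        refine tendsto_const_nhds.congr fun T => ?_
        rw [Icc_eq_empty (not_le.2 h)]
        simp
      · have h' : α < u := lt_of_le_of_ne h (Ne.symm hune)
        have h1 := (hw α u hα0 h').const_sub (Pc u)
        rw [FF_Pc hα0 h] at h1
        rw [min_eq_right h]
        have e : Pc u - (Pc u - Pc α) = Pc α := by ring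
        rwa [e] at h1
  have hlim : ∫ u in (0 : ℝ)..a, Pc (min u α) ≤ 1 := by
    have hPc := Pool.Agent.Y750.PC.Pc_cont
    calc ∫ u in (0 : ℝ)..a, Pc (min u α) ≤ ∫ u in (0 : ℝ)..a, α := by
          refine intervalIntegral.integral_mono_on ha0.le ?_ (by simp) fun u hu => ?_
          · apply Continuous.intervalIntegrable
            fun_prop
          · exact (Pool.Agent.Y750.PC.Pc_le (le_min hu.1 hα0.le)).trans (min_le_right _ _)
      _ = 1 := by
          rw [intervalIntegral.integral_const, hα, smul_eq_mul]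
          field_simp
          ring
  have h1 := (tendsto_order.1 hdct).2 2 (by linarith)
  filter_upwards [h1, hev] with T hT hT2
  have hT16 : 16 ≤ T := by linarith
  have hn := nT_pos (show 10 ≤ T by linarith)
  have hnT : NT T = nT T := rfl
  have h3 := (hm T hT2.1).2.2 a ha0 hT2.2.1
  have hL := one_lt_log (show 3 ≤ T by linarith)
  have hTL : 0 < T * Real.log T := by positivity
  have h4 : ∫ u in (0 : ℝ)..a, (Pc u * NT T - (nstar T u : ℝ)) ≤
      ∫ u in (0 : ℝ)..a, nT T * (Pc u - (Mp T).real (Icc α u)) := by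
    refine intervalIntegral.integral_mono_on ha0.le ?_ ?_ fun u hu => ?_
    · exact ((Pool.Agent.Y750.PC.Pc_cont.intervalIntegrable _ _).mul_const _).sub
        (Pool.Agent.Y750.PC.nstar_ii (by linarith) _ _)
    · exact ((Pool.Agent.Y750.PC.Pc_cont.intervalIntegrable (μ := volume) 0 a).sub
        ((hmono T).intervalIntegrable (μ := volume) (a := 0) (b := a))).const_mul _
    · have := nstar_ge (T := T) (u := u) (by linarith) hα0
      rw [hnT]
      linarith
  rw [intervalIntegral.integral_const_mul] at h4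
  have h5 : nT T * (∫ u in (0 : ℝ)..a, (Pc u - (Mp T).real (Icc α u))) ≤ nT T * 2 :=
    mul_le_mul_of_nonneg_left hT.le hn.le
  have h6 : nT T * 2 ≤ T * Real.log T := by
    unfold nT
    rw [div_mul_eq_mul_div, div_le_iff₀ (by positivity)]
    nlinarith
  have h7 : C * (T * Real.log T + a ^ 2 * T) ≤ 2 * C * (T * Real.log T) := by
    have : a ^ 2 * T ≤ Real.log T * T := by
      apply mul_le_mul_of_nonneg_right hT2.2.2.1 (by linarith)
    nlinarith
  have h8 : a / 2 * (nbad T : ℝ) ≤ (1 + 2 * C) * (T * Real.log T) := by linarith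
  have h9 : (nbad T : ℝ) ≤ η / 2 * (T * Real.log T) := by
    have h10 : (1 + 2 * C) * (T * Real.log T) ≤ a / 2 * (η / 2 * (T * Real.log T)) := by
      have h11 : 1 + 2 * C ≤ a / 2 * (η / 2) := by
        rw [ha]
        have : (2 + 16 * (1 + C) / η) / 2 * (η / 2) = η / 2 + 4 * (1 + C) := by
          field_simp
          ring
        rw [this]
        linarith
      calc (1 + 2 * C) * (T * Real.log T) ≤ (a / 2 * (η / 2)) * (T * Real.log T) := by gcongr
        _ = _ := by ring
    exact le_of_mul_le_mul_left (h8.trans h10) (by positivity)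
  have h12 := NF_le T (by linarith)
  rw [← hK] at h12
  have h13 : K ≤ η / 2 * (T * Real.log T) := by
    have := hT2.2.2.2
    rw [div_le_iff₀ hη] at this
    have h14 : T * 1 ≤ T * Real.log T := by gcongr
    nlinarith
  linarith

end Pool.Agent.Y749.Rig
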