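import Pool.Agent.Y749.Rig.Tst2

/-! # Test functions: modulation and windows -/

set_option autoImplicit false

open MeasureTheory Set Filter Topology
open Complex (I)
open scoped FourierTransform

namespace Pool.Agent.Y749.Rig

variable {κ : ℝ} {ψ : ℝ → ℝ}

/-- modulation -/
noncomputable def modu (ω : ℝ) (ψ : ℝ → ℝ) (α : ℝ) : ℝ := (ψ (α - ω) + ψ (α + ω)) / 2

lemma FL_modu (h : Adm κ ψ) (ω : ℝ) (z : ℂ) :
    FL (modu ω ψ) z = FL ψ z * Complex.cos (2 * Real.pi * ω * z) := by
  have h1 : ∀ ω : ℝ, ∫ α : ℝ, (ψ (α - ω) : ℂ) * Complex.exp (2 * Real.pi * I * α * z) =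
      Complex.exp (2 * Real.pi * I * ω * z) * FL ψ z := by
    intro ω
    have h2 := integral_sub_right_eq_self (μ := volume)
      (fun β : ℝ => (ψ β : ℂ) * Complex.exp (2 * Real.pi * I * (β + ω) * z)) ω
    unfold FL
    rw [← integral_const_mul]
    have h3 : ∀ β : ℝ, (ψ β : ℂ) * Complex.exp (2 * Real.pi * I * (β + ω) * z) =
        Complex.exp (2 * Real.pi * I * ω * z) * ((ψ β : ℂ) * Complex.exp (2 * Real.pi * I * β * z)) := by
      intro β
      rw [show 2 * Real.pi * I * (β + ω) * z = 2 * Real.pi * I * ω * z + 2 * Real.pi * I * β * z by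
        ring, Complex.exp_add]
      ring
    rw [← integral_congr_ae (ae_of_all _ h3), ← h2]
    refine integral_congr_ae (ae_of_all _ fun α => ?_)
    simp only
    congr 2
    push_cast; ring
  have hi : ∀ ω : ℝ, Integrable fun α : ℝ => (ψ (α - ω) : ℂ) * Complex.exp (2 * Real.pi * I * α * z) := by
    intro ω
    have h2 := ((int_exp_mul h z).const_mul (Complex.exp (2 * Real.pi * I * ω * z))).comp_sub_right ω
    refine h2.congr (ae_of_all _ fun α => ?_)
    simp only
    rw [show 2 * Real.pi * I * α * z = 2 * Real.pi * I * ω * z +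
      2 * Real.pi * I * ((α - ω : ℝ) : ℂ) * z by push_cast; ring, Complex.exp_add]
    ring
  have h4 : ∀ α : ℝ, ((modu ω ψ α : ℝ) : ℂ) * Complex.exp (2 * Real.pi * I * α * z) =
      (1 / 2) * ((ψ (α - ω) : ℂ) * Complex.exp (2 * Real.pi * I * α * z)) +
      (1 / 2) * ((ψ (α - -ω) : ℂ) * Complex.exp (2 * Real.pi * I * α * z)) := by
    intro α
    unfold modu
    rw [sub_neg_eq_add]
    push_cast; ring
  have h5 : FL (modu ω ψ) z = ∫ α : ℝ, ((modu ω ψ α : ℝ) : ℂ) * Complex.exp (2 * Real.pi * I * α * z) :=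
    rfl
  rw [h5, integral_congr_ae (ae_of_all _ h4), integral_add ((hi ω).const_mul _)
    ((hi (-ω)).const_mul _), integral_const_mul, integral_const_mul, h1, h1, Complex.cos]
  push_cast
  rw [show 2 * Real.pi * ω * z * I = 2 * Real.pi * I * ω * z by ring,
    show -(2 * Real.pi * ω * z) * I = 2 * Real.pi * I * -ω * z by ring]
  ring

lemma adm_modu (h : Adm κ ψ) (ω : ℝ) : Adm (κ + |ω|) (modu ω ψ) := by
  refine ⟨?_, ?_, ?_, ?_⟩
  · intro x
    unfold modu
    rw [show -x - ω = -(x + ω) by ring, show -x + ω = -(x - ω) by ring, h.even, h.even]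
    ring
  · obtain ⟨K, hK⟩ := h.lip
    refine ⟨K, fun x y => ?_⟩
    unfold modu
    have h1 := hK (x - ω) (y - ω)
    have h2 := hK (x + ω) (y + ω)
    rw [show x - ω - (y - ω) = x - y by ring] at h1
    rw [show x + ω - (y + ω) = x - y by ring] at h2
    have h3 : (ψ (x - ω) + ψ (x + ω)) / 2 - (ψ (y - ω) + ψ (y + ω)) / 2 =
        ((ψ (x - ω) - ψ (y - ω)) + (ψ (x + ω) - ψ (y + ω))) / 2 := by ring
    rw [h3, abs_div, abs_of_pos (by norm_num : (0:ℝ) < 2)]
    have h4 := abs_add_le (ψ (x - ω) - ψ (y - ω)) (ψ (x + ω) - ψ (y + ω))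
    linarith
  · intro x hx
    unfold modu
    rw [h.supp (x - ω), h.supp (x + ω)]
    · simp
    · have := abs_sub_abs_le_abs_sub x (-ω)
      rw [abs_neg, sub_neg_eq_add] at this
      linarith
    · have := abs_sub_abs_le_abs_sub x ω
      linarith
  · obtain ⟨C, hC⟩ := h.dec
    refine ⟨C, fun x y => ?_⟩
    rw [FL_modu h, norm_mul]
    have h1 := norm_cos_le (2 * Real.pi * ω * (x + y * I))
    have h3 : (2 * Real.pi * ω * (x + y * I) : ℂ).im = 2 * Real.pi * ω * y := by
      have : (2 * Real.pi * ω * (x + y * I) : ℂ) = ((2 * Real.pi * ω : ℝ) : ℂ) * (x + y * I) := by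
        push_cast; ring
      rw [this, Complex.im_ofReal_mul]; simp
    have h4 : |2 * Real.pi * ω * y| = 2 * Real.pi * |ω| * |y| := by
      rw [abs_mul, abs_mul, abs_of_pos (show 0 < 2 * Real.pi by positivity)]
    rw [h3, h4] at h1
    have h5 : C * Real.exp (2 * Real.pi * (κ + |ω|) * |y|) / (1 + x ^ 2) =
        C * Real.exp (2 * Real.pi * κ * |y|) / (1 + x ^ 2) *
          Real.exp (2 * Real.pi * |ω| * |y|) := by
      rw [show 2 * Real.pi * (κ + |ω|) * |y| = 2 * Real.pi * κ * |y| + 2 * Real.pi * |ω| * |y| by ring,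
        Real.exp_add]
      ring
    rw [h5]
    exact mul_le_mul (hC x y) h1 (norm_nonneg _) ((norm_nonneg _).trans (hC x y))

/-- the transform of the window -/
noncomputable def wb (b α : ℝ) : ℝ := ∫ s in (-b)..b, Real.cos (2 * Real.pi * α * s)

/-- windows -/
noncomputable def win (b : ℝ) (ψ : ℝ → ℝ) (α : ℝ) : ℝ := ψ α * wb b α

lemma wb_even (b α : ℝ) : wb b (-α) = wb b α := by
  unfold wb
  refine intervalIntegral.integral_congr fun s _ => ?_
  show Real.cos (2 * Real.pi * -α * s) = Real.cos (2 * Real.pi * α * s)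
  rw [show 2 * Real.pi * -α * s = -(2 * Real.pi * α * s) by ring, Real.cos_neg]

lemma wb_le {b : ℝ} (hb : 0 ≤ b) (α : ℝ) : |wb b α| ≤ 2 * b := by
  have := intervalIntegral.norm_integral_le_of_norm_le_const (a := -b) (b := b) (C := 1)
    (f := fun s => Real.cos (2 * Real.pi * α * s)) (fun s _ => Real.abs_cos_le_one _)
  rw [Real.norm_eq_abs, abs_of_nonneg (by linarith : 0 ≤ b - -b)] at this
  unfold wb
  linarith

lemma wb_lip {b : ℝ} (hb : 0 ≤ b) (α β : ℝ) :
    |wb b α - wb b β| ≤ (2 * Real.pi * b * (2 * b)) * |α - β| := by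
  have hc : ∀ α : ℝ, Continuous fun s : ℝ => Real.cos (2 * Real.pi * α * s) := by
    intro α; fun_prop
  unfold wb
  rw [← intervalIntegral.integral_sub ((hc α).intervalIntegrable _ _)
    ((hc β).intervalIntegrable _ _)]
  have := intervalIntegral.norm_integral_le_of_norm_le_const (a := -b) (b := b)
    (C := 2 * Real.pi * b * |α - β|)
    (f := fun s => Real.cos (2 * Real.pi * α * s) - Real.cos (2 * Real.pi * β * s)) (fun s hs => ?_)
  · rw [Real.norm_eq_abs, abs_of_nonneg (by linarith : 0 ≤ b - -b)] at this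
    refine this.trans (le_of_eq ?_)
    ring
  · rw [uIoc_of_le (by linarith)] at hs
    have hs' : |s| ≤ b := abs_le.2 ⟨hs.1.le, hs.2⟩
    rw [Real.norm_eq_abs]
    refine (Real.abs_cos_sub_cos_le _ _).trans ?_
    have hpi := Real.pi_pos
    rw [show 2 * Real.pi * α * s - 2 * Real.pi * β * s = 2 * Real.pi * (s * (α - β)) by ring,
      abs_mul (2 * Real.pi) _, abs_of_pos (show 0 < 2 * Real.pi by positivity), abs_mul s _,
      ← mul_assoc]
    gcongr

lemma wb_cont (b : ℝ) : Continuous (wb b) := by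
  unfold wb
  refine intervalIntegral.continuous_parametric_intervalIntegral_of_continuous' ?_ _ _
  fun_prop

lemma wb_exp (b α : ℝ) : ((wb b α : ℝ) : ℂ) = ∫ s in (-b)..b, Complex.exp (2 * Real.pi * I * α * s) := by
  have h1 : ∀ s : ℝ, Complex.exp (2 * Real.pi * I * α * s) =
      ((Real.cos (2 * Real.pi * α * s) : ℝ) : ℂ) + ((Real.sin (2 * Real.pi * α * s) : ℝ) : ℂ) * I :=
    fun s => exp_split α s
  simp_rw [h1]
  have c1 : Continuous fun s : ℝ => ((Real.cos (2 * Real.pi * α * s) : ℝ) : ℂ) := by fun_prop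
  have c2 : Continuous fun s : ℝ => ((Real.sin (2 * Real.pi * α * s) : ℝ) : ℂ) * I := by fun_prop
  rw [intervalIntegral.integral_add (c1.intervalIntegrable _ _) (c2.intervalIntegrable _ _),
    intervalIntegral.integral_mul_const, intervalIntegral.integral_ofReal,
    intervalIntegral.integral_ofReal]
  have h2 : ∫ s in (-b)..b, Real.sin (2 * Real.pi * α * s) = 0 := by
    have h3 := intervalIntegral.integral_comp_neg (a := -b) (b := b)
      fun s => Real.sin (2 * Real.pi * α * s)
    rw [neg_neg] at h3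
    have h4 : ∀ s, Real.sin (2 * Real.pi * α * -s) = - Real.sin (2 * Real.pi * α * s) := by
      intro s
      rw [mul_neg, Real.sin_neg]
    simp_rw [h4] at h3
    rw [intervalIntegral.integral_neg] at h3
    linarith
  rw [h2]
  simp [wb]

lemma FL_win (h : Adm κ ψ) {b : ℝ} (hb : 0 ≤ b) (z : ℂ) :
    FL (win b ψ) z = ∫ s in (-b)..b, FL ψ (z + s) := by
  unfold FL
  rw [intervalIntegral_integral_swap]
  · refine integral_congr_ae (ae_of_all _ fun α => ?_)
    simp only
    have h1 : ∀ s : ℝ, (ψ α : ℂ) * Complex.exp (2 * Real.pi * I * α * (z + s)) =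
        (ψ α : ℂ) * Complex.exp (2 * Real.pi * I * α * z) * Complex.exp (2 * Real.pi * I * α * s) := by
      intro s
      rw [mul_add, Complex.exp_add]; ring
    simp_rw [h1]
    rw [intervalIntegral.integral_const_mul, ← wb_exp]
    unfold win
    push_cast; ring
  · have hm : Integrable (fun p : ℝ × ℝ => (ψ p.2 : ℂ) * Complex.exp (2 * Real.pi * I * p.2 * z))
        ((volume.restrict (uIoc (-b) b)).prod volume) := by
      have : IsFiniteMeasure (volume.restrict (uIoc (-b) b)) := by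
        constructor
        rw [Measure.restrict_apply_univ, uIoc_of_le (by linarith), Real.volume_Ioc]
        exact ENNReal.ofReal_lt_top
      exact (int_exp_mul h z).comp_snd _
    have h2 : Integrable (fun p : ℝ × ℝ => (ψ p.2 : ℂ) * Complex.exp (2 * Real.pi * I * p.2 * z) *
        Complex.exp (2 * Real.pi * I * p.2 * p.1))
        ((volume.restrict (uIoc (-b) b)).prod volume) := by
      refine hm.mul_bdd (c := 1) ?_ ?_
      · apply Continuous.aestronglyMeasurable
        fun_prop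
      · refine ae_of_all _ fun p => ?_
        rw [Complex.norm_exp]
        simp
    refine h2.congr (ae_of_all _ fun p => ?_)
    simp only [Function.uncurry]
    rw [mul_add, Complex.exp_add]; ring

lemma shift_bound {b s x : ℝ} (hs : |s| ≤ b) :
    1 / (1 + (x + s) ^ 2) ≤ (2 * (1 + b ^ 2)) / (1 + x ^ 2) := by
  rw [div_le_div_iff₀ (by positivity) (by positivity)]
  have h1 : s ^ 2 ≤ b ^ 2 := by rw [← sq_abs s]; exact pow_le_pow_left₀ (abs_nonneg _) hs 2
  have h2 : x ^ 2 ≤ 2 * (x + s) ^ 2 + 2 * s ^ 2 := by nlinarith [sq_nonneg (x + 2 * s)]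
  nlinarith [sq_nonneg (x + s), sq_nonneg b, mul_nonneg (sq_nonneg b) (sq_nonneg (x + s))]

lemma adm_win (h : Adm κ ψ) {b : ℝ} (hb : 0 ≤ b) : Adm κ (win b ψ) := by
  refine ⟨?_, ?_, ?_, ?_⟩
  · intro x
    unfold win
    rw [h.even, wb_even]
  · obtain ⟨K, hK⟩ := h.lip
    obtain ⟨M, hM, hM2⟩ := h.bdd
    refine ⟨2 * b * K + M * (2 * Real.pi * b * (2 * b)), fun x y => ?_⟩
    unfold win
    have e : ψ x * wb b x - ψ y * wb b y = (ψ x - ψ y) * wb b x + ψ y * (wb b x - wb b y) := by ring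
    rw [e]
    refine (abs_add_le _ _).trans ?_
    rw [abs_mul, abs_mul]
    have h1 : |ψ x - ψ y| * |wb b x| ≤ K * |x - y| * (2 * b) :=
      mul_le_mul (hK x y) (wb_le hb x) (abs_nonneg _) ((abs_nonneg _).trans (hK x y))
    have h2 : |ψ y| * |wb b x - wb b y| ≤ M * ((2 * Real.pi * b * (2 * b)) * |x - y|) :=
      mul_le_mul (hM2 y) (wb_lip hb x y) (abs_nonneg _) hM
    linarith
  · intro x hx
    unfold win
    rw [h.supp x hx, zero_mul]
  · obtain ⟨C, hC⟩ := h.dec
    have hC0 : 0 ≤ C := by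
      have := (norm_nonneg _).trans (hC 0 0)
      simpa using this
    refine ⟨C * (2 * (1 + b ^ 2)) * (2 * b), fun x y => ?_⟩
    rw [FL_win h hb]
    have := intervalIntegral.norm_integral_le_of_norm_le_const (a := -b) (b := b)
      (C := C * (2 * (1 + b ^ 2)) * Real.exp (2 * Real.pi * κ * |y|) / (1 + x ^ 2))
      (f := fun s : ℝ => FL ψ (x + y * I + s)) (fun s hs => ?_)
    · rw [abs_of_nonneg (by linarith : 0 ≤ b - -b)] at this
      refine this.trans (le_of_eq ?_)
      ring
    · rw [uIoc_of_le (by linarith)] at hs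
      have hs' : |s| ≤ b := abs_le.2 ⟨hs.1.le, hs.2⟩
      have h1 := hC (x + s) y
      have h2 : (((x + s : ℝ) : ℂ) + y * I) = x + y * I + s := by push_cast; ring
      rw [h2] at h1
      refine h1.trans ?_
      have h3 := shift_bound (x := x) hs'
      calc C * Real.exp (2 * Real.pi * κ * |y|) / (1 + (x + s) ^ 2) =
            C * Real.exp (2 * Real.pi * κ * |y|) * (1 / (1 + (x + s) ^ 2)) := by ring
        _ ≤ C * Real.exp (2 * Real.pi * κ * |y|) * ((2 * (1 + b ^ 2)) / (1 + x ^ 2)) := by gcongr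
        _ = _ := by ring

/-- on the real line the windowed function is the integral over the window -/
lemma fl_win (h : Adm κ ψ) {b : ℝ} (hb : 0 ≤ b) (x : ℝ) :
    fl (win b ψ) x = ∫ s in (-b)..b, fl ψ (x + s) := by
  have h1 := FL_win h hb (x : ℂ)
  rw [FL_real (adm_win h hb).int (adm_win h hb).even] at h1
  have h2 : ∀ s : ℝ, FL ψ ((x : ℂ) + s) = ((fl ψ (x + s) : ℝ) : ℂ) := by
    intro s
    rw [← FL_real h.int h.even]
    push_cast; rfl
  simp_rw [h2] at h1
  rw [intervalIntegral.integral_ofReal] at h1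
  exact_mod_cast h1

lemma fl_modu (h : Adm κ ψ) (ω x : ℝ) :
    fl (modu ω ψ) x = fl ψ x * Real.cos (2 * Real.pi * ω * x) := by
  have h1 := FL_modu h ω (x : ℂ)
  rw [FL_real (adm_modu h ω).int (adm_modu h ω).even, FL_real h.int h.even] at h1
  have h2 : Complex.cos (2 * Real.pi * ω * x) = ((Real.cos (2 * Real.pi * ω * x) : ℝ) : ℂ) := by
    push_cast; rfl
  rw [h2, ← Complex.ofReal_mul] at h1
  exact_mod_cast h1

end Pool.Agent.Y749.Rig
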