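import Pool.Agent.Y749.Rig.Sec
import Pool.Agent.Y749.Rig.Tst3

/-! # Estimates for sums over pairs of zeros -/

set_option autoImplicit false

open MeasureTheory Set Filter Topology
open scoped NNReal ENNReal

namespace Pool.Agent.Y749.Rig

open H370 (Zf mult good_zeta mem_Zf NN zset)

/-- the sum over pairs -/
noncomputable def RR (φ : ℝ → ℝ) (A B : Finset ℂ) (L : ℝ) : ℝ :=
  ∑ s ∈ A, ∑ s' ∈ B, mm s * mm s' * φ ((s.im - s'.im) * L / (2 * Real.pi))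

lemma sumZ : Summable fun k : ℤ => 1 / (1 + (k : ℝ) ^ 2) := by
  have h := (Real.summable_one_div_int_pow (p := 2)).2 (by norm_num)
  refine Summable.of_norm_bounded_eventually h ?_
  have : ({0} : Set ℤ).Finite := Set.finite_singleton 0
  refine Set.Finite.subset this ?_
  intro k hk
  by_contra h0
  apply hk
  have hk0 : (k : ℝ) ≠ 0 := by exact_mod_cast h0
  show ‖1 / (1 + (k : ℝ) ^ 2)‖ ≤ 1 / (k : ℝ) ^ 2
  rw [Real.norm_eq_abs, abs_of_pos (by positivity)]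
  apply one_div_le_one_div_of_le (by positivity)
  linarith

/-- the constant of the kernel estimate -/
noncomputable def W0 : ℝ := ∑' k : ℤ, 80 / (1 + (k : ℝ) ^ 2)

lemma sumZ80 : Summable fun k : ℤ => 80 / (1 + (k : ℝ) ^ 2) := by
  refine (sumZ.mul_left 80).congr fun k => ?_
  ring

lemma W0_nonneg : 0 ≤ W0 := tsum_nonneg fun k => by positivity

/-- the tail -/
noncomputable def wR (R : ℝ) (k : ℤ) : ℝ := if R ≤ |(k : ℝ)| + 1 then 80 / (1 + (k : ℝ) ^ 2) else 0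

/-- the sum over the tail -/
noncomputable def WT (R : ℝ) : ℝ := ∑' k : ℤ, wR R k

lemma wR_nonneg (R : ℝ) (k : ℤ) : 0 ≤ wR R k := by
  unfold wR; split_ifs <;> positivity

lemma wR_le (R : ℝ) (k : ℤ) : wR R k ≤ 80 / (1 + (k : ℝ) ^ 2) := by
  unfold wR; split_ifs
  · exact le_rfl
  · positivity

lemma wR_sum (R : ℝ) : Summable (wR R) :=
  Summable.of_nonneg_of_le (wR_nonneg R) (wR_le R) sumZ80

lemma WT_nonneg (R : ℝ) : 0 ≤ WT R := tsum_nonneg (wR_nonneg R)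

lemma WT_tendsto : Tendsto WT atTop (𝓝 0) := by
  have h := tendsto_tsum_of_dominated_convergence (𝓕 := (atTop : Filter ℝ))
    (f := fun R k => wR R k) (g := fun _ : ℤ => (0 : ℝ))
    (bound := fun k : ℤ => 80 / (1 + (k : ℝ) ^ 2)) sumZ80 ?_ ?_
  · rwa [tsum_zero] at h
  · intro k
    refine tendsto_const_nhds.congr' ?_
    filter_upwards [eventually_gt_atTop (|(k : ℝ)| + 1)] with R hR
    show 0 = wR R k
    unfold wR
    rw [if_neg (not_le.2 hR)]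
  · refine Eventually.of_forall fun R k => ?_
    show ‖wR R k‖ ≤ _
    rw [Real.norm_eq_abs, abs_of_nonneg (wR_nonneg R k)]
    exact wR_le R k

lemma ker_floor (y : ℝ) : 1 / (1 + (y / (2 * Real.pi)) ^ 2) ≤ 80 / (1 + ((⌊y⌋ : ℤ) : ℝ) ^ 2) := by
  have h1 := Int.floor_le y
  have h2 := Int.lt_floor_add_one y
  obtain ⟨k, hk⟩ : ∃ k : ℝ, k = ((⌊y⌋ : ℤ) : ℝ) := ⟨_, rfl⟩
  rw [← hk] at h1 h2 ⊢
  have hpi := Real.pi_pos
  have hpi2 : (2 * Real.pi) ^ 2 ≤ 40 := by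
    have := Real.pi_lt_d2
    nlinarith
  rw [div_le_div_iff₀ (by positivity) (by positivity), one_mul]
  have h3 : k ^ 2 ≤ 2 * y ^ 2 + 2 := by nlinarith [sq_nonneg (y + (y - k)), sq_nonneg (y - k)]
  have h4 : y ^ 2 / 40 ≤ (y / (2 * Real.pi)) ^ 2 := by
    rw [div_pow]
    apply div_le_div_of_nonneg_left (sq_nonneg y) (by positivity) hpi2
  linarith

lemma sq_int {f : ℝ → ℝ} {Y : ℝ} (hY : 0 ≤ Y)
    (h : ∫⁻ t, ENNReal.ofReal (f t ^ 2) ≤ ENNReal.ofReal Y) : SB f (Real.sqrt Y) := by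
  unfold SB
  rwa [Real.sq_sqrt hY]

variable {A B : Finset ℂ} {L Y₁ Y₂ : ℝ}

theorem est_gen (hL : 0 < L) (hY₁ : 0 ≤ Y₁) (hY₂ : 0 ≤ Y₂) {a b : ℂ → ℝ} (ha : ∀ s, 0 ≤ a s)
    (hb : ∀ s, 0 ≤ b s)
    (h1 : ∫⁻ t, ENNReal.ofReal (fw A a L t ^ 2) ≤ ENNReal.ofReal Y₁)
    (h2 : ∫⁻ t, ENNReal.ofReal (fw B b L t ^ 2) ≤ ENNReal.ofReal Y₂) {g : ℝ → ℝ} {w : ℤ → ℝ}
    (hw0 : ∀ k, 0 ≤ w k) (hws : Summable w) (hg : ∀ y : ℝ, g (y / (2 * Real.pi)) ≤ w ⌊y⌋) :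
    ∑ s ∈ A, ∑ s' ∈ B, a s * b s' * g ((s.im - s'.im) * L / (2 * Real.pi)) ≤
      (∑' k, w k) * (L * Real.sqrt Y₁ * Real.sqrt Y₂) :=
  kl ha hb hL (Real.sqrt_nonneg _) (Real.sqrt_nonneg _) (sq_int hY₁ h1)
    (sq_int hY₂ h2) (K := fun s s' => g ((s.im - s'.im) * L / (2 * Real.pi))) hw0 hws
    fun s _ s' _ => hg _

theorem est_all (hL : 0 < L) (hY₁ : 0 ≤ Y₁) (hY₂ : 0 ≤ Y₂) {a b : ℂ → ℝ} (ha : ∀ s, 0 ≤ a s)
    (hb : ∀ s, 0 ≤ b s)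
    (h1 : ∫⁻ t, ENNReal.ofReal (fw A a L t ^ 2) ≤ ENNReal.ofReal Y₁)
    (h2 : ∫⁻ t, ENNReal.ofReal (fw B b L t ^ 2) ≤ ENNReal.ofReal Y₂) :
    ∑ s ∈ A, ∑ s' ∈ B, a s * b s' * (1 / (1 + ((s.im - s'.im) * L / (2 * Real.pi)) ^ 2)) ≤
      W0 * (L * Real.sqrt Y₁ * Real.sqrt Y₂) :=
  est_gen hL hY₁ hY₂ ha hb h1 h2 (g := fun x => 1 / (1 + x ^ 2)) (fun k => by positivity) sumZ80
    ker_floor

theorem est_tail (hL : 0 < L) (hY₁ : 0 ≤ Y₁) (hY₂ : 0 ≤ Y₂) {a b : ℂ → ℝ} (ha : ∀ s, 0 ≤ a s)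
    (hb : ∀ s, 0 ≤ b s)
    (h1 : ∫⁻ t, ENNReal.ofReal (fw A a L t ^ 2) ≤ ENNReal.ofReal Y₁)
    (h2 : ∫⁻ t, ENNReal.ofReal (fw B b L t ^ 2) ≤ ENNReal.ofReal Y₂) (R : ℝ) :
    ∑ s ∈ A, ∑ s' ∈ B, a s * b s' *
      (if R ≤ |(s.im - s'.im) * L / (2 * Real.pi)| then
        1 / (1 + ((s.im - s'.im) * L / (2 * Real.pi)) ^ 2) else 0) ≤
      WT R * (L * Real.sqrt Y₁ * Real.sqrt Y₂) := by
  refine est_gen hL hY₁ hY₂ ha hb h1 h2
    (g := fun x => if R ≤ |x| then 1 / (1 + x ^ 2) else 0) (w := wR R) (wR_nonneg R) (wR_sum R) ?_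
  intro y
  have hpi := Real.pi_gt_three
  by_cases h : R ≤ |y / (2 * Real.pi)|
  · simp only [if_pos h]
    have h3 : R ≤ |((⌊y⌋ : ℤ) : ℝ)| + 1 := by
      have h4 : |y / (2 * Real.pi)| ≤ |y| := by
        rw [abs_div, abs_of_pos (show (0:ℝ) < 2 * Real.pi by linarith)]
        apply div_le_self (abs_nonneg _)
        linarith
      have h5 : |y| ≤ |((⌊y⌋ : ℤ) : ℝ)| + 1 := by
        have h6 := Int.floor_le y
        have h7 := Int.lt_floor_add_one y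
        have h8 : |y - ((⌊y⌋ : ℤ) : ℝ)| ≤ 1 := by rw [abs_le]; constructor <;> linarith
        have h9 := abs_add_le (y - ((⌊y⌋ : ℤ) : ℝ)) ((⌊y⌋ : ℤ) : ℝ)
        rw [sub_add_cancel] at h9
        linarith
      linarith
    unfold wR
    rw [if_pos h3]
    exact ker_floor y
  · simp only [if_neg h]
    exact wR_nonneg R _

/-- a simple form of the estimate for `RR` -/
theorem RR_le (hL : 0 < L) (hY₁ : 0 ≤ Y₁) (hY₂ : 0 ≤ Y₂)
    (h1 : ∫⁻ t, ENNReal.ofReal (fw A mm L t ^ 2) ≤ ENNReal.ofReal Y₁)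
    (h2 : ∫⁻ t, ENNReal.ofReal (fw B mm L t ^ 2) ≤ ENNReal.ofReal Y₂) {φ : ℝ → ℝ} {b : ℝ}
    (hb : 0 ≤ b) (hφ : ∀ x, |φ x| ≤ b / (1 + x ^ 2)) :
    |RR φ A B L| ≤ b * W0 * (L * Real.sqrt Y₁ * Real.sqrt Y₂) := by
  unfold RR
  have h3 := est_all hL hY₁ hY₂ mm_nonneg mm_nonneg h1 h2
  calc |∑ s ∈ A, ∑ s' ∈ B, mm s * mm s' * φ ((s.im - s'.im) * L / (2 * Real.pi))| ≤
        ∑ s ∈ A, ∑ s' ∈ B, |mm s * mm s' * φ ((s.im - s'.im) * L / (2 * Real.pi))| :=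
        (Finset.abs_sum_le_sum_abs _ _).trans (Finset.sum_le_sum fun s _ =>
          Finset.abs_sum_le_sum_abs _ _)
    _ ≤ ∑ s ∈ A, ∑ s' ∈ B, b * (mm s * mm s' *
          (1 / (1 + ((s.im - s'.im) * L / (2 * Real.pi)) ^ 2))) := by
        refine Finset.sum_le_sum fun s _ => Finset.sum_le_sum fun s' _ => ?_
        rw [abs_mul, abs_of_nonneg (mul_nonneg (mm_nonneg s) (mm_nonneg s'))]
        calc mm s * mm s' * |φ ((s.im - s'.im) * L / (2 * Real.pi))| ≤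
              mm s * mm s' * (b / (1 + ((s.im - s'.im) * L / (2 * Real.pi)) ^ 2)) :=
              mul_le_mul_of_nonneg_left (hφ _) (mul_nonneg (mm_nonneg s) (mm_nonneg s'))
          _ = _ := by ring
    _ = b * ∑ s ∈ A, ∑ s' ∈ B, mm s * mm s' *
          (1 / (1 + ((s.im - s'.im) * L / (2 * Real.pi)) ^ 2)) := by
        rw [Finset.mul_sum]
        exact Finset.sum_congr rfl fun s _ => by rw [Finset.mul_sum]
    _ ≤ b * (W0 * (L * Real.sqrt Y₁ * Real.sqrt Y₂)) := mul_le_mul_of_nonneg_left h3 hb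
    _ = _ := by ring

/-- estimate with a kernel which is small in the bulk -/
theorem RR_split (hL : 0 < L) (hY₁ : 0 ≤ Y₁) (hY₂ : 0 ≤ Y₂) {a b : ℂ → ℝ} (ha : ∀ s, 0 ≤ a s)
    (hb : ∀ s, 0 ≤ b s)
    (h1 : ∫⁻ t, ENNReal.ofReal (fw A a L t ^ 2) ≤ ENNReal.ofReal Y₁)
    (h2 : ∫⁻ t, ENNReal.ofReal (fw B b L t ^ 2) ≤ ENNReal.ofReal Y₂) {K : ℂ → ℂ → ℝ} {R η β : ℝ}
    (hη : 0 ≤ η) (hβ : 0 ≤ β)
    (hK : ∀ s ∈ A, ∀ s' ∈ B, K s s' ≤
      (if R ≤ |(s.im - s'.im) * L / (2 * Real.pi)| then β else η) *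
        (1 / (1 + ((s.im - s'.im) * L / (2 * Real.pi)) ^ 2))) :
    ∑ s ∈ A, ∑ s' ∈ B, a s * b s' * K s s' ≤
      (η * W0 + β * WT R) * (L * Real.sqrt Y₁ * Real.sqrt Y₂) := by
  have e1 := est_all hL hY₁ hY₂ ha hb h1 h2
  have e2 := est_tail hL hY₁ hY₂ ha hb h1 h2 R
  calc ∑ s ∈ A, ∑ s' ∈ B, a s * b s' * K s s' ≤
        ∑ s ∈ A, ∑ s' ∈ B, (η * (a s * b s' *
          (1 / (1 + ((s.im - s'.im) * L / (2 * Real.pi)) ^ 2))) + β * (a s * b s' *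
      (if R ≤ |(s.im - s'.im) * L / (2 * Real.pi)| then
        1 / (1 + ((s.im - s'.im) * L / (2 * Real.pi)) ^ 2) else 0))) := by
        refine Finset.sum_le_sum fun s hs => Finset.sum_le_sum fun s' hs' => ?_
        refine (mul_le_mul_of_nonneg_left (hK s hs s' hs') (mul_nonneg (ha s) (hb s'))).trans ?_
        have h3 : 0 ≤ a s * b s' := mul_nonneg (ha s) (hb s')
        by_cases h : R ≤ |(s.im - s'.im) * L / (2 * Real.pi)|
        · rw [if_pos h, if_pos h]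
          have : 0 ≤ η * (a s * b s' * (1 / (1 + ((s.im - s'.im) * L / (2 * Real.pi)) ^ 2))) := by
            positivity
          linarith
        · rw [if_neg h, if_neg h]
          apply le_of_eq; ring
    _ = η * (∑ s ∈ A, ∑ s' ∈ B, a s * b s' *
          (1 / (1 + ((s.im - s'.im) * L / (2 * Real.pi)) ^ 2))) +
        β * ∑ s ∈ A, ∑ s' ∈ B, a s * b s' *
      (if R ≤ |(s.im - s'.im) * L / (2 * Real.pi)| then
        1 / (1 + ((s.im - s'.im) * L / (2 * Real.pi)) ^ 2) else 0) := by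
        rw [Finset.mul_sum, Finset.mul_sum, ← Finset.sum_add_distrib]
        refine Finset.sum_congr rfl fun s _ => ?_
        rw [Finset.mul_sum, Finset.mul_sum, ← Finset.sum_add_distrib]
    _ ≤ η * (W0 * (L * Real.sqrt Y₁ * Real.sqrt Y₂)) +
        β * (WT R * (L * Real.sqrt Y₁ * Real.sqrt Y₂)) := by gcongr
    _ = _ := by ring

end Pool.Agent.Y749.Rig
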