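import Pool.Agent.Y749.Rig.Fin

/-! # The form factor: basic properties -/

set_option autoImplicit false

open MeasureTheory Set Filter Topology
open scoped NNReal ENNReal

namespace Pool.Agent.Y749.Rig

/-- the weight -/
noncomputable def ww (u : ℝ) : ℝ := 4 / (4 + u ^ 2)

lemma ww_pos (u : ℝ) : 0 < ww u := by unfold ww; positivity

lemma ww_le (u : ℝ) : ww u ≤ 1 := by
  unfold ww
  rw [div_le_one (by positivity)]
  nlinarith [sq_nonneg u]

lemma ww_zero : ww 0 = 1 := by unfold ww; norm_num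

lemma ww_sub (u : ℝ) : |1 - ww u| ≤ u ^ 2 / 4 := by
  have h : 1 - ww u = u ^ 2 / (4 + u ^ 2) := by
    unfold ww
    field_simp
    ring
  rw [h, abs_of_nonneg (by positivity)]
  apply div_le_div_of_nonneg_left (by positivity) (by norm_num)
  nlinarith [sq_nonneg u]

lemma ww_cont : Continuous ww := by
  unfold ww
  exact continuous_const.div (by fun_prop) fun u => by positivity

lemma ww_int (u : ℝ) : ww u = 2 * ∫ s in Ioi (0 : ℝ), Real.exp (-(2 * s)) * Real.cos (s * u) := by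
  have hre : ((-2 : ℂ) + u * Complex.I).re < 0 := by simp
  have h1 := integral_exp_mul_complex_Ioi hre 0
  have h2 := congrArg Complex.re h1
  have hi := integrableOn_exp_mul_complex_Ioi hre 0
  have h3 : (∫ x : ℝ in Ioi 0, Complex.exp ((-2 + u * Complex.I) * x)).re =
      ∫ x : ℝ in Ioi 0, (Complex.exp ((-2 + u * Complex.I) * x)).re := by
    have := integral_re (𝕜 := ℂ) hi
    simpa using this.symm
  rw [h3] at h2
  have h4 : ∀ x : ℝ, (Complex.exp ((-2 + u * Complex.I) * x)).re =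
      Real.exp (-(2 * x)) * Real.cos (x * u) := by
    intro x
    rw [Complex.exp_re]
    congr 2
    · simp
    · simp; ring
  simp_rw [h4] at h2
  rw [h2]
  have h5 : (-2 + u * Complex.I : ℂ) ≠ 0 := by
    intro h
    have := congrArg Complex.re h
    simp at this
  have h6 : (-Complex.exp ((-2 + (u : ℂ) * Complex.I) * ((0 : ℝ) : ℂ)) / (-2 + u * Complex.I)).re =
      2 / (4 + u ^ 2) := by
    rw [Complex.ofReal_zero, mul_zero, Complex.exp_zero, Complex.div_re]
    simp [Complex.normSq_apply]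
    field_simp
    ring
  rw [h6]
  unfold ww
  ring

/-- positivity -/
lemma sq_form {ι : Type*} (A : Finset ι) (m g : ι → ℝ) (t : ℝ) :
    0 ≤ ∑ s ∈ A, ∑ s' ∈ A, m s * m s' * Real.cos (t * (g s - g s')) := by
  have h : ∑ s ∈ A, ∑ s' ∈ A, m s * m s' * Real.cos (t * (g s - g s')) =
      (∑ s ∈ A, m s * Real.cos (t * g s)) ^ 2 + (∑ s ∈ A, m s * Real.sin (t * g s)) ^ 2 := by
    rw [sq, sq, Finset.sum_mul_sum, Finset.sum_mul_sum, ← Finset.sum_add_distrib]
    refine Finset.sum_congr rfl fun s _ => ?_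
    rw [← Finset.sum_add_distrib]
    refine Finset.sum_congr rfl fun s' _ => ?_
    rw [mul_sub, Real.cos_sub]
    ring
  rw [h]
  positivity

lemma pd {ι : Type*} (A : Finset ι) (m g : ι → ℝ) (t : ℝ) :
    0 ≤ ∑ s ∈ A, ∑ s' ∈ A, m s * m s' * (Real.cos (t * (g s - g s')) * ww (g s - g s')) := by
  have hint : ∀ u : ℝ, IntegrableOn (fun s : ℝ => Real.exp (-(2 * s)) * Real.cos (s * u)) (Ioi 0) := by
    intro u
    have h1 : IntegrableOn (fun s : ℝ => Real.exp (-(2 * s))) (Ioi 0) := by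
      have := integrableOn_exp_mul_Ioi (a := -2) (by norm_num) 0
      refine this.congr_fun (fun s _ => ?_) measurableSet_Ioi
      simp only
      congr 1
      ring
    refine Integrable.mul_bdd (c := 1) h1 (by fun_prop) (ae_of_all _ fun s => ?_)
    rw [Real.norm_eq_abs]
    exact Real.abs_cos_le_one _
  have h : ∑ s ∈ A, ∑ s' ∈ A, m s * m s' * (Real.cos (t * (g s - g s')) * ww (g s - g s')) =
      ∫ x in Ioi (0 : ℝ), Real.exp (-(2 * x)) *
        ((∑ s ∈ A, ∑ s' ∈ A, m s * m s' * Real.cos ((t + x) * (g s - g s'))) +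
          ∑ s ∈ A, ∑ s' ∈ A, m s * m s' * Real.cos ((t - x) * (g s - g s'))) := by
    have e : ∀ x : ℝ, Real.exp (-(2 * x)) *
        ((∑ s ∈ A, ∑ s' ∈ A, m s * m s' * Real.cos ((t + x) * (g s - g s'))) +
          ∑ s ∈ A, ∑ s' ∈ A, m s * m s' * Real.cos ((t - x) * (g s - g s'))) =
        ∑ s ∈ A, ∑ s' ∈ A, (m s * m s' * Real.cos (t * (g s - g s')) * 2) *
          (Real.exp (-(2 * x)) * Real.cos (x * (g s - g s'))) := by
      intro x
      rw [← Finset.sum_add_distrib, Finset.mul_sum]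
      refine Finset.sum_congr rfl fun s _ => ?_
      rw [← Finset.sum_add_distrib, Finset.mul_sum]
      refine Finset.sum_congr rfl fun s' _ => ?_
      rw [add_mul, sub_mul, Real.cos_add, Real.cos_sub]
      ring
    simp_rw [e]
    rw [integral_finsetSum _ fun s _ => ?_]
    · refine Finset.sum_congr rfl fun s _ => ?_
      rw [integral_finsetSum _ fun s' _ => ?_]
      · refine Finset.sum_congr rfl fun s' _ => ?_
        rw [integral_const_mul, ww_int]
        ring
      · exact (hint _).const_mul _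
    · exact integrable_finsetSum _ fun s' _ => (hint _).const_mul _
  rw [h]
  refine setIntegral_nonneg measurableSet_Ioi fun x _ => ?_
  exact mul_nonneg (Real.exp_pos _).le (add_nonneg (sq_form A m g _) (sq_form A m g _))

/-- the form factor -/
noncomputable def Fr (T α : ℝ) : ℝ :=
  ∫ x, Real.cos (2 * Real.pi * α * x) * ww (2 * Real.pi * x / Real.log T) ∂(Mp T)

lemma Fr_nonneg {T : ℝ} (hT : 10 ≤ T) (α : ℝ) : 0 ≤ Fr T α := by
  have hn := nT_pos hT
  have hL := one_lt_log (show 3 ≤ T by linarith)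
  unfold Fr
  rw [Mp_integral hT (fun x => Real.cos (2 * Real.pi * α * x) * ww (2 * Real.pi * x / Real.log T))]
  refine div_nonneg ?_ hn.le
  unfold RR
  have h := pd (ZZ T) mm (fun s : ℂ => s.im) (α * Real.log T)
  refine h.trans (le_of_eq ?_)
  refine Finset.sum_congr rfl fun s _ => Finset.sum_congr rfl fun s' _ => ?_
  have hpi := Real.pi_pos
  congr 3
  · field_simp
  · field_simp

lemma Fr_even (T α : ℝ) : Fr T (-α) = Fr T α := by
  unfold Fr
  congr 1
  ext x
  rw [show 2 * Real.pi * -α * x = -(2 * Real.pi * α * x) by ring, Real.cos_neg]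

lemma gw_cont {T : ℝ} (α : ℝ) :
    Continuous fun x => Real.cos (2 * Real.pi * α * x) * ww (2 * Real.pi * x / Real.log T) := by
  have := ww_cont
  fun_prop

lemma Fr_cont (T : ℝ) : Continuous (Fr T) := by
  have := Mp_fin T
  unfold Fr
  refine continuous_of_dominated (bound := fun _ => (1 : ℝ)) ?_ ?_ (integrable_const _) ?_
  · intro α
    exact (gw_cont α).aestronglyMeasurable
  · intro α
    refine ae_of_all _ fun x => ?_
    rw [norm_mul, Real.norm_eq_abs, Real.norm_eq_abs, abs_of_pos (ww_pos _)]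
    have h1 := Real.abs_cos_le_one (2 * Real.pi * α * x)
    have h2 := ww_le (2 * Real.pi * x / Real.log T)
    have h3 := ww_pos (2 * Real.pi * x / Real.log T)
    nlinarith [abs_nonneg (Real.cos (2 * Real.pi * α * x))]
  · refine ae_of_all _ fun x => ?_
    fun_prop

lemma Mp_sfin (T : ℝ) : SFinite (Mp T) := by
  have := Mp_fin T
  infer_instance

/-- the pairing with a test function -/
lemma Fr_pair {T : ℝ} {ψ : ℝ → ℝ} (hψ : Integrable ψ) :
    ∫ α, ψ α * Fr T α = ∫ x, fl ψ x * ww (2 * Real.pi * x / Real.log T) ∂(Mp T) := by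
  have hf := Mp_fin T
  have hs := Mp_sfin T
  unfold Fr fl
  have e1 : ∀ α : ℝ, ψ α * ∫ x, Real.cos (2 * Real.pi * α * x) * ww (2 * Real.pi * x / Real.log T)
      ∂(Mp T) = ∫ x, ψ α * (Real.cos (2 * Real.pi * α * x) * ww (2 * Real.pi * x / Real.log T))
      ∂(Mp T) := fun α => (integral_const_mul _ _).symm
  simp_rw [e1]
  rw [integral_integral_swap]
  · refine integral_congr_ae (ae_of_all _ fun x => ?_)
    simp only
    rw [← integral_mul_const]
    refine integral_congr_ae (ae_of_all _ fun α => ?_)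
    simp only
    ring
  · have h1 : Integrable (fun p : ℝ × ℝ => ψ p.1 * (1 : ℝ)) (volume.prod (Mp T)) :=
      hψ.mul_prod (integrable_const (1 : ℝ))
    simp only [mul_one] at h1
    refine Integrable.mul_bdd (c := 1) h1 ?_ (ae_of_all _ fun p => ?_)
    · have := ww_cont
      apply Continuous.aestronglyMeasurable
      fun_prop
    · rw [norm_mul, Real.norm_eq_abs, Real.norm_eq_abs, abs_of_pos (ww_pos _)]
      have h1 := Real.abs_cos_le_one (2 * Real.pi * p.1 * p.2)
      have h2 := ww_le (2 * Real.pi * p.2 / Real.log T)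
      have h3 := ww_pos (2 * Real.pi * p.2 / Real.log T)
      nlinarith [abs_nonneg (Real.cos (2 * Real.pi * p.1 * p.2))]

/-- removal of the weight -/
theorem ww_remove {g : ℝ → ℝ} (hg : Continuous g) (hq : QD g) :
    Tendsto (fun T => (∫ x, g x * ww (2 * Real.pi * x / Real.log T) ∂(Mp T)) -
      ∫ x, g x ∂(Mp T)) atTop (𝓝 0) := by
  obtain ⟨C, hC, hB⟩ := Mp_bdd
  obtain ⟨B, hB'⟩ := hq
  have hB0 : 0 ≤ B := by
    have := (abs_nonneg _).trans (hB' 0)
    simpa using this
  have hC0 : 0 ≤ C := by linarith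
  have hpi := Real.pi_pos
  rw [Metric.tendsto_nhds]
  intro ε hε
  -- choose n
  obtain ⟨n, hn⟩ : ∃ n : ℕ, B * (2 * C * DD n) < ε / 2 := by
    have h1 : Tendsto (fun n => B * (2 * C * DD n)) atTop (𝓝 (B * (2 * C * 0))) :=
      (DD_tendsto.const_mul _).const_mul _
    rw [mul_zero, mul_zero] at h1
    exact (h1.eventually (gt_mem_nhds (show (0 : ℝ) < ε / 2 by positivity))).exists
  -- the main part
  obtain ⟨K, hK⟩ : ∃ K : ℝ, K = B * (Real.pi ^ 2 * n ^ 2) * (2 * C * DD 0) := ⟨_, rfl⟩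
  have hK0 : 0 ≤ K := by
    rw [hK]
    have := DD_nonneg 0
    positivity
  filter_upwards [hB, eventually_ge_atTop 10,
    Real.tendsto_log_atTop.eventually_ge_atTop (2 * K / ε + 1)] with T hT hT10 hLT
  have hL := one_lt_log (show 3 ≤ T by linarith)
  obtain ⟨L, hLd⟩ : ∃ L : ℝ, L = Real.log T := ⟨_, rfl⟩
  rw [← hLd] at hL hLT ⊢
  have hfin := Mp_fin T
  have hwc := ww_cont
  have i1 : Integrable g (Mp T) := Bdd.integrable hC0 hT hg ⟨B, hB'⟩
  have i2 : Integrable (fun x => g x * ww (2 * Real.pi * x / L)) (Mp T) := by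
    refine i1.mul_bdd (c := 1) (by fun_prop) (ae_of_all _ fun x => ?_)
    rw [Real.norm_eq_abs, abs_of_pos (ww_pos _)]
    exact ww_le _
  rw [Real.dist_eq, sub_zero, ← integral_sub i2 i1]
  have i3 : Integrable (fun x : ℝ => 1 / (1 + x ^ 2)) (Mp T) := by
    refine Bdd.integrable hC0 hT ?_ ⟨1, fun x => ?_⟩
    · exact continuous_const.div (by fun_prop) fun x => by positivity
    · rw [abs_of_pos (by positivity)]
  have tail : ∀ k : ℕ, ∫ x in {x : ℝ | (k : ℝ) ≤ |x|}, 1 / (1 + x ^ 2) ∂(Mp T) ≤ 2 * C * DD k := by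
    intro k
    have h1 := lint_le hC0 hT k
    rw [integral_eq_lintegral_of_nonneg_ae (ae_of_all _ fun x => by positivity)
      i3.aestronglyMeasurable.restrict]
    have h2 : 0 ≤ 2 * C * DD k := by
      have := DD_nonneg k
      positivity
    exact ENNReal.toReal_le_of_le_ofReal h2 h1
  have hS : MeasurableSet {x : ℝ | (n : ℝ) ≤ |x|} :=
    measurableSet_le measurable_const continuous_abs.measurable
  have key : ∀ x : ℝ, |g x * ww (2 * Real.pi * x / L) - g x| ≤
      {x : ℝ | (n : ℝ) ≤ |x|}.indicator (fun x => B * (1 / (1 + x ^ 2))) x +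
      B * (Real.pi ^ 2 * n ^ 2) / L ^ 2 * (1 / (1 + x ^ 2)) := by
    intro x
    have h1 : g x * ww (2 * Real.pi * x / L) - g x = -(g x * (1 - ww (2 * Real.pi * x / L))) := by
      ring
    rw [h1, abs_neg, abs_mul]
    have h0 : 0 ≤ B * (Real.pi ^ 2 * n ^ 2) / L ^ 2 * (1 / (1 + x ^ 2)) := by positivity
    by_cases hx : (n : ℝ) ≤ |x|
    · rw [indicator_of_mem (show x ∈ {x : ℝ | (n : ℝ) ≤ |x|} from hx)]
      have h2 : |1 - ww (2 * Real.pi * x / L)| ≤ 1 := by
        rw [abs_of_nonneg (by linarith [ww_le (2 * Real.pi * x / L)])]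
        linarith [ww_pos (2 * Real.pi * x / L)]
      have h3 : |g x| * |1 - ww (2 * Real.pi * x / L)| ≤ B / (1 + x ^ 2) * 1 := by
        gcongr
        exact hB' x
      rw [mul_one] at h3
      rw [mul_one_div]
      linarith
    · rw [indicator_of_notMem (show x ∉ {x : ℝ | (n : ℝ) ≤ |x|} from hx), zero_add]
      push Not at hx
      have h2 := ww_sub (2 * Real.pi * x / L)
      have h4 : (2 * Real.pi * x / L) ^ 2 / 4 ≤ Real.pi ^ 2 * n ^ 2 / L ^ 2 := by
        have : x ^ 2 ≤ (n : ℝ) ^ 2 := by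
          rw [← sq_abs x]
          exact pow_le_pow_left₀ (abs_nonneg _) hx.le 2
        have e : (2 * Real.pi * x / L) ^ 2 / 4 = Real.pi ^ 2 * x ^ 2 / L ^ 2 := by
          field_simp
          ring
        rw [e]
        gcongr
      calc |g x| * |1 - ww (2 * Real.pi * x / L)| ≤ B / (1 + x ^ 2) *
            (Real.pi ^ 2 * n ^ 2 / L ^ 2) := by
            gcongr
            · exact hB' x
            · linarith
        _ = _ := by ring
  have i4 : Integrable ({x : ℝ | (n : ℝ) ≤ |x|}.indicator (fun x => B * (1 / (1 + x ^ 2)))) (Mp T) :=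
    (i3.const_mul B).indicator hS
  have h1 : |∫ x, (g x * ww (2 * Real.pi * x / L) - g x) ∂(Mp T)| ≤
      ∫ x, ({x : ℝ | (n : ℝ) ≤ |x|}.indicator (fun x => B * (1 / (1 + x ^ 2))) x +
      B * (Real.pi ^ 2 * n ^ 2) / L ^ 2 * (1 / (1 + x ^ 2))) ∂(Mp T) := by
    rw [← Real.norm_eq_abs]
    refine norm_integral_le_of_norm_le (i4.add (i3.const_mul _)) (ae_of_all _ fun x => ?_)
    rw [Real.norm_eq_abs]
    exact key x
  rw [integral_add i4 (i3.const_mul _), integral_indicator hS, integral_const_mul,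
    integral_const_mul] at h1
  have t1 := tail n
  have t2 := tail 0
  have e0 : {x : ℝ | ((0 : ℕ) : ℝ) ≤ |x|} = univ := by
    ext x; simp
  rw [e0, setIntegral_univ] at t2
  have h5 : B * ∫ x in {x : ℝ | (n : ℝ) ≤ |x|}, 1 / (1 + x ^ 2) ∂(Mp T) ≤ B * (2 * C * DD n) := by
    gcongr
  have h6 : B * (Real.pi ^ 2 * n ^ 2) / L ^ 2 * ∫ x, 1 / (1 + x ^ 2) ∂(Mp T) ≤ K / L ^ 2 := by
    calc _ ≤ B * (Real.pi ^ 2 * n ^ 2) / L ^ 2 * (2 * C * DD 0) := by gcongr
      _ = _ := by rw [hK]; ring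
  have h7 : K / L ^ 2 < ε / 2 := by
    rw [div_lt_iff₀ (by positivity)]
    have h8 : 2 * K / ε ≤ L - 1 := by linarith
    rw [div_le_iff₀ hε] at h8
    nlinarith
  linarith

/-- the limits of the pairings -/
theorem Fr_lim {ψ : ℝ → ℝ} (hi : Integrable ψ) (hq : QD (fl ψ)) {l : Filter ℝ} (hl : l ≤ atTop)
    {c : ℝ} (h : Tendsto (fun T => ∫ x, fl ψ x ∂(Mp T)) l (𝓝 c)) :
    Tendsto (fun T => ∫ α, ψ α * Fr T α) l (𝓝 c) := by
  have h1 := (ww_remove (fl_cont hi) hq).mono_left hl
  have h2 := h1.add h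
  rw [zero_add] at h2
  refine h2.congr fun T => ?_
  rw [Fr_pair hi]
  ring

theorem Fr_lim' {ψ : ℝ → ℝ} (hi : Integrable ψ) (hq : QD (fl ψ)) {l : Filter ℝ} (hl : l ≤ atTop)
    {c : ℝ} (h : Tendsto (fun T => ∫ α, ψ α * Fr T α) l (𝓝 c)) :
    Tendsto (fun T => ∫ x, fl ψ x ∂(Mp T)) l (𝓝 c) := by
  have h1 := (ww_remove (fl_cont hi) hq).mono_left hl
  have h2 := h.sub h1
  rw [sub_zero] at h2
  refine h2.congr fun T => ?_
  rw [Fr_pair hi]
  ring

end Pool.Agent.Y749.Rig
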