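import Pool.Agent.Y749.Rig.FFa
import Pool.Agent.Y749.Rig.Fam

/-! # The form factor: means with continuous weights -/

set_option autoImplicit false

open MeasureTheory Set Filter Topology
open scoped NNReal ENNReal

namespace Pool.Agent.Y749.Rig

/-- the expected form factor outside of the origin -/
noncomputable def mn (α : ℝ) : ℝ := min |α| 1

lemma mn_cont : Continuous mn := by unfold mn; fun_prop

lemma mn_nonneg (α : ℝ) : 0 ≤ mn α := le_min (abs_nonneg _) zero_le_one

lemma mn_le (α : ℝ) : mn α ≤ 1 := min_le_right _ _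

lemma mn_even (α : ℝ) : mn (-α) = mn α := by unfold mn; rw [abs_neg]

lemma gue2 {κ : ℝ} {ψ : ℝ → ℝ} (h : Adm κ ψ) :
    ∫ x, fl ψ x ∂mG = ψ 0 + ∫ α, mn α * ψ α := by
  rw [mG_integral (fl_cont h.int) (fl_qd h)]
  have h1 : ∫ x, fl ψ x * fl (tr 1) x = ∫ x, ψ x * tr 1 x := by
    rw [parseval h.int (fl_int (adm_tr one_pos)) h.even fun x => fl_even x]
    refine integral_congr_ae (ae_of_all _ fun x => ?_)
    simp only
    rw [inv_four (adm_tr one_pos)]
  have h2 : ∫ x, fl ψ x * FF x = ∫ x, (fl ψ x - fl ψ x * fl (tr 1) x) := by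
    refine integral_congr_ae ?_
    have : ∀ᵐ x : ℝ, x ≠ 0 := by
      rw [ae_iff]
      simp
    filter_upwards [this] with x hx
    rw [fl_tr one_pos hx, FF, mul_one]
    ring
  have i1 := fl_int h
  have i2 : Integrable fun x => fl ψ x * fl (tr 1) x := by
    obtain ⟨B, hB⟩ := fl_bound (adm_tr one_pos)
    have hc := fl_cont (tr_int one_pos)
    have hB0 : 0 ≤ B := by
      have := (abs_nonneg _).trans (hB 0)
      simpa using this
    refine i1.mul_bdd (c := B) hc.aestronglyMeasurable (ae_of_all _ fun x => ?_)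
    rw [Real.norm_eq_abs]
    refine (hB x).trans ?_
    apply div_le_self hB0
    nlinarith [sq_nonneg x]
  rw [h2, integral_sub i1 i2, int_fl h, h1]
  have h3 : ∀ x, ψ x * tr 1 x = ψ x - mn x * ψ x := by
    intro x
    unfold tr mn
    rw [div_one, div_one]
    rcases le_or_gt 1 |x| with hx | hx
    · rw [max_eq_left (by linarith), min_eq_right hx]; ring
    · rw [max_eq_right (by linarith), min_eq_left hx.le]
      ring
  have i3 : Integrable fun x => mn x * ψ x := by
    refine Continuous.integrable_of_hasCompactSupport ?_ ?_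
    · have := h.cont
      have := mn_cont
      fun_prop
    · exact h.hcs.mul_left
  simp_rw [h3]
  rw [integral_sub h.int i3]
  have h4 : fl ψ 0 = ∫ x, ψ x := by
    unfold fl; simp
  rw [h4]
  ring

section

variable {l : Filter ℝ} {G : ℝ → ℝ → ℝ} {H f : ℝ → ℝ} {a b : ℝ}

lemma up_weight (hGc : ∀ T, Continuous (G T)) (hG0 : ∀ᶠ T in l, ∀ α, 0 ≤ G T α)
    (hHc : Continuous H) (hH0 : ∀ α, 0 ≤ H α) (hab : a < b)
    (hup : ∀ a' b' : ℝ, a ≤ a' → a' < b' → b' ≤ b → ∀ ε : ℝ, 0 < ε → ∀ᶠ T in l,
      ∫ α in a'..b', G T α ≤ (∫ α in a'..b', H α) + ε)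
    (hf : Continuous f) (hf0 : ∀ x ∈ Icc a b, 0 ≤ f x) {ε : ℝ} (hε : 0 < ε) :
    ∀ᶠ T in l, ∫ α in a..b, f α * G T α ≤ (∫ α in a..b, f α * H α) + ε := by
  obtain ⟨J, hJ⟩ : ∃ J : ℝ, J = ∫ α in a..b, H α := ⟨_, rfl⟩
  have hJ0 : 0 ≤ J := by
    rw [hJ]
    exact intervalIntegral.integral_nonneg hab.le fun x _ => hH0 x
  obtain ⟨ω, hω⟩ : ∃ ω : ℝ, ω = ε / (4 * (J + 1)) := ⟨_, rfl⟩
  have hω0 : 0 < ω := by rw [hω]; positivity
  have huc := (isCompact_Icc (a := a) (b := b)).uniformContinuousOn_of_continuous hf.continuousOn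
  rw [Metric.uniformContinuousOn_iff] at huc
  obtain ⟨δ, hδ, hδf⟩ := huc ω hω0
  obtain ⟨M, hM⟩ := (isCompact_Icc (a := a) (b := b)).exists_bound_of_continuousOn hf.continuousOn
  have hM0 : 0 ≤ M := (norm_nonneg _).trans (hM a ⟨le_rfl, hab.le⟩)
  obtain ⟨n, hn⟩ := exists_nat_gt ((b - a) / δ)
  have hn0 : (0 : ℝ) < n := lt_of_le_of_lt (div_nonneg (by linarith) hδ.le) hn
  have hstep : (b - a) / n < δ := by
    rw [div_lt_iff₀ hδ] at hn
    rw [div_lt_iff₀ hn0]
    linarith
  have hs0 : 0 < (b - a) / n := div_pos (by linarith) hn0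
  obtain ⟨x, hx⟩ : ∃ x : ℕ → ℝ, ∀ k, x k = a + k * ((b - a) / n) := ⟨_, fun k => rfl⟩
  have hx0 : x 0 = a := by rw [hx]; simp
  have hxn : x n = b := by rw [hx]; field_simp; ring
  have hxs : ∀ k, x (k + 1) = x k + (b - a) / n := by
    intro k
    rw [hx, hx]
    push_cast; ring
  have hxa : ∀ k, a ≤ x k := by
    intro k
    rw [hx]
    have : (0 : ℝ) ≤ k * ((b - a) / n) := by positivity
    linarith
  have hxb : ∀ k, k ≤ n → x k ≤ b := by
    intro k hk
    rw [← hxn, hx, hx]
    have : (k : ℝ) ≤ n := by exact_mod_cast hk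
    have := mul_le_mul_of_nonneg_right this hs0.le
    linarith
  obtain ⟨e, he⟩ : ∃ e : ℝ, e = ε / (4 * n * (M + ω + 1)) := ⟨_, rfl⟩
  have he0 : 0 < e := by rw [he]; positivity
  have hev : ∀ᶠ T in l, ∀ k ∈ Finset.range n, ∫ α in (x k)..(x (k + 1)), G T α ≤
      (∫ α in (x k)..(x (k + 1)), H α) + e := by
    rw [Filter.eventually_all_finset]
    intro k hk
    rw [Finset.mem_range] at hk
    exact hup (x k) (x (k + 1)) (hxa k) (by rw [hxs]; linarith) (hxb (k + 1) hk) e he0
  filter_upwards [hev, hG0] with T hT hT0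
  have hci : ∀ {g : ℝ → ℝ}, Continuous g → ∀ p q : ℝ, IntervalIntegrable g volume p q :=
    fun hg p q => hg.intervalIntegrable p q
  have c1 : Continuous fun α => f α * G T α := hf.mul (hGc T)
  have c2 : Continuous fun α => f α * H α := hf.mul hHc
  have c3 : Continuous fun α => 2 * ω * H α := continuous_const.mul hHc
  have c4 : Continuous fun α => f α * H α + 2 * ω * H α := c2.add c3
  have s1 : ∑ k ∈ Finset.range n, ∫ α in (x k)..(x (k + 1)), f α * G T α =
      ∫ α in a..b, f α * G T α := by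
    rw [intervalIntegral.sum_integral_adjacent_intervals fun k _ => hci c1 _ _, hx0, hxn]
  have s2 : ∑ k ∈ Finset.range n, ∫ α in (x k)..(x (k + 1)), (f α * H α + 2 * ω * H α) =
      ∫ α in a..b, (f α * H α + 2 * ω * H α) := by
    rw [intervalIntegral.sum_integral_adjacent_intervals fun k _ =>
      hci c4 _ _, hx0, hxn]
  have s3 : ∫ α in a..b, (f α * H α + 2 * ω * H α) = (∫ α in a..b, f α * H α) + 2 * ω * J := by
    rw [intervalIntegral.integral_add (hci c2 _ _) (hci c3 _ _),
      intervalIntegral.integral_const_mul, hJ]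
  have key : ∀ k ∈ Finset.range n, ∫ α in (x k)..(x (k + 1)), f α * G T α ≤
      (∫ α in (x k)..(x (k + 1)), (f α * H α + 2 * ω * H α)) + (M + ω) * e := by
    intro k hk
    have hk' := Finset.mem_range.1 hk
    have hle : x k ≤ x (k + 1) := by rw [hxs]; linarith
    have hmem : x k ∈ Icc a b := ⟨hxa k, hxb k hk'.le⟩
    have hfk := hM (x k) hmem
    rw [Real.norm_eq_abs] at hfk
    have hfk1 := (le_abs_self _).trans hfk
    have hfk0 := hf0 _ hmem
    have hdist : ∀ y ∈ Icc (x k) (x (k + 1)), |f y - f (x k)| < ω := by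
      intro y hy
      have hy' : y ∈ Icc a b := ⟨(hxa k).trans hy.1, hy.2.trans (hxb (k + 1) hk')⟩
      have := hδf y hy' (x k) hmem (by
        rw [Real.dist_eq, abs_of_nonneg (by linarith [hy.1])]
        have := hy.2
        rw [hxs] at this
        linarith)
      rwa [Real.dist_eq] at this
    calc ∫ α in (x k)..(x (k + 1)), f α * G T α ≤
          ∫ α in (x k)..(x (k + 1)), (f (x k) + ω) * G T α := by
          refine intervalIntegral.integral_mono_on hle (hci c1 _ _)
            (hci (continuous_const.mul (hGc T)) _ _) fun y hy => ?_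
          have h1 := (abs_lt.1 (hdist y hy)).2
          exact mul_le_mul_of_nonneg_right (by linarith) (hT0 y)
      _ = (f (x k) + ω) * ∫ α in (x k)..(x (k + 1)), G T α :=
          intervalIntegral.integral_const_mul _ _
      _ ≤ (f (x k) + ω) * ((∫ α in (x k)..(x (k + 1)), H α) + e) :=
          mul_le_mul_of_nonneg_left (hT k hk) (by linarith)
      _ = (∫ α in (x k)..(x (k + 1)), (f (x k) + ω) * H α) + (f (x k) + ω) * e := by
          rw [intervalIntegral.integral_const_mul]
          ring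
      _ ≤ _ := by
          refine add_le_add ?_ ?_
          · refine intervalIntegral.integral_mono_on hle (hci (continuous_const.mul hHc) _ _)
              (hci c4 _ _) fun y hy => ?_
            have h1 := (abs_lt.1 (hdist y hy)).1
            have h2 := hH0 y
            nlinarith
          · exact mul_le_mul_of_nonneg_right (by linarith) he0.le
  have h1 := Finset.sum_le_sum key
  rw [Finset.sum_add_distrib, s1, s2, s3, Finset.sum_const, Finset.card_range, nsmul_eq_mul] at h1
  have h2 : (n : ℝ) * ((M + ω) * e) ≤ ε / 4 := by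
    rw [he]
    have : (n : ℝ) * ((M + ω) * (ε / (4 * n * (M + ω + 1)))) = (M + ω) / (M + ω + 1) * (ε / 4) := by
      field_simp
    rw [this]
    have h3 : (M + ω) / (M + ω + 1) ≤ 1 := by
      rw [div_le_one (by positivity)]
      linarith
    calc _ ≤ 1 * (ε / 4) := by gcongr
      _ = _ := one_mul _
  have h3 : 2 * ω * J ≤ ε / 2 := by
    rw [hω]
    have : 2 * (ε / (4 * (J + 1))) * J = J / (J + 1) * (ε / 2) := by
      field_simp
      ring
    rw [this]
    have h3 : J / (J + 1) ≤ 1 := by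
      rw [div_le_one (by positivity)]
      linarith
    calc _ ≤ 1 * (ε / 2) := by gcongr
      _ = _ := one_mul _
  linarith

lemma two_weight (hGc : ∀ T, Continuous (G T)) (hG0 : ∀ᶠ T in l, ∀ α, 0 ≤ G T α)
    (hHc : Continuous H) (hH0 : ∀ α, 0 ≤ H α) (hab : a < b)
    (hup : ∀ a' b' : ℝ, a ≤ a' → a' < b' → b' ≤ b → Tendsto (fun T => ∫ α in a'..b', G T α) l
      (𝓝 (∫ α in a'..b', H α)))
    (hf : Continuous f) :
    Tendsto (fun T => ∫ α in a..b, f α * G T α) l (𝓝 (∫ α in a..b, f α * H α)) := by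
  obtain ⟨M, hM⟩ := (isCompact_Icc (a := a) (b := b)).exists_bound_of_continuousOn hf.continuousOn
  have hM0 : 0 ≤ M := (norm_nonneg _).trans (hM a ⟨le_rfl, hab.le⟩)
  have hup' : ∀ a' b' : ℝ, a ≤ a' → a' < b' → b' ≤ b → ∀ ε : ℝ, 0 < ε → ∀ᶠ T in l,
      ∫ α in a'..b', G T α ≤ (∫ α in a'..b', H α) + ε := by
    intro a' b' h1 h2 h3 ε hε
    have := (hup a' b' h1 h2 h3).eventually (ge_mem_nhds
      (show (∫ α in a'..b', H α) < (∫ α in a'..b', H α) + ε by linarith))
    exact this
  have hci : ∀ {g : ℝ → ℝ}, Continuous g → ∀ p q : ℝ, IntervalIntegrable g volume p q :=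
    fun hg p q => hg.intervalIntegrable p q
  have hMG := (hup a b le_rfl hab le_rfl).const_mul M
  rw [Metric.tendsto_nhds]
  intro ε hε
  have u1 := up_weight hGc hG0 hHc hH0 hab hup' (f := fun α => f α + M)
    (hf.add continuous_const) (fun x hx => by
      have := hM x hx
      rw [Real.norm_eq_abs] at this
      linarith [(abs_le.1 this).1]) (ε := ε / 3) (by positivity)
  have u2 := up_weight hGc hG0 hHc hH0 hab hup' (f := fun α => M - f α)
    (continuous_const.sub hf) (fun x hx => by
      have := hM x hx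
      rw [Real.norm_eq_abs] at this
      linarith [(abs_le.1 this).2]) (ε := ε / 3) (by positivity)
  filter_upwards [u1, u2, Metric.tendsto_nhds.1 hMG (ε / 3) (by positivity)] with T h1 h2 h3
  rw [Real.dist_eq] at h3 ⊢
  obtain ⟨h3a, h3b⟩ := abs_lt.1 h3
  have e1 : ∀ g : ℝ → ℝ, Continuous g → ∫ α in a..b, (f α + M) * g α =
      (∫ α in a..b, f α * g α) + M * ∫ α in a..b, g α := by
    intro g hg
    have d1 : Continuous fun α => f α * g α := hf.mul hg
    have d2 : Continuous fun α => M * g α := continuous_const.mul hg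
    rw [← intervalIntegral.integral_const_mul,
      ← intervalIntegral.integral_add (hci d1 _ _) (hci d2 _ _)]
    refine intervalIntegral.integral_congr fun x _ => ?_
    ring
  have e2 : ∀ g : ℝ → ℝ, Continuous g → ∫ α in a..b, (M - f α) * g α =
      M * (∫ α in a..b, g α) - ∫ α in a..b, f α * g α := by
    intro g hg
    have d1 : Continuous fun α => f α * g α := hf.mul hg
    have d2 : Continuous fun α => M * g α := continuous_const.mul hg
    rw [← intervalIntegral.integral_const_mul,
      ← intervalIntegral.integral_sub (hci d2 _ _) (hci d1 _ _)]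
    refine intervalIntegral.integral_congr fun x _ => ?_
    ring
  rw [e1 _ (hGc T), e1 _ hHc] at h1
  rw [e2 _ (hGc T), e2 _ hHc] at h2
  rw [abs_lt]
  constructor <;> linarith

end

end Pool.Agent.Y749.Rig
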