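import Pool.Agent.Y749.Rig.Blk3
import Pool.Agent.Y749.Rig.Rec2
import Pool.Agent.Y749.Rig.Ana

/-! # The pair measures of the zeros -/

set_option autoImplicit false

open MeasureTheory Set Filter Topology
open scoped NNReal ENNReal

namespace Pool.Agent.Y749.Rig

open H370 (Zf mult good_zeta mem_Zf NN zset)

/-- the expected number of zeros -/
noncomputable def nT (T : ℝ) : ℝ := T * Real.log T / (2 * Real.pi)

lemma nT_pos {T : ℝ} (hT : 10 ≤ T) : 0 < nT T := by
  have := one_lt_log (show 3 ≤ T by linarith)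
  have := Real.pi_pos
  unfold nT; positivity

/-- the pair measure -/
noncomputable def Mp (T : ℝ) : Measure ℝ :=
  ∑ s ∈ ZZ T, ∑ s' ∈ ZZ T, ENNReal.ofReal (mm s * mm s' / nT T) •
    Measure.dirac ((s.im - s'.im) * Real.log T / (2 * Real.pi))

lemma Mp_integral {T : ℝ} (hT : 10 ≤ T) (f : ℝ → ℝ) :
    ∫ x, f x ∂(Mp T) = RR f (ZZ T) (ZZ T) (Real.log T) / nT T := by
  have hn := nT_pos hT
  unfold Mp
  have hi : ∀ s s' : ℂ, Integrable f (ENNReal.ofReal (mm s * mm s' / nT T) •
      Measure.dirac ((s.im - s'.im) * Real.log T / (2 * Real.pi))) := by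
    intro s s'
    refine Integrable.smul_measure ?_ ENNReal.ofReal_ne_top
    exact integrable_dirac (by simp)
  rw [integral_finsetSum_measure fun s _ => integrable_finsetSum_measure.2 fun s' _ => hi s s']
  unfold RR
  rw [Finset.sum_div]
  refine Finset.sum_congr rfl fun s _ => ?_
  rw [integral_finsetSum_measure fun s' _ => hi s s', Finset.sum_div]
  refine Finset.sum_congr rfl fun s' _ => ?_
  rw [integral_smul_measure, integral_dirac, smul_eq_mul, ENNReal.toReal_ofReal (div_nonneg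
    (mul_nonneg (mm_nonneg _) (mm_nonneg _)) hn.le)]
  ring

lemma Mp_fin (T : ℝ) : IsFiniteMeasure (Mp T) := by
  constructor
  unfold Mp
  simp only [Measure.coe_finsetSum, Finset.sum_apply, Measure.smul_apply, smul_eq_mul,
    Measure.dirac_apply_of_mem (mem_univ _), mul_one]
  refine ENNReal.sum_lt_top.2 fun s _ => ENNReal.sum_lt_top.2 fun s' _ => ENNReal.ofReal_lt_top

lemma Mp_real {T : ℝ} (hT : 10 ≤ T) {S : Set ℝ} (hS : MeasurableSet S) :
    (Mp T).real S = RR (S.indicator fun _ => 1) (ZZ T) (ZZ T) (Real.log T) / nT T := by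
  rw [← Mp_integral hT, integral_indicator hS, setIntegral_const]
  simp

lemma Mp_ev {T : ℝ} (hT : 10 ≤ T) : Ev (Mp T) := by
  intro f _ _
  rw [Mp_integral hT, Mp_integral hT]
  congr 1
  unfold RR
  rw [Finset.sum_comm]
  refine Finset.sum_congr rfl fun s _ => Finset.sum_congr rfl fun s' _ => ?_
  simp only
  rw [mul_comm (mm s'), show -((s'.im - s.im) * Real.log T / (2 * Real.pi)) =
      (s.im - s'.im) * Real.log T / (2 * Real.pi) by ring]

/-- weights for windows -/
noncomputable def wwin (n k : ℤ) : ℝ := if k ∈ Finset.Icc n (n + 7) then 1 else 0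

lemma wwin_sum (n : ℤ) : HasSum (wwin n) 8 := by
  have h0 : ∀ k ∉ Finset.Icc n (n + 7), wwin n k = 0 := by
    intro k hk
    unfold wwin
    rw [if_neg hk]
  have h : HasSum (wwin n) (∑ k ∈ Finset.Icc n (n + 7), wwin n k) :=
    hasSum_sum_of_ne_finset_zero h0
  have h2 : ∑ k ∈ Finset.Icc n (n + 7), wwin n k = 8 := by
    rw [Finset.sum_congr rfl fun k hk => show wwin n k = 1 by unfold wwin; rw [if_pos hk]]
    rw [Finset.sum_const, Int.card_Icc, show n + 7 + 1 - n = 8 by ring,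
      show Int.toNat 8 = 8 from rfl]
    norm_num
  rwa [h2] at h

theorem Mp_bdd : ∃ C : ℝ, 2 ≤ C ∧ ∀ᶠ T in atTop, Bdd C (Mp T) := by
  obtain ⟨C, T0, hC, hT0, hsm⟩ := sm_all
  have hpi := Real.pi_pos
  refine ⟨2 + 16 * Real.pi * C, by nlinarith [mul_pos hpi hC], ?_⟩
  filter_upwards [eventually_ge_atTop T0] with T hT
  intro a
  have hT10 : 10 ≤ T := hT0.trans hT
  have hL := one_lt_log (show 3 ≤ T by linarith)
  have hn := nT_pos hT10
  have hfin := Mp_fin T
  have hTp : 0 < T := by linarith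
  have hLp : 0 < Real.log T := by linarith
  obtain ⟨n, hn'⟩ : ∃ n : ℤ, n = ⌊2 * Real.pi * a⌋ := ⟨_, rfl⟩
  have h1 := est_gen (A := ZZ T) (B := ZZ T) (a := mm) (b := mm) hLp (Y₁ := C * T) (Y₂ := C * T)
    (by positivity) (by positivity) mm_nonneg mm_nonneg (hsm T hT) (hsm T hT)
    (g := (Icc a (a + 1)).indicator fun _ => 1) (w := wwin n)
    (fun k => by unfold wwin; split_ifs <;> norm_num) (wwin_sum n).summable ?_
  · rw [(wwin_sum n).tsum_eq, mul_assoc (Real.log T), Real.mul_self_sqrt (by positivity)] at h1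
    have h2 : (Mp T).real (Icc a (a + 1)) ≤ 2 + 16 * Real.pi * C := by
      rw [Mp_real hT10 measurableSet_Icc, div_le_iff₀ hn]
      refine le_trans h1 ?_
      have h3 : 8 * (Real.log T * (C * T)) = 16 * Real.pi * C * nT T := by
        unfold nT; field_simp; ring
      rw [h3]
      nlinarith
    rw [Measure.real] at h2
    rwa [← ENNReal.ofReal_toReal (measure_ne_top (Mp T) (Icc a (a + 1))),
      ENNReal.ofReal_le_ofReal_iff (by positivity)]
  · intro y
    by_cases h : y / (2 * Real.pi) ∈ Icc a (a + 1)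
    · rw [indicator_of_mem h]
      unfold wwin
      rw [if_pos]
      rw [Finset.mem_Icc, hn']
      have h3 := h.1
      have h4 := h.2
      rw [le_div_iff₀ (by positivity)] at h3
      rw [div_le_iff₀ (by positivity)] at h4
      constructor
      · apply Int.floor_le_floor
        linarith
      · rw [← Int.floor_add_ofNat]
        apply Int.floor_le_floor
        have := Real.pi_lt_d2
        nlinarith
    · rw [indicator_of_notMem h]
      unfold wwin; split_ifs <;> norm_num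

theorem test_lim {ψ : ℝ → ℝ} {κ : ℝ} (h : Adm κ ψ)
    (hb : ∀ ε : ℝ, 0 < ε → ∀ᶠ q : ℝ in atTop,
      |RR (fl ψ) (Zf riemannZeta q (9 / 8 * q)) (Zf riemannZeta q (9 / 8 * q)) (Real.log q) -
        q / 8 * (Real.log q / (2 * Real.pi)) * cc ψ| ≤ ε * (q * Real.log q)) :
    Tendsto (fun T => ∫ x, fl ψ x ∂(Mp T)) atTop (𝓝 (cc ψ)) := by
  have hpi := Real.pi_pos
  have h1 := recur h (c := cc ψ) (E := 0) le_rfl (fun ε hε => by
    filter_upwards [hb ε hε] with q hq
    rwa [zero_add])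
  rw [Metric.tendsto_nhds]
  intro ε hε
  filter_upwards [h1 (ε / (4 * Real.pi)) (by positivity), eventually_ge_atTop 10] with T hT hT10
  have hn := nT_pos hT10
  rw [Mp_integral hT10, Real.dist_eq]
  have e1 : RR (fl ψ) (ZZ T) (ZZ T) (Real.log T) / nT T - cc ψ =
      (RR (fl ψ) (ZZ T) (ZZ T) (Real.log T) - nT T * cc ψ) / nT T := by
    field_simp
  rw [e1, abs_div, abs_of_pos hn, div_lt_iff₀ hn]
  have h2 : (8 * 0 + ε / (4 * Real.pi)) * (T * Real.log T) = ε / 2 * nT T := by
    unfold nT; field_simp; ring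
  rw [h2] at hT
  refine lt_of_le_of_lt hT ?_
  nlinarith

/-- the rigidity theorem for the zeros, one direction -/
theorem rig_zeta (hoff : ∀ η : ℝ, 0 < η → ∀ᶠ T : ℝ in atTop, NF T ≤ η * (T * Real.log T))
    {C' c : ℝ} (hC' : 0 ≤ C') (hc : 0 < c)
    (ho : (∀ α β : ℝ, 0 < α → α < β → ∀ ε : ℝ, 0 < ε → ∀ᶠ T in atTop,
      (Mp T).real (Icc α β) ≤ (∫ x in α..β, FF x) + C' * Real.exp (-(c * α)) + ε) ∨
      (∀ α β : ℝ, 0 < α → α < β → ∀ ε : ℝ, 0 < ε → ∀ᶠ T in atTop,
      (∫ x in α..β, FF x) - C' * Real.exp (-(c * α)) - ε ≤ (Mp T).real (Icc α β))) :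
    ∀ α β : ℝ, 0 < α → α < β →
      Tendsto (fun T => (Mp T).real (Icc α β)) atTop (𝓝 (∫ x in α..β, FF x)) := by
  obtain ⟨C, hC, hB⟩ := Mp_bdd
  obtain ⟨κ, hκ, hκ2, hblk⟩ := blk_main
  refine rigid hC hB ?_ hκ (by linarith) (fun ψ hψ => test_lim hψ (hblk ψ hψ hoff)) hC' hc ho
  filter_upwards [eventually_ge_atTop 10] with T hT using Mp_ev hT

end Pool.Agent.Y749.Rig
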