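import Pool.Agent.Y749.Rig.RecD2
import Pool.Agent.Y749.Rig.Fin
import Pool.Agent.Results.MP_103a5c_nt.BohrSetPairs

/-! # Montgomery's theorem in the full range, under RH, for all zeros up to a height -/

set_option autoImplicit false

open MeasureTheory Set Filter Topology
open scoped NNReal ENNReal

namespace Pool.Agent.Y749.Rig

open H370 (Zf mult good_zeta mem_Zf NN zset)
open Pool.Agent.Results.MP_103a5c_nt.BohrSetPairs (TestFn mont line_zeta sc r r_sc sc_dec cR_sc)

lemma Adm.r_eq {ψ : ℝ → ℝ} {κ : ℝ} (h : Adm κ ψ) (h1 : κ ≤ 1) (x : ℝ) : r ψ x = fl ψ x := by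
  unfold r fl
  rw [intervalIntegral.integral_of_le (by norm_num), setIntegral_eq_integral_of_forall_compl_eq_zero]
  · refine integral_congr_ae (ae_of_all _ fun α => ?_)
    simp only
    congr 2
    ring
  · intro α hα
    have : κ ≤ |α| := by
      by_contra hcon
      push Not at hcon
      apply hα
      have h2 := abs_lt.1 hcon
      exact ⟨by linarith [h2.1], by linarith [h2.2]⟩
    rw [h.supp α this, zero_mul]

lemma Adm.mont_eq {ψ : ℝ → ℝ} {κ : ℝ} (h : Adm κ ψ) (h1 : κ ≤ 1) : mont ψ = cc ψ := by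
  unfold mont cc
  congr 1
  have hc := h.cont
  have hz : ∀ x : ℝ, x ∉ Ioc (-1 : ℝ) 1 → |x| * ψ x = 0 := by
    intro α hα
    have : κ ≤ |α| := by
      by_contra hcon
      push Not at hcon
      apply hα
      have h2 := abs_lt.1 hcon
      exact ⟨by linarith [h2.1], by linarith [h2.2]⟩
    rw [h.supp α this, mul_zero]
  rw [← setIntegral_eq_integral_of_forall_compl_eq_zero hz,
    ← intervalIntegral.integral_of_le (by norm_num)]
  have hcc : Continuous fun α : ℝ => |α| * ψ α := by fun_prop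
  rw [← intervalIntegral.integral_add_adjacent_intervals (a := -1) (b := 0) (c := 1)
    (hcc.intervalIntegrable _ _) (hcc.intervalIntegrable _ _)]
  have e1 : ∫ α in (-1 : ℝ)..0, |α| * ψ α = ∫ α in (0 : ℝ)..1, |α| * ψ α := by
    have := intervalIntegral.integral_comp_neg (a := 0) (b := 1) (f := fun α : ℝ => |α| * ψ α)
    simp only [abs_neg, h.even, neg_zero] at this
    exact this.symm
  have e2 : ∫ α in (0 : ℝ)..1, |α| * ψ α = ∫ α in (0 : ℝ)..1, α * ψ α := by
    refine intervalIntegral.integral_congr fun α hα => ?_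
    rw [uIcc_of_le (by norm_num)] at hα
    show |α| * ψ α = α * ψ α
    rw [abs_of_nonneg hα.1]
  rw [e1, e2]
  ring

lemma Adm.test {ψ : ℝ → ℝ} {κ : ℝ} (h : Adm κ ψ) (h1 : κ ≤ 1) : TestFn ψ κ where
  cont := h.cont
  even := h.even
  supp := h.supp
  decay := by
    obtain ⟨b, hb⟩ := fl_bound h
    exact ⟨b, fun x => by rw [h.r_eq h1]; exact hb x⟩

theorem blk_RH (RH : RiemannHypothesis) {ψ : ℝ → ℝ} {κ : ℝ} (h : Adm κ ψ) (h0 : 0 < κ)
    (h1 : κ < 1) : ∀ ε : ℝ, 0 < ε → ∀ᶠ q : ℝ in atTop,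
      |RR (fl ψ) (Zf riemannZeta q (2 * q)) (Zf riemannZeta q (2 * q)) (Real.log q) -
        q * (Real.log q / (2 * Real.pi)) * cc ψ| ≤ (0 + ε) * (q * Real.log q) := by
  intro ε hε
  have ht := h.test h1.le
  obtain ⟨K, hK⟩ := sc_dec ht h0 h1
  have hsc : Continuous (sc ψ κ) := by
    unfold sc
    exact continuous_const.mul (ht.cont.comp (by fun_prop))
  have hse : ∀ α, sc ψ κ (-α) = sc ψ κ α := fun α => by
    unfold sc; rw [mul_neg, ht.even]
  have hs1 : sc ψ κ 1 = 0 := by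
    unfold sc
    rw [mul_one, ht.supp κ (le_abs_self κ), mul_zero]
  obtain ⟨T1, hT1, hp⟩ := TH803TW.pair_dyadic RH (line_zeta RH) hsc hse hs1 hK
    Pool.Agent.Results.MP_103a5c_nt.BohrSetPairs.APm_one κ ε h0 h1 hε
  filter_upwards [eventually_ge_atTop T1] with V hV
  have h2 := hp V hV
  rw [cR_sc ht h0 h1, one_mul, h.mont_eq h1.le] at h2
  have h3 : TH803TW.PU (sc ψ κ) riemannZeta (κ * Real.log V) V (2 * V) (fun _ => 1) =
      RR (fl ψ) (Zf riemannZeta V (2 * V)) (Zf riemannZeta V (2 * V)) (Real.log V) := by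
    unfold TH803TW.PU RR mm
    refine Finset.sum_congr rfl fun s _ => Finset.sum_congr rfl fun s' _ => ?_
    rw [r_sc ht h0 h1, mul_one, h.r_eq h1.le]
    congr 2
    have := Real.pi_pos
    field_simp
  rw [h3] at h2
  rw [zero_add]
  convert h2 using 3
  ring

/-- the limit of the pair measures at test functions, in the full range, under RH -/
theorem test_limRH (RH : RiemannHypothesis) {ψ : ℝ → ℝ} {κ : ℝ} (h : Adm κ ψ) (h0 : 0 < κ)
    (hk1 : κ < 1) : Tendsto (fun T => ∫ x, fl ψ x ∂(Mp T)) atTop (𝓝 (cc ψ)) := by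
  have hpi := Real.pi_pos
  have h1 := recur2 h (c := cc ψ) (E := 0) le_rfl (blk_RH RH h h0 hk1)
  rw [Metric.tendsto_nhds]
  intro ε hε
  filter_upwards [h1 (ε / (4 * Real.pi)) (by positivity), eventually_ge_atTop 10] with T hT hT10
  have hn := nT_pos hT10
  rw [Mp_integral hT10, Real.dist_eq]
  have e1 : RR (fl ψ) (ZZ T) (ZZ T) (Real.log T) / nT T - cc ψ =
      (RR (fl ψ) (ZZ T) (ZZ T) (Real.log T) - nT T * cc ψ) / nT T := by
    field_simp
  rw [e1, abs_div, abs_of_pos hn, div_lt_iff₀ hn]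
  have h2 : (0 + ε / (4 * Real.pi)) * (T * Real.log T) = ε / 2 * nT T := by
    unfold nT; field_simp; ring
  rw [h2] at hT
  refine lt_of_le_of_lt hT ?_
  nlinarith

end Pool.Agent.Y749.Rig
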