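import Pool.Agent.Y749.Rig.FFb
import Pool.Agent.Y749.Rig.RHb
import Pool.Agent.Y744.PCR.Glue
import Pool.Agent.H307R2.Sg6

/-! # Upper bounds for the mean of the form factor: the quantitative theorem -/

set_option autoImplicit false

open MeasureTheory Set Filter Topology
open scoped NNReal ENNReal

namespace Pool.Agent.Y749.Rig

open H370 (Zf mult good_zeta mem_Zf NN zset)

lemma int_tr {h : ℝ} (hh : 0 < h) : ∫ x, tr h x = 1 := by
  rw [int_supp hh (fun x hx => tr_supp hh x hx)]
  have hc := tr_cont h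
  rw [← intervalIntegral.integral_add_adjacent_intervals (b := 0) (hc.intervalIntegrable _ _)
    (hc.intervalIntegrable _ _)]
  have h5 : ∫ α in (-h)..0, tr h α = ∫ α in (0 : ℝ)..h, tr h α := by
    have := intervalIntegral.integral_comp_neg (a := (0 : ℝ)) (b := h) (tr h)
    rw [neg_zero] at this
    rw [← this]
    exact intervalIntegral.integral_congr fun α _ => tr_even h α
  have h6 : ∫ α in (0 : ℝ)..h, tr h α = ∫ α in (0 : ℝ)..h, (1 / h - 1 / h ^ 2 * α) := by
    refine intervalIntegral.integral_congr fun α hα => ?_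
    rw [uIcc_of_le hh.le] at hα
    rw [tr_eq hh hα.1 hα.2]
    field_simp
  rw [h5, h6, intervalIntegral.integral_sub (by simp) (by
    apply Continuous.intervalIntegrable; fun_prop), intervalIntegral.integral_const,
    intervalIntegral.integral_const_mul, integral_id]
  simp only [sub_zero, smul_eq_mul]
  field_simp
  ring

lemma fl_tr_zero {h : ℝ} (hh : 0 < h) : fl (tr h) 0 = 1 := by
  rw [← int_tr hh]
  unfold fl
  simp

/-- no zeros on the real segment -/
lemma zs_im_pos {T : ℝ} {s : ℂ} (hs : s ∈ zs T) : 0 < s.im := by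
  obtain ⟨h1, h2, h3, h4, -⟩ := hs
  rcases h4.lt_or_eq with h | h
  · exact h
  · exfalso
    have h5 : s = ((s.re : ℝ) : ℂ) := by
      apply Complex.ext <;> simp [← h]
    have h6 := (Pool.Agent.H307R2.zeta_neg h2 h3).1
    rw [← h5, h1] at h6
    simp at h6

lemma ZZ_eq (T : ℝ) : ZZ T = Pool.Agent.Y744.Zt T := by
  ext s
  rw [mem_ZZ, Pool.Agent.Y744.mem_Zt]
  unfold zset
  constructor
  · intro h
    have := zs_im_pos h
    obtain ⟨h1, h2, h3, h4, h5⟩ := h
    exact ⟨h2, h3, this, h5, h1⟩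
  · intro h
    exact ⟨h.2.2.2.2, h.1, h.2.1, h.2.2.1.le, h.2.2.2.1⟩

lemma Mp_PC {T : ℝ} (hT : 10 ≤ T) {S : Set ℝ} (hS : MeasurableSet S) :
    (Mp T).real S = Pool.Agent.Y744.PC T S / Pool.Agent.Y744.Xf T := by
  rw [Mp_real hT hS]
  unfold RR Pool.Agent.Y744.PC
  rw [ZZ_eq]
  rfl

lemma Mp_Aa {T : ℝ} (hT : 10 ≤ T) (y : ℝ) : (Mp T).real (Icc (-y) y) = Pool.Agent.Y744.Aa T y := by
  rw [Mp_PC hT measurableSet_Icc]
  unfold Pool.Agent.Y744.Aa
  have : {x : ℝ | |x| ≤ y} = Icc (-y) y := by
    ext x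
    simp only [mem_ofPred_eq, mem_Icc]
    exact abs_le
  rw [this]
  ring

lemma Mp_zero {ε : ℝ} (hε : 0 < ε) : ∀ᶠ T in atTop, 1 - ε ≤ (Mp T).real {0} := by
  filter_upwards [Pool.Agent.Y744.Aa_diag hε, eventually_ge_atTop 10] with T h1 hT
  have h2 := Mp_Aa hT 0
  rw [neg_zero, Icc_self] at h2
  rwa [h2]

/-- the diagonal bounds the pairing with the tent from below -/
lemma diag_low {R : ℝ} (hR : 0 < R) {ε : ℝ} (hε : 0 < ε) :
    ∀ᶠ T in atTop, 1 - ε ≤ ∫ α, tr R α * Fr T α := by
  obtain ⟨C, hC, hB⟩ := Mp_bdd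
  filter_upwards [Mp_zero hε, eventually_ge_atTop 10, hB] with T h1 hT hBT
  refine h1.trans ?_
  have hfin := Mp_fin T
  rw [Fr_pair (tr_int hR)]
  have e : (Mp T).real {0} = ∫ x in ({0} : Set ℝ), fl (tr R) x *
      ww (2 * Real.pi * x / Real.log T) ∂(Mp T) := by
    rw [integral_singleton, mul_zero, zero_div, ww_zero, fl_tr_zero hR]
    simp
  rw [e]
  refine setIntegral_le_integral ?_ (ae_of_all _ fun x => ?_)
  · refine (Bdd.integrable (by linarith) hBT (fl_cont (tr_int hR)) (fl_qd (adm_tr hR))).mul_bdd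
      (c := 1) ?_ (ae_of_all _ fun x => ?_)
    · have := ww_cont
      apply Continuous.aestronglyMeasurable
      fun_prop
    · rw [Real.norm_eq_abs, abs_of_pos (ww_pos _)]
      exact ww_le _
  · exact mul_nonneg (fl_tr_nonneg hR x) (ww_pos _).le

/-- the mass of the form factor at the origin -/
lemma near0 (RH : RiemannHypothesis) {η : ℝ} (hη : 0 < η) : ∃ δ0 : ℝ, 0 < δ0 ∧ ∀ δ : ℝ, 0 < δ →
    δ ≤ δ0 → ∀ᶠ T in atTop, ∫ α in (-δ)..δ, Fr T α ≤ 1 + η := by
  obtain ⟨k, hk⟩ : ∃ k : ℝ, k = min (1 / 2) (η / 8) := ⟨_, rfl⟩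
  have hk0 : 0 < k := by rw [hk]; exact lt_min (by norm_num) (by positivity)
  have hk2 : k ≤ 1 / 2 := by rw [hk]; exact min_le_left _ _
  have hk8 : k ≤ η / 8 := by rw [hk]; exact min_le_right _ _
  refine ⟨k ^ 2, by positivity, fun δ hδ hδ2 => ?_⟩
  have hlim := Fr_lim (tr_int hk0) (fl_qd (adm_tr hk0)) le_rfl
    (test_limRH RH (adm_tr hk0) hk0 (by linarith))
  have hcc : k * cc (tr k) ≤ 1 + k ^ 2 := by
    unfold cc
    have e1 : tr k 0 = 1 / k := by unfold tr; simp
    have e2 : ∫ α, |α| * tr k α ≤ k := by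
      have : ∫ α, |α| * tr k α ≤ ∫ α, k * tr k α := by
        refine integral_mono ?_ ((tr_int hk0).const_mul _) fun α => ?_
        · refine Continuous.integrable_of_hasCompactSupport ?_ ?_
          · have := tr_cont k
            fun_prop
          · exact (adm_tr hk0).hcs.mul_left
        · simp only
          rcases le_or_gt k |α| with h | h
          · rw [tr_supp hk0 α h]; simp
          · exact mul_le_mul_of_nonneg_right h.le (tr_nonneg hk0 _)
      rwa [integral_const_mul, int_tr hk0, mul_one] at this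
    rw [e1]
    have : k * (1 / k + ∫ α, |α| * tr k α) = 1 + k * ∫ α, |α| * tr k α := by
      field_simp
    rw [this]
    nlinarith
  have hev := (hlim.const_mul k).eventually (ge_mem_nhds (show k * cc (tr k) < 1 + 2 * k ^ 2 by
    nlinarith [sq_pos_of_pos hk0]))
  filter_upwards [hev, eventually_ge_atTop 10] with T h1 hT
  have hF0 := Fr_nonneg hT
  have hFc := Fr_cont T
  have h2 : (1 - k) * ∫ α in (-δ)..δ, Fr T α ≤ k * ∫ α, tr k α * Fr T α := by
    rw [← integral_const_mul, ← intervalIntegral.integral_const_mul,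
      intervalIntegral.integral_of_le (by linarith)]
    have hi : Integrable fun α => k * (tr k α * Fr T α) := by
      refine Continuous.integrable_of_hasCompactSupport ?_ ?_
      · have := tr_cont k
        fun_prop
      · exact ((adm_tr hk0).hcs.mul_right).mul_left
    calc ∫ α in Ioc (-δ) δ, (1 - k) * Fr T α ≤ ∫ α in Ioc (-δ) δ, k * (tr k α * Fr T α) := by
          refine setIntegral_mono_on ?_ hi.integrableOn measurableSet_Ioc fun α hα => ?_
          · have : Continuous fun α => (1 - k) * Fr T α := by fun_prop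
            exact this.continuousOn.integrableOn_Icc.mono_set Ioc_subset_Icc_self
          · rw [← mul_assoc]
            apply mul_le_mul_of_nonneg_right _ (hF0 α)
            have ha : |α| ≤ k ^ 2 := (abs_le.2 ⟨hα.1.le, hα.2⟩).trans hδ2
            unfold tr
            have : |α| / k ≤ k := by
              rw [div_le_iff₀ hk0]
              nlinarith
            rw [max_eq_right (by linarith)]
            rw [mul_div_cancel₀ _ hk0.ne']
            linarith
      _ ≤ ∫ α, k * (tr k α * Fr T α) := by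
          refine setIntegral_le_integral hi (ae_of_all _ fun α => ?_)
          exact mul_nonneg hk0.le (mul_nonneg (tr_nonneg hk0 _) (hF0 _))
  have h3 : (1 - k) * ∫ α in (-δ)..δ, Fr T α ≤ 1 + 2 * k ^ 2 := h2.trans h1
  have h4 : 1 + 2 * k ^ 2 ≤ (1 - k) * (1 + η) := by nlinarith
  have h5 : 0 < 1 - k := by linarith
  exact le_of_mul_le_mul_left (h3.trans h4) h5

lemma tr_mn {R : ℝ} (hR : 1 ≤ R) : ∫ α in (0 : ℝ)..R, tr R α * mn α = 1 / 2 - 1 / (2 * R) + 1 / (6 * R ^ 2) := by
  have hR0 : 0 < R := by linarith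
  have hc : Continuous fun α => tr R α * mn α := (tr_cont R).mul mn_cont
  rw [← intervalIntegral.integral_add_adjacent_intervals (b := 1) (hc.intervalIntegrable _ _)
    (hc.intervalIntegrable _ _)]
  have e1 : ∫ α in (0 : ℝ)..1, tr R α * mn α = ∫ α in (0 : ℝ)..1, (1 / R * α - 1 / R ^ 2 * α ^ 2) := by
    refine intervalIntegral.integral_congr fun α hα => ?_
    rw [uIcc_of_le (by norm_num)] at hα
    rw [tr_eq hR0 hα.1 (hα.2.trans hR)]
    unfold mn
    rw [abs_of_nonneg hα.1, min_eq_left hα.2]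
    field_simp
  have e2 : ∫ α in (1 : ℝ)..R, tr R α * mn α = ∫ α in (1 : ℝ)..R, (1 / R - 1 / R ^ 2 * α) := by
    refine intervalIntegral.integral_congr fun α hα => ?_
    rw [uIcc_of_le hR] at hα
    rw [tr_eq hR0 (by linarith [hα.1]) hα.2]
    unfold mn
    rw [abs_of_nonneg (by linarith [hα.1]), min_eq_right hα.1]
    field_simp
  rw [e1, e2, intervalIntegral.integral_sub (by
    apply Continuous.intervalIntegrable; fun_prop) (by
    apply Continuous.intervalIntegrable; fun_prop), intervalIntegral.integral_sub (by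
    apply Continuous.intervalIntegrable; fun_prop) (by
    apply Continuous.intervalIntegrable; fun_prop), intervalIntegral.integral_const_mul,
    intervalIntegral.integral_const_mul, intervalIntegral.integral_const_mul,
    intervalIntegral.integral_const, integral_id, integral_id, integral_pow]
  simp only [smul_eq_mul]
  field_simp
  ring

/-- **An upper bound for the mean of the form factor in a finite range bounds it from below.** -/
theorem quant (RH : RiemannHypothesis) {l : Filter ℝ} (hl : l ≤ atTop) {R : ℝ} (hR : 1 ≤ R)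
    (hup : ∀ a b : ℝ, 0 < a → a < b → b ≤ R → ∀ ε : ℝ, 0 < ε → ∀ᶠ T in l,
      ∫ α in a..b, Fr T α ≤ (∫ α in a..b, mn α) + ε)
    {a b : ℝ} (ha : 0 < a) (hab : a < b) (hbR : b < R) {ε : ℝ} (hε : 0 < ε) :
    ∀ᶠ T in l, (∫ α in a..b, mn α) - 1 / (6 * (R - b)) - ε ≤ ∫ α in a..b, Fr T α := by
  have hR0 : 0 < R := by linarith
  have hG0 : ∀ᶠ T in l, ∀ α, 0 ≤ Fr T α :=
    hl ((eventually_ge_atTop 10).mono fun T hT α => Fr_nonneg hT α)
  obtain ⟨w0, hw0⟩ : ∃ w0 : ℝ, w0 = tr R b := ⟨_, rfl⟩
  have hw0' : w0 = (1 - b / R) / R := by rw [hw0, tr_eq hR0 (by linarith) hbR.le]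
  have hw1 : 0 < w0 := by
    rw [hw0']
    have : b / R < 1 := by rwa [div_lt_one hR0]
    have : 0 < 1 - b / R := by linarith
    positivity
  obtain ⟨e, he⟩ : ∃ e : ℝ, e = ε * w0 / 8 := ⟨_, rfl⟩
  have he0 : 0 < e := by rw [he]; positivity
  -- near zero
  obtain ⟨δ0, hδ0, hnear⟩ := near0 RH (η := R * e) (by positivity)
  obtain ⟨δ, hδ⟩ : ∃ δ : ℝ, δ = min δ0 (a / 2) := ⟨_, rfl⟩
  have hδ1 : 0 < δ := by rw [hδ]; exact lt_min hδ0 (by positivity)
  have hδ2 : δ ≤ δ0 := by rw [hδ]; exact min_le_left _ _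
  have hδ3 : δ < a := by
    have : δ ≤ a / 2 := by rw [hδ]; exact min_le_right _ _
    linarith
  have htc := tr_cont R
  have htn : ∀ x, 0 ≤ tr R x := fun x => tr_nonneg hR0 x
  have mk : ∀ a' b' : ℝ, 0 < a' → a' < b' → b' ≤ R → ∀ {f : ℝ → ℝ}, Continuous f →
      (∀ x ∈ Icc a' b', 0 ≤ f x) → ∀ᶠ T in l,
      ∫ α in a'..b', f α * Fr T α ≤ (∫ α in a'..b', f α * mn α) + e := by
    intro a' b' h1 h2 h3 f hf hf0
    exact up_weight (fun T => Fr_cont T) hG0 mn_cont mn_nonneg h2
      (fun a'' b'' g1 g2 g3 => hup a'' b'' (h1.trans_le g1) g2 (g3.trans h3)) hf hf0 he0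
  have m1 := mk δ a hδ1 hδ3 (by linarith) htc fun x _ => htn x
  have m2 := mk b R (by linarith) hbR le_rfl htc fun x _ => htn x
  have m3 := mk a b ha hab hbR.le (f := fun x => tr R x - w0) (htc.sub continuous_const) (by
    intro x hx
    rw [hw0]
    have h0 : 0 ≤ x := by linarith [hx.1]
    rw [tr_eq hR0 h0 (by linarith [hx.2]), tr_eq hR0 (by linarith) hbR.le]
    have : x / R ≤ b / R := by gcongr; exact hx.2
    have h3 : (1 - b / R) / R ≤ (1 - x / R) / R := by gcongr
    linarith)
  filter_upwards [m1, m2, m3, hl (hnear δ hδ1 hδ2), hl (diag_low hR0 he0), hG0]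
    with T h1 h2 h3 h4 h5 hF0
  have hFc := Fr_cont T
  have hci : ∀ {g : ℝ → ℝ}, Continuous g → ∀ p q : ℝ, IntervalIntegrable g volume p q :=
    fun hg p q => hg.intervalIntegrable p q
  have c1 : Continuous fun α => tr R α * Fr T α := htc.mul hFc
  have c2 : Continuous fun α => tr R α * mn α := htc.mul mn_cont
  -- the decomposition
  have d1 : ∫ α, tr R α * Fr T α = (∫ α in (-δ)..δ, tr R α * Fr T α) +
      2 * ((∫ α in δ..a, tr R α * Fr T α) + (∫ α in a..b, tr R α * Fr T α) +
        ∫ α in b..R, tr R α * Fr T α) := by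
    rw [int_supp hR0 (fun x hx => by rw [tr_supp hR0 x hx, zero_mul])]
    rw [intervalIntegral.integral_add_adjacent_intervals (hci c1 _ _) (hci c1 _ _),
      intervalIntegral.integral_add_adjacent_intervals (hci c1 _ _) (hci c1 _ _)]
    rw [← intervalIntegral.integral_add_adjacent_intervals (a := -R) (b := -δ) (c := R)
      (hci c1 _ _) (hci c1 _ _), ← intervalIntegral.integral_add_adjacent_intervals (a := -δ)
      (b := δ) (c := R) (hci c1 _ _) (hci c1 _ _)]
    have : ∫ α in (-R)..(-δ), tr R α * Fr T α = ∫ α in δ..R, tr R α * Fr T α := by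
      have h6 := intervalIntegral.integral_comp_neg (a := δ) (b := R)
        (fun α => tr R α * Fr T α)
      rw [← h6]
      refine intervalIntegral.integral_congr fun α _ => ?_
      rw [tr_even, Fr_even]
    rw [this]
    ring
  have d2 : ∫ α in (-δ)..δ, tr R α * Fr T α ≤ 1 / R * (1 + R * e) := by
    calc ∫ α in (-δ)..δ, tr R α * Fr T α ≤ ∫ α in (-δ)..δ, 1 / R * Fr T α := by
          refine intervalIntegral.integral_mono_on (by linarith) (hci c1 _ _)
            (hci (continuous_const.mul hFc) _ _) fun α _ => ?_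
          apply mul_le_mul_of_nonneg_right _ (hF0 α)
          unfold tr
          apply div_le_div_of_nonneg_right _ hR0.le
          apply max_le (by norm_num)
          have : 0 ≤ |α| / R := by positivity
          linarith
      _ = 1 / R * ∫ α in (-δ)..δ, Fr T α := intervalIntegral.integral_const_mul _ _
      _ ≤ _ := by gcongr
  have d3 : ∫ α in (0 : ℝ)..R, tr R α * mn α = (∫ α in (0 : ℝ)..δ, tr R α * mn α) +
      (∫ α in δ..a, tr R α * mn α) + (∫ α in a..b, tr R α * mn α) +
        ∫ α in b..R, tr R α * mn α := by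
    rw [intervalIntegral.integral_add_adjacent_intervals (hci c2 _ _) (hci c2 _ _),
      intervalIntegral.integral_add_adjacent_intervals (hci c2 _ _) (hci c2 _ _),
      intervalIntegral.integral_add_adjacent_intervals (hci c2 _ _) (hci c2 _ _)]
  have d4 : 0 ≤ ∫ α in (0 : ℝ)..δ, tr R α * mn α :=
    intervalIntegral.integral_nonneg hδ1.le fun x _ => mul_nonneg (htn x) (mn_nonneg x)
  rw [tr_mn hR] at d3
  have d5 : ∀ g : ℝ → ℝ, Continuous g → ∫ α in a..b, (tr R α - w0) * g α =
      (∫ α in a..b, tr R α * g α) - w0 * ∫ α in a..b, g α := by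
    intro g hg
    have k1 : Continuous fun α => tr R α * g α := htc.mul hg
    have k2 : Continuous fun α => w0 * g α := continuous_const.mul hg
    rw [← intervalIntegral.integral_const_mul,
      ← intervalIntegral.integral_sub (hci k1 _ _) (hci k2 _ _)]
    refine intervalIntegral.integral_congr fun x _ => ?_
    ring
  rw [d5 _ hFc, d5 _ mn_cont] at h3
  have hRe : 1 / R * (1 + R * e) = 1 / R + e := by field_simp
  rw [hRe] at d2
  have hRR : 1 / (2 * R) = 1 / R / 2 := by field_simp
  rw [hRR] at d3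
  -- the weighted lower bound
  have k1 : (∫ α in a..b, tr R α * mn α) - 1 / (6 * R ^ 2) - 3 * e ≤
      ∫ α in a..b, tr R α * Fr T α := by
    linarith
  have k2 : w0 * ((∫ α in a..b, mn α) - 1 / (6 * (R - b)) - ε) ≤ w0 * ∫ α in a..b, Fr T α := by
    have e1 : w0 * (1 / (6 * (R - b))) = 1 / (6 * R ^ 2) := by
      rw [hw0']
      have : R - b ≠ 0 := by linarith
      field_simp
    have e2 : w0 * ((∫ α in a..b, mn α) - 1 / (6 * (R - b)) - ε) =
        w0 * (∫ α in a..b, mn α) - 1 / (6 * R ^ 2) - 8 * e := by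
      rw [mul_sub, mul_sub, e1, he]
      ring
    rw [e2]
    linarith
  exact le_of_mul_le_mul_left k2 hw1

end Pool.Agent.Y749.Rig
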