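import Pool.Agent.Y749.Rig.FFc

/-! # Upper bounds for the mean of the form factor: pair correlation -/

set_option autoImplicit false

open MeasureTheory Set Filter Topology
open scoped NNReal ENNReal

namespace Pool.Agent.Y749.Rig

variable {l : Filter ℝ}

/-- the means converge -/
def MeanLim (l : Filter ℝ) : Prop := ∀ a b : ℝ, 0 < a → a < b →
  Tendsto (fun T => ∫ α in a..b, Fr T α) l (𝓝 (∫ α in a..b, mn α))

/-- upper bounds for the means -/
def MeanUp (l : Filter ℝ) (R : ℝ) : Prop := ∀ a b : ℝ, 0 < a → a < b → b ≤ R → ∀ ε : ℝ, 0 < ε →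
  ∀ᶠ T in l, ∫ α in a..b, Fr T α ≤ (∫ α in a..b, mn α) + ε

theorem mean_lim (RH : RiemannHypothesis) (hl : l ≤ atTop) (h : ∀ R : ℝ, MeanUp l R) :
    MeanLim l := by
  intro a b ha hab
  rw [tendsto_order]
  constructor
  · intro c hc
    obtain ⟨ε, hε⟩ : ∃ ε : ℝ, ε = ((∫ α in a..b, mn α) - c) / 3 := ⟨_, rfl⟩
    have hε0 : 0 < ε := by rw [hε]; linarith
    obtain ⟨R, hR⟩ : ∃ R : ℝ, R = max 1 (b + 1 + 1 / (6 * ε)) := ⟨_, rfl⟩
    have hR1 : 1 ≤ R := by rw [hR]; exact le_max_left _ _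
    have hR2 : b + 1 + 1 / (6 * ε) ≤ R := by rw [hR]; exact le_max_right _ _
    have hpos : 0 < 1 / (6 * ε) := by positivity
    filter_upwards [quant RH hl hR1 (h R) ha hab (b := b) (by linarith) hε0] with T hT
    have h1 : 1 / (6 * (R - b)) ≤ ε := by
      have h2 : 1 / (6 * ε) ≤ R - b := by linarith
      rw [div_le_iff₀ (by positivity)] at h2
      rw [div_le_iff₀ (by nlinarith)]
      linarith
    linarith
  · intro c hc
    filter_upwards [h b a b ha hab le_rfl (((c - ∫ α in a..b, mn α)) / 2) (by linarith)] with T hT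
    linarith

/-- the limits of the pairings with all test functions -/
theorem all_test (RH : RiemannHypothesis) (hl : l ≤ atTop) (h : MeanLim l) {ψ : ℝ → ℝ} {κ : ℝ}
    (hψ : Adm κ ψ) (hκ : 0 < κ) :
    Tendsto (fun T => ∫ α, ψ α * Fr T α) l (𝓝 (ψ 0 + ∫ α, mn α * ψ α)) := by
  obtain ⟨k, hk⟩ : ∃ k : ℝ, k = min (1 / 2) κ := ⟨_, rfl⟩
  have hk0 : 0 < k := by rw [hk]; exact lt_min (by norm_num) hκ
  have hk2 : k ≤ 1 / 2 := by rw [hk]; exact min_le_left _ _
  have hkκ : k ≤ κ := by rw [hk]; exact min_le_right _ _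
  have hG0 : ∀ᶠ T in l, ∀ α, 0 ≤ Fr T α :=
    hl ((eventually_ge_atTop 10).mono fun T hT α => Fr_nonneg hT α)
  have hlim := (Fr_lim (tr_int hk0) (fl_qd (adm_tr hk0)) le_rfl
    (test_limRH RH (adm_tr hk0) hk0 (by linarith))).mono_left hl
  obtain ⟨c0, hc0⟩ : ∃ c0 : ℝ, c0 = ψ 0 * k := ⟨_, rfl⟩
  obtain ⟨ψ₁, hψ₁⟩ : ∃ ψ₁ : ℝ → ℝ, ∀ α, ψ₁ α = ψ α - c0 * tr k α := ⟨_, fun α => rfl⟩
  have hcc : cc (tr k) = 1 / k + ∫ α, mn α * tr k α := by
    unfold cc
    have e1 : tr k 0 = 1 / k := by unfold tr; simp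
    rw [e1]
    congr 1
    refine integral_congr_ae (ae_of_all _ fun α => ?_)
    simp only
    rcases le_or_gt k |α| with h1 | h1
    · rw [tr_supp hk0 α h1]; simp
    · unfold mn
      rw [min_eq_left (by linarith)]
  obtain ⟨K1, hK1⟩ := hψ.lip
  obtain ⟨K, hK⟩ : ∃ K : ℝ, K = K1 + |c0| * (1 / k ^ 2) := ⟨_, rfl⟩
  have hK10 : 0 ≤ K1 := by
    have := (abs_nonneg _).trans (hK1 1 0)
    simpa using this
  have hK0 : 0 ≤ K := by rw [hK]; positivity
  have hψc : Continuous ψ₁ := by
    have h1 := hψ.cont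
    have h2 := tr_cont k
    have : ψ₁ = fun α => ψ α - c0 * tr k α := funext hψ₁
    rw [this]
    fun_prop
  have hψ0 : ψ₁ 0 = 0 := by
    rw [hψ₁, hc0]
    have e1 : tr k 0 = 1 / k := by unfold tr; simp
    rw [e1]
    field_simp
    ring
  have hψe : ∀ α, ψ₁ (-α) = ψ₁ α := fun α => by rw [hψ₁, hψ₁, hψ.even, tr_even]
  have hψs : ∀ α, κ ≤ |α| → ψ₁ α = 0 := fun α hα => by
    rw [hψ₁, hψ.supp α hα, tr_supp hk0 α (hkκ.trans hα)]; simp
  have hψK : ∀ α, |ψ₁ α| ≤ K * |α| := by
    intro α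
    have h1 : ψ₁ α = (ψ α - ψ 0) - c0 * (tr k α - tr k 0) := by
      have h2 := hψ0
      rw [hψ₁] at h2
      rw [hψ₁]
      linarith
    rw [h1]
    refine (abs_sub _ _).trans ?_
    rw [abs_mul]
    have h2 := hK1 α 0
    have h3 := tr_lip hk0 α 0
    rw [sub_zero] at h2 h3
    calc |ψ α - ψ 0| + |c0| * |tr k α - tr k 0| ≤ K1 * |α| + |c0| * (1 / k ^ 2 * |α|) := by gcongr
      _ = _ := by rw [hK]; ring
  -- reduction to ψ₁
  have hi1 : ∀ {g : ℝ → ℝ}, Continuous g → Integrable fun α => ψ₁ α * g α := by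
    intro g hg
    refine Continuous.integrable_of_hasCompactSupport (hψc.mul hg) ?_
    refine HasCompactSupport.of_support_subset_isCompact (isCompact_Icc (a := -κ) (b := κ)) ?_
    intro x hx
    by_contra hcon
    apply hx
    have : ψ₁ x = 0 := by
      apply hψs
      by_contra h2
      push Not at h2
      exact hcon ⟨(abs_lt.1 h2).1.le, (abs_lt.1 h2).2.le⟩
    show ψ₁ x * g x = 0
    rw [this, zero_mul]
  have hi2 : ∀ {g : ℝ → ℝ}, Continuous g → Integrable fun α => tr k α * g α := by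
    intro g hg
    exact Continuous.integrable_of_hasCompactSupport ((tr_cont k).mul hg)
      ((adm_tr hk0).hcs.mul_right)
  have hdec : ∀ {g : ℝ → ℝ}, Continuous g → ∫ α, ψ α * g α =
      (∫ α, ψ₁ α * g α) + c0 * ∫ α, tr k α * g α := by
    intro g hg
    rw [← integral_const_mul, ← integral_add (hi1 hg) ((hi2 hg).const_mul _)]
    refine integral_congr_ae (ae_of_all _ fun α => ?_)
    simp only
    rw [hψ₁]
    ring
  have hmain : Tendsto (fun T => ∫ α, ψ₁ α * Fr T α) l (𝓝 (∫ α, ψ₁ α * mn α)) := by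
    rw [Metric.tendsto_nhds]
    intro ε hε
    obtain ⟨δ0, hδ0, hnear⟩ := near0 RH (η := 1) one_pos
    obtain ⟨δ, hδ⟩ : ∃ δ : ℝ, δ = min δ0 (min (κ / 2) (min 1 (ε / (8 * (K + 1))))) := ⟨_, rfl⟩
    have hδ1 : 0 < δ := by
      rw [hδ]
      exact lt_min hδ0 (lt_min (by positivity) (lt_min one_pos (by positivity)))
    have hδ2 : δ ≤ δ0 := by rw [hδ]; exact min_le_left _ _
    have hδ3 : δ < κ := by
      have : δ ≤ κ / 2 := by rw [hδ]; exact (min_le_right _ _).trans (min_le_left _ _)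
      linarith
    have hδ4 : δ ≤ 1 := by
      rw [hδ]; exact (min_le_right _ _).trans ((min_le_right _ _).trans (min_le_left _ _))
    have hδ5 : δ ≤ ε / (8 * (K + 1)) := by
      rw [hδ]; exact (min_le_right _ _).trans ((min_le_right _ _).trans (min_le_right _ _))
    have hKδ : K * δ ≤ ε / 8 := by
      calc K * δ ≤ (K + 1) * (ε / (8 * (K + 1))) := by gcongr; linarith
        _ = ε / 8 := by field_simp
    have h2 := two_weight (fun T => Fr_cont T) hG0 mn_cont mn_nonneg hδ3
      (fun a' b' g1 g2 g3 => h a' b' (hδ1.trans_le g1) g2) hψc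
    filter_upwards [Metric.tendsto_nhds.1 h2 (ε / 8) (by positivity), hl (hnear δ hδ1 hδ2), hG0]
      with T t1 t2 hF0
    rw [Real.dist_eq] at t1 ⊢
    have hFc := Fr_cont T
    have split : ∀ {g : ℝ → ℝ}, Continuous g → (∀ α, g (-α) = g α) → ∫ α, ψ₁ α * g α =
        (∫ α in (-δ)..δ, ψ₁ α * g α) + 2 * ∫ α in δ..κ, ψ₁ α * g α := by
      intro g hg hge
      have c1 : Continuous fun α => ψ₁ α * g α := hψc.mul hg
      rw [int_supp hκ (fun x hx => by rw [hψs x hx, zero_mul]),
        ← intervalIntegral.integral_add_adjacent_intervals (a := -κ) (b := -δ) (c := κ)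
        (c1.intervalIntegrable _ _) (c1.intervalIntegrable _ _),
        ← intervalIntegral.integral_add_adjacent_intervals (a := -δ)
        (b := δ) (c := κ) (c1.intervalIntegrable _ _) (c1.intervalIntegrable _ _)]
      have : ∫ α in (-κ)..(-δ), ψ₁ α * g α = ∫ α in δ..κ, ψ₁ α * g α := by
        have h6 := intervalIntegral.integral_comp_neg (a := δ) (b := κ)
          (fun α => ψ₁ α * g α)
        rw [← h6]
        refine intervalIntegral.integral_congr fun α _ => ?_
        rw [hψe, hge]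
      rw [this]
      ring
    rw [split hFc (Fr_even T), split mn_cont mn_even]
    have small : ∀ {g : ℝ → ℝ}, Continuous g → (∀ α, 0 ≤ g α) →
        |∫ α in (-δ)..δ, ψ₁ α * g α| ≤ K * δ * ∫ α in (-δ)..δ, g α := by
      intro g hg hg0
      have hle : -δ ≤ δ := by linarith
      rw [← intervalIntegral.integral_const_mul]
      refine (intervalIntegral.abs_integral_le_integral_abs hle).trans ?_
      refine intervalIntegral.integral_mono_on hle ?_ ?_ fun α hα => ?_
      · exact ((hψc.mul hg).abs).intervalIntegrable _ _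
      · exact (continuous_const.mul hg).intervalIntegrable _ _
      · rw [abs_mul, abs_of_nonneg (hg0 α)]
        apply mul_le_mul_of_nonneg_right _ (hg0 α)
        have : |α| ≤ δ := abs_le.2 ⟨hα.1, hα.2⟩
        exact (hψK α).trans (by gcongr)
    have s1 := small hFc hF0
    have s2 := small mn_cont mn_nonneg
    have s3 : ∫ α in (-δ)..δ, mn α ≤ 2 := by
      calc ∫ α in (-δ)..δ, mn α ≤ ∫ α in (-δ)..δ, (1 : ℝ) :=
            intervalIntegral.integral_mono_on (by linarith) (mn_cont.intervalIntegrable _ _)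
              (by simp) fun α _ => mn_le α
        _ = 2 * δ := by simp; ring
        _ ≤ 2 := by linarith
    have hKδ0 : 0 ≤ K * δ := by positivity
    have s4 : |∫ α in (-δ)..δ, ψ₁ α * Fr T α| ≤ ε / 4 := by
      refine s1.trans ?_
      calc K * δ * ∫ α in (-δ)..δ, Fr T α ≤ ε / 8 * (1 + 1) := by
            apply mul_le_mul hKδ t2 _ (by positivity)
            exact intervalIntegral.integral_nonneg (by linarith) fun x _ => hF0 x
        _ = _ := by ring
    have s5 : |∫ α in (-δ)..δ, ψ₁ α * mn α| ≤ ε / 4 := by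
      refine s2.trans ?_
      calc K * δ * ∫ α in (-δ)..δ, mn α ≤ ε / 8 * 2 := by
            apply mul_le_mul hKδ s3 _ (by positivity)
            exact intervalIntegral.integral_nonneg (by linarith) fun x _ => mn_nonneg x
        _ = _ := by ring
    rw [abs_le] at s4 s5
    rw [abs_lt] at t1 ⊢
    constructor <;> linarith [s4.1, s4.2, s5.1, s5.2, t1.1, t1.2]
  have h3 := hmain.add (hlim.const_mul c0)
  have e1 : (∫ α, ψ₁ α * mn α) + c0 * cc (tr k) = ψ 0 + ∫ α, mn α * ψ α := by
    rw [hcc, mul_add]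
    have e2 : c0 * (1 / k) = ψ 0 := by rw [hc0]; field_simp
    have e3 : ∫ α, mn α * ψ α = ∫ α, ψ α * mn α := by simp_rw [mul_comm]
    have e4 : ∫ α, mn α * tr k α = ∫ α, tr k α * mn α := by simp_rw [mul_comm]
    rw [e2, e3, e4, hdec mn_cont]
    ring
  rw [e1] at h3
  refine h3.congr fun T => ?_
  rw [hdec (Fr_cont T)]

/-- a positive function with compactly supported transform -/
noncomputable def gg (x : ℝ) : ℝ := fl (tr 1) x + fl (tr (Real.sqrt 2)) x

lemma sq2 : 0 < Real.sqrt 2 := by positivity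

lemma gg_pos (x : ℝ) : 0 < gg x := by
  unfold gg
  have h1 := fl_tr_nonneg one_pos x
  have h2 := fl_tr_nonneg sq2 x
  by_contra hcon
  push Not at hcon
  have e1 : fl (tr 1) x = 0 := by linarith
  have e2 : fl (tr (Real.sqrt 2)) x = 0 := by linarith
  rcases eq_or_ne x 0 with hx | hx
  · rw [hx, fl_tr_zero one_pos] at e1
    norm_num at e1
  · rw [fl_tr one_pos hx] at e1
    rw [fl_tr sq2 hx] at e2
    have hpi := Real.pi_pos
    have hs := sq2
    have f1 : Real.sin (Real.pi * 1 * x) = 0 := by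
      have := pow_eq_zero_iff (n := 2) (by norm_num) |>.1 e1
      rcases div_eq_zero_iff.1 this with h | h
      · exact h
      · exfalso
        have : Real.pi * 1 * x ≠ 0 := by positivity
        exact this h
    have f2 : Real.sin (Real.pi * Real.sqrt 2 * x) = 0 := by
      have := pow_eq_zero_iff (n := 2) (by norm_num) |>.1 e2
      rcases div_eq_zero_iff.1 this with h | h
      · exact h
      · exfalso
        have : Real.pi * Real.sqrt 2 * x ≠ 0 := by positivity
        exact this h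
    rw [Real.sin_eq_zero_iff] at f1 f2
    obtain ⟨n, hn⟩ := f1
    obtain ⟨m, hm⟩ := f2
    have g1 : x = n := by
      have : (n : ℝ) * Real.pi = x * Real.pi := by rw [hn]; ring
      exact (mul_right_cancel₀ hpi.ne' this).symm
    have g2 : Real.sqrt 2 * x = m := by
      have : (m : ℝ) * Real.pi = (Real.sqrt 2 * x) * Real.pi := by rw [hm]; ring
      exact (mul_right_cancel₀ hpi.ne' this).symm
    have hn0 : (n : ℝ) ≠ 0 := by rw [← g1]; exact hx
    have g3 : Real.sqrt 2 = ((m / n : ℚ) : ℝ) := by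
      push_cast
      rw [← g2, ← g1]
      field_simp
    exact irrational_sqrt_two ⟨_, g3.symm⟩

lemma gg_cont : Continuous gg := by
  unfold gg
  exact (fl_cont (tr_int one_pos)).add (fl_cont (tr_int sq2))

lemma qd_add {f g : ℝ → ℝ} (hf : QD f) (hg : QD g) : QD fun x => f x + g x := by
  obtain ⟨A, hA⟩ := hf
  obtain ⟨B, hB⟩ := hg
  refine ⟨A + B, fun x => (abs_add_le _ _).trans ?_⟩
  rw [add_div]
  exact add_le_add (hA x) (hB x)

lemma gg_qd : QD gg := qd_add (fl_qd (adm_tr one_pos)) (fl_qd (adm_tr sq2))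

lemma qd_mul_bdd {f g : ℝ → ℝ} (hf : QD f) (hg : ∀ x, |g x| ≤ 1) : QD fun x => f x * g x := by
  obtain ⟨A, hA⟩ := hf
  refine ⟨A, fun x => ?_⟩
  rw [abs_mul]
  calc |f x| * |g x| ≤ |f x| * 1 := by gcongr; exact hg x
    _ ≤ _ := by rw [mul_one]; exact hA x

/-- measures with the same pairings agree -/
theorem meas_eq {μ : Measure ℝ} {C : ℝ} (hC : 0 ≤ C) (hB : Bdd C μ) (hE : Ev μ)
    (h : ∀ κ : ℝ, 0 < κ → ∀ ψ : ℝ → ℝ, Adm κ ψ → ∫ x, fl ψ x ∂μ = ∫ x, fl ψ x ∂mG) :
    μ = mG := by
  have key : ∀ ν : Measure ℝ, (∃ C : ℝ, 0 ≤ C ∧ Bdd C ν) → Ev ν → ∀ t : ℝ,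
      charFun (ν.withDensity fun x => ENNReal.ofReal (gg x)) t =
        (((∫ x, fl (modu (t / (2 * Real.pi)) (tr 1)) x ∂ν) +
          ∫ x, fl (modu (t / (2 * Real.pi)) (tr (Real.sqrt 2))) x ∂ν : ℝ) : ℂ) := by
    rintro ν ⟨C, hC, hB⟩ hE t
    have hpi := Real.pi_pos
    rw [charFun_apply_real, integral_withDensity_eq_integral_toReal_smul₀
      (gg_cont.measurable.ennreal_ofReal.aemeasurable) (ae_of_all _ fun x => ENNReal.ofReal_lt_top)]
    have hc : Continuous fun x => gg x * Real.cos (t * x) := gg_cont.mul (by fun_prop)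
    have hs : Continuous fun x => gg x * Real.sin (t * x) := gg_cont.mul (by fun_prop)
    have qc : QD fun x => gg x * Real.cos (t * x) :=
      qd_mul_bdd gg_qd fun x => Real.abs_cos_le_one _
    have qs : QD fun x => gg x * Real.sin (t * x) :=
      qd_mul_bdd gg_qd fun x => Real.abs_sin_le_one _
    have ic := Bdd.integrable hC hB hc qc
    have is := Bdd.integrable hC hB hs qs
    have e1 : ∫ x, gg x * Real.sin (t * x) ∂ν = 0 := by
      have h1 := hE _ hs qs
      have h2 : ∀ x : ℝ, gg (-x) * Real.sin (t * -x) = -(gg x * Real.sin (t * x)) := by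
        intro x
        unfold gg
        rw [fl_even, fl_even, mul_neg, Real.sin_neg]
        ring
      simp_rw [h2] at h1
      rw [integral_neg] at h1
      linarith
    have e2 : ∀ x : ℝ, gg x * Real.cos (t * x) = fl (modu (t / (2 * Real.pi)) (tr 1)) x +
        fl (modu (t / (2 * Real.pi)) (tr (Real.sqrt 2))) x := by
      intro x
      have aux : ∀ h : ℝ, 0 < h → fl (modu (t / (2 * Real.pi)) (tr h)) x =
          fl (tr h) x * Real.cos (t * x) := by
        intro h hh
        have h1 := FL_modu (adm_tr hh) (t / (2 * Real.pi)) (x : ℂ)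
        have ha := adm_modu (adm_tr hh) (t / (2 * Real.pi))
        rw [FL_real ha.int ha.even, FL_real (tr_int hh) (tr_even h)] at h1
        have h2 : (2 * Real.pi * ((t / (2 * Real.pi) : ℝ) : ℂ) * (x : ℂ)) = ((t * x : ℝ) : ℂ) := by
          push_cast
          field_simp
        rw [h2, ← Complex.ofReal_cos, ← Complex.ofReal_mul] at h1
        exact Complex.ofReal_injective h1
      rw [aux 1 one_pos, aux _ sq2]
      unfold gg
      ring
    have e3 : ∀ x : ℝ, (ENNReal.ofReal (gg x)).toReal • Complex.exp (t * x * Complex.I) =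
        ((gg x * Real.cos (t * x) : ℝ) : ℂ) + ((gg x * Real.sin (t * x) : ℝ) : ℂ) * Complex.I := by
      intro x
      rw [ENNReal.toReal_ofReal (gg_pos x).le, Complex.real_smul]
      have : (t : ℂ) * x * Complex.I = ((t * x : ℝ) : ℂ) * Complex.I := by push_cast; ring
      rw [this, Complex.exp_mul_I, ← Complex.ofReal_cos, ← Complex.ofReal_sin]
      push_cast
      ring
    simp_rw [e3]
    rw [integral_add ic.ofReal (is.ofReal.mul_const _), integral_mul_const, integral_complex_ofReal,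
      integral_complex_ofReal, e1]
    simp_rw [e2]
    rw [integral_add]
    · simp
    · exact Bdd.integrable hC hB (fl_cont (adm_modu (adm_tr one_pos) _).int)
        (fl_qd (adm_modu (adm_tr one_pos) _))
    · exact Bdd.integrable hC hB (fl_cont (adm_modu (adm_tr sq2) _).int)
        (fl_qd (adm_modu (adm_tr sq2) _))
  have fin : ∀ ν : Measure ℝ, (∃ C : ℝ, 0 ≤ C ∧ Bdd C ν) →
      IsFiniteMeasure (ν.withDensity fun x => ENNReal.ofReal (gg x)) := by
    rintro ν ⟨C, hC, hB⟩
    refine isFiniteMeasure_withDensity_ofReal ?_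
    exact (Bdd.integrable hC hB gg_cont gg_qd).2
  have f1 := fin μ ⟨C, hC, hB⟩
  have f2 := fin mG ⟨2, by norm_num, mG_bdd⟩
  have heq : μ.withDensity (fun x => ENNReal.ofReal (gg x)) =
      mG.withDensity (fun x => ENNReal.ofReal (gg x)) := by
    apply Measure.ext_of_charFun
    ext t
    rw [key μ ⟨C, hC, hB⟩ hE t, key mG ⟨2, by norm_num, mG_bdd⟩ mG_ev t]
    rw [h _ (by positivity) _ (adm_modu (adm_tr one_pos) (t / (2 * Real.pi))),
      h _ (by positivity) _ (adm_modu (adm_tr sq2) (t / (2 * Real.pi)))]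
  have back : ∀ ν : Measure ℝ, ν = (ν.withDensity fun x => ENNReal.ofReal (gg x)).withDensity
      fun x => (ENNReal.ofReal (gg x))⁻¹ := by
    intro ν
    have hm : Measurable fun x => ENNReal.ofReal (gg x) := gg_cont.measurable.ennreal_ofReal
    rw [withDensity_inv_same hm]
    · exact ae_of_all _ fun x => (ENNReal.ofReal_pos.2 (gg_pos x)).ne'
    · exact ae_of_all _ fun x => ENNReal.ofReal_ne_top
  rw [back μ, heq, ← back mG]

end Pool.Agent.Y749.Rig
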