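import Pool.Agent.Y749.Rig.FFd

/-! # Upper bounds for the mean of the form factor and pair correlation: the equivalence -/

set_option autoImplicit false

open MeasureTheory Set Filter Topology
open scoped NNReal ENNReal

namespace Pool.Agent.Y749.Rig

open Pool.Agent.Y744 (gp gd AG Aa Nr pr PC Xf)

variable {l : Filter ℝ}

lemma FF_gd (a b : ℝ) : ∫ x in a..b, FF x = gp b - gp a := by
  rw [Pool.Agent.Y744.gp_sub]
  refine intervalIntegral.integral_congr_ae ?_
  have h0 : ∀ᵐ x : ℝ, x ≠ 0 := by
    rw [ae_iff]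
    simp
  filter_upwards [h0] with x hx _
  unfold gd FF
  have hpi := Real.pi_pos
  rw [Real.sinc_of_ne_zero (by positivity)]

lemma mG_pr {a b : ℝ} (hab : a ≤ b) : mG.real (Icc a b) = pr a b := by
  unfold pr
  rw [← FF_gd, Measure.real, mG_apply, ENNReal.toReal_add]
  · rw [add_comm]
    congr 1
    · rw [intervalIntegral.integral_of_le hab, ← integral_Icc_eq_integral_Ioc,
        integral_eq_lintegral_of_nonneg_ae (ae_of_all _ fun x => FF_nonneg x)
        FF_meas.aestronglyMeasurable]
    · by_cases h : (0 : ℝ) ∈ Icc a b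
      · rw [indicator_of_mem h, indicator_of_mem h]; simp
      · rw [indicator_of_notMem h, indicator_of_notMem h]; simp
  · by_cases h : (0 : ℝ) ∈ Icc a b
    · rw [indicator_of_mem h]; simp
    · rw [indicator_of_notMem h]; simp
  · have h1 := mG_bdd.lt_top a b
    rw [mG_apply] at h1
    exact (ENNReal.add_lt_top.1 h1).2.ne

lemma mG_AG {z : ℝ} (hz : 0 ≤ z) : mG.real (Icc (-z) z) = AG z := by
  rw [mG_pr (by linarith)]
  unfold pr AG
  rw [indicator_of_mem (show (0 : ℝ) ∈ Icc (-z) z from ⟨by linarith, hz⟩), if_neg (by linarith),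
    Pool.Agent.Y744.gp_odd]
  ring

/-- weak convergence to the conjectured measure -/
def Weak (l : Filter ℝ) : Prop := ∀ f : ℝ → ℝ, Continuous f → QD f →
  Tendsto (fun T => ∫ x, f x ∂(Mp T)) l (𝓝 (∫ x, f x ∂mG))

lemma weak_of (hl : l ≤ atTop) (h : ∀ U : Ultrafilter ℝ, (U : Filter ℝ) ≤ l → ∀ μ : Measure ℝ,
    (∀ f : ℝ → ℝ, Continuous f → QD f →
      Integrable f μ ∧ Tendsto (fun T => ∫ x, f x ∂(Mp T)) U (𝓝 (∫ x, f x ∂μ))) → μ = mG) :
    Weak l := by
  obtain ⟨C, hC, hB⟩ := Mp_bdd
  intro f hf hq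
  rw [tendsto_iff_ultrafilter]
  intro U hU
  obtain ⟨μ, -, hμ⟩ := exists_limit (by linarith) hB U (hU.trans hl)
  have := h U hU μ hμ
  rw [← this]
  exact (hμ f hf hq).2

lemma weak_mean (RH : RiemannHypothesis) (hl : l ≤ atTop) (h : MeanLim l) : Weak l := by
  obtain ⟨C, hC, hB⟩ := Mp_bdd
  refine weak_of hl fun U hU μ hμ => ?_
  have hUt : (U : Filter ℝ) ≤ atTop := hU.trans hl
  have b1 := bdd_limit hUt (by linarith) hB hμ
  have e1 := ev_limit hUt ((eventually_ge_atTop 10).mono fun T hT => Mp_ev hT) hμ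
  refine meas_eq (by linarith) b1 e1 fun κ hκ ψ hψ => ?_
  have h1 := (all_test RH hl h hψ hκ).mono_left hU
  have h2 := Fr_lim' hψ.int (fl_qd hψ) hUt h1
  rw [gue2 hψ]
  exact tendsto_nhds_unique (hμ _ (fl_cont hψ.int) (fl_qd hψ)).2 h2

lemma gp_lip {x y : ℝ} (h : x ≤ y) : gp y - gp x ≤ y - x := by
  rw [Pool.Agent.Y744.gp_sub]
  calc ∫ u in x..y, gd u ≤ ∫ u in x..y, (1 : ℝ) :=
        intervalIntegral.integral_mono_on h (Pool.Agent.Y744.gd_cont.intervalIntegrable _ _)
          (by simp) fun u _ => Pool.Agent.Y744.gd_le u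
    _ = y - x := by simp

/-- from weak convergence to the windows -/
theorem Aa_lim (hl : l ≤ atTop) (hw : Weak l) (y : ℝ) :
    Tendsto (fun T => Aa T y) l (𝓝 (AG y)) := by
  obtain ⟨C, hC, hB⟩ := Mp_bdd
  have hC0 : 0 ≤ C := by linarith
  rcases lt_or_ge y 0 with hy | hy
  · have : AG y = 0 := by unfold AG; rw [if_pos hy]
    rw [this]
    refine tendsto_const_nhds.congr fun T => ?_
    exact (Pool.Agent.Y744.Aa_neg T y hy).symm
  · have hGA : ∀ z : ℝ, 0 ≤ z → AG z = 1 + 2 * gp z := by
      intro z hz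
      unfold AG
      rw [if_neg (by linarith)]
    rw [Metric.tendsto_nhds]
    intro ε hε
    -- upper bound
    have up : ∀ᶠ T in l, Aa T y ≤ AG y + ε / 2 := by
      obtain ⟨δ, hδ⟩ : ∃ δ : ℝ, δ = ε / 8 := ⟨_, rfl⟩
      have hδ0 : 0 < δ := by rw [hδ]; positivity
      have t1 := hw _ (tz_cont (-y) y δ) (tz_qd hδ0 (-y) y)
      have t2 := tz_upper (by norm_num) mG_bdd hδ0 (-y) y
      have t3 : mG.real (Icc (-y - δ) (y + δ)) = AG (y + δ) := by
        rw [show -y - δ = -(y + δ) by ring, mG_AG (by linarith)]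
      rw [t3, hGA _ (by linarith)] at t2
      have t4 := gp_lip (show y ≤ y + δ by linarith)
      filter_upwards [t1.eventually (ge_mem_nhds (show ∫ x, tz (-y) y δ x ∂mG <
        (∫ x, tz (-y) y δ x ∂mG) + δ by linarith)), hl hB, hl (eventually_ge_atTop 10)]
        with T h1 h2 h3
      rw [← Mp_Aa h3, hGA y hy]
      have h4 := tz_lower hC0 h2 hδ0 (-y) y
      linarith
    have low : ∀ᶠ T in l, AG y - ε / 2 ≤ Aa T y := by
      rcases hy.eq_or_lt with h0 | h0
      · rw [← h0]
        have : AG 0 = 1 := by rw [hGA 0 le_rfl, Pool.Agent.Y744.gp_zero]; norm_num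
        rw [this]
        exact hl (Pool.Agent.Y744.Aa_diag (by positivity))
      · obtain ⟨δ, hδ⟩ : ∃ δ : ℝ, δ = min (y / 2) (ε / 8) := ⟨_, rfl⟩
        have hδ0 : 0 < δ := by rw [hδ]; exact lt_min (by positivity) (by positivity)
        have hδ1 : δ ≤ y / 2 := by rw [hδ]; exact min_le_left _ _
        have hδ2 : δ ≤ ε / 8 := by rw [hδ]; exact min_le_right _ _
        have t1 := hw _ (tz_cont (-y + δ) (y - δ) δ) (tz_qd hδ0 (-y + δ) (y - δ))
        have t2 := tz_lower (by norm_num) mG_bdd hδ0 (-y + δ) (y - δ)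
        have t3 : mG.real (Icc (-y + δ) (y - δ)) = AG (y - δ) := by
          rw [show -y + δ = -(y - δ) by ring, mG_AG (by linarith)]
        rw [t3, hGA _ (by linarith)] at t2
        have t4 := gp_lip (show y - δ ≤ y by linarith)
        filter_upwards [t1.eventually (le_mem_nhds (show (∫ x, tz (-y + δ) (y - δ) δ x ∂mG) - δ <
          ∫ x, tz (-y + δ) (y - δ) δ x ∂mG by linarith)), hl hB, hl (eventually_ge_atTop 10)]
          with T h1 h2 h3
        rw [← Mp_Aa h3, hGA y hy]
        have h4 := tz_upper hC0 h2 hδ0 (-y + δ) (y - δ)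
        rw [show -y + δ - δ = -y by ring, sub_add_cancel] at h4
        linarith
    filter_upwards [up, low] with T h1 h2
    rw [Real.dist_eq, abs_lt]
    constructor <;> linarith

/-- from the windows to weak convergence -/
theorem weak_win (hl : l ≤ atTop)
    (h : ∀ α β : ℝ, α < β → Tendsto (fun T => Nr T α β) l (𝓝 (pr α β))) : Weak l := by
  obtain ⟨C, hC, hB⟩ := Mp_bdd
  have hC0 : 0 ≤ C := by linarith
  refine weak_of hl fun U hU μ hμ => ?_
  have hUt : (U : Filter ℝ) ≤ atTop := hU.trans hl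
  have b1 := bdd_limit hUt (by linarith) hB hμ
  have hN : ∀ α β : ℝ, α < β → Tendsto (fun T => (Mp T).real (Icc α β)) U (𝓝 (mG.real (Icc α β))) := by
    intro α β hαβ
    rw [mG_pr hαβ.le]
    refine ((h α β hαβ).mono_left hU).congr' ?_
    filter_upwards [hUt (eventually_ge_atTop 10)] with T hT
    rw [Mp_PC hT measurableSet_Icc]
    rfl
  have key : ∀ a b : ℝ, a ≤ b → μ.real (Icc a b) = mG.real (Icc a b) := by
    intro a b hab
    refine le_antisymm ?_ ?_
    · refine ge_of_tendsto' (icc_lim mG_bdd a b) fun n => ?_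
      have hδ : (0 : ℝ) < 1 / ((n : ℝ) + 1) := by positivity
      have h1 := lim_upper (C := C) hC0 hB hUt hμ (α := a - 1 / ((n : ℝ) + 1))
        (β := b + 1 / ((n : ℝ) + 1)) (K := mG.real (Icc (a - 1 / ((n : ℝ) + 1)) (b + 1 / ((n : ℝ) + 1))))
        fun ε hε => (hN _ _ (by linarith)).eventually (ge_mem_nhds (by linarith))
      refine le_trans ?_ h1
      refine measureReal_mono (fun x hx => ⟨by linarith [hx.1], by linarith [hx.2]⟩) ?_
      exact ((measure_mono Ioo_subset_Icc_self).trans_lt (b1.lt_top _ _)).ne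
    · refine ge_of_tendsto' (icc_lim b1 a b) fun n => ?_
      have hδ : (0 : ℝ) < 1 / ((n : ℝ) + 1) := by positivity
      have h1 := lim_lower (C := C) hC0 hB hUt hμ (α := a - 1 / ((n : ℝ) + 1))
        (β := b + 1 / ((n : ℝ) + 1)) (K := mG.real (Icc (a - 1 / ((n : ℝ) + 1)) (b + 1 / ((n : ℝ) + 1))))
        fun ε hε => (hN _ _ (by linarith)).eventually (le_mem_nhds (by linarith))
      refine le_trans ?_ h1
      exact mG_bdd.mono_real (by linarith) (by linarith)
  refine Measure.ext_of_Icc' μ mG (fun a b _ => (b1.lt_top a b).ne) fun a b hab => ?_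
  have h1 := key a b hab
  exact (ENNReal.toReal_eq_toReal_iff' (b1.lt_top a b).ne (mG_bdd.lt_top a b).ne).1 h1

/-- the tents -/
lemma tent_eq {h : ℝ} (hh : 0 < h) (α : ℝ) : h ^ 2 * tr h α = max 0 (h - |α|) := by
  unfold tr
  rcases le_or_gt h |α| with h1 | h1
  · rw [max_eq_left, max_eq_left (by linarith)]
    · simp
    · have : 1 ≤ |α| / h := by rwa [one_le_div hh]
      linarith
  · rw [max_eq_right, max_eq_right (by linarith)]
    · field_simp
    · have : |α| / h ≤ 1 := by rw [div_le_one hh]; exact h1.le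
      linarith

lemma tent_lim (hl : l ≤ atTop) (hw : Weak l) {h : ℝ} (hh : 0 < h) :
    Tendsto (fun T => ∫ α, max 0 (h - |α|) * Fr T α) l (𝓝 (h + ∫ α, max 0 (h - |α|) * mn α)) := by
  have h1 := Fr_lim (tr_int hh) (fl_qd (adm_tr hh)) hl (hw _ (fl_cont (tr_int hh))
    (fl_qd (adm_tr hh)))
  rw [gue2 (adm_tr hh)] at h1
  have h2 := h1.const_mul (h ^ 2)
  have e1 : h ^ 2 * (tr h 0 + ∫ α, mn α * tr h α) = h + ∫ α, max 0 (h - |α|) * mn α := by
    rw [mul_add, tent_eq hh 0, ← integral_const_mul]
    congr 1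
    · rw [abs_zero, sub_zero, max_eq_right hh.le]
    · refine integral_congr_ae (ae_of_all _ fun α => ?_)
      simp only
      rw [← tent_eq hh]
      ring
  rw [e1] at h2
  refine h2.congr fun T => ?_
  rw [← integral_const_mul]
  refine integral_congr_ae (ae_of_all _ fun α => ?_)
  simp only
  rw [← tent_eq hh]
  ring

lemma tent_integrable (h : ℝ) {g : ℝ → ℝ} (hg : Continuous g) :
    Integrable fun α : ℝ => max 0 (h - |α|) * g α := by
  refine Continuous.integrable_of_hasCompactSupport (by fun_prop) ?_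
  refine HasCompactSupport.of_support_subset_isCompact (isCompact_Icc (a := -h) (b := h)) ?_
  intro x hx
  by_contra hcon
  apply hx
  have : max 0 (h - |x|) = 0 := by
    apply max_eq_left
    by_contra h2
    push Not at h2
    have h3 : |x| < h := by linarith
    exact hcon ⟨(abs_lt.1 h3).1.le, (abs_lt.1 h3).2.le⟩
  show max 0 (h - |x|) * g x = 0
  rw [this, zero_mul]

/-- the conjecture implies the upper bounds for the means -/
theorem up_weak (hl : l ≤ atTop) (hw : Weak l) (R : ℝ) : MeanUp l R := by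
  intro a b ha hab _ ε hε
  obtain ⟨δ, hδ⟩ : ∃ δ : ℝ, δ = min (a / 2) (ε / 8) := ⟨_, rfl⟩
  have hδ0 : 0 < δ := by rw [hδ]; exact lt_min (by positivity) (by positivity)
  have hδ1 : δ ≤ a / 2 := by rw [hδ]; exact min_le_left _ _
  have hδ2 : δ ≤ ε / 8 := by rw [hδ]; exact min_le_right _ _
  obtain ⟨ψ, hψ⟩ : ∃ ψ : ℝ → ℝ, ∀ α, ψ α = (max 0 (b + δ - |α|) - max 0 (b - |α|) -
    max 0 (a - |α|) + max 0 (a - δ - |α|)) / δ := ⟨_, fun α => rfl⟩
  have hψc : Continuous ψ := by
    have : ψ = fun α => (max 0 (b + δ - |α|) - max 0 (b - |α|) -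
      max 0 (a - |α|) + max 0 (a - δ - |α|)) / δ := funext hψ
    rw [this]
    fun_prop
  have hψ0 : ∀ α, 0 ≤ ψ α := by
    intro α
    rw [hψ]
    apply div_nonneg _ hδ0.le
    rcases le_total (b + δ) |α| with h1 | h1
    · rw [max_eq_left (by linarith), max_eq_left (by linarith), max_eq_left (by linarith),
        max_eq_left (by linarith)]
      norm_num
    · rw [max_eq_right (by linarith : 0 ≤ b + δ - |α|)]
      rcases le_total b |α| with h2 | h2
      · rw [max_eq_left (by linarith : b - |α| ≤ 0), max_eq_left (by linarith : a - |α| ≤ 0),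
          max_eq_left (by linarith : a - δ - |α| ≤ 0)]
        linarith
      · rw [max_eq_right (by linarith : 0 ≤ b - |α|)]
        rcases le_total a |α| with h3 | h3
        · rw [max_eq_left (by linarith : a - |α| ≤ 0), max_eq_left (by linarith : a - δ - |α| ≤ 0)]
          linarith
        · rw [max_eq_right (by linarith : 0 ≤ a - |α|)]
          have := le_max_right 0 (a - δ - |α|)
          linarith
  have hψ1 : ∀ α, ψ α ≤ 1 := by
    intro α
    rw [hψ, div_le_one hδ0]
    rcases le_total (b + δ) |α| with h1 | h1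
    · rw [max_eq_left (by linarith), max_eq_left (by linarith), max_eq_left (by linarith),
        max_eq_left (by linarith)]
      linarith
    · rw [max_eq_right (by linarith : 0 ≤ b + δ - |α|)]
      rcases le_total b |α| with h2 | h2
      · rw [max_eq_left (by linarith : b - |α| ≤ 0), max_eq_left (by linarith : a - |α| ≤ 0),
          max_eq_left (by linarith : a - δ - |α| ≤ 0)]
        linarith
      · rw [max_eq_right (by linarith : 0 ≤ b - |α|)]
        rcases le_total a |α| with h3 | h3
        · rw [max_eq_left (by linarith : a - |α| ≤ 0), max_eq_left (by linarith : a - δ - |α| ≤ 0)]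
          linarith
        · rw [max_eq_right (by linarith : 0 ≤ a - |α|)]
          have : max 0 (a - δ - |α|) ≤ a - |α| := max_le (by linarith) (by linarith)
          linarith
  have hψm : ∀ α ∈ Icc a b, ψ α = 1 := by
    intro α hα
    have h0 : |α| = α := abs_of_pos (by linarith [hα.1])
    rw [hψ, h0, max_eq_right (by linarith [hα.2]), max_eq_right (by linarith [hα.2]),
      max_eq_left (by linarith [hα.1]), max_eq_left (by linarith [hα.1])]
    field_simp
    ring
  have hψs : ∀ α, b + δ ≤ |α| → ψ α = 0 := by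
    intro α hα
    rw [hψ, max_eq_left (by linarith), max_eq_left (by linarith), max_eq_left (by linarith),
        max_eq_left (by linarith)]
    simp
  have hψz : ∀ α ∈ Icc (0 : ℝ) (a - δ), ψ α = 0 := by
    intro α hα
    have h0 : |α| = α := abs_of_nonneg hα.1
    rw [hψ, h0, max_eq_right (by linarith [hα.2]), max_eq_right (by linarith [hα.2]),
      max_eq_right (by linarith [hα.2]), max_eq_right (by linarith [hα.2])]
    field_simp
    ring
  have hψe : ∀ α, ψ (-α) = ψ α := fun α => by rw [hψ, hψ, abs_neg]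
  -- the limit
  have hsum : ∀ {g : ℝ → ℝ}, Continuous g → ∫ α, ψ α * g α = ((∫ α, max 0 (b + δ - |α|) * g α) -
      (∫ α, max 0 (b - |α|) * g α) - (∫ α, max 0 (a - |α|) * g α) +
      ∫ α, max 0 (a - δ - |α|) * g α) / δ := by
    intro g hg
    have i1 := tent_integrable (b + δ) hg
    have i2 := tent_integrable b hg
    have i3 := tent_integrable a hg
    have i4 := tent_integrable (a - δ) hg
    have i12 : Integrable fun α : ℝ => max 0 (b + δ - |α|) * g α - max 0 (b - |α|) * g α :=
      i1.sub i2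
    have i123 : Integrable fun α : ℝ => max 0 (b + δ - |α|) * g α - max 0 (b - |α|) * g α -
      max 0 (a - |α|) * g α := i12.sub i3
    rw [← integral_sub i1 i2, ← integral_sub i12 i3,
      ← integral_add i123 i4, ← integral_div]
    refine integral_congr_ae (ae_of_all _ fun α => ?_)
    simp only
    rw [hψ]
    ring
  have hlim : Tendsto (fun T => ∫ α, ψ α * Fr T α) l (𝓝 (∫ α, ψ α * mn α)) := by
    have t1 := tent_lim hl hw (h := b + δ) (by linarith)
    have t2 := tent_lim hl hw (h := b) (by linarith)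
    have t3 := tent_lim hl hw (h := a) ha
    have t4 := tent_lim hl hw (h := a - δ) (by linarith)
    have t5 := (((t1.sub t2).sub t3).add t4).div_const δ
    have e1 : (b + δ + (∫ α, max 0 (b + δ - |α|) * mn α) - (b + ∫ α, max 0 (b - |α|) * mn α) -
        (a + ∫ α, max 0 (a - |α|) * mn α) + (a - δ + ∫ α, max 0 (a - δ - |α|) * mn α)) / δ =
        ∫ α, ψ α * mn α := by
      rw [hsum mn_cont]
      ring
    rw [e1] at t5
    refine t5.congr fun T => ?_
    rw [hsum (Fr_cont T)]
  have hhalf : ∀ {g : ℝ → ℝ}, Continuous g → (∀ α, g (-α) = g α) →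
      ∫ α, ψ α * g α = 2 * ((∫ α in (0 : ℝ)..(a - δ), ψ α * g α) +
        (∫ α in (a - δ)..a, ψ α * g α) + (∫ α in a..b, ψ α * g α) +
        ∫ α in b..(b + δ), ψ α * g α) := by
    intro g hg hge
    have c1 : Continuous fun α => ψ α * g α := hψc.mul hg
    have ci : ∀ p q : ℝ, IntervalIntegrable (fun α => ψ α * g α) volume p q :=
      fun p q => c1.intervalIntegrable p q
    rw [int_supp (show 0 < b + δ by linarith) (fun x hx => by rw [hψs x hx, zero_mul]),
      intervalIntegral.integral_add_adjacent_intervals (ci _ _) (ci _ _),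
      intervalIntegral.integral_add_adjacent_intervals (ci _ _) (ci _ _),
      intervalIntegral.integral_add_adjacent_intervals (ci _ _) (ci _ _),
      ← intervalIntegral.integral_add_adjacent_intervals (b := 0) (ci _ _) (ci _ _)]
    have : ∫ α in (-(b + δ))..0, ψ α * g α = ∫ α in (0 : ℝ)..(b + δ), ψ α * g α := by
      have h6 := intervalIntegral.integral_comp_neg (a := 0) (b := b + δ)
        (fun α => ψ α * g α)
      rw [neg_zero] at h6
      rw [← h6]
      refine intervalIntegral.integral_congr fun α _ => ?_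
      show ψ (-α) * g (-α) = ψ α * g α
      rw [hψe, hge]
    rw [this]
    ring
  have hmn : ∫ α, ψ α * mn α ≤ 2 * (∫ α in a..b, mn α) + 4 * δ := by
    rw [hhalf mn_cont mn_even]
    have z0 : ∫ α in (0 : ℝ)..(a - δ), ψ α * mn α = 0 := by
      rw [intervalIntegral.integral_congr (g := fun _ => (0 : ℝ))]
      · simp
      · intro α hα
        rw [uIcc_of_le (by linarith)] at hα
        show ψ α * mn α = 0
        rw [hψz α hα, zero_mul]
    have z1 : ∀ p q : ℝ, p ≤ q → ∫ α in p..q, ψ α * mn α ≤ q - p := by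
      intro p q hpq
      calc ∫ α in p..q, ψ α * mn α ≤ ∫ α in p..q, (1 : ℝ) := by
            refine intervalIntegral.integral_mono_on hpq ((hψc.mul mn_cont).intervalIntegrable _ _)
              (by simp) fun α _ => ?_
            exact mul_le_one₀ (hψ1 α) (mn_nonneg α) (mn_le α)
        _ = _ := by simp
    have z2 : ∫ α in a..b, ψ α * mn α = ∫ α in a..b, mn α := by
      refine intervalIntegral.integral_congr fun α hα => ?_
      rw [uIcc_of_le hab.le] at hα
      show ψ α * mn α = mn α
      rw [hψm α hα, one_mul]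
    have z3 := z1 (a - δ) a (by linarith)
    have z4 := z1 b (b + δ) (by linarith)
    rw [z0, z2]
    linarith
  filter_upwards [hlim.eventually (ge_mem_nhds (show ∫ α, ψ α * mn α <
    (∫ α, ψ α * mn α) + δ by linarith)), hl (eventually_ge_atTop 10)] with T h1 h2
  have hF0 := Fr_nonneg h2
  have hFc := Fr_cont T
  rw [hhalf hFc (Fr_even T)] at h1
  have z2 : ∫ α in a..b, ψ α * Fr T α = ∫ α in a..b, Fr T α := by
    refine intervalIntegral.integral_congr fun α hα => ?_
    rw [uIcc_of_le hab.le] at hα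
    show ψ α * Fr T α = Fr T α
    rw [hψm α hα, one_mul]
  have nn : ∀ p q : ℝ, p ≤ q → 0 ≤ ∫ α in p..q, ψ α * Fr T α := by
    intro p q hpq
    exact intervalIntegral.integral_nonneg hpq fun α _ => mul_nonneg (hψ0 α) (hF0 α)
  have n1 := nn 0 (a - δ) (by linarith)
  have n2 := nn (a - δ) a (by linarith)
  have n3 := nn b (b + δ) (by linarith)
  rw [z2] at h1
  linarith

end Pool.Agent.Y749.Rig
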