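import Pool.Agent.Y749.Rig.FFe

/-! # Upper bounds for the mean of the form factor and pair correlation: statements -/

set_option autoImplicit false

open MeasureTheory Set Filter Topology
open Complex (I)

namespace Pool.Agent.Y749.Rig.P

open Pool.Agent.Y744.G (zeros mult X Montgomery)
open Pool.Agent.Y749.Rig (Fr ZZ mm nT mn)

/-- Montgomery's function -/
noncomputable def F (T α : ℝ) : ℂ :=
  (X T : ℂ)⁻¹ * ∑ᶠ s ∈ zeros T, ∑ᶠ s' ∈ zeros T, (mult s : ℂ) * (mult s' : ℂ) *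
    ((T : ℂ) ^ (I * α * (s.im - s'.im)) * (4 / (4 + (s.im - s'.im) ^ 2)))

/-- the upper bound for the mean -/
def MeanUpper (l : Filter ℝ) (R : ℝ) : Prop := ∀ a b : ℝ, 0 < a → a < b → b ≤ R →
  ∀ ε : ℝ, 0 < ε → ∀ᶠ T in l, ∫ α in a..b, (F T α).re ≤ (∫ α in a..b, min α 1) + ε

lemma zeros_ZZ (T : ℝ) : zeros T = ((ZZ T : Finset ℂ) : Set ℂ) := by
  ext s
  rw [ZZ_eq, Finset.mem_coe, Pool.Agent.Y744.mem_Zt]
  rfl

lemma fsum {g : ℂ → ℂ} (T : ℝ) : ∑ᶠ s ∈ zeros T, g s = ∑ s ∈ ZZ T, g s := by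
  rw [zeros_ZZ]
  exact finsum_mem_coe_finset g _

lemma X_nT (T : ℝ) : X T = nT T := by
  unfold X nT
  ring

lemma F_eq {T : ℝ} (hT : 10 ≤ T) (α : ℝ) : F T α = (Fr T α : ℂ) := by
  have hn := nT_pos hT
  have hT0 : (T : ℂ) ≠ 0 := by
    have : T ≠ 0 := by linarith
    exact_mod_cast this
  have hpi := Real.pi_pos
  have hL := one_lt_log (show 3 ≤ T by linarith)
  have hLp : 0 < Real.log T := by linarith
  unfold F
  rw [fsum, X_nT]
  have h1 : ∀ s : ℂ, ∑ᶠ s' ∈ zeros T, (mult s : ℂ) * (mult s' : ℂ) *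
      ((T : ℂ) ^ (I * α * (s.im - s'.im)) * (4 / (4 + (s.im - s'.im) ^ 2))) =
      ∑ s' ∈ ZZ T, (mult s : ℂ) * (mult s' : ℂ) *
      ((T : ℂ) ^ (I * α * (s.im - s'.im)) * (4 / (4 + (s.im - s'.im) ^ 2))) := fun s => fsum T
  simp_rw [h1]
  have h2 : ∀ s s' : ℂ, (mult s : ℂ) * (mult s' : ℂ) *
      ((T : ℂ) ^ (I * α * (s.im - s'.im)) * (4 / (4 + (s.im - s'.im) ^ 2))) =
      ((mm s * mm s' * (Real.cos (α * Real.log T * (s.im - s'.im)) * ww (s.im - s'.im)) : ℝ) : ℂ) +
      ((mm s * mm s' * (Real.sin (α * Real.log T * (s.im - s'.im)) * ww (s.im - s'.im)) : ℝ) : ℂ) *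
        I := by
    intro s s'
    have e1 : (T : ℂ) ^ (I * α * (s.im - s'.im)) =
        ((Real.cos (α * Real.log T * (s.im - s'.im)) : ℝ) : ℂ) +
        ((Real.sin (α * Real.log T * (s.im - s'.im)) : ℝ) : ℂ) * I := by
      rw [Complex.cpow_def_of_ne_zero hT0, ← Complex.ofReal_log (by linarith),
        Complex.ofReal_cos, Complex.ofReal_sin, ← Complex.exp_mul_I]
      congr 1
      push_cast
      ring
    have e2 : (mult s : ℂ) = ((mm s : ℝ) : ℂ) := by
      show ((analyticOrderNatAt riemannZeta s : ℕ) : ℂ) =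
        (((analyticOrderNatAt riemannZeta s : ℕ) : ℝ) : ℂ)
      push_cast
      rfl
    have e3 : (mult s' : ℂ) = ((mm s' : ℝ) : ℂ) := by
      show ((analyticOrderNatAt riemannZeta s' : ℕ) : ℂ) =
        (((analyticOrderNatAt riemannZeta s' : ℕ) : ℝ) : ℂ)
      push_cast
      rfl
    rw [e1, e2, e3]
    unfold ww
    push_cast
    ring
  have h3 : ∑ s ∈ ZZ T, ∑ s' ∈ ZZ T, mm s * mm s' *
      (Real.sin (α * Real.log T * (s.im - s'.im)) * ww (s.im - s'.im)) = 0 := by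
    have h4 : ∑ s ∈ ZZ T, ∑ s' ∈ ZZ T, mm s * mm s' *
        (Real.sin (α * Real.log T * (s.im - s'.im)) * ww (s.im - s'.im)) =
        -∑ s ∈ ZZ T, ∑ s' ∈ ZZ T, mm s * mm s' *
        (Real.sin (α * Real.log T * (s.im - s'.im)) * ww (s.im - s'.im)) := by
      conv_lhs => rw [Finset.sum_comm]
      rw [← Finset.sum_neg_distrib]
      refine Finset.sum_congr rfl fun s _ => ?_
      rw [← Finset.sum_neg_distrib]
      refine Finset.sum_congr rfl fun s' _ => ?_
      have e1 : α * Real.log T * (s'.im - s.im) = -(α * Real.log T * (s.im - s'.im)) := by ring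
      have e2 : ww (s'.im - s.im) = ww (s.im - s'.im) := by
        unfold ww
        congr 2
        ring
      rw [e1, e2, Real.sin_neg]
      ring
    linarith
  have h5 : Fr T α = (∑ s ∈ ZZ T, ∑ s' ∈ ZZ T, mm s * mm s' *
      (Real.cos (α * Real.log T * (s.im - s'.im)) * ww (s.im - s'.im))) / nT T := by
    unfold Fr
    rw [Mp_integral hT (fun x => Real.cos (2 * Real.pi * α * x) * ww (2 * Real.pi * x / Real.log T))]
    congr 1
    unfold RR
    refine Finset.sum_congr rfl fun s _ => Finset.sum_congr rfl fun s' _ => ?_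
    congr 3
    field_simp
  simp_rw [h2, Finset.sum_add_distrib]
  rw [h5]
  have h6 : ∑ s ∈ ZZ T, ∑ s' ∈ ZZ T, ((mm s * mm s' *
      (Real.sin (α * Real.log T * (s.im - s'.im)) * ww (s.im - s'.im)) : ℝ) : ℂ) * I = 0 := by
    have : ∑ s ∈ ZZ T, ∑ s' ∈ ZZ T, ((mm s * mm s' *
      (Real.sin (α * Real.log T * (s.im - s'.im)) * ww (s.im - s'.im)) : ℝ) : ℂ) * I =
      ((∑ s ∈ ZZ T, ∑ s' ∈ ZZ T, mm s * mm s' *
      (Real.sin (α * Real.log T * (s.im - s'.im)) * ww (s.im - s'.im)) : ℝ) : ℂ) * I := by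
      push_cast
      rw [Finset.sum_mul]
      refine Finset.sum_congr rfl fun s _ => ?_
      rw [Finset.sum_mul]
    rw [this, h3]
    simp
  rw [h6, add_zero]
  push_cast
  ring

lemma mean_eq {T : ℝ} (hT : 10 ≤ T) (a b : ℝ) : ∫ α in a..b, (F T α).re = ∫ α in a..b, Fr T α := by
  refine intervalIntegral.integral_congr fun α _ => ?_
  show (F T α).re = Fr T α
  rw [F_eq hT, Complex.ofReal_re]

lemma min_eq {a b : ℝ} (ha : 0 < a) (hab : a < b) :
    ∫ α in a..b, min α 1 = ∫ α in a..b, mn α := by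
  refine intervalIntegral.integral_congr fun α hα => ?_
  rw [uIcc_of_le hab.le] at hα
  show min α 1 = mn α
  unfold mn
  rw [abs_of_pos (by linarith [hα.1])]

lemma up_iff {l : Filter ℝ} (hl : l ≤ atTop) (R : ℝ) : MeanUpper l R ↔ MeanUp l R := by
  unfold MeanUpper MeanUp
  refine forall_congr' fun a => forall_congr' fun b => forall_congr' fun ha =>
    forall_congr' fun hab => forall_congr' fun _ => forall_congr' fun ε => forall_congr' fun _ => ?_
  rw [min_eq ha hab]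
  constructor
  · intro h
    filter_upwards [h, hl (eventually_ge_atTop 10)] with T h1 h2
    rwa [mean_eq h2] at h1
  · intro h
    filter_upwards [h, hl (eventually_ge_atTop 10)] with T h1 h2
    rwa [mean_eq h2]

theorem main (hRH : RiemannHypothesis) (l : Filter ℝ) (hl : l ≤ atTop) :
    (Montgomery l ↔ ∀ R : ℝ, MeanUpper l R) ∧
    (∀ R : ℝ, 1 ≤ R → MeanUpper l R → ∀ a b : ℝ, 0 < a → a < b → b < R → ∀ ε : ℝ, 0 < ε →
      ∀ᶠ T in l, (∫ α in a..b, min α 1) - 1 / (6 * (R - b)) - ε ≤ ∫ α in a..b, (F T α).re) := by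
  constructor
  · rw [Pool.Agent.Y744.G.Mont_iff hl]
    constructor
    · intro h R
      rw [up_iff hl]
      exact up_weak hl (weak_win hl h) R
    · intro h α β hαβ
      have h1 : ∀ R : ℝ, MeanUp l R := fun R => (up_iff hl R).1 (h R)
      exact Pool.Agent.Y744.Nr_all hl (Aa_lim hl (weak_mean hRH hl (mean_lim hRH hl h1))) hαβ
  · intro R hR h a b ha hab hb ε hε
    filter_upwards [quant hRH hl hR ((up_iff hl R).1 h) ha hab hb hε, hl (eventually_ge_atTop 10)]
      with T h1 h2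
    rw [mean_eq h2, min_eq ha hab]
    exact h1

end Pool.Agent.Y749.Rig.P
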