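import Pool.Agent.Y749.Rig.Beu4
import Pool.Agent.Y749.Rig.Fam
import Pool.Agent.Y749.Rig.Stm1

/-! # Pair correlation on a long set of distant intervals -/

set_option autoImplicit false

open MeasureTheory Set Filter Topology
open scoped NNReal ENNReal

namespace Pool.Agent.Y749.Rig

variable {C : ℝ} {M : ℝ → Measure ℝ} {U : Ultrafilter ℝ} {μ : Measure ℝ}

/-- one length, windows in long intervals -/
theorem one_len_gap [SFinite μ] (hC : 2 ≤ C) (hM : ∀ᶠ T in atTop, Bdd C (M T))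
    (hE : ∀ᶠ T in atTop, Ev (M T)) (hU : (U : Filter ℝ) ≤ atTop)
    (hμ : ∀ f : ℝ → ℝ, Continuous f → QD f →
      Integrable f μ ∧ Tendsto (fun T => ∫ x, f x ∂(M T)) U (𝓝 (∫ x, f x ∂μ)))
    {κ : ℝ} (hκ : 0 < κ) (hκ1 : κ ≤ 1)
    (ht : ∀ ψ, Adm κ ψ → Tendsto (fun T => ∫ x, fl ψ x ∂(M T)) atTop (𝓝 (cc ψ)))
    {C' c : ℝ} (hC' : 0 ≤ C') (hc : 0 < c) {l : ℝ} (hl : 0 < l) {a b : ℕ → ℝ} (ha : ∀ n, 0 < a n)
    (hab : Tendsto (fun n => b n - a n) atTop atTop)
    (hdis : ∀ j k, j ≠ k → Disjoint (Ioo (a j) (b j)) (Ioo (a k) (b k)))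
    (hsum : ¬ Summable fun n => ((b n - a n) / b n) ^ 2)
    (ho : ∀ n, ∀ α : ℝ, a n ≤ α → α + l ≤ b n → ∀ ε : ℝ, 0 < ε → ∀ᶠ T in atTop,
      |(M T).real (Icc α (α + l)) - ∫ x in α..(α + l), FF x| ≤ C' * Real.exp (-(c * α)) + ε) :
    ∀ᵐ x : ℝ, wf μ (l / 2) x = wf mG (l / 2) x := by
  have hC0 : 0 ≤ C := by linarith
  have b1 := bdd_limit hU hC0 hM hμ
  have e1 := ev_limit hU hE hμ
  have hsfG := mG_sf
  have b2 : Bdd (4 * C) mG := fun a => (mG_bdd a).trans (ENNReal.ofReal_le_ofReal (by linarith))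
  have htest : ∀ ψ, Adm κ ψ → ∫ x, fl ψ x ∂μ = ∫ x, fl ψ x ∂mG := by
    intro ψ hψ
    rw [mG_test hψ hκ1]
    exact tendsto_nhds_unique (hμ _ (fl_cont hψ.int) (fl_qd hψ)).2 ((ht ψ hψ).mono_left hU)
  obtain ⟨β, hβ⟩ : ∃ β : ℝ, β = l / 2 := ⟨_, rfl⟩
  rw [← hβ]
  have hb : 0 < β := by rw [hβ]; positivity
  have hh : 0 < κ / 2 := by positivity
  have hk := adm_tr hh
  obtain ⟨B, hB⟩ := fl_bound hk
  have hB0 : 0 ≤ B := by
    have := (abs_nonneg _).trans (hB 0)
    simpa using this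
  have hkB : ∀ x, |fl (tr (κ / 2)) x| ≤ B := by
    intro x
    refine (hB x).trans ?_
    apply div_le_self hB0
    nlinarith [sq_nonneg x]
  have h4C : 0 ≤ 4 * C := by linarith
  obtain ⟨R, hR⟩ : ∃ R : ℝ, R = ((⌈2 * β⌉₊ : ℕ) + 1) * (4 * C) := ⟨_, rfl⟩
  have hR0 : 0 ≤ R := by rw [hR]; positivity
  have hu : ∀ x, |wf μ β x - wf mG β x| ≤ R := by
    intro x
    rw [abs_le]
    have a1 := wf_le h4C b1 β x
    have a2 := wf_le h4C b2 β x
    have a3 := wf_nonneg (μ := μ) β x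
    have a4 := wf_nonneg (μ := mG) β x
    rw [← hR] at a1 a2
    constructor <;> linarith
  have hum : Measurable fun x => wf μ β x - wf mG β x := (wf_meas β).sub (wf_meas β)
  obtain ⟨v, hv⟩ : ∃ v : ℝ → ℝ, ∀ x, v x = (wf μ β x - wf mG β x) * fl (tr (κ / 2)) x :=
    ⟨_, fun x => rfl⟩
  have hv' : v = fun x => (wf μ β x - wf mG β x) * fl (tr (κ / 2)) x := funext hv
  have hvi : Integrable v := by
    rw [hv']
    refine (fl_int hk).bdd_mul (c := R) hum.aestronglyMeasurable (ae_of_all _ fun x => ?_)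
    exact hu x
  have hve : ∀ x, v (-x) = v x := by
    intro x
    rw [hv, hv, wf_even h4C b1 e1, wf_even h4C b2 mG_ev, fl_even]
  have hgap : ∀ w, |w| < κ / 2 → fl v w = 0 := by
    intro ω hω
    obtain ⟨ψ, hψ⟩ : ∃ ψ, ψ = modu ω (tr (κ / 2)) := ⟨_, rfl⟩
    have hA : Adm κ ψ := by
      rw [hψ]
      exact (adm_modu hk ω).mono (by linarith)
    have hW := adm_win hA hb.le
    have e3 : ∀ x, v x * Real.cos (2 * Real.pi * x * ω) =
        wf μ β x * fl ψ x - wf mG β x * fl ψ x := by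
      intro x
      rw [hv, hψ, fl_modu hk, show 2 * Real.pi * x * ω = 2 * Real.pi * ω * x by ring]; ring
    have hi : ∀ {μ : Measure ℝ} [SFinite μ], Bdd (4 * C) μ →
        Integrable fun x => wf μ β x * fl ψ x := by
      intro μ _ hμ
      refine (fl_int hA).bdd_mul (c := R) (wf_meas β).aestronglyMeasurable
        (ae_of_all _ fun x => ?_)
      rw [Real.norm_eq_abs, abs_of_nonneg (wf_nonneg _ _), hR]
      exact wf_le h4C hμ β x
    show ∫ x, v x * Real.cos (2 * Real.pi * x * ω) = 0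
    simp_rw [e3]
    rw [integral_sub (hi b1) (hi b2), wf_fubini h4C b1 hb.le (fl_cont hA.int) (fl_qd hA),
      wf_fubini h4C b2 hb.le (fl_cont hA.int) (fl_qd hA)]
    simp_rw [← fl_win hA hb.le]
    rw [htest _ hW, sub_self]
  -- smallness
  have hsmall : ∀ n, ∀ᵐ y : ℝ, y ∈ Icc (a n + β) (b n - β) →
      |v y| ≤ (C' * Real.exp (c * β) * B) * Real.exp (-(c * y)) := by
    intro n
    filter_upwards [icc_ioo b1 (b := β)] with y hy hyI
    have hl2 : y - β + l = y + β := by rw [hβ]; ring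
    have hG : wf mG β y = ∫ x in (y - β)..(y + β), FF x :=
      mG_real (by linarith [ha n, hyI.1]) (by linarith)
    have hoy := ho n (y - β) (by linarith [hyI.1]) (by rw [hl2]; linarith [hyI.2])
    rw [hl2] at hoy
    have u1 : wf μ β y ≤ (∫ x in (y - β)..(y + β), FF x) + C' * Real.exp (-(c * (y - β))) := by
      refine hy.trans (lim_upper hC0 hM hU hμ fun ε hε => ?_)
      filter_upwards [hU (hoy ε hε)] with T hT
      linarith [(abs_le.1 hT).2]
    have u2 : (∫ x in (y - β)..(y + β), FF x) - C' * Real.exp (-(c * (y - β))) ≤ wf μ β y := by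
      refine lim_lower hC0 hM hU hμ fun ε hε => ?_
      filter_upwards [hU (hoy ε hε)] with T hT
      linarith [(abs_le.1 hT).1]
    have e3 : Real.exp (-(c * (y - β))) = Real.exp (c * β) * Real.exp (-(c * y)) := by
      rw [← Real.exp_add]; congr 1; ring
    rw [e3] at u1 u2
    have u3 : |wf μ β y - wf mG β y| ≤ C' * (Real.exp (c * β) * Real.exp (-(c * y))) := by
      rw [hG, abs_le]
      constructor <;> linarith
    rw [hv, abs_mul]
    calc |wf μ β y - wf mG β y| * |fl (tr (κ / 2)) y| ≤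
          (C' * (Real.exp (c * β) * Real.exp (-(c * y)))) * B :=
          mul_le_mul u3 (hkB y) (abs_nonneg _) (by positivity)
      _ = _ := by ring
  -- the intervals
  obtain ⟨n0, hn0⟩ := (hab.eventually_ge_atTop (2 * l + 16)).exists_forall_of_atTop
  have hgood : ∀ n, 2 * l + 16 ≤ b (n + n0) - a (n + n0) := fun n => hn0 _ (by omega)
  obtain ⟨a', ha'⟩ : ∃ a' : ℕ → ℝ, ∀ n, a' n = a (n + n0) + β := ⟨_, fun n => rfl⟩
  obtain ⟨r', hr'⟩ : ∃ r' : ℕ → ℝ, ∀ n, r' n = (b (n + n0) - a (n + n0) - l) / 8 := ⟨_, fun n => rfl⟩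
  have hend : ∀ n, a' n + 8 * r' n = b (n + n0) - β := by
    intro n
    rw [ha', hr', hβ]; ring
  have hz : v =ᵐ[volume] 0 := by
    refine beurling hvi hve hh hgap (C := C' * Real.exp (c * β) * B) (c := c) (by positivity) hc
      (a := a') (r := r') (fun n => ?_) (fun n => ?_) (fun j k hjk => ?_) ?_ (fun n => ?_)
    · rw [ha']
      have := ha (n + n0)
      linarith
    · rw [hr']
      have := hgood n
      linarith
    · rw [hend, hend, ha', ha']
      exact (hdis (j + n0) (k + n0) (by omega)).mono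
        (Icc_subset_Ioo (by linarith) (by linarith)) (Icc_subset_Ioo (by linarith) (by linarith))
    · intro hs
      apply hsum
      rw [← summable_nat_add_iff n0]
      refine Summable.of_nonneg_of_le (fun n => sq_nonneg _) (fun n => ?_) (hs.mul_left 256)
      have g1 := hgood n
      have g2 := ha (n + n0)
      have g3 : 0 < b (n + n0) := by linarith
      rw [hend]
      have g4 : 0 < b (n + n0) - β := by rw [hβ]; linarith
      have g5 : (b (n + n0) - a (n + n0)) / b (n + n0) ≤ 16 * (r' n / (b (n + n0) - β)) := by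
        rw [hr', ← mul_div_assoc]
        have g6 : b (n + n0) - a (n + n0) ≤ 16 * ((b (n + n0) - a (n + n0) - l) / 8) := by linarith
        have g7 : 0 ≤ b (n + n0) - a (n + n0) := by linarith
        calc (b (n + n0) - a (n + n0)) / b (n + n0) ≤
              (b (n + n0) - a (n + n0)) / (b (n + n0) - β) := by
              apply div_le_div_of_nonneg_left g7 g4
              linarith
          _ ≤ _ := by gcongr
      have g8 : 0 ≤ (b (n + n0) - a (n + n0)) / b (n + n0) := by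
        apply div_nonneg <;> linarith
      have := pow_le_pow_left₀ g8 g5 2
      rw [mul_pow] at this
      norm_num at this ⊢
      linarith
    · rw [hend, ha']
      exact hsmall (n + n0)
  filter_upwards [hz, fl_tr_ne hh] with x hx hx2
  rw [hv] at hx
  have := (mul_eq_zero.1 hx).resolve_right hx2
  linarith

/-- the asymptotic formula in the intervals -/
def GP (a b : ℕ → ℝ) (l : ℝ) : Prop := ∃ C c : ℝ, 0 < c ∧ ∀ n : ℕ, ∀ α : ℝ, a n ≤ α →
  α + l ≤ b n → ∀ ε : ℝ, 0 < ε → ∀ᶠ T in atTop,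
    |(nw T α (α + l) : ℝ) / nT T - ∫ u in α..(α + l), FF u| ≤ C * Real.exp (-(c * α)) + ε

theorem gap_thm {l₁ l₂ : ℝ} (hl₁ : 0 < l₁) (hl₂ : 0 < l₂) (hir : Irrational (l₁ / l₂))
    {a b : ℕ → ℝ} (ha : ∀ n, 0 < a n) (hab : Tendsto (fun n => b n - a n) atTop atTop)
    (hdis : ∀ j k, j ≠ k → Disjoint (Ioo (a j) (b j)) (Ioo (a k) (b k)))
    (hsum : ¬ Summable fun n => ((b n - a n) / b n) ^ 2) :
    QQ ↔ (OFF ∧ GP a b l₁ ∧ GP a b l₂) := by
  constructor
  · intro h
    have hub : ∀ l : ℝ, 0 < l → GP a b l := by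
      intro l hl
      refine ⟨0, 1, one_pos, fun n α hα _ ε hε => ?_⟩
      have h1 := h α (α + l) (by linarith [ha n]) (by linarith)
      rw [Metric.tendsto_nhds] at h1
      filter_upwards [h1 ε hε] with T hT
      rw [Real.dist_eq] at hT
      linarith
    exact ⟨NF_off (off_of_win (qq_Mp.1 h)), hub l₁ hl₁, hub l₂ hl₂⟩
  · rintro ⟨h0, h1, h2⟩
    rw [qq_Mp]
    obtain ⟨C, hC, hB⟩ := Mp_bdd
    obtain ⟨κ, hκ, hκ2, hblk⟩ := blk_main
    have hE : ∀ᶠ T in atTop, Ev (Mp T) := by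
      filter_upwards [eventually_ge_atTop 10] with T hT using Mp_ev hT
    have hoff := off_NF h0
    have hside : ∀ l : ℝ, 0 < l → GP a b l → ∃ C' c' : ℝ, 0 ≤ C' ∧ 0 < c' ∧
        ∀ n, ∀ α : ℝ, a n ≤ α → α + l ≤ b n → ∀ ε : ℝ, 0 < ε → ∀ᶠ T in atTop,
        |(Mp T).real (Icc α (α + l)) - ∫ x in α..(α + l), FF x| ≤
          C' * Real.exp (-(c' * α)) + ε := by
      rintro l hl ⟨C', c', hc', h⟩
      refine ⟨|C'|, c', abs_nonneg _, hc', fun n α h3 h4 ε hε => ?_⟩
      filter_upwards [h n α h3 h4 ε hε, eventually_ge_atTop 10] with T hT hT10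
      rw [nw_Mp hT10] at hT
      have : C' * Real.exp (-(c' * α)) ≤ |C'| * Real.exp (-(c' * α)) := by
        gcongr
        exact le_abs_self _
      linarith
    obtain ⟨C₁, c₁, a1, a2, a3⟩ := hside l₁ hl₁ h1
    obtain ⟨C₂, c₂, d1, d2, d3⟩ := hside l₂ hl₂ h2
    intro α β hα hαβ
    rw [tendsto_iff_ultrafilter]
    intro U hU
    have hC0 : 0 ≤ C := by linarith
    obtain ⟨μ, hsf, hμ⟩ := exists_limit hC0 hB U hU
    have c1 := bdd_limit hU hC0 hB hμ
    have hsfG := mG_sf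
    have c2 : Bdd (4 * C) mG := fun a => (mG_bdd a).trans (ENNReal.ofReal_le_ofReal (by linarith))
    have ht : ∀ ψ, Adm κ ψ → Tendsto (fun T => ∫ x, fl ψ x ∂(Mp T)) atTop (𝓝 (cc ψ)) :=
      fun ψ hψ => test_lim hψ (hblk ψ hψ hoff)
    have w1 := one_len_gap hC hB hE hU hμ hκ (by linarith) ht a1 a2 hl₁ ha hab hdis hsum a3
    have w2 := one_len_gap hC hB hE hU hμ hκ (by linarith) ht d1 d2 hl₂ ha hab hdis hsum d3
    have hir2 : Irrational (l₁ / 2 / (l₂ / 2)) := by
      rwa [div_div_div_cancel_right₀ two_ne_zero]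
    exact fam_end hC hB hU hμ (fun b hb => two_len c1 c2 (by positivity) (by positivity) hir2 w1 w2 hb)
      hα hαβ

end Pool.Agent.Y749.Rig
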