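import Mathlib

/-! # Sums over pairs and local counts -/

set_option autoImplicit false

open MeasureTheory Set Filter Topology
open scoped NNReal ENNReal

namespace Pool.Agent.Y749.Rig

/-- local sum of weights -/
noncomputable def fw (A : Finset ℂ) (a : ℂ → ℝ) (L t : ℝ) : ℝ :=
  ∑ s ∈ A.filter (fun s => |s.im - t| ≤ 1 / L), a s

variable {A B : Finset ℂ} {a b : ℂ → ℝ} {L : ℝ}

lemma fw_nonneg (ha : ∀ s, 0 ≤ a s) (t : ℝ) : 0 ≤ fw A a L t := Finset.sum_nonneg fun s _ => ha s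

lemma fw_eq (t : ℝ) : fw A a L t =
    ∑ s ∈ A, (Icc (s.im - 1 / L) (s.im + 1 / L)).indicator (fun _ => a s) t := by
  unfold fw
  rw [Finset.sum_filter]
  refine Finset.sum_congr rfl fun s _ => ?_
  by_cases h : |s.im - t| ≤ 1 / L
  · rw [if_pos h, indicator_of_mem]
    have := abs_le.1 h
    exact ⟨by linarith, by linarith⟩
  · rw [if_neg h, indicator_of_notMem]
    intro h2
    exact h (abs_le.2 ⟨by linarith [h2.2], by linarith [h2.1]⟩)

lemma fw_meas : Measurable (fw A a L) := by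
  have : fw A a L = fun t => ∑ s ∈ A, (Icc (s.im - 1 / L) (s.im + 1 / L)).indicator
      (fun _ => a s) t := funext fun t => fw_eq t
  rw [this]
  exact Finset.measurable_fun_sum _ fun s _ => measurable_const.indicator measurableSet_Icc

lemma fw_mono (hAB : A ⊆ B) (hab : ∀ s ∈ A, a s ≤ b s) (t : ℝ)
    (hb : ∀ s, 0 ≤ b s) : fw A a L t ≤ fw B b L t := by
  unfold fw
  calc ∑ s ∈ A.filter (fun s => |s.im - t| ≤ 1 / L), a s ≤
        ∑ s ∈ A.filter (fun s => |s.im - t| ≤ 1 / L), b s :=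
        Finset.sum_le_sum fun s hs => hab s (Finset.mem_filter.1 hs).1
    _ ≤ _ := Finset.sum_le_sum_of_subset_of_nonneg (Finset.filter_subset_filter _ hAB)
        fun s _ _ => hb s

lemma cls (ha : ∀ s, 0 ≤ a s) (hb : ∀ s, 0 ≤ b s) (hL : 0 < L) {P : Finset (ℂ × ℂ)}
    (hP : P ⊆ A ×ˢ B) {τ : ℝ} (hτ : ∀ p ∈ P, |p.1.im - p.2.im - τ| ≤ 1 / (2 * L)) :
    ENNReal.ofReal ((∑ p ∈ P, a p.1 * b p.2) * (1 / L)) ≤
      ∫⁻ t, ENNReal.ofReal (fw A a L t) * ENNReal.ofReal (fw B b L (t - τ)) := by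
  have hhalf : 1 / (2 * L) + 1 / (2 * L) = 1 / L := by field_simp; norm_num
  have hhalf0 : 0 < 1 / (2 * L) := by positivity
  have key : ∀ t, ∑ p ∈ P, (Icc (p.1.im - 1 / (2 * L)) (p.1.im + 1 / (2 * L))).indicator
      (fun _ => a p.1 * b p.2) t ≤ fw A a L t * fw B b L (t - τ) := by
    intro t
    classical
    have h1 : ∑ p ∈ P, (Icc (p.1.im - 1 / (2 * L)) (p.1.im + 1 / (2 * L))).indicator
        (fun _ => a p.1 * b p.2) t =
        ∑ p ∈ P.filter (fun p => t ∈ Icc (p.1.im - 1 / (2 * L)) (p.1.im + 1 / (2 * L))),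
          a p.1 * b p.2 := by
      rw [Finset.sum_filter]
      refine Finset.sum_congr rfl fun p _ => ?_
      by_cases h : t ∈ Icc (p.1.im - 1 / (2 * L)) (p.1.im + 1 / (2 * L))
      · rw [if_pos h, indicator_of_mem h]
      · rw [if_neg h, indicator_of_notMem h]
    rw [h1]
    unfold fw
    rw [Finset.sum_mul_sum, ← Finset.sum_product']
    refine Finset.sum_le_sum_of_subset_of_nonneg ?_ fun p _ _ => mul_nonneg (ha _) (hb _)
    intro p hp
    rw [Finset.mem_filter] at hp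
    obtain ⟨hp1, hp2⟩ := hp
    have hp3 := Finset.mem_product.1 (hP hp1)
    have hp4 := abs_le.1 (hτ p hp1)
    rw [Finset.mem_product, Finset.mem_filter, Finset.mem_filter]
    refine ⟨⟨hp3.1, abs_le.2 ⟨?_, ?_⟩⟩, hp3.2, abs_le.2 ⟨?_, ?_⟩⟩
    · linarith [hp2.2]
    · linarith [hp2.1]
    · linarith [hp2.2, hp4.2]
    · linarith [hp2.1, hp4.1]
  calc ENNReal.ofReal ((∑ p ∈ P, a p.1 * b p.2) * (1 / L)) =
        ∫⁻ t, ENNReal.ofReal (∑ p ∈ P, (Icc (p.1.im - 1 / (2 * L))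
          (p.1.im + 1 / (2 * L))).indicator (fun _ => a p.1 * b p.2) t) := by
        have h2 : ∀ t, ENNReal.ofReal (∑ p ∈ P, (Icc (p.1.im - 1 / (2 * L))
            (p.1.im + 1 / (2 * L))).indicator (fun _ => a p.1 * b p.2) t) =
            ∑ p ∈ P, (Icc (p.1.im - 1 / (2 * L)) (p.1.im + 1 / (2 * L))).indicator
              (fun _ => ENNReal.ofReal (a p.1 * b p.2)) t := by
          intro t
          rw [ENNReal.ofReal_sum_of_nonneg]
          · refine Finset.sum_congr rfl fun p _ => ?_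
            by_cases h : t ∈ Icc (p.1.im - 1 / (2 * L)) (p.1.im + 1 / (2 * L))
            · rw [indicator_of_mem h, indicator_of_mem h]
            · rw [indicator_of_notMem h, indicator_of_notMem h, ENNReal.ofReal_zero]
          · intro p _
            exact indicator_nonneg (fun _ _ => mul_nonneg (ha _) (hb _)) _
        simp_rw [h2]
        rw [lintegral_finsetSum _ fun p _ => measurable_const.indicator measurableSet_Icc]
        rw [Finset.sum_mul, ENNReal.ofReal_sum_of_nonneg fun p _ =>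
          mul_nonneg (mul_nonneg (ha _) (hb _)) (by positivity)]
        refine Finset.sum_congr rfl fun p _ => ?_
        rw [lintegral_indicator_const measurableSet_Icc, Real.volume_Icc,
          ENNReal.ofReal_mul (mul_nonneg (ha _) (hb _))]
        congr 2
        rw [← hhalf]; ring
    _ ≤ ∫⁻ t, ENNReal.ofReal (fw A a L t * fw B b L (t - τ)) :=
        lintegral_mono fun t => ENNReal.ofReal_le_ofReal (key t)
    _ = _ := by
        refine lintegral_congr fun t => ?_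
        rw [ENNReal.ofReal_mul (fw_nonneg ha t)]

/-- square mean bounds -/
def SB (f : ℝ → ℝ) (X : ℝ) : Prop := ∫⁻ t, ENNReal.ofReal (f t ^ 2) ≤ ENNReal.ofReal (X ^ 2)

lemma cs (ha : ∀ s, 0 ≤ a s) (hb : ∀ s, 0 ≤ b s) {X Y : ℝ} (hX : 0 ≤ X) (hY : 0 ≤ Y)
    (h1 : SB (fw A a L) X) (h2 : SB (fw B b L) Y) (τ : ℝ) :
    ∫⁻ t, ENNReal.ofReal (fw A a L t) * ENNReal.ofReal (fw B b L (t - τ)) ≤
      ENNReal.ofReal (X * Y) := by
  have m1 : AEMeasurable (fun t => ENNReal.ofReal (fw A a L t)) volume :=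
    fw_meas.ennreal_ofReal.aemeasurable
  have m2 : AEMeasurable (fun t => ENNReal.ofReal (fw B b L (t - τ))) volume :=
    (fw_meas.comp (measurable_id.sub_const τ)).ennreal_ofReal.aemeasurable
  have h3 := ENNReal.lintegral_mul_le_Lp_mul_Lq volume Real.HolderConjugate.two_two m1 m2
  have e1 : ∀ {A : Finset ℂ} {a : ℂ → ℝ}, (∀ s, 0 ≤ a s) → ∀ t : ℝ,
      ENNReal.ofReal (fw A a L t) ^ (2 : ℝ) = ENNReal.ofReal (fw A a L t ^ 2) := by
    intro A a ha t
    rw [ENNReal.ofReal_rpow_of_nonneg (fw_nonneg ha t) (by norm_num)]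
    norm_num
  have e2 : (∫⁻ t, ENNReal.ofReal (fw A a L t) ^ (2 : ℝ)) ^ (1 / (2 : ℝ)) ≤ ENNReal.ofReal X := by
    simp_rw [e1 ha]
    calc (∫⁻ t, ENNReal.ofReal (fw A a L t ^ 2)) ^ (1 / (2 : ℝ)) ≤
          (ENNReal.ofReal (X ^ 2)) ^ (1 / (2 : ℝ)) := by gcongr; exact h1
      _ = ENNReal.ofReal X := by
          rw [ENNReal.ofReal_rpow_of_nonneg (by positivity) (by norm_num), ← Real.sqrt_eq_rpow,
            Real.sqrt_sq hX]
  have e3 : (∫⁻ t, ENNReal.ofReal (fw B b L (t - τ)) ^ (2 : ℝ)) ^ (1 / (2 : ℝ)) ≤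
      ENNReal.ofReal Y := by
    simp_rw [e1 hb]
    rw [lintegral_sub_right_eq_self (fun t => ENNReal.ofReal (fw B b L t ^ 2)) τ]
    calc (∫⁻ t, ENNReal.ofReal (fw B b L t ^ 2)) ^ (1 / (2 : ℝ)) ≤
          (ENNReal.ofReal (Y ^ 2)) ^ (1 / (2 : ℝ)) := by gcongr; exact h2
      _ = ENNReal.ofReal Y := by
          rw [ENNReal.ofReal_rpow_of_nonneg (by positivity) (by norm_num), ← Real.sqrt_eq_rpow,
            Real.sqrt_sq hY]
  rw [ENNReal.ofReal_mul hX]
  exact h3.trans (mul_le_mul' e2 e3)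

lemma cls_le (ha : ∀ s, 0 ≤ a s) (hb : ∀ s, 0 ≤ b s) (hL : 0 < L) {X Y : ℝ} (hX : 0 ≤ X)
    (hY : 0 ≤ Y) (h1 : SB (fw A a L) X) (h2 : SB (fw B b L) Y) {P : Finset (ℂ × ℂ)}
    (hP : P ⊆ A ×ˢ B) {τ : ℝ} (hτ : ∀ p ∈ P, |p.1.im - p.2.im - τ| ≤ 1 / (2 * L)) :
    ∑ p ∈ P, a p.1 * b p.2 ≤ L * X * Y := by
  have h3 := (cls ha hb hL hP hτ).trans (cs ha hb hX hY h1 h2 τ)
  rw [ENNReal.ofReal_le_ofReal_iff (by positivity), mul_one_div, div_le_iff₀ hL] at h3
  linarith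

theorem kl (ha : ∀ s, 0 ≤ a s) (hb : ∀ s, 0 ≤ b s) (hL : 0 < L) {X Y : ℝ} (hX : 0 ≤ X)
    (hY : 0 ≤ Y) (h1 : SB (fw A a L) X) (h2 : SB (fw B b L) Y) {K : ℂ → ℂ → ℝ} {w : ℤ → ℝ}
    (hw0 : ∀ k, 0 ≤ w k) (hws : Summable w)
    (hK : ∀ s ∈ A, ∀ s' ∈ B, K s s' ≤ w ⌊(s.im - s'.im) * L⌋) :
    ∑ s ∈ A, ∑ s' ∈ B, a s * b s' * K s s' ≤ (∑' k, w k) * (L * X * Y) := by
  classical
  obtain ⟨g, hg⟩ : ∃ g : ℂ × ℂ → ℤ, ∀ p, g p = ⌊(p.1.im - p.2.im) * L⌋ := ⟨_, fun p => rfl⟩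
  have hLXY : 0 ≤ L * X * Y := by positivity
  calc ∑ s ∈ A, ∑ s' ∈ B, a s * b s' * K s s' = ∑ p ∈ A ×ˢ B, a p.1 * b p.2 * K p.1 p.2 :=
        (Finset.sum_product' A B fun s s' => a s * b s' * K s s').symm
    _ ≤ ∑ p ∈ A ×ˢ B, a p.1 * b p.2 * w (g p) := by
        refine Finset.sum_le_sum fun p hp => ?_
        rw [Finset.mem_product] at hp
        rw [hg]
        exact mul_le_mul_of_nonneg_left (hK _ hp.1 _ hp.2) (mul_nonneg (ha _) (hb _))
    _ = ∑ k ∈ (A ×ˢ B).image g, ∑ p ∈ (A ×ˢ B).filter (fun p => g p = k),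
          a p.1 * b p.2 * w (g p) :=
        (Finset.sum_fiberwise_of_maps_to (fun p hp => Finset.mem_image_of_mem g hp) _).symm
    _ ≤ ∑ k ∈ (A ×ˢ B).image g, w k * (L * X * Y) := by
        refine Finset.sum_le_sum fun k _ => ?_
        have e1 : ∑ p ∈ (A ×ˢ B).filter (fun p => g p = k), a p.1 * b p.2 * w (g p) =
            w k * ∑ p ∈ (A ×ˢ B).filter (fun p => g p = k), a p.1 * b p.2 := by
          rw [Finset.mul_sum]
          refine Finset.sum_congr rfl fun p hp => ?_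
          rw [(Finset.mem_filter.1 hp).2]; ring
        rw [e1]
        refine mul_le_mul_of_nonneg_left ?_ (hw0 k)
        refine cls_le ha hb hL hX hY h1 h2 (Finset.filter_subset _ _) (τ := (k + 1 / 2) / L) ?_
        intro p hp
        have h3 := (Finset.mem_filter.1 hp).2
        rw [hg] at h3
        have h4 := Int.floor_le ((p.1.im - p.2.im) * L)
        have h5 := Int.lt_floor_add_one ((p.1.im - p.2.im) * L)
        rw [h3] at h4 h5
        have e2 : p.1.im - p.2.im - (k + 1 / 2) / L = ((p.1.im - p.2.im) * L - (k + 1 / 2)) / L := by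
          field_simp
        rw [e2, abs_div, abs_of_pos hL, div_le_iff₀ hL]
        have e3 : 1 / (2 * L) * L = 1 / 2 := by field_simp
        rw [e3, abs_le]
        constructor <;> linarith
    _ = (∑ k ∈ (A ×ˢ B).image g, w k) * (L * X * Y) := by rw [Finset.sum_mul]
    _ ≤ (∑' k, w k) * (L * X * Y) := by
        gcongr
        exact hws.sum_le_tsum _ fun k _ => hw0 k

end Pool.Agent.Y749.Rig
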