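import Pool.Agent.Y749.Rig.Tst2

/-! # Kernels with compactly supported transform that are small far away -/

set_option autoImplicit false

open MeasureTheory Set Filter Topology
open Complex (I)
open scoped FourierTransform

namespace Pool.Agent.Y749.Rig

/-- continuous even probability densities with compact support and integrable transform -/
structure Nic (κ : ℝ) (ψ : ℝ → ℝ) : Prop where
  cont : Continuous ψ
  even : ∀ x, ψ (-x) = ψ x
  supp : ∀ x, κ ≤ |x| → ψ x = 0
  one : ∫ x, ψ x = 1
  fli : Integrable (fl ψ)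

/-- averages of shifts -/
noncomputable def av (a : ℝ) (ψ : ℝ → ℝ) (t : ℝ) : ℝ := 1 / (2 * a) * ∫ w in (-a)..a, ψ (t + w)

variable {κ : ℝ} {ψ : ℝ → ℝ}

lemma Nic.hcs (h : Nic κ ψ) : HasCompactSupport ψ := by
  refine HasCompactSupport.of_support_subset_isCompact (isCompact_Icc (a := -κ) (b := κ)) ?_
  intro x hx
  by_contra hcon
  apply hx
  apply h.supp
  by_contra h2
  push Not at h2
  exact hcon ⟨(abs_lt.1 h2).1.le, (abs_lt.1 h2).2.le⟩

lemma Nic.int (h : Nic κ ψ) : Integrable ψ := h.cont.integrable_of_hasCompactSupport h.hcs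

lemma Nic.bdd (h : Nic κ ψ) : ∃ M : ℝ, 0 ≤ M ∧ ∀ x, |ψ x| ≤ M := by
  obtain ⟨M, hM⟩ := h.hcs.exists_bound_of_continuous h.cont
  exact ⟨M, (norm_nonneg _).trans (hM 0), fun x => hM x⟩

lemma inv_gen {ψ : ℝ → ℝ} (hc : Continuous ψ) (hi : Integrable ψ) (he : ∀ x, ψ (-x) = ψ x)
    (hf : Integrable (fl ψ)) (t : ℝ) : fl (fl ψ) t = ψ t := by
  have hi' : Integrable (fun α : ℝ => (ψ α : ℂ)) := hi.ofReal
  have e1 : 𝓕 (fun α : ℝ => (ψ α : ℂ)) = fun x => ((fl ψ x : ℝ) : ℂ) :=
    funext fun x => four_eq hi he x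
  have hi2 : Integrable (𝓕 (fun α : ℝ => (ψ α : ℂ))) := by
    rw [e1]; exact hf.ofReal
  have hc' : Continuous (fun α : ℝ => (ψ α : ℂ)) := Complex.continuous_ofReal.comp hc
  have h1 := congrFun (hc'.fourierInv_fourier_eq hi' hi2) (-t)
  rw [Real.fourierInv_eq_fourier_neg, neg_neg, e1, four_eq hf (fun x => fl_even x)] at h1
  rw [he] at h1
  exact_mod_cast h1

lemma int_mul_cos {f : ℝ → ℝ} (hi : Integrable f) (y : ℝ) :
    Integrable fun α : ℝ => f α * Real.cos (2 * Real.pi * α * y) := by
  refine hi.mul_bdd (c := 1) (by fun_prop) (ae_of_all _ fun α => ?_)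
  rw [Real.norm_eq_abs]; exact Real.abs_cos_le_one _

lemma int_mul_sin {f : ℝ → ℝ} (hi : Integrable f) (y : ℝ) :
    Integrable fun α : ℝ => f α * Real.sin (2 * Real.pi * α * y) := by
  refine hi.mul_bdd (c := 1) (by fun_prop) (ae_of_all _ fun α => ?_)
  rw [Real.norm_eq_abs]; exact Real.abs_sin_le_one _

lemma shift_cos (hi : Integrable ψ) (he : ∀ x, ψ (-x) = ψ x) (w y : ℝ) :
    ∫ t, ψ (t + w) * Real.cos (2 * Real.pi * t * y) = Real.cos (2 * Real.pi * w * y) * fl ψ y := by
  have h1 := integral_add_right_eq_self (μ := volume)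
    (fun t => ψ t * Real.cos (2 * Real.pi * (t - w) * y)) w
  simp only [add_sub_cancel_right] at h1
  rw [h1]
  have h2 : ∀ t, ψ t * Real.cos (2 * Real.pi * (t - w) * y) =
      Real.cos (2 * Real.pi * w * y) * (ψ t * Real.cos (2 * Real.pi * t * y)) +
      Real.sin (2 * Real.pi * w * y) * (ψ t * Real.sin (2 * Real.pi * t * y)) := by
    intro t
    rw [show 2 * Real.pi * (t - w) * y = 2 * Real.pi * t * y - 2 * Real.pi * w * y by ring,
      Real.cos_sub]
    ring
  simp_rw [h2]
  rw [integral_add ((int_mul_cos hi y).const_mul _) ((int_mul_sin hi y).const_mul _),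
    integral_const_mul, integral_const_mul]
  have h3 : ∫ t, ψ t * Real.sin (2 * Real.pi * t * y) = 0 := by
    apply int_zero_of_odd
    intro t
    rw [he, show 2 * Real.pi * -t * y = -(2 * Real.pi * t * y) by ring, Real.sin_neg]
    ring
  rw [h3]
  unfold fl
  ring

lemma int_cos_sinc {a : ℝ} (ha : 0 < a) (y : ℝ) :
    ∫ w in (-a)..a, Real.cos (2 * Real.pi * w * y) = 2 * a * Real.sinc (2 * Real.pi * a * y) := by
  have hpi := Real.pi_pos
  rcases eq_or_ne y 0 with h | h
  · subst h
    simp
    ring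
  · have hne : 2 * Real.pi * a * y ≠ 0 := by positivity
    rw [Real.sinc_of_ne_zero hne]
    have h1 : ∀ w : ℝ, 2 * Real.pi * w * y = (2 * Real.pi * y) * w := fun w => by ring
    simp_rw [h1]
    have h2 : (2 * Real.pi * y) ≠ 0 := by positivity
    rw [intervalIntegral.integral_comp_mul_left (fun x => Real.cos x) h2, integral_cos, smul_eq_mul]
    rw [show 2 * Real.pi * y * -a = -(2 * Real.pi * y * a) by ring, Real.sin_neg,
      show 2 * Real.pi * y * a = 2 * Real.pi * a * y by ring]
    field_simp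
    ring

lemma fl_av (h : Nic κ ψ) {a : ℝ} (ha : 0 < a) (y : ℝ) :
    fl (av a ψ) y = fl ψ y * Real.sinc (2 * Real.pi * a * y) := by
  obtain ⟨M, hM0, hM⟩ := h.bdd
  have hsw : ∫ t : ℝ, ∫ w in (-a)..a, ψ (t + w) * Real.cos (2 * Real.pi * t * y) =
      ∫ w in (-a)..a, ∫ t : ℝ, ψ (t + w) * Real.cos (2 * Real.pi * t * y) := by
    refine (intervalIntegral_integral_swap ?_).symm
    have hdom : Integrable (fun z : ℝ × ℝ => (fun _ : ℝ => M) z.1 *
        ((Icc (-(κ + a)) (κ + a)).indicator fun _ => (1 : ℝ)) z.2)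
        ((volume.restrict (Set.uIoc (-a) a)).prod volume) := by
      refine Integrable.mul_prod (f := fun _ : ℝ => M)
        (g := (Icc (-(κ + a)) (κ + a)).indicator fun _ => (1 : ℝ)) ?_ ?_
      · have : IsFiniteMeasure (volume.restrict (uIoc (-a) a)) := by
          constructor
          rw [Measure.restrict_apply_univ]
          exact measure_Ioc_lt_top
        exact integrable_const M
      · rw [integrable_indicator_iff measurableSet_Icc]
        exact integrableOn_const (by simp)
    refine hdom.mono' ?_ ?_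
    · have : Continuous (Function.uncurry fun (w t : ℝ) =>
          ψ (t + w) * Real.cos (2 * Real.pi * t * y)) := by
        have := h.cont
        unfold Function.uncurry
        fun_prop
      exact this.aestronglyMeasurable
    · have hae : ∀ᵐ z : ℝ × ℝ ∂((volume.restrict (Set.uIoc (-a) a)).prod volume),
          z.1 ∈ Set.uIoc (-a) a :=
        Measure.quasiMeasurePreserving_fst.ae (ae_restrict_mem measurableSet_uIoc)
      filter_upwards [hae] with z hz
      rw [uIoc_of_le (by linarith)] at hz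
      simp only [Function.uncurry]
      rw [Real.norm_eq_abs, abs_mul]
      by_cases hz2 : z.2 ∈ Icc (-(κ + a)) (κ + a)
      · rw [indicator_of_mem hz2, mul_one]
        calc |ψ (z.2 + z.1)| * |Real.cos (2 * Real.pi * z.2 * y)| ≤ M * 1 := by
              gcongr
              · exact hM _
              · exact Real.abs_cos_le_one _
          _ = M := mul_one M
      · rw [indicator_of_notMem hz2, mul_zero]
        have : ψ (z.2 + z.1) = 0 := by
          apply h.supp
          by_contra hcon
          push Not at hcon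
          have := abs_lt.1 hcon
          exact hz2 ⟨by linarith [hz.1, hz.2, this.1], by linarith [hz.1, hz.2, this.2]⟩
        rw [this]; simp
  unfold fl av
  have e1 : ∀ t : ℝ, (1 / (2 * a) * ∫ w in (-a)..a, ψ (t + w)) * Real.cos (2 * Real.pi * t * y) =
      1 / (2 * a) * ∫ w in (-a)..a, ψ (t + w) * Real.cos (2 * Real.pi * t * y) := by
    intro t
    rw [intervalIntegral.integral_mul_const]; ring
  simp_rw [e1]
  rw [integral_const_mul, hsw]
  have e2 : ∀ w : ℝ, ∫ t : ℝ, ψ (t + w) * Real.cos (2 * Real.pi * t * y) =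
      Real.cos (2 * Real.pi * w * y) * fl ψ y := fun w => shift_cos h.int h.even w y
  simp_rw [e2]
  rw [intervalIntegral.integral_mul_const, int_cos_sinc ha]
  unfold fl
  field_simp

lemma nic_av (h : Nic κ ψ) {a : ℝ} (ha : 0 < a) : Nic (κ + a) (av a ψ) := by
  have hcont : Continuous (av a ψ) := by
    unfold av
    refine continuous_const.mul ?_
    have := h.cont
    exact intervalIntegral.continuous_parametric_intervalIntegral_of_continuous' (by
      unfold Function.uncurry
      fun_prop) _ _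
  have heven : ∀ x, av a ψ (-x) = av a ψ x := by
    intro x
    unfold av
    congr 1
    have h1 := intervalIntegral.integral_comp_neg (a := -a) (b := a) fun w => ψ (x + w)
    rw [neg_neg] at h1
    rw [← h1]
    refine intervalIntegral.integral_congr fun w _ => ?_
    show ψ (-x + w) = ψ (x + -w)
    rw [← h.even]
    congr 1; ring
  have hsupp : ∀ x, κ + a ≤ |x| → av a ψ x = 0 := by
    intro x hx
    unfold av
    rw [intervalIntegral.integral_congr (g := fun _ => (0 : ℝ))]
    · simp
    · intro w hw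
      rw [uIcc_of_le (by linarith)] at hw
      show ψ (x + w) = 0
      apply h.supp
      have h1 : |x| ≤ |x + w| + |w| := by
        have := abs_add_le (x + w) (-w)
        rw [abs_neg, add_neg_cancel_right] at this
        exact this
      have h2 : |w| ≤ a := abs_le.2 ⟨hw.1, hw.2⟩
      linarith
  have hfl := fl_av h ha
  have hfli : Integrable (fl (av a ψ)) := by
    have : fl (av a ψ) = fun y => fl ψ y * Real.sinc (2 * Real.pi * a * y) := funext hfl
    rw [this]
    refine h.fli.mul_bdd (c := 1) ?_ (ae_of_all _ fun y => ?_)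
    · have := Real.continuous_sinc
      apply Continuous.aestronglyMeasurable
      fun_prop
    · rw [Real.norm_eq_abs]; exact Real.abs_sinc_le_one _
  refine ⟨hcont, heven, hsupp, ?_, hfli⟩
  have h0 := hfl 0
  rw [mul_zero, Real.sinc_zero, mul_one] at h0
  unfold fl at h0
  simp only [mul_zero, Real.cos_zero, mul_one] at h0
  rw [h0, h.one]

lemma tr_one {h : ℝ} (hh : 0 < h) : ∫ x, tr h x = 1 := by
  rw [int_supp hh (tr_supp hh), ← intervalIntegral.integral_add_adjacent_intervals (b := 0)
    ((tr_cont h).intervalIntegrable _ _) ((tr_cont h).intervalIntegrable _ _)]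
  have h5 : ∫ α in (-h)..0, tr h α = ∫ α in (0 : ℝ)..h, tr h α := by
    have := intervalIntegral.integral_comp_neg (a := (0 : ℝ)) (b := h) fun α : ℝ => tr h α
    rw [neg_zero] at this
    rw [← this]
    exact intervalIntegral.integral_congr fun α _ => tr_even h α
  have h6 : ∫ α in (0 : ℝ)..h, tr h α = 1 / 2 := by
    have h7 : ∫ α in (0 : ℝ)..h, tr h α = ∫ α in (0 : ℝ)..h, (1 / h - α / h ^ 2) := by
      refine intervalIntegral.integral_congr fun α hα => ?_
      rw [uIcc_of_le hh.le] at hα
      show tr h α = _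
      rw [tr_eq hh hα.1 hα.2]
      field_simp
    rw [h7, intervalIntegral.integral_sub (by simp) (by
      apply Continuous.intervalIntegrable; fun_prop), intervalIntegral.integral_const,
      intervalIntegral.integral_div, integral_id]
    simp
    field_simp
    norm_num
  rw [h5, h6]; norm_num

lemma nic_tr {h : ℝ} (hh : 0 < h) : Nic h (tr h) :=
  ⟨tr_cont h, tr_even h, tr_supp hh, tr_one hh, fl_int (adm_tr hh)⟩

lemma fl_nic_le (h : Nic κ ψ) (hpos : ∀ x, 0 ≤ ψ x) (y : ℝ) : |fl ψ y| ≤ 1 := by
  unfold fl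
  calc |∫ α, ψ α * Real.cos (2 * Real.pi * α * y)| ≤ ∫ α, ψ α := by
        rw [← Real.norm_eq_abs]
        refine norm_integral_le_of_norm_le h.int (ae_of_all _ fun α => ?_)
        rw [Real.norm_eq_abs, abs_mul, abs_of_nonneg (hpos α)]
        exact mul_le_of_le_one_right (hpos α) (Real.abs_cos_le_one _)
    _ = 1 := h.one

lemma sinc_le {x X : ℝ} (hX : 0 < X) (h : X ≤ |x|) : |Real.sinc x| ≤ 1 / X := by
  have hx : x ≠ 0 := by
    intro h0
    rw [h0, abs_zero] at h
    linarith
  rw [Real.sinc_of_ne_zero hx, abs_div]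
  have h1 := Real.abs_sin_le_one x
  have h2 : 0 < |x| := abs_pos.2 hx
  calc |Real.sin x| / |x| ≤ 1 / |x| := by gcongr
    _ ≤ 1 / X := by gcongr

/-- the kernels -/
theorem kern {η : ℝ} (hη : 0 < η) {r : ℝ} (hr : 0 < r) : ∃ ψ : ℝ → ℝ, Nic η ψ ∧
    (∀ y, |fl ψ y| ≤ 1) ∧ ∀ y, r ≤ |y| → |fl ψ y| ≤ Real.exp (1 - η * r) := by
  have hpi := Real.pi_pos
  obtain ⟨m, hm⟩ : ∃ m : ℕ, m = ⌊η * r⌋₊ := ⟨_, rfl⟩
  rcases Nat.eq_zero_or_pos m with h0 | hm0
  · have h1 : η * r < 1 := by
      rw [h0] at hm
      exact Nat.floor_eq_zero.1 hm.symm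
    have hle := fun y => fl_nic_le (nic_tr hη) (fun x => tr_nonneg hη x) y
    refine ⟨tr η, nic_tr hη, hle, fun y _ => (hle y).trans ?_⟩
    apply Real.one_le_exp
    linarith
  · have hmpos : (0 : ℝ) < m := by exact_mod_cast hm0
    obtain ⟨a, ha⟩ : ∃ a : ℝ, a = η / (2 * m) := ⟨_, rfl⟩
    have ha0 : 0 < a := by rw [ha]; positivity
    have hh : 0 < η / 2 := by positivity
    have key : ∀ k : ℕ, ∃ ψ : ℝ → ℝ, Nic (η / 2 + k * a) ψ ∧
        ∀ y, |fl ψ y| ≤ |Real.sinc (2 * Real.pi * a * y)| ^ k := by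
      intro k
      induction k with
      | zero =>
        refine ⟨tr (η / 2), by simpa using nic_tr hh, fun y => ?_⟩
        rw [pow_zero]
        exact fl_nic_le (nic_tr hh) (fun x => tr_nonneg hh x) y
      | succ k ih =>
        obtain ⟨ψ, h1, h2⟩ := ih
        refine ⟨av a ψ, ?_, fun y => ?_⟩
        · have := nic_av h1 ha0
          rwa [show η / 2 + (k : ℝ) * a + a = η / 2 + ((k + 1 : ℕ) : ℝ) * a by push_cast; ring] at this
        · rw [fl_av h1 ha0, abs_mul, pow_succ]
          gcongr
          exact h2 y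
    obtain ⟨ψ, h1, h2⟩ := key m
    have e1 : η / 2 + (m : ℝ) * a = η := by rw [ha]; field_simp; ring
    rw [e1] at h1
    refine ⟨ψ, h1, fun y => (h2 y).trans (pow_le_one₀ (abs_nonneg _) (Real.abs_sinc_le_one _)),
      fun y hy => (h2 y).trans ?_⟩
    have hmle : (m : ℝ) ≤ η * r := by rw [hm]; exact Nat.floor_le (by positivity)
    have hmge : η * r - 1 ≤ m := by
      have := Nat.lt_floor_add_one (η * r)
      rw [← hm] at this
      linarith
    have h3 : |Real.sinc (2 * Real.pi * a * y)| ≤ Real.exp (-1) := by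
      have hX : Real.exp 1 ≤ |2 * Real.pi * a * y| := by
        rw [abs_mul, abs_of_pos (show 0 < 2 * Real.pi * a by positivity)]
        have h4 : Real.pi ≤ 2 * Real.pi * a * r := by
          rw [ha]
          have : 2 * Real.pi * (η / (2 * m)) * r = Real.pi * (η * r / m) := by field_simp
          rw [this]
          have h5 : 1 ≤ η * r / m := by rwa [le_div_iff₀ hmpos, one_mul]
          nlinarith
        have h6 : 2 * Real.pi * a * r ≤ 2 * Real.pi * a * |y| := by gcongr
        have := Real.exp_one_lt_d9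
        have := Real.pi_gt_three
        linarith
      refine (sinc_le (Real.exp_pos 1) hX).trans (le_of_eq ?_)
      rw [Real.exp_neg, one_div]
    calc |Real.sinc (2 * Real.pi * a * y)| ^ m ≤ Real.exp (-1) ^ m := by gcongr
      _ = Real.exp (-(m : ℝ)) := by rw [← Real.exp_nat_mul]; congr 1; ring
      _ ≤ Real.exp (1 - η * r) := by
          apply Real.exp_le_exp.2
          linarith

/-- the sign function as an integral -/
theorem sgn_int {η : ℝ} (hη : 0 < η) (h : Nic η ψ) {w : ℝ} (hw : η ≤ w) :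
    ∫ y, fl ψ y * (Real.sin (2 * Real.pi * w * y) / (2 * Real.pi * y)) = 1 / 2 := by
  have hpi := Real.pi_pos
  have hw0 : 0 < w := by linarith
  have h1 : ∀ y : ℝ, y ≠ 0 → fl ψ y * (Real.sin (2 * Real.pi * w * y) / (2 * Real.pi * y)) =
      ∫ t in (0 : ℝ)..w, fl ψ y * Real.cos (2 * Real.pi * y * t) := by
    intro y hy
    rw [intervalIntegral.integral_const_mul]
    congr 1
    have h2 : (2 * Real.pi * y) ≠ 0 := by positivity
    rw [intervalIntegral.integral_comp_mul_left (fun x => Real.cos x) h2, integral_cos, smul_eq_mul]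
    rw [mul_zero, Real.sin_zero, sub_zero, show 2 * Real.pi * y * w = 2 * Real.pi * w * y by ring]
    field_simp
  have h2 : ∫ y, fl ψ y * (Real.sin (2 * Real.pi * w * y) / (2 * Real.pi * y)) =
      ∫ y, ∫ t in (0 : ℝ)..w, fl ψ y * Real.cos (2 * Real.pi * y * t) := by
    refine integral_congr_ae ?_
    have : ∀ᵐ x : ℝ, x ≠ 0 := by
      rw [ae_iff]
      simp
    filter_upwards [this] with y hy using h1 y hy
  have h3 : ∫ t in (0 : ℝ)..w, ∫ y, fl ψ y * Real.cos (2 * Real.pi * y * t) =
      ∫ y, ∫ t in (0 : ℝ)..w, fl ψ y * Real.cos (2 * Real.pi * y * t) := by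
    refine intervalIntegral_integral_swap ?_
    have hdom : Integrable (fun z : ℝ × ℝ => (fun _ : ℝ => (1 : ℝ)) z.1 * |fl ψ z.2|)
        ((volume.restrict (Set.uIoc 0 w)).prod volume) := by
      refine Integrable.mul_prod (f := fun _ : ℝ => (1 : ℝ)) (g := fun y => |fl ψ y|) ?_ h.fli.abs
      have : IsFiniteMeasure (volume.restrict (uIoc 0 w)) := by
        constructor
        rw [Measure.restrict_apply_univ]
        exact measure_Ioc_lt_top
      exact integrable_const _
    refine hdom.mono' ?_ (ae_of_all _ fun z => ?_)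
    · have : Continuous (Function.uncurry fun (t y : ℝ) =>
          fl ψ y * Real.cos (2 * Real.pi * y * t)) := by
        have := fl_cont h.int
        unfold Function.uncurry
        fun_prop
      exact this.aestronglyMeasurable
    · simp only [Function.uncurry]
      rw [Real.norm_eq_abs, abs_mul, one_mul]
      exact mul_le_of_le_one_right (abs_nonneg _) (Real.abs_cos_le_one _)
  rw [h2, ← h3]
  have h4 : ∀ t : ℝ, ∫ y, fl ψ y * Real.cos (2 * Real.pi * y * t) = ψ t := by
    intro t
    exact inv_gen h.cont h.int h.even h.fli t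
  simp_rw [h4]
  have h5 : ∫ x, ψ x = ∫ x in (-w)..w, ψ x := int_supp hw0 fun x hx => h.supp x (hw.trans hx)
  rw [h.one, ← intervalIntegral.integral_add_adjacent_intervals (b := 0)
    (h.cont.intervalIntegrable _ _) (h.cont.intervalIntegrable _ _)] at h5
  have h6 : ∫ α in (-w)..0, ψ α = ∫ α in (0 : ℝ)..w, ψ α := by
    have := intervalIntegral.integral_comp_neg (a := (0 : ℝ)) (b := w) fun α : ℝ => ψ α
    rw [neg_zero] at this
    rw [← this]
    exact intervalIntegral.integral_congr fun α _ => h.even α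
  rw [h6] at h5
  linarith

end Pool.Agent.Y749.Rig
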