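import Mathlib

/-! # One-sided exponential decay and a spectral gap force a function to vanish -/

set_option autoImplicit false

open MeasureTheory Set Filter Topology ProbabilityTheory
open Complex (I)

namespace Pool.Agent.Y749.Rig

/-- the trigonometric polynomial `(2 sin (π h x)) ^ (2 n)` -/
noncomputable def PT (h : ℝ) (n : ℕ) (x : ℝ) : ℝ := (2 - 2 * Real.cos (2 * Real.pi * h * x)) ^ n

lemma PT_nonneg (h : ℝ) (n : ℕ) (x : ℝ) : 0 ≤ PT h n x := by
  unfold PT
  have := Real.cos_le_one (2 * Real.pi * h * x)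
  exact pow_nonneg (by linarith) _

lemma PT_cont (h : ℝ) (n : ℕ) : Continuous (PT h n) := by
  unfold PT; fun_prop

lemma PT_le (h : ℝ) (n : ℕ) (x : ℝ) : PT h n x ≤ 4 ^ n := by
  unfold PT
  have h1 := Real.cos_le_one (2 * Real.pi * h * x)
  have h2 := Real.neg_one_le_cos (2 * Real.pi * h * x)
  exact pow_le_pow_left₀ (by linarith) (by linarith) _

lemma PT_le' (h : ℝ) (n : ℕ) (x : ℝ) : PT h n x ≤ (2 * Real.pi * |h| * |x|) ^ (2 * n) := by
  unfold PT
  have h1 := Real.cos_le_one (2 * Real.pi * h * x)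
  have h2 := Real.one_sub_sq_div_two_le_cos (x := 2 * Real.pi * h * x)
  rw [pow_mul]
  refine pow_le_pow_left₀ (by linarith) ?_ _
  have : (2 * Real.pi * |h| * |x|) ^ 2 = (2 * Real.pi * h * x) ^ 2 := by
    rw [mul_pow, mul_pow, sq_abs, sq_abs]; ring
  rw [this]
  linarith

lemma PT_ge {X x : ℝ} (hX : 0 < X) (n : ℕ) (h1 : X ≤ |x|) (h2 : |x| ≤ 3 * X) :
    (2 : ℝ) ^ n ≤ PT (1 / (4 * X)) n x := by
  unfold PT
  refine pow_le_pow_left₀ (by norm_num) ?_ _
  have e : Real.cos (2 * Real.pi * (1 / (4 * X)) * x) =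
      Real.cos (2 * Real.pi * (1 / (4 * X)) * |x|) := by
    rcases abs_cases x with h | h
    · rw [h.1]
    · rw [h.1, mul_neg, Real.cos_neg]
  have h3 : Real.cos (2 * Real.pi * (1 / (4 * X)) * |x|) ≤ 0 := by
    have e2 : 2 * Real.pi * (1 / (4 * X)) * |x| = Real.pi * (|x| / (2 * X)) := by
      field_simp; ring
    rw [e2]
    have h4 : 1 / 2 ≤ |x| / (2 * X) := by
      rw [le_div_iff₀ (by positivity)]; linarith
    have h5 : |x| / (2 * X) ≤ 3 / 2 := by
      rw [div_le_iff₀ (by positivity)]; linarith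
    have hpi := Real.pi_pos
    refine Real.cos_nonpos_of_pi_div_two_le_of_le ?_ ?_
    · nlinarith
    · nlinarith
  rw [e]
  linarith

variable {v : ℝ → ℝ}

lemma int_cos_mul (hv : Integrable v) (ω : ℝ) : Integrable fun x => v x * Real.cos (2 * Real.pi * ω * x) := by
  refine hv.mul_bdd (c := 1) (by fun_prop) ?_
  refine ae_of_all _ fun x => ?_
  rw [Real.norm_eq_abs]
  exact Real.abs_cos_le_one _

lemma int_PT (hv : Integrable v) (h ω : ℝ) (n : ℕ) :
    Integrable fun x => v x * Real.cos (2 * Real.pi * ω * x) * PT h n x := by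
  refine (int_cos_mul hv ω).mul_bdd (c := 4 ^ n) (PT_cont h n).aestronglyMeasurable ?_
  refine ae_of_all _ fun x => ?_
  rw [Real.norm_eq_abs, abs_of_nonneg (PT_nonneg h n x)]
  exact PT_le h n x

lemma vanish (hv : Integrable v) {η : ℝ}
    (h0 : ∀ ω : ℝ, |ω| < η → ∫ x, v x * Real.cos (2 * Real.pi * ω * x) = 0) {h : ℝ} (hh : 0 ≤ h) :
    ∀ (n : ℕ) (ω : ℝ), |ω| + n * h < η →
      ∫ x, v x * Real.cos (2 * Real.pi * ω * x) * PT h n x = 0 := by
  intro n
  induction n with
  | zero =>
    intro ω hω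
    have : |ω| < η := by simpa using hω
    simpa [PT] using h0 ω this
  | succ n ih =>
    intro ω hω
    push_cast at hω
    have e : ∀ x, v x * Real.cos (2 * Real.pi * ω * x) * PT h (n + 1) x =
        2 * (v x * Real.cos (2 * Real.pi * ω * x) * PT h n x) -
        (v x * Real.cos (2 * Real.pi * (ω + h) * x) * PT h n x +
        v x * Real.cos (2 * Real.pi * (ω - h) * x) * PT h n x) := by
      intro x
      have e1 : Real.cos (2 * Real.pi * (ω + h) * x) =
          Real.cos (2 * Real.pi * ω * x) * Real.cos (2 * Real.pi * h * x) -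
          Real.sin (2 * Real.pi * ω * x) * Real.sin (2 * Real.pi * h * x) := by
        rw [← Real.cos_add]; congr 1; ring
      have e2 : Real.cos (2 * Real.pi * (ω - h) * x) =
          Real.cos (2 * Real.pi * ω * x) * Real.cos (2 * Real.pi * h * x) +
          Real.sin (2 * Real.pi * ω * x) * Real.sin (2 * Real.pi * h * x) := by
        rw [← Real.cos_sub]; congr 1; ring
      rw [e1, e2]
      unfold PT
      ring
    have a1 : |ω + h| ≤ |ω| + h := (abs_add_le _ _).trans (by rw [abs_of_nonneg hh])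
    have a2 : |ω - h| ≤ |ω| + h := (abs_sub _ _).trans (by rw [abs_of_nonneg hh])
    have i1 := int_PT hv h ω n
    have i2 := int_PT hv h (ω + h) n
    have i3 := int_PT hv h (ω - h) n
    have hnh : 0 ≤ n * h := mul_nonneg n.cast_nonneg hh
    have i23 : Integrable fun x => v x * Real.cos (2 * Real.pi * (ω + h) * x) * PT h n x +
        v x * Real.cos (2 * Real.pi * (ω - h) * x) * PT h n x := i2.add i3
    calc ∫ x, v x * Real.cos (2 * Real.pi * ω * x) * PT h (n + 1) x =
        ∫ x, (2 * (v x * Real.cos (2 * Real.pi * ω * x) * PT h n x) -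
        (v x * Real.cos (2 * Real.pi * (ω + h) * x) * PT h n x +
        v x * Real.cos (2 * Real.pi * (ω - h) * x) * PT h n x)) := integral_congr_ae (ae_of_all _ e)
      _ = 2 * (∫ x, v x * Real.cos (2 * Real.pi * ω * x) * PT h n x) -
        ((∫ x, v x * Real.cos (2 * Real.pi * (ω + h) * x) * PT h n x) +
        ∫ x, v x * Real.cos (2 * Real.pi * (ω - h) * x) * PT h n x) := by
          rw [integral_sub (i1.const_mul 2) i23, integral_const_mul, integral_add i2 i3]
      _ = 0 := by
          rw [ih ω (by linarith), ih (ω + h) (by linarith), ih (ω - h) (by linarith)]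
          ring

/-- `t ^ m exp (-t) ≤ m ^ m` in a convenient form -/
lemma pow_exp (m : ℕ) {y : ℝ} (hy : 0 ≤ y) : y ^ m * Real.exp (-y) ≤ (m : ℝ) ^ m := by
  rcases Nat.eq_zero_or_pos m with h | h
  · subst h
    simp [hy]
  · have hm : (0 : ℝ) < m := by exact_mod_cast h
    have h1 : y / m ≤ Real.exp (y / m) := by linarith [Real.add_one_le_exp (y / m)]
    have h2 : (y / m) ^ m ≤ Real.exp (y / m) ^ m := pow_le_pow_left₀ (by positivity) h1 _
    rw [← Real.exp_nat_mul, mul_div_cancel₀ _ hm.ne', div_pow, div_le_iff₀ (by positivity)] at h2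
    rw [Real.exp_neg, ← div_eq_mul_inv, div_le_iff₀ (Real.exp_pos _)]
    linarith

lemma pos_part_bound {C c X x : ℝ} (hC : 0 ≤ C) (hc : 0 < c) (hX : 0 < X) (n : ℕ)
    (hn : 2 * Real.pi * n ≤ c * X) :
    C * Real.exp (-(c * |x|)) * PT (1 / (4 * X)) n x ≤ C * Real.exp (-(c / 2 * |x|)) := by
  have hpi := Real.pi_pos
  have h1 := PT_le' (1 / (4 * X)) n x
  have h2 : Real.exp (-(c * |x|)) = Real.exp (-(c / 2 * |x|)) * Real.exp (-(c / 2 * |x|)) := by
    rw [← Real.exp_add]; congr 1; ring
  have h3 := pow_exp (2 * n) (show 0 ≤ c / 2 * |x| by positivity)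
  have h4 : (2 * Real.pi * |1 / (4 * X)| * |x|) ^ (2 * n) * Real.exp (-(c / 2 * |x|)) ≤ 1 := by
    have e1 : 2 * Real.pi * |1 / (4 * X)| * |x| = (Real.pi / (c * X)) * (c / 2 * |x|) := by
      rw [abs_of_pos (by positivity)]; field_simp; ring
    rw [e1, mul_pow, mul_assoc]
    calc (Real.pi / (c * X)) ^ (2 * n) * ((c / 2 * |x|) ^ (2 * n) * Real.exp (-(c / 2 * |x|))) ≤
          (Real.pi / (c * X)) ^ (2 * n) * ((2 * n : ℕ) : ℝ) ^ (2 * n) := by
          apply mul_le_mul_of_nonneg_left h3 (by positivity)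
      _ = (2 * Real.pi * n / (c * X)) ^ (2 * n) := by
          rw [← mul_pow]; congr 1; push_cast; ring
      _ ≤ 1 := by
          apply pow_le_one₀ (by positivity)
          rw [div_le_one (by positivity)]; exact hn
  calc C * Real.exp (-(c * |x|)) * PT (1 / (4 * X)) n x ≤
        C * Real.exp (-(c * |x|)) * (2 * Real.pi * |1 / (4 * X)| * |x|) ^ (2 * n) := by
        gcongr
    _ = C * Real.exp (-(c / 2 * |x|)) *
        ((2 * Real.pi * |1 / (4 * X)| * |x|) ^ (2 * n) * Real.exp (-(c / 2 * |x|))) := by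
        rw [h2]; ring
    _ ≤ C * Real.exp (-(c / 2 * |x|)) * 1 := by gcongr
    _ = _ := mul_one _

lemma int_exp_abs {c : ℝ} (hc : 0 < c) : Integrable fun x : ℝ => Real.exp (-(c * |x|)) := by
  rw [← integrableOn_univ, ← Iic_union_Ioi (a := (0 : ℝ))]
  refine IntegrableOn.union ?_ ?_
  · refine (integrableOn_exp_mul_Iic hc 0).congr_fun (fun x hx => ?_) measurableSet_Iic
    show Real.exp (c * x) = Real.exp (-(c * |x|))
    rw [abs_of_nonpos hx, mul_neg, neg_neg]
  · refine (integrableOn_exp_mul_Ioi (neg_neg_of_pos hc) 0).congr_fun (fun x hx => ?_) measurableSet_Ioi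
    show Real.exp (-c * x) = Real.exp (-(c * |x|))
    rw [abs_of_pos hx, neg_mul]

/-- the mass of the negative part in a shell is exponentially small -/
lemma shell (hv : Integrable v) {C c : ℝ} (hC : 0 ≤ C) (hc : 0 < c)
    (hv1 : ∀ x, v x ≤ C * Real.exp (-(c * |x|))) {η : ℝ}
    (h0 : ∀ ω : ℝ, |ω| < η → ∫ x, v x * Real.cos (2 * Real.pi * ω * x) = 0) {X : ℝ} (hX : 0 < X)
    (n : ℕ) (hn : 2 * Real.pi * n ≤ c * X) (hn2 : n / (4 * X) < η) :
    ∫ x in {x : ℝ | X ≤ |x| ∧ |x| ≤ 3 * X}, max (-v x) 0 ≤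
      (∫ x, C * Real.exp (-(c / 2 * |x|))) / 2 ^ n := by
  have hm : MeasurableSet {x : ℝ | X ≤ |x| ∧ |x| ≤ 3 * X} :=
    (measurableSet_le measurable_const continuous_abs.measurable).inter
      (measurableSet_le continuous_abs.measurable measurable_const)
  have hneg : Integrable fun x => max (-v x) 0 := hv.neg.pos_part
  have hpos : Integrable fun x => max (v x) 0 := hv.pos_part
  have hb : ∀ {f : ℝ → ℝ}, Integrable f → Integrable fun x => f x * PT (1 / (4 * X)) n x := by
    intro f hf
    refine hf.mul_bdd (c := 4 ^ n) (PT_cont _ n).aestronglyMeasurable ?_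
    refine ae_of_all _ fun x => ?_
    rw [Real.norm_eq_abs, abs_of_nonneg (PT_nonneg _ n x)]
    exact PT_le _ n x
  have h1 : ∫ x, v x * PT (1 / (4 * X)) n x = 0 := by
    have := vanish hv h0 (show 0 ≤ 1 / (4 * X) by positivity) n 0 (by
      rw [abs_zero, zero_add, mul_one_div]; exact hn2)
    simpa using this
  have h2 : ∫ x, max (-v x) 0 * PT (1 / (4 * X)) n x = ∫ x, max (v x) 0 * PT (1 / (4 * X)) n x := by
    have e : ∀ x, v x * PT (1 / (4 * X)) n x =
        max (v x) 0 * PT (1 / (4 * X)) n x - max (-v x) 0 * PT (1 / (4 * X)) n x := by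
      intro x
      rw [← sub_mul]
      congr 1
      rcases le_total 0 (v x) with h | h
      · rw [max_eq_left h, max_eq_right (by linarith)]; ring
      · rw [max_eq_right h, max_eq_left (by linarith)]; ring
    rw [integral_congr_ae (ae_of_all _ e), integral_sub (hb hpos) (hb hneg)] at h1
    linarith
  have h3 : ∫ x, max (v x) 0 * PT (1 / (4 * X)) n x ≤ ∫ x, C * Real.exp (-(c / 2 * |x|)) := by
    refine integral_mono (hb hpos) ((int_exp_abs (by positivity)).const_mul C) fun x => ?_
    have h4 : max (v x) 0 ≤ C * Real.exp (-(c * |x|)) := max_le (hv1 x) (by positivity)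
    exact (mul_le_mul_of_nonneg_right h4 (PT_nonneg _ n x)).trans (pos_part_bound hC hc hX n hn)
  have h5 : (∫ x in {x : ℝ | X ≤ |x| ∧ |x| ≤ 3 * X}, max (-v x) 0) * 2 ^ n ≤
      ∫ x, max (-v x) 0 * PT (1 / (4 * X)) n x := by
    rw [← integral_mul_const]
    refine le_trans ?_ (setIntegral_le_integral (s := {x : ℝ | X ≤ |x| ∧ |x| ≤ 3 * X}) (hb hneg)
      (ae_of_all _ fun x => mul_nonneg (le_max_right _ _) (PT_nonneg _ n x)))
    refine setIntegral_mono_on (hneg.integrableOn.mul_const _) (hb hneg).integrableOn hm ?_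
    intro x hx
    exact mul_le_mul_of_nonneg_left (PT_ge hX n hx.1 hx.2) (le_max_right _ _)
  rw [le_div_iff₀ (by positivity)]
  linarith

/-- exponential moments -/
lemma exp_mom (hv : Integrable v) {C c : ℝ} (hC : 0 ≤ C) (hc : 0 < c)
    (hv1 : ∀ x, v x ≤ C * Real.exp (-(c * |x|))) {η : ℝ} (hη : 0 < η)
    (h0 : ∀ ω : ℝ, |ω| < η → ∫ x, v x * Real.cos (2 * Real.pi * ω * x) = 0) :
    ∃ a : ℝ, 0 < a ∧ Integrable fun x => |v x| * Real.exp (a * |x|) := by
  have hpi := Real.pi_pos
  obtain ⟨ε, hε⟩ : ∃ ε : ℝ, ε = min (c / (2 * Real.pi)) η := ⟨_, rfl⟩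
  have hε0 : 0 < ε := by rw [hε]; exact lt_min (by positivity) hη
  have hεc : ε ≤ c / (2 * Real.pi) := by rw [hε]; exact min_le_left _ _
  have hεη : ε ≤ η := by rw [hε]; exact min_le_right _ _
  have hl2 : 0 < Real.log 2 := Real.log_pos (by norm_num)
  obtain ⟨a, ha⟩ : ∃ a : ℝ, a = min (ε * Real.log 2 / 2) (c / 2) := ⟨_, rfl⟩
  have ha0 : 0 < a := by rw [ha]; exact lt_min (by positivity) (by positivity)
  have ha1 : a ≤ ε * Real.log 2 / 2 := by rw [ha]; exact min_le_left _ _
  have ha2 : a ≤ c / 2 := by rw [ha]; exact min_le_right _ _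
  refine ⟨a, ha0, ?_⟩
  have hneg : Integrable fun x => max (-v x) 0 := hv.neg.pos_part
  obtain ⟨K, hK⟩ : ∃ K : ℝ, K = ∫ x, C * Real.exp (-(c / 2 * |x|)) := ⟨_, rfl⟩
  have hK0 : 0 ≤ K := by rw [hK]; exact integral_nonneg fun x => by positivity
  obtain ⟨S, hS⟩ : ∃ S : ℕ → Set ℝ, ∀ k, S k = {x : ℝ | (k : ℝ) ≤ |x| ∧ |x| < k + 1} :=
    ⟨fun k => {x : ℝ | (k : ℝ) ≤ |x| ∧ |x| < k + 1}, fun k => rfl⟩
  have hSm : ∀ k, MeasurableSet (S k) := by
    intro k
    rw [hS]
    exact (measurableSet_le measurable_const continuous_abs.measurable).inter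
      (measurableSet_lt continuous_abs.measurable measurable_const)
  have hSu : ⋃ k, S k = univ := by
    ext x
    simp only [mem_iUnion, mem_univ, iff_true]
    refine ⟨⌊|x|⌋₊, ?_⟩
    rw [hS]
    exact ⟨Nat.floor_le (abs_nonneg x), Nat.lt_floor_add_one _⟩
  have hfin : ∀ k : ℕ, ∫⁻ x in S k, ENNReal.ofReal (max (-v x) 0 * Real.exp (a * |x|)) ≤
      ENNReal.ofReal (((∫ x, max (-v x) 0) + K) * (2 * Real.exp a) * Real.exp (-a) ^ k) := by
    intro k
    have h1 : ∫ x in S k, max (-v x) 0 ≤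
        ((∫ x, max (-v x) 0) + K) * (2 * Real.exp (-(2 * a)) ^ k) := by
      rcases Nat.eq_zero_or_pos k with hk | hk
      · subst hk
        have : ∫ x in S 0, max (-v x) 0 ≤ ∫ x, max (-v x) 0 :=
          setIntegral_le_integral hneg (ae_of_all _ fun x => le_max_right _ _)
        have h2 : 0 ≤ ∫ x, max (-v x) 0 := integral_nonneg fun x => le_max_right _ _
        rw [pow_zero]
        linarith
      · have hk0 : (0 : ℝ) < k := by exact_mod_cast hk
        obtain ⟨n, hn⟩ : ∃ n : ℕ, n = ⌊ε * k⌋₊ := ⟨_, rfl⟩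
        have hn1 : (n : ℝ) ≤ ε * k := by rw [hn]; exact Nat.floor_le (by positivity)
        have hn2 : ε * k < n + 1 := by rw [hn]; exact Nat.lt_floor_add_one _
        have h2 := shell hv hC hc hv1 h0 hk0 n (by
            have := mul_le_mul_of_nonneg_left hεc (show 0 ≤ 2 * Real.pi by positivity)
            rw [mul_div_cancel₀ _ (by positivity)] at this
            nlinarith) (by
            rw [div_lt_iff₀ (by positivity)]
            nlinarith)
        rw [← hK] at h2
        have h3 : ∫ x in S k, max (-v x) 0 ≤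
            ∫ x in {x : ℝ | (k : ℝ) ≤ |x| ∧ |x| ≤ 3 * k}, max (-v x) 0 := by
          refine setIntegral_mono_set hneg.integrableOn (ae_of_all _ fun x => le_max_right _ _) ?_
          refine LE.le.eventuallyLE ?_
          intro x hx
          rw [hS] at hx
          have : (1 : ℝ) ≤ k := by exact_mod_cast hk
          exact ⟨hx.1, by linarith [hx.2]⟩
        have h4 : (1 : ℝ) / 2 ^ n ≤ 2 * Real.exp (-(2 * a)) ^ k := by
          rw [div_le_iff₀ (by positivity)]
          have h5 : (2 : ℝ) ^ n = Real.exp (n * Real.log 2) := by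
            rw [← Real.rpow_natCast, Real.rpow_def_of_pos (by norm_num), mul_comm]
          have h6 : (2 : ℝ) = Real.exp (Real.log 2) := (Real.exp_log (by norm_num)).symm
          rw [h5]
          nth_rw 1 [h6]
          rw [← Real.exp_nat_mul, ← Real.exp_add, ← Real.exp_add]
          apply Real.one_le_exp
          have h7 : ε * k * Real.log 2 ≤ (n + 1) * Real.log 2 := by gcongr
          have h8 : k * (2 * a) ≤ k * (ε * Real.log 2) := by
            apply mul_le_mul_of_nonneg_left _ hk0.le; linarith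
          nlinarith
        have h9 : 0 ≤ ∫ x, max (-v x) 0 := integral_nonneg fun x => le_max_right _ _
        calc ∫ x in S k, max (-v x) 0 ≤ K / 2 ^ n := h3.trans h2
          _ = K * (1 / 2 ^ n) := by ring
          _ ≤ K * (2 * Real.exp (-(2 * a)) ^ k) := by gcongr
          _ ≤ _ := by
            apply mul_le_mul_of_nonneg_right _ (by positivity)
            linarith
    have h10 : ∫⁻ x in S k, ENNReal.ofReal (max (-v x) 0 * Real.exp (a * |x|)) ≤
        ∫⁻ x in S k, ENNReal.ofReal (max (-v x) 0 * Real.exp (a * (k + 1))) := by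
      refine setLIntegral_mono' (hSm k) fun x hx => ?_
      apply ENNReal.ofReal_le_ofReal
      rw [hS] at hx
      apply mul_le_mul_of_nonneg_left _ (le_max_right _ _)
      apply Real.exp_le_exp.2
      apply mul_le_mul_of_nonneg_left hx.2.le ha0.le
    refine h10.trans ?_
    rw [← ofReal_integral_eq_lintegral_ofReal]
    · apply ENNReal.ofReal_le_ofReal
      rw [integral_mul_const]
      refine (mul_le_mul_of_nonneg_right h1 (Real.exp_pos _).le).trans ?_
      apply le_of_eq
      have : Real.exp (-(2 * a)) ^ k * Real.exp (a * (k + 1)) = Real.exp a * Real.exp (-a) ^ k := by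
        rw [← Real.exp_nat_mul, ← Real.exp_nat_mul, ← Real.exp_add, ← Real.exp_add]
        congr 1; ring
      calc ((∫ x, max (-v x) 0) + K) * (2 * Real.exp (-(2 * a)) ^ k) * Real.exp (a * (k + 1)) =
          ((∫ x, max (-v x) 0) + K) * 2 * (Real.exp (-(2 * a)) ^ k * Real.exp (a * (k + 1))) := by
            ring
        _ = _ := by rw [this]; ring
    · exact hneg.integrableOn.mul_const _
    · exact ae_of_all _ fun x => mul_nonneg (le_max_right _ _) (Real.exp_pos _).le
  have hA : Integrable fun x => max (-v x) 0 * Real.exp (a * |x|) := by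
    refine ⟨hneg.aestronglyMeasurable.mul (by fun_prop), ?_⟩
    rw [hasFiniteIntegral_iff_ofReal
      (ae_of_all _ fun x => mul_nonneg (le_max_right _ _) (Real.exp_pos _).le)]
    rw [← setLIntegral_univ, ← hSu]
    refine (lintegral_iUnion_le _ _).trans_lt ?_
    refine (ENNReal.tsum_le_tsum hfin).trans_lt ?_
    rw [← ENNReal.ofReal_tsum_of_nonneg]
    · exact ENNReal.ofReal_lt_top
    · intro k
      have h9 : 0 ≤ ∫ x, max (-v x) 0 := integral_nonneg fun x => le_max_right _ _
      positivity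
    · apply Summable.mul_left
      apply summable_geometric_of_lt_one (Real.exp_pos _).le
      rw [Real.exp_lt_one_iff]; linarith
  have hB : Integrable fun x => C * Real.exp (-(c / 2 * |x|)) :=
    (int_exp_abs (by positivity)).const_mul C
  refine (hA.add hB).mono' (hv.abs.aestronglyMeasurable.mul (by fun_prop)) ?_
  refine ae_of_all _ fun x => ?_
  rw [Real.norm_eq_abs, abs_of_nonneg (by positivity)]
  show |v x| * Real.exp (a * |x|) ≤ max (-v x) 0 * Real.exp (a * |x|) + C * Real.exp (-(c / 2 * |x|))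
  have h1 : max (v x) 0 * Real.exp (a * |x|) ≤ C * Real.exp (-(c / 2 * |x|)) := by
    have h2 : max (v x) 0 ≤ C * Real.exp (-(c * |x|)) := max_le (hv1 x) (by positivity)
    calc max (v x) 0 * Real.exp (a * |x|) ≤ C * Real.exp (-(c * |x|)) * Real.exp (a * |x|) := by
          gcongr
      _ = C * Real.exp (-(c * |x|) + a * |x|) := by rw [Real.exp_add]; ring
      _ ≤ _ := by
        apply mul_le_mul_of_nonneg_left _ hC
        apply Real.exp_le_exp.2
        have : a * |x| ≤ c / 2 * |x| := by gcongr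
        linarith
  have h3 : |v x| = max (v x) 0 + max (-v x) 0 := by
    rcases le_total 0 (v x) with h | h
    · rw [max_eq_left h, max_eq_right (by linarith), abs_of_nonneg h]; ring
    · rw [max_eq_right h, max_eq_left (by linarith), abs_of_nonpos h]; ring
  rw [h3, add_mul]
  linarith

end Pool.Agent.Y749.Rig
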