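import Mathlib

/-! # Limits of uniformly locally bounded measures along ultrafilters -/

set_option autoImplicit false

open MeasureTheory Set Filter Topology
open scoped NNReal ENNReal

namespace Pool.Agent.Y749.Rig

/-- uniformly locally bounded measures -/
def Bdd (C : ℝ) (m : Measure ℝ) : Prop := ∀ a : ℝ, m (Icc a (a + 1)) ≤ ENNReal.ofReal C

/-- the weighted measure -/
noncomputable def wt (m : Measure ℝ) : Measure ℝ :=
  m.withDensity fun x => ENNReal.ofReal (1 / (1 + x ^ 2))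

/-- the tail of the weights -/
noncomputable def DD (n : ℕ) : ℝ := ∑' k : ℕ, 1 / (1 + ((k + n : ℕ) : ℝ) ^ 2)

lemma summ : Summable fun k : ℕ => 1 / (1 + (k : ℝ) ^ 2) := by
  have h := (Real.summable_one_div_nat_pow (p := 2)).2 (by norm_num)
  refine Summable.of_norm_bounded_eventually_nat h ?_
  filter_upwards [eventually_gt_atTop 0] with k hk
  have hk' : (0 : ℝ) < k := by exact_mod_cast hk
  rw [Real.norm_eq_abs, abs_of_pos (by positivity)]
  apply one_div_le_one_div_of_le (by positivity)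
  linarith

lemma DD_tendsto : Tendsto DD atTop (𝓝 0) :=
  tendsto_sum_nat_add fun k : ℕ => 1 / (1 + (k : ℝ) ^ 2)

lemma DD_nonneg (n : ℕ) : 0 ≤ DD n := tsum_nonneg fun k => by positivity

/-- the shells -/
def SS (j : ℕ) : Set ℝ := {x : ℝ | (j : ℝ) ≤ |x| ∧ |x| < j + 1}

lemma SS_meas (j : ℕ) : MeasurableSet (SS j) :=
  (measurableSet_le measurable_const continuous_abs.measurable).inter
    (measurableSet_lt continuous_abs.measurable measurable_const)

lemma SS_le {C : ℝ} (hC : 0 ≤ C) {m : Measure ℝ} (hm : Bdd C m) (j : ℕ) :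
    m (SS j) ≤ ENNReal.ofReal (2 * C) := by
  have h1 : SS j ⊆ Icc (j : ℝ) (j + 1) ∪ Icc (-(j : ℝ) - 1) (-(j : ℝ) - 1 + 1) := by
    intro x hx
    rcases abs_cases x with h | h
    · left; exact ⟨by linarith [hx.1], by linarith [hx.2]⟩
    · right; exact ⟨by linarith [hx.2], by linarith [hx.1]⟩
  refine (measure_mono h1).trans ((measure_union_le _ _).trans ?_)
  refine (add_le_add (hm _) (hm _)).trans ?_
  rw [← ENNReal.ofReal_add hC hC]
  apply ENNReal.ofReal_le_ofReal; linarith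

lemma lint_le {C : ℝ} (hC : 0 ≤ C) {m : Measure ℝ} (hm : Bdd C m) (n : ℕ) :
    ∫⁻ x in {x : ℝ | (n : ℝ) ≤ |x|}, ENNReal.ofReal (1 / (1 + x ^ 2)) ∂m ≤
      ENNReal.ofReal (2 * C * DD n) := by
  have hsub : {x : ℝ | (n : ℝ) ≤ |x|} ⊆ ⋃ k, SS (k + n) := by
    intro x hx
    simp only [mem_iUnion]
    have hx' : (n : ℝ) ≤ |x| := hx
    refine ⟨⌊|x|⌋₊ - n, ?_⟩
    have h1 : n ≤ ⌊|x|⌋₊ := Nat.le_floor hx'
    rw [Nat.sub_add_cancel h1]
    exact ⟨Nat.floor_le (abs_nonneg x), Nat.lt_floor_add_one _⟩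
  have h2 : ∀ k : ℕ, ∫⁻ x in SS (k + n), ENNReal.ofReal (1 / (1 + x ^ 2)) ∂m ≤
      ENNReal.ofReal (2 * C * (1 / (1 + ((k + n : ℕ) : ℝ) ^ 2))) := by
    intro k
    have h3 : ∫⁻ x in SS (k + n), ENNReal.ofReal (1 / (1 + x ^ 2)) ∂m ≤
        ∫⁻ x in SS (k + n), ENNReal.ofReal (1 / (1 + ((k + n : ℕ) : ℝ) ^ 2)) ∂m := by
      refine setLIntegral_mono' (SS_meas _) fun x hx => ?_
      apply ENNReal.ofReal_le_ofReal
      have : ((k + n : ℕ) : ℝ) ^ 2 ≤ x ^ 2 := by
        rw [← sq_abs x]; exact pow_le_pow_left₀ (Nat.cast_nonneg _) hx.1 2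
      apply one_div_le_one_div_of_le (by positivity)
      linarith
    refine h3.trans ?_
    rw [setLIntegral_const, mul_comm, ENNReal.ofReal_mul (by positivity)]
    gcongr
    exact SS_le hC hm _
  calc ∫⁻ x in {x : ℝ | (n : ℝ) ≤ |x|}, ENNReal.ofReal (1 / (1 + x ^ 2)) ∂m ≤
        ∫⁻ x in ⋃ k, SS (k + n), ENNReal.ofReal (1 / (1 + x ^ 2)) ∂m := lintegral_mono_set hsub
    _ ≤ ∑' k, ∫⁻ x in SS (k + n), ENNReal.ofReal (1 / (1 + x ^ 2)) ∂m := lintegral_iUnion_le _ _
    _ ≤ ∑' k : ℕ, ENNReal.ofReal (2 * C * (1 / (1 + ((k + n : ℕ) : ℝ) ^ 2))) :=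
        ENNReal.tsum_le_tsum h2
    _ = ENNReal.ofReal (2 * C * DD n) := by
        rw [← ENNReal.ofReal_tsum_of_nonneg (fun k => by positivity)]
        · rw [tsum_mul_left]; rfl
        · exact ((summable_nat_add_iff n).2 summ).mul_left _

lemma wt_le {C : ℝ} (hC : 0 ≤ C) {m : Measure ℝ} (hm : Bdd C m) (n : ℕ) :
    wt m {x : ℝ | (n : ℝ) ≤ |x|} ≤ ENNReal.ofReal (2 * C * DD n) := by
  unfold wt
  rw [withDensity_apply _ (measurableSet_le measurable_const continuous_abs.measurable)]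
  exact lint_le hC hm n

lemma wt_univ {C : ℝ} (hC : 0 ≤ C) {m : Measure ℝ} (hm : Bdd C m) :
    wt m univ ≤ ENNReal.ofReal (2 * C * DD 0) := by
  have := wt_le hC hm 0
  have h2 : {x : ℝ | ((0 : ℕ) : ℝ) ≤ |x|} = univ := by
    ext x; simp
  rwa [h2] at this

lemma wt_integral (m : Measure ℝ) (f : ℝ → ℝ) :
    ∫ x, (1 + x ^ 2) * f x ∂(wt m) = ∫ x, f x ∂m := by
  unfold wt
  rw [integral_withDensity_eq_integral_toReal_smul₀ (by fun_prop)
    (ae_of_all _ fun x => ENNReal.ofReal_lt_top)]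
  refine integral_congr_ae (ae_of_all _ fun x => ?_)
  simp only [smul_eq_mul]
  rw [ENNReal.toReal_ofReal (by positivity)]
  field_simp

/-- the measure with density `1 + x ^ 2` -/
noncomputable def uw (m : Measure ℝ) : Measure ℝ :=
  m.withDensity fun x => ENNReal.ofReal (1 + x ^ 2)

lemma uw_integral (m : Measure ℝ) (f : ℝ → ℝ) :
    ∫ x, f x ∂(uw m) = ∫ x, (1 + x ^ 2) * f x ∂m := by
  unfold uw
  rw [integral_withDensity_eq_integral_toReal_smul₀ (by fun_prop)
    (ae_of_all _ fun x => ENNReal.ofReal_lt_top)]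
  refine integral_congr_ae (ae_of_all _ fun x => ?_)
  simp only [smul_eq_mul]
  rw [ENNReal.toReal_ofReal (by positivity)]

lemma uw_integrable {m : Measure ℝ} {f : ℝ → ℝ} (h : Integrable (fun x => (1 + x ^ 2) * f x) m) :
    Integrable f (uw m) := by
  unfold uw
  rw [integrable_withDensity_iff_integrable_smul₀' (by fun_prop)
    (ae_of_all _ fun x => ENNReal.ofReal_lt_top)]
  refine h.congr (ae_of_all _ fun x => ?_)
  simp only [smul_eq_mul]
  rw [ENNReal.toReal_ofReal (by positivity)]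

/-- functions of quadratic decay -/
def QD (f : ℝ → ℝ) : Prop := ∃ B : ℝ, ∀ x, |f x| ≤ B / (1 + x ^ 2)

/-- the weighted measure as a finite measure -/
noncomputable def fm (m : Measure ℝ) (h : IsFiniteMeasure (wt m)) : FiniteMeasure ℝ := ⟨wt m, h⟩

theorem exists_limit {M : ℝ → Measure ℝ} {C : ℝ} (hC : 0 ≤ C) (hM : ∀ᶠ T in atTop, Bdd C (M T))
    (U : Ultrafilter ℝ) (hU : (U : Filter ℝ) ≤ atTop) :
    ∃ μ : Measure ℝ, SFinite μ ∧ ∀ f : ℝ → ℝ, Continuous f → QD f →
      Integrable f μ ∧ Tendsto (fun T => ∫ x, f x ∂(M T)) U (𝓝 (∫ x, f x ∂μ)) := by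
  classical
  obtain ⟨ν, hν⟩ : ∃ ν : ℝ → FiniteMeasure ℝ, ∀ T, ν T = if h : Bdd C (M T) then
      fm (M T) ⟨(wt_univ hC h).trans_lt ENNReal.ofReal_lt_top⟩ else 0 :=
    ⟨_, fun T => rfl⟩
  obtain ⟨u, hu⟩ : ∃ u : ℕ → ℝ≥0, ∀ n, u n = Real.toNNReal (2 * C * DD n) := ⟨_, fun n => rfl⟩
  have hu0 : Tendsto u atTop (𝓝 0) := by
    have h1 := (DD_tendsto.const_mul (2 * C))
    rw [mul_zero] at h1
    have h2 := (continuous_real_toNNReal.tendsto 0).comp h1
    rw [Real.toNNReal_zero] at h2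
    exact h2.congr fun n => (hu n).symm
  have hcomp := isCompact_setOfPred_finiteMeasure_mass_le_compl_isCompact_le (E := ℝ) (u := u)
    (K := fun n : ℕ => Icc (-(n : ℝ)) n) (Real.toNNReal (2 * C * DD 0)) hu0
    (fun n => isCompact_Icc) (Or.inl inferInstance)
  have hmem : ∀ T, ν T ∈ {μ : FiniteMeasure ℝ | μ.mass ≤ Real.toNNReal (2 * C * DD 0) ∧
      ∀ n : ℕ, μ (Icc (-(n : ℝ)) n)ᶜ ≤ u n} := by
    intro T
    rw [hν]
    by_cases h : Bdd C (M T)
    · rw [dif_pos h]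
      constructor
      · show ((wt (M T)) univ).toNNReal ≤ _
        rw [← ENNReal.coe_le_coe, ENNReal.coe_toNNReal
          ((wt_univ hC h).trans_lt ENNReal.ofReal_lt_top).ne]
        exact wt_univ hC h
      · intro n
        rw [hu]
        show ((wt (M T)) (Icc (-(n : ℝ)) n)ᶜ).toNNReal ≤ _
        have h3 : (wt (M T)) (Icc (-(n : ℝ)) n)ᶜ ≤ ENNReal.ofReal (2 * C * DD n) := by
          refine le_trans (measure_mono ?_) (wt_le hC h n)
          intro x hx
          simp only [mem_compl_iff, mem_Icc, not_and, not_le] at hx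
          show (n : ℝ) ≤ |x|
          by_contra hcon
          push Not at hcon
          have := abs_lt.1 hcon
          linarith [hx this.1.le]
        rw [← ENNReal.coe_le_coe, ENNReal.coe_toNNReal (h3.trans_lt ENNReal.ofReal_lt_top).ne]
        exact h3
    · rw [dif_neg h]
      constructor
      · simp
      · intro n; simp
  obtain ⟨ν0, -, hν0⟩ := hcomp.ultrafilter_le_nhds (U.map ν) (by
    rw [le_principal_iff, Ultrafilter.coe_map, mem_map]
    exact Filter.univ_mem' hmem)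
  have htend : Tendsto ν U (𝓝 ν0) := hν0
  rw [FiniteMeasure.tendsto_iff_forall_integral_tendsto] at htend
  refine ⟨uw ν0, by unfold uw; infer_instance, ?_⟩
  intro f hf ⟨B, hB⟩
  have hg : Continuous fun x => (1 + x ^ 2) * f x := by fun_prop
  have hgb : ∀ x, ‖(1 + x ^ 2) * f x‖ ≤ B := by
    intro x
    rw [Real.norm_eq_abs, abs_mul, abs_of_pos (by positivity)]
    have := hB x
    rw [le_div_iff₀ (by positivity)] at this
    linarith
  obtain ⟨g, hg'⟩ : ∃ g : BoundedContinuousFunction ℝ ℝ, ∀ x, g x = (1 + x ^ 2) * f x :=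
    ⟨BoundedContinuousFunction.ofNormedAddCommGroup _ hg B hgb, fun x => rfl⟩
  have h1 := htend g
  simp_rw [hg'] at h1
  have h2 : Integrable (fun x => (1 + x ^ 2) * f x) (ν0 : Measure ℝ) := by
    have h3 := g.integrable (ν0 : Measure ℝ)
    have h4 : (g : ℝ → ℝ) = fun x => (1 + x ^ 2) * f x := funext hg'
    rwa [h4] at h3
  refine ⟨uw_integrable h2, ?_⟩
  rw [uw_integral]
  refine h1.congr' ?_
  filter_upwards [hU hM] with T hT
  rw [hν, dif_pos hT]
  exact wt_integral _ _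

end Pool.Agent.Y749.Rig
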