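import Pool.Agent.Y749.Rig.RecD
import Pool.Agent.Y749.Rig.Rec2

/-! # From blocks to all zeros up to a height: the recursion -/

set_option autoImplicit false

open MeasureTheory Set Filter Topology
open scoped NNReal ENNReal

namespace Pool.Agent.Y749.Rig

open H370 (Zf mult good_zeta mem_Zf NN zset)

lemma iter2 {d : ℝ → ℝ} {M E : ℝ} (hM : ∀ᶠ T in atTop, d T ≤ M)
    (h : ∀ ε : ℝ, 0 < ε → ∀ᶠ T in atTop, d T ≤ 1 / 2 * d (1 / 2 * T) + 1 / 2 * E + ε) :
    ∀ ε : ℝ, 0 < ε → ∀ᶠ T in atTop, d T ≤ E + ε := by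
  intro ε hε
  obtain ⟨K, hK⟩ : ∃ K : ℝ, K = |M - E| := ⟨_, rfl⟩
  have hK0 : 0 ≤ K := by rw [hK]; exact abs_nonneg _
  have key : ∀ n : ℕ, ∀ᶠ T in atTop, d T ≤ (1 / 2) ^ n * K + E + ε / 2 := by
    intro n
    induction n with
    | zero =>
      filter_upwards [hM] with T hT
      have := le_abs_self (M - E)
      rw [← hK] at this
      rw [pow_zero]
      linarith
    | succ n ih =>
      have h1 : Tendsto (fun T : ℝ => 1 / 2 * T) atTop atTop :=
        tendsto_id.const_mul_atTop (by norm_num)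
      filter_upwards [h (ε / 18) (by positivity), h1.eventually ih] with T h2 h3
      rw [pow_succ]
      linarith
  obtain ⟨n, hn⟩ := exists_pow_lt_of_lt_one (show 0 < ε / (2 * (K + 1)) by positivity)
    (show (1 / 2 : ℝ) < 1 by norm_num)
  filter_upwards [key n] with T hT
  have h1 : (1 / 2 : ℝ) ^ n * K ≤ ε / 2 := by
    have h2 : (1 / 2 : ℝ) ^ n * K ≤ ε / (2 * (K + 1)) * K := by gcongr
    have h3 : ε / (2 * (K + 1)) * K ≤ ε / 2 := by
      rw [div_mul_eq_mul_div, div_le_div_iff₀ (by positivity) (by norm_num)]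
      nlinarith
    linarith
  linarith

theorem recur2 {ψ : ℝ → ℝ} {κ : ℝ} (h : Adm κ ψ) {c E : ℝ} (hE : 0 ≤ E)
    (hb : ∀ ε : ℝ, 0 < ε → ∀ᶠ q : ℝ in atTop,
      |RR (fl ψ) (Zf riemannZeta q (2 * q)) (Zf riemannZeta q (2 * q)) (Real.log q) -
        q * (Real.log q / (2 * Real.pi)) * c| ≤ (E + ε) * (q * Real.log q)) :
    ∀ ε : ℝ, 0 < ε → ∀ᶠ T : ℝ in atTop,
      |RR (fl ψ) (ZZ T) (ZZ T) (Real.log T) - T * Real.log T / (2 * Real.pi) * c| ≤
        (E + ε) * (T * Real.log T) := by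
  classical
  obtain ⟨d, hd⟩ : ∃ d : ℝ → ℝ, ∀ T, d T = |RR (fl ψ) (ZZ T) (ZZ T) (Real.log T) -
      T * Real.log T / (2 * Real.pi) * c| / (T * Real.log T) := ⟨_, fun T => rfl⟩
  obtain ⟨b, hbd⟩ := fl_bound h
  have hb0 : 0 ≤ b := by
    have := (abs_nonneg _).trans (hbd 0)
    simpa using this
  obtain ⟨C, T0, hC, hT0, hsm⟩ := sm_all
  have hpi := Real.pi_pos
  have hM : ∀ᶠ T in atTop, d T ≤ b * W0 * C + |c| / (2 * Real.pi) := by
    filter_upwards [eventually_ge_atTop T0] with T hT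
    have hT10 : 10 ≤ T := hT0.trans hT
    have hL := one_lt_log (show 3 ≤ T by linarith)
    have hTp : 0 < T := by linarith
    have hLp : 0 < Real.log T := by linarith
    rw [hd, div_le_iff₀ (by positivity)]
    have h1 := RR_le (A := ZZ T) (B := ZZ T) hLp (Y₁ := C * T) (Y₂ := C * T) (by positivity)
      (by positivity) (hsm T hT) (hsm T hT) hb0 hbd
    rw [mul_assoc (Real.log T), Real.mul_self_sqrt (by positivity)] at h1
    refine (abs_sub _ _).trans ?_
    have h2 : |T * Real.log T / (2 * Real.pi) * c| = T * Real.log T * (|c| / (2 * Real.pi)) := by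
      rw [abs_mul, abs_of_pos (show 0 < T * Real.log T / (2 * Real.pi) by positivity)]
      ring
    rw [h2]
    linarith
  have hstep : ∀ ε : ℝ, 0 < ε → ∀ᶠ T in atTop, d T ≤ 1 / 2 * d (1 / 2 * T) + 1 / 2 * E + ε := by
    intro ε hε
    obtain ⟨e, he⟩ : ∃ e : ℝ, e = ε / 5 := ⟨_, rfl⟩
    have he0 : 0 < e := by rw [he]; positivity
    have h89 : Tendsto (fun T : ℝ => 1 / 2 * T) atTop atTop :=
      tendsto_id.const_mul_atTop (by norm_num)
    filter_upwards [dil2 h he0, h89.eventually (cross2 h he0), h89.eventually (hb e he0),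
      eventually_ge_atTop 20, Real.tendsto_log_atTop.eventually_ge_atTop (|c| / e + 1)]
      with T h1 h2 h3 hT hLc
    obtain ⟨q, hq⟩ : ∃ q : ℝ, q = 1 / 2 * T := ⟨_, rfl⟩
    have hTq : T = 2 * q := by rw [hq]; ring
    have hq17 : 10 ≤ q := by rw [hq]; linarith
    have hqp : 0 < q := by linarith
    have hTp : 0 < T := by linarith
    rw [← hq] at h1 h2 h3 ⊢
    obtain ⟨L, hL⟩ : ∃ L : ℝ, L = Real.log T := ⟨_, rfl⟩
    obtain ⟨L', hL'⟩ : ∃ L' : ℝ, L' = Real.log q := ⟨_, rfl⟩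
    obtain ⟨l, hl⟩ : ∃ l : ℝ, l = Real.log 2 := ⟨_, rfl⟩
    have hl0 : 0 < l := by rw [hl]; exact logtwo.1
    have hl1 : l ≤ 1 := by rw [hl]; exact logtwo.2
    have hLL : L' = L - l := by
      rw [hL', hL, hl, hq]; exact log_ratio2 hTp
    have hL'1 : 1 < L' := by rw [hL']; exact one_lt_log (by linarith)
    have hL1 : 1 < L := by linarith
    rw [hd, hd, ← hL, ← hL']
    rw [← hL, ← hL'] at h1
    rw [← hL'] at h2 h3
    rw [← hL] at hLc
    -- decomposition
    have hdec : RR (fl ψ) (ZZ T) (ZZ T) L' = RR (fl ψ) (ZZ q) (ZZ q) L' +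
        2 * RR (fl ψ) (ZZ q) (Zf riemannZeta q (2 * q)) L' +
        RR (fl ψ) (Zf riemannZeta q (2 * q)) (Zf riemannZeta q (2 * q)) L' := by
      rw [ZZ_split (q := q) (T := T) (by linarith) (by linarith), ← hTq]
      exact RR_union (ZZ_disj (by linarith)) fun x => fl_even x
    obtain ⟨R1, hR1⟩ : ∃ R1 : ℝ, R1 = RR (fl ψ) (ZZ T) (ZZ T) L := ⟨_, rfl⟩
    obtain ⟨R2, hR2⟩ : ∃ R2 : ℝ, R2 = RR (fl ψ) (ZZ T) (ZZ T) L' := ⟨_, rfl⟩
    obtain ⟨R3, hR3⟩ : ∃ R3 : ℝ, R3 = RR (fl ψ) (ZZ q) (ZZ q) L' := ⟨_, rfl⟩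
    obtain ⟨R4, hR4⟩ : ∃ R4 : ℝ, R4 = RR (fl ψ) (ZZ q) (Zf riemannZeta q (2 * q)) L' :=
      ⟨_, rfl⟩
    obtain ⟨R5, hR5⟩ : ∃ R5 : ℝ, R5 = RR (fl ψ) (Zf riemannZeta q (2 * q))
      (Zf riemannZeta q (2 * q)) L' := ⟨_, rfl⟩
    rw [← hR1, ← hR2] at h1
    rw [← hR4] at h2
    rw [← hR5] at h3
    rw [← hR2, ← hR3, ← hR4, ← hR5] at hdec
    rw [← hR1, ← hR3]
    have hX : 0 < T * L := by positivity
    have hY : 0 < q * L' := by positivity
    have hYX : q * L' ≤ 1 / 2 * (T * L) := by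
      rw [hTq]
      nlinarith
    obtain ⟨D, hD⟩ : ∃ D : ℝ, D = |R3 - q * L' / (2 * Real.pi) * c| := ⟨_, rfl⟩
    rw [← hD]
    have hD0 : 0 ≤ D := by rw [hD]; exact abs_nonneg _
    have hmain : |R1 - T * L / (2 * Real.pi) * c| ≤ e * (T * L) + D + 2 * (e * (q * L')) +
        (E + e) * (q * L') + e * (T * L) := by
      have e1 : R1 - T * L / (2 * Real.pi) * c = (R1 - R2) + (R3 - q * L' / (2 * Real.pi) * c) +
          2 * R4 + (R5 - q * (L' / (2 * Real.pi)) * c) - T * l / (2 * Real.pi) * c := by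
        rw [hdec, hLL, hTq]; ring
      have e2 : |T * l / (2 * Real.pi) * c| ≤ e * (T * L) := by
        rw [abs_mul, abs_of_pos (show 0 < T * l / (2 * Real.pi) by positivity)]
        have h5 : |c| / e ≤ L := by linarith
        rw [div_le_iff₀ he0] at h5
        have h6 : T * l / (2 * Real.pi) ≤ T := by
          rw [div_le_iff₀ (by positivity)]
          have := Real.pi_gt_three
          nlinarith
        calc T * l / (2 * Real.pi) * |c| ≤ T * |c| := by gcongr
          _ ≤ T * (L * e) := by gcongr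
          _ = _ := by ring
      rw [e1]
      have t1 := abs_add_le ((R1 - R2) + (R3 - q * L' / (2 * Real.pi) * c) +
          2 * R4 + (R5 - q * (L' / (2 * Real.pi)) * c)) (-(T * l / (2 * Real.pi) * c))
      have t2 := abs_add_le ((R1 - R2) + (R3 - q * L' / (2 * Real.pi) * c) +
          2 * R4) (R5 - q * (L' / (2 * Real.pi)) * c)
      have t3 := abs_add_le ((R1 - R2) + (R3 - q * L' / (2 * Real.pi) * c)) (2 * R4)
      have t4 := abs_add_le (R1 - R2) (R3 - q * L' / (2 * Real.pi) * c)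
      rw [abs_neg, ← sub_eq_add_neg] at t1
      have t5 : |2 * R4| = 2 * |R4| := by rw [abs_mul, abs_of_pos (by norm_num : (0:ℝ) < 2)]
      rw [t5] at t3
      rw [← hD] at t4
      linarith
    rw [div_le_iff₀ hX]
    have hD2 : D ≤ 1 / 2 * (D / (q * L')) * (T * L) := by
      have : D = D / (q * L') * (q * L') := by field_simp
      calc D = D / (q * L') * (q * L') := this
        _ ≤ D / (q * L') * (1 / 2 * (T * L)) := by gcongr
        _ = _ := by ring
    have hE2 : (E + e) * (q * L') ≤ (E + e) * (1 / 2 * (T * L)) := by gcongr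
    have he2 : e * (q * L') ≤ e * (1 / 2 * (T * L)) := by gcongr
    have hεe : ε = 5 * e := by rw [he]; ring
    rw [hεe]
    have heX : 0 < e * (T * L) := by positivity
    calc |R1 - T * L / (2 * Real.pi) * c| ≤ _ := hmain
      _ ≤ e * (T * L) + 1 / 2 * (D / (q * L')) * (T * L) + 2 * (e * (1 / 2 * (T * L))) +
          (E + e) * (1 / 2 * (T * L)) + e * (T * L) := by linarith
      _ ≤ _ := by
        have : (1 / 2 * (D / (q * L')) + 1 / 2 * E + 5 * e) * (T * L) =
          1 / 2 * (D / (q * L')) * (T * L) + 1 / 2 * (E * (T * L)) + 5 * (e * (T * L)) := by ring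
        rw [this]
        have : (E + e) * (1 / 2 * (T * L)) = 1 / 2 * (E * (T * L)) + 1 / 2 * (e * (T * L)) := by ring
        rw [this]
        linarith
  intro ε hε
  filter_upwards [iter2 hM hstep ε hε, eventually_ge_atTop 10] with T hT hT10
  have hL := one_lt_log (show 3 ≤ T by linarith)
  rw [hd, div_le_iff₀ (by positivity)] at hT
  exact hT

end Pool.Agent.Y749.Rig
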