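import Pool.Agent.Y749.Rig.Win
import Pool.Agent.Y749.Rig.Tst3
import Pool.Agent.Y749.Rig.LemR2

/-! # Rigidity for two measures -/

set_option autoImplicit false

open MeasureTheory Set Filter Topology
open scoped NNReal ENNReal

namespace Pool.Agent.Y749.Rig

variable {C : ℝ} {μ : Measure ℝ}

/-- window function -/
noncomputable def wf (μ : Measure ℝ) (b x : ℝ) : ℝ := μ.real (Icc (x - b) (x + b))

lemma wS_meas (b : ℝ) : MeasurableSet {p : ℝ × ℝ | p.1 - b ≤ p.2 ∧ p.2 ≤ p.1 + b} := by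
  have h1 : MeasurableSet {p : ℝ × ℝ | p.1 - b ≤ p.2} :=
    measurableSet_le (measurable_fst.sub_const b) measurable_snd
  have h2 : MeasurableSet {p : ℝ × ℝ | p.2 ≤ p.1 + b} :=
    measurableSet_le measurable_snd (measurable_fst.add_const b)
  exact h1.inter h2

lemma wf_meas [SFinite μ] (b : ℝ) : Measurable (wf μ b) := by
  have hS := wS_meas b
  exact (measurable_measure_prodMk_left hS).ennreal_toReal

lemma wf_le (hC : 0 ≤ C) (h : Bdd C μ) (b x : ℝ) : wf μ b x ≤ ((⌈2 * b⌉₊ : ℕ) + 1) * C :=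
  h.real_le hC x _ (Nat.le_ceil _)

lemma wf_nonneg (b x : ℝ) : 0 ≤ wf μ b x := measureReal_nonneg

lemma wf_even (hC : 0 ≤ C) (h : Bdd C μ) (he : Ev μ) (b x : ℝ) : wf μ b (-x) = wf μ b x := by
  unfold wf
  rw [show -x - b = -(x + b) by ring, show -x + b = -(x - b) by ring]
  exact ev_eq hC h he _ _

lemma qd_int {f : ℝ → ℝ} (hf : Continuous f) (hq : QD f) : Integrable f := by
  obtain ⟨B, hB⟩ := hq
  refine (int_inv.const_mul B).mono' hf.aestronglyMeasurable (ae_of_all _ fun x => ?_)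
  rw [Real.norm_eq_abs, mul_one_div]
  exact hB x

/-- Fubini for the window function -/
lemma wf_fubini [SFinite μ] (hC : 0 ≤ C) (h : Bdd C μ) {b : ℝ} (hb : 0 ≤ b) {K : ℝ → ℝ}
    (hK : Continuous K) (hq : QD K) :
    ∫ x, wf μ b x * K x = ∫ y, (∫ s in (-b)..b, K (y + s)) ∂μ := by
  have hS := wS_meas b
  obtain ⟨f, hf⟩ : ∃ f : ℝ → ℝ → ℝ, ∀ x y, f x y = (Icc (x - b) (x + b)).indicator
      (fun _ => K x) y := ⟨fun x y => (Icc (x - b) (x + b)).indicator (fun _ => K x) y, fun x y => rfl⟩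
  have hf2 : Function.uncurry f = {p : ℝ × ℝ | p.1 - b ≤ p.2 ∧ p.2 ≤ p.1 + b}.indicator
      (fun p => K p.1) := by
    ext p
    simp only [Function.uncurry]
    rw [hf]
    by_cases hp : p.2 ∈ Icc (p.1 - b) (p.1 + b)
    · rw [indicator_of_mem hp, indicator_of_mem (show p ∈ {p : ℝ × ℝ | p.1 - b ≤ p.2 ∧ p.2 ≤ p.1 + b}
        from hp)]
    · rw [indicator_of_notMem hp, indicator_of_notMem
        (show p ∉ {p : ℝ × ℝ | p.1 - b ≤ p.2 ∧ p.2 ≤ p.1 + b} from hp)]
  have hmeas : AEStronglyMeasurable (Function.uncurry f) (volume.prod μ) := by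
    rw [hf2]
    exact ((hK.comp continuous_fst).aestronglyMeasurable).indicator hS
  have h1 : ∀ x, ∫ y, f x y ∂μ = wf μ b x * K x := by
    intro x
    simp_rw [hf]
    rw [integral_indicator measurableSet_Icc, setIntegral_const, smul_eq_mul]
    rfl
  have h2 : ∀ x, ∫ y, ‖f x y‖ ∂μ = wf μ b x * |K x| := by
    intro x
    have : ∀ y, ‖f x y‖ = (Icc (x - b) (x + b)).indicator (fun _ => |K x|) y := by
      intro y
      rw [hf, norm_indicator_eq_indicator_norm]; rfl
    simp_rw [this]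
    rw [integral_indicator measurableSet_Icc, setIntegral_const, smul_eq_mul]
    rfl
  have hint : Integrable (Function.uncurry f) (volume.prod μ) := by
    rw [integrable_prod_iff hmeas]
    constructor
    · refine ae_of_all _ fun x => ?_
      show Integrable (fun y => f x y) μ
      simp_rw [hf]
      rw [integrable_indicator_iff measurableSet_Icc]
      exact integrableOn_const (h.lt_top _ _).ne
    · show Integrable (fun x => ∫ y, ‖f x y‖ ∂μ) volume
      simp_rw [h2]
      refine (((qd_int hK hq).abs).bdd_mul (c := ((⌈2 * b⌉₊ : ℕ) + 1) * C)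
        (wf_meas b).aestronglyMeasurable (ae_of_all _ fun x => ?_))
      rw [Real.norm_eq_abs, abs_of_nonneg (wf_nonneg _ _)]
      exact wf_le hC h b x
  have h3 := integral_integral_swap hint
  simp_rw [h1] at h3
  rw [h3]
  refine integral_congr_ae (ae_of_all _ fun y => ?_)
  show ∫ x, f x y = ∫ s in (-b)..b, K (y + s)
  have h4 : ∀ x, f x y = (Icc (y - b) (y + b)).indicator K x := by
    intro x
    rw [hf]
    by_cases hp : y ∈ Icc (x - b) (x + b)
    · rw [indicator_of_mem hp, indicator_of_mem]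
      exact ⟨by linarith [hp.2], by linarith [hp.1]⟩
    · rw [indicator_of_notMem hp, indicator_of_notMem]
      intro hx
      exact hp ⟨by linarith [hx.2], by linarith [hx.1]⟩
  simp_rw [h4]
  rw [integral_indicator measurableSet_Icc, integral_Icc_eq_integral_Ioc,
    ← intervalIntegral.integral_of_le (by linarith)]
  have h5 := intervalIntegral.integral_comp_add_left (a := -b) (b := b) K y
  rw [h5]
  congr 1

lemma Adm.mono {κ κ' : ℝ} {ψ : ℝ → ℝ} (h : Adm κ ψ) (hk : κ ≤ κ') : Adm κ' ψ := by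
  refine ⟨h.even, h.lip, fun x hx => h.supp x (hk.trans hx), ?_⟩
  obtain ⟨B, hB⟩ := h.dec
  have hB0 : 0 ≤ B := by
    have := (norm_nonneg _).trans (hB 0 0)
    simpa using this
  refine ⟨B, fun x y => (hB x y).trans ?_⟩
  have hpi := Real.pi_pos
  gcongr

lemma fl_qd {κ : ℝ} {ψ : ℝ → ℝ} (h : Adm κ ψ) : QD (fl ψ) := fl_bound h

lemma fl_tr_nonneg {h : ℝ} (hh : 0 < h) (x : ℝ) : 0 ≤ fl (tr h) x := by
  rcases eq_or_ne x 0 with hx | hx
  · subst hx
    unfold fl
    refine integral_nonneg fun α => ?_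
    simp only [mul_zero, Real.cos_zero, mul_one]
    exact tr_nonneg hh α
  · rw [fl_tr hh hx]; positivity

lemma fl_tr_ne {h : ℝ} (hh : 0 < h) : ∀ᵐ x : ℝ, fl (tr h) x ≠ 0 := by
  have h1 : {x : ℝ | ¬ (fl (tr h) x ≠ 0)} ⊆ {0} ∪ range fun n : ℤ => (n : ℝ) / h := by
    intro x hx
    simp only [mem_ofPred_eq, not_not] at hx
    rcases eq_or_ne x 0 with h0 | h0
    · left; exact h0
    · right
      rw [fl_tr hh h0] at hx
      have h2 := (pow_eq_zero_iff (two_ne_zero)).1 hx
      have hpi := Real.pi_pos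
      rw [div_eq_zero_iff] at h2
      rcases h2 with h2 | h2
      · obtain ⟨n, hn⟩ := Real.sin_eq_zero_iff.1 h2
        refine ⟨n, ?_⟩
        show (n : ℝ) / h = x
        rw [div_eq_iff hh.ne']
        have : Real.pi * (n : ℝ) = Real.pi * (x * h) := by linarith
        exact mul_left_cancel₀ hpi.ne' this
      · exfalso
        have : Real.pi * h * x ≠ 0 := by positivity
        exact this h2
  rw [ae_iff]
  exact (((countable_singleton (0:ℝ)).union (countable_range _)).mono h1).measure_zero _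

theorem rig2 {μ₁ μ₂ : Measure ℝ} [SFinite μ₁] [SFinite μ₂] (hC : 0 ≤ C) (h1 : Bdd C μ₁)
    (h2 : Bdd C μ₂) (e1 : Ev μ₁) (e2 : Ev μ₂) {κ : ℝ} (hκ : 0 < κ)
    (ht : ∀ ψ, Adm κ ψ → ∫ x, fl ψ x ∂μ₁ = ∫ x, fl ψ x ∂μ₂) {C' c : ℝ} (hC' : 0 ≤ C') (hc : 0 < c)
    (ho : ∀ α β : ℝ, 0 < α → α ≤ β →
      μ₁.real (Icc α β) - μ₂.real (Icc α β) ≤ C' * Real.exp (-(c * α))) {b : ℝ} (hb : 0 < b) :
    ∀ᵐ x : ℝ, wf μ₁ b x = wf μ₂ b x := by
  have hh : 0 < κ / 2 := by positivity
  have hk := adm_tr hh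
  obtain ⟨B, hB⟩ := fl_bound hk
  have hB0 : 0 ≤ B := by
    have := (abs_nonneg _).trans (hB 0)
    simpa using this
  have hkB : ∀ x, fl (tr (κ / 2)) x ≤ B := by
    intro x
    refine (le_abs_self _).trans ((hB x).trans ?_)
    apply div_le_self hB0
    nlinarith [sq_nonneg x]
  obtain ⟨R, hR⟩ : ∃ R : ℝ, R = ((⌈2 * b⌉₊ : ℕ) + 1) * C := ⟨_, rfl⟩
  have hR0 : 0 ≤ R := by rw [hR]; positivity
  have hu : ∀ x, |wf μ₁ b x - wf μ₂ b x| ≤ R := by
    intro x
    rw [abs_le]
    have a1 := wf_le hC h1 b x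
    have a2 := wf_le hC h2 b x
    have a3 := wf_nonneg (μ := μ₁) b x
    have a4 := wf_nonneg (μ := μ₂) b x
    rw [← hR] at a1 a2
    constructor <;> linarith
  have hum : Measurable fun x => wf μ₁ b x - wf μ₂ b x := (wf_meas b).sub (wf_meas b)
  obtain ⟨v, hv⟩ : ∃ v : ℝ → ℝ, ∀ x, v x = (wf μ₁ b x - wf μ₂ b x) * fl (tr (κ / 2)) x :=
    ⟨_, fun x => rfl⟩
  have hv' : v = fun x => (wf μ₁ b x - wf μ₂ b x) * fl (tr (κ / 2)) x := funext hv
  have hvi : Integrable v := by
    rw [hv']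
    refine (fl_int hk).bdd_mul (c := R) hum.aestronglyMeasurable (ae_of_all _ fun x => ?_)
    exact hu x
  have hve : ∀ x, v (-x) = v x := by
    intro x
    rw [hv, hv, wf_even hC h1 e1, wf_even hC h2 e2, fl_even]
  have hz : v =ᵐ[volume] 0 := by
    refine lemR hvi (C := (R + C') * B * Real.exp (c * b)) (c := c) (by positivity) hc ?_
      (η := κ / 2) hh ?_ ?_
    · intro x
      have key : ∀ y : ℝ, 0 ≤ y → v y ≤ (R + C') * B * Real.exp (c * b) * Real.exp (-(c * y)) := by
        intro y hy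
        have k0 := fl_tr_nonneg hh y
        have k1 := hkB y
        rw [hv]
        rcases le_or_gt y b with hyb | hyb
        · have u1 := (le_abs_self _).trans (hu y)
          have : 1 ≤ Real.exp (c * b) * Real.exp (-(c * y)) := by
            rw [← Real.exp_add]
            apply Real.one_le_exp
            nlinarith
          calc (wf μ₁ b y - wf μ₂ b y) * fl (tr (κ / 2)) y ≤ R * fl (tr (κ / 2)) y := by gcongr
            _ ≤ R * B := by gcongr
            _ ≤ (R + C') * B := by gcongr; linarith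
            _ ≤ (R + C') * B * (Real.exp (c * b) * Real.exp (-(c * y))) :=
                le_mul_of_one_le_right (by positivity) this
            _ = _ := by ring
        · have u1 := ho (y - b) (y + b) (by linarith) (by linarith)
          have e3 : Real.exp (-(c * (y - b))) = Real.exp (c * b) * Real.exp (-(c * y)) := by
            rw [← Real.exp_add]; congr 1; ring
          rw [e3] at u1
          calc (wf μ₁ b y - wf μ₂ b y) * fl (tr (κ / 2)) y ≤
                (C' * (Real.exp (c * b) * Real.exp (-(c * y)))) * fl (tr (κ / 2)) y := by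
                  apply mul_le_mul_of_nonneg_right u1 k0
            _ ≤ (C' * (Real.exp (c * b) * Real.exp (-(c * y)))) * B := by gcongr
            _ ≤ ((R + C') * (Real.exp (c * b) * Real.exp (-(c * y)))) * B := by gcongr; linarith
            _ = _ := by ring
      rcases abs_cases x with hx | hx
      · rw [hx.1]; exact key x hx.2
      · rw [hx.1, ← hve]; exact key (-x) (by linarith)
    · intro ω hω
      obtain ⟨ψ, hψ⟩ : ∃ ψ, ψ = modu ω (tr (κ / 2)) := ⟨_, rfl⟩
      have hA : Adm κ ψ := by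
        rw [hψ]
        exact (adm_modu hk ω).mono (by linarith)
      have hW := adm_win hA hb.le
      have e3 : ∀ x, v x * Real.cos (2 * Real.pi * ω * x) =
          wf μ₁ b x * fl ψ x - wf μ₂ b x * fl ψ x := by
        intro x
        rw [hv, hψ, fl_modu hk]; ring
      have hi : ∀ {μ : Measure ℝ} [SFinite μ], Bdd C μ → Integrable fun x => wf μ b x * fl ψ x := by
        intro μ _ hμ
        refine (fl_int hA).bdd_mul (c := R) (wf_meas b).aestronglyMeasurable
          (ae_of_all _ fun x => ?_)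
        rw [Real.norm_eq_abs, abs_of_nonneg (wf_nonneg _ _), hR]
        exact wf_le hC hμ b x
      simp_rw [e3]
      rw [integral_sub (hi h1) (hi h2), wf_fubini hC h1 hb.le (fl_cont hA.int) (fl_qd hA),
        wf_fubini hC h2 hb.le (fl_cont hA.int) (fl_qd hA)]
      simp_rw [← fl_win hA hb.le]
      rw [ht _ hW, sub_self]
    · intro ω _
      apply int_zero_of_odd
      intro x
      rw [hve, mul_neg, Real.sin_neg]; ring
  filter_upwards [hz, fl_tr_ne hh] with x hx hx2
  rw [hv] at hx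
  have := (mul_eq_zero.1 hx).resolve_right hx2
  linarith

/-- almost everywhere equality of the windows gives inequalities everywhere -/
lemma win_le {μ₁ μ₂ : Measure ℝ} (h1 : Bdd C μ₁) (h2 : Bdd C μ₂)
    (h : ∀ b : ℝ, 0 < b → ∀ᵐ x : ℝ, wf μ₁ b x = wf μ₂ b x) {α β δ : ℝ} (hδ : 0 < δ) (hab : α ≤ β) :
    μ₁.real (Icc α β) ≤ μ₂.real (Icc (α - δ) (β + δ)) := by
  obtain ⟨b, hb⟩ : ∃ b : ℝ, b = (β - α) / 2 + δ / 2 := ⟨_, rfl⟩
  have hb0 : 0 < b := by rw [hb]; linarith
  have h3 : ∃ x ∈ Ioo ((α + β) / 2 - δ / 2) ((α + β) / 2 + δ / 2), wf μ₁ b x = wf μ₂ b x := by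
    by_contra hcon
    push Not at hcon
    have h4 : Ioo ((α + β) / 2 - δ / 2) ((α + β) / 2 + δ / 2) ⊆ {x | ¬ wf μ₁ b x = wf μ₂ b x} :=
      fun x hx => hcon x hx
    have h5 := measure_mono_null h4 (ae_iff.1 (h b hb0))
    rw [Real.volume_Ioo, ENNReal.ofReal_eq_zero] at h5
    linarith
  obtain ⟨x, hx, hx2⟩ := h3
  calc μ₁.real (Icc α β) ≤ wf μ₁ b x := h1.mono_real (by rw [hb]; linarith [hx.2])
        (by rw [hb]; linarith [hx.1])
    _ = wf μ₂ b x := hx2
    _ ≤ μ₂.real (Icc (α - δ) (β + δ)) := h2.mono_real (by rw [hb]; linarith [hx.1])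
        (by rw [hb]; linarith [hx.2])

end Pool.Agent.Y749.Rig
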