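import Pool.Agent.Y749.Rig.Krn
import Pool.Agent.Y749.Rig.Ana

/-! # Algebra of band-limited functions -/

set_option autoImplicit false

open MeasureTheory Set Filter Topology
open Complex (I)
open scoped Convolution

namespace Pool.Agent.Y749.Rig

variable {κ κ' a b : ℝ} {ψ φ : ℝ → ℝ}

/-- integrable even functions supported in `[-a, a]` -/
structure L1 (a : ℝ) (φ : ℝ → ℝ) : Prop where
  even : ∀ x, φ (-x) = φ x
  int : Integrable φ
  supp : ∀ x, a < |x| → φ x = 0

lemma L1.mono (h : L1 a φ) (hab : a ≤ b) : L1 b φ :=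
  ⟨h.even, h.int, fun x hx => h.supp x (hab.trans_lt hx)⟩

lemma L1.smul (h : L1 a φ) (c : ℝ) : L1 a (fun x => c * φ x) :=
  ⟨fun x => by rw [h.even], h.int.const_mul c, fun x hx => by rw [h.supp x hx, mul_zero]⟩

lemma L1.add (h : L1 a φ) (h' : L1 a ψ) : L1 a (fun x => φ x + ψ x) :=
  ⟨fun x => by rw [h.even, h'.even], h.int.add h'.int,
    fun x hx => by rw [h.supp x hx, h'.supp x hx, add_zero]⟩

lemma Adm.toL1 (h : Adm κ ψ) : L1 κ ψ := ⟨h.even, h.int, fun x hx => h.supp x hx.le⟩

lemma fl_smul (c : ℝ) (φ : ℝ → ℝ) (x : ℝ) : fl (fun x => c * φ x) x = c * fl φ x := by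
  unfold fl
  rw [← integral_const_mul]
  refine integral_congr_ae (ae_of_all _ fun α => ?_)
  simp only
  ring

lemma fl_add (h : Integrable φ) (h' : Integrable ψ) (x : ℝ) :
    fl (fun x => φ x + ψ x) x = fl φ x + fl ψ x := by
  unfold fl
  rw [← integral_add (int_mul_cos h x) (int_mul_cos h' x)]
  refine integral_congr_ae (ae_of_all _ fun α => ?_)
  simp only
  ring

lemma L1.fl_le (h : L1 a φ) (x : ℝ) : |fl φ x| ≤ ∫ x, |φ x| := by
  unfold fl
  rw [← Real.norm_eq_abs]
  refine norm_integral_le_of_norm_le h.int.abs (ae_of_all _ fun α => ?_)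
  rw [Real.norm_eq_abs, abs_mul]
  exact mul_le_of_le_one_right (abs_nonneg _) (Real.abs_cos_le_one _)

lemma L1.modu (h : L1 a φ) (ω : ℝ) : L1 (a + |ω|) (modu ω φ) := by
  refine ⟨?_, ?_, ?_⟩
  · intro x
    unfold Rig.modu
    rw [show -x - ω = -(x + ω) by ring, show -x + ω = -(x - ω) by ring, h.even, h.even]
    ring
  · unfold Rig.modu
    exact ((h.int.comp_sub_right ω).add (h.int.comp_add_right ω)).div_const 2
  · intro x hx
    unfold Rig.modu
    have h1 := abs_sub_abs_le_abs_sub x ω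
    have h2 := abs_sub_abs_le_abs_sub x (-ω)
    rw [abs_neg, sub_neg_eq_add] at h2
    rw [h.supp (x - ω) (by linarith), h.supp (x + ω) (by linarith)]
    simp

lemma L1.fl_modu (h : L1 a φ) (ω x : ℝ) :
    fl (Rig.modu ω φ) x = fl φ x * Real.cos (2 * Real.pi * ω * x) := by
  have i1 : ∀ w : ℝ, ∫ α, φ (α - w) * Real.cos (2 * Real.pi * α * x) =
      ∫ α, φ α * Real.cos (2 * Real.pi * (α + w) * x) := by
    intro w
    have h2 := integral_sub_right_eq_self (μ := volume)
      (fun β : ℝ => φ β * Real.cos (2 * Real.pi * (β + w) * x)) w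
    rw [← h2]
    refine integral_congr_ae (ae_of_all _ fun α => ?_)
    simp only
    rw [sub_add_cancel]
  have j1 : ∀ w : ℝ, Integrable fun α : ℝ => φ (α - w) * Real.cos (2 * Real.pi * α * x) :=
    fun w => int_mul_cos (h.int.comp_sub_right w) x
  have j2 : ∀ w : ℝ, Integrable fun α : ℝ => φ α * Real.cos (2 * Real.pi * (α + w) * x) := by
    intro w
    refine h.int.mul_bdd (c := 1) (by fun_prop) (ae_of_all _ fun α => ?_)
    rw [Real.norm_eq_abs]; exact Real.abs_cos_le_one _
  have e1 : fl (Rig.modu ω φ) x = (1 / 2) * ((∫ α, φ (α - ω) * Real.cos (2 * Real.pi * α * x)) +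
      ∫ α, φ (α - -ω) * Real.cos (2 * Real.pi * α * x)) := by
    unfold fl Rig.modu
    rw [← integral_add (j1 ω) (j1 (-ω)), ← integral_const_mul]
    refine integral_congr_ae (ae_of_all _ fun α => ?_)
    simp only
    rw [sub_neg_eq_add]
    ring
  rw [e1, i1, i1, ← integral_add (j2 ω) (j2 (-ω)), ← integral_const_mul]
  unfold fl
  rw [← integral_mul_const]
  refine integral_congr_ae (ae_of_all _ fun α => ?_)
  simp only
  have c1 : Real.cos (2 * Real.pi * (α + ω) * x) =
      Real.cos (2 * Real.pi * α * x) * Real.cos (2 * Real.pi * ω * x) -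
      Real.sin (2 * Real.pi * α * x) * Real.sin (2 * Real.pi * ω * x) := by
    rw [← Real.cos_add]; congr 1; ring
  have c2 : Real.cos (2 * Real.pi * (α + -ω) * x) =
      Real.cos (2 * Real.pi * α * x) * Real.cos (2 * Real.pi * ω * x) +
      Real.sin (2 * Real.pi * α * x) * Real.sin (2 * Real.pi * ω * x) := by
    rw [← Real.cos_sub]; congr 1; ring
  rw [c1, c2]
  ring

/-- convolution -/
noncomputable def cv (φ ψ : ℝ → ℝ) (α : ℝ) : ℝ := ∫ u, φ u * ψ (α - u)

lemma cv_eq (φ ψ : ℝ → ℝ) : cv φ ψ = φ ⋆[ContinuousLinearMap.mul ℝ ℝ, volume] ψ := rfl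

lemma int_FL (h : L1 a φ) (z : ℂ) :
    Integrable fun u : ℝ => (φ u : ℂ) * Complex.exp (2 * Real.pi * I * u * z) := by
  have hm : AEStronglyMeasurable (fun u : ℝ => (φ u : ℂ) * Complex.exp (2 * Real.pi * I * u * z))
      volume := by
    refine h.int.ofReal.aestronglyMeasurable.mul ?_
    apply Continuous.aestronglyMeasurable
    fun_prop
  refine (h.int.abs.mul_const (Real.exp (2 * Real.pi * a * |z.im|))).mono' hm
    (ae_of_all _ fun α => ?_)
  rw [norm_mul, Complex.norm_real, Real.norm_eq_abs]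
  rcases lt_or_ge a |α| with hα | hα
  · rw [h.supp α hα]; simp
  · exact mul_le_mul_of_nonneg_left (norm_exp_le hα z) (abs_nonneg _)

lemma L1.FL_le (h : L1 a φ) (z : ℂ) :
    ‖FL φ z‖ ≤ (∫ x, |φ x|) * Real.exp (2 * Real.pi * a * |z.im|) := by
  unfold FL
  rw [← integral_mul_const]
  refine norm_integral_le_of_norm_le (h.int.abs.mul_const _) (ae_of_all _ fun α => ?_)
  rw [norm_mul, Complex.norm_real, Real.norm_eq_abs]
  rcases lt_or_ge a |α| with hα | hα
  · rw [h.supp α hα]; simp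
  · exact mul_le_mul_of_nonneg_left (norm_exp_le hα z) (abs_nonneg _)

lemma FL_cv (h : L1 a φ) (h' : L1 b ψ) (z : ℂ) : FL (cv φ ψ) z = FL φ z * FL ψ z := by
  have h1 := integral_convolution (ContinuousLinearMap.mul ℂ ℂ) (int_FL h z) (int_FL h' z)
    (μ := volume) (ν := volume)
  rw [ContinuousLinearMap.mul_apply'] at h1
  unfold FL
  rw [← h1]
  refine integral_congr_ae (ae_of_all _ fun α => ?_)
  simp only
  unfold cv
  rw [convolution_def, ← integral_complex_ofReal, ← integral_mul_const]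
  refine integral_congr_ae (ae_of_all _ fun u => ?_)
  simp only [ContinuousLinearMap.mul_apply']
  have : Complex.exp (2 * Real.pi * I * α * z) = Complex.exp (2 * Real.pi * I * u * z) *
      Complex.exp (2 * Real.pi * I * ((α - u : ℝ) : ℂ) * z) := by
    rw [← Complex.exp_add]
    congr 1
    push_cast
    ring
  rw [this]
  push_cast
  ring

lemma cv_even (h : L1 a φ) (h' : L1 b ψ) (x : ℝ) : cv φ ψ (-x) = cv φ ψ x := by
  unfold cv
  rw [← integral_neg_eq_self (fun u => φ u * ψ (x - u)) volume]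
  refine integral_congr_ae (ae_of_all _ fun u => ?_)
  simp only
  rw [h.even, show -x - u = -(x - -u) by ring, h'.even]

lemma cv_supp (h : L1 a φ) (h' : L1 b ψ) {x : ℝ} (hx : a + b < |x|) : cv φ ψ x = 0 := by
  unfold cv
  rw [integral_eq_zero_of_ae]
  refine ae_of_all _ fun u => ?_
  show φ u * ψ (x - u) = 0
  rcases lt_or_ge a |u| with hu | hu
  · rw [h.supp u hu, zero_mul]
  · have := abs_sub_abs_le_abs_sub x u
    rw [h'.supp (x - u) (by linarith), mul_zero]

lemma L1.cv (h : L1 a φ) (h' : L1 b ψ) : L1 (a + b) (cv φ ψ) :=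
  ⟨cv_even h h', h.int.integrable_convolution (ContinuousLinearMap.mul ℝ ℝ) h'.int,
    fun _ hx => cv_supp h h' hx⟩

lemma fl_cv (h : L1 a φ) (h' : L1 b ψ) (x : ℝ) : fl (cv φ ψ) x = fl φ x * fl ψ x := by
  have h1 := FL_cv h h' (x : ℂ)
  rw [FL_real (h.cv h').int (h.cv h').even, FL_real h.int h.even, FL_real h'.int h'.even,
    ← Complex.ofReal_mul] at h1
  exact Complex.ofReal_injective h1

lemma cv_cont (h : L1 a φ) {M : ℝ} (hM : ∀ x, |ψ x| ≤ M) (hc : Continuous ψ) :
    Continuous (cv φ ψ) := by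
  refine BddAbove.continuous_convolution_right_of_integrable (ContinuousLinearMap.mul ℝ ℝ) ?_
    h.int hc
  refine ⟨M, ?_⟩
  rintro y ⟨x, rfl⟩
  exact hM x

lemma adm_cv (h : L1 a φ) (h' : Adm κ ψ) : Adm (a + κ) (Rig.cv φ ψ) := by
  refine ⟨cv_even h h'.toL1, ?_, ?_, ?_⟩
  · obtain ⟨K, hK⟩ := h'.lip
    obtain ⟨M, hM0, hM⟩ := h'.bdd
    refine ⟨(∫ u, |φ u|) * K, fun x y => ?_⟩
    unfold Rig.cv
    have hi : ∀ x : ℝ, Integrable fun u => φ u * ψ (x - u) := by
      intro x
      have hc := h'.cont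
      refine h.int.mul_bdd (c := M) ?_ (ae_of_all _ fun u => ?_)
      · apply Continuous.aestronglyMeasurable
        fun_prop
      · exact hM _
    rw [← integral_sub (hi x) (hi y), ← Real.norm_eq_abs, mul_assoc, ← integral_mul_const]
    refine norm_integral_le_of_norm_le (h.int.abs.mul_const _) (ae_of_all _ fun u => ?_)
    rw [← mul_sub, Real.norm_eq_abs, abs_mul]
    refine mul_le_mul_of_nonneg_left ?_ (abs_nonneg _)
    have := hK (x - u) (y - u)
    rwa [show x - u - (y - u) = x - y by ring] at this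
  · intro x hx
    unfold Rig.cv
    rw [integral_eq_zero_of_ae]
    refine ae_of_all _ fun u => ?_
    show φ u * ψ (x - u) = 0
    rcases lt_or_ge a |u| with hu | hu
    · rw [h.supp u hu, zero_mul]
    · have := abs_sub_abs_le_abs_sub x u
      rw [h'.supp (x - u) (by linarith), mul_zero]
  · obtain ⟨C, hC⟩ := h'.dec
    refine ⟨(∫ u, |φ u|) * C, fun x y => ?_⟩
    rw [FL_cv h h'.toL1, norm_mul]
    have h1 := h.FL_le (x + y * I)
    have h2 := hC x y
    have e1 : ((x : ℂ) + y * I).im = y := by simp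
    rw [e1] at h1
    calc ‖FL φ (x + y * I)‖ * ‖FL ψ (x + y * I)‖ ≤
          ((∫ u, |φ u|) * Real.exp (2 * Real.pi * a * |y|)) *
          (C * Real.exp (2 * Real.pi * κ * |y|) / (1 + x ^ 2)) :=
          mul_le_mul h1 h2 (norm_nonneg _) ((norm_nonneg _).trans h1)
      _ = _ := by
          rw [show 2 * Real.pi * (a + κ) * |y| = 2 * Real.pi * a * |y| + 2 * Real.pi * κ * |y| by
            ring, Real.exp_add]
          ring

end Pool.Agent.Y749.Rig
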