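import Pool.Agent.Y749.Rig.SPa
import Pool.Agent.Y749.Rig.FFc

/-! # Cumulative counts and band-limited functions -/

set_option autoImplicit false

open MeasureTheory Set Filter Topology
open Complex (I)
open scoped NNReal ENNReal

namespace Pool.Agent.Y749.Rig

variable {κ κ₀ C B : ℝ} {φ ψ f : ℝ → ℝ} {μ μ₁ μ₂ : Measure ℝ}

lemma fl_tr_sinc {h : ℝ} (hh : 0 < h) (x : ℝ) : fl (tr h) x = Real.sinc (Real.pi * h * x) ^ 2 := by
  rcases eq_or_ne x 0 with hx | hx
  · rw [hx, fl_tr_zero hh]
    simp
  · have hpi := Real.pi_pos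
    rw [fl_tr hh hx, Real.sinc_of_ne_zero (by positivity)]

/-- integrable band-limited functions are test functions -/
theorem test_L1 (hC : 0 ≤ C) (h1 : Bdd C μ₁) (h2 : Bdd C μ₂)
    (ht : ∀ ψ, Adm κ₀ ψ → ∫ x, fl ψ x ∂μ₁ = ∫ x, fl ψ x ∂μ₂) (hκ : κ < κ₀) (h : L1 κ ψ)
    (hB : ∀ x, |fl ψ x| ≤ B / (1 + x ^ 2)) : ∫ x, fl ψ x ∂μ₁ = ∫ x, fl ψ x ∂μ₂ := by
  have hδ : ∀ n : ℕ, 0 < (κ₀ - κ) / ((n : ℝ) + 1) := fun n => by
    have : 0 < κ₀ - κ := by linarith
    positivity
  have hδ1 : ∀ n : ℕ, κ + (κ₀ - κ) / ((n : ℝ) + 1) ≤ κ₀ := by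
    intro n
    have h3 : (κ₀ - κ) / ((n : ℝ) + 1) ≤ κ₀ - κ := by
      apply div_le_self (by linarith)
      linarith [(Nat.cast_nonneg n : (0 : ℝ) ≤ n)]
    linarith
  have hB0 : 0 ≤ B := by
    have := (abs_nonneg _).trans (hB 0)
    simpa using this
  have hfc : Continuous (fl ψ) := fl_cont h.int
  have key : ∀ {ν : Measure ℝ}, Bdd C ν → Tendsto (fun n : ℕ => ∫ x, fl ψ x *
      fl (tr ((κ₀ - κ) / ((n : ℝ) + 1))) x ∂ν) atTop (𝓝 (∫ x, fl ψ x ∂ν)) := by
    intro ν hν
    refine tendsto_integral_of_dominated_convergence (fun x => B / (1 + x ^ 2)) ?_ ?_ ?_ ?_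
    · intro n
      exact (hfc.mul (fl_cont (tr_int (hδ n)))).aestronglyMeasurable
    · refine Bdd.integrable hC hν ?_ ⟨B, fun x => ?_⟩
      · refine continuous_const.div (by fun_prop) fun x => ?_
        positivity
      · rw [abs_of_nonneg (by positivity)]
    · intro n
      refine ae_of_all _ fun x => ?_
      rw [Real.norm_eq_abs, abs_mul]
      calc |fl ψ x| * |fl (tr ((κ₀ - κ) / ((n : ℝ) + 1))) x| ≤ |fl ψ x| * 1 := by
            gcongr
            exact fl_nic_le (nic_tr (hδ n)) (fun y => tr_nonneg (hδ n) y) x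
        _ ≤ _ := by rw [mul_one]; exact hB x
    · refine ae_of_all _ fun x => ?_
      have e1 : Tendsto (fun n : ℕ => Real.pi * ((κ₀ - κ) / ((n : ℝ) + 1)) * x) atTop (𝓝 0) := by
        have e2 : Tendsto (fun n : ℕ => (κ₀ - κ) / ((n : ℝ) + 1)) atTop (𝓝 0) := by
          have e0 := (tendsto_one_div_add_atTop_nhds_zero_nat (𝕜 := ℝ)).const_mul (κ₀ - κ)
          rw [mul_zero] at e0
          refine e0.congr fun n => ?_
          rw [mul_one_div]
        have e3 := (e2.const_mul Real.pi).mul_const x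
        simpa using e3
      have e4 : Tendsto (fun n : ℕ => fl (tr ((κ₀ - κ) / ((n : ℝ) + 1))) x) atTop (𝓝 1) := by
        have e5 := ((Real.continuous_sinc.tendsto 0).comp e1).pow 2
        rw [Real.sinc_zero, one_pow] at e5
        refine e5.congr fun n => ?_
        rw [fl_tr_sinc (hδ n)]
        rfl
      have e6 := e4.const_mul (fl ψ x)
      rwa [mul_one] at e6
  have k1 := key h1
  have k2 := key h2
  refine tendsto_nhds_unique k1 (k2.congr fun n => ?_)
  have e7 := ht _ ((adm_cv h (adm_tr (hδ n))).mono (hδ1 n))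
  simp_rw [fl_cv h (adm_tr (hδ n)).toL1] at e7
  exact e7.symm

/-- the integral over `[y, ∞)` of `t f t` -/
noncomputable def HH (f : ℝ → ℝ) (y : ℝ) : ℝ := ∫ t in Ioi y, t * f t

lemma tf_le (hB : ∀ x, |f x| ≤ B / (1 + x ^ 2) ^ 3) (t : ℝ) : |t * f t| ≤ B / (1 + t ^ 2) ^ 2 := by
  have hB0 : 0 ≤ B := by
    have := (abs_nonneg _).trans (hB 0)
    simpa using this
  rw [abs_mul]
  have h1 : |t| ≤ 1 + t ^ 2 := by
    rw [← sq_abs]
    nlinarith [sq_nonneg (|t| - 1), abs_nonneg t]
  calc |t| * |f t| ≤ (1 + t ^ 2) * (B / (1 + t ^ 2) ^ 3) := by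
        gcongr
        exact hB t
    _ = _ := by field_simp

lemma int_inv2 : Integrable fun t : ℝ => 1 / (1 + t ^ 2) ^ 2 := by
  refine int_inv.mono' ?_ (ae_of_all _ fun t => ?_)
  · apply Continuous.aestronglyMeasurable
    refine continuous_const.div (by fun_prop) fun x => ?_
    positivity
  · rw [Real.norm_eq_abs, abs_of_nonneg (by positivity)]
    apply one_div_le_one_div_of_le (by positivity)
    nlinarith [sq_nonneg t]

lemma tf_int (hc : Continuous f) (hB : ∀ x, |f x| ≤ B / (1 + x ^ 2) ^ 3) :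
    Integrable fun t : ℝ => t * f t := by
  refine (int_inv2.const_mul B).mono' (by
    apply Continuous.aestronglyMeasurable
    fun_prop) (ae_of_all _ fun t => ?_)
  rw [Real.norm_eq_abs, mul_one_div]
  exact tf_le hB t

lemma HH_deriv (hc : Continuous f) (hB : ∀ x, |f x| ≤ B / (1 + x ^ 2) ^ 3) (y : ℝ) :
    HasDerivAt (HH f) (-(y * f y)) y := by
  have hi := tf_int hc hB
  have e : HH f = fun y => HH f 0 - ∫ t in (0 : ℝ)..y, t * f t := by
    funext y
    unfold HH
    rw [intervalIntegral.integral_Ioi_sub_Ioi' hi.integrableOn hi.integrableOn |>.symm]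
    ring
  rw [e]
  have hc2 : Continuous fun t : ℝ => t * f t := by fun_prop
  have := (intervalIntegral.integral_hasDerivAt_right (hc2.intervalIntegrable 0 y)
    (hc2.stronglyMeasurableAtFilter _ _) hc2.continuousAt).const_sub (HH f 0)
  exact this

lemma HH_even (hc : Continuous f) (hB : ∀ x, |f x| ≤ B / (1 + x ^ 2) ^ 3)
    (he : ∀ x, f (-x) = f x) (y : ℝ) : HH f (-y) = HH f y := by
  have hi := tf_int hc hB
  have h1 := intervalIntegral.integral_Ioi_sub_Ioi' (μ := volume) (a := -y) (b := y)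
    (f := fun t => t * f t) hi.integrableOn hi.integrableOn
  have h2 : ∫ t in (-y)..y, t * f t = 0 := by
    have h3 := intervalIntegral.integral_comp_neg (a := -y) (b := y) fun t => t * f t
    rw [neg_neg] at h3
    simp_rw [he, neg_mul] at h3
    rw [intervalIntegral.integral_neg] at h3
    linarith
  unfold HH
  linarith

lemma HH_le (hc : Continuous f) (hB : ∀ x, |f x| ≤ B / (1 + x ^ 2) ^ 3)
    (he : ∀ x, f (-x) = f x) (y : ℝ) : |HH f y| ≤ B / (1 + y ^ 2) ^ 2 := by
  have hB0 : 0 ≤ B := by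
    have := (abs_nonneg _).trans (hB 0)
    simpa using this
  have key : ∀ y : ℝ, 0 ≤ y → |HH f y| ≤ B / (1 + y ^ 2) ^ 2 := by
    intro y hy
    have hd : ∀ t ∈ Ici y, HasDerivAt (fun t : ℝ => -(B / 4 / (1 + t ^ 2) ^ 2))
        (B * t / (1 + t ^ 2) ^ 3) t := by
      intro t _
      have h1 : HasDerivAt (fun t : ℝ => (1 + t ^ 2) ^ 2) (2 * (1 + t ^ 2) ^ 1 * (2 * t)) t := by
        have h2 : HasDerivAt (fun t : ℝ => 1 + t ^ 2) (2 * t) t := by
          have := (hasDerivAt_pow 2 t).const_add 1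
          simpa using this
        have h5 := h2.fun_pow 2
        refine h5.congr_deriv ?_
        push_cast
        ring
      have h3 := ((hasDerivAt_const t (B / 4)).fun_div h1 (by positivity)).fun_neg
      refine h3.congr_deriv ?_
      field_simp
      ring
    have hdom : IntegrableOn (fun t : ℝ => B * t / (1 + t ^ 2) ^ 3) (Ioi y) := by
      have h1 : Integrable fun t : ℝ => B * t / (1 + t ^ 2) ^ 3 := by
        refine (int_inv2.const_mul B).mono' (by
          apply Continuous.aestronglyMeasurable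
          refine Continuous.div (by fun_prop) (by fun_prop) fun x => ?_
          positivity) (ae_of_all _ fun t => ?_)
        rw [Real.norm_eq_abs, abs_div, abs_mul, abs_of_nonneg hB0,
          abs_of_nonneg (show (0 : ℝ) ≤ (1 + t ^ 2) ^ 3 by positivity), mul_one_div,
          div_le_div_iff₀ (by positivity) (by positivity)]
        have h1 : |t| ≤ 1 + t ^ 2 := by
          rw [← sq_abs]
          nlinarith [sq_nonneg (|t| - 1), abs_nonneg t]
        calc B * |t| * (1 + t ^ 2) ^ 2 ≤ B * (1 + t ^ 2) * (1 + t ^ 2) ^ 2 := by gcongr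
          _ = _ := by ring
      exact h1.integrableOn
    have hlim : Tendsto (fun t : ℝ => -(B / 4 / (1 + t ^ 2) ^ 2)) atTop (𝓝 0) := by
      have h1 : Tendsto (fun t : ℝ => (1 + t ^ 2) ^ 2) atTop atTop := by
        refine (tendsto_pow_atTop (by norm_num)).comp ?_
        exact tendsto_atTop_add_const_left _ _ (tendsto_pow_atTop (by norm_num))
      have h2 := (h1.const_div_atTop (B / 4)).neg
      simpa using h2
    have h4 := integral_Ioi_of_hasDerivAt_of_tendsto' hd hdom hlim
    calc |HH f y| ≤ ∫ t in Ioi y, B * t / (1 + t ^ 2) ^ 3 := by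
          unfold HH
          rw [← Real.norm_eq_abs]
          refine norm_integral_le_of_norm_le hdom ?_
          refine (ae_restrict_iff' measurableSet_Ioi).2 (ae_of_all _ fun t ht => ?_)
          have ht0 : 0 ≤ t := hy.trans ht.le
          rw [Real.norm_eq_abs, abs_mul, abs_of_nonneg ht0]
          calc t * |f t| ≤ t * (B / (1 + t ^ 2) ^ 3) := by gcongr; exact hB t
            _ = _ := by ring
      _ = B / 4 / (1 + y ^ 2) ^ 2 := by rw [h4]; ring
      _ ≤ B / (1 + y ^ 2) ^ 2 := by
          apply div_le_div_of_nonneg_right _ (by positivity)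
          linarith
  rcases le_total 0 y with hy | hy
  · exact key y hy
  · rw [← HH_even hc hB he]
    have := key (-y) (by linarith)
    rwa [neg_sq] at this

/-- the cosine transform of a primitive of a band-limited function -/
theorem HH_band (hφc : Continuous φ) (hκ0 : 0 ≤ κ) (h : L1 κ φ)
    (hB : ∀ x, |fl φ x| ≤ B / (1 + x ^ 2) ^ 3) :
    L1 κ (fl (HH (fl φ))) ∧ ∀ x, fl (fl (HH (fl φ))) x = HH (fl φ) x := by
  obtain ⟨f, hf⟩ : ∃ f, f = fl φ := ⟨_, rfl⟩
  rw [← hf] at hB ⊢
  have hfc : Continuous f := by rw [hf]; exact fl_cont h.int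
  have hfe : ∀ x, f (-x) = f x := fun x => by rw [hf, fl_even]
  have hB0 : 0 ≤ B := by
    have := (abs_nonneg _).trans (hB 0)
    simpa using this
  have hfi : Integrable f := by
    refine (int_inv.const_mul B).mono' hfc.aestronglyMeasurable (ae_of_all _ fun t => ?_)
    rw [Real.norm_eq_abs, mul_one_div]
    refine (hB t).trans ?_
    apply div_le_div_of_nonneg_left hB0 (by positivity)
    have : 1 ≤ (1 + t ^ 2) ^ 2 := by nlinarith [sq_nonneg t]
    calc 1 + t ^ 2 = (1 + t ^ 2) * 1 := by ring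
      _ ≤ (1 + t ^ 2) * (1 + t ^ 2) ^ 2 := by gcongr
      _ = _ := by ring
  have htf := tf_int hfc hB
  have hHd := HH_deriv hfc hB
  have hHe := HH_even hfc hB hfe
  have hHc : Continuous (HH f) := continuous_iff_continuousAt.2 fun x => (hHd x).continuousAt
  have hHi : Integrable (HH f) := by
    refine (int_inv2.const_mul B).mono' hHc.aestronglyMeasurable (ae_of_all _ fun t => ?_)
    rw [Real.norm_eq_abs, mul_one_div]
    exact HH_le hfc hB hfe t
  have hinv : ∀ ξ, fl f ξ = φ ξ := by
    intro ξ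
    rw [hf]
    exact inv_gen hφc h.int h.even (by rw [← hf]; exact hfi) ξ
  -- the derivative of the transform
  have hder : ∀ ξ : ℝ, HasDerivAt (fl f) (∫ t, -(2 * Real.pi) *
      (t * f t * Real.sin (2 * Real.pi * t * ξ))) ξ := by
    intro ξ
    have := (hasDerivAt_integral_of_dominated_loc_of_deriv_le (μ := volume) (s := univ) (x₀ := ξ)
      (F := fun ξ t => f t * Real.cos (2 * Real.pi * t * ξ))
      (F' := fun ξ t => -(2 * Real.pi) * (t * f t * Real.sin (2 * Real.pi * t * ξ)))
      (bound := fun t => 2 * Real.pi * |t * f t|) univ_mem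
      (Eventually.of_forall fun ξ => (int_mul_cos hfi ξ).aestronglyMeasurable)
      (int_mul_cos hfi ξ) ((int_mul_sin htf ξ).const_mul _).aestronglyMeasurable
      (ae_of_all _ fun t ξ _ => ?_) (htf.abs.const_mul _) (ae_of_all _ fun t ξ _ => ?_)).2
    · exact this
    · have hpi := Real.pi_pos
      rw [Real.norm_eq_abs, abs_mul, abs_neg, abs_of_pos (by positivity : 0 < 2 * Real.pi),
        abs_mul (t * f t)]
      refine mul_le_mul_of_nonneg_left ?_ (by positivity)
      exact mul_le_of_le_one_right (abs_nonneg _) (Real.abs_sin_le_one _)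
    · have h1 : HasDerivAt (fun ξ : ℝ => 2 * Real.pi * t * ξ) (2 * Real.pi * t) ξ := by
        have := (hasDerivAt_id ξ).const_mul (2 * Real.pi * t)
        simpa using this
      refine ((h1.cos).const_mul (f t)).congr_deriv ?_
      ring
  have hz : ∀ ξ : ℝ, κ < |ξ| → ∫ t, t * f t * Real.sin (2 * Real.pi * t * ξ) = 0 := by
    intro ξ hξ
    have h1 : fl f =ᶠ[𝓝 ξ] fun _ => (0 : ℝ) := by
      have : ∀ᶠ x : ℝ in 𝓝 ξ, κ < |x| :=
        continuous_abs.continuousAt.eventually (lt_mem_nhds hξ)
      filter_upwards [this] with x hx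
      rw [hinv, h.supp x hx]
    have h2 := ((hasDerivAt_const ξ (0 : ℝ)).congr_of_eventuallyEq h1).unique (hder ξ)
    rw [integral_const_mul] at h2
    have hpi := Real.pi_pos
    have : -(2 * Real.pi) ≠ 0 := by
      have : 0 < 2 * Real.pi := by positivity
      linarith
    exact (mul_eq_zero.1 h2.symm).resolve_left this
  have hsupp : ∀ ξ : ℝ, κ < |ξ| → fl (HH f) ξ = 0 := by
    intro ξ hξ
    have hξ0 : ξ ≠ 0 := by
      intro h0
      rw [h0, abs_zero] at hξ
      linarith
    have hpi := Real.pi_pos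
    have e1 := integral_mul_deriv_eq_deriv_mul_of_integrable (u := HH f)
      (u' := fun x => -(x * f x)) (v := fun x => Real.sin (2 * Real.pi * x * ξ))
      (v' := fun x => 2 * Real.pi * ξ * Real.cos (2 * Real.pi * x * ξ)) (fun x _ => hHd x)
      (fun x _ => by
        have h1 : HasDerivAt (fun x : ℝ => 2 * Real.pi * x * ξ) (2 * Real.pi * ξ) x := by
          have := ((hasDerivAt_id x).const_mul (2 * Real.pi)).mul_const ξ
          simpa using this
        refine h1.sin.congr_deriv ?_
        ring)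
      (by
        have := (int_mul_cos hHi ξ).const_mul (2 * Real.pi * ξ)
        refine this.congr (ae_of_all _ fun x => ?_)
        simp only [Pi.mul_apply]
        ring)
      (by
        have := (int_mul_sin htf ξ).neg
        refine this.congr (ae_of_all _ fun x => ?_)
        simp only [Pi.mul_apply, Pi.neg_apply]
        ring)
      (by
        have := int_mul_sin hHi ξ
        exact this)
    have e2 : ∫ x, HH f x * (2 * Real.pi * ξ * Real.cos (2 * Real.pi * x * ξ)) =
        2 * Real.pi * ξ * fl (HH f) ξ := by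
      unfold fl
      rw [← integral_const_mul]
      refine integral_congr_ae (ae_of_all _ fun x => ?_)
      simp only
      ring
    have e3 : ∫ x, -(x * f x) * Real.sin (2 * Real.pi * x * ξ) = 0 := by
      simp_rw [neg_mul]
      rw [integral_neg, hz ξ hξ, neg_zero]
    rw [e2, e3, neg_zero] at e1
    exact (mul_eq_zero.1 e1).resolve_left (by positivity)
  have hLi : Integrable (fl (HH f)) := by
    refine Continuous.integrable_of_hasCompactSupport (fl_cont hHi) ?_
    refine HasCompactSupport.of_support_subset_isCompact (isCompact_Icc (a := -κ) (b := κ)) ?_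
    intro x hx
    by_contra hcon
    apply hx
    apply hsupp
    by_contra h2
    push Not at h2
    exact hcon ⟨(abs_le.1 h2).1, (abs_le.1 h2).2⟩
  exact ⟨⟨fun x => fl_even x, hLi, hsupp⟩, fun x => inv_gen hHc hHi hHe hLi x⟩

end Pool.Agent.Y749.Rig
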