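import Pool.Agent.Y749.Rig.SPb

/-! # Cumulative counts and band-limited functions: the basic identity -/

set_option autoImplicit false

open MeasureTheory Set Filter Topology
open Complex (I)
open scoped NNReal ENNReal

namespace Pool.Agent.Y749.Rig

variable {κ κ₀ C B : ℝ} {φ ψ f : ℝ → ℝ} {μ μ₁ μ₂ : Measure ℝ}

/-- the cumulative mass -/
noncomputable def cu (μ : Measure ℝ) (x : ℝ) : ℝ := μ.real (Icc (-|x|) |x|)

lemma cu_nonneg (x : ℝ) : 0 ≤ cu μ x := measureReal_nonneg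

lemma cu_le (hC : 0 ≤ C) (h : Bdd C μ) (x : ℝ) : cu μ x ≤ 2 * C * (|x| + 1) := by
  have h1 := h.real_le hC 0 (b := |x|) _ (Nat.le_ceil (2 * |x|))
  rw [zero_sub, zero_add] at h1
  have h2 := (Nat.ceil_lt_add_one (show 0 ≤ 2 * |x| by positivity)).le
  unfold cu
  refine h1.trans ?_
  calc ((⌈2 * |x|⌉₊ : ℕ) + 1 : ℝ) * C ≤ (2 * |x| + 1 + 1) * C := by gcongr
    _ = _ := by ring

lemma cu_mono (h : Bdd C μ) : Monotone fun t : ℝ => μ.real (Icc (-t) t) := by
  intro s t hst
  exact h.mono_real (by linarith) hst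

lemma cu_meas (h : Bdd C μ) : Measurable (cu μ) := by
  have h1 := (cu_mono h).measurable
  exact h1.comp measurable_norm

lemma cS_meas : MeasurableSet {p : ℝ × ℝ | -|p.1| ≤ p.2 ∧ p.2 ≤ |p.1|} := by
  have m1 : Measurable fun p : ℝ × ℝ => -|p.1| := by fun_prop
  have m2 : Measurable fun p : ℝ × ℝ => |p.1| := by fun_prop
  exact (measurableSet_le m1 measurable_snd).inter (measurableSet_le measurable_snd m2)

lemma inv3 : Integrable fun t : ℝ => (1 + |t|) ^ 2 / (1 + t ^ 2) ^ 3 := by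
  refine (int_inv2.const_mul 2).mono' ?_ (ae_of_all _ fun t => ?_)
  · apply Continuous.aestronglyMeasurable
    refine Continuous.div (by fun_prop) (by fun_prop) fun x => ?_
    positivity
  · rw [Real.norm_eq_abs, abs_of_nonneg (by positivity), mul_one_div,
      div_le_div_iff₀ (by positivity) (by positivity)]
    have h1 : (1 + |t|) ^ 2 ≤ 2 * (1 + t ^ 2) := by
      rw [← sq_abs t]
      nlinarith [sq_nonneg (|t| - 1)]
    calc (1 + |t|) ^ 2 * (1 + t ^ 2) ^ 2 ≤ (2 * (1 + t ^ 2)) * (1 + t ^ 2) ^ 2 := by gcongr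
      _ = _ := by ring

lemma cu_int (hC : 0 ≤ C) (h : Bdd C μ) (hfc : Continuous f)
    (hB : ∀ x, |f x| ≤ B / (1 + x ^ 2) ^ 3) : Integrable fun x => |x| * f x * cu μ x := by
  refine (inv3.const_mul (2 * C * B)).mono' ?_ (ae_of_all _ fun t => ?_)
  · exact (by fun_prop : Continuous fun x => |x| * f x).aestronglyMeasurable.mul
      (cu_meas h).aestronglyMeasurable
  · rw [Real.norm_eq_abs, abs_mul, abs_mul, abs_abs, abs_of_nonneg (cu_nonneg t)]
    have h1 := cu_le hC h t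
    have h2 := hB t
    have hB0 : 0 ≤ B := by
      have := (abs_nonneg _).trans (hB 0)
      simpa using this
    have h3 := cu_nonneg (μ := μ) t
    have h4 := abs_nonneg t
    calc |t| * |f t| * cu μ t ≤ (1 + |t|) * (B / (1 + t ^ 2) ^ 3) * (2 * C * (|t| + 1)) := by
          apply mul_le_mul _ h1 h3 (by positivity)
          apply mul_le_mul (by linarith) h2 (abs_nonneg _) (by positivity)
      _ = _ := by ring

theorem cu_fubini [SFinite μ] (hC : 0 ≤ C) (h : Bdd C μ) (hfc : Continuous f)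
    (hfe : ∀ x, f (-x) = f x) (hB : ∀ x, |f x| ≤ B / (1 + x ^ 2) ^ 3) :
    ∫ x, |x| * f x * cu μ x = ∫ y, 2 * HH f y ∂μ := by
  obtain ⟨g, hg⟩ : ∃ g : ℝ → ℝ → ℝ, ∀ x y, g x y = (Icc (-|x|) |x|).indicator
      (fun _ => |x| * f x) y := ⟨fun x y => (Icc (-|x|) |x|).indicator (fun _ => |x| * f x) y,
        fun x y => rfl⟩
  have hg2 : Function.uncurry g = {p : ℝ × ℝ | -|p.1| ≤ p.2 ∧ p.2 ≤ |p.1|}.indicator
      (fun p => |p.1| * f p.1) := by
    ext p
    simp only [Function.uncurry]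
    rw [hg]
    by_cases hp : p.2 ∈ Icc (-|p.1|) |p.1|
    · rw [indicator_of_mem hp, indicator_of_mem (show p ∈ {p : ℝ × ℝ | -|p.1| ≤ p.2 ∧ p.2 ≤ |p.1|}
        from hp)]
    · rw [indicator_of_notMem hp, indicator_of_notMem
        (show p ∉ {p : ℝ × ℝ | -|p.1| ≤ p.2 ∧ p.2 ≤ |p.1|} from hp)]
  have hmeas : AEStronglyMeasurable (Function.uncurry g) (volume.prod μ) := by
    rw [hg2]
    exact ((by fun_prop : Continuous fun p : ℝ × ℝ => |p.1| * f p.1).aestronglyMeasurable).indicator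
      cS_meas
  have h1 : ∀ x, ∫ y, g x y ∂μ = |x| * f x * cu μ x := by
    intro x
    simp_rw [hg]
    rw [integral_indicator measurableSet_Icc, setIntegral_const, smul_eq_mul]
    unfold cu
    ring
  have h2 : ∀ x, ∫ y, ‖g x y‖ ∂μ = |(|x| * f x)| * cu μ x := by
    intro x
    have : ∀ y, ‖g x y‖ = (Icc (-|x|) |x|).indicator (fun _ => |(|x| * f x)|) y := by
      intro y
      rw [hg, norm_indicator_eq_indicator_norm]; rfl
    simp_rw [this]
    rw [integral_indicator measurableSet_Icc, setIntegral_const, smul_eq_mul]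
    unfold cu
    ring
  have hint : Integrable (Function.uncurry g) (volume.prod μ) := by
    rw [integrable_prod_iff hmeas]
    constructor
    · refine ae_of_all _ fun x => ?_
      show Integrable (fun y => g x y) μ
      simp_rw [hg]
      rw [integrable_indicator_iff measurableSet_Icc]
      exact integrableOn_const (h.lt_top _ _).ne
    · show Integrable (fun x => ∫ y, ‖g x y‖ ∂μ) volume
      simp_rw [h2]
      refine (cu_int hC h hfc hB).norm.congr (ae_of_all _ fun x => ?_)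
      simp only [Real.norm_eq_abs]
      rw [abs_mul, abs_of_nonneg (cu_nonneg x)]
  have h3 := integral_integral_swap hint
  simp_rw [h1] at h3
  rw [h3]
  refine integral_congr_ae (ae_of_all _ fun y => ?_)
  show ∫ x, g x y = 2 * HH f y
  have h4 : ∀ x, g x y = (fun t => (Ici |y|).indicator (fun t => t * f t) t) |x| := by
    intro x
    rw [hg]
    simp only
    have hfx : f |x| = f x := by
      rcases abs_cases x with hx | hx
      · rw [hx.1]
      · rw [hx.1, hfe]
    by_cases hp : y ∈ Icc (-|x|) |x|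
    · rw [indicator_of_mem hp, indicator_of_mem (show |x| ∈ Ici |y| from abs_le.2 hp), hfx]
    · rw [indicator_of_notMem hp, indicator_of_notMem]
      intro hx
      exact hp (abs_le.1 hx)
  simp_rw [h4]
  rw [integral_comp_abs, setIntegral_indicator measurableSet_Ici]
  congr 1
  have h5 : (Ioi (0 : ℝ) ∩ Ici |y| : Set ℝ) =ᵐ[volume] Ioi |y| := by
    have h6 : Ioi |y| =ᵐ[volume] Ici |y| := Ioi_ae_eq_Ici
    have h7 : (Ioi (0 : ℝ) ∩ Ici |y| : Set ℝ) =ᵐ[volume] (Ioi (0 : ℝ) ∩ Ioi |y| : Set ℝ) :=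
      (ae_eq_refl _).inter h6.symm
    refine h7.trans (Eq.eventuallyEq ?_)
    rw [Ioi_inter_Ioi, sup_eq_right.2 (abs_nonneg y)]
  rw [setIntegral_congr_set h5]
  have h8 : HH f |y| = HH f y := by
    rcases abs_cases y with hx | hx
    · rw [hx.1]
    · rw [hx.1, HH_even hfc hB hfe]
  rw [← h8]
  rfl

/-- **the basic identity** -/
theorem cum_test [SFinite μ₁] [SFinite μ₂] (hC : 0 ≤ C) (h1 : Bdd C μ₁) (h2 : Bdd C μ₂)
    (ht : ∀ ψ, Adm κ₀ ψ → ∫ x, fl ψ x ∂μ₁ = ∫ x, fl ψ x ∂μ₂) (hκ : κ < κ₀) (hκ0 : 0 ≤ κ)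
    (hφ : Continuous φ) (h : L1 κ φ) (hB : ∀ x, |fl φ x| ≤ B / (1 + x ^ 2) ^ 3) :
    ∫ x, |x| * (cu μ₁ x - cu μ₂ x) * fl φ x = 0 := by
  have hfc : Continuous (fl φ) := fl_cont h.int
  have hfe : ∀ x, fl φ (-x) = fl φ x := fun x => fl_even x
  have hB0 : 0 ≤ B := by
    have := (abs_nonneg _).trans (hB 0)
    simpa using this
  have e : ∀ x, |x| * (cu μ₁ x - cu μ₂ x) * fl φ x =
      |x| * fl φ x * cu μ₁ x - |x| * fl φ x * cu μ₂ x := fun x => by ring
  simp_rw [e]
  rw [integral_sub (cu_int hC h1 hfc hB) (cu_int hC h2 hfc hB), cu_fubini hC h1 hfc hfe hB,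
    cu_fubini hC h2 hfc hfe hB, integral_const_mul, integral_const_mul]
  obtain ⟨hb, he⟩ := HH_band hφ hκ0 h hB
  have h3 := test_L1 (B := B) hC h1 h2 ht hκ hb (fun x => by
    rw [he]
    refine (HH_le hfc hB hfe x).trans ?_
    apply div_le_div_of_nonneg_left hB0 (by positivity)
    nlinarith [sq_nonneg x, sq_nonneg (x ^ 2)])
  simp_rw [he] at h3
  rw [h3, sub_self]

end Pool.Agent.Y749.Rig
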