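import Pool.Agent.Y749.Rig.SPc

/-! # Moving finitely many zeros of the sine function -/

set_option autoImplicit false

open MeasureTheory Set Filter Topology
open Complex (I)

namespace Pool.Agent.Y749.Rig

/-- partial fractions -/
theorem pf (a ζ : ℕ → ℝ) (ha : ∀ k, 0 < a k) (hinj : ∀ j k, a j = a k → j = k)
    (hζ : ∀ k, 0 < ζ k) (N : ℕ) : ∃ (A : ℝ) (b : ℕ → ℝ), ∀ X : ℝ, (∀ k, X ≠ a k) →
      ∏ n ∈ Finset.range N, ((1 - X / ζ n) / (1 - X / a n)) =
        A + ∑ k ∈ Finset.range N, b k / (1 - X / a k) := by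
  induction N with
  | zero => exact ⟨1, fun _ => 0, fun X _ => by simp⟩
  | succ N ih =>
    obtain ⟨A, b, h⟩ := ih
    refine ⟨A * (a N / ζ N), fun k => if k = N then A * (1 - a N / ζ N) +
      ∑ j ∈ Finset.range N, b j * ((1 - a N / ζ N) / (1 - a N / a j)) else
      b k * ((1 - a k / ζ N) / (1 - a k / a N)), fun X hX => ?_⟩
    rw [Finset.prod_range_succ, h X hX, Finset.sum_range_succ]
    beta_reduce
    rw [if_pos rfl]
    have e1 : ∑ k ∈ Finset.range N, (if k = N then A * (1 - a N / ζ N) +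
        ∑ j ∈ Finset.range N, b j * ((1 - a N / ζ N) / (1 - a N / a j)) else
        b k * ((1 - a k / ζ N) / (1 - a k / a N))) / (1 - X / a k) =
        ∑ k ∈ Finset.range N, b k * ((1 - a k / ζ N) / (1 - a k / a N)) / (1 - X / a k) := by
      refine Finset.sum_congr rfl fun k hk => ?_
      rw [if_neg (Finset.mem_range.1 hk).ne]
    rw [e1]
    have hN := ha N
    have hz := hζ N
    have hXN : 1 - X / a N ≠ 0 := by
      intro h0
      apply hX N
      field_simp at h0
      linarith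
    have e2 : A * ((1 - X / ζ N) / (1 - X / a N)) = A * (a N / ζ N) +
        A * (1 - a N / ζ N) / (1 - X / a N) := by
      have n5 : a N - X ≠ 0 := fun h0 => hX N (by linarith)
      have q4 : 1 - X / a N = (a N - X) / a N := by field_simp
      rw [q4]
      field_simp
      ring
    have e3 : ∀ k ∈ Finset.range N, b k / (1 - X / a k) * ((1 - X / ζ N) / (1 - X / a N)) =
        b k * ((1 - a k / ζ N) / (1 - a k / a N)) / (1 - X / a k) +
        b k * ((1 - a N / ζ N) / (1 - a N / a k)) / (1 - X / a N) := by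
      intro k hk
      have hk0 := ha k
      have hXk : 1 - X / a k ≠ 0 := by
        intro h0
        apply hX k
        field_simp at h0
        linarith
      have hne : a k ≠ a N := fun h0 => (Finset.mem_range.1 hk).ne (hinj _ _ h0)
      have n1 : 1 - a k / a N ≠ 0 := by
        intro h0
        apply hne
        field_simp at h0
        linarith
      have n2 : 1 - a N / a k ≠ 0 := by
        intro h0
        apply hne
        field_simp at h0
        linarith
      have n3 : a N - a k ≠ 0 := fun h0 => hne (by linarith)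
      have n4 : a k - X ≠ 0 := fun h0 => hX k (by linarith)
      have n5 : a N - X ≠ 0 := fun h0 => hX N (by linarith)
      have q1 : 1 - a k / a N = (a N - a k) / a N := by field_simp
      have q2 : 1 - a N / a k = -(a N - a k) / a k := by field_simp; ring
      have q3 : 1 - X / a k = (a k - X) / a k := by field_simp
      have q4 : 1 - X / a N = (a N - X) / a N := by field_simp
      rw [q1, q2, q3, q4]
      field_simp
      ring
    rw [add_mul, e2, Finset.sum_mul, Finset.sum_congr rfl e3, Finset.sum_add_distrib,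
      ← Finset.sum_div]
    ring

variable {ρ : ℝ} {a : ℝ} {φ : ℝ → ℝ}

/-- the zeros of the sine function -/
noncomputable def mz (ρ : ℝ) (n : ℕ) : ℝ := ((n : ℝ) + 1) / ρ

/-- the box -/
noncomputable def bx (ρ α : ℝ) : ℝ := (Icc (-(ρ / 2)) (ρ / 2)).indicator (fun _ => 1 / ρ) α

lemma bx_L1 (_hρ : 0 < ρ) : L1 (ρ / 2) (bx ρ) := by
  refine ⟨fun x => ?_, ?_, fun x hx => ?_⟩
  · unfold bx
    by_cases h : x ∈ Icc (-(ρ / 2)) (ρ / 2)
    · rw [indicator_of_mem h, indicator_of_mem]
      exact ⟨by linarith [h.2], by linarith [h.1]⟩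
    · rw [indicator_of_notMem h, indicator_of_notMem]
      intro h2
      exact h ⟨by linarith [h2.2], by linarith [h2.1]⟩
  · unfold bx
    rw [integrable_indicator_iff measurableSet_Icc]
    exact integrableOn_const (by simp)
  · unfold bx
    rw [indicator_of_notMem]
    intro h2
    exact absurd (abs_le.2 h2) (not_le.2 hx)

lemma fl_bx (hρ : 0 < ρ) (x : ℝ) : fl (bx ρ) x = Real.sinc (Real.pi * ρ * x) := by
  unfold fl bx
  have e : ∀ α : ℝ, (Icc (-(ρ / 2)) (ρ / 2)).indicator (fun _ => 1 / ρ) α *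
      Real.cos (2 * Real.pi * α * x) = (Icc (-(ρ / 2)) (ρ / 2)).indicator
      (fun α => 1 / ρ * Real.cos (2 * Real.pi * α * x)) α := by
    intro α
    rw [indicator_mul_left]
  simp_rw [e]
  rw [integral_indicator measurableSet_Icc, integral_Icc_eq_integral_Ioc,
    ← intervalIntegral.integral_of_le (by linarith), intervalIntegral.integral_const_mul,
    int_cos_sinc (by positivity)]
  rw [show 2 * Real.pi * (ρ / 2) * x = Real.pi * ρ * x by ring]
  field_simp

lemma L1.mcos (h : L1 a φ) (m : ℝ) : L1 a fun α => φ α * Real.cos (2 * Real.pi * α * m) := by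
  refine ⟨fun x => ?_, int_mul_cos h.int m, fun x hx => by rw [h.supp x hx, zero_mul]⟩
  rw [h.even, show 2 * Real.pi * -x * m = -(2 * Real.pi * x * m) by ring, Real.cos_neg]

lemma L1.fl_mcos (h : L1 a φ) (m x : ℝ) : fl (fun α => φ α * Real.cos (2 * Real.pi * α * m)) x =
    (fl φ (x + m) + fl φ (x - m)) / 2 := by
  unfold fl
  rw [← integral_add (int_mul_cos h.int _) (int_mul_cos h.int _), ← integral_div]
  refine integral_congr_ae (ae_of_all _ fun α => ?_)
  simp only
  have c1 : Real.cos (2 * Real.pi * α * (x + m)) =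
      Real.cos (2 * Real.pi * α * x) * Real.cos (2 * Real.pi * α * m) -
      Real.sin (2 * Real.pi * α * x) * Real.sin (2 * Real.pi * α * m) := by
    rw [← Real.cos_add]; congr 1; ring
  have c2 : Real.cos (2 * Real.pi * α * (x - m)) =
      Real.cos (2 * Real.pi * α * x) * Real.cos (2 * Real.pi * α * m) +
      Real.sin (2 * Real.pi * α * x) * Real.sin (2 * Real.pi * α * m) := by
    rw [← Real.cos_sub]; congr 1; ring
  rw [c1, c2]
  ring

/-- the box with one zero removed -/
noncomputable def bn (ρ : ℝ) (n : ℕ) (α : ℝ) : ℝ :=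
  bx ρ α + (-1) ^ n * (bx ρ α * Real.cos (2 * Real.pi * α * mz ρ n))

lemma bn_L1 (hρ : 0 < ρ) (n : ℕ) : L1 (ρ / 2) (bn ρ n) :=
  (bx_L1 hρ).add (((bx_L1 hρ).mcos _).smul _)

lemma mz_pos (hρ : 0 < ρ) (n : ℕ) : 0 < mz ρ n := by unfold mz; positivity

lemma fl_bn (hρ : 0 < ρ) (n : ℕ) {x : ℝ} (hx : x ^ 2 ≠ mz ρ n ^ 2) :
    fl (bn ρ n) x = Real.sinc (Real.pi * ρ * x) / (1 - x ^ 2 / mz ρ n ^ 2) := by
  have hpi := Real.pi_pos
  have hm := mz_pos hρ n
  have h1 : fl (bn ρ n) x = Real.sinc (Real.pi * ρ * x) + (-1) ^ n *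
      ((Real.sinc (Real.pi * ρ * (x + mz ρ n)) + Real.sinc (Real.pi * ρ * (x - mz ρ n))) / 2) := by
    unfold bn
    rw [fl_add (bx_L1 hρ).int (((bx_L1 hρ).mcos _).smul _).int, fl_smul, (bx_L1 hρ).fl_mcos,
      fl_bx hρ, fl_bx hρ, fl_bx hρ]
  rw [h1]
  have n1 : x + mz ρ n ≠ 0 := by
    intro h0
    apply hx
    have : x = -mz ρ n := by linarith
    rw [this, neg_sq]
  have n2 : x - mz ρ n ≠ 0 := by
    intro h0
    apply hx
    have : x = mz ρ n := by linarith
    rw [this]
  have hρm : Real.pi * ρ * mz ρ n = ((n + 1 : ℕ) : ℝ) * Real.pi := by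
    unfold mz
    push_cast
    field_simp
  have s1 : Real.sin (Real.pi * ρ * (x + mz ρ n)) = (-1) ^ (n + 1) * Real.sin (Real.pi * ρ * x) := by
    rw [mul_add, hρm, Real.sin_add_nat_mul_pi]
  have s2 : Real.sin (Real.pi * ρ * (x - mz ρ n)) = (-1) ^ (n + 1) * Real.sin (Real.pi * ρ * x) := by
    rw [mul_sub, hρm, Real.sin_sub_nat_mul_pi]
  have n3 : 1 - x ^ 2 / mz ρ n ^ 2 ≠ 0 := by
    intro h0
    apply hx
    field_simp at h0
    linarith
  rcases eq_or_ne x 0 with h0 | h0
  · subst h0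
    rw [zero_add] at s1
    rw [mul_zero, Real.sin_zero, mul_zero] at s1
    rw [zero_add, zero_sub, mul_zero, Real.sinc_zero]
    rw [Real.sinc_of_ne_zero (by positivity), s1]
    rw [mul_neg, Real.sinc_neg, Real.sinc_of_ne_zero (by positivity), s1]
    simp
  · rw [Real.sinc_of_ne_zero (by positivity), Real.sinc_of_ne_zero (by positivity),
      Real.sinc_of_ne_zero (by positivity), s1, s2]
    have e1 : ((-1 : ℝ)) ^ n * (-1) ^ (n + 1) = -1 := by
      rw [pow_succ, ← mul_assoc, ← pow_add, ← two_mul, pow_mul]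
      simp
    have e2 : (-1 : ℝ) ^ n * (((-1) ^ (n + 1) * Real.sin (Real.pi * ρ * x) /
        (Real.pi * ρ * (x + mz ρ n)) + (-1) ^ (n + 1) * Real.sin (Real.pi * ρ * x) /
        (Real.pi * ρ * (x - mz ρ n))) / 2) = ((-1 : ℝ) ^ n * (-1) ^ (n + 1)) *
        (Real.sin (Real.pi * ρ * x) / (Real.pi * ρ * (x + mz ρ n)) + Real.sin (Real.pi * ρ * x) /
        (Real.pi * ρ * (x - mz ρ n))) / 2 := by ring
    rw [e2, e1]
    have n4 : mz ρ n ^ 2 - x ^ 2 ≠ 0 := fun h => hx (by linarith)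
    have e3 : 1 - x ^ 2 / mz ρ n ^ 2 = (mz ρ n ^ 2 - x ^ 2) / mz ρ n ^ 2 := by
      field_simp
    rw [e3]
    have e4 : mz ρ n ^ 2 - x ^ 2 = -((x + mz ρ n) * (x - mz ρ n)) := by ring
    rw [e4]
    field_simp
    ring

lemma L1.sum {ι : Type*} (s : Finset ι) {g : ι → ℝ → ℝ} (h : ∀ i ∈ s, L1 a (g i)) :
    L1 a (fun x => ∑ i ∈ s, g i x) := by
  refine ⟨fun x => Finset.sum_congr rfl fun i hi => (h i hi).even x,
    integrable_finsetSum _ fun i hi => (h i hi).int,
    fun x hx => Finset.sum_eq_zero fun i hi => (h i hi).supp x hx⟩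

lemma fl_sum {ι : Type*} (s : Finset ι) {g : ι → ℝ → ℝ} (h : ∀ i ∈ s, Integrable (g i)) (x : ℝ) :
    fl (fun x => ∑ i ∈ s, g i x) x = ∑ i ∈ s, fl (g i) x := by
  unfold fl
  rw [← integral_finsetSum _ fun i hi => int_mul_cos (h i hi) x]
  refine integral_congr_ae (ae_of_all _ fun α => ?_)
  simp only
  rw [Finset.sum_mul]

/-- the sine function with the first zeros moved -/
noncomputable def gN (ρ : ℝ) (z : ℕ → ℝ) (N : ℕ) (x : ℝ) : ℝ :=
  Real.sinc (Real.pi * ρ * x) * ∏ n ∈ Finset.range N,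
    ((1 - x ^ 2 / z n ^ 2) / (1 - x ^ 2 / mz ρ n ^ 2))

theorem gN_band (hρ : 0 < ρ) {z : ℕ → ℝ} (hz : ∀ n, 0 < z n) (N : ℕ) :
    ∃ φ : ℝ → ℝ, L1 (ρ / 2) φ ∧ ∀ x : ℝ, (∀ k, x ^ 2 ≠ mz ρ k ^ 2) → fl φ x = gN ρ z N x := by
  obtain ⟨A, b, h⟩ := pf (fun k => mz ρ k ^ 2) (fun k => z k ^ 2)
    (fun k => by have := mz_pos hρ k; positivity) (fun j k hjk => by
      have h1 : mz ρ j = mz ρ k := by
        have := abs_eq_abs.2 (Or.inl rfl : mz ρ j = mz ρ j ∨ _)
        exact (pow_left_inj₀ (mz_pos hρ j).le (mz_pos hρ k).le two_ne_zero).1 hjk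
      unfold mz at h1
      have h2 : (j : ℝ) + 1 = k + 1 := by
        field_simp at h1
        exact h1
      have h3 : (j : ℝ) = k := by linarith
      exact_mod_cast h3) (fun k => by have := hz k; positivity) N
  refine ⟨fun x => A * bx ρ x + ∑ k ∈ Finset.range N, b k * bn ρ k x, ?_, fun x hx => ?_⟩
  · exact ((bx_L1 hρ).smul A).add (L1.sum _ fun k _ => (bn_L1 hρ k).smul _)
  · have i1 : ∀ k ∈ Finset.range N, Integrable fun x => b k * bn ρ k x :=
      fun k _ => ((bn_L1 hρ k).smul _).int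
    rw [fl_add ((bx_L1 hρ).smul A).int (integrable_finsetSum _ i1), fl_smul, fl_sum _ i1, fl_bx hρ]
    unfold gN
    rw [h (x ^ 2) hx, mul_add, Finset.mul_sum]
    congr 1
    · ring
    · refine Finset.sum_congr rfl fun k _ => ?_
      rw [fl_smul, fl_bn hρ k (hx k)]
      ring

end Pool.Agent.Y749.Rig
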