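import Pool.Agent.Y749.Rig.SPd

/-! # Moving the zeros of the sine function: the uniform bound -/

set_option autoImplicit false

open MeasureTheory Set Filter Topology
open Complex (I)

namespace Pool.Agent.Y749.Rig

/-- harmonic sums -/
noncomputable def Hs (n : ℕ) : ℝ := ∑ i ∈ Finset.range n, 1 / ((i : ℝ) + 1)

lemma Hs_nonneg (n : ℕ) : 0 ≤ Hs n := Finset.sum_nonneg fun i _ => by positivity

lemma Hs_mono {m n : ℕ} (h : m ≤ n) : Hs m ≤ Hs n := by
  unfold Hs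
  refine Finset.sum_le_sum_of_subset_of_nonneg (Finset.range_mono h) fun i _ _ => ?_
  positivity

lemma Hs_log (n : ℕ) : Hs n ≤ 1 + Real.log n := by
  have h := harmonic_le_one_add_log n
  refine le_trans (le_of_eq ?_) h
  unfold Hs harmonic
  push_cast
  refine Finset.sum_congr rfl fun i _ => ?_
  rw [one_div]

lemma sum_sq1 (n : ℕ) : ∑ i ∈ Finset.range (n + 1), 1 / ((i : ℝ) + 1) ^ 2 ≤ 2 - 1 / ((n : ℝ) + 1) := by
  induction n with
  | zero => norm_num
  | succ n ih =>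
    rw [Finset.sum_range_succ]
    push_cast at ih ⊢
    have h4 : 1 / ((n : ℝ) + 1 + 1) ^ 2 ≤ 1 / ((n : ℝ) + 1) - 1 / ((n : ℝ) + 1 + 1) := by
      rw [div_sub_div _ _ (by positivity) (by positivity), div_le_div_iff₀ (by positivity)
        (by positivity)]
      have : (0 : ℝ) ≤ n := n.cast_nonneg
      nlinarith
    linarith

lemma sum_sq (n : ℕ) : ∑ i ∈ Finset.range n, 1 / ((i : ℝ) + 1) ^ 2 ≤ 2 := by
  rcases n with _ | n
  · norm_num
  · have h1 := sum_sq1 n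
    have : 0 < 1 / ((n : ℝ) + 1) := by positivity
    linarith

/-- sums of the reciprocal distances -/
theorem sumU (N K : ℕ) {y : ℝ} (hK : |y - K| ≤ 1 / 2) :
    ∑ n ∈ (Finset.range N).filter (fun n => n + 1 ≠ K), y / (((n : ℝ) + 1) * |(n : ℝ) + 1 - y|) ≤
      4 * Hs K + 2 := by
  rw [abs_le] at hK
  have hsplit : (Finset.range N).filter (fun n => n + 1 ≠ K) =
      (Finset.range N).filter (fun n => n + 1 < K) ∪ (Finset.range N).filter (fun n => K ≤ n) := by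
    ext n
    simp only [Finset.mem_filter, Finset.mem_union, Finset.mem_range]
    constructor
    · rintro ⟨h1, h2⟩
      rcases lt_or_gt_of_ne h2 with h | h
      · left; exact ⟨h1, h⟩
      · right; exact ⟨h1, by omega⟩
    · rintro (⟨h1, h2⟩ | ⟨h1, h2⟩)
      · exact ⟨h1, by omega⟩
      · exact ⟨h1, by omega⟩
  have hdis : Disjoint ((Finset.range N).filter (fun n => n + 1 < K))
      ((Finset.range N).filter (fun n => K ≤ n)) := by
    rw [Finset.disjoint_left]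
    intro n h1 h2
    simp only [Finset.mem_filter] at h1 h2
    omega
  rw [hsplit, Finset.sum_union hdis]
  have p1 : ∑ n ∈ (Finset.range N).filter (fun n => n + 1 < K),
      y / (((n : ℝ) + 1) * |(n : ℝ) + 1 - y|) ≤ 3 * Hs K := by
    have h1 : ∀ n ∈ (Finset.range N).filter (fun n => n + 1 < K),
        y / (((n : ℝ) + 1) * |(n : ℝ) + 1 - y|) ≤ 1 / ((n : ℝ) + 1) +
          2 * (1 / (((K - 1 - 1 - n : ℕ) : ℝ) + 1)) := by
      intro n hn
      simp only [Finset.mem_filter, Finset.mem_range] at hn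
      have h2 : ((K - 1 - 1 - n : ℕ) : ℝ) = (K : ℝ) - 2 - n := by
        have : K = (K - 1 - 1 - n) + 2 + n := by omega
        have h3 : (K : ℝ) = ((K - 1 - 1 - n : ℕ) : ℝ) + 2 + n := by exact_mod_cast this
        linarith
      have h4 : (n : ℝ) + 2 ≤ K := by exact_mod_cast (by omega : n + 2 ≤ K)
      have h5 : 0 < y - ((n : ℝ) + 1) := by linarith
      rw [h2, abs_sub_comm, abs_of_pos h5]
      have h6 : y / (((n : ℝ) + 1) * (y - ((n : ℝ) + 1))) = 1 / ((n : ℝ) + 1) +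
          1 / (y - ((n : ℝ) + 1)) := by
        have : y - ((n : ℝ) + 1) ≠ 0 := h5.ne'
        field_simp
        ring
      rw [h6]
      have h7 : 1 / (y - ((n : ℝ) + 1)) ≤ 2 * (1 / ((K : ℝ) - 2 - n + 1)) := by
        rw [mul_one_div, div_le_div_iff₀ h5 (by linarith)]
        linarith
      linarith
    have hsub : (Finset.range N).filter (fun n => n + 1 < K) ⊆ Finset.range (K - 1) := by
      intro n hn
      simp only [Finset.mem_filter, Finset.mem_range] at hn ⊢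
      omega
    refine (Finset.sum_le_sum h1).trans ?_
    refine (Finset.sum_le_sum_of_subset_of_nonneg hsub fun n _ _ => by positivity).trans ?_
    rw [Finset.sum_add_distrib, ← Finset.mul_sum]
    have h8 := Finset.sum_range_reflect (fun i : ℕ => 1 / ((i : ℝ) + 1)) (K - 1)
    have h9 : ∑ n ∈ Finset.range (K - 1), 1 / (((K - 1 - 1 - n : ℕ) : ℝ) + 1) = Hs (K - 1) := h8
    rw [h9]
    have h10 : ∑ n ∈ Finset.range (K - 1), 1 / ((n : ℝ) + 1) = Hs (K - 1) := rfl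
    rw [h10]
    have h11 := Hs_mono (Nat.sub_le K 1)
    linarith
  have p2 : ∑ n ∈ (Finset.range N).filter (fun n => K ≤ n),
      y / (((n : ℝ) + 1) * |(n : ℝ) + 1 - y|) ≤ Hs K + 2 := by
    have h1 : (Finset.range N).filter (fun n => K ≤ n) = Finset.Ico K N := by
      ext n
      simp only [Finset.mem_filter, Finset.mem_range, Finset.mem_Ico]
      omega
    rw [h1, Finset.sum_Ico_eq_sum_range]
    have h2 : ∀ i ∈ Finset.range (N - K), y / ((((K + i : ℕ) : ℝ) + 1) *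
        |((K + i : ℕ) : ℝ) + 1 - y|) ≤ (1 / ((i : ℝ) + 1) - 1 / (((K + i : ℕ) : ℝ) + 1)) +
          1 / ((i : ℝ) + 1) ^ 2 := by
      intro i _
      push_cast
      have hi : (0 : ℝ) ≤ i := i.cast_nonneg
      have hK0 : (0 : ℝ) ≤ K := K.cast_nonneg
      have h3 : 0 < (K : ℝ) + i + 1 - y := by linarith
      rw [abs_of_pos h3]
      have h4 : y / (((K : ℝ) + i + 1) * ((K : ℝ) + i + 1 - y)) = 1 / ((K : ℝ) + i + 1 - y) -
          1 / ((K : ℝ) + i + 1) := by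
        have : (K : ℝ) + i + 1 - y ≠ 0 := h3.ne'
        field_simp
        ring
      rw [h4]
      have h5 : 1 / ((K : ℝ) + i + 1 - y) ≤ 1 / ((i : ℝ) + 1) + 1 / ((i : ℝ) + 1) ^ 2 := by
        have h6 : 1 / ((K : ℝ) + i + 1 - y) ≤ 1 / ((i : ℝ) + 1 / 2) := by
          apply one_div_le_one_div_of_le (by positivity)
          linarith
        have h7 : 1 / ((i : ℝ) + 1 / 2) ≤ 1 / ((i : ℝ) + 1) + 1 / ((i : ℝ) + 1) ^ 2 := by
          rw [div_add_div _ _ (by positivity) (by positivity), div_le_div_iff₀ (by positivity)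
            (by positivity)]
          nlinarith [mul_nonneg hi hi]
        linarith
      linarith
    refine (Finset.sum_le_sum h2).trans ?_
    rw [Finset.sum_add_distrib, Finset.sum_sub_distrib]
    have h3 := sum_sq (N - K)
    have h4 : Hs (K + (N - K)) = Hs K + ∑ i ∈ Finset.range (N - K), 1 / (((K + i : ℕ) : ℝ) + 1) :=
      Finset.sum_range_add (fun i : ℕ => 1 / ((i : ℝ) + 1)) K (N - K)
    have h5 : Hs (N - K) ≤ Hs (K + (N - K)) := Hs_mono (by omega)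
    have h6 : ∑ i ∈ Finset.range (N - K), 1 / ((i : ℝ) + 1) = Hs (N - K) := rfl
    rw [h6]
    linarith
  linarith

variable {ρ c₀ D : ℝ} {z : ℕ → ℝ}

/-- the single factors -/
lemma fac (hρ : 0 < ρ) (hc : 0 < c₀) (hD : 0 ≤ D) (hz0 : ∀ n, c₀ ≤ z n)
    (hzD : ∀ n, |z n - mz ρ n| ≤ D) : ∃ c : ℝ, 0 ≤ c ∧ ∀ (n : ℕ) (x : ℝ), 0 ≤ x →
      x ^ 2 ≠ mz ρ n ^ 2 →
      |(1 - x ^ 2 / z n ^ 2) / (1 - x ^ 2 / mz ρ n ^ 2)| ≤
        Real.exp (c * ((ρ * x) / (((n : ℝ) + 1) * |(n : ℝ) + 1 - ρ * x|))) := by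
  obtain ⟨c₁, hc₁⟩ : ∃ c₁ : ℝ, c₁ = min (1 / 2) (c₀ / (2 * D + 1)) := ⟨_, rfl⟩
  have hc₁0 : 0 < c₁ := by rw [hc₁]; exact lt_min (by norm_num) (by positivity)
  have hc₁a : c₁ ≤ 1 / 2 := by rw [hc₁]; exact min_le_left _ _
  have hc₁b : c₁ ≤ c₀ / (2 * D + 1) := by rw [hc₁]; exact min_le_right _ _
  have hzm : ∀ n, c₁ * mz ρ n ≤ z n := by
    intro n
    have hm := mz_pos hρ n
    have h1 := (abs_le.1 (hzD n)).1
    rcases le_total (2 * D) (mz ρ n) with h | h
    · calc c₁ * mz ρ n ≤ 1 / 2 * mz ρ n := by gcongr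
        _ ≤ z n := by linarith
    · refine le_trans ?_ (hz0 n)
      calc c₁ * mz ρ n ≤ c₀ / (2 * D + 1) * (2 * D + 1) := by gcongr; linarith
        _ = c₀ := by field_simp
  refine ⟨D * (1 / c₁ + 1 / c₁ ^ 2) * ρ, by positivity, fun n x hx hne => ?_⟩
  have hm := mz_pos hρ n
  have hz := hc.trans_le (hz0 n)
  have hd : mz ρ n ^ 2 - x ^ 2 ≠ 0 := fun h => hne (by linarith)
  have e1 : 1 - x ^ 2 / mz ρ n ^ 2 = (mz ρ n ^ 2 - x ^ 2) / mz ρ n ^ 2 := by field_simp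
  have e2 : (1 - x ^ 2 / z n ^ 2) / (1 - x ^ 2 / mz ρ n ^ 2) =
      1 + x ^ 2 * ((z n - mz ρ n) * (z n + mz ρ n)) / (z n ^ 2 * (mz ρ n ^ 2 - x ^ 2)) := by
    rw [e1]
    field_simp
    ring
  rw [e2]
  refine (abs_add_le _ _).trans ?_
  rw [abs_one]
  have h2 : |x ^ 2 * ((z n - mz ρ n) * (z n + mz ρ n)) / (z n ^ 2 * (mz ρ n ^ 2 - x ^ 2))| ≤
      D * (1 / c₁ + 1 / c₁ ^ 2) * ρ * ((ρ * x) / (((n : ℝ) + 1) * |(n : ℝ) + 1 - ρ * x|)) := by
    have hk : mz ρ n = ((n : ℝ) + 1) / ρ := rfl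
    obtain ⟨k, hk'⟩ : ∃ k : ℝ, k = (n : ℝ) + 1 := ⟨_, rfl⟩
    have hk0 : 0 < k := by rw [hk']; positivity
    rw [← hk'] at hk ⊢
    have hky : |k - ρ * x| ≠ 0 := by
      rw [abs_ne_zero]
      intro h0
      apply hne
      have h1 : x = k / ρ := by
        field_simp
        linarith
      rw [h1, hk]
    have hky0 : 0 < |k - ρ * x| := lt_of_le_of_ne (abs_nonneg _) (Ne.symm hky)
    have h3 : |mz ρ n ^ 2 - x ^ 2| = |k - ρ * x| * (k + ρ * x) / ρ ^ 2 := by
      have : mz ρ n ^ 2 - x ^ 2 = (k - ρ * x) * (k + ρ * x) / ρ ^ 2 := by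
        rw [hk]
        field_simp
        ring
      rw [this, abs_div, abs_mul, abs_of_pos (by positivity : 0 < ρ ^ 2),
        abs_of_nonneg (by positivity : 0 ≤ k + ρ * x)]
    have h4 : (z n + mz ρ n) / z n ^ 2 ≤ (1 / c₁ + 1 / c₁ ^ 2) / mz ρ n := by
      have h5 : 1 / z n ≤ 1 / (c₁ * mz ρ n) := one_div_le_one_div_of_le (by positivity) (hzm n)
      have h6 : mz ρ n / z n ^ 2 ≤ mz ρ n / (c₁ * mz ρ n) ^ 2 := by
        apply div_le_div_of_nonneg_left hm.le (by positivity)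
        exact pow_le_pow_left₀ (by positivity) (hzm n) 2
      calc (z n + mz ρ n) / z n ^ 2 = 1 / z n + mz ρ n / z n ^ 2 := by field_simp
        _ ≤ 1 / (c₁ * mz ρ n) + mz ρ n / (c₁ * mz ρ n) ^ 2 := add_le_add h5 h6
        _ = _ := by field_simp
    rw [abs_div, abs_mul, abs_mul, abs_mul, h3, abs_of_nonneg (sq_nonneg x),
      abs_of_nonneg (sq_nonneg (z n)), abs_of_nonneg (by positivity : 0 ≤ z n + mz ρ n)]
    have h7 := hzD n
    calc x ^ 2 * (|z n - mz ρ n| * (z n + mz ρ n)) /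
          (z n ^ 2 * (|k - ρ * x| * (k + ρ * x) / ρ ^ 2)) =
          |z n - mz ρ n| * ((z n + mz ρ n) / z n ^ 2) *
          ((ρ * x) ^ 2 / (|k - ρ * x| * (k + ρ * x))) := by
          field_simp
      _ ≤ D * ((1 / c₁ + 1 / c₁ ^ 2) / mz ρ n) * ((ρ * x) / |k - ρ * x|) := by
          have h8 : (ρ * x) ^ 2 / (|k - ρ * x| * (k + ρ * x)) ≤ (ρ * x) / |k - ρ * x| := by
            rw [div_le_div_iff₀ (by positivity) hky0]
            have : 0 ≤ ρ * x * |k - ρ * x| * k := by positivity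
            nlinarith
          have h9 : |z n - mz ρ n| * ((z n + mz ρ n) / z n ^ 2) ≤
              D * ((1 / c₁ + 1 / c₁ ^ 2) / mz ρ n) := mul_le_mul h7 h4 (by positivity) hD
          exact mul_le_mul h9 h8 (by positivity) (by positivity)
      _ = _ := by
          rw [hk]
          field_simp
  have h3 := Real.add_one_le_exp (D * (1 / c₁ + 1 / c₁ ^ 2) * ρ *
    ((ρ * x) / (((n : ℝ) + 1) * |(n : ℝ) + 1 - ρ * x|)))
  linarith

lemma fl_bn_le (hρ : 0 < ρ) (n : ℕ) (x : ℝ) : |fl (bn ρ n) x| ≤ 2 := by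
  have h1 : ∀ y : ℝ, |fl (bx ρ) y| ≤ 1 := fun y => by
    rw [fl_bx hρ]; exact Real.abs_sinc_le_one _
  unfold bn
  rw [fl_add (bx_L1 hρ).int (((bx_L1 hρ).mcos _).smul _).int, fl_smul, (bx_L1 hρ).fl_mcos]
  refine (abs_add_le _ _).trans ?_
  rw [abs_mul, abs_pow, abs_neg, abs_one, one_pow, one_mul, abs_div, abs_two]
  have h2 := abs_add_le (fl (bx ρ) (x + mz ρ n)) (fl (bx ρ) (x - mz ρ n))
  have h3 := h1 x
  have h4 := h1 (x + mz ρ n)
  have h5 := h1 (x - mz ρ n)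
  linarith

/-- **the uniform polynomial bound** -/
theorem gN_bound (hρ : 0 < ρ) (hc : 0 < c₀) (hD : 0 ≤ D) (hz0 : ∀ n, c₀ ≤ z n)
    (hzD : ∀ n, |z n - mz ρ n| ≤ D) : ∃ (C : ℝ) (J : ℕ), 0 ≤ C ∧ ∀ (N : ℕ) (x : ℝ),
      (∀ k, x ^ 2 ≠ mz ρ k ^ 2) → |gN ρ z N x| ≤ C * (1 + x ^ 2) ^ J := by
  obtain ⟨c, hc0, hfac⟩ := fac hρ hc hD hz0 hzD
  obtain ⟨J, hJ⟩ := exists_nat_ge (4 * c)
  refine ⟨2 * (1 + 1 / c₀ ^ 2) * Real.exp (6 * c) * (2 * (1 + ρ) ^ 2) ^ J, J + 1, by positivity,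
    fun N x hne => ?_⟩
  have key : ∀ x : ℝ, 0 ≤ x → (∀ k, x ^ 2 ≠ mz ρ k ^ 2) → |gN ρ z N x| ≤
      2 * (1 + 1 / c₀ ^ 2) * Real.exp (6 * c) * (2 * (1 + ρ) ^ 2) ^ J * (1 + x ^ 2) ^ (J + 1) := by
    intro x hx hne
    obtain ⟨y, hy⟩ : ∃ y : ℝ, y = ρ * x := ⟨_, rfl⟩
    have hy0 : 0 ≤ y := by rw [hy]; positivity
    obtain ⟨K, hK⟩ : ∃ K : ℕ, K = ⌊y + 1 / 2⌋₊ := ⟨_, rfl⟩
    have hK1 : (K : ℝ) ≤ y + 1 / 2 := by rw [hK]; exact Nat.floor_le (by positivity)
    have hK2 : y + 1 / 2 < K + 1 := by rw [hK]; exact Nat.lt_floor_add_one _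
    have hyK : |y - K| ≤ 1 / 2 := abs_le.2 ⟨by linarith, by linarith⟩
    have hprod : ∀ s : Finset ℕ, s ⊆ (Finset.range N).filter (fun n => n + 1 ≠ K) →
        |∏ n ∈ s, ((1 - x ^ 2 / z n ^ 2) / (1 - x ^ 2 / mz ρ n ^ 2))| ≤
          Real.exp (c * (4 * Hs K + 2)) := by
      intro s hs
      rw [Finset.abs_prod]
      calc ∏ n ∈ s, |(1 - x ^ 2 / z n ^ 2) / (1 - x ^ 2 / mz ρ n ^ 2)| ≤
            ∏ n ∈ s, Real.exp (c * (y / (((n : ℝ) + 1) * |(n : ℝ) + 1 - y|))) := by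
            refine Finset.prod_le_prod (fun n _ => abs_nonneg _) fun n _ => ?_
            rw [hy]
            exact hfac n x hx (hne n)
        _ = Real.exp (∑ n ∈ s, c * (y / (((n : ℝ) + 1) * |(n : ℝ) + 1 - y|))) :=
            (Real.exp_sum _ _).symm
        _ ≤ Real.exp (c * (4 * Hs K + 2)) := by
            apply Real.exp_le_exp.2
            rw [← Finset.mul_sum]
            refine mul_le_mul_of_nonneg_left ?_ hc0
            refine (Finset.sum_le_sum_of_subset_of_nonneg hs fun n _ _ => ?_).trans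
              (sumU N K hyK)
            positivity
    have hexp : Real.exp (c * (4 * Hs K + 2)) ≤ Real.exp (6 * c) * (1 + y) ^ J := by
      rcases Nat.eq_zero_or_pos K with h0 | h0
      · have : Hs K = 0 := by rw [h0]; unfold Hs; simp
        rw [this, mul_zero, zero_add]
        have h1 : Real.exp (c * 2) ≤ Real.exp (6 * c) := Real.exp_le_exp.2 (by linarith)
        have h2 : 1 ≤ (1 + y) ^ J := one_le_pow₀ (by linarith)
        calc Real.exp (c * 2) ≤ Real.exp (6 * c) * 1 := by rw [mul_one]; exact h1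
          _ ≤ _ := by gcongr
      · have hKpos : (0 : ℝ) < K := by exact_mod_cast h0
        have hK1' : (1 : ℝ) ≤ K := by exact_mod_cast h0
        have h1 := Hs_log K
        have h2 : Real.log K ≤ Real.log (1 + y) := Real.log_le_log hKpos (by linarith)
        have h3 : 0 ≤ Real.log (1 + y) := Real.log_nonneg (by linarith)
        have h4 : c * (4 * Hs K + 2) ≤ 6 * c + J * Real.log (1 + y) := by
          calc c * (4 * Hs K + 2) ≤ c * (4 * (1 + Real.log (1 + y)) + 2) := by gcongr; linarith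
            _ = 6 * c + 4 * c * Real.log (1 + y) := by ring
            _ ≤ _ := by gcongr
        calc Real.exp (c * (4 * Hs K + 2)) ≤ Real.exp (6 * c + J * Real.log (1 + y)) :=
              Real.exp_le_exp.2 h4
          _ = _ := by
              rw [Real.exp_add, Real.exp_nat_mul, Real.exp_log (by linarith)]
    have hyJ : (1 + y) ^ J ≤ (2 * (1 + ρ) ^ 2) ^ J * (1 + x ^ 2) ^ J := by
      rw [← mul_pow]
      apply pow_le_pow_left₀ (by positivity)
      have h1 : 1 + y ≤ (1 + ρ) * (1 + x) := by rw [hy]; nlinarith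
      have h2 : 1 + x ≤ 2 * (1 + x ^ 2) := by nlinarith [sq_nonneg (x - 1), sq_nonneg (2 * x - 1)]
      have h3 : (1 + ρ) ≤ (1 + ρ) ^ 2 := by nlinarith
      calc 1 + y ≤ (1 + ρ) * (1 + x) := h1
        _ ≤ (1 + ρ) ^ 2 * (2 * (1 + x ^ 2)) := by gcongr
        _ = _ := by ring
    have hfin : ∀ (a : ℝ), |a| ≤ 2 * ((1 + 1 / c₀ ^ 2) * (1 + x ^ 2)) → ∀ s : Finset ℕ,
        s ⊆ (Finset.range N).filter (fun n => n + 1 ≠ K) →
        |a * ∏ n ∈ s, ((1 - x ^ 2 / z n ^ 2) / (1 - x ^ 2 / mz ρ n ^ 2))| ≤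
        2 * (1 + 1 / c₀ ^ 2) * Real.exp (6 * c) * (2 * (1 + ρ) ^ 2) ^ J * (1 + x ^ 2) ^ (J + 1) := by
      intro a ha s hs
      rw [abs_mul]
      calc |a| * |∏ n ∈ s, ((1 - x ^ 2 / z n ^ 2) / (1 - x ^ 2 / mz ρ n ^ 2))| ≤
            2 * ((1 + 1 / c₀ ^ 2) * (1 + x ^ 2)) * (Real.exp (6 * c) *
            ((2 * (1 + ρ) ^ 2) ^ J * (1 + x ^ 2) ^ J)) := by
            apply mul_le_mul ha _ (abs_nonneg _) (by positivity)
            refine (hprod s hs).trans (hexp.trans ?_)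
            gcongr
        _ = _ := by ring
    have hbase : (1 : ℝ) ≤ (1 + 1 / c₀ ^ 2) * (1 + x ^ 2) := by
      have h1 : 0 ≤ 1 / c₀ ^ 2 := by positivity
      nlinarith [sq_nonneg x, mul_nonneg h1 (sq_nonneg x)]
    by_cases hcase : 1 ≤ K ∧ K - 1 < N
    · obtain ⟨h1, h2⟩ := hcase
      have hmem : K - 1 ∈ Finset.range N := Finset.mem_range.2 h2
      have e1 : gN ρ z N x = (fl (bn ρ (K - 1)) x * (1 - x ^ 2 / z (K - 1) ^ 2)) *
          ∏ n ∈ (Finset.range N).erase (K - 1), ((1 - x ^ 2 / z n ^ 2) / (1 - x ^ 2 / mz ρ n ^ 2)) := by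
        unfold gN
        rw [← Finset.mul_prod_erase _ _ hmem, fl_bn hρ (K - 1) (hne _)]
        ring
      rw [e1]
      refine hfin _ ?_ _ ?_
      · rw [abs_mul]
        have h3 := fl_bn_le hρ (K - 1) x
        have h4 : |1 - x ^ 2 / z (K - 1) ^ 2| ≤ (1 + 1 / c₀ ^ 2) * (1 + x ^ 2) := by
          refine (abs_sub _ _).trans ?_
          rw [abs_one, abs_of_nonneg (by positivity)]
          have h5 : x ^ 2 / z (K - 1) ^ 2 ≤ x ^ 2 / c₀ ^ 2 := by
            apply div_le_div_of_nonneg_left (by positivity) (by positivity)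
            exact pow_le_pow_left₀ hc.le (hz0 _) 2
          have h6 : (1 + 1 / c₀ ^ 2) * (1 + x ^ 2) = 1 + x ^ 2 + 1 / c₀ ^ 2 + x ^ 2 / c₀ ^ 2 := by
            ring
          rw [h6]
          have h7 : 0 ≤ 1 / c₀ ^ 2 := by positivity
          nlinarith [sq_nonneg x]
        exact mul_le_mul h3 h4 (abs_nonneg _) (by norm_num)
      · intro n hn
        rw [Finset.mem_erase] at hn
        rw [Finset.mem_filter]
        exact ⟨hn.2, by omega⟩
    · unfold gN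
      refine hfin _ ?_ _ ?_
      · refine (Real.abs_sinc_le_one _).trans ?_
        linarith
      · intro n hn
        rw [Finset.mem_filter]
        refine ⟨hn, fun h0 => hcase ?_⟩
        rw [Finset.mem_range] at hn
        omega
  rcases le_total 0 x with hx | hx
  · exact key x hx hne
  · have h1 := key (-x) (by linarith) (fun k => by rw [neg_sq]; exact hne k)
    have h2 : gN ρ z N (-x) = gN ρ z N x := by
      unfold gN
      rw [mul_neg, Real.sinc_neg]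
      simp only [neg_sq]
    rwa [h2, neg_sq] at h1

end Pool.Agent.Y749.Rig
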