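import Pool.Agent.Y749.Rig.SPe

/-! # Moving the zeros of the sine function: the limit -/

set_option autoImplicit false

open MeasureTheory Set Filter Topology
open Complex (I)

namespace Pool.Agent.Y749.Rig

variable {ρ c₀ D : ℝ} {z : ℕ → ℝ}

lemma summ_sq : Summable fun n : ℕ => 1 / ((n : ℝ) + 1) ^ 2 := by
  have h := (summable_nat_add_iff (f := fun n : ℕ => 1 / (n : ℝ) ^ 2) 1).2
    (Real.summable_one_div_nat_pow.2 one_lt_two)
  refine h.congr fun n => ?_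
  push_cast
  rfl

lemma z_lower (hρ : 0 < ρ) (hc : 0 < c₀) (hD : 0 ≤ D) (hz0 : ∀ n, c₀ ≤ z n)
    (hzD : ∀ n, |z n - mz ρ n| ≤ D) : ∃ c₁ : ℝ, 0 < c₁ ∧ ∀ n, c₁ * mz ρ n ≤ z n := by
  obtain ⟨c₁, hc₁⟩ : ∃ c₁ : ℝ, c₁ = min (1 / 2) (c₀ / (2 * D + 1)) := ⟨_, rfl⟩
  have hc₁0 : 0 < c₁ := by rw [hc₁]; exact lt_min (by norm_num) (by positivity)
  have hc₁a : c₁ ≤ 1 / 2 := by rw [hc₁]; exact min_le_left _ _
  have hc₁b : c₁ ≤ c₀ / (2 * D + 1) := by rw [hc₁]; exact min_le_right _ _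
  refine ⟨c₁, hc₁0, fun n => ?_⟩
  have hm := mz_pos hρ n
  have h1 := (abs_le.1 (hzD n)).1
  rcases le_total (2 * D) (mz ρ n) with h | h
  · calc c₁ * mz ρ n ≤ 1 / 2 * mz ρ n := by gcongr
      _ ≤ z n := by linarith
  · refine le_trans ?_ (hz0 n)
    calc c₁ * mz ρ n ≤ c₀ / (2 * D + 1) * (2 * D + 1) := by gcongr; linarith
      _ = c₀ := by field_simp

lemma sumz (hρ : 0 < ρ) (hc : 0 < c₀) (hD : 0 ≤ D) (hz0 : ∀ n, c₀ ≤ z n)
    (hzD : ∀ n, |z n - mz ρ n| ≤ D) (x : ℝ) : Summable fun n => x ^ 2 / z n ^ 2 := by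
  obtain ⟨c₁, hc₁, h⟩ := z_lower hρ hc hD hz0 hzD
  refine Summable.of_nonneg_of_le (fun n => ?_) (fun n => ?_)
    (summ_sq.mul_left (x ^ 2 * ρ ^ 2 / c₁ ^ 2))
  · have := hc.trans_le (hz0 n)
    positivity
  · have hm := mz_pos hρ n
    calc x ^ 2 / z n ^ 2 ≤ x ^ 2 / (c₁ * mz ρ n) ^ 2 := by
          apply div_le_div_of_nonneg_left (by positivity) (by positivity)
          exact pow_le_pow_left₀ (by positivity) (h n) 2
      _ = x ^ 2 * ρ ^ 2 / c₁ ^ 2 * (1 / ((n : ℝ) + 1) ^ 2) := by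
          unfold mz
          field_simp

/-- the canonical product -/
noncomputable def PP (z : ℕ → ℝ) (x : ℝ) : ℝ := ∏' n, (1 + -(x ^ 2 / z n ^ 2))

lemma PP_even (x : ℝ) : PP z (-x) = PP z x := by unfold PP; simp only [neg_sq]

lemma PP_tendsto (hs : ∀ x : ℝ, Summable fun n => x ^ 2 / z n ^ 2) (x : ℝ) :
    Tendsto (fun N => ∏ n ∈ Finset.range N, (1 - x ^ 2 / z n ^ 2)) atTop (𝓝 (PP z x)) := by
  have h1 := (Real.multipliable_one_add_of_summable (hs x).neg).hasProd.tendsto_prod_nat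
  refine h1.congr fun N => Finset.prod_congr rfl fun n _ => ?_
  ring

lemma PP_meas (hs : ∀ x : ℝ, Summable fun n => x ^ 2 / z n ^ 2) : Measurable (PP z) := by
  refine measurable_of_tendsto_metrizable (f := fun N x => ∏ n ∈ Finset.range N,
    (1 - x ^ 2 / z n ^ 2)) (fun N => ?_) (tendsto_pi_nhds.2 fun x => PP_tendsto hs x)
  fun_prop

lemma PP_ne (hs : ∀ x : ℝ, Summable fun n => x ^ 2 / z n ^ 2) (hz : ∀ n, 0 < z n) {x : ℝ}
    (hx : ∀ n, x ^ 2 ≠ z n ^ 2) : PP z x ≠ 0 := by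
  refine tprod_one_add_ne_zero_of_summable (f := fun n => -(x ^ 2 / z n ^ 2)) (fun n h0 => ?_) ?_
  · apply hx n
    have := hz n
    have h1 : x ^ 2 / z n ^ 2 = 1 := by linarith
    rw [div_eq_one_iff_eq (by positivity)] at h1
    exact h1
  · exact (hs x).neg.norm

lemma PP_sign (hs : ∀ x : ℝ, Summable fun n => x ^ 2 / z n ^ 2) (hz : ∀ n, 0 < z n) {x : ℝ}
    (hx : 0 ≤ x) {k : ℕ} (h1 : ∀ n, n < k → z n ≤ x) (h2 : ∀ n, k ≤ n → x ≤ z n) :
    0 ≤ (-1) ^ k * PP z x := by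
  refine ge_of_tendsto ((PP_tendsto hs x).const_mul ((-1) ^ k)) ?_
  filter_upwards [eventually_ge_atTop k] with N hN
  rw [← Finset.prod_range_mul_prod_Ico _ hN, ← mul_assoc]
  apply mul_nonneg
  · have : (-1 : ℝ) ^ k = ∏ n ∈ Finset.range k, (-1 : ℝ) := by simp
    rw [this, ← Finset.prod_mul_distrib]
    refine Finset.prod_nonneg fun n hn => ?_
    have h3 := h1 n (Finset.mem_range.1 hn)
    have h4 := hz n
    have h5 : 1 ≤ x ^ 2 / z n ^ 2 := by
      rw [one_le_div (by positivity)]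
      exact pow_le_pow_left₀ h4.le h3 2
    linarith
  · refine Finset.prod_nonneg fun n hn => ?_
    have h3 := h2 n (Finset.mem_Ico.1 hn).1
    have h4 := hz n
    have h5 : x ^ 2 / z n ^ 2 ≤ 1 := by
      rw [div_le_one (by positivity)]
      exact pow_le_pow_left₀ hx h3 2
    linarith

lemma sinc_ne (hρ : 0 < ρ) {x : ℝ} (hx : ∀ k, x ^ 2 ≠ mz ρ k ^ 2) :
    Real.sinc (Real.pi * ρ * x) ≠ 0 := by
  have hpi := Real.pi_pos
  rcases eq_or_ne x 0 with h0 | h0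
  · rw [h0, mul_zero, Real.sinc_zero]
    exact one_ne_zero
  · rw [Real.sinc_of_ne_zero (by positivity)]
    intro h1
    rcases div_eq_zero_iff.1 h1 with h | h
    · rw [Real.sin_eq_zero_iff] at h
      obtain ⟨n, hn⟩ := h
      have h2 : ρ * x = n := by
        have : Real.pi * (ρ * x) = Real.pi * n := by linarith
        exact mul_left_cancel₀ hpi.ne' this
      have hn0 : n ≠ 0 := by
        rintro rfl
        rw [Int.cast_zero] at h2
        exact (mul_ne_zero hρ.ne' h0) h2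
      have h3 : n.natAbs ≠ 0 := by simpa using hn0
      obtain ⟨k, hk⟩ := Nat.exists_eq_succ_of_ne_zero h3
      apply hx k
      have h4 : x = n / ρ := by field_simp; linarith
      rw [h4]
      unfold mz
      rw [div_pow, div_pow]
      congr 1
      have h5 : ((k : ℝ) + 1) = ((n.natAbs : ℕ) : ℝ) := by rw [hk]; push_cast; rfl
      rw [h5, Nat.cast_natAbs, Int.cast_abs, sq_abs]
    · have : Real.pi * ρ * x ≠ 0 := by positivity
      exact this h

lemma gN_tendsto (hρ : 0 < ρ) (hs : ∀ x : ℝ, Summable fun n => x ^ 2 / z n ^ 2) {x : ℝ}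
    (hx : ∀ k, x ^ 2 ≠ mz ρ k ^ 2) : Tendsto (fun N => gN ρ z N x) atTop (𝓝 (PP z x)) := by
  have hS := sinc_ne hρ hx
  have hpi := Real.pi_pos
  have h1 : Tendsto (fun N => ∏ n ∈ Finset.range N, (1 - x ^ 2 / mz ρ n ^ 2)) atTop
      (𝓝 (Real.sinc (Real.pi * ρ * x))) := by
    rcases eq_or_ne x 0 with h0 | h0
    · rw [h0, mul_zero, Real.sinc_zero]
      refine tendsto_const_nhds.congr fun N => ?_
      simp
    · have h2 := (Real.tendsto_euler_sin_prod (ρ * x)).const_mul (1 / (Real.pi * (ρ * x)))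
      have h3 : 1 / (Real.pi * (ρ * x)) * Real.sin (Real.pi * (ρ * x)) =
          Real.sinc (Real.pi * ρ * x) := by
        rw [Real.sinc_of_ne_zero (by positivity), mul_assoc]
        field_simp
      rw [h3] at h2
      refine h2.congr fun N => ?_
      have h4 : Real.pi * (ρ * x) ≠ 0 := by positivity
      rw [← mul_assoc, one_div_mul_cancel h4, one_mul]
      refine Finset.prod_congr rfl fun n _ => ?_
      unfold mz
      field_simp
  have h2 := ((PP_tendsto hs x).mul (tendsto_const_nhds (x := Real.sinc (Real.pi * ρ * x)))).div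
    h1 hS
  rw [mul_div_cancel_right₀ _ hS] at h2
  refine h2.congr fun N => ?_
  unfold gN
  rw [Finset.prod_div_distrib]
  simp only [Pi.div_apply]
  ring

lemma PP_bound (hρ : 0 < ρ) (hc : 0 < c₀) (hD : 0 ≤ D) (hz0 : ∀ n, c₀ ≤ z n)
    (hzD : ∀ n, |z n - mz ρ n| ≤ D) : ∃ (C : ℝ) (J : ℕ), 0 ≤ C ∧
      (∀ (N : ℕ) (x : ℝ), (∀ k, x ^ 2 ≠ mz ρ k ^ 2) → |gN ρ z N x| ≤ C * (1 + x ^ 2) ^ J) ∧
      ∀ (x : ℝ), (∀ k, x ^ 2 ≠ mz ρ k ^ 2) → |PP z x| ≤ C * (1 + x ^ 2) ^ J := by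
  obtain ⟨C, J, hC, h⟩ := gN_bound hρ hc hD hz0 hzD
  refine ⟨C, J, hC, h, fun x hx => ?_⟩
  exact le_of_tendsto (gN_tendsto hρ (sumz hρ hc hD hz0 hzD) hx).abs
    (Eventually.of_forall fun N => h N x hx)

lemma ae_sq (w : ℕ → ℝ) : ∀ᵐ x : ℝ, ∀ k, x ^ 2 ≠ w k ^ 2 := by
  have h1 : {x : ℝ | ¬ ∀ k, x ^ 2 ≠ w k ^ 2} ⊆ (range fun k => w k) ∪ range fun k => -w k := by
    intro x hx
    simp only [mem_ofPred_eq, not_forall, not_not] at hx
    obtain ⟨k, hk⟩ := hx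
    rcases sq_eq_sq_iff_eq_or_eq_neg.1 hk with h | h
    · left; exact ⟨k, h.symm⟩
    · right; exact ⟨k, h.symm⟩
  rw [ae_iff]
  exact (((countable_range _).union (countable_range _)).mono h1).measure_zero _

end Pool.Agent.Y749.Rig
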