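import Pool.Agent.Y749.Rig.SPf

/-! # From sign changes to zeros -/

set_option autoImplicit false

open MeasureTheory Set Filter Topology

namespace Pool.Agent.Y749.Rig

/-- `k` points in `(A, x]` at which the signs of `G` alternate, the first one positive, with an
error `τ` -/
def Chn (G τ : ℝ → ℝ) (A : ℝ) (k : ℕ) (x : ℝ) : Prop := ∃ v : ℕ → ℝ,
  (∀ i, i + 1 < k → v i < v (i + 1)) ∧
    ∀ i, i < k → A < v i ∧ v i ≤ x ∧ τ (v i) < (-1) ^ i * G (v i)

/-- at most `m` alternating points in each interval of length `L` -/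
def Few (G τ : ℝ → ℝ) (A L : ℝ) (m : ℕ) : Prop := ∀ s : ℝ, (s = 1 ∨ s = -1) → ∀ v : ℕ → ℝ,
  StrictMono v → A < v 0 → v m < v 0 + L → ∃ i, i ≤ m ∧ s * ((-1) ^ i * G (v i)) ≤ τ (v i)

variable {G τ : ℝ → ℝ} {A L : ℝ} {m : ℕ}

lemma chn_gap (hF : Few G τ A L m) {k : ℕ} {x : ℝ} {v : ℕ → ℝ}
    (h1 : ∀ i, i + 1 < k → v i < v (i + 1))
    (h2 : ∀ i, i < k → A < v i ∧ v i ≤ x ∧ τ (v i) < (-1) ^ i * G (v i)) {i : ℕ} (hi : i + m < k) :
    v i + L ≤ v (i + m) := by
  by_contra hcon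
  push Not at hcon
  obtain ⟨w, hw⟩ : ∃ w : ℕ → ℝ, ∀ j, w j = if j ≤ m then v (i + j) else v (i + m) + ((j : ℝ) - m) :=
    ⟨_, fun j => rfl⟩
  have hmono : StrictMono w := by
    refine strictMono_nat_of_lt_succ fun j => ?_
    rw [hw, hw]
    rcases lt_trichotomy j m with h | h | h
    · rw [if_pos h.le, if_pos (by omega)]
      have := h1 (i + j) (by omega)
      rwa [add_assoc] at this
    · subst h
      rw [if_pos le_rfl, if_neg (by omega)]
      push_cast
      linarith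
    · rw [if_neg (by omega), if_neg (by omega)]
      push_cast
      linarith
  have hs : ((-1 : ℝ)) ^ i = 1 ∨ ((-1 : ℝ)) ^ i = -1 := neg_one_pow_eq_or ℝ i
  have h0 : w 0 = v i := by rw [hw, if_pos (Nat.zero_le m), add_zero]
  have hm : w m = v (i + m) := by rw [hw, if_pos le_rfl]
  obtain ⟨j, hj, h3⟩ := hF _ hs w hmono (by rw [h0]; exact (h2 i (by omega)).1)
    (by rw [h0, hm]; exact hcon)
  have h4 := (h2 (i + j) (by omega)).2.2
  rw [hw, if_pos hj, ← mul_assoc, ← pow_add] at h3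
  linarith

lemma chn_iter (hF : Few G τ A L m) {k : ℕ} {x : ℝ} {v : ℕ → ℝ}
    (h1 : ∀ i, i + 1 < k → v i < v (i + 1))
    (h2 : ∀ i, i < k → A < v i ∧ v i ≤ x ∧ τ (v i) < (-1) ^ i * G (v i)) {i : ℕ} (j : ℕ)
    (hi : i + j * m < k) : v i + j * L ≤ v (i + j * m) := by
  induction j with
  | zero => simp
  | succ j ih =>
    have h3 := ih (by nlinarith)
    have h4 := chn_gap hF h1 h2 (i := i + j * m) (by
      have : i + (j + 1) * m = i + j * m + m := by ring
      omega)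
    have h5 : i + (j + 1) * m = i + j * m + m := by ring
    rw [h5]
    push_cast
    linarith

lemma chn_count (hL : 0 < L) (hF : Few G τ A L m) {k : ℕ} {x y : ℝ} {v : ℕ → ℝ}
    (h1 : ∀ i, i + 1 < k → v i < v (i + 1))
    (h2 : ∀ i, i < k → A < v i ∧ v i ≤ x ∧ τ (v i) < (-1) ^ i * G (v i)) {i : ℕ}
    (hy : i < k → y < v i) : k ≤ i + m * (⌊(x - y) / L⌋₊ + 1) := by
  by_contra hcon
  push Not at hcon
  obtain ⟨q, hq⟩ : ∃ q : ℕ, q = ⌊(x - y) / L⌋₊ + 1 := ⟨_, rfl⟩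
  rw [← hq] at hcon
  have h3 := chn_iter hF h1 h2 (i := i) q (by rw [mul_comm]; exact hcon)
  have h4 := (h2 (i + q * m) (by rw [mul_comm]; exact hcon)).2.1
  have h5 := hy (by omega)
  have h6 : (x - y) / L < q := by
    rw [hq]
    push_cast
    exact Nat.lt_floor_add_one _
  rw [div_lt_iff₀ hL] at h6
  linarith

/-- the number of sign changes -/
noncomputable def cn (G τ : ℝ → ℝ) (A : ℝ) (x : ℝ) : ℕ := sSup {k | Chn G τ A k x}

lemma chn_zero (x : ℝ) : Chn G τ A 0 x := ⟨fun _ => 0, fun i hi => by omega, fun i hi => by omega⟩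

lemma chn_bdd (hL : 0 < L) (hF : Few G τ A L m) (x : ℝ) : BddAbove {k | Chn G τ A k x} := by
  refine ⟨m * (⌊(x - A) / L⌋₊ + 1), ?_⟩
  rintro k ⟨v, h1, h2⟩
  have := chn_count hL hF h1 h2 (i := 0) (y := A) fun h => (h2 0 h).1
  omega

lemma cn_mem (hL : 0 < L) (hF : Few G τ A L m) (x : ℝ) : Chn G τ A (cn G τ A x) x :=
  Nat.sSup_mem ⟨0, chn_zero x⟩ (chn_bdd hL hF x)

lemma le_cn (hL : 0 < L) (hF : Few G τ A L m) {x : ℝ} {k : ℕ} (h : Chn G τ A k x) : k ≤ cn G τ A x :=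
  le_csSup (chn_bdd hL hF x) h

lemma cn_mono (hL : 0 < L) (hF : Few G τ A L m) : Monotone (cn G τ A) := by
  intro x y hxy
  obtain ⟨v, h1, h2⟩ := cn_mem hL hF x
  exact le_cn hL hF ⟨v, h1, fun i hi => ⟨(h2 i hi).1, (h2 i hi).2.1.trans hxy, (h2 i hi).2.2⟩⟩

lemma cn_incr (hL : 0 < L) (hF : Few G τ A L m) {x y : ℝ} :
    cn G τ A x ≤ cn G τ A y + m * (⌊(x - y) / L⌋₊ + 1) := by
  classical
  obtain ⟨v, h1, h2⟩ := cn_mem hL hF x
  by_cases hex : ∃ i, i < cn G τ A x ∧ y < v i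
  · obtain ⟨h3, h4⟩ := Nat.find_spec hex
    obtain ⟨i, hi⟩ : ∃ i, i = Nat.find hex := ⟨_, rfl⟩
    rw [← hi] at h3 h4
    have h5 : i ≤ cn G τ A y := by
      refine le_cn hL hF ⟨v, fun j hj => h1 j (by omega), fun j hj => ⟨(h2 j (by omega)).1, ?_,
        (h2 j (by omega)).2.2⟩⟩
      have h6 := Nat.find_min hex (m := j) (by rw [← hi]; exact hj)
      by_contra h7
      push Not at h7
      exact h6 ⟨by omega, h7⟩
    have h6 := chn_count hL hF h1 h2 (i := i) (y := y) fun _ => h4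
    omega
  · push Not at hex
    have h3 : cn G τ A x ≤ cn G τ A y :=
      le_cn hL hF ⟨v, h1, fun i hi => ⟨(h2 i hi).1, hex i hi, (h2 i hi).2.2⟩⟩
    omega

lemma cn_sign (hτ : ∀ x, 0 ≤ τ x) (hL : 0 < L) (hF : Few G τ A L m) {x : ℝ} (hx : A < x) :
    (-1) ^ (cn G τ A x) * G x ≤ τ x := by
  by_contra hcon
  push Not at hcon
  obtain ⟨v, h1, h2⟩ := cn_mem hL hF x
  obtain ⟨c, hc⟩ : ∃ c, c = cn G τ A x := ⟨_, rfl⟩
  rw [← hc] at hcon h1 h2
  obtain ⟨w, hw⟩ : ∃ w : ℕ → ℝ, ∀ j, w j = if j < c then v j else x := ⟨_, fun j => rfl⟩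
  have h3 : Chn G τ A (c + 1) x := by
    refine ⟨w, fun i hi => ?_, fun i hi => ?_⟩
    · rw [hw, hw, if_pos (by omega)]
      rcases Nat.lt_or_ge (i + 1) c with h | h
      · rw [if_pos h]
        exact h1 i h
      · rw [if_neg (by omega)]
        have hic : i + 1 = c := by omega
        obtain ⟨g1, g2, g3⟩ := h2 i (by omega)
        refine lt_of_le_of_ne g2 fun h0 => ?_
        rw [h0] at g3
        rw [← hic, pow_succ] at hcon
        have := hτ x
        linarith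
    · rw [hw]
      rcases Nat.lt_or_ge i c with h | h
      · rw [if_pos h]
        exact h2 i h
      · rw [if_neg (by omega)]
        have hic : i = c := by omega
        rw [hic]
        exact ⟨hx, le_rfl, hcon⟩
  have h4 := le_cn hL hF h3
  omega

lemma cn_zero (hL : 0 < L) (hF : Few G τ A L m) {x : ℝ} (hx : x ≤ A) : cn G τ A x = 0 := by
  obtain ⟨v, h1, h2⟩ := cn_mem hL hF x
  by_contra hne
  have := h2 0 (Nat.pos_of_ne_zero hne)
  linarith [this.1, this.2.1]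

/-- **the zeros** -/
theorem zseq (hτ : ∀ x, 0 ≤ τ x) (hA : 0 < A) (hL : 0 < L) (hm : (m : ℝ) < 2 * L) (hF : Few G τ A L m) :
    ∃ (ρ c₀ D : ℝ) (z : ℕ → ℝ), 0 < ρ ∧ ρ < 2 ∧ 0 < c₀ ∧ 0 ≤ D ∧ (∀ n, c₀ ≤ z n) ∧
      (∀ n, |z n - mz ρ n| ≤ D) ∧ ∀ x, A < x → PP z x * G x ≤ |PP z x| * τ x := by
  have hm0 : (0 : ℝ) ≤ m := m.cast_nonneg
  obtain ⟨r, hr⟩ : ∃ r : ℝ, r = m / L := ⟨_, rfl⟩
  have hr0 : 0 ≤ r := by rw [hr]; positivity
  have hr2 : r < 2 := by rw [hr, div_lt_iff₀ hL]; exact hm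
  obtain ⟨ρ, hρ⟩ : ∃ ρ : ℝ, ρ = (r + 2) / 2 := ⟨_, rfl⟩
  have hρ0 : 0 < ρ := by rw [hρ]; linarith
  have hρ2 : ρ < 2 := by rw [hρ]; linarith
  have hρr : 0 < ρ - r := by rw [hρ]; linarith
  obtain ⟨W, hW⟩ : ∃ W : ℝ, W = m / (ρ - r) + 1 := ⟨_, rfl⟩
  have hW0 : 0 < W := by rw [hW]; positivity
  have hWm : (m : ℝ) ≤ W * (ρ - r) := by
    rw [hW]
    have : (m / (ρ - r) + 1) * (ρ - r) = m + (ρ - r) := by field_simp
    rw [this]
    linarith
  obtain ⟨t, ht⟩ : ∃ t : ℝ, t = ρ * W := ⟨_, rfl⟩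
  have ht0 : 0 < t := by rw [ht]; positivity
  -- increments over the blocks
  have hinc : ∀ x y : ℝ, x - y ≤ W → (cn G τ A x : ℝ) ≤ cn G τ A y + t := by
    intro x y hxy
    have h1 := cn_incr hL hF (x := x) (y := y)
    have h2 : ((cn G τ A x : ℕ) : ℝ) ≤ cn G τ A y + m * ((⌊(x - y) / L⌋₊ : ℕ) + 1) := by
      exact_mod_cast h1
    have h3 : ((⌊(x - y) / L⌋₊ : ℕ) : ℝ) ≤ W / L := by
      refine le_trans (Nat.cast_le.2 (Nat.floor_mono (div_le_div_of_nonneg_right hxy hL.le))) ?_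
      exact Nat.floor_le (by positivity)
    have h4 : (m : ℝ) * ((⌊(x - y) / L⌋₊ : ℕ) + 1) ≤ m * (W / L + 1) := by gcongr
    have h5 : (m : ℝ) * (W / L + 1) = r * W + m := by rw [hr]; field_simp
    have h6 : W * (ρ - r) = ρ * W - r * W := by ring
    rw [ht]
    linarith
  obtain ⟨c, hc⟩ : ∃ c : ℝ → ℕ, c = cn G τ A := ⟨_, rfl⟩
  rw [← hc] at hinc
  have hcm : Monotone c := by rw [hc]; exact cn_mono hL hF
  have hc0 : ∀ x, x ≤ A → c x = 0 := fun x hx => by rw [hc]; exact cn_zero hL hF hx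
  have hcs : ∀ x, A < x → (-1) ^ (c x) * G x ≤ τ x := fun x hx => by
    rw [hc]; exact cn_sign hτ hL hF hx
  obtain ⟨e, he⟩ : ∃ e : ℕ → ℝ, ∀ j, e j = t * j - c (j * W) := ⟨_, fun j => rfl⟩
  have he1 : ∀ j, e j ≤ e (j + 1) := by
    intro j
    rw [he, he]
    have h1 := hinc (((j + 1 : ℕ) : ℝ) * W) (j * W) (by push_cast; linarith)
    push_cast at h1 ⊢
    linarith
  have hem : Monotone e := monotone_nat_of_le_succ he1
  have he0 : ∀ j, 0 ≤ e j := by
    intro j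
    refine le_trans (le_of_eq ?_) (hem (Nat.zero_le j))
    rw [he]
    simp [hc0 0 hA.le]
  obtain ⟨E, hE⟩ : ∃ E : ℕ → ℕ, ∀ j, E j = ⌊e j / 2⌋₊ := ⟨_, fun j => rfl⟩
  have hEm : Monotone E := by
    intro i j hij
    rw [hE, hE]
    exact Nat.floor_mono (div_le_div_of_nonneg_right (hem hij) (by norm_num))
  have hE1 : ∀ j, 2 * (E j : ℝ) ≤ e j := by
    intro j
    rw [hE]
    have := Nat.floor_le (show 0 ≤ e j / 2 by have := he0 j; positivity)
    linarith
  have hE2 : ∀ j, e j - 2 < 2 * (E j : ℝ) := by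
    intro j
    rw [hE]
    have := Nat.lt_floor_add_one (e j / 2)
    linarith
  obtain ⟨nZ, hnZ⟩ : ∃ nZ : ℝ → ℕ, ∀ x, nZ x = c x + 2 * E ⌊x / W⌋₊ := ⟨_, fun x => rfl⟩
  have hnm : ∀ x y : ℝ, x ≤ y → nZ x ≤ nZ y := by
    intro x y hxy
    rw [hnZ, hnZ]
    have h1 := hcm hxy
    have h2 := hEm (Nat.floor_mono (div_le_div_of_nonneg_right hxy hW0.le))
    omega
  have hn1 : ∀ x : ℝ, 0 ≤ x → (nZ x : ℝ) ≤ ρ * x + t ∧ ρ * x - t - 2 ≤ nZ x := by
    intro x hx
    obtain ⟨j, hj⟩ : ∃ j : ℕ, j = ⌊x / W⌋₊ := ⟨_, rfl⟩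
    have h1 : (j : ℝ) * W ≤ x := by
      have := Nat.floor_le (show 0 ≤ x / W by positivity)
      rw [← hj, le_div_iff₀ hW0] at this
      exact this
    have h2 : x < ((j : ℝ) + 1) * W := by
      have := Nat.lt_floor_add_one (x / W)
      rw [← hj, div_lt_iff₀ hW0] at this
      exact this
    rw [hnZ, ← hj]
    push_cast
    have h3 := hE1 j
    have h4 := hE2 j
    have h5 := he j
    have h6 : (c (j * W) : ℝ) ≤ c x := by exact_mod_cast hcm h1
    have h7 := hinc x (j * W) (by linarith)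
    have h8 : t * j ≤ ρ * x := by
      rw [ht]
      calc ρ * W * j = ρ * (j * W) := by ring
        _ ≤ ρ * x := by gcongr
    have h9 : ρ * x ≤ t * j + t := by
      rw [ht]
      calc ρ * x ≤ ρ * (((j : ℝ) + 1) * W) := by gcongr
        _ = _ := by ring
    constructor <;> linarith
  obtain ⟨z, hz⟩ : ∃ z : ℕ → ℝ, ∀ n, z n = sInf {x : ℝ | 0 ≤ x ∧ n < nZ x} := ⟨_, fun n => rfl⟩
  have hne : ∀ n : ℕ, ((n : ℝ) + t + 3) / ρ ∈ {x : ℝ | 0 ≤ x ∧ n < nZ x} := by
    intro n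
    have h0 : 0 ≤ ((n : ℝ) + t + 3) / ρ := by positivity
    refine ⟨h0, ?_⟩
    have h1 := (hn1 _ h0).2
    rw [mul_div_cancel₀ _ hρ0.ne'] at h1
    have h2 : (n : ℝ) < nZ (((n : ℝ) + t + 3) / ρ) := by linarith
    exact_mod_cast h2
  have hbd : ∀ n : ℕ, BddBelow {x : ℝ | 0 ≤ x ∧ n < nZ x} := fun n => ⟨0, fun x hx => hx.1⟩
  refine ⟨ρ, min A W, (t + 3) / ρ, z, hρ0, hρ2, lt_min hA hW0, by positivity, fun n => ?_,
    fun n => ?_, fun x hx => ?_⟩
  · rw [hz]
    refine le_csInf ⟨_, hne n⟩ fun x hx => ?_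
    by_contra hcon
    push Not at hcon
    have h1 : x < A := hcon.trans_le (min_le_left _ _)
    have h2 : x < W := hcon.trans_le (min_le_right _ _)
    have h3 : nZ x = 0 := by
      rw [hnZ, hc0 x h1.le]
      have h4 : ⌊x / W⌋₊ = 0 := by
        rw [Nat.floor_eq_zero, div_lt_one hW0]
        exact h2
      have h5 : e 0 = 0 := by rw [he]; simp [hc0 0 hA.le]
      rw [h4, hE, h5]
      simp
    have := hx.2
    omega
  · rw [abs_le]
    have h1 : z n ≤ ((n : ℝ) + t + 3) / ρ := by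
      rw [hz]
      exact csInf_le (hbd n) (hne n)
    have h2 : ((n : ℝ) + 1 - t) / ρ ≤ z n := by
      rw [hz]
      refine le_csInf ⟨_, hne n⟩ fun x hx => ?_
      have h3 := (hn1 x hx.1).1
      have h4 : (n : ℝ) + 1 ≤ nZ x := by exact_mod_cast hx.2
      rw [div_le_iff₀ hρ0]
      linarith
    have h3 : ((n : ℝ) + t + 3) / ρ = mz ρ n + (t + 2) / ρ := by unfold mz; field_simp; ring
    have h4 : ((n : ℝ) + 1 - t) / ρ = mz ρ n - t / ρ := by unfold mz; field_simp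
    have h5 : (t + 2) / ρ ≤ (t + 3) / ρ := by gcongr; linarith
    have h6 : t / ρ ≤ (t + 3) / ρ := by gcongr; linarith
    constructor <;> linarith
  · have hx0 : 0 ≤ x := by linarith
    have hs : ∀ x : ℝ, Summable fun n => x ^ 2 / z n ^ 2 := by
      refine sumz (D := (t + 3) / ρ) hρ0 (lt_min hA hW0) (by positivity) (fun n => ?_) fun n => ?_
      · rw [hz]
        refine le_csInf ⟨_, hne n⟩ fun x hx => ?_
        by_contra hcon
        push Not at hcon
        have h1 : x < A := hcon.trans_le (min_le_left _ _)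
        have h2 : x < W := hcon.trans_le (min_le_right _ _)
        have h3 : nZ x = 0 := by
          rw [hnZ, hc0 x h1.le]
          have h4 : ⌊x / W⌋₊ = 0 := by
            rw [Nat.floor_eq_zero, div_lt_one hW0]
            exact h2
          have h5 : e 0 = 0 := by rw [he]; simp [hc0 0 hA.le]
          rw [h4, hE, h5]
          simp
        have := hx.2
        omega
      · rw [abs_le]
        have h1 : z n ≤ ((n : ℝ) + t + 3) / ρ := by
          rw [hz]
          exact csInf_le (hbd n) (hne n)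
        have h2 : ((n : ℝ) + 1 - t) / ρ ≤ z n := by
          rw [hz]
          refine le_csInf ⟨_, hne n⟩ fun x hx => ?_
          have h3 := (hn1 x hx.1).1
          have h4 : (n : ℝ) + 1 ≤ nZ x := by exact_mod_cast hx.2
          rw [div_le_iff₀ hρ0]
          linarith
        have h3 : ((n : ℝ) + t + 3) / ρ = mz ρ n + (t + 2) / ρ := by unfold mz; field_simp; ring
        have h4 : ((n : ℝ) + 1 - t) / ρ = mz ρ n - t / ρ := by unfold mz; field_simp
        have h5 : (t + 2) / ρ ≤ (t + 3) / ρ := by gcongr; linarith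
        have h6 : t / ρ ≤ (t + 3) / ρ := by gcongr; linarith
        constructor <;> linarith
    have hzp : ∀ n, 0 < z n := by
      intro n
      have h7 : min A W ≤ z n := by
        rw [hz]
        refine le_csInf ⟨_, hne n⟩ fun x hx => ?_
        by_contra hcon
        push Not at hcon
        have h1 : x < A := hcon.trans_le (min_le_left _ _)
        have h2 : x < W := hcon.trans_le (min_le_right _ _)
        have h3 : nZ x = 0 := by
          rw [hnZ, hc0 x h1.le]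
          have h4 : ⌊x / W⌋₊ = 0 := by
            rw [Nat.floor_eq_zero, div_lt_one hW0]
            exact h2
          have h5 : e 0 = 0 := by rw [he]; simp [hc0 0 hA.le]
          rw [h4, hE, h5]
          simp
        have := hx.2
        omega
      exact (lt_min hA hW0).trans_le h7
    have h1 := PP_sign hs hzp hx0 (k := nZ x) (fun n hn => by
      rw [hz]
      exact csInf_le (hbd n) ⟨hx0, hn⟩) (fun n hn => by
      rw [hz]
      refine le_csInf ⟨_, hne n⟩ fun y hy => ?_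
      by_contra hcon
      push Not at hcon
      have := hnm y x hcon.le
      have := hy.2
      omega)
    have h2 : (-1 : ℝ) ^ (nZ x) = (-1) ^ (c x) := by
      rw [hnZ, pow_add, pow_mul]
      simp
    rw [h2] at h1
    have h3 := hcs x hx
    have h4 : ((-1 : ℝ) ^ (c x)) * (-1) ^ (c x) = 1 := by
      rw [← pow_add, ← two_mul, pow_mul]
      simp
    have h5 : PP z x * G x = ((-1) ^ (c x) * PP z x) * ((-1) ^ (c x) * G x) := by
      linear_combination (-(PP z x * G x)) * h4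
    have h6 : |PP z x| = (-1) ^ (c x) * PP z x := by
      have h7 : |(-1 : ℝ) ^ (c x) * PP z x| = |PP z x| := by
        rw [abs_mul, abs_pow, abs_neg, abs_one, one_pow, one_mul]
      rw [← h7, abs_of_nonneg h1]
    rw [h5, h6]
    exact mul_le_mul_of_nonneg_left h3 h1

end Pool.Agent.Y749.Rig
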