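import Pool.Agent.Y749.Rig.SPg

/-! # Sign changes of the cumulative discrepancy: rigidity -/

set_option autoImplicit false

open MeasureTheory Set Filter Topology
open scoped NNReal ENNReal

namespace Pool.Agent.Y749.Rig

variable {C A L δ : ℝ} {m : ℕ} {G v : ℝ → ℝ} {μ₁ μ₂ : Measure ℝ}

/-- almost everywhere version of the lemma on one-sided decay -/
theorem lemR_ae2 (hv : Integrable v) {C c : ℝ} (hC : 0 ≤ C) (hc : 0 < c)
    (hv1 : ∀ᵐ x, v x ≤ C * Real.exp (-(c * |x|))) {η : ℝ} (hη : 0 < η)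
    (h0 : ∀ ω : ℝ, |ω| < η → ∫ x, v x * Real.cos (2 * Real.pi * ω * x) = 0)
    (h1 : ∀ ω : ℝ, |ω| < η → ∫ x, v x * Real.sin (2 * Real.pi * ω * x) = 0) :
    v =ᵐ[volume] 0 := by
  classical
  obtain ⟨w, hw⟩ : ∃ w : ℝ → ℝ, ∀ x, w x = if v x ≤ C * Real.exp (-(c * |x|)) then v x else 0 :=
    ⟨_, fun x => rfl⟩
  have hvw : v =ᵐ[volume] w := by
    filter_upwards [hv1] with x hx
    rw [hw, if_pos hx]
  have key : w =ᵐ[volume] 0 := by
    refine lemR (hv.congr hvw) hC hc (fun x => ?_) hη (fun ω hω => ?_) (fun ω hω => ?_)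
    · rw [hw]
      split_ifs with h
      · exact h
      · positivity
    · rw [← h0 ω hω]
      refine integral_congr_ae ?_
      filter_upwards [hvw] with x hx
      rw [hx]
    · rw [← h1 ω hω]
      refine integral_congr_ae ?_
      filter_upwards [hvw] with x hx
      rw [hx]
  exact hvw.trans key

/-- iterated convolutions of the hat function -/
noncomputable def kk (δ : ℝ) : ℕ → ℝ → ℝ
  | 0 => tr δ
  | n + 1 => cv (kk δ n) (tr δ)

lemma kk_adm (hδ : 0 < δ) (n : ℕ) : Adm (((n : ℝ) + 1) * δ) (kk δ n) := by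
  induction n with
  | zero =>
    simp only [Nat.cast_zero, zero_add, one_mul]
    exact adm_tr hδ
  | succ n ih =>
    have h := adm_cv ih.toL1 (adm_tr hδ)
    have e : ((((n + 1 : ℕ) : ℝ) + 1) * δ) = ((n : ℝ) + 1) * δ + δ := by push_cast; ring
    rw [e]
    exact h

lemma fl_kk (hδ : 0 < δ) (n : ℕ) (x : ℝ) : fl (kk δ n) x = fl (tr δ) x ^ (n + 1) := by
  induction n with
  | zero => simp [kk]
  | succ n ih =>
    show fl (cv (kk δ n) (tr δ)) x = _
    rw [fl_cv (kk_adm hδ n).toL1 (adm_tr hδ).toL1, ih]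
    ring

theorem sgn_rigid [SFinite μ₁] [SFinite μ₂] {C' c : ℝ} (hC' : 0 ≤ C') (hc : 0 < c) (hC : 0 ≤ C)
    (h1 : Bdd C μ₁) (h2 : Bdd C μ₂)
    (ht : ∀ κ : ℝ, 0 < κ → κ < 1 → ∀ ψ, Adm κ ψ → ∫ x, fl ψ x ∂μ₁ = ∫ x, fl ψ x ∂μ₂)
    (hG : ∀ᵐ x : ℝ, 0 < x → G x = cu μ₁ x - cu μ₂ x) (hA : 0 < A) (hL : 0 < L)
    (hm : (m : ℝ) < 2 * L) (hF : Few G (fun x => C' * Real.exp (-(c * x))) A L m) :
    ∀ᵐ x : ℝ, cu μ₁ x = cu μ₂ x := by
  have hpi := Real.pi_pos
  obtain ⟨ρ, c₀, D, z, hρ0, hρ2, hc0, hD, hz0, hzD, hsg⟩ :=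
    zseq (fun x => by positivity) hA hL hm hF
  have hs := sumz hρ0 hc0 hD hz0 hzD
  have hzp : ∀ n, 0 < z n := fun n => hc0.trans_le (hz0 n)
  obtain ⟨C1, J, hC1, hgb, hPb⟩ := PP_bound hρ0 hc0 hD hz0 hzD
  obtain ⟨η, hη⟩ : ∃ η : ℝ, η = (1 - ρ / 2) / 4 := ⟨_, rfl⟩
  have hη0 : 0 < η := by rw [hη]; linarith
  obtain ⟨δ, hδ⟩ : ∃ δ : ℝ, δ = η / ((J : ℝ) + 3) := ⟨_, rfl⟩
  have hδ0 : 0 < δ := by rw [hδ]; positivity
  obtain ⟨n, hn⟩ : ∃ n : ℕ, n = J + 2 := ⟨_, rfl⟩
  have hnδ : ((n : ℝ) + 1) * δ = η := by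
    rw [hn, hδ]
    push_cast
    field_simp
    ring
  have hkA := kk_adm hδ0 n
  rw [hnδ] at hkA
  obtain ⟨K, hK⟩ : ∃ K : ℝ → ℝ, ∀ x, K x = fl (kk δ n) x := ⟨_, fun x => rfl⟩
  have hK' : K = fl (kk δ n) := funext hK
  have hKc : Continuous K := by rw [hK']; exact fl_cont hkA.int
  obtain ⟨B, hB⟩ := fl_bound (adm_tr hδ0)
  have hB0 : 0 ≤ B := by
    have := (abs_nonneg _).trans (hB 0)
    simpa using this
  have hK0 : ∀ x, 0 ≤ K x := fun x => by
    rw [hK, fl_kk hδ0]
    exact pow_nonneg (fl_tr_nonneg hδ0 x) _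
  have hKe : ∀ x, K (-x) = K x := fun x => by rw [hK, hK, fl_even]
  have hKB : ∀ x, K x ≤ B ^ (J + 3) / (1 + x ^ 2) ^ (J + 3) := fun x => by
    rw [hK, fl_kk hδ0, hn, ← div_pow]
    refine pow_le_pow_left₀ (fl_tr_nonneg hδ0 x) ?_ _
    exact (le_abs_self _).trans (hB x)
  have hKne : ∀ᵐ x : ℝ, K x ≠ 0 := by
    filter_upwards [fl_tr_ne hδ0] with x hx
    rw [hK, fl_kk hδ0]
    exact pow_ne_zero _ hx
  have hM : ∀ᵐ x : ℝ, ∀ k, x ^ 2 ≠ mz ρ k ^ 2 := ae_sq _
  -- the difference
  obtain ⟨E, hE⟩ : ∃ E : ℝ → ℝ, ∀ x, E x = |x| * (cu μ₁ x - cu μ₂ x) := ⟨_, fun x => rfl⟩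
  have hEm : Measurable E := by
    have : E = fun x => |x| * (cu μ₁ x - cu μ₂ x) := funext hE
    rw [this]
    exact measurable_norm.mul ((cu_meas h1).sub (cu_meas h2))
  have hEb : ∀ x, |E x| ≤ 4 * C * (1 + |x|) ^ 2 := by
    intro x
    rw [hE, abs_mul, abs_abs]
    have a1 := cu_le hC h1 x
    have a2 := cu_le hC h2 x
    have a3 := cu_nonneg (μ := μ₁) x
    have a4 := cu_nonneg (μ := μ₂) x
    have a5 : |cu μ₁ x - cu μ₂ x| ≤ 4 * C * (|x| + 1) := by
      have a6 : 0 ≤ 2 * C * (|x| + 1) := by positivity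
      rw [abs_le]
      constructor <;> linarith
    calc |x| * |cu μ₁ x - cu μ₂ x| ≤ (1 + |x|) * (4 * C * (|x| + 1)) := by
          apply mul_le_mul _ a5 (abs_nonneg _) (by positivity)
          linarith
      _ = _ := by ring
  have hEe : ∀ x, E (-x) = E x := fun x => by
    rw [hE, hE]
    unfold cu
    rw [abs_neg]
  -- the majorant
  obtain ⟨M, hMd⟩ : ∃ M : ℝ, M = 4 * C * C1 * B ^ (J + 3) := ⟨_, rfl⟩
  have hM0 : 0 ≤ M := by rw [hMd]; positivity
  have hmaj : ∀ (x p : ℝ), |p| ≤ C1 * (1 + x ^ 2) ^ J → |E x * p * K x| ≤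
      M * ((1 + |x|) ^ 2 / (1 + x ^ 2) ^ 3) := by
    intro x p hp
    rw [abs_mul, abs_mul, abs_of_nonneg (hK0 x)]
    calc |E x| * |p| * K x ≤ (4 * C * (1 + |x|) ^ 2) * (C1 * (1 + x ^ 2) ^ J) *
          (B ^ (J + 3) / (1 + x ^ 2) ^ (J + 3)) := by
          apply mul_le_mul _ (hKB x) (hK0 x) (by positivity)
          exact mul_le_mul (hEb x) hp (abs_nonneg _) (by positivity)
      _ = _ := by
          rw [hMd, pow_add (1 + x ^ 2) J 3]
          field_simp
  obtain ⟨v, hv⟩ : ∃ v : ℝ → ℝ, ∀ x, v x = E x * PP z x * K x := ⟨_, fun x => rfl⟩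
  have hv' : v = fun x => E x * PP z x * K x := funext hv
  have hvm : Measurable v := by
    rw [hv']
    exact (hEm.mul (PP_meas hs)).mul hKc.measurable
  have hvb : ∀ᵐ x : ℝ, |v x| ≤ M * ((1 + |x|) ^ 2 / (1 + x ^ 2) ^ 3) := by
    filter_upwards [hM] with x hx
    rw [hv]
    exact hmaj x _ (hPb x hx)
  have hvi : Integrable v := (inv3.const_mul M).mono' hvm.aestronglyMeasurable hvb
  have hve : ∀ x, v (-x) = v x := fun x => by rw [hv, hv, hEe, PP_even, hKe]
  have hz : v =ᵐ[volume] 0 := by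
    refine lemR_ae2 hvi (C := M * 4 * Real.exp (c * A) + C1 * B ^ (J + 3) * C') (c := c)
      (by positivity) hc ?_ hη0 ?_ ?_
    · -- one-sidedness
      have hG' : ∀ᵐ x : ℝ, 0 < -x → G (-x) = cu μ₁ (-x) - cu μ₂ (-x) :=
        (Measure.measurePreserving_neg (volume : Measure ℝ)).quasiMeasurePreserving.ae hG
      filter_upwards [hvb, hG, hG', hM] with x hx hg hg' hxM
      rcases le_or_gt |x| A with hxA | hxA
      · refine (le_abs_self _).trans (hx.trans ?_)
        have b1 : (1 + |x|) ^ 2 / (1 + x ^ 2) ^ 3 ≤ 4 := by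
          rw [div_le_iff₀ (by positivity)]
          have b2 : (1 + |x|) ^ 2 ≤ 2 * (1 + x ^ 2) := by
            rw [← sq_abs x]
            nlinarith [sq_nonneg (|x| - 1)]
          have b3 : (1 : ℝ) ≤ 1 + x ^ 2 := by nlinarith [sq_nonneg x]
          have b4 : 1 + x ^ 2 ≤ (1 + x ^ 2) ^ 3 := by
            calc 1 + x ^ 2 = (1 + x ^ 2) ^ 1 := by ring
              _ ≤ (1 + x ^ 2) ^ 3 := pow_le_pow_right₀ b3 (by norm_num)
          linarith
        have b5 : 1 ≤ Real.exp (c * A) * Real.exp (-(c * |x|)) := by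
          rw [← Real.exp_add]
          apply Real.one_le_exp
          nlinarith
        calc M * ((1 + |x|) ^ 2 / (1 + x ^ 2) ^ 3) ≤ M * 4 := by gcongr
          _ ≤ M * 4 * (Real.exp (c * A) * Real.exp (-(c * |x|))) :=
              le_mul_of_one_le_right (by positivity) b5
          _ = M * 4 * Real.exp (c * A) * Real.exp (-(c * |x|)) := by ring
          _ ≤ (M * 4 * Real.exp (c * A) + C1 * B ^ (J + 3) * C') * Real.exp (-(c * |x|)) := by
              gcongr
              have : 0 ≤ C1 * B ^ (J + 3) * C' := by positivity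
              linarith
      · have b0 : v x ≤ C1 * B ^ (J + 3) * C' * Real.exp (-(c * |x|)) := by
          have b1 : PP z |x| * G |x| ≤ abs (PP z (abs x)) * (C' * Real.exp (-(c * |x|))) :=
            hsg _ hxA
          have b2 : PP z |x| = PP z x := by
            rcases abs_cases x with hh | hh
            · rw [hh.1]
            · rw [hh.1, PP_even]
          have b3 : G |x| = cu μ₁ x - cu μ₂ x := by
            rcases abs_cases x with hh | hh
            · rw [hh.1]
              exact hg (by rw [hh.1] at hxA; linarith)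
            · rw [hh.1, hg' (by linarith)]
              unfold cu
              rw [abs_neg]
          rw [b2, b3] at b1
          rw [hv, hE]
          have b4 : |x| * (cu μ₁ x - cu μ₂ x) * PP z x * K x =
              (PP z x * (cu μ₁ x - cu μ₂ x)) * (|x| * K x) := by ring
          rw [b4]
          have b5 := hPb x hxM
          have b6 : |x| ≤ (1 + x ^ 2) ^ 3 := by
            have b7 : |x| ≤ 1 + x ^ 2 := by
              rw [← sq_abs]
              nlinarith [sq_nonneg (|x| - 1), abs_nonneg x]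
            have b8 : (1 : ℝ) ≤ 1 + x ^ 2 := by nlinarith [sq_nonneg x]
            calc |x| ≤ (1 + x ^ 2) ^ 1 := by rw [pow_one]; exact b7
              _ ≤ (1 + x ^ 2) ^ 3 := pow_le_pow_right₀ b8 (by norm_num)
          calc (PP z x * (cu μ₁ x - cu μ₂ x)) * (|x| * K x) ≤
                (|PP z x| * (C' * Real.exp (-(c * |x|)))) * (|x| * K x) :=
                mul_le_mul_of_nonneg_right b1 (mul_nonneg (abs_nonneg _) (hK0 x))
            _ ≤ ((C1 * (1 + x ^ 2) ^ J) * (C' * Real.exp (-(c * |x|)))) *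
                ((1 + x ^ 2) ^ 3 * (B ^ (J + 3) / (1 + x ^ 2) ^ (J + 3))) := by
                apply mul_le_mul
                · apply mul_le_mul_of_nonneg_right b5 (by positivity)
                · exact mul_le_mul b6 (hKB x) (hK0 x) (by positivity)
                · exact mul_nonneg (abs_nonneg _) (hK0 x)
                · positivity
            _ = C1 * B ^ (J + 3) * C' * Real.exp (-(c * |x|)) := by
                rw [pow_add (1 + x ^ 2) J 3]
                field_simp
        refine b0.trans ?_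
        gcongr
        have : 0 ≤ M * 4 * Real.exp (c * A) := by positivity
        linarith
    · -- the spectral gap
      intro ω hω
      have hlim : Tendsto (fun N : ℕ => ∫ x, E x * gN ρ z N x * K x *
          Real.cos (2 * Real.pi * ω * x)) atTop (𝓝 (∫ x, v x * Real.cos (2 * Real.pi * ω * x))) := by
        refine tendsto_integral_of_dominated_convergence
          (fun x => M * ((1 + |x|) ^ 2 / (1 + x ^ 2) ^ 3)) ?_ (inv3.const_mul M) ?_ ?_
        · intro N
          have hgm : Measurable (gN ρ z N) := by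
            unfold gN
            have := Real.continuous_sinc.measurable
            fun_prop
          have hcm : Measurable fun x : ℝ => Real.cos (2 * Real.pi * ω * x) := by fun_prop
          exact (((hEm.mul hgm).mul hKc.measurable).mul hcm).aestronglyMeasurable
        · intro N
          filter_upwards [hM] with x hx
          rw [Real.norm_eq_abs, abs_mul]
          calc |E x * gN ρ z N x * K x| * |Real.cos (2 * Real.pi * ω * x)| ≤
                |E x * gN ρ z N x * K x| * 1 := by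
                gcongr
                exact Real.abs_cos_le_one _
            _ ≤ _ := by rw [mul_one]; exact hmaj x _ (hgb N x hx)
        · filter_upwards [hM] with x hx
          rw [hv]
          exact (((gN_tendsto hρ0 hs hx).const_mul (E x)).mul_const (K x)).mul_const _
      refine tendsto_nhds_unique hlim (tendsto_const_nhds.congr fun N => ?_)
      obtain ⟨φ, hφ, hφg⟩ := gN_band hρ0 hzp N
      have hmo := hφ.modu ω
      have hfinal := hmo.cv hkA.toL1
      obtain ⟨Mk, hMk0, hMk⟩ := hkA.bdd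
      have hcont := cv_cont hmo hMk hkA.cont
      have hval : ∀ x, fl (cv (modu ω φ) (kk δ n)) x =
          fl φ x * Real.cos (2 * Real.pi * ω * x) * K x := by
        intro x
        rw [fl_cv hmo hkA.toL1, hφ.fl_modu, hK]
      have hκ : ρ / 2 + |ω| + η < ρ / 2 + 3 * η := by linarith
      have hct := cum_test (κ := ρ / 2 + |ω| + η) (κ₀ := ρ / 2 + 3 * η)
        (B := (∫ x, |φ x|) * B ^ (J + 3)) hC h1 h2 (ht _ (by positivity) (by rw [hη]; linarith))
        hκ (by positivity) hcont hfinal (fun x => by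
          rw [hval, abs_mul, abs_mul, abs_of_nonneg (hK0 x)]
          have q1 := hφ.fl_le x
          have q2 := Real.abs_cos_le_one (2 * Real.pi * ω * x)
          have q3 := hKB x
          have q4 : B ^ (J + 3) / (1 + x ^ 2) ^ (J + 3) ≤ B ^ (J + 3) / (1 + x ^ 2) ^ 3 := by
            apply div_le_div_of_nonneg_left (by positivity) (by positivity)
            exact pow_le_pow_right₀ (by nlinarith [sq_nonneg x]) (by omega)
          have q5 : 0 ≤ ∫ x, |φ x| := integral_nonneg fun x => abs_nonneg _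
          calc |fl φ x| * |Real.cos (2 * Real.pi * ω * x)| * K x ≤
                (∫ x, |φ x|) * 1 * (B ^ (J + 3) / (1 + x ^ 2) ^ 3) := by
                apply mul_le_mul _ (q3.trans q4) (hK0 x) (by positivity)
                exact mul_le_mul q1 q2 (abs_nonneg _) q5
            _ = _ := by ring)
      rw [← hct]
      refine integral_congr_ae ?_
      filter_upwards [hM] with x hx
      rw [hval, hE, hφg x hx]
      ring
    · intro ω _
      apply int_zero_of_odd
      intro x
      rw [hve, mul_neg, Real.sin_neg]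
      ring
  have hx0 : ∀ᵐ x : ℝ, x ≠ 0 := by
    rw [ae_iff]
    simp
  filter_upwards [hz, hKne, ae_sq z, hx0] with x hx hx2 hx3 hx4
  have hx' : v x = 0 := hx
  rw [hv, hE] at hx'
  have hP := PP_ne hs hzp hx3
  have q1 := (mul_eq_zero.1 hx').resolve_right hx2
  have q2 := (mul_eq_zero.1 q1).resolve_right hP
  have q3 := (mul_eq_zero.1 q2).resolve_left (abs_ne_zero.2 hx4)
  linarith

end Pool.Agent.Y749.Rig
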