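import Pool.Agent.Y749.Rig.SPh
import Pool.Agent.Y749.Rig.FFe

/-! # Sign changes of the cumulative discrepancy of the pair counts -/

set_option autoImplicit false

open MeasureTheory Set Filter Topology
open scoped NNReal ENNReal

namespace Pool.Agent.Y749.Rig

open Pool.Agent.Y744 (gp gd AG Aa Nr pr PC Xf)

variable {l : Filter ℝ}

/-- at most `m` alternating points in each interval of length `L` beyond `A`, asymptotically -/
def FewAs (l : Filter ℝ) (τ : ℝ → ℝ) (A L : ℝ) (m : ℕ) : Prop := ∀ s : ℝ, (s = 1 ∨ s = -1) →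
  ∀ v : ℕ → ℝ, StrictMono v → A < v 0 → v m < v 0 + L → ∀ ε : ℝ, 0 < ε →
  ∀ᶠ T in l, ∃ i, i ≤ m ∧ s * ((-1) ^ i * (Aa T (v i) - AG (v i))) ≤ τ (v i) + ε

/-- the same at rational points -/
def FewQ (l : Filter ℝ) (τ : ℝ → ℝ) (A L : ℝ) (m : ℕ) : Prop := ∀ s : ℝ, (s = 1 ∨ s = -1) →
  ∀ v : ℕ → ℝ, StrictMono v → (∀ i, ∃ q : ℚ, v i = q) → A < v 0 → v m < v 0 + L →
  ∀ ε : ℝ, 0 < ε →
  ∀ᶠ T in l, ∃ i, i ≤ m ∧ s * ((-1) ^ i * (Aa T (v i) - AG (v i))) ≤ τ (v i) + ε

lemma AG_cont {x : ℝ} (hx : 0 < x) : ContinuousAt AG x := by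
  have h1 : AG =ᶠ[𝓝 x] fun y => 1 + 2 * gp y := by
    filter_upwards [eventually_gt_nhds hx] with y hy
    unfold AG
    rw [if_neg (by linarith)]
  have h2 : ContinuousAt (fun y => 1 + 2 * gp y) x := by
    have h3 : Continuous gp := by
      rw [continuous_iff_continuousAt]
      intro y
      rw [Metric.continuousAt_iff]
      intro ε hε
      refine ⟨ε, hε, fun w hw => ?_⟩
      rw [Real.dist_eq] at hw ⊢
      have hmon : ∀ p q : ℝ, p ≤ q → 0 ≤ gp q - gp p := by
        intro p q hpq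
        rw [Pool.Agent.Y744.gp_sub]
        exact intervalIntegral.integral_nonneg hpq fun u _ => Pool.Agent.Y744.gd_nonneg u
      rcases le_total y w with h | h
      · rw [abs_of_nonneg (hmon y w h)]
        rw [abs_of_nonneg (by linarith)] at hw
        exact (gp_lip h).trans_lt hw
      · rw [abs_sub_comm, abs_of_nonneg (hmon w y h)]
        rw [abs_sub_comm, abs_of_nonneg (by linarith)] at hw
        exact (gp_lip h).trans_lt hw
    fun_prop
  exact h2.congr h1.symm

/-- from rational points to all points in the limit -/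
lemma few_of_rat {a τ : ℝ → ℝ} {A L : ℝ} {m : ℕ} (ha : Monotone a) (hτ : Continuous τ)
    (hA : 0 < A) (h : ∀ s : ℝ, (s = 1 ∨ s = -1) → ∀ v : ℕ → ℝ, StrictMono v →
      (∀ i, ∃ q : ℚ, v i = q) → A < v 0 → v m < v 0 + L →
      ∃ i, i ≤ m ∧ s * ((-1) ^ i * (a (v i) - AG (v i))) ≤ τ (v i)) :
    Few (fun x => a x - AG x) τ A L m := by
  intro s hs v hv h0 h1
  by_contra hcon
  push Not at hcon
  have hvpos : ∀ i, 0 < v i := fun i => (hA.trans h0).trans_le (hv.monotone (Nat.zero_le i))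
  have hsi : ∀ i : ℕ, s * (-1) ^ i = 1 ∨ s * (-1) ^ i = -1 := by
    intro i
    rcases hs with rfl | rfl
    · rw [one_mul]; exact neg_one_pow_eq_or ℝ i
    · rcases neg_one_pow_eq_or ℝ i with h | h
      · rw [h]; right; ring
      · rw [h]; left; ring
  -- neighbourhoods
  have hnear : ∀ i ∈ Finset.range (m + 1), ∀ᶠ κ : ℝ in 𝓝[>] 0, ∀ w : ℝ,
      |w - v i| < κ → ((s * (-1) ^ i = 1 → v i ≤ w) ∧ (s * (-1) ^ i = -1 → w ≤ v i)) →
        τ w < s * ((-1) ^ i * (a w - AG w)) := by
    intro i hi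
    have hi' : i ≤ m := Nat.lt_succ_iff.1 (Finset.mem_range.1 hi)
    have h2 := hcon i hi'
    rw [← mul_assoc] at h2
    have hc1 := AG_cont (hvpos i)
    have hc2 := hτ.continuousAt (x := v i)
    rcases hsi i with hσ | hσ
    · rw [hσ, one_mul] at h2
      have h3 : ∀ᶠ w in 𝓝 (v i), τ w + AG w < a (v i) :=
        (hc2.add hc1).eventually (gt_mem_nhds (by
          show τ (v i) + AG (v i) < _
          linarith))
      obtain ⟨κ0, hκ0, hκ⟩ := Metric.eventually_nhds_iff.1 h3
      filter_upwards [Ioo_mem_nhdsGT hκ0] with κ hκκ w hw hside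
      rw [← mul_assoc, hσ, one_mul]
      have h4 := hκ (y := w) (by rw [Real.dist_eq]; exact hw.trans hκκ.2)
      have h5 := ha (hside.1 hσ)
      linarith
    · rw [hσ] at h2
      have h3 : ∀ᶠ w in 𝓝 (v i), a (v i) < AG w - τ w :=
        (hc1.sub hc2).eventually (lt_mem_nhds (by
          show _ < AG (v i) - τ (v i)
          linarith))
      obtain ⟨κ0, hκ0, hκ⟩ := Metric.eventually_nhds_iff.1 h3
      filter_upwards [Ioo_mem_nhdsGT hκ0] with κ hκκ w hw hside
      rw [← mul_assoc, hσ]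
      have h4 := hκ (y := w) (by rw [Real.dist_eq]; exact hw.trans hκκ.2)
      have h5 := ha (hside.2 hσ)
      linarith
  have hgap : ∀ i ∈ Finset.range (m + 1), ∀ᶠ κ : ℝ in 𝓝[>] 0, 2 * κ < v (i + 1) - v i := by
    intro i _
    have h2 : 0 < (v (i + 1) - v i) / 2 := by
      have := hv (Nat.lt_succ_self i)
      linarith
    filter_upwards [Ioo_mem_nhdsGT h2] with κ hκ
    linarith [hκ.2]
  have h2 : 0 < v 0 - A := by linarith
  have h3 : 0 < (v 0 + L - v m) / 2 := by linarith
  obtain ⟨κ, ⟨⟨⟨hκ1, hκ2⟩, hκ3⟩, hκ4⟩⟩ := ((((((Finset.range (m + 1)).eventually_all).2 hnear).and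
    (((Finset.range (m + 1)).eventually_all).2 hgap)).and (Ioo_mem_nhdsGT h2)).and
    (Ioo_mem_nhdsGT h3)).exists
  have hκ0 : 0 < κ := hκ3.1
  -- the rational points
  have hq : ∀ i : ℕ, ∃ q : ℚ, |(q : ℝ) - v i| < κ ∧ ((s * (-1) ^ i = 1 → v i ≤ q) ∧
      (s * (-1) ^ i = -1 → (q : ℝ) ≤ v i)) := by
    intro i
    rcases hsi i with hσ | hσ
    · obtain ⟨q, hq1, hq2⟩ := exists_rat_btwn (show v i < v i + κ by linarith)
      refine ⟨q, ?_, fun _ => hq1.le, fun h => ?_⟩
      · rw [abs_of_pos (by linarith)]; linarith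
      · rw [hσ] at h; norm_num at h
    · obtain ⟨q, hq1, hq2⟩ := exists_rat_btwn (show v i - κ < v i by linarith)
      refine ⟨q, ?_, fun h => ?_, fun _ => hq2.le⟩
      · rw [abs_of_neg (by linarith)]; linarith
      · rw [hσ] at h; norm_num at h
  choose q hq1 hq2 using hq
  obtain ⟨w, hw⟩ : ∃ w : ℕ → ℝ, ∀ j, w j = if j ≤ m then (q j : ℝ) else q m + ((j : ℝ) - m) :=
    ⟨_, fun j => rfl⟩
  have hmono : StrictMono w := by
    refine strictMono_nat_of_lt_succ fun j => ?_
    rw [hw, hw]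
    rcases lt_trichotomy j m with h | h | h
    · rw [if_pos h.le, if_pos (by omega)]
      have g1 := hκ2 j (Finset.mem_range.2 (by omega))
      have g2 := abs_lt.1 (hq1 j)
      have g3 := abs_lt.1 (hq1 (j + 1))
      linarith [g2.1, g2.2, g3.1, g3.2]
    · subst h
      rw [if_pos le_rfl, if_neg (by omega)]
      push_cast
      linarith
    · rw [if_neg (by omega), if_neg (by omega)]
      push_cast
      linarith
  have hw0 : w 0 = q 0 := by rw [hw, if_pos (Nat.zero_le m)]
  have hwm : w m = q m := by rw [hw, if_pos le_rfl]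
  have g0 := abs_lt.1 (hq1 0)
  have gm := abs_lt.1 (hq1 m)
  obtain ⟨i, hi, hle⟩ := h s hs w hmono (fun i => by
      rw [hw]
      split_ifs
      · exact ⟨q i, rfl⟩
      · exact ⟨q m + ((i : ℚ) - m), by push_cast; rfl⟩) (by
      rw [hw0]
      linarith [g0.1, hκ3.2]) (by
      rw [hw0, hwm]
      linarith [g0.1, g0.2, gm.1, gm.2, hκ4.2])
  rw [hw, if_pos hi] at hle
  have := hκ1 i (Finset.mem_range.2 (by omega)) (q i) (hq1 i) (hq2 i)
  linarith

/-- the sandwich for the limits of the cumulative counts -/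
lemma sand {U : Ultrafilter ℝ} {C : ℝ} (hC : 0 ≤ C) (hU : (U : Filter ℝ) ≤ atTop)
    (hB : ∀ᶠ T in atTop, Bdd C (Mp T)) {μ : Measure ℝ} (hb : Bdd C μ)
    (hμ : ∀ f : ℝ → ℝ, Continuous f → QD f →
      Integrable f μ ∧ Tendsto (fun T => ∫ x, f x ∂(Mp T)) U (𝓝 (∫ x, f x ∂μ)))
    {a : ℝ → ℝ} (ha : ∀ y, Tendsto (fun T => Aa T y) U (𝓝 (a y))) {y δ : ℝ} (hδ : 0 < δ) :
    μ.real (Icc (-(y - δ)) (y - δ)) ≤ a y ∧ a y ≤ μ.real (Icc (-(y + δ)) (y + δ)) := by
  constructor
  · have t1 := (hμ _ (tz_cont (-y + δ) (y - δ) δ) (tz_qd hδ (-y + δ) (y - δ))).2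
    have t2 := tz_lower hC hb hδ (-y + δ) (y - δ)
    have e1 : -(y - δ) = -y + δ := by ring
    rw [e1]
    refine t2.trans ?_
    refine le_of_tendsto_of_tendsto t1 (ha y) ?_
    filter_upwards [hU hB, hU (eventually_ge_atTop 10)] with T h2 h3
    rw [← Mp_Aa h3]
    have h4 := tz_upper hC h2 hδ (-y + δ) (y - δ)
    rw [show -y + δ - δ = -y by ring, sub_add_cancel] at h4
    exact h4
  · have t1 := (hμ _ (tz_cont (-y) y δ) (tz_qd hδ (-y) y)).2
    have t2 := tz_upper hC hb hδ (-y) y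
    have e1 : -(y + δ) = -y - δ := by ring
    rw [e1]
    refine le_trans ?_ t2
    refine le_of_tendsto_of_tendsto (ha y) t1 ?_
    filter_upwards [hU hB, hU (eventually_ge_atTop 10)] with T h2 h3
    rw [← Mp_Aa h3]
    exact tz_lower hC h2 hδ (-y) y

lemma few_mono {τ : ℝ → ℝ} {A A' L : ℝ} {m : ℕ} (h : FewQ l τ A L m) (hA : A ≤ A') :
    FewQ l τ A' L m :=
  fun s hs v hv hq h0 h1 ε hε => h s hs v hv hq (hA.trans_lt h0) h1 ε hε

theorem few_lim (RH : RiemannHypothesis) (hl : l ≤ atTop) {A L C' c : ℝ} {m : ℕ} (hC' : 0 ≤ C')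
    (hc : 0 < c) (hL : 0 < L) (hm : (m : ℝ) < 2 * L)
    (h : FewQ l (fun x => C' * Real.exp (-(c * x))) A L m) (y : ℝ) :
    Tendsto (fun T => Aa T y) l (𝓝 (AG y)) := by
  obtain ⟨C, hC, hB⟩ := Mp_bdd
  have hC0 : 0 ≤ C := by linarith
  rw [tendsto_iff_ultrafilter]
  intro U hUl
  have hU : (U : Filter ℝ) ≤ atTop := hUl.trans hl
  obtain ⟨μ, hsf, hμ⟩ := exists_limit hC0 hB U hU
  have b1 := bdd_limit hU hC0 hB hμ
  have hsfG := mG_sf
  -- the constant for both measures
  have b1' : Bdd (4 * C) μ := by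
    intro a
    exact (b1 a).trans (ENNReal.ofReal_le_ofReal (by linarith))
  have b2 : Bdd (4 * C) mG := fun a => (mG_bdd a).trans (ENNReal.ofReal_le_ofReal (by linarith))
  have hB' : ∀ᶠ T in atTop, Bdd (4 * C) (Mp T) := by
    filter_upwards [hB] with T hT a
    exact (hT a).trans (ENNReal.ofReal_le_ofReal (by linarith))
  -- limits of the cumulative counts
  have hex : ∀ y : ℝ, ∃ a : ℝ, Tendsto (fun T => Aa T y) U (𝓝 a) := by
    intro y
    have hmem : ∀ᶠ T in (U : Filter ℝ), Aa T y ∈ Icc (0 : ℝ) (2 * (4 * C) * (|y| + 1)) := by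
      filter_upwards [hU hB', hU (eventually_ge_atTop 10)] with T h2 h3
      rcases lt_or_ge y 0 with hy | hy
      · rw [Pool.Agent.Y744.Aa_neg T y hy]
        exact ⟨le_rfl, by positivity⟩
      · rw [← Mp_Aa h3]
        refine ⟨measureReal_nonneg, ?_⟩
        have := cu_le (by positivity) h2 y
        unfold cu at this
        rw [abs_of_nonneg hy] at this ⊢
        exact this
    obtain ⟨a, -, ha⟩ := isCompact_Icc.ultrafilter_le_nhds
      (U.map (fun T => Aa T y)) (by
        rw [Filter.le_principal_iff]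
        exact hmem)
    exact ⟨a, ha⟩
  choose a ha using hex
  have hs := fun (y δ : ℝ) (hδ : 0 < δ) => sand (y := y) (by positivity) hU hB' b1' hμ ha hδ
  -- the sign changes
  obtain ⟨A', hA'⟩ : ∃ A' : ℝ, A' = max A 1 := ⟨_, rfl⟩
  have hA1 : 1 ≤ A' := by rw [hA']; exact le_max_right _ _
  have h' : FewQ l (fun x => C' * Real.exp (-(c * x))) A' L m :=
    few_mono h (by rw [hA']; exact le_max_left _ _)
  have ham : Monotone a := by
    intro x y hxy
    refine le_of_tendsto_of_tendsto (ha x) (ha y) ?_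
    filter_upwards [hU (eventually_gt_atTop 1)] with T hT
    exact Pool.Agent.Y744.Aa_mono hT hxy
  obtain ⟨G, hG⟩ : ∃ G : ℝ → ℝ, ∀ x, G x = a x - AG x := ⟨_, fun x => rfl⟩
  have hG' : G = fun x => a x - AG x := funext hG
  have hF : Few G (fun x => C' * Real.exp (-(c * x))) A' L m := by
    rw [hG']
    refine few_of_rat ham (by fun_prop) (by linarith) fun s hs' v hv hvq h0 h1 => ?_
    by_contra hcon
    push Not at hcon
    obtain ⟨i0, hi0, hmin⟩ := (Finset.range (m + 1)).exists_min_image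
      (fun i => s * ((-1) ^ i * (a (v i) - AG (v i))) - C' * Real.exp (-(c * v i))) ⟨0, by simp⟩
    obtain ⟨ε, hε⟩ : ∃ ε : ℝ, ε = (s * ((-1) ^ i0 * (a (v i0) - AG (v i0))) -
      C' * Real.exp (-(c * v i0))) / 2 := ⟨_, rfl⟩
    have hp := hcon i0 (by simpa [Nat.lt_succ_iff] using hi0)
    have hε0 : 0 < ε := by rw [hε]; linarith
    have hev : ∀ᶠ T in (U : Filter ℝ), ∀ i ∈ Finset.range (m + 1),
        C' * Real.exp (-(c * v i)) + ε < s * ((-1) ^ i * (Aa T (v i) - AG (v i))) := by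
      rw [Filter.eventually_all_finset]
      intro i hi
      have t1 := ((((ha (v i)).sub_const (AG (v i)))).const_mul ((-1) ^ i)).const_mul s
      refine t1.eventually (lt_mem_nhds ?_)
      have t2 := hmin i hi
      linarith
    have hfew := hUl (h' s hs' v hv hvq h0 h1 ε hε0)
    obtain ⟨T, hT1, hT2⟩ := (hev.and hfew).exists
    obtain ⟨i, hi, hle⟩ := hT2
    have := hT1 i (Finset.mem_range.2 (Nat.lt_succ_of_le hi))
    linarith
  have hcG : ∀ x : ℝ, cu mG x = AG |x| := fun x => mG_AG (abs_nonneg x)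
  have hGae : ∀ᵐ x : ℝ, 0 < x → G x = cu μ x - cu mG x := by
    have hcount := (cu_mono b1).countable_not_continuousAt
    have hae : ∀ᵐ x : ℝ, ContinuousAt (fun t : ℝ => μ.real (Icc (-t) t)) x := by
      rw [ae_iff]
      exact hcount.measure_zero _
    filter_upwards [hae] with x hx hx0
    rw [hG, hcG, abs_of_pos hx0]
    congr 1
    unfold cu
    rw [abs_of_pos hx0]
    have h1 : Tendsto (fun δ : ℝ => x - δ) (𝓝[>] 0) (𝓝 x) := by
      have : Continuous fun δ : ℝ => x - δ := by fun_prop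
      have h2 := this.tendsto 0
      rw [sub_zero] at h2
      exact h2.mono_left nhdsWithin_le_nhds
    have h2 : Tendsto (fun δ : ℝ => x + δ) (𝓝[>] 0) (𝓝 x) := by
      have : Continuous fun δ : ℝ => x + δ := by fun_prop
      have h2 := this.tendsto 0
      rw [add_zero] at h2
      exact h2.mono_left nhdsWithin_le_nhds
    refine le_antisymm ?_ ?_
    · refine ge_of_tendsto (hx.tendsto.comp h2) ?_
      filter_upwards [self_mem_nhdsWithin] with δ hδ
      exact (hs x δ hδ).2
    · refine le_of_tendsto (hx.tendsto.comp h1) ?_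
      filter_upwards [self_mem_nhdsWithin] with δ hδ
      exact (hs x δ hδ).1
  have hmain := sgn_rigid (G := G) hC' hc (by positivity) b1' b2 (fun κ hκ0 hκ1 ψ hψ => by
    rw [mG_test hψ hκ1.le]
    exact tendsto_nhds_unique (hμ _ (fl_cont hψ.int) (fl_qd hψ)).2
      ((test_limRH RH hψ hκ0 hκ1).mono_left hU)) hGae (by linarith) hL hm hF
  -- conclusion
  have hGA : ∀ z : ℝ, 0 ≤ z → AG z = 1 + 2 * gp z := by
    intro z hz
    unfold AG
    rw [if_neg (by linarith)]
  have hfin : a y = AG y := by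
    rcases lt_or_ge y 0 with hy | hy
    · have e1 : AG y = 0 := by unfold AG; rw [if_pos hy]
      rw [e1]
      refine tendsto_nhds_unique (ha y) (tendsto_const_nhds.congr fun T => ?_)
      exact (Pool.Agent.Y744.Aa_neg T y hy).symm
    · have hdense : ∀ p q : ℝ, p < q → ∃ x ∈ Ioo p q, cu μ x = cu mG x := by
        intro p q hpq
        by_contra hcon
        push Not at hcon
        have h1 : volume (Ioo p q) = 0 := by
          refine measure_mono_null ?_ (ae_iff.1 hmain)
          intro x hx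
          exact hcon x hx
        rw [Real.volume_Ioo, ENNReal.ofReal_eq_zero] at h1
        linarith
      refine le_antisymm ?_ ?_
      · refine le_of_forall_pos_le_add fun ε hε => ?_
        obtain ⟨x, hx, hxe⟩ := hdense y (y + ε / 2) (by linarith)
        have hx0 : 0 < x := by linarith [hx.1]
        rw [hcG, abs_of_pos hx0] at hxe
        have h1 := (hs y (x - y) (by linarith [hx.1])).2
        rw [add_sub_cancel] at h1
        unfold cu at hxe
        rw [abs_of_pos hx0] at hxe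
        rw [hxe, hGA x hx0.le] at h1
        rw [hGA y hy]
        have := gp_lip (show y ≤ x from hx.1.le)
        linarith [hx.2]
      · rcases hy.eq_or_lt with h0 | h0
        · rw [← h0, hGA 0 le_rfl, Pool.Agent.Y744.gp_zero]
          refine le_of_forall_pos_le_add fun ε hε => ?_
          have h1 := ge_of_tendsto (ha 0) (hU (Pool.Agent.Y744.Aa_diag hε))
          linarith
        · refine le_of_forall_pos_le_add fun ε hε => ?_
          obtain ⟨x, hx, hxe⟩ := hdense (max (y / 2) (y - ε / 2)) y (by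
            apply max_lt
            · linarith
            · linarith)
          have hx1 : y / 2 < x := (le_max_left _ _).trans_lt hx.1
          have hx2 : y - ε / 2 < x := (le_max_right _ _).trans_lt hx.1
          have hx0 : 0 < x := by linarith
          rw [hcG, abs_of_pos hx0] at hxe
          have h1 := (hs y (y - x) (by linarith [hx.2])).1
          rw [sub_sub_cancel] at h1
          unfold cu at hxe
          rw [abs_of_pos hx0] at hxe
          rw [hxe, hGA x hx0.le] at h1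
          rw [hGA y hy]
          have := gp_lip (show x ≤ y from hx.2.le)
          linarith
  rw [← hfin]
  exact ha y

/-- the converse is trivial -/
lemma lim_few {τ : ℝ → ℝ} (hτ : ∀ x, 0 ≤ τ x)
    (h : ∀ y, Tendsto (fun T => Aa T y) l (𝓝 (AG y))) (A L : ℝ) (m : ℕ) :
    FewAs l τ A L m := by
  intro s hs v _ _ _ ε hε
  have t1 := ((((h (v 0)).sub_const (AG (v 0)))).const_mul ((-1) ^ 0)).const_mul s
  rw [sub_self, mul_zero, mul_zero] at t1
  filter_upwards [t1.eventually (ge_mem_nhds hε)] with T hT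
  exact ⟨0, Nat.zero_le m, by linarith [hτ (v 0)]⟩

lemma FewAs.toQ {τ : ℝ → ℝ} {A L : ℝ} {m : ℕ} (h : FewAs l τ A L m) : FewQ l τ A L m :=
  fun s hs v hv _ h0 h1 ε hε => h s hs v hv h0 h1 ε hε

end Pool.Agent.Y749.Rig
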