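import Pool.Agent.Y749.Rig.SPi

/-! # Sign changes: the stability version -/

set_option autoImplicit false

open MeasureTheory Set Filter Topology
open scoped NNReal ENNReal

namespace Pool.Agent.Y749.Rig

open Pool.Agent.Y744 (gp gd AG Aa Nr pr PC Xf)

/-- the bounded version, with an error -/
def FewR (l : Filter ℝ) (τ : ℝ → ℝ) (A L : ℝ) (m : ℕ) (R ε : ℝ) : Prop :=
  ∀ s : ℝ, (s = 1 ∨ s = -1) →
  ∀ v : ℕ → ℝ, StrictMono v → A < v 0 → v m < v 0 + L → v m ≤ R →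
  ∀ᶠ T in l, ∃ i, i ≤ m ∧ s * ((-1) ^ i * (Aa T (v i) - AG (v i))) ≤ τ (v i) + ε

lemma AG_lip {x y : ℝ} (hx : 0 ≤ x) (hxy : x ≤ y) : AG x ≤ AG y ∧ AG y ≤ AG x + 2 * (y - x) := by
  have hGA : ∀ z : ℝ, 0 ≤ z → AG z = 1 + 2 * gp z := by
    intro z hz
    unfold AG
    rw [if_neg (by linarith)]
  rw [hGA x hx, hGA y (hx.trans hxy)]
  have h1 := gp_lip hxy
  have h2 : 0 ≤ gp y - gp x := by
    rw [Pool.Agent.Y744.gp_sub]
    exact intervalIntegral.integral_nonneg hxy fun u _ => Pool.Agent.Y744.gd_nonneg u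
  constructor <;> linarith

/-- uniform convergence on compact sets -/
lemma unif_of_lim {T : ℕ → ℝ} (hT : ∀ n, 1 < T n)
    (h : ∀ y, Tendsto (fun n => Aa (T n) y) atTop (𝓝 (AG y))) {B δ : ℝ} (hδ : 0 < δ)
    (y : ℕ → ℝ) (hy : ∀ n, y n ∈ Icc (0 : ℝ) B) :
    ∃ n, |Aa (T n) (y n) - AG (y n)| ≤ δ := by
  obtain ⟨U, hU⟩ : ∃ U : Ultrafilter ℕ, (U : Filter ℕ) ≤ atTop := Ultrafilter.exists_le atTop
  obtain ⟨z, hz, hyz⟩ := isCompact_Icc.ultrafilter_le_nhds (U.map y) (by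
    rw [Filter.le_principal_iff]
    exact Filter.mem_map.2 (Filter.Eventually.of_forall hy))
  have hyz' : Tendsto y U (𝓝 z) := hyz
  obtain ⟨κ, hκ⟩ : ∃ κ : ℝ, κ = δ / 16 := ⟨_, rfl⟩
  have hκ0 : 0 < κ := by rw [hκ]; positivity
  obtain ⟨p, hp⟩ : ∃ p : ℝ, p = max (z - κ) 0 := ⟨_, rfl⟩
  obtain ⟨q, hq⟩ : ∃ q : ℝ, q = z + κ := ⟨_, rfl⟩
  have hp0 : 0 ≤ p := by rw [hp]; exact le_max_right _ _
  have hpz : p ≤ z := by rw [hp]; exact max_le (by linarith) hz.1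
  have hqp : q - p ≤ 2 * κ := by
    rw [hp, hq]
    have := le_max_left (z - κ) 0
    linarith
  have e1 : ∀ᶠ n in (U : Filter ℕ), z - κ < y n := hyz'.eventually (lt_mem_nhds (by linarith))
  have e2 : ∀ᶠ n in (U : Filter ℕ), y n < z + κ := hyz'.eventually (gt_mem_nhds (by linarith))
  have e3 : ∀ᶠ n in (U : Filter ℕ), AG p - κ < Aa (T n) p :=
    hU ((h p).eventually (lt_mem_nhds (by linarith)))
  have e4 : ∀ᶠ n in (U : Filter ℕ), Aa (T n) q < AG q + κ :=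
    hU ((h q).eventually (gt_mem_nhds (by linarith)))
  obtain ⟨n, ⟨⟨h1, h2⟩, h3⟩, h4⟩ := (((e1.and e2).and e3).and e4).exists
  refine ⟨n, ?_⟩
  have hpy : p ≤ y n := by rw [hp]; exact max_le h1.le (hy n).1
  have hyq : y n ≤ q := by rw [hq]; exact h2.le
  have m1 := Pool.Agent.Y744.Aa_mono (hT n) hpy
  have m2 := Pool.Agent.Y744.Aa_mono (hT n) hyq
  have l1 := AG_lip hp0 hpy
  have l2 := AG_lip (hp0.trans hpy) hyq
  rw [abs_le]
  constructor <;> linarith [l1.1, l1.2, l2.1, l2.2]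

/-- extension of a finite tuple -/
noncomputable def extq (m : ℕ) (q : Fin (m + 1) → ℚ) (j : ℕ) : ℝ :=
  if h : j < m + 1 then (q ⟨j, h⟩ : ℝ) else q ⟨m, Nat.lt_succ_self m⟩ + ((j : ℝ) - m)

lemma extq_le {m : ℕ} (q : Fin (m + 1) → ℚ) {j : ℕ} (h : j ≤ m) :
    extq m q j = q ⟨j, Nat.lt_succ_of_le h⟩ := by
  unfold extq
  rw [dif_pos (Nat.lt_succ_of_le h)]

lemma extq_mono {m : ℕ} (q : Fin (m + 1) → ℚ)
    (hq : ∀ j (h : j < m), q ⟨j, by omega⟩ < q ⟨j + 1, by omega⟩) : StrictMono (extq m q) := by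
  refine strictMono_nat_of_lt_succ fun j => ?_
  unfold extq
  rcases lt_trichotomy j m with h | h | h
  · rw [dif_pos (by omega), dif_pos (by omega)]
    exact_mod_cast hq j h
  · subst h
    rw [dif_pos (by omega), dif_neg (by omega)]
    push_cast
    linarith
  · rw [dif_neg (by omega), dif_neg (by omega)]
    push_cast
    linarith

/-- **stability** -/
theorem few_stab (RH : RiemannHypothesis) {A L C' c : ℝ} {m : ℕ} (hC' : 0 ≤ C')
    (hc : 0 < c) (hL : 0 < L) (hm : (m : ℝ) < 2 * L) {δ B : ℝ} (hδ : 0 < δ) :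
    ∃ R ε : ℝ, 0 < ε ∧ ∀ l : Filter ℝ, l ≤ atTop →
      FewR l (fun x => C' * Real.exp (-(c * x))) A L m R ε →
      ∀ y : ℝ, 0 ≤ y → y ≤ B → ∀ᶠ T in l, |Aa T y - AG y| ≤ δ := by
  by_contra hcon
  push Not at hcon
  have hn : ∀ n : ℕ, ∃ l : Filter ℝ, l ≤ atTop ∧
      FewR l (fun x => C' * Real.exp (-(c * x))) A L m ((n : ℝ) + 1) (1 / ((n : ℝ) + 1)) ∧
      ∃ y : ℝ, 0 ≤ y ∧ y ≤ B ∧ ∃ᶠ T in l, δ < |Aa T y - AG y| := fun n =>
    hcon ((n : ℝ) + 1) (1 / ((n : ℝ) + 1)) (by positivity)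
  choose l hl hfew y hy0 hyB hbad using hn
  obtain ⟨e, he⟩ := exists_surjective_nat (Fin (m + 1) → ℚ)
  -- the finitely many conditions
  have hT : ∀ n : ℕ, ∃ T : ℝ, (n : ℝ) + 2 ≤ T ∧ δ < |Aa T (y n) - AG (y n)| ∧
      ∀ j ∈ Finset.range n, ∀ s : ℝ, (s = 1 ∨ s = -1) → StrictMono (extq m (e j)) →
        A < extq m (e j) 0 → extq m (e j) m < extq m (e j) 0 + L → extq m (e j) m ≤ (n : ℝ) + 1 →
        ∃ i, i ≤ m ∧ s * ((-1) ^ i * (Aa T (extq m (e j) i) - AG (extq m (e j) i))) ≤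
          C' * Real.exp (-(c * extq m (e j) i)) + 1 / ((n : ℝ) + 1) := by
    intro n
    have h1 : ∀ᶠ T in l n, ∀ j ∈ Finset.range n, ∀ s : ℝ, (s = 1 ∨ s = -1) →
        StrictMono (extq m (e j)) →
        A < extq m (e j) 0 → extq m (e j) m < extq m (e j) 0 + L → extq m (e j) m ≤ (n : ℝ) + 1 →
        ∃ i, i ≤ m ∧ s * ((-1) ^ i * (Aa T (extq m (e j) i) - AG (extq m (e j) i))) ≤
          C' * Real.exp (-(c * extq m (e j) i)) + 1 / ((n : ℝ) + 1) := by
      rw [Filter.eventually_all_finset]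
      intro j _
      by_cases hj : StrictMono (extq m (e j)) ∧ A < extq m (e j) 0 ∧
          extq m (e j) m < extq m (e j) 0 + L ∧ extq m (e j) m ≤ (n : ℝ) + 1
      · filter_upwards [hfew n 1 (Or.inl rfl) _ hj.1 hj.2.1 hj.2.2.1 hj.2.2.2,
          hfew n (-1) (Or.inr rfl) _ hj.1 hj.2.1 hj.2.2.1 hj.2.2.2] with T h1 h2 s hs _ _ _ _
        rcases hs with rfl | rfl
        · exact h1
        · exact h2
      · refine Filter.Eventually.of_forall fun T s _ g1 g2 g3 g4 => ?_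
        exact absurd ⟨g1, g2, g3, g4⟩ hj
    obtain ⟨T, hT1, hT2, hT3⟩ := ((hbad n).and_eventually
      (h1.and (hl n (eventually_ge_atTop ((n : ℝ) + 2))))).exists
    exact ⟨T, hT3, hT1, hT2⟩
  choose T hTn hTbad hTfew using hT
  have hTtop : Tendsto T atTop atTop :=
    tendsto_atTop_mono (fun n => (by linarith [hTn n] : (n : ℝ) ≤ T n)) tendsto_natCast_atTop_atTop
  have hQ : FewQ (map T atTop) (fun x => C' * Real.exp (-(c * x))) A L m := by
    intro s hs v hv hvq h0 h1 ε hε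
    choose q hq using hvq
    obtain ⟨j, hj⟩ := he (fun i : Fin (m + 1) => q i)
    have hext : ∀ i, i ≤ m → extq m (e j) i = v i := by
      intro i hi
      rw [extq_le _ hi, hj, hq i]
    have hsm : StrictMono (extq m (e j)) := by
      refine extq_mono _ fun i hi => ?_
      rw [hj]
      have : (q i : ℝ) < q (i + 1) := by
        rw [← hq, ← hq]
        exact hv (Nat.lt_succ_self i)
      exact_mod_cast this
    rw [eventually_map]
    obtain ⟨n1, hn1⟩ := exists_nat_gt (v m)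
    obtain ⟨n2, hn2⟩ := exists_nat_gt (1 / ε)
    filter_upwards [eventually_gt_atTop j, eventually_ge_atTop n1, eventually_ge_atTop n2]
      with n g1 g2 g3
    obtain ⟨i, hi, hle⟩ := hTfew n j (Finset.mem_range.2 g1) s hs hsm
      (by rw [hext 0 (Nat.zero_le m)]; exact h0)
      (by rw [hext 0 (Nat.zero_le m), hext m le_rfl]; exact h1)
      (by
        rw [hext m le_rfl]
        have : (n1 : ℝ) ≤ n := by exact_mod_cast g2
        linarith)
    rw [hext i hi] at hle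
    refine ⟨i, hi, hle.trans ?_⟩
    have h5 : 1 / ((n : ℝ) + 1) ≤ ε := by
      have h6 : (n2 : ℝ) ≤ n := by exact_mod_cast g3
      rw [div_le_iff₀ (by positivity)]
      rw [div_lt_iff₀ hε] at hn2
      nlinarith
    show _ ≤ C' * Real.exp (-(c * v i)) + ε
    linarith
  have hlim := fun y => few_lim RH (show map T atTop ≤ atTop from hTtop) hC' hc hL hm hQ y
  obtain ⟨n, hn⟩ := unif_of_lim (T := T) (fun n => by
      have := hTn n
      have h0 : (0 : ℝ) ≤ n := Nat.cast_nonneg n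
      linarith) (fun y => by
      have := hlim y
      rwa [tendsto_map'_iff] at this) hδ y (fun n => ⟨hy0 n, hyB n⟩)
  exact absurd hn (not_le.2 (hTbad n))

end Pool.Agent.Y749.Rig
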