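import Pool.Agent.Y749.Rig.SPj
import Pool.Agent.Y744.PCR.Glue

/-! # Sign changes: the statements with the counting function of the problem -/

set_option autoImplicit false

open MeasureTheory Set Filter Topology

namespace Pool.Agent.Y749.Rig.S

open Pool.Agent.Y744 (gp gd AG Aa Nr pr PC Xf)
open Pool.Agent.Y744.G (D Montgomery Mont_iff D_eq)

variable {F : Filter ℝ}

/-- alternating values of the cumulative discrepancy -/
def SignBound (F : Filter ℝ) (A L C c : ℝ) (m : ℕ) : Prop := ∀ s : ℝ, (s = 1 ∨ s = -1) →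
  ∀ v : ℕ → ℝ, (∀ i < m, v i < v (i + 1)) → A < v 0 → v m < v 0 + L → ∀ ε : ℝ, 0 < ε →
    ∀ᶠ T in F, ∃ i ≤ m, s * ((-1) ^ i * D T (-v i) (v i)) ≤ C * Real.exp (-(c * v i)) + ε

/-- alternating windows -/
def WindowBound (F : Filter ℝ) (A L C c : ℝ) (m : ℕ) : Prop := ∀ s : ℝ, (s = 1 ∨ s = -1) →
  ∀ a b : ℕ → ℝ, (∀ i ≤ m, a i < b i) → (∀ i < m, b i < a (i + 1)) → A < a 0 →
    b m < a 0 + L → ∀ ε : ℝ, 0 < ε →
    ∀ᶠ T in F, ∃ i ≤ m, s * ((-1) ^ i * D T (a i) (b i)) ≤ C * Real.exp (-(c * a i)) + ε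

/-- alternating values of the cumulative discrepancy up to `R`, with the error `ε` -/
def SignBoundUpTo (F : Filter ℝ) (A L C c : ℝ) (m : ℕ) (R ε : ℝ) : Prop :=
  ∀ s : ℝ, (s = 1 ∨ s = -1) →
  ∀ v : ℕ → ℝ, (∀ i < m, v i < v (i + 1)) → A < v 0 → v m < v 0 + L → v m ≤ R →
    ∀ᶠ T in F, ∃ i ≤ m, s * ((-1) ^ i * D T (-v i) (v i)) ≤ C * Real.exp (-(c * v i)) + ε

lemma cum_eq {T v : ℝ} (hT : 1 < T) (hv : 0 ≤ v) : D T (-v) v = Aa T v - AG v := by
  rw [D_eq hT, ← mG_pr (by linarith : -v ≤ v), mG_AG hv]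
  unfold Nr Aa
  rw [div_eq_inv_mul]
  congr 3
  ext x
  rw [Set.mem_Icc, ← abs_le]
  rfl

lemma mont_cum (hF : F ≤ atTop) :
    Montgomery F ↔ ∀ y, Tendsto (fun T => Aa T y) F (𝓝 (AG y)) := by
  rw [Mont_iff hF]
  constructor
  · intro h y
    exact Aa_lim hF (weak_win hF h) y
  · intro h α β hαβ
    exact Pool.Agent.Y744.Nr_all hF h hαβ

lemma mont_D (hF : F ≤ atTop) (h : Montgomery F) {α β : ℝ} (hαβ : α < β) :
    Tendsto (fun T => D T α β) F (𝓝 0) := by
  have h1 := ((Mont_iff hF).1 h α β hαβ).sub_const (pr α β)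
  rw [sub_self] at h1
  refine h1.congr' ?_
  filter_upwards [hF (eventually_gt_atTop 1)] with T hT
  rw [D_eq hT]

lemma few_cum (hF : F ≤ atTop) {A L C c : ℝ} {m : ℕ} (hA : 0 ≤ A)
    (h : SignBound F A L C c m) : FewAs F (fun x => C * Real.exp (-(c * x))) A L m := by
  intro s hs v hv h0 h1 ε hε
  filter_upwards [h s hs v (fun i _ => hv (Nat.lt_succ_self i)) h0 h1 ε hε,
    hF (eventually_gt_atTop 1)] with T h2 hT
  obtain ⟨i, hi, hle⟩ := h2
  rw [cum_eq hT (by linarith [hv.monotone (Nat.zero_le i)])] at hle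
  exact ⟨i, hi, hle⟩

/-- part 1 -/
theorem main1 (RH : RiemannHypothesis) (hF : F ≤ atTop) {A L C c : ℝ} {m : ℕ} (hA : 0 ≤ A)
    (hC : 0 ≤ C) (hc : 0 < c) (hL : 0 < L) (hm : (m : ℝ) < 2 * L) :
    Montgomery F ↔ SignBound F A L C c m := by
  constructor
  · intro h s hs v _ h0 _ ε hε
    have t1 := ((mont_D hF h (show -v 0 < v 0 by linarith)).const_mul ((-1) ^ 0)).const_mul s
    rw [mul_zero, mul_zero] at t1
    filter_upwards [t1.eventually (ge_mem_nhds hε)] with T hT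
    refine ⟨0, Nat.zero_le m, ?_⟩
    have : 0 ≤ C * Real.exp (-(c * v 0)) := by positivity
    linarith
  · intro h
    rw [mont_cum hF]
    exact few_lim RH hF hC hc hL hm (few_cum hF hA h).toQ

lemma PC_split (T : ℝ) {v w : ℝ} (hv : 0 ≤ v) (hvw : v ≤ w) :
    PC T {x | |x| ≤ w} = PC T {x | |x| ≤ v} + 2 * PC T (Ioc v w) := by
  have e1 : {x : ℝ | |x| ≤ w} = {x : ℝ | |x| ≤ v} ∪ (Ioc v w ∪ -Ioc v w) := by
    ext x
    simp only [mem_union, mem_Ioc, Set.mem_neg]
    show |x| ≤ w ↔ |x| ≤ v ∨ _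
    rcases abs_cases x with ⟨h1, h2⟩ | ⟨h1, h2⟩
    · rw [h1]
      constructor
      · intro h
        rcases le_or_gt x v with h3 | h3
        · exact Or.inl h3
        · exact Or.inr (Or.inl ⟨h3, h⟩)
      · rintro (h | h | h)
        · exact h.trans hvw
        · exact h.2
        · linarith [h.1]
    · rw [h1]
      constructor
      · intro h
        rcases le_or_gt (-x) v with h3 | h3
        · exact Or.inl h3
        · exact Or.inr (Or.inr ⟨h3, h⟩)
      · rintro (h | h | h)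
        · exact h.trans hvw
        · linarith [h.1]
        · exact h.2
  rw [e1, Pool.Agent.Y744.PC_union, Pool.Agent.Y744.PC_union, Pool.Agent.Y744.PC_neg]
  · ring
  · rw [Set.disjoint_left]
    rintro x h1 h2
    rw [Set.mem_neg] at h2
    linarith [h1.1, h2.1]
  · rw [Set.disjoint_left]
    rintro x (h1 : |x| ≤ v) h2
    rcases h2 with h2 | h2
    · have := le_abs_self x
      linarith [h2.1]
    · rw [Set.mem_neg] at h2
      have := neg_abs_le x
      linarith [h2.1]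

/-- the discrepancy of a half open window -/
noncomputable def Dh (T v w : ℝ) : ℝ := (Xf T)⁻¹ * PC T (Ioc v w) - (gp w - gp v)

lemma Dh_eq {T v w : ℝ} (hT : 1 < T) (hv : 0 ≤ v) (hvw : v ≤ w) :
    D T (-w) w - D T (-v) v = 2 * Dh T v w := by
  rw [cum_eq hT hv, cum_eq hT (hv.trans hvw)]
  unfold Aa AG Dh
  rw [PC_split T hv hvw, if_neg (by linarith), if_neg (by linarith)]
  ring

lemma D_pos {T a b : ℝ} (hT : 1 < T) (ha : 0 < a) :
    D T a b = (Xf T)⁻¹ * PC T (Icc a b) - (gp b - gp a) := by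
  rw [D_eq hT]
  unfold Nr pr
  rw [Set.indicator_of_notMem (by
    rintro ⟨h1, h2⟩
    linarith), div_eq_inv_mul, add_zero]

lemma D_ge {T v w : ℝ} (hT : 1 < T) (hv : 0 < v) : Dh T v w ≤ D T v w := by
  rw [D_pos hT hv]
  unfold Dh
  have h1 := mul_le_mul_of_nonneg_left (Pool.Agent.Y744.PC_mono T
    (Ioc_subset_Icc_self : Ioc v w ⊆ Icc v w)) (inv_nonneg.2 (Pool.Agent.Y744.Xf_pos hT).le)
  linarith

lemma D_le {T v w κ : ℝ} (hT : 1 < T) (hv : 0 < v) (hκ : 0 < κ) :
    D T (v + κ) (w - κ) ≤ Dh T v w + 2 * κ := by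
  rw [D_pos hT (by linarith)]
  unfold Dh
  have h0 : Icc (v + κ) (w - κ) ⊆ Ioc v w :=
    fun x hx => ⟨by linarith [hx.1], by linarith [hx.2]⟩
  have h1 := mul_le_mul_of_nonneg_left (Pool.Agent.Y744.PC_mono T h0)
    (inv_nonneg.2 (Pool.Agent.Y744.Xf_pos hT).le)
  have h2 := gp_lip (show v ≤ v + κ by linarith)
  have h3 := gp_lip (show w - κ ≤ w by linarith)
  linarith

/-- from windows to the cumulative discrepancies -/
lemma win_sign (hF : F ≤ atTop) {A L C c : ℝ} {m : ℕ} (hA : 0 ≤ A) (hC : 0 ≤ C) (hc : 0 < c)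
    (h : WindowBound F A L C c m) : SignBound F A L (2 * C) c (m + 1) := by
  intro s hs v hv h0 h1 ε hε
  have hmono : ∀ i, i ≤ m + 1 → v 0 ≤ v i := by
    intro i
    induction i with
    | zero => intro _; exact le_rfl
    | succ i ih =>
      intro hi
      exact (ih (by omega)).trans (hv i (by omega)).le
  have hgap : ∀ i ∈ Finset.range (m + 1), ∀ᶠ κ : ℝ in 𝓝[>] 0, 2 * κ < v (i + 1) - v i := by
    intro i hi
    have h2 : 0 < (v (i + 1) - v i) / 2 := by
      have := hv i (Finset.mem_range.1 hi)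
      linarith
    filter_upwards [Ioo_mem_nhdsGT h2] with κ hκ
    linarith [hκ.2]
  obtain ⟨κ, hκ1, hκ2⟩ := ((((Finset.range (m + 1)).eventually_all).2 hgap).and
    (Ioo_mem_nhdsGT (show (0 : ℝ) < ε / 8 by positivity))).exists
  have hκ0 : 0 < κ := hκ2.1
  -- the sign of the `i`-th window is `-s (-1) ^ i`
  have hsi : ∀ i : ℕ, -s * (-1) ^ i = 1 ∨ -s * (-1) ^ i = -1 := by
    intro i
    rcases hs with rfl | rfl
    · rcases neg_one_pow_eq_or ℝ i with h | h
      · rw [h]; right; ring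
      · rw [h]; left; ring
    · rw [neg_neg, one_mul]; exact neg_one_pow_eq_or ℝ i
  obtain ⟨a, ha⟩ : ∃ a : ℕ → ℝ, ∀ i, a i = if -s * (-1) ^ i = 1 then v i else v i + κ :=
    ⟨_, fun i => rfl⟩
  obtain ⟨b, hb⟩ : ∃ b : ℕ → ℝ, ∀ i, b i = if -s * (-1) ^ i = 1 then v (i + 1) else v (i + 1) - κ :=
    ⟨_, fun i => rfl⟩
  have ha1 : ∀ i, v i ≤ a i := by
    intro i
    rw [ha]
    split_ifs <;> linarith
  have hb1 : ∀ i, b i ≤ v (i + 1) := by
    intro i
    rw [hb]
    split_ifs <;> linarith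
  have hab : ∀ i ≤ m, a i < b i := by
    intro i hi
    have h2 := hκ1 i (Finset.mem_range.2 (by omega))
    have h3 := hv i (by omega)
    rw [ha, hb]
    split_ifs <;> linarith
  have hba : ∀ i < m, b i < a (i + 1) := by
    intro i hi
    rcases hsi i with h2 | h2
    · have h3 : ¬ (-s * (-1) ^ (i + 1) = 1) := by
        rw [pow_succ, ← mul_assoc, h2]
        norm_num
      rw [ha, hb, if_pos h2, if_neg h3]
      linarith
    · have h3 : ¬ (-s * (-1) ^ i = 1) := by rw [h2]; norm_num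
      have h4 := ha1 (i + 1)
      rw [hb, if_neg h3]
      linarith
  have hs' : -s = 1 ∨ -s = -1 := by
    rcases hs with rfl | rfl
    · right; rfl
    · left; norm_num
  filter_upwards [h (-s) hs' a b hab hba (h0.trans_le (ha1 0)) (by
      have h2 := hb1 m
      have h3 := ha1 0
      linarith) (ε / 2) (by positivity), hF (eventually_gt_atTop 1)] with T h2 hT
  obtain ⟨i, hi, hle⟩ := h2
  by_contra hcon
  push Not at hcon
  have g1 := hcon i (by omega)
  have g2 := hcon (i + 1) (by omega)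
  have hvi : 0 < v i := by linarith [hmono i (by omega)]
  have hvv := hv i (by omega)
  have g3 := Dh_eq hT hvi.le hvv.le
  have g4 : s * ((-1) ^ (i + 1) * D T (-v (i + 1)) (v (i + 1))) =
      -s * ((-1) ^ i * D T (-v (i + 1)) (v (i + 1))) := by
    rw [pow_succ]
    ring
  rw [g4] at g2
  have g5 : -s * ((-1) ^ i * (2 * Dh T (v i) (v (i + 1)))) =
      -s * ((-1) ^ i * D T (-v (i + 1)) (v (i + 1))) + s * ((-1) ^ i * D T (-v i) (v i)) := by
    rw [← g3]
    ring
  have e1 : 0 ≤ C * Real.exp (-(c * v i)) := by positivity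
  have e2 : 0 ≤ C * Real.exp (-(c * v (i + 1))) := by positivity
  have g6 : C * Real.exp (-(c * v i)) + ε < -s * ((-1) ^ i * Dh T (v i) (v (i + 1))) := by
    have : -s * ((-1) ^ i * (2 * Dh T (v i) (v (i + 1)))) =
      2 * (-s * ((-1) ^ i * Dh T (v i) (v (i + 1)))) := by ring
    rw [this] at g5
    linarith
  have e3 : C * Real.exp (-(c * a i)) ≤ C * Real.exp (-(c * v i)) := by
    refine mul_le_mul_of_nonneg_left (Real.exp_le_exp.2 ?_) hC
    have := mul_le_mul_of_nonneg_left (ha1 i) hc.le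
    linarith
  rw [← mul_assoc] at g6 hle
  rcases hsi i with h3 | h3
  · rw [h3, one_mul] at g6 hle
    rw [hb, if_pos h3] at hle
    rw [ha i, if_pos h3] at hle e3
    have := D_ge (w := v (i + 1)) hT hvi
    linarith
  · have h4 : ¬ (-s * (-1) ^ i = 1) := by rw [h3]; norm_num
    rw [h3] at g6 hle
    rw [hb, if_neg h4] at hle
    rw [ha i, if_neg h4] at hle e3
    have := D_le (w := v (i + 1)) hT hvi hκ0
    linarith [hκ2.2]

/-- part 2 -/
theorem main2 (RH : RiemannHypothesis) (hF : F ≤ atTop) {A L C c : ℝ} {m : ℕ} (hA : 0 ≤ A)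
    (hC : 0 ≤ C) (hc : 0 < c) (hL : 0 < L) (hm : (m : ℝ) + 1 < 2 * L) :
    Montgomery F ↔ WindowBound F A L C c m := by
  constructor
  · intro h s hs a b hab _ h0 _ ε hε
    have t1 := ((mont_D hF h (hab 0 (Nat.zero_le m))).const_mul ((-1) ^ 0)).const_mul s
    rw [mul_zero, mul_zero] at t1
    filter_upwards [t1.eventually (ge_mem_nhds hε)] with T hT
    refine ⟨0, Nat.zero_le m, ?_⟩
    have : 0 ≤ C * Real.exp (-(c * a 0)) := by positivity
    linarith
  · intro h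
    exact (main1 RH hF hA (by positivity) hc hL (by push_cast; exact hm)).2
      (win_sign hF hA hC hc h)

/-- part 3 -/
theorem main3 (RH : RiemannHypothesis) {A L C c : ℝ} {m : ℕ} (hA : 0 ≤ A)
    (hC : 0 ≤ C) (hc : 0 < c) (hL : 0 < L) (hm : (m : ℝ) < 2 * L) {δ B : ℝ} (hδ : 0 < δ) :
    ∃ R ε : ℝ, 0 < ε ∧ ∀ F : Filter ℝ, F ≤ atTop → SignBoundUpTo F A L C c m R ε →
      ∀ v : ℝ, 0 ≤ v → v ≤ B → ∀ᶠ T in F, |D T (-v) v| ≤ δ := by
  obtain ⟨R, ε, hε, h⟩ := few_stab RH (A := A) hC hc hL hm (δ := δ) (B := B) hδ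
  refine ⟨R, ε, hε, fun F hF hS v hv hvB => ?_⟩
  have h1 : FewR F (fun x => C * Real.exp (-(c * x))) A L m R ε := by
    intro s hs w hw h0 h1 h2
    filter_upwards [hS s hs w (fun i _ => hw (Nat.lt_succ_self i)) h0 h1 h2,
      hF (eventually_gt_atTop 1)] with T h3 hT
    obtain ⟨i, hi, hle⟩ := h3
    rw [cum_eq hT (by linarith [hw.monotone (Nat.zero_le i)])] at hle
    exact ⟨i, hi, hle⟩
  filter_upwards [h F hF h1 v hv hvB, hF (eventually_gt_atTop 1)] with T h2 hT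
  rw [cum_eq hT hv]
  exact h2

end Pool.Agent.Y749.Rig.S
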