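import Pool.Agent.TH850.UV.Loc
import Pool.Agent.H370R2.Dyadic
import Pool.Agent.Y749.Rig.KL

/-! # Second moments of local counts of the zeros -/

set_option autoImplicit false

open MeasureTheory Set Filter Topology
open scoped NNReal ENNReal

namespace Pool.Agent.Y749.Rig

open H370 (Zf mult good_zeta mem_Zf NN zset)

/-- the multiplicity as a real number -/
noncomputable def mm (s : ℂ) : ℝ := (mult riemannZeta s : ℝ)

lemma mm_nonneg (s : ℂ) : 0 ≤ mm s := Nat.cast_nonneg _

/-- the nontrivial zeros with ordinate in `[0, T]` -/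
def zs (T : ℝ) : Set ℂ :=
  {s : ℂ | riemannZeta s = 0 ∧ 0 < s.re ∧ s.re < 1 ∧ 0 ≤ s.im ∧ s.im ≤ T}

theorem zs_finite (T : ℝ) : (zs T).Finite := by
  have hcomp : IsCompact (Icc (0 : ℝ) 1 ×ℂ Icc 0 T) := isCompact_Icc.reProdIm isCompact_Icc
  have hfin : {s : ℂ | s ∈ (Icc (0 : ℝ) 1 ×ℂ Icc 0 T) ∧ riemannZeta s = 0}.Finite := by
    refine H370.finite_zeros_compact (fun s hs => ?_)
      (riemannZeta_ne_zero_of_one_le_re (by simp)) ?_ hcomp
    · have : DifferentiableOn ℂ riemannZeta ({1}ᶜ : Set ℂ) := fun z hz =>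
        (differentiableAt_riemannZeta hz).differentiableWithinAt
      exact this.analyticAt (isOpen_compl_singleton.mem_nhds hs)
    · have h := riemannZeta_residue_one
      have h3 := h.eventually_ne (one_ne_zero : (1 : ℂ) ≠ 0)
      filter_upwards [h3] with s hs h0
      rw [h0, mul_zero] at hs
      exact hs rfl
  refine hfin.subset ?_
  rintro s ⟨a5, a1, a2, a3, a4⟩
  exact ⟨⟨⟨a1.le, a2.le⟩, ⟨a3, a4⟩⟩, a5⟩

/-- the zeros with ordinate in `[0, T]` -/
noncomputable def ZZ (T : ℝ) : Finset ℂ := (zs_finite T).toFinset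

lemma mem_ZZ {T : ℝ} {s : ℂ} : s ∈ ZZ T ↔ s ∈ zs T := by
  unfold ZZ; rw [Set.Finite.mem_toFinset]

lemma ZZ_mono {q T : ℝ} (h : q ≤ T) : ZZ q ⊆ ZZ T := by
  intro s hs
  rw [mem_ZZ] at hs ⊢
  exact ⟨hs.1, hs.2.1, hs.2.2.1, hs.2.2.2.1, hs.2.2.2.2.trans h⟩

lemma Zf_sub_ZZ {q T U : ℝ} (hq : 1 ≤ q) (h : T ≤ U) : Zf riemannZeta q T ⊆ ZZ U := by
  intro s hs
  rw [mem_Zf good_zeta hq] at hs
  rw [mem_ZZ]
  obtain ⟨h1, h2, h3, h4, h5⟩ := hs
  exact ⟨h5, h1, h2, by linarith, by linarith⟩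

lemma ZZ_split {q T : ℝ} (hq : 1 ≤ q) (hqT : q ≤ T) [DecidableEq ℂ] :
    ZZ T = ZZ q ∪ Zf riemannZeta q T := by
  ext s
  rw [Finset.mem_union, mem_ZZ, mem_ZZ, mem_Zf good_zeta hq]
  constructor
  · rintro ⟨h1, h2, h3, h4, h5⟩
    rcases le_or_gt s.im q with h | h
    · left; exact ⟨h1, h2, h3, h4, h⟩
    · right; exact ⟨h2, h3, h, h5, h1⟩
  · rintro (⟨h1, h2, h3, h4, h5⟩ | ⟨h1, h2, h3, h4, h5⟩)
    · exact ⟨h1, h2, h3, h4, by linarith⟩
    · exact ⟨h5, h1, h2, by linarith, h4⟩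

lemma ZZ_disj {q T : ℝ} (hq : 1 ≤ q) : Disjoint (ZZ q) (Zf riemannZeta q T) := by
  rw [Finset.disjoint_left]
  intro s hs hs2
  rw [mem_ZZ] at hs
  rw [mem_Zf good_zeta hq] at hs2
  linarith [hs.2.2.2.2, hs2.2.2.1]

lemma NN_eq' {a b : ℝ} (ha : 1 ≤ a) : ∑ s ∈ Zf riemannZeta a b, mm s = (NN riemannZeta a b : ℝ) := by
  rw [H370.NN_eq good_zeta ha]
  unfold mm
  push_cast
  rfl

/-- local sums when the window shrinks -/
lemma fw_L {A : Finset ℂ} {a : ℂ → ℝ} (ha : ∀ s, 0 ≤ a s) {L L' : ℝ} (hL : 0 < L) (hLL : L ≤ L')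
    (t : ℝ) : fw A a L' t ≤ fw A a L t := by
  unfold fw
  refine Finset.sum_le_sum_of_subset_of_nonneg ?_ fun s _ _ => ha s
  intro s hs
  rw [Finset.mem_filter] at hs ⊢
  exact ⟨hs.1, hs.2.trans (one_div_le_one_div_of_le hL hLL)⟩

lemma one_lt_log {T : ℝ} (hT : 3 ≤ T) : 1 < Real.log T := by
  rw [Real.lt_log_iff_exp_lt (by linarith)]
  have := Real.exp_one_lt_d9
  linarith

theorem sup_fw : ∃ C : ℝ, 0 < C ∧ ∀ T : ℝ, 10 ≤ T → ∀ L : ℝ, 1 < L → ∀ t : ℝ,
    fw (ZZ T) mm L t ≤ C * Real.log T := by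
  obtain ⟨C, hC, h⟩ := H370.zcount good_zeta
  obtain ⟨K, hK⟩ : ∃ K : ℝ, K = ∑ s ∈ ZZ 4, mm s := ⟨_, rfl⟩
  have hK0 : 0 ≤ K := by rw [hK]; exact Finset.sum_nonneg fun s _ => mm_nonneg s
  refine ⟨K + 2 * C, by positivity, fun T hT L hL' t => ?_⟩
  have hL := one_lt_log (show 3 ≤ T by linarith)
  have hL1 : 1 / L < 1 := by rw [div_lt_one (by linarith)]; exact hL'
  rcases lt_or_ge t 3 with ht | ht
  · have h1 : fw (ZZ T) mm L t ≤ K := by
      rw [hK]
      unfold fw
      refine Finset.sum_le_sum_of_subset_of_nonneg ?_ fun s _ _ => mm_nonneg s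
      intro s hs
      rw [Finset.mem_filter, mem_ZZ] at hs
      rw [mem_ZZ]
      obtain ⟨⟨h1, h2, h3, h4, h5⟩, h6⟩ := hs
      have := abs_le.1 h6
      exact ⟨h1, h2, h3, h4, by linarith⟩
    nlinarith
  · rcases le_or_gt t (T + 1) with ht2 | ht2
    · have h1 : fw (ZZ T) mm L t ≤ C * Real.log t := by
        refine le_trans ?_ (h t ht)
        rw [← NN_eq' (by linarith)]
        unfold fw
        refine Finset.sum_le_sum_of_subset_of_nonneg ?_ fun s _ _ => mm_nonneg s
        intro s hs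
        rw [Finset.mem_filter, mem_ZZ] at hs
        rw [mem_Zf good_zeta (by linarith)]
        obtain ⟨⟨h1, h2, h3, h4, h5⟩, h6⟩ := hs
        have := abs_le.1 h6
        exact ⟨h2, h3, by linarith, by linarith, h1⟩
      have h2 : Real.log t ≤ 2 * Real.log T := by
        have : Real.log t ≤ Real.log (T ^ 2) := Real.log_le_log (by linarith) (by nlinarith)
        rwa [Real.log_pow] at this
      nlinarith
    · have h1 : fw (ZZ T) mm L t = 0 := by
        unfold fw
        apply Finset.sum_eq_zero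
        intro s hs
        exfalso
        rw [Finset.mem_filter, mem_ZZ] at hs
        obtain ⟨⟨h1, h2, h3, h4, h5⟩, h6⟩ := hs
        have := abs_le.1 h6
        linarith
      rw [h1]
      positivity

lemma int_fw {A : Finset ℂ} {a : ℂ → ℝ} (ha : ∀ s, 0 ≤ a s) {L : ℝ} (hL : 0 < L) :
    ∫⁻ t, ENNReal.ofReal (fw A a L t) = ENNReal.ofReal ((∑ s ∈ A, a s) * (2 / L)) := by
  have h1 : ∀ t, ENNReal.ofReal (fw A a L t) =
      ∑ s ∈ A, (Icc (s.im - 1 / L) (s.im + 1 / L)).indicator (fun _ => ENNReal.ofReal (a s)) t := by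
    intro t
    rw [fw_eq, ENNReal.ofReal_sum_of_nonneg fun s _ => indicator_nonneg (fun _ _ => ha _) _]
    refine Finset.sum_congr rfl fun s _ => ?_
    by_cases h : t ∈ Icc (s.im - 1 / L) (s.im + 1 / L)
    · rw [indicator_of_mem h, indicator_of_mem h]
    · rw [indicator_of_notMem h, indicator_of_notMem h, ENNReal.ofReal_zero]
  simp_rw [h1]
  rw [lintegral_finsetSum _ fun p _ => measurable_const.indicator measurableSet_Icc, Finset.sum_mul,
    ENNReal.ofReal_sum_of_nonneg fun s _ => mul_nonneg (ha _) (by positivity)]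
  refine Finset.sum_congr rfl fun s _ => ?_
  rw [lintegral_indicator_const measurableSet_Icc, Real.volume_Icc, ENNReal.ofReal_mul (ha _)]
  congr 2
  ring

/-- small sets of zeros -/
theorem sm_small : ∃ C : ℝ, 0 < C ∧ ∀ T : ℝ, 10 ≤ T → ∀ L : ℝ, 1 < L → ∀ G : Finset ℂ, G ⊆ ZZ T →
    ∫⁻ t, ENNReal.ofReal (fw G mm L t ^ 2) ≤
      ENNReal.ofReal (C * (Real.log T / L) * ∑ s ∈ G, mm s) := by
  obtain ⟨C, hC, h⟩ := sup_fw
  refine ⟨2 * C, by positivity, fun T hT L hL1 G hG => ?_⟩
  have hL := one_lt_log (show 3 ≤ T by linarith)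
  have hL0 : 0 < Real.log T := by linarith
  calc ∫⁻ t, ENNReal.ofReal (fw G mm L t ^ 2) ≤
        ∫⁻ t, ENNReal.ofReal (C * Real.log T) * ENNReal.ofReal (fw G mm L t) := by
        refine lintegral_mono fun t => ?_
        rw [← ENNReal.ofReal_mul (by positivity)]
        apply ENNReal.ofReal_le_ofReal
        rw [sq]
        refine mul_le_mul_of_nonneg_right ?_ (fw_nonneg mm_nonneg t)
        exact (fw_mono hG (fun s _ => le_rfl) t mm_nonneg).trans (h T hT L hL1 t)
    _ = ENNReal.ofReal (2 * C * (Real.log T / L) * ∑ s ∈ G, mm s) := by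
        rw [lintegral_const_mul _ fw_meas.ennreal_ofReal, int_fw mm_nonneg (by linarith),
          ← ENNReal.ofReal_mul (by positivity)]
        congr 1
        ring

/-- number of zeros in an interval -/
theorem cnt : ∃ C : ℝ, 0 < C ∧ ∀ a : ℝ, 3 ≤ a → ∀ n : ℕ,
    (NN riemannZeta a (a + 2 * n) : ℝ) ≤ C * n * Real.log (a + 2 * n) := by
  obtain ⟨C, hC, h⟩ := H370.zcount good_zeta
  refine ⟨C, hC, fun a ha n => ?_⟩
  induction n with
  | zero =>
    have h0 : (NN riemannZeta a (a + 2 * ((0 : ℕ) : ℝ)) : ℝ) = 0 := by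
      rw [← NN_eq' (by linarith)]
      apply Finset.sum_eq_zero
      intro s hs
      exfalso
      rw [mem_Zf good_zeta (by linarith)] at hs
      have h1 := hs.2.2.1
      have h2 := hs.2.2.2.1
      push_cast at h2
      linarith
    rw [h0]; simp
  | succ n ih =>
    have e : a + 2 * ((n + 1 : ℕ) : ℝ) = a + 2 * n + 2 := by push_cast; ring
    have h1 := H370.NN_add good_zeta (a := a) (b := a + 2 * n) (c := a + 2 * n + 2) (by linarith)
      (by have : (0 : ℝ) ≤ n := n.cast_nonneg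
          linarith) (by linarith)
    have h2 := h (a + 2 * n + 1) (by
      have : (0 : ℝ) ≤ n := n.cast_nonneg
      linarith)
    rw [show a + 2 * (n : ℝ) + 1 - 1 = a + 2 * n by ring,
      show a + 2 * (n : ℝ) + 1 + 1 = a + 2 * n + 2 by ring] at h2
    have hn : (0 : ℝ) ≤ n := n.cast_nonneg
    have h3 : Real.log (a + 2 * n + 1) ≤ Real.log (a + 2 * n + 2) :=
      Real.log_le_log (by linarith) (by linarith)
    have h4 : Real.log (a + 2 * n) ≤ Real.log (a + 2 * n + 2) :=
      Real.log_le_log (by linarith) (by linarith)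
    rw [e, h1]
    push_cast
    calc (NN riemannZeta a (a + 2 * n) : ℝ) + (NN riemannZeta (a + 2 * n) (a + 2 * n + 2) : ℝ) ≤
          C * n * Real.log (a + 2 * n) + C * Real.log (a + 2 * n + 1) := add_le_add ih h2
      _ ≤ C * n * Real.log (a + 2 * n + 2) + C * Real.log (a + 2 * n + 2) := by gcongr
      _ = _ := by ring

/-- number of zeros in a short interval -/
theorem cnt2 : ∃ C : ℝ, 0 < C ∧ ∀ a b : ℝ, 3 ≤ a → a ≤ b → b ≤ 2 * a →
    ∑ s ∈ Zf riemannZeta a b, mm s ≤ C * (b - a + 1) * Real.log a := by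
  obtain ⟨C, hC, h⟩ := cnt
  refine ⟨4 * C, by positivity, fun a b ha hab hb => ?_⟩
  obtain ⟨n, hn⟩ : ∃ n : ℕ, n = ⌈(b - a) / 2⌉₊ := ⟨_, rfl⟩
  have h1 : (b - a) / 2 ≤ n := by rw [hn]; exact Nat.le_ceil _
  have h2 : (n : ℝ) < (b - a) / 2 + 1 := by rw [hn]; exact Nat.ceil_lt_add_one (by linarith)
  have h3 : ∑ s ∈ Zf riemannZeta a b, mm s ≤ (NN riemannZeta a (a + 2 * n) : ℝ) := by
    rw [← NN_eq' (by linarith)]
    refine Finset.sum_le_sum_of_subset_of_nonneg ?_ fun s _ _ => mm_nonneg s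
    intro s hs
    rw [mem_Zf good_zeta (by linarith)] at hs ⊢
    exact ⟨hs.1, hs.2.1, hs.2.2.1, by linarith [hs.2.2.2.1], hs.2.2.2.2⟩
  have hl : 0 < Real.log a := by linarith [one_lt_log ha]
  have h4 : Real.log (a + 2 * n) ≤ 2 * Real.log a := by
    have : Real.log (a + 2 * n) ≤ Real.log (a ^ 2) := Real.log_le_log (by
      have : (0 : ℝ) ≤ n := n.cast_nonneg
      linarith) (by nlinarith)
    rwa [Real.log_pow] at this
  calc ∑ s ∈ Zf riemannZeta a b, mm s ≤ C * n * Real.log (a + 2 * n) := h3.trans (h a ha n)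
    _ ≤ C * ((b - a) + 1) * (2 * Real.log a) := by
        have h5 : C * n ≤ C * ((b - a) + 1) := by
          apply mul_le_mul_of_nonneg_left _ hC.le
          linarith
        exact mul_le_mul h5 h4 (Real.log_nonneg (by
          have : (0 : ℝ) ≤ n := n.cast_nonneg
          linarith)) (mul_nonneg hC.le (by linarith))
    _ ≤ _ := by
        have : 0 ≤ C * (b - a + 1) * Real.log a := by
          apply mul_nonneg (mul_nonneg hC.le (by linarith)) hl.le
        linarith

lemma sq_split {x y : ℝ} : (x + y) ^ 2 ≤ 3 / 2 * x ^ 2 + 3 * y ^ 2 := by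
  nlinarith [sq_nonneg (x - 2 * y)]

/-- the second moment over a block -/
theorem sm_blk : ∃ C T0 : ℝ, 0 < C ∧ 10 ≤ T0 ∧ ∀ q : ℝ, T0 ≤ q →
    ∫⁻ t, ENNReal.ofReal (fw (Zf riemannZeta q (2 * q)) mm (Real.log q) t ^ 2) ≤
      ENNReal.ofReal (C * q) := by
  obtain ⟨κ, C1, T1, hκ, -, hC1, hT1, h1⟩ := Pool.Agent.TH850.UV.loc2
  refine ⟨C1, T1, hC1, hT1, fun q hq => le_trans ?_ (h1 q hq)⟩
  have hlq := one_lt_log (show 3 ≤ q by linarith)
  refine lintegral_mono fun t => ENNReal.ofReal_le_ofReal ?_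
  refine pow_le_pow_left₀ (fw_nonneg mm_nonneg t) ?_ 2
  unfold fw
  refine Finset.sum_le_sum fun s _ => ?_
  apply le_mul_of_one_le_right (mm_nonneg s)
  unfold Pool.Agent.TH850.UR.ew
  apply Real.one_le_exp
  positivity

/-- the second moment over all zeros up to `T` -/
theorem sm_all : ∃ C T0 : ℝ, 0 < C ∧ 10 ≤ T0 ∧ ∀ T : ℝ, T0 ≤ T →
    ∫⁻ t, ENNReal.ofReal (fw (ZZ T) mm (Real.log T) t ^ 2) ≤ ENNReal.ofReal (C * T) := by
  classical
  obtain ⟨κ, C1, T1, hκ, -, hC1, hT1, h1⟩ := Pool.Agent.TH850.UV.loc2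
  obtain ⟨C2, hC2, h2⟩ := sup_fw
  obtain ⟨K, hK⟩ : ∃ K : ℝ, K = (C2 * Real.log (2 * T1)) ^ 2 * (2 * T1 + 2) := ⟨_, rfl⟩
  have hlT1 : 0 < Real.log (2 * T1) := Real.log_pos (by linarith)
  have hK0 : 0 ≤ K := by rw [hK]; positivity
  refine ⟨K + 6 * C1, T1, by positivity, hT1, ?_⟩
  have key : ∀ n : ℕ, ∀ T : ℝ, T1 ≤ T → T ≤ 2 ^ (n + 1) * T1 →
      ∫⁻ t, ENNReal.ofReal (fw (ZZ T) mm (Real.log T) t ^ 2) ≤
        ENNReal.ofReal ((K + 6 * C1) * T) := by
    intro n
    induction n with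
    | zero =>
      intro T hT hT2
      rw [zero_add, pow_one] at hT2
      have hT10 : 10 ≤ T := hT1.trans hT
      have hL := one_lt_log (show 3 ≤ T by linarith)
      have hb : ∀ t, fw (ZZ T) mm (Real.log T) t ^ 2 ≤
          (Icc (-1) (2 * T1 + 1)).indicator (fun _ => (C2 * Real.log (2 * T1)) ^ 2) t := by
        intro t
        by_cases ht : t ∈ Icc (-1) (2 * T1 + 1)
        · rw [indicator_of_mem ht]
          refine pow_le_pow_left₀ (fw_nonneg mm_nonneg t) ((h2 T hT10 _ hL t).trans ?_) 2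
          gcongr
        · rw [indicator_of_notMem ht]
          have : fw (ZZ T) mm (Real.log T) t = 0 := by
            unfold fw
            apply Finset.sum_eq_zero
            intro s hs
            exfalso
            rw [Finset.mem_filter, mem_ZZ] at hs
            obtain ⟨⟨h1, h2, h3, h4, h5⟩, h6⟩ := hs
            have h7 := abs_le.1 h6
            have h8 : 1 / Real.log T ≤ 1 := by rw [div_le_one (by linarith)]; exact hL.le
            exact ht ⟨by linarith, by linarith⟩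
          rw [this]; norm_num
      calc ∫⁻ t, ENNReal.ofReal (fw (ZZ T) mm (Real.log T) t ^ 2) ≤
            ∫⁻ t, (Icc (-1) (2 * T1 + 1)).indicator
              (fun _ => ENNReal.ofReal ((C2 * Real.log (2 * T1)) ^ 2)) t := by
            refine lintegral_mono fun t => (ENNReal.ofReal_le_ofReal (hb t)).trans (le_of_eq ?_)
            by_cases ht : t ∈ Icc (-1) (2 * T1 + 1)
            · rw [indicator_of_mem ht, indicator_of_mem ht]
            · rw [indicator_of_notMem ht, indicator_of_notMem ht, ENNReal.ofReal_zero]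
        _ = ENNReal.ofReal K := by
            rw [lintegral_indicator_const measurableSet_Icc, Real.volume_Icc, hK,
              ← ENNReal.ofReal_mul (by positivity)]
            congr 1; ring
        _ ≤ _ := by
            apply ENNReal.ofReal_le_ofReal
            nlinarith
    | succ n ih =>
      intro T hT hT2
      rcases le_or_gt T (2 ^ (n + 1) * T1) with hTn | hTn
      · exact ih T hT hTn
      have h2n : (2 : ℝ) ≤ 2 ^ (n + 1) := by
        have : (1 : ℝ) ≤ 2 ^ n := one_le_pow₀ (by norm_num)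
        rw [pow_succ]; linarith
      obtain ⟨q, hq⟩ : ∃ q : ℝ, q = T / 2 := ⟨_, rfl⟩
      have hT' : T = 2 * q := by rw [hq]; ring
      have hq1 : T1 ≤ q := by
        rw [hq]; nlinarith
      have hq2 : q ≤ 2 ^ (n + 1) * T1 := by
        rw [hq]
        have : (2 : ℝ) ^ (n + 1 + 1) * T1 = 2 * (2 ^ (n + 1) * T1) := by rw [pow_succ]; ring
        linarith
      have hq10 : 10 ≤ q := hT1.trans hq1
      have hlq := one_lt_log (show 3 ≤ q by linarith)
      have hlqT : Real.log q ≤ Real.log T := Real.log_le_log (by linarith) (by linarith)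
      have e1 := ih q hq1 hq2
      have e2 := h1 q hq1
      have hb : ∀ t, fw (ZZ T) mm (Real.log T) t ^ 2 ≤
          3 / 2 * fw (ZZ q) mm (Real.log q) t ^ 2 +
          3 * (∑ s ∈ (Zf riemannZeta q (2 * q)).filter (fun s => |s.im - t| ≤ 1 / Real.log q),
            (mult riemannZeta s : ℝ) * Pool.Agent.TH850.UR.ew κ (Real.log q) s) ^ 2 := by
        intro t
        refine le_trans ?_ sq_split
        refine pow_le_pow_left₀ (fw_nonneg mm_nonneg t) ?_ 2
        have e3 := fw_L (A := ZZ T) mm_nonneg (by linarith) hlqT t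
        refine e3.trans ?_
        have e4 : fw (ZZ T) mm (Real.log q) t = fw (ZZ q) mm (Real.log q) t +
            fw (Zf riemannZeta q (2 * q)) mm (Real.log q) t := by
          unfold fw
          rw [← Finset.sum_union]
          · rw [← Finset.filter_union, ZZ_split (q := q) (T := T) (by linarith) (by linarith), hT']
          · exact Finset.disjoint_filter_filter (ZZ_disj (by linarith))
        rw [e4]
        gcongr
        unfold fw
        refine Finset.sum_le_sum fun s _ => ?_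
        apply le_mul_of_one_le_right (mm_nonneg s)
        unfold Pool.Agent.TH850.UR.ew
        apply Real.one_le_exp
        positivity
      calc ∫⁻ t, ENNReal.ofReal (fw (ZZ T) mm (Real.log T) t ^ 2) ≤
            ∫⁻ t, (ENNReal.ofReal (3 / 2) * ENNReal.ofReal (fw (ZZ q) mm (Real.log q) t ^ 2) +
            ENNReal.ofReal 3 * ENNReal.ofReal ((∑ s ∈ (Zf riemannZeta q (2 * q)).filter
              (fun s => |s.im - t| ≤ 1 / Real.log q),
            (mult riemannZeta s : ℝ) * Pool.Agent.TH850.UR.ew κ (Real.log q) s) ^ 2)) := by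
            refine lintegral_mono fun t => (ENNReal.ofReal_le_ofReal (hb t)).trans (le_of_eq ?_)
            rw [ENNReal.ofReal_add (by positivity) (by positivity), ENNReal.ofReal_mul (by norm_num),
              ENNReal.ofReal_mul (by norm_num)]
        _ = ENNReal.ofReal (3 / 2) * (∫⁻ t, ENNReal.ofReal (fw (ZZ q) mm (Real.log q) t ^ 2)) +
            ENNReal.ofReal 3 * ∫⁻ t, ENNReal.ofReal ((∑ s ∈ (Zf riemannZeta q (2 * q)).filter
              (fun s => |s.im - t| ≤ 1 / Real.log q),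
            (mult riemannZeta s : ℝ) * Pool.Agent.TH850.UR.ew κ (Real.log q) s) ^ 2) := by
            have m1 : Measurable fun t => ENNReal.ofReal (fw (ZZ q) mm (Real.log q) t ^ 2) :=
              (fw_meas.pow_const 2).ennreal_ofReal
            rw [lintegral_add_left (m1.const_mul _), lintegral_const_mul' _ _ ENNReal.ofReal_ne_top,
              lintegral_const_mul' _ _ ENNReal.ofReal_ne_top]
        _ ≤ ENNReal.ofReal (3 / 2) * ENNReal.ofReal ((K + 6 * C1) * q) +
            ENNReal.ofReal 3 * ENNReal.ofReal (C1 * q) := by gcongr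
        _ = ENNReal.ofReal (3 / 2 * ((K + 6 * C1) * q) + 3 * (C1 * q)) := by
            rw [← ENNReal.ofReal_mul (by norm_num), ← ENNReal.ofReal_mul (by norm_num),
              ← ENNReal.ofReal_add (by positivity) (by positivity)]
        _ ≤ _ := by
            apply ENNReal.ofReal_le_ofReal
            rw [hT']
            nlinarith
  intro T hT
  obtain ⟨n, hn⟩ := pow_unbounded_of_one_lt (T / T1) (show (1 : ℝ) < 2 by norm_num)
  refine key n T hT ?_
  have hT10 : 0 < T1 := by linarith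
  rw [div_lt_iff₀ hT10] at hn
  have : (2 : ℝ) ^ (n + 1) * T1 = 2 * (2 ^ n * T1) := by rw [pow_succ]; ring
  have : 0 < (2 : ℝ) ^ n * T1 := by positivity
  linarith

end Pool.Agent.Y749.Rig
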