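import Mathlib

/-! # Test functions with compactly supported Fourier transform -/

set_option autoImplicit false

open MeasureTheory Set Filter Topology
open Complex (I)
open scoped FourierTransform

namespace Pool.Agent.Y749.Rig

/-- the Fourier-Laplace transform -/
noncomputable def FL (ψ : ℝ → ℝ) (z : ℂ) : ℂ :=
  ∫ α : ℝ, (ψ α : ℂ) * Complex.exp (2 * Real.pi * I * α * z)

/-- the cosine transform -/
noncomputable def fl (ψ : ℝ → ℝ) (x : ℝ) : ℝ := ∫ α : ℝ, ψ α * Real.cos (2 * Real.pi * α * x)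

/-- admissible test functions -/
structure Adm (κ : ℝ) (ψ : ℝ → ℝ) : Prop where
  even : ∀ x, ψ (-x) = ψ x
  lip : ∃ K : ℝ, ∀ x y, |ψ x - ψ y| ≤ K * |x - y|
  supp : ∀ x, κ ≤ |x| → ψ x = 0
  dec : ∃ C : ℝ, ∀ x y : ℝ, ‖FL ψ (x + y * I)‖ ≤ C * Real.exp (2 * Real.pi * κ * |y|) / (1 + x ^ 2)

variable {κ : ℝ} {ψ : ℝ → ℝ}

lemma Adm.cont (h : Adm κ ψ) : Continuous ψ := by
  obtain ⟨K, hK⟩ := h.lip
  have : LipschitzWith K.toNNReal ψ := by
    refine LipschitzWith.of_dist_le_mul fun x y => ?_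
    rw [Real.dist_eq, Real.dist_eq]
    refine (hK x y).trans (mul_le_mul_of_nonneg_right ?_ (abs_nonneg _))
    rw [Real.coe_toNNReal']
    exact le_max_left _ _
  exact this.continuous

lemma Adm.hcs (h : Adm κ ψ) : HasCompactSupport ψ := by
  refine HasCompactSupport.of_support_subset_isCompact (isCompact_Icc (a := -κ) (b := κ)) ?_
  intro x hx
  by_contra hcon
  apply hx
  apply h.supp
  by_contra h2
  push Not at h2
  exact hcon ⟨(abs_lt.1 h2).1.le, (abs_lt.1 h2).2.le⟩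

lemma Adm.int (h : Adm κ ψ) : Integrable ψ := h.cont.integrable_of_hasCompactSupport h.hcs

lemma Adm.bdd (h : Adm κ ψ) : ∃ M : ℝ, 0 ≤ M ∧ ∀ x, |ψ x| ≤ M := by
  obtain ⟨M, hM⟩ := h.hcs.exists_bound_of_continuous h.cont
  exact ⟨M, (norm_nonneg _).trans (hM 0), fun x => hM x⟩

lemma int_exp_mul (h : Adm κ ψ) (z : ℂ) :
    Integrable fun α : ℝ => (ψ α : ℂ) * Complex.exp (2 * Real.pi * I * α * z) := by
  refine Continuous.integrable_of_hasCompactSupport ?_ ?_
  · have := h.cont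
    fun_prop
  · refine HasCompactSupport.of_support_subset_isCompact (isCompact_Icc (a := -κ) (b := κ)) ?_
    intro x hx
    by_contra hcon
    apply hx
    have : ψ x = 0 := by
      apply h.supp
      by_contra h2
      push Not at h2
      exact hcon ⟨(abs_lt.1 h2).1.le, (abs_lt.1 h2).2.le⟩
    show (ψ x : ℂ) * _ = 0
    rw [this]; simp

lemma exp_split (α x : ℝ) : Complex.exp (2 * Real.pi * I * α * x) =
    ((Real.cos (2 * Real.pi * α * x) : ℝ) : ℂ) + ((Real.sin (2 * Real.pi * α * x) : ℝ) : ℂ) * I := by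
  have : 2 * Real.pi * I * α * x = ((2 * Real.pi * α * x : ℝ) : ℂ) * I := by push_cast; ring
  rw [this, Complex.exp_mul_I, Complex.ofReal_cos, Complex.ofReal_sin]

lemma int_zero_of_odd {f : ℝ → ℝ} (h : ∀ x, f (-x) = -f x) : ∫ x, f x = 0 := by
  have h1 := integral_neg_eq_self f volume
  simp_rw [h] at h1
  rw [integral_neg] at h1
  linarith

lemma FL_real (hi : Integrable ψ) (he : ∀ x, ψ (-x) = ψ x) (x : ℝ) : FL ψ x = (fl ψ x : ℂ) := by
  unfold FL fl
  have i1 : Integrable fun α : ℝ => ψ α * Real.cos (2 * Real.pi * α * x) := by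
    refine hi.mul_bdd (c := 1) (by fun_prop) (ae_of_all _ fun α => ?_)
    rw [Real.norm_eq_abs]; exact Real.abs_cos_le_one _
  have i2 : Integrable fun α : ℝ => ψ α * Real.sin (2 * Real.pi * α * x) := by
    refine hi.mul_bdd (c := 1) (by fun_prop) (ae_of_all _ fun α => ?_)
    rw [Real.norm_eq_abs]; exact Real.abs_sin_le_one _
  have e : ∀ α : ℝ, (ψ α : ℂ) * Complex.exp (2 * Real.pi * I * α * x) =
      ((ψ α * Real.cos (2 * Real.pi * α * x) : ℝ) : ℂ) +
      ((ψ α * Real.sin (2 * Real.pi * α * x) : ℝ) : ℂ) * I := by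
    intro α
    rw [exp_split]
    push_cast; ring
  have j1 : Integrable fun α : ℝ => ((ψ α * Real.cos (2 * Real.pi * α * x) : ℝ) : ℂ) := i1.ofReal
  have j2 : Integrable fun α : ℝ => ((ψ α * Real.sin (2 * Real.pi * α * x) : ℝ) : ℂ) * I :=
    i2.ofReal.mul_const I
  rw [integral_congr_ae (ae_of_all _ e), integral_add j1 j2, integral_mul_const,
    integral_complex_ofReal, integral_complex_ofReal]
  have : ∫ α : ℝ, ψ α * Real.sin (2 * Real.pi * α * x) = 0 := by
    apply int_zero_of_odd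
    intro α
    rw [he, show 2 * Real.pi * -α * x = -(2 * Real.pi * α * x) by ring, Real.sin_neg]
    ring
  rw [this]
  simp

lemma fl_cont (hi : Integrable ψ) : Continuous (fl ψ) := by
  unfold fl
  refine continuous_of_dominated (F := fun x α => ψ α * Real.cos (2 * Real.pi * α * x))
    (bound := fun α => |ψ α|) ?_ ?_ hi.abs ?_
  · intro x
    exact hi.aestronglyMeasurable.mul (by fun_prop)
  · intro x
    refine ae_of_all _ fun α => ?_
    rw [Real.norm_eq_abs, abs_mul]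
    exact mul_le_of_le_one_right (abs_nonneg _) (Real.abs_cos_le_one _)
  · refine ae_of_all _ fun α => ?_
    fun_prop

lemma fl_even (x : ℝ) : fl ψ (-x) = fl ψ x := by
  unfold fl
  refine integral_congr_ae (ae_of_all _ fun α => ?_)
  show ψ α * Real.cos (2 * Real.pi * α * -x) = ψ α * Real.cos (2 * Real.pi * α * x)
  rw [show 2 * Real.pi * α * -x = -(2 * Real.pi * α * x) by ring, Real.cos_neg]

lemma fl_bound (h : Adm κ ψ) : ∃ B : ℝ, ∀ x, |fl ψ x| ≤ B / (1 + x ^ 2) := by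
  obtain ⟨C, hC⟩ := h.dec
  refine ⟨C, fun x => ?_⟩
  have := hC x 0
  simp only [Complex.ofReal_zero, zero_mul, add_zero, abs_zero, mul_zero, Real.exp_zero,
    mul_one] at this
  rwa [FL_real h.int h.even, Complex.norm_real] at this

lemma int_inv : Integrable fun x : ℝ => 1 / (1 + x ^ 2) := by
  simpa [one_div] using integrable_inv_one_add_sq

lemma fl_int (h : Adm κ ψ) : Integrable (fl ψ) := by
  obtain ⟨B, hB⟩ := fl_bound h
  refine (int_inv.const_mul B).mono' (fl_cont h.int).aestronglyMeasurable (ae_of_all _ fun x => ?_)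
  rw [Real.norm_eq_abs, mul_one_div]
  exact hB x

lemma four_eq (hi : Integrable ψ) (he : ∀ x, ψ (-x) = ψ x) (x : ℝ) :
    𝓕 (fun α : ℝ => (ψ α : ℂ)) x = (fl ψ x : ℂ) := by
  rw [Real.fourier_real_eq_integral_exp_smul, ← fl_even, ← FL_real hi he]
  unfold FL
  refine integral_congr_ae (ae_of_all _ fun α => ?_)
  simp only [smul_eq_mul]
  rw [mul_comm]
  congr 2
  push_cast; ring

lemma inv_four (h : Adm κ ψ) (α : ℝ) : fl (fl ψ) α = ψ α := by
  have hi : Integrable (fun α : ℝ => (ψ α : ℂ)) := h.int.ofReal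
  have e1 : 𝓕 (fun α : ℝ => (ψ α : ℂ)) = fun x => ((fl ψ x : ℝ) : ℂ) :=
    funext fun x => four_eq h.int h.even x
  have hi2 : Integrable (𝓕 (fun α : ℝ => (ψ α : ℂ))) := by
    rw [e1]; exact (fl_int h).ofReal
  have hc : Continuous (fun α : ℝ => (ψ α : ℂ)) := Complex.continuous_ofReal.comp h.cont
  have h1 := congrFun (hc.fourierInv_fourier_eq hi hi2) (-α)
  rw [Real.fourierInv_eq_fourier_neg, neg_neg, e1, four_eq (fl_int h) (fun x => fl_even x)] at h1
  rw [h.even] at h1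
  exact_mod_cast h1

lemma int_fl (h : Adm κ ψ) : ∫ x, fl ψ x = ψ 0 := by
  have := inv_four h 0
  unfold fl at this ⊢
  simpa using this

/-- the Fourier transform is self-adjoint -/
lemma parseval {ψ₁ ψ₂ : ℝ → ℝ} (h1 : Integrable ψ₁) (h2 : Integrable ψ₂) (e1 : ∀ x, ψ₁ (-x) = ψ₁ x)
    (e2 : ∀ x, ψ₂ (-x) = ψ₂ x) : ∫ x, fl ψ₁ x * ψ₂ x = ∫ x, ψ₁ x * fl ψ₂ x := by
  have h := VectorFourier.integral_fourierIntegral_smul_eq_flip (V := ℝ) (W := ℝ) (L := innerₗ ℝ)
    (μ := volume) (ν := volume) (f := fun α : ℝ => (ψ₁ α : ℂ)) (g := fun α : ℝ => (ψ₂ α : ℂ))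
    Real.continuous_fourierChar (by exact continuous_inner) h1.ofReal h2.ofReal
  have a1 : ∀ x, VectorFourier.fourierIntegral Real.fourierChar volume (innerₗ ℝ)
      (fun α : ℝ => (ψ₁ α : ℂ)) x = (fl ψ₁ x : ℂ) := fun x => four_eq h1 e1 x
  have a2 : ∀ x, VectorFourier.fourierIntegral Real.fourierChar volume (innerₗ ℝ).flip
      (fun α : ℝ => (ψ₂ α : ℂ)) x = (fl ψ₂ x : ℂ) := by
    intro x
    rw [flip_innerₗ]
    exact four_eq h2 e2 x
  simp_rw [a1, a2, smul_eq_mul, ← Complex.ofReal_mul] at h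
  rw [integral_complex_ofReal, integral_complex_ofReal] at h
  exact_mod_cast h

end Pool.Agent.Y749.Rig
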