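import Pool.Agent.Y749.Rig.Ana

/-! # Windows of two incommensurable lengths -/

set_option autoImplicit false

open MeasureTheory Set Filter Topology
open scoped NNReal ENNReal

namespace Pool.Agent.Y749.Rig

variable {C : ℝ}

lemma ae_shift {P : ℝ → Prop} (h : ∀ᵐ x : ℝ, P x) (t : ℝ) : ∀ᵐ x : ℝ, P (x + t) :=
  (measurePreserving_add_right volume t).quasiMeasurePreserving.ae h

lemma ae_neg {P : ℝ → Prop} (h : ∀ᵐ x : ℝ, P x) : ∀ᵐ x : ℝ, P (-x) :=
  (Measure.measurePreserving_neg (volume : Measure ℝ)).quasiMeasurePreserving.ae h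

lemma no_atom (μ : Measure ℝ) [SFinite μ] : ∀ᵐ x : ℝ, μ {x} = 0 := by
  have h := Measure.countable_meas_pos_of_disjoint_iUnion (μ := μ) (As := fun x : ℝ => {x})
    (fun x => measurableSet_singleton x) (fun x y hxy => by
      simpa [Function.onFun] using hxy)
  rw [ae_iff]
  refine (h.mono ?_).measure_zero _
  intro x hx
  exact pos_iff_ne_zero.2 hx

/-- half open windows -/
noncomputable def wo (μ : Measure ℝ) (s r : ℝ) : ℝ := μ.real (Ioc s (s + r))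

lemma oc_top {μ : Measure ℝ} (h : Bdd C μ) (a b : ℝ) : μ (Ioc a b) ≠ ⊤ :=
  ((measure_mono Ioc_subset_Icc_self).trans_lt (h.lt_top a b)).ne

lemma wo_add {μ : Measure ℝ} (h : Bdd C μ) {s r r' : ℝ} (hr : 0 ≤ r) (hr' : 0 ≤ r') :
    wo μ s (r + r') = wo μ s r + wo μ (s + r) r' := by
  unfold wo
  rw [← measureReal_union _ measurableSet_Ioc (oc_top h _ _) (oc_top h _ _),
    Ioc_union_Ioc_eq_Ioc (by linarith) (by linarith), add_assoc]
  exact Ioc_disjoint_Ioc_of_le le_rfl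

lemma wo_mono {μ : Measure ℝ} (h : Bdd C μ) {s r r' : ℝ} (hr : r ≤ r') : wo μ s r ≤ wo μ s r' :=
  measureReal_mono (Ioc_subset_Ioc le_rfl (by linarith)) (oc_top h _ _)

lemma wo_lim {μ : Measure ℝ} (h : Bdd C μ) (s r : ℝ) :
    Tendsto (fun n : ℕ => wo μ s (r + 1 / ((n : ℝ) + 1))) atTop (𝓝 (wo μ s r)) := by
  have h2 : ⋂ n : ℕ, Ioc s (s + (r + 1 / ((n : ℝ) + 1))) = Ioc s (s + r) := by
    ext x
    simp only [mem_iInter, mem_Ioc]
    constructor
    · intro hx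
      refine ⟨(hx 0).1, ?_⟩
      have h3 := tendsto_one_div_add_atTop_nhds_zero_nat (𝕜 := ℝ)
      have h4 : Tendsto (fun n : ℕ => s + (r + 1 / ((n : ℝ) + 1))) atTop (𝓝 (s + (r + 0))) :=
        (h3.const_add _).const_add _
      rw [add_zero] at h4
      exact ge_of_tendsto' h4 fun n => (hx n).2
    · intro hx n
      have : (0 : ℝ) < 1 / (n + 1) := by positivity
      exact ⟨hx.1, by linarith [hx.2]⟩
  have h4 := tendsto_measure_iInter_atTop (μ := μ)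
      (s := fun n : ℕ => Ioc s (s + (r + 1 / ((n : ℝ) + 1))))
      (fun n => measurableSet_Ioc.nullMeasurableSet) ?_ ⟨0, oc_top h _ _⟩
  · rw [h2] at h4
    exact (ENNReal.tendsto_toReal (oc_top h _ _)).comp h4
  · intro m n hmn
    have h5 : 1 / ((n : ℝ) + 1) ≤ 1 / ((m : ℝ) + 1) := by
      apply one_div_le_one_div_of_le (by positivity)
      have : (m : ℝ) ≤ n := by exact_mod_cast hmn
      linarith
    exact Ioc_subset_Ioc le_rfl (by linarith)

lemma wf_wo {μ : Measure ℝ} [SFinite μ] (h : Bdd C μ) {b : ℝ} (hb : 0 ≤ b) :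
    ∀ᵐ x : ℝ, wf μ b x = wo μ (x - b) (2 * b) := by
  filter_upwards [ae_shift (no_atom μ) (-b)] with x hx
  unfold wf wo
  rw [← sub_eq_add_neg] at hx
  have e : x - b + 2 * b = x + b := by ring
  rw [e, ← Icc_union_Ioc_eq_Icc (le_refl (x - b)) (by linarith : x - b ≤ x + b), Icc_self,
    measureReal_union _ measurableSet_Ioc (by rw [hx]; simp) (oc_top h _ _), Measure.real, hx]
  · simp
  · rw [Set.disjoint_singleton_left]
    intro hcon
    exact lt_irrefl _ hcon.1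

section

variable {μ₁ μ₂ : Measure ℝ}

/-- equality almost everywhere of the windows of length `r` -/
def Eo (μ₁ μ₂ : Measure ℝ) (r : ℝ) : Prop := ∀ᵐ s : ℝ, wo μ₁ s r = wo μ₂ s r

lemma eo_add (h1 : Bdd C μ₁) (h2 : Bdd C μ₂) {r r' : ℝ} (hr : 0 ≤ r) (hr' : 0 ≤ r')
    (e : Eo μ₁ μ₂ r) (e' : Eo μ₁ μ₂ r') : Eo μ₁ μ₂ (r + r') := by
  filter_upwards [e, ae_shift e' r] with s a1 a2
  rw [wo_add h1 hr hr', wo_add h2 hr hr', a1, a2]

lemma eo_sub (h1 : Bdd C μ₁) (h2 : Bdd C μ₂) {r r' : ℝ} (hr : 0 ≤ r) (hr' : 0 ≤ r')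
    (e : Eo μ₁ μ₂ (r + r')) (e' : Eo μ₁ μ₂ r') : Eo μ₁ μ₂ r := by
  filter_upwards [e, ae_shift e' r] with s a1 a2
  rw [wo_add h1 hr hr', wo_add h2 hr hr', a2] at a1
  linarith

lemma eo_nat (h1 : Bdd C μ₁) (h2 : Bdd C μ₂) {r : ℝ} (hr : 0 ≤ r) (e : Eo μ₁ μ₂ r) (n : ℕ) :
    Eo μ₁ μ₂ (n * r) := by
  induction n with
  | zero =>
    refine ae_of_all _ fun s => ?_
    unfold wo
    simp
  | succ n ih =>
    have := eo_add h1 h2 (by positivity) hr ih e
    rwa [show (n : ℝ) * r + r = ((n + 1 : ℕ) : ℝ) * r by push_cast; ring] at this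

lemma eo_int (h1 : Bdd C μ₁) (h2 : Bdd C μ₂) {r₁ r₂ : ℝ} (hr₁ : 0 < r₁) (hr₂ : 0 < r₂)
    (e₁ : Eo μ₁ μ₂ r₁) (e₂ : Eo μ₁ μ₂ r₂) (m n : ℤ) (h0 : 0 ≤ m * r₁ + n * r₂) :
    Eo μ₁ μ₂ (m * r₁ + n * r₂) := by
  obtain ⟨k, rfl | rfl⟩ := Int.eq_nat_or_neg m
  · obtain ⟨l, rfl | rfl⟩ := Int.eq_nat_or_neg n
    · exact_mod_cast eo_add h1 h2 (by positivity) (by positivity) (eo_nat h1 h2 hr₁.le e₁ k)
        (eo_nat h1 h2 hr₂.le e₂ l)
    · have h3 := eo_nat h1 h2 hr₁.le e₁ k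
      have h4 := eo_nat h1 h2 hr₂.le e₂ l
      refine eo_sub h1 h2 h0 (by positivity : 0 ≤ (l : ℝ) * r₂) ?_ h4
      push_cast
      rwa [show (k : ℝ) * r₁ + -(l : ℝ) * r₂ + l * r₂ = k * r₁ by ring]
  · obtain ⟨l, rfl | rfl⟩ := Int.eq_nat_or_neg n
    · have h3 := eo_nat h1 h2 hr₁.le e₁ k
      have h4 := eo_nat h1 h2 hr₂.le e₂ l
      refine eo_sub h1 h2 h0 (by positivity : 0 ≤ (k : ℝ) * r₁) ?_ h3
      push_cast
      rwa [show -(k : ℝ) * r₁ + (l : ℝ) * r₂ + k * r₁ = l * r₂ by ring]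
    · push_cast at h0 ⊢
      have a1 : 0 ≤ (k : ℝ) * r₁ := by positivity
      have a2 : 0 ≤ (l : ℝ) * r₂ := by positivity
      have a3 : -(k : ℝ) * r₁ + -(l : ℝ) * r₂ = 0 := by linarith
      rw [a3]
      refine ae_of_all _ fun s => ?_
      unfold wo
      simp

lemma eo_all (h1 : Bdd C μ₁) (h2 : Bdd C μ₂) {r₁ r₂ : ℝ} (hr₁ : 0 < r₁) (hr₂ : 0 < r₂)
    (hir : Irrational (r₁ / r₂)) (e₁ : Eo μ₁ μ₂ r₁) (e₂ : Eo μ₁ μ₂ r₂) {r : ℝ} (hr : 0 ≤ r) :
    Eo μ₁ μ₂ r := by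
  have hd := dense_addSubgroupClosure_pair_iff.2 hir
  have hex : ∀ n : ℕ, ∃ t : ℝ, r ≤ t ∧ t ≤ r + 1 / ((n : ℝ) + 1) ∧ Eo μ₁ μ₂ t := by
    intro n
    have hpos : (0 : ℝ) < 1 / (n + 1) := by positivity
    obtain ⟨t, ht1, ht2⟩ := hd.exists_mem_open isOpen_Ioo
      (nonempty_Ioo.2 (show r < r + 1 / ((n : ℝ) + 1) by linarith))
    obtain ⟨m, k, hmk⟩ := AddSubgroup.mem_closure_pair.1 ht1
    rw [zsmul_eq_mul, zsmul_eq_mul] at hmk
    refine ⟨t, ht2.1.le, ht2.2.le, ?_⟩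
    rw [← hmk]
    exact eo_int h1 h2 hr₁ hr₂ e₁ e₂ m k (by rw [hmk]; linarith [ht2.1])
  choose t ht1 ht2 ht3 using hex
  have h3 : ∀ᵐ s : ℝ, ∀ n : ℕ, wo μ₁ s (t n) = wo μ₂ s (t n) := ae_all_iff.2 ht3
  filter_upwards [h3] with s hs
  have l1 : Tendsto (fun n => wo μ₁ s (t n)) atTop (𝓝 (wo μ₁ s r)) :=
    tendsto_of_tendsto_of_tendsto_of_le_of_le tendsto_const_nhds (wo_lim h1 s r)
      (fun n => wo_mono h1 (ht1 n)) (fun n => wo_mono h1 (ht2 n))
  have l2 : Tendsto (fun n => wo μ₂ s (t n)) atTop (𝓝 (wo μ₂ s r)) :=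
    tendsto_of_tendsto_of_tendsto_of_le_of_le tendsto_const_nhds (wo_lim h2 s r)
      (fun n => wo_mono h2 (ht1 n)) (fun n => wo_mono h2 (ht2 n))
  refine tendsto_nhds_unique l1 (l2.congr fun n => (hs n).symm)

/-- two incommensurable lengths suffice -/
theorem two_len [SFinite μ₁] [SFinite μ₂] (h1 : Bdd C μ₁) (h2 : Bdd C μ₂) {b₁ b₂ : ℝ} (hb₁ : 0 < b₁)
    (hb₂ : 0 < b₂) (hir : Irrational (b₁ / b₂)) (e₁ : ∀ᵐ x : ℝ, wf μ₁ b₁ x = wf μ₂ b₁ x)
    (e₂ : ∀ᵐ x : ℝ, wf μ₁ b₂ x = wf μ₂ b₂ x) {b : ℝ} (hb : 0 < b) :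
    ∀ᵐ x : ℝ, wf μ₁ b x = wf μ₂ b x := by
  have key : ∀ b : ℝ, 0 < b → (∀ᵐ x : ℝ, wf μ₁ b x = wf μ₂ b x) → Eo μ₁ μ₂ (2 * b) := by
    intro b hb e
    have h3 : ∀ᵐ x : ℝ, wo μ₁ (x - b) (2 * b) = wo μ₂ (x - b) (2 * b) := by
      filter_upwards [e, wf_wo h1 hb.le, wf_wo h2 hb.le] with x a1 a2 a3
      rw [← a2, ← a3, a1]
    filter_upwards [ae_shift h3 b] with x hx
    rwa [add_sub_cancel_right] at hx
  have hir2 : Irrational (2 * b₁ / (2 * b₂)) := by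
    rwa [mul_div_mul_left _ _ (two_ne_zero)]
  have e := eo_all h1 h2 (by linarith) (by linarith) hir2 (key b₁ hb₁ e₁) (key b₂ hb₂ e₂)
    (r := 2 * b) (by linarith)
  filter_upwards [ae_shift e (-b), wf_wo h1 hb.le, wf_wo h2 hb.le] with x a1 a2 a3
  rw [a2, a3]
  rwa [← sub_eq_add_neg] at a1

end

/-- the rigidity lemma with a bound almost everywhere -/
theorem lemR_ae {v : ℝ → ℝ} (hv : Integrable v) {C c : ℝ} (hC : 0 ≤ C) (hc : 0 < c)
    (hv1 : ∀ᵐ x : ℝ, v x ≤ C * Real.exp (-(c * |x|))) {η : ℝ} (hη : 0 < η)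
    (h0 : ∀ ω : ℝ, |ω| < η → ∫ x, v x * Real.cos (2 * Real.pi * ω * x) = 0)
    (h1 : ∀ ω : ℝ, |ω| < η → ∫ x, v x * Real.sin (2 * Real.pi * ω * x) = 0) :
    v =ᵐ[volume] 0 := by
  have he : (fun x => min (v x) (C * Real.exp (-(c * |x|)))) =ᵐ[volume] v := by
    filter_upwards [hv1] with x hx using min_eq_left hx
  have h2 := lemR (v := fun x => min (v x) (C * Real.exp (-(c * |x|)))) (hv.congr he.symm) hC hc
    (fun x => min_le_right _ _) hη (fun ω hω => by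
      rw [← h0 ω hω]
      refine integral_congr_ae ?_
      filter_upwards [he] with x hx
      rw [hx]) (fun ω hω => by
      rw [← h1 ω hω]
      refine integral_congr_ae ?_
      filter_upwards [he] with x hx
      rw [hx])
  exact he.symm.trans h2

theorem rig3 {μ₁ μ₂ : Measure ℝ} [SFinite μ₁] [SFinite μ₂] (hC : 0 ≤ C) (h1 : Bdd C μ₁)
    (h2 : Bdd C μ₂) (e1 : Ev μ₁) (e2 : Ev μ₂) {κ : ℝ} (hκ : 0 < κ)
    (ht : ∀ ψ, Adm κ ψ → ∫ x, fl ψ x ∂μ₁ = ∫ x, fl ψ x ∂μ₂) {C' c : ℝ} (hC' : 0 ≤ C') (hc : 0 < c)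
    {b : ℝ} (hb : 0 < b)
    (ho : ∀ᵐ y : ℝ, b < y → wf μ₁ b y - wf μ₂ b y ≤ C' * Real.exp (-(c * (y - b)))) :
    ∀ᵐ x : ℝ, wf μ₁ b x = wf μ₂ b x := by
  have hh : 0 < κ / 2 := by positivity
  have hk := adm_tr hh
  obtain ⟨B, hB⟩ := fl_bound hk
  have hB0 : 0 ≤ B := by
    have := (abs_nonneg _).trans (hB 0)
    simpa using this
  have hkB : ∀ x, fl (tr (κ / 2)) x ≤ B := by
    intro x
    refine (le_abs_self _).trans ((hB x).trans ?_)
    apply div_le_self hB0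
    nlinarith [sq_nonneg x]
  obtain ⟨R, hR⟩ : ∃ R : ℝ, R = ((⌈2 * b⌉₊ : ℕ) + 1) * C := ⟨_, rfl⟩
  have hR0 : 0 ≤ R := by rw [hR]; positivity
  have hu : ∀ x, |wf μ₁ b x - wf μ₂ b x| ≤ R := by
    intro x
    rw [abs_le]
    have a1 := wf_le hC h1 b x
    have a2 := wf_le hC h2 b x
    have a3 := wf_nonneg (μ := μ₁) b x
    have a4 := wf_nonneg (μ := μ₂) b x
    rw [← hR] at a1 a2
    constructor <;> linarith
  have hum : Measurable fun x => wf μ₁ b x - wf μ₂ b x := (wf_meas b).sub (wf_meas b)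
  obtain ⟨v, hv⟩ : ∃ v : ℝ → ℝ, ∀ x, v x = (wf μ₁ b x - wf μ₂ b x) * fl (tr (κ / 2)) x :=
    ⟨_, fun x => rfl⟩
  have hv' : v = fun x => (wf μ₁ b x - wf μ₂ b x) * fl (tr (κ / 2)) x := funext hv
  have hvi : Integrable v := by
    rw [hv']
    refine (fl_int hk).bdd_mul (c := R) hum.aestronglyMeasurable (ae_of_all _ fun x => ?_)
    exact hu x
  have hve : ∀ x, v (-x) = v x := by
    intro x
    rw [hv, hv, wf_even hC h1 e1, wf_even hC h2 e2, fl_even]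
  have hz : v =ᵐ[volume] 0 := by
    refine lemR_ae hvi (C := (R + C') * B * Real.exp (c * b)) (c := c) (by positivity) hc ?_
      (η := κ / 2) hh ?_ ?_
    · have key : ∀ y : ℝ, (b < y → wf μ₁ b y - wf μ₂ b y ≤ C' * Real.exp (-(c * (y - b)))) →
          0 ≤ y → v y ≤ (R + C') * B * Real.exp (c * b) * Real.exp (-(c * y)) := by
        intro y hyo hy
        have k0 := fl_tr_nonneg hh y
        have k1 := hkB y
        rw [hv]
        rcases le_or_gt y b with hyb | hyb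
        · have u1 := (le_abs_self _).trans (hu y)
          have : 1 ≤ Real.exp (c * b) * Real.exp (-(c * y)) := by
            rw [← Real.exp_add]
            apply Real.one_le_exp
            nlinarith
          calc (wf μ₁ b y - wf μ₂ b y) * fl (tr (κ / 2)) y ≤ R * fl (tr (κ / 2)) y := by gcongr
            _ ≤ R * B := by gcongr
            _ ≤ (R + C') * B := by gcongr; linarith
            _ ≤ (R + C') * B * (Real.exp (c * b) * Real.exp (-(c * y))) :=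
                le_mul_of_one_le_right (by positivity) this
            _ = _ := by ring
        · have u1 := hyo hyb
          have e3 : Real.exp (-(c * (y - b))) = Real.exp (c * b) * Real.exp (-(c * y)) := by
            rw [← Real.exp_add]; congr 1; ring
          rw [e3] at u1
          calc (wf μ₁ b y - wf μ₂ b y) * fl (tr (κ / 2)) y ≤
                (C' * (Real.exp (c * b) * Real.exp (-(c * y)))) * fl (tr (κ / 2)) y := by
                  apply mul_le_mul_of_nonneg_right u1 k0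
            _ ≤ (C' * (Real.exp (c * b) * Real.exp (-(c * y)))) * B := by gcongr
            _ ≤ ((R + C') * (Real.exp (c * b) * Real.exp (-(c * y)))) * B := by gcongr; linarith
            _ = _ := by ring
      filter_upwards [ho, ae_neg ho] with x hx1 hx2
      rcases abs_cases x with hx | hx
      · rw [hx.1]; exact key x hx1 hx.2
      · rw [hx.1, ← hve]; exact key (-x) hx2 (by linarith)
    · intro ω hω
      obtain ⟨ψ, hψ⟩ : ∃ ψ, ψ = modu ω (tr (κ / 2)) := ⟨_, rfl⟩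
      have hA : Adm κ ψ := by
        rw [hψ]
        exact (adm_modu hk ω).mono (by linarith)
      have hW := adm_win hA hb.le
      have e3 : ∀ x, v x * Real.cos (2 * Real.pi * ω * x) =
          wf μ₁ b x * fl ψ x - wf μ₂ b x * fl ψ x := by
        intro x
        rw [hv, hψ, fl_modu hk]; ring
      have hi : ∀ {μ : Measure ℝ} [SFinite μ], Bdd C μ → Integrable fun x => wf μ b x * fl ψ x := by
        intro μ _ hμ
        refine (fl_int hA).bdd_mul (c := R) (wf_meas b).aestronglyMeasurable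
          (ae_of_all _ fun x => ?_)
        rw [Real.norm_eq_abs, abs_of_nonneg (wf_nonneg _ _), hR]
        exact wf_le hC hμ b x
      simp_rw [e3]
      rw [integral_sub (hi h1) (hi h2), wf_fubini hC h1 hb.le (fl_cont hA.int) (fl_qd hA),
        wf_fubini hC h2 hb.le (fl_cont hA.int) (fl_qd hA)]
      simp_rw [← fl_win hA hb.le]
      rw [ht _ hW, sub_self]
    · intro ω _
      apply int_zero_of_odd
      intro x
      rw [hve, mul_neg, Real.sin_neg]; ring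
  filter_upwards [hz, fl_tr_ne hh] with x hx hx2
  rw [hv] at hx
  have := (mul_eq_zero.1 hx).resolve_right hx2
  linarith

end Pool.Agent.Y749.Rig
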