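import Pool.Agent.Y749.Rig.Lim

/-! # Windows of locally bounded measures -/

set_option autoImplicit false

open MeasureTheory Set Filter Topology
open scoped NNReal ENNReal

namespace Pool.Agent.Y749.Rig

variable {C : ℝ} {μ : Measure ℝ}

lemma Bdd.nat (h : Bdd C μ) (a : ℝ) (n : ℕ) : μ (Icc a (a + n)) ≤ n * ENNReal.ofReal C + ENNReal.ofReal C := by
  induction n with
  | zero =>
    refine (measure_mono ?_).trans ((h a).trans ?_)
    · exact Icc_subset_Icc le_rfl (by simp)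
    · simp
  | succ n ih =>
    have h1 : Icc a (a + (n + 1 : ℕ)) ⊆ Icc a (a + n) ∪ Icc (a + n) (a + n + 1) := by
      intro x hx
      push_cast at hx
      rcases le_total x (a + n) with h | h
      · left; exact ⟨hx.1, h⟩
      · right; exact ⟨h, by linarith [hx.2]⟩
    refine (measure_mono h1).trans ((measure_union_le _ _).trans ?_)
    refine (add_le_add ih (h _)).trans (le_of_eq ?_)
    push_cast
    ring

lemma Bdd.lt_top (h : Bdd C μ) (a b : ℝ) : μ (Icc a b) < ⊤ := by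
  have h1 : Icc a b ⊆ Icc a (a + (⌈b - a⌉₊ : ℕ)) :=
    Icc_subset_Icc le_rfl (by linarith [Nat.le_ceil (b - a)])
  refine (measure_mono h1).trans_lt ((h.nat a _).trans_lt ?_)
  exact ENNReal.add_lt_top.2 ⟨ENNReal.mul_lt_top (ENNReal.natCast_lt_top _) ENNReal.ofReal_lt_top,
    ENNReal.ofReal_lt_top⟩

lemma Bdd.real_le (hC : 0 ≤ C) (h : Bdd C μ) (x : ℝ) {b : ℝ} (n : ℕ) (hb : 2 * b ≤ n) :
    μ.real (Icc (x - b) (x + b)) ≤ (n + 1) * C := by
  have h1 : Icc (x - b) (x + b) ⊆ Icc (x - b) (x - b + (n : ℕ)) :=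
    Icc_subset_Icc le_rfl (by linarith)
  have h2 : μ (Icc (x - b) (x + b)) ≤ ENNReal.ofReal ((n + 1) * C) := by
    refine (measure_mono h1).trans ((h.nat _ _).trans (le_of_eq ?_))
    rw [ENNReal.ofReal_mul (by positivity), ENNReal.ofReal_add (by positivity) (by norm_num)]
    simp [add_mul]
  rw [Measure.real]
  exact ENNReal.toReal_le_of_le_ofReal (by positivity) h2

lemma Bdd.mono_real (h : Bdd C μ) {a b c d : ℝ} (h1 : c ≤ a) (h2 : b ≤ d) :
    μ.real (Icc a b) ≤ μ.real (Icc c d) :=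
  measureReal_mono (Icc_subset_Icc h1 h2) (h.lt_top _ _).ne

lemma Bdd.integrable (hC : 0 ≤ C) (h : Bdd C μ) {f : ℝ → ℝ} (hf : Continuous f) (hq : QD f) :
    Integrable f μ := by
  obtain ⟨B, hB⟩ := hq
  have h1 : Integrable (fun x : ℝ => 1 / (1 + x ^ 2)) μ := by
    refine ⟨by
      apply Continuous.aestronglyMeasurable
      refine continuous_const.div (by fun_prop) fun x => ?_
      positivity, ?_⟩
    rw [hasFiniteIntegral_iff_ofReal (ae_of_all _ fun x => by positivity)]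
    have h2 := lint_le hC h 0
    have h3 : {x : ℝ | ((0 : ℕ) : ℝ) ≤ |x|} = univ := by
      ext x; simp
    rw [h3, setLIntegral_univ] at h2
    exact h2.trans_lt ENNReal.ofReal_lt_top
  refine (h1.const_mul B).mono' hf.aestronglyMeasurable (ae_of_all _ fun x => ?_)
  rw [Real.norm_eq_abs, mul_one_div]
  exact hB x

/-- trapezoid functions -/
noncomputable def tz (α β δ x : ℝ) : ℝ := max 0 (1 - max 0 (max (α - x) (x - β)) / δ)

lemma tz_cont (α β δ : ℝ) : Continuous (tz α β δ) := by unfold tz; fun_prop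

lemma tz_nonneg (α β δ x : ℝ) : 0 ≤ tz α β δ x := le_max_left _ _

lemma tz_le_one {δ : ℝ} (hδ : 0 < δ) (α β x : ℝ) : tz α β δ x ≤ 1 := by
  unfold tz
  apply max_le (by norm_num)
  have : 0 ≤ max 0 (max (α - x) (x - β)) / δ := by positivity
  linarith

lemma tz_one {δ : ℝ} {α β x : ℝ} (hx : x ∈ Icc α β) : tz α β δ x = 1 := by
  unfold tz
  have : max (α - x) (x - β) ≤ 0 := max_le (by linarith [hx.1]) (by linarith [hx.2])
  rw [max_eq_left this]
  simp

lemma tz_zero {δ : ℝ} (hδ : 0 < δ) {α β x : ℝ} (hx : x ∉ Icc (α - δ) (β + δ)) : tz α β δ x = 0 := by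
  unfold tz
  apply max_eq_left
  have h1 : δ ≤ max 0 (max (α - x) (x - β)) := by
    rw [mem_Icc, not_and_or, not_le, not_le] at hx
    rcases hx with h | h
    · exact le_trans (by linarith) ((le_max_left _ _).trans (le_max_right _ _))
    · exact le_trans (by linarith) ((le_max_right _ _).trans (le_max_right _ _))
  have : 1 ≤ max 0 (max (α - x) (x - β)) / δ := by rwa [one_le_div hδ]
  linarith

lemma tz_qd {δ : ℝ} (hδ : 0 < δ) (α β : ℝ) : QD (tz α β δ) := by
  refine ⟨1 + (|α| + |β| + δ) ^ 2, fun x => ?_⟩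
  rw [abs_of_nonneg (tz_nonneg _ _ _ _), le_div_iff₀ (by positivity)]
  by_cases hx : x ∈ Icc (α - δ) (β + δ)
  · have h1 : |x| ≤ |α| + |β| + δ := by
      rw [abs_le]
      have := neg_abs_le α
      have := le_abs_self β
      have := abs_nonneg α
      have := abs_nonneg β
      constructor <;> linarith [hx.1, hx.2]
    have h2 : x ^ 2 ≤ (|α| + |β| + δ) ^ 2 := by
      rw [← sq_abs x]; exact pow_le_pow_left₀ (abs_nonneg _) h1 2
    have h3 := tz_le_one hδ α β x
    have h4 := tz_nonneg α β δ x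
    nlinarith [sq_nonneg x]
  · rw [tz_zero hδ hx, zero_mul]
    positivity

lemma tz_lower (hC : 0 ≤ C) (h : Bdd C μ) {δ : ℝ} (hδ : 0 < δ) (α β : ℝ) :
    μ.real (Icc α β) ≤ ∫ x, tz α β δ x ∂μ := by
  have h1 : μ.real (Icc α β) = ∫ x, (Icc α β).indicator (fun _ => (1 : ℝ)) x ∂μ := by
    rw [integral_indicator measurableSet_Icc, setIntegral_const]; simp
  rw [h1]
  refine integral_mono ?_ (h.integrable hC (tz_cont _ _ _) (tz_qd hδ _ _)) fun x => ?_
  · rw [integrable_indicator_iff measurableSet_Icc]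
    exact integrableOn_const (h.lt_top _ _).ne
  · by_cases hx : x ∈ Icc α β
    · rw [indicator_of_mem hx, tz_one hx]
    · rw [indicator_of_notMem hx]; exact tz_nonneg _ _ _ _

lemma tz_upper (hC : 0 ≤ C) (h : Bdd C μ) {δ : ℝ} (hδ : 0 < δ) (α β : ℝ) :
    ∫ x, tz α β δ x ∂μ ≤ μ.real (Icc (α - δ) (β + δ)) := by
  have h1 : μ.real (Icc (α - δ) (β + δ)) =
      ∫ x, (Icc (α - δ) (β + δ)).indicator (fun _ => (1 : ℝ)) x ∂μ := by
    rw [integral_indicator measurableSet_Icc, setIntegral_const]; simp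
  rw [h1]
  refine integral_mono (h.integrable hC (tz_cont _ _ _) (tz_qd hδ _ _)) ?_ fun x => ?_
  · rw [integrable_indicator_iff measurableSet_Icc]
    exact integrableOn_const (h.lt_top _ _).ne
  · by_cases hx : x ∈ Icc (α - δ) (β + δ)
    · rw [indicator_of_mem hx]; exact tz_le_one hδ _ _ _
    · rw [indicator_of_notMem hx, tz_zero hδ hx]

/-- the limit of locally bounded measures is locally bounded -/
lemma bdd_limit {M : ℝ → Measure ℝ} {U : Ultrafilter ℝ} (hU : (U : Filter ℝ) ≤ atTop) (hC : 0 ≤ C)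
    (hM : ∀ᶠ T in atTop, Bdd C (M T)) {μ : Measure ℝ} (hμ : ∀ f : ℝ → ℝ, Continuous f → QD f →
      Integrable f μ ∧ Tendsto (fun T => ∫ x, f x ∂(M T)) U (𝓝 (∫ x, f x ∂μ))) :
    Bdd (4 * C) μ := by
  intro a
  obtain ⟨h1, h2⟩ := hμ _ (tz_cont a (a + 1) 1) (tz_qd one_pos _ _)
  have h3 : ∫ x, tz a (a + 1) 1 x ∂μ ≤ 4 * C := by
    refine le_of_tendsto h2 ?_
    filter_upwards [hU hM] with T hT
    refine (tz_upper hC hT one_pos _ _).trans ?_
    have h4 := hT.real_le hC (a + 1 / 2) (b := 3 / 2) 3 (by norm_num)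
    have e1 : a + 1 / 2 - 3 / 2 = a - 1 := by ring
    have e2 : a + 1 / 2 + 3 / 2 = a + 1 + 1 := by ring
    rw [e1, e2] at h4
    push_cast at h4
    linarith
  have h5 : ∫⁻ x in Icc a (a + 1), 1 ∂μ ≤ ∫⁻ x, ENNReal.ofReal (tz a (a + 1) 1 x) ∂μ := by
    refine le_trans (le_of_eq ?_) (setLIntegral_le_lintegral (Icc a (a + 1)) _)
    refine setLIntegral_congr_fun measurableSet_Icc fun x hx => ?_
    rw [tz_one hx, ENNReal.ofReal_one]
  rw [setLIntegral_one] at h5
  refine h5.trans ?_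
  rw [← ofReal_integral_eq_lintegral_ofReal h1 (ae_of_all _ fun x => tz_nonneg _ _ _ _)]
  exact ENNReal.ofReal_le_ofReal h3

/-- the limit of even measures is even -/
lemma tz_neg (α β δ x : ℝ) : tz α β δ (-x) = tz (-β) (-α) δ x := by
  unfold tz
  rw [show α - -x = x - -α by ring, show -x - β = -β - x by ring, max_comm (x - -α)]

/-- even measures -/
def Ev (μ : Measure ℝ) : Prop := ∀ f : ℝ → ℝ, Continuous f → QD f → ∫ x, f (-x) ∂μ = ∫ x, f x ∂μ

lemma qd_neg {f : ℝ → ℝ} (h : QD f) : QD fun x => f (-x) := by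
  obtain ⟨B, hB⟩ := h
  refine ⟨B, fun x => ?_⟩
  have := hB (-x)
  rwa [neg_sq] at this

lemma ev_limit {M : ℝ → Measure ℝ} {U : Ultrafilter ℝ} (hU : (U : Filter ℝ) ≤ atTop)
    (hM : ∀ᶠ T in atTop, Ev (M T)) {μ : Measure ℝ} (hμ : ∀ f : ℝ → ℝ, Continuous f → QD f →
      Integrable f μ ∧ Tendsto (fun T => ∫ x, f x ∂(M T)) U (𝓝 (∫ x, f x ∂μ))) : Ev μ := by
  intro f hf hq
  obtain ⟨-, h2⟩ := hμ _ hf hq
  obtain ⟨-, h4⟩ := hμ (fun x => f (-x)) (by fun_prop) (qd_neg hq)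
  refine tendsto_nhds_unique h4 (h2.congr' ?_)
  filter_upwards [hU hM] with T hT
  exact (hT f hf hq).symm

lemma ev_le (hC : 0 ≤ C) (h : Bdd C μ) (he : Ev μ) (α β : ℝ) :
    μ.real (Icc α β) ≤ μ.real (Icc (-β) (-α)) := by
  have h1 : ∀ n : ℕ, μ.real (Icc α β) ≤ μ.real (Icc (-β - 1 / (n + 1)) (-α + 1 / (n + 1))) := by
    intro n
    have hδ : (0 : ℝ) < 1 / (n + 1) := by positivity
    refine (tz_lower hC h hδ α β).trans ?_
    rw [← he _ (tz_cont _ _ _) (tz_qd hδ _ _)]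
    simp_rw [tz_neg]
    exact tz_upper hC h hδ _ _
  have h2 : ⋂ n : ℕ, Icc (-β - 1 / ((n : ℝ) + 1)) (-α + 1 / ((n : ℝ) + 1)) = Icc (-β) (-α) := by
    ext x
    simp only [mem_iInter, mem_Icc]
    constructor
    · intro hx
      have h3 := tendsto_one_div_add_atTop_nhds_zero_nat (𝕜 := ℝ)
      constructor
      · have h4 : Tendsto (fun n : ℕ => -β - 1 / ((n : ℝ) + 1)) atTop (𝓝 (-β - 0)) :=
          h3.const_sub _
        rw [sub_zero] at h4
        exact le_of_tendsto' h4 fun n => (hx n).1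
      · have h4 : Tendsto (fun n : ℕ => -α + 1 / ((n : ℝ) + 1)) atTop (𝓝 (-α + 0)) :=
          h3.const_add _
        rw [add_zero] at h4
        exact ge_of_tendsto' h4 fun n => (hx n).2
    · intro hx n
      have : (0 : ℝ) < 1 / (n + 1) := by positivity
      exact ⟨by linarith [hx.1], by linarith [hx.2]⟩
  have h3 : Tendsto (fun n : ℕ => μ.real (Icc (-β - 1 / ((n : ℝ) + 1)) (-α + 1 / ((n : ℝ) + 1))))
      atTop (𝓝 (μ.real (Icc (-β) (-α)))) := by
    rw [← h2]
    have h4 := tendsto_measure_iInter_atTop (μ := μ)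
      (s := fun n : ℕ => Icc (-β - 1 / ((n : ℝ) + 1)) (-α + 1 / ((n : ℝ) + 1)))
      (fun n => measurableSet_Icc.nullMeasurableSet) ?_ ⟨0, (h.lt_top _ _).ne⟩
    · exact (ENNReal.tendsto_toReal (by rw [h2]; exact (h.lt_top _ _).ne)).comp h4
    · intro m n hmn
      have h5 : 1 / ((n : ℝ) + 1) ≤ 1 / ((m : ℝ) + 1) := by
        apply one_div_le_one_div_of_le (by positivity)
        have : (m : ℝ) ≤ n := by exact_mod_cast hmn
        linarith
      exact Icc_subset_Icc (by linarith) (by linarith)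
  exact ge_of_tendsto' h3 h1

lemma ev_eq (hC : 0 ≤ C) (h : Bdd C μ) (he : Ev μ) (α β : ℝ) :
    μ.real (Icc (-β) (-α)) = μ.real (Icc α β) := by
  refine le_antisymm ?_ (ev_le hC h he α β)
  have := ev_le hC h he (-β) (-α)
  rwa [neg_neg, neg_neg] at this

end Pool.Agent.Y749.Rig
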